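import Mathlib

/-! Orthogonal group, Haar measure, uniform measure on the unit sphere. -/

set_option autoImplicit false
set_option linter.unusedSectionVars false

open MeasureTheory Set Module
open scoped RealInnerProductSpace

noncomputable section

namespace Pool.Agent.BL

variable (E : Type) [NormedAddCommGroup E] [InnerProductSpace ℝ E] [CompleteSpace E]

/-- the orthogonal group -/
abbrev G : Type := unitary (E →L[ℝ] E)

variable {E}

/-- action of the orthogonal group on vectors -/
def ap (g : G E) (x : E) : E := (g : E →L[ℝ] E) x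

theorem inner_ap (g : G E) (x y : E) : ⟪ap g x, ap g y⟫ = ⟪x, y⟫ :=
  (Unitary.linearIsometryEquiv g).inner_map_map x y

theorem norm_ap (g : G E) (x : E) : ‖ap g x‖ = ‖x‖ :=
  (Unitary.linearIsometryEquiv g).norm_map x

theorem ap_mul (g h : G E) (x : E) : ap (g * h) x = ap g (ap h x) := rfl

@[simp] theorem ap_one (x : E) : ap 1 x = x := rfl

theorem ap_add (g : G E) (x y : E) : ap g (x + y) = ap g x + ap g y := map_add _ _ _

theorem ap_sub (g : G E) (x y : E) : ap g (x - y) = ap g x - ap g y := map_sub _ _ _

theorem ap_neg (g : G E) (x : E) : ap g (-x) = - ap g x := map_neg _ _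

theorem ap_smul (g : G E) (c : ℝ) (x : E) : ap g (c • x) = c • ap g x := map_smul _ _ _

theorem ap_inv_ap (g : G E) (x : E) : ap g⁻¹ (ap g x) = x := by
  rw [← ap_mul, inv_mul_cancel, ap_one]

theorem ap_ap_inv (g : G E) (x : E) : ap g (ap g⁻¹ x) = x := by
  rw [← ap_mul, mul_inv_cancel, ap_one]

theorem inner_ap_left (g : G E) (x y : E) : ⟪ap g x, y⟫ = ⟪x, ap g⁻¹ y⟫ := by
  rw [← inner_ap g x, ap_ap_inv]

@[fun_prop] theorem continuous_ap {X : Type*} [TopologicalSpace X] {g : X → G E} {x : X → E}
    (hg : Continuous g) (hx : Continuous x) : Continuous fun s => ap (g s) (x s) :=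
  (continuous_subtype_val.comp hg).clm_apply hx

/-- the element of the group given by a linear isometry -/
def ofIso (f : E ≃ₗᵢ[ℝ] E) : G E := Unitary.linearIsometryEquiv.symm f

@[simp] theorem ap_ofIso (f : E ≃ₗᵢ[ℝ] E) (x : E) : ap (ofIso f) x = f x := rfl

/-- the isometry given by a group element -/
def toIso (g : G E) : E ≃ₗᵢ[ℝ] E := Unitary.linearIsometryEquiv g

@[simp] theorem toIso_apply (g : G E) (x : E) : toIso g x = ap g x := rfl

instance : MeasurableSpace (G E) := borel _

instance : BorelSpace (G E) := ⟨rfl⟩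

variable [FiniteDimensional ℝ E]

/-- a reflection exchanging two vectors of the same norm and fixing the orthogonal complement of
their difference -/
theorem exists_ap_eq {x y : E} (h : ‖x‖ = ‖y‖) :
    ∃ g : G E, ap g x = y ∧ ap g y = x ∧ ∀ z, ⟪x - y, z⟫ = 0 → ap g z = z := by
  refine ⟨ofIso (Submodule.reflection (ℝ ∙ (x - y))ᗮ), Submodule.reflection_sub h, ?_, ?_⟩
  · have h1 := Submodule.reflection_sub h
    have h2 := Submodule.reflection_reflection (ℝ ∙ (x - y))ᗮ x
    rwa [h1] at h2
  · intro z hz
    exact Submodule.reflection_mem_subspace_eq_self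
      (Submodule.mem_orthogonal_singleton_iff_inner_right.2 hz)

instance : CompactSpace (G E) := by
  have h : IsCompact ((unitary (E →L[ℝ] E) : Submonoid _) : Set (E →L[ℝ] E)) := by
    refine Metric.isCompact_of_isClosed_isBounded isClosed_unitary ?_
    refine (Metric.isBounded_closedBall (x := (0 : E →L[ℝ] E)) (r := 1)).subset fun g hg => ?_
    rw [mem_closedBall_zero_iff]
    refine ContinuousLinearMap.opNorm_le_bound _ zero_le_one fun x => ?_
    rw [one_mul]
    exact (norm_ap ⟨g, hg⟩ x).le
  exact isCompact_iff_compactSpace.1 h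

variable (E) in
/-- normalised Haar measure on the orthogonal group -/
def haar : Measure (G E) := Measure.haarMeasure ⊤

instance : IsProbabilityMeasure (haar E) :=
  ⟨by simpa [haar] using (Measure.haarMeasure_self (G := G E) (K₀ := ⊤))⟩

instance : (haar E).IsHaarMeasure := by
  unfold haar
  infer_instance

instance : (haar E).IsMulRightInvariant := by
  refine ⟨fun g => ?_⟩
  have : IsProbabilityMeasure (Measure.map (· * g) (haar E)) :=
    Measure.isProbabilityMeasure_map (by fun_prop)
  exact Measure.isHaarMeasure_eq_of_isProbabilityMeasure _ _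

variable (E) in
open Classical in
/-- a base point on the unit sphere -/
def pt : E := if h : ∃ x : E, ‖x‖ = 1 then h.choose else 0

theorem norm_pt {x : E} (hx : ‖x‖ = 1) : ‖pt E‖ = 1 := by
  have h : ∃ x : E, ‖x‖ = 1 := ⟨x, hx⟩
  rw [pt, dif_pos h]
  exact h.choose_spec

variable [MeasurableSpace E] [BorelSpace E]

theorem measurable_ap (x : E) : Measurable fun g : G E => ap g x :=
  (continuous_ap continuous_id continuous_const).measurable

theorem measurable_ap_right (g : G E) : Measurable fun x : E => ap g x :=
  (continuous_ap continuous_const continuous_id).measurable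

variable (E) in
/-- the uniform probability measure on the unit sphere, as a measure on `E` -/
def sph : Measure E := (haar E).map fun g => ap g (pt E)

instance : IsProbabilityMeasure (sph E) :=
  Measure.isProbabilityMeasure_map (measurable_ap _).aemeasurable

theorem map_ap {x : E} (hx : ‖x‖ = 1) : (haar E).map (fun g => ap g x) = sph E := by
  obtain ⟨h, hh, -⟩ := exists_ap_eq ((norm_pt hx).trans hx.symm)
  have e : (fun g : G E => ap g x) = (fun g => ap g (pt E)) ∘ (· * h) := by
    funext g
    simp [ap_mul, hh]
  rw [e, ← Measure.map_map (measurable_ap _) (by fun_prop), map_mul_right_eq_self, sph]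

theorem measurePreserving_ap {x : E} (hx : ‖x‖ = 1) :
    MeasurePreserving (fun g : G E => ap g x) (haar E) (sph E) := ⟨measurable_ap x, map_ap hx⟩

theorem sph_map_ap (g : G E) : (sph E).map (ap g) = sph E := by
  have e : (ap g) ∘ (fun h : G E => ap h (pt E)) = (fun h => ap h (pt E)) ∘ (g * ·) := rfl
  rw [sph, Measure.map_map (measurable_ap_right g) (measurable_ap _), e,
    ← Measure.map_map (measurable_ap _) (by fun_prop), map_mul_left_eq_self]

theorem measurePreserving_ap_right (g : G E) : MeasurePreserving (ap g) (sph E) (sph E) :=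
  ⟨measurable_ap_right g, sph_map_ap g⟩

theorem ae_norm [Nontrivial E] : ∀ᵐ x ∂(sph E), ‖x‖ = 1 := by
  obtain ⟨x, hx⟩ := exists_norm_eq E zero_le_one
  rw [← map_ap hx, ae_map_iff (measurable_ap x).aemeasurable
    (measurableSet_eq_fun measurable_norm measurable_const)]
  exact Filter.Eventually.of_forall fun g => (norm_ap g x).trans hx

theorem integral_ap {x : E} (hx : ‖x‖ = 1) {f : E → ℝ} (hf : AEStronglyMeasurable f (sph E)) :
    ∫ g, f (ap g x) ∂(haar E) = ∫ y, f y ∂(sph E) := by
  rw [← map_ap hx] at hf ⊢
  rw [integral_map (measurable_ap x).aemeasurable hf]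

theorem haar_preimage {x : E} (hx : ‖x‖ = 1) {B : Set E} (hB : MeasurableSet B) :
    haar E {g | ap g x ∈ B} = sph E B := by
  rw [← map_ap hx, Measure.map_apply (measurable_ap x) hB]
  rfl

theorem integral_comp_ap (g : G E) {f : E → ℝ} (hf : AEStronglyMeasurable f (sph E)) :
    ∫ y, f (ap g y) ∂(sph E) = ∫ y, f y ∂(sph E) := by
  conv_rhs => rw [← sph_map_ap g]
  rw [integral_map (measurable_ap_right g).aemeasurable (by rwa [sph_map_ap])]

/-- uniqueness of the invariant measure on the sphere -/
theorem eq_smul_sph (m : Measure E) [IsFiniteMeasure m] (h1 : ∀ᵐ x ∂m, ‖x‖ = 1)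
    (h2 : ∀ g : G E, m.map (ap g) = m) : m = m univ • sph E := by
  ext B hB
  have hm : Measurable fun p : G E × E => ap p.1 p.2 :=
    (continuous_ap continuous_fst continuous_snd).measurable
  have hs : MeasurableSet {p : G E × E | ap p.1 p.2 ∈ B} := hm hB
  have e1 : ((haar E).prod m) {p : G E × E | ap p.1 p.2 ∈ B} = m B := by
    rw [Measure.prod_apply hs]
    have : ∀ g : G E, m (Prod.mk g ⁻¹' {p : G E × E | ap p.1 p.2 ∈ B}) = m B := by
      intro g
      conv_rhs => rw [← h2 g, Measure.map_apply (measurable_ap_right g) hB]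
      rfl
    simp only [this]
    simp
  have e2 : ((haar E).prod m) {p : G E × E | ap p.1 p.2 ∈ B} = m univ * sph E B := by
    rw [Measure.prod_apply_symm hs]
    have : ∀ᵐ x ∂m, haar E ((fun g => (g, x)) ⁻¹' {p : G E × E | ap p.1 p.2 ∈ B}) = sph E B := by
      filter_upwards [h1] with x hx
      exact haar_preimage hx hB
    rw [lintegral_congr_ae this, lintegral_const, mul_comm]
  rw [← e1, e2, Measure.smul_apply, smul_eq_mul]

/-- the sphere as a compact set -/
theorem isCompact_unit : IsCompact {x : E | ‖x‖ = 1} := by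
  simpa [Metric.sphere] using isCompact_sphere (0 : E) 1

theorem integrable_of_continuousOn [Nontrivial E] {f : E → ℝ}
    (hf : ContinuousOn f {x : E | ‖x‖ = 1}) : Integrable f (sph E) := by
  have h1 : IntegrableOn f {x : E | ‖x‖ = 1} (sph E) := hf.integrableOn_compact isCompact_unit
  rwa [IntegrableOn, Measure.restrict_eq_self_of_ae_mem (s := {x : E | ‖x‖ = 1}) ae_norm] at h1

theorem integrable_haar {f : G E → ℝ} (hf : Continuous f) : Integrable f (haar E) :=
  hf.integrable_of_hasCompactSupport (HasCompactSupport.of_compactSpace f)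

/-- the cap (or half-space) of height `h` around `e` -/
def cap (e : E) (h : ℝ) : Set E := {x | h ≤ ⟪e, x⟫}

theorem measurableSet_cap (e : E) (h : ℝ) : MeasurableSet (cap e h) :=
  (isClosed_le continuous_const (continuous_const.inner continuous_id)).measurableSet

end Pool.Agent.BL
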