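import Pool.Agent.P.MP_edb112_gt.Basic

/-! Regular simplices, configurations with prescribed heights, freeness. -/

set_option autoImplicit false
set_option linter.unusedSectionVars false

open MeasureTheory Set Module
open scoped RealInnerProductSpace

noncomputable section

namespace Pool.Agent.BL

variable {E : Type} [NormedAddCommGroup E] [InnerProductSpace ℝ E] [CompleteSpace E]
  [FiniteDimensional ℝ E]

/-- the common inner product of the best `t` points in a cap of height `h ≥ 0` -/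
def beta (t : ℕ) (h : ℝ) : ℝ := (t * h ^ 2 - 1) / (t - 1)

/-- `A` contains no `t` unit vectors with all inner products at most `beta t h` -/
def Free (t : ℕ) (h : ℝ) (A : Set E) : Prop :=
  ∀ x : Fin t → E, (∀ a, x a ∈ A) → (∀ a, ‖x a‖ = 1) → ∃ a b, a ≠ b ∧ beta t h < ⟪x a, x b⟫

/-- a configuration of unit vectors close to the regular simplex centred at the origin -/
def Near (t : ℕ) (ε : ℝ) (z : Fin t → E) : Prop :=
  (∀ a, ‖z a‖ = 1) ∧ ∀ a b, a ≠ b → |⟪z a, z b⟫ + 1 / ((t : ℝ) - 1)| ≤ ε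

/-- no rotated copy of `z` has its points in the sets `B a` -/
def OrbFree {t : ℕ} (z : Fin t → E) (B : Fin t → Set E) : Prop :=
  ∀ g : G E, ∃ a, ap g (z a) ∉ B a

/-- the slice of `A` at height `s` over the equator of `e` -/
def slice (e : E) (s : ℝ) (A : Set E) : Set (ℝ ∙ e)ᗮ := {y | s • e + √(1 - s ^ 2) • (y : E) ∈ A}

theorem beta_mono {t : ℕ} (ht : 2 ≤ t) {h h' : ℝ} (h0 : 0 ≤ h') (hh : h' ≤ h) :
    beta t h' ≤ beta t h := by
  have h1 : (2 : ℝ) ≤ t := by exact_mod_cast ht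
  unfold beta
  gcongr
  linarith

theorem beta_eq {t : ℕ} (ht : 2 ≤ t) (h : ℝ) :
    beta t h = (1 - h ^ 2) * (-1 / ((t : ℝ) - 1)) + h ^ 2 := by
  have h1 : (2 : ℝ) ≤ t := by exact_mod_cast ht
  have : (t : ℝ) - 1 ≠ 0 := by linarith
  unfold beta
  field_simp
  ring

theorem finrank_orth {e : E} (he : ‖e‖ = 1) : finrank ℝ (ℝ ∙ e)ᗮ + 1 = finrank ℝ E := by
  have h0 : e ≠ 0 := by
    rintro rfl
    simp at he
  have := Submodule.finrank_add_finrank_orthogonal (ℝ ∙ e)
  rw [finrank_span_singleton h0] at this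
  omega

/-- a regular simplex and two more orthonormal vectors -/
theorem exists_simplex {t : ℕ} (ht : 2 ≤ t) (hn : t + 2 ≤ finrank ℝ E) :
    ∃ (v : Fin t → E) (w w' : E), (∀ a, ‖v a‖ = 1) ∧
      (∀ a b, a ≠ b → ⟪v a, v b⟫ = -1 / ((t : ℝ) - 1)) ∧ ‖w‖ = 1 ∧ ‖w'‖ = 1 ∧ ⟪w, w'⟫ = 0 ∧
      (∀ a, ⟪v a, w⟫ = 0) ∧ ∀ a, ⟪v a, w'⟫ = 0 := by
  classical
  have h1 : (2 : ℝ) ≤ t := by exact_mod_cast ht
  have ht0 : (t : ℝ) ≠ 0 := by linarith
  have ht1 : (0 : ℝ) < t - 1 := by linarith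
  let f : Fin (t + 2) → E := fun i => stdOrthonormalBasis ℝ E (Fin.castLE hn i)
  have hf : ∀ i j, ⟪f i, f j⟫ = if i = j then 1 else 0 := by
    intro i j
    have := orthonormal_iff_ite.1 (stdOrthonormalBasis ℝ E).orthonormal (Fin.castLE hn i)
      (Fin.castLE hn j)
    simpa [f] using this
  let ι : Fin t → Fin (t + 2) := Fin.castLE (by omega)
  have hι : ∀ a b, ι a = ι b ↔ a = b := fun a b => by simp [ι]
  let S : E := ∑ b, f (ι b)
  have hS : ∀ a, ⟪f (ι a), S⟫ = 1 := by
    intro a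
    simp [S, inner_sum, hf, hι]
  have hSS : ⟪S, S⟫ = t := by
    change ⟪∑ b, f (ι b), S⟫ = t
    rw [sum_inner]
    simp [hS]
  let c : ℝ := √(t / (t - 1))
  have hc : c * c = t / (t - 1) := Real.mul_self_sqrt (by positivity)
  have hv : ∀ a b, ⟪c • (f (ι a) - (1 / t : ℝ) • S), c • (f (ι b) - (1 / t : ℝ) • S)⟫ =
      t / (t - 1) * ((if a = b then 1 else 0) - 1 / t) := by
    intro a b
    rw [real_inner_smul_left, real_inner_smul_right, ← mul_assoc, hc, inner_sub_left,
      inner_sub_right, inner_sub_right, real_inner_smul_right, real_inner_smul_left,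
      real_inner_smul_left, real_inner_smul_right, hS, real_inner_comm (f (ι b)) S, hS, hSS, hf]
    simp only [hι]
    field_simp
    ring
  have hw : ∀ (j : Fin (t + 2)), t ≤ j.val → ∀ a, ⟪c • (f (ι a) - (1 / t : ℝ) • S), f j⟫ = 0 := by
    intro j hj a
    have hne : ∀ b, ι b ≠ j := fun b h => by
      have := congrArg Fin.val h
      simp [ι] at this
      omega
    simp [real_inner_smul_left, inner_sub_left, S, sum_inner, hf, hne]
  have hn1 : ∀ j, ‖f j‖ = 1 := fun j => (stdOrthonormalBasis ℝ E).orthonormal.1 _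
  refine ⟨fun a => c • (f (ι a) - (1 / t : ℝ) • S), f ⟨t, by omega⟩, f ⟨t + 1, by omega⟩,
    fun a => ?_, fun a b hab => ?_, hn1 _, hn1 _, by simp [hf], hw _ le_rfl,
    hw _ (Nat.le_succ t)⟩
  · have := hv a a
    rw [real_inner_self_eq_norm_sq, if_pos rfl] at this
    have h2 : (t : ℝ) / (t - 1) * (1 - 1 / t) = 1 := by field_simp
    rw [h2] at this
    exact (sq_eq_sq₀ (norm_nonneg _) zero_le_one).1 (by simpa using this)
  · rw [hv, if_neg hab]
    field_simp
    ring

/-- Gram matrix of a regular simplex applied to a vector with zero sum -/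
theorem sum_inner_simplex {t : ℕ} (ht : 2 ≤ t) {v : Fin t → E} (h1 : ∀ a, ‖v a‖ = 1)
    (h2 : ∀ a b, a ≠ b → ⟪v a, v b⟫ = -1 / ((t : ℝ) - 1)) (d : Fin t → ℝ) (a : Fin t) :
    ∑ b, d b * ⟪v a, v b⟫ = t / (t - 1) * d a - (∑ b, d b) / (t - 1) := by
  classical
  have h0 : (2 : ℝ) ≤ t := by exact_mod_cast ht
  have ht1 : (t : ℝ) - 1 ≠ 0 := by linarith
  have : ∀ b, d b * ⟪v a, v b⟫ = (if a = b then t / (t - 1) * d a else 0) - d b / (t - 1) := by
    intro b
    split_ifs with h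
    · subst h
      rw [real_inner_self_eq_norm_sq, h1]
      field_simp
    · rw [h2 a b h]
      ring
  simp only [this, Finset.sum_sub_distrib, Finset.sum_ite_eq, Finset.mem_univ, if_true,
    Finset.sum_div]

/-- configurations with inner products `beta t h` and prescribed heights `m + d a` over `e` -/
theorem exists_heights {t : ℕ} (ht : 2 ≤ t) (hn : t + 2 ≤ finrank ℝ E) {e : E} (he : ‖e‖ = 1)
    {h m : ℝ} (h0 : 0 ≤ h) (h1 : h < 1) {d : Fin t → ℝ} (hd : ∑ a, d a = 0)
    (hV : ∑ a, d a ^ 2 ≤ t / (t - 1) * (1 - h ^ 2))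
    (hm : m ^ 2 * (1 - h ^ 2) ≤ h ^ 2 * (1 - h ^ 2 - (t - 1) / t * ∑ a, d a ^ 2)) :
    ∃ x : Fin t → E, (∀ a, ‖x a‖ = 1) ∧ (∀ a b, a ≠ b → ⟪x a, x b⟫ = beta t h) ∧
      ∀ a, ⟪e, x a⟫ = m + d a := by
  obtain ⟨v, w, w', hv1, hv2, hw, hw', hww, hvw, hvw'⟩ := exists_simplex ht hn
  have ht2 : (2 : ℝ) ≤ t := by exact_mod_cast ht
  have ht0 : (0 : ℝ) < t := by linarith
  have ht1 : (0 : ℝ) < t - 1 := by linarith
  have hκ : 0 < 1 - h ^ 2 := by nlinarith
  set κ := 1 - h ^ 2 with hκd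
  have hs : 0 < √κ := Real.sqrt_pos.2 hκ
  have hss : √κ * √κ = κ := Real.mul_self_sqrt hκ.le
  set V := (t - 1) / t * ∑ a, d a ^ 2 with hVd
  have hV' : V ≤ κ := by
    rw [hVd]
    calc _ ≤ ((t : ℝ) - 1) / t * (t / (t - 1) * κ) := by gcongr
      _ = κ := by field_simp
  let p : E := ((t - 1) / t / √κ : ℝ) • ∑ b, d b • v b
  have hvp : ∀ a, ⟪v a, p⟫ = d a / √κ := by
    intro a
    simp only [p, real_inner_smul_right, inner_sum]
    rw [sum_inner_simplex ht hv1 hv2, hd]
    field_simp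
    ring
  have hpp : ⟪p, p⟫ = V / κ := by
    change ⟪((t - 1) / t / √κ : ℝ) • ∑ b, d b • v b, p⟫ = _
    rw [real_inner_smul_left, sum_inner]
    simp only [real_inner_smul_left, hvp]
    rw [hVd, ← hss, Finset.mul_sum, Finset.mul_sum, Finset.sum_div]
    refine Finset.sum_congr rfl fun a _ => ?_
    rw [Real.sqrt_mul_self hs.le]
    field_simp
  have hpw : ⟪p, w⟫ = 0 := by simp [p, real_inner_smul_left, sum_inner, hvw]
  have hpw' : ⟪p, w'⟫ = 0 := by simp [p, real_inner_smul_left, sum_inner, hvw']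
  have hω : (m / h) * h = m := by
    rcases h0.eq_or_lt with h2 | h2
    · subst h2
      have : m ^ 2 ≤ 0 := by simpa [hκd] using hm
      have : m = 0 := by nlinarith [sq_nonneg m]
      simp [this]
    · field_simp
  have hω2 : (m / h) ^ 2 + V / κ ≤ 1 := by
    rcases h0.eq_or_lt with h2 | h2
    · subst h2
      simpa [hκd] using hV'
    · rw [div_pow, div_add_div _ _ (by positivity) hκ.ne', div_le_one (by positivity)]
      nlinarith
  let ξ : ℝ := √(1 - (m / h) ^ 2 - V / κ)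
  have hξ : ξ * ξ = 1 - (m / h) ^ 2 - V / κ := Real.mul_self_sqrt (by linarith)
  let e₀ : E := p + (m / h) • w + ξ • w'
  have hww1 : ⟪w, w⟫ = 1 := by rw [real_inner_self_eq_norm_sq, hw]; norm_num
  have hww2 : ⟪w', w'⟫ = 1 := by rw [real_inner_self_eq_norm_sq, hw']; norm_num
  have he₀ : ‖e₀‖ = 1 := by
    have : ⟪e₀, e₀⟫ = 1 := by
      simp only [e₀, inner_add_left, inner_add_right, real_inner_smul_left, real_inner_smul_right,
        hpp, hpw, hpw', hww, hww1, hww2, real_inner_comm p w, real_inner_comm p w',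
        real_inner_comm w w']
      nlinarith
    rw [real_inner_self_eq_norm_sq] at this
    exact (sq_eq_sq₀ (norm_nonneg _) zero_le_one).1 (by simpa using this)
  obtain ⟨g, hg, -⟩ := exists_ap_eq (he₀.trans he.symm)
  have hxx : ∀ a b, ⟪√κ • v a + h • w, √κ • v b + h • w⟫ = κ * ⟪v a, v b⟫ + h ^ 2 := by
    intro a b
    simp only [inner_add_left, inner_add_right, real_inner_smul_left, real_inner_smul_right,
      hvw, hww1, real_inner_comm (v b) w]
    rw [← mul_assoc, hss]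
    ring
  refine ⟨fun a => ap g (√κ • v a + h • w), fun a => ?_, fun a b hab => ?_, fun a => ?_⟩
  · rw [norm_ap]
    have := hxx a a
    rw [real_inner_self_eq_norm_sq, real_inner_self_eq_norm_sq, hv1] at this
    exact (sq_eq_sq₀ (norm_nonneg _) zero_le_one).1 (by rw [this, hκd]; ring)
  · rw [inner_ap, hxx, hv2 a b hab, beta_eq ht]
  · rw [← hg, inner_ap]
    simp only [e₀, inner_add_left, inner_add_right, real_inner_smul_left, real_inner_smul_right,
      real_inner_comm (v a) p, real_inner_comm (v a) w, real_inner_comm (v a) w', hvp, hvw, hvw',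
      hpw, hww1, real_inner_comm w w', hww]
    have : √κ * (d a / √κ) = d a := by field_simp
    linear_combination this + hω

end Pool.Agent.BL
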