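import Pool.Agent.P.MP_edb112_gt.Tg
import Pool.Agent.P.MP_edb112_gt.Config

/-! Pointwise inequalities for families of tangent vectors. -/

set_option autoImplicit false
set_option linter.unusedSectionVars false

open MeasureTheory Set Module Filter
open scoped RealInnerProductSpace Topology

noncomputable section

namespace Pool.Agent.BL

variable {E : Type} [NormedAddCommGroup E] [InnerProductSpace ℝ E] [FiniteDimensional ℝ E]
  [CompleteSpace E] [MeasurableSpace E] [BorelSpace E] {t : ℕ}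

/-- energy -/
def En (g : Fin t → E) : ℝ := ∑ a, ‖g a‖ ^ 2

/-- defect -/
def Dd (g : Fin t → E) : ℝ := ∑ a, ∑ b, ‖g a - g b‖ ^ 2

/-- error term -/
def Er (ε : ℝ) (x g : Fin t → E) : ℝ := ε * t * En g + ∑ a, ∑ b, ⟪x b, g a⟫ ^ 2

theorem En_nonneg (g : Fin t → E) : 0 ≤ En g := Finset.sum_nonneg fun _ _ => sq_nonneg _

theorem Dd_nonneg (g : Fin t → E) : 0 ≤ Dd g :=
  Finset.sum_nonneg fun _ _ => Finset.sum_nonneg fun _ _ => sq_nonneg _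

theorem Er_nonneg {ε : ℝ} (hε : 0 ≤ ε) (x g : Fin t → E) : 0 ≤ Er ε x g :=
  add_nonneg (mul_nonneg (by positivity) (En_nonneg g))
    (Finset.sum_nonneg fun _ _ => Finset.sum_nonneg fun _ _ => sq_nonneg _)

theorem Dd_eq (g : Fin t → E) : Dd g = 2 * t * En g - 2 * ∑ a, ∑ b, ⟪g a, g b⟫ := by
  simp only [Dd, En, norm_sub_sq_real, Finset.sum_add_distrib, Finset.sum_sub_distrib,
    Finset.sum_const, Finset.card_univ, Fintype.card_fin, nsmul_eq_mul, ← Finset.mul_sum]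
  ring

theorem Dd_le (g : Fin t → E) : Dd g ≤ 2 * t * En g := by
  have h : ∑ a, ∑ b, ⟪g a, g b⟫ = ‖∑ a, g a‖ ^ 2 := by
    rw [← real_inner_self_eq_norm_sq, sum_inner]
    simp only [inner_sum]
  rw [Dd_eq, h]
  nlinarith [sq_nonneg ‖∑ a, g a‖]

theorem sum_sub_le_Dd (g : Fin t → E) (s : Fin t) : ∑ a, ‖g a - g s‖ ^ 2 ≤ Dd g := by
  refine Finset.sum_le_sum fun a _ => ?_
  exact Finset.single_le_sum (f := fun b => ‖g a - g b‖ ^ 2) (fun _ _ => sq_nonneg _)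
    (Finset.mem_univ s)

theorem norm_le_add_sub (g : Fin t → E) (a s : Fin t) : ‖g a‖ ≤ ‖g s‖ + ‖g a - g s‖ := by
  simpa using norm_add_le (g s) (g a - g s)

theorem En_le (g : Fin t → E) (s : Fin t) : En g ≤ 2 * t * ‖g s‖ ^ 2 + 2 * Dd g := by
  have h : En g ≤ ∑ a, (2 * ‖g s‖ ^ 2 + 2 * ‖g a - g s‖ ^ 2) := by
    refine Finset.sum_le_sum fun a _ => ?_
    have h1 := norm_le_add_sub g a s
    have h2 := norm_nonneg (g a)
    nlinarith [sq_nonneg (‖g s‖ - ‖g a - g s‖)]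
  simp only [Finset.sum_add_distrib, Finset.sum_const, Finset.card_univ, Fintype.card_fin,
    nsmul_eq_mul, ← Finset.mul_sum] at h
  nlinarith [sum_sub_le_Dd g s]

theorem norm_sum_sq_le {W : Type} [NormedAddCommGroup W] (w : Fin t → W) :
    ‖∑ a, w a‖ ^ 2 ≤ t * ∑ a, ‖w a‖ ^ 2 := by
  have h1 : ‖∑ a, w a‖ ≤ ∑ a, ‖w a‖ := norm_sum_le _ _
  have h2 := sq_sum_le_card_mul_sum_sq (s := Finset.univ) (f := fun a => ‖w a‖)
  simp only [Finset.card_univ, Fintype.card_fin] at h2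
  exact (pow_le_pow_left₀ (norm_nonneg _) h1 2).trans h2

theorem gamma_le {x g : Fin t → E} (hx : ∀ a, ‖x a‖ = 1) (hg : ∀ a, ⟪x a, g a⟫ = 0)
    (c : Fin t → ℝ) : ‖∑ a, c a • wv (x a) (g a)‖ ^ 2 ≤ t * ∑ a, c a ^ 2 * ‖g a‖ ^ 2 := by
  refine (norm_sum_sq_le _).trans_eq ?_
  simp only [norm_smul, norm_wv (hx _) (hg _), mul_pow, Real.norm_eq_abs, sq_abs]

theorem gamma_ge (ht : 2 ≤ t) {ε : ℝ} (hε : 0 ≤ ε) {x g : Fin t → E} (hx : Near t ε x) :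
    Dd g / (2 * t) - Er ε x g ≤ ‖∑ a, wv (x a) (g a)‖ ^ 2 := by
  classical
  have h2 : (2 : ℝ) ≤ t := by exact_mod_cast ht
  have h3 : (0 : ℝ) < t - 1 := by linarith
  have key : ∀ a b, (if a = b then t / (t - 1) * ‖g a‖ ^ 2 else 0) - 1 / (t - 1) * ⟪g a, g b⟫ -
      (ε / 2 * ‖g a‖ ^ 2 + ε / 2 * ‖g b‖ ^ 2) - (1 / 2 * ⟪x b, g a⟫ ^ 2 + 1 / 2 * ⟪x a, g b⟫ ^ 2) ≤
      ⟪wv (x a) (g a), wv (x b) (g b)⟫ := by
    intro a b
    rw [inner_wv]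
    have h4 := sq_nonneg (⟪x b, g a⟫ - ⟪x a, g b⟫)
    split_ifs with hab
    · subst hab
      rw [real_inner_self_eq_norm_sq, real_inner_self_eq_norm_sq, hx.1]
      have : (t : ℝ) / (t - 1) * ‖g a‖ ^ 2 - 1 / (t - 1) * ‖g a‖ ^ 2 = ‖g a‖ ^ 2 := by
        field_simp
      nlinarith [mul_nonneg hε (sq_nonneg ‖g a‖)]
    · have h5 := hx.2 a b hab
      have h6 := abs_real_inner_le_norm (g a) (g b)
      have h7 : |(⟪x a, x b⟫ + 1 / ((t : ℝ) - 1)) * ⟪g a, g b⟫| ≤ ε * (‖g a‖ * ‖g b‖) := by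
        rw [abs_mul]
        exact mul_le_mul h5 h6 (abs_nonneg _) hε
      have h8 := neg_le_of_abs_le h7
      nlinarith [mul_nonneg hε (sq_nonneg (‖g a‖ - ‖g b‖))]
  have h := Finset.sum_le_sum fun a (_ : a ∈ Finset.univ) =>
    Finset.sum_le_sum fun b (_ : b ∈ Finset.univ) => key a b
  have e1 : ∑ a, ∑ b, ⟪wv (x a) (g a), wv (x b) (g b)⟫ = ‖∑ a, wv (x a) (g a)‖ ^ 2 := by
    rw [← real_inner_self_eq_norm_sq, sum_inner]
    simp only [inner_sum]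
  have e2 : ∑ a, ∑ b, ⟪x a, g b⟫ ^ 2 = ∑ a, ∑ b, ⟪x b, g a⟫ ^ 2 := Finset.sum_comm
  simp only [Finset.sum_add_distrib, Finset.sum_sub_distrib, Finset.sum_ite_eq, Finset.mem_univ,
    if_true, Finset.sum_const, Finset.card_univ, Fintype.card_fin, nsmul_eq_mul,
    ← Finset.mul_sum, e1, e2] at h
  have e3 : t / (t - 1) * En g - 1 / (t - 1) * ∑ a, ∑ b, ⟪g a, g b⟫ = Dd g / (2 * (t - 1)) := by
    rw [Dd_eq]
    field_simp
  have h9 : Dd g / (2 * t) ≤ Dd g / (2 * (t - 1)) :=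
    div_le_div_of_nonneg_left (Dd_nonneg g) (by positivity) (by linarith)
  unfold Er
  unfold En at e3 ⊢
  linarith

theorem exists_shortest (ht : 2 ≤ t) (g : Fin t → E) : ∃ s, ∀ a, ‖g s‖ ≤ ‖g a‖ := by
  have : Nonempty (Fin t) := ⟨⟨0, by omega⟩⟩
  exact Finite.exists_min fun a => ‖g a‖

theorem sum_u_ge {g : Fin t → E} {s : Fin t} (hs : ∀ a, ‖g s‖ ≤ ‖g a‖) (u : Fin t → ℝ) :
    (∑ a, u a) * ‖g s‖ ^ 2 - 2 * ∑ a, |u a| * ‖g a‖ * ‖g a - g s‖ ≤ ∑ a, u a * ‖g a‖ ^ 2 := by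
  rw [Finset.sum_mul, Finset.mul_sum, ← Finset.sum_sub_distrib]
  refine Finset.sum_le_sum fun a _ => ?_
  have h1 := norm_le_add_sub g a s
  have h2 := hs a
  have h3 := norm_nonneg (g s)
  have h4 : ‖g a‖ ^ 2 - ‖g s‖ ^ 2 ≤ 2 * ‖g a‖ * ‖g a - g s‖ := by nlinarith
  have h5 : 0 ≤ ‖g a‖ ^ 2 - ‖g s‖ ^ 2 := by nlinarith
  nlinarith [mul_le_mul_of_nonneg_left h4 (abs_nonneg (u a)),
    mul_le_mul_of_nonneg_right (neg_abs_le (u a)) h5]

theorem abs_sum_le {u : Fin t → ℝ} {M : ℝ} (hu : ∀ a, |u a| ≤ M) : |∑ a, u a| ≤ t * M := by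
  refine (Finset.abs_sum_le_sum_abs _ _).trans ?_
  simpa using Finset.sum_le_sum fun a (_ : a ∈ Finset.univ) => hu a

theorem sum_u_ge' {g : Fin t → E} {s : Fin t} (hs : ∀ a, ‖g s‖ ≤ ‖g a‖) {u : Fin t → ℝ} {M : ℝ}
    (hu : ∀ a, |u a| ≤ M) (hC : 0 ≤ ∑ a, u a) :
    1 / 2 * (∑ a, u a) ^ 2 * ‖g s‖ ^ 2 - 4 * t * M ^ 2 * Dd g ≤
      (∑ a, u a) * ∑ a, u a * ‖g a‖ ^ 2 := by
  have hM : 0 ≤ M := (abs_nonneg _).trans (hu s)
  have h1 := sum_u_ge hs u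
  have h2 : ∑ a, |u a| * ‖g a‖ * ‖g a - g s‖ ≤
      M * ‖g s‖ * ∑ a, ‖g a - g s‖ + M * ∑ a, ‖g a - g s‖ ^ 2 := by
    rw [Finset.mul_sum, Finset.mul_sum, ← Finset.sum_add_distrib]
    refine Finset.sum_le_sum fun a _ => ?_
    have := mul_le_mul (hu a) (norm_le_add_sub g a s) (norm_nonneg _) hM
    nlinarith [mul_le_mul_of_nonneg_right this (norm_nonneg (g a - g s))]
  have h3 := sq_sum_le_card_mul_sum_sq (s := Finset.univ) (f := fun a => ‖g a - g s‖)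
  simp only [Finset.card_univ, Fintype.card_fin] at h3
  have h4 := sum_sub_le_Dd g s
  have h5 := le_of_abs_le (abs_sum_le hu)
  have h6 : 0 ≤ ∑ a, ‖g a - g s‖ ^ 2 := Finset.sum_nonneg fun _ _ => sq_nonneg _
  have h7 : (0 : ℝ) ≤ t := by positivity
  set C := ∑ a, u a
  set S := ∑ a, ‖g a - g s‖
  set Q := ∑ a, ‖g a - g s‖ ^ 2
  have h8 : C * (M * Q) ≤ t * M * (M * Dd g) :=
    mul_le_mul h5 (by gcongr) (by positivity) (by positivity)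
  have h9 : M ^ 2 * S ^ 2 ≤ M ^ 2 * (t * Dd g) := by
    gcongr
    exact h3.trans (by gcongr)
  nlinarith [mul_le_mul_of_nonneg_left h1 hC, mul_le_mul_of_nonneg_left h2 hC,
    sq_nonneg (C * ‖g s‖ - 2 * M * S)]

theorem Near.ga {ε : ℝ} {z : Fin t → E} (h : Near t ε z) (g : G E) : Near t ε (ga g z) :=
  ⟨fun a => (norm_ap g _).trans (h.1 a), fun a b hab => by
    simpa only [ga_pi, inner_ap] using h.2 a b hab⟩

end Pool.Agent.BL
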