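import Pool.Agent.P.MP_edb112_gt.Flow

/-! Approximation by polynomial flows, Poincare inequality, isotropy. -/

set_option autoImplicit false
set_option linter.unusedSectionVars false

open MeasureTheory Set Module Filter
open scoped RealInnerProductSpace Topology

noncomputable section

namespace Pool.Agent.BL

variable {E : Type} [NormedAddCommGroup E] [InnerProductSpace ℝ E] [FiniteDimensional ℝ E]
  [CompleteSpace E] [MeasurableSpace E] [BorelSpace E]

namespace Apx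

theorem nontrivial_of (hn : 2 ≤ finrank ℝ E) : Nontrivial E :=
  Module.nontrivial_of_finrank_pos (R := ℝ) (by omega)

theorem kk_pos (hn : 2 ≤ finrank ℝ E) : 0 < kk E := by
  have : (2 : ℝ) ≤ finrank ℝ E := by exact_mod_cast hn
  rw [kk]
  linarith

theorem mul_mem_Pol {d d' : ℕ} {p p' : E → ℝ} (hp : p ∈ Pol E d) (hp' : p' ∈ Pol E d') :
    p * p' ∈ Pol E (d + d') := by
  rw [Pol, pow_add]
  exact Submodule.mul_mem_mul hp hp'

theorem inner_mem_Pol (a : E) : (fun x => ⟪a, x⟫) ∈ Pol E 1 := by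
  rw [Pol, pow_one]
  exact Submodule.mem_sup_right (Submodule.subset_span ⟨a, rfl⟩)

variable (E) in
/-- restrictions of polynomials to the sphere -/
def polAlg : Subalgebra ℝ C({x : E | ‖x‖ = 1}, ℝ) where
  carrier := {g | ∃ D, ∃ p ∈ Pol E D, ∀ x, g x = p x}
  mul_mem' := by
    rintro g g' ⟨D, p, hp, h⟩ ⟨D', p', hp', h'⟩
    exact ⟨D + D', p * p', mul_mem_Pol hp hp', fun x => by simp [h, h']⟩
  add_mem' := by
    rintro g g' ⟨D, p, hp, h⟩ ⟨D', p', hp', h'⟩
    exact ⟨D + D', p + p', add_mem (Pol_mono (Nat.le_add_right _ _) hp)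
      (Pol_mono (Nat.le_add_left _ _) hp'), fun x => by simp [h, h']⟩
  algebraMap_mem' := fun c => ⟨0, fun _ => c, mem_Pol_zero.2 ⟨c, rfl⟩, fun x => by simp⟩

theorem polAlg_sep : (polAlg E).SeparatesPoints := by
  intro x y hxy
  refine ⟨fun w => ⟪(x : E) - y, (w : E)⟫, ⟨⟨fun w => ⟪(x : E) - y, (w : E)⟫, by fun_prop⟩,
    ⟨1, _, inner_mem_Pol ((x : E) - y), fun _ => rfl⟩, rfl⟩, fun h => hxy ?_⟩
  have h1 : ⟪(x : E) - y, (x : E) - y⟫ = 0 := by
    rw [inner_sub_right]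
    exact sub_eq_zero.2 h
  exact Subtype.ext (sub_eq_zero.1 (inner_self_eq_zero.1 h1))

theorem continuousOn_slice {Y : Type} [TopologicalSpace Y] {f : ℝ × E → Y} {τ : ℝ}
    (hf : ∀ x, ‖x‖ = 1 → ContinuousAt f (τ, x)) :
    ContinuousOn (fun x => f (τ, x)) {x : E | ‖x‖ = 1} := fun y hy =>
  ((hf y hy).comp_of_eq (f := fun y : E => (τ, y)) (by fun_prop) rfl).continuousWithinAt

theorem tg_sub_const (f : ℝ × E → ℝ) (m : ℝ) (p : ℝ × E) : tg (fun q => f q - m) p = tg f p := by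
  refine ext_inner_right ℝ fun w => ?_
  rw [inner_tg, inner_tg, fderiv_sub_const]

theorem c1_level (F : Flow E) (d : ℕ) (q : ℝ × E) :
    ContDiffAt ℝ 1 (fun q : ℝ × E => F.p d q.2) q :=
  (((F.eig d).sm.of_le (by norm_num)).comp contDiff_snd).contDiffAt

theorem U_zero (F : Flow E) (x : E) : F.U (0, x) = ∑ d ∈ Finset.range (F.D + 1), F.p d x := by
  simp [Flow.U]

/-- the dual form of the Poincare inequality -/
theorem dual_bound (hn : 2 ≤ finrank ℝ E) {w : ℝ × E → ℝ} {τ : ℝ}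
    (hw : ∀ x, ‖x‖ = 1 → ContDiffAt ℝ 1 w (τ, x)) (h0 : ∫ x, w (τ, x) ∂(sph E) = 0) (F : Flow E) :
    2 * ∫ x, w (τ, x) * F.U (0, x) ∂(sph E) ≤
      (∫ x, ‖tg w (τ, x)‖ ^ 2 ∂(sph E)) / kk E + ∫ x, F.U (0, x) * F.U (0, x) ∂(sph E) := by
  have := nontrivial_of hn
  have hk := kk_pos hn
  set s := Finset.range (F.D + 1) with hs
  let T : ℕ → E → E := fun d x => tg (fun q : ℝ × E => F.p d q.2) (τ, x)
  have cT : ∀ d, ContinuousOn (T d) {x : E | ‖x‖ = 1} := fun d =>
    continuousOn_slice fun x _ => continuousAt_tg (c1_level F d _)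
  have cp : ∀ d, ContinuousOn (F.p d) {x : E | ‖x‖ = 1} := fun d =>
    (F.eig d).sm.continuous.continuousOn
  have cw : ContinuousOn (fun x => w (τ, x)) {x : E | ‖x‖ = 1} :=
    continuousOn_slice fun x hx => (hw x hx).continuousAt
  have cg : ContinuousOn (fun x => tg w (τ, x)) {x : E | ‖x‖ = 1} :=
    continuousOn_slice fun x hx => continuousAt_tg (hw x hx)
  let v : E → E := fun x => ∑ d ∈ s, (lam E d)⁻¹ • T d x
  have cv : ContinuousOn v {x : E | ‖x‖ = 1} :=
    continuousOn_finsetSum _ fun d _ => (cT d).const_smul _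
  have e1 : ∫ x, ⟪tg w (τ, x), v x⟫ ∂(sph E) = ∫ x, w (τ, x) * F.U (0, x) ∂(sph E) := by
    simp only [v, inner_sum, real_inner_smul_right, U_zero, Finset.mul_sum]
    rw [integral_finsetSum _ fun d _ =>
        (integrable_of_continuousOn (cg.inner (𝕜 := ℝ) (cT d))).const_mul _,
      integral_finsetSum _ fun d _ => integrable_of_continuousOn (cw.fun_mul (cp d))]
    refine Finset.sum_congr rfl fun d _ => ?_
    rw [integral_const_mul, (F.eig d).integral_inner_tg hw]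
    rcases Nat.eq_zero_or_pos d with rfl | hd
    · obtain ⟨c, hc⟩ := mem_Pol_zero.1 (F.mem 0)
      simp only [hc, integral_mul_const, h0, zero_mul, mul_zero]
    · have : lam E d ≠ 0 := (lam_zero.symm.trans_lt (lam_strictMono hn hd)).ne'
      rw [← mul_assoc, inv_mul_cancel₀ this, one_mul]
  have e2 : ∫ x, ‖v x‖ ^ 2 ∂(sph E) =
      ∑ d ∈ s, (lam E d)⁻¹ * ∫ x, F.p d x * F.p d x ∂(sph E) := by
    simp only [← real_inner_self_eq_norm_sq, v, sum_inner, inner_sum, real_inner_smul_right,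
      real_inner_smul_left]
    rw [integral_finsetSum _ fun d _ => integrable_finsetSum _ fun d' _ =>
      ((integrable_of_continuousOn ((cT d').inner (𝕜 := ℝ) (cT d))).const_mul _).const_mul _]
    refine Finset.sum_congr rfl fun d hd => ?_
    rw [integral_finsetSum _ fun d' _ =>
      ((integrable_of_continuousOn ((cT d').inner (𝕜 := ℝ) (cT d))).const_mul _).const_mul _,
      Finset.sum_eq_single_of_mem d hd]
    · rw [integral_const_mul, integral_const_mul,
        (F.eig d).integral_inner_tg fun x _ => c1_level F d _]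
      rcases eq_or_ne (lam E d) 0 with h | h
      · simp [h]
      · field_simp
    · intro d' _ hd'
      rw [integral_const_mul, integral_const_mul,
        (F.eig d).integral_inner_tg fun x _ => c1_level F d' _,
        (F.eig d').orth (F.eig d) ((lam_strictMono hn).injective.ne hd')]
      simp
  have e3 : kk E * ∫ x, ‖v x‖ ^ 2 ∂(sph E) ≤ ∫ x, F.U (0, x) * F.U (0, x) ∂(sph E) := by
    rw [e2, F.integral_mul hn, min_self, Finset.mul_sum]
    refine Finset.sum_le_sum fun d _ => ?_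
    have hp : 0 ≤ ∫ x, F.p d x * F.p d x ∂(sph E) := integral_nonneg fun x => mul_self_nonneg _
    rw [← mul_assoc]
    refine mul_le_mul_of_nonneg_right ?_ hp
    simp only [add_zero, mul_zero, zero_div, neg_zero, Real.exp_zero]
    rcases Nat.eq_zero_or_pos d with rfl | hd
    · simp [lam_zero]
    · have h1 : kk E ≤ lam E d := lam_one.symm.trans_le ((lam_strictMono hn).monotone hd)
      rw [← div_eq_mul_inv, div_le_one (hk.trans_le h1)]
      exact h1
  have i1 := integrable_of_continuousOn (cg.norm.fun_pow 2)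
  have i2 := integrable_of_continuousOn (cv.norm.fun_pow 2)
  have e4 : 2 * ∫ x, ⟪tg w (τ, x), v x⟫ ∂(sph E) ≤
      (∫ x, ‖tg w (τ, x)‖ ^ 2 ∂(sph E)) / kk E + kk E * ∫ x, ‖v x‖ ^ 2 ∂(sph E) := by
    rw [← integral_const_mul, ← integral_const_mul, ← integral_div,
      ← integral_add (i1.div_const _) (i2.const_mul _)]
    refine integral_mono ((integrable_of_continuousOn (cg.inner (𝕜 := ℝ) cv)).const_mul _)
      ((i1.div_const _).add (i2.const_mul _)) fun x => ?_
    have h1 := real_inner_le_norm (tg w (τ, x)) (v x)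
    have h2 : 0 ≤ (‖tg w (τ, x)‖ - kk E * ‖v x‖) ^ 2 / kk E := by positivity
    have h3 : (‖tg w (τ, x)‖ - kk E * ‖v x‖) ^ 2 / kk E = ‖tg w (τ, x)‖ ^ 2 / kk E +
        kk E * ‖v x‖ ^ 2 - 2 * (‖tg w (τ, x)‖ * ‖v x‖) := by
      field_simp
      ring
    dsimp only
    linarith
  linarith

end Apx

open Apx

theorem exists_flow_near (hn : 2 ≤ finrank ℝ E) {f : E → ℝ}
    (hf : ContinuousOn f {x : E | ‖x‖ = 1}) {ε : ℝ} (hε : 0 < ε) :
    ∃ F : Flow E, ∀ x, ‖x‖ = 1 → |F.U (0, x) - f x| ≤ ε := by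
  have : CompactSpace {x : E | ‖x‖ = 1} := isCompact_iff_compactSpace.1 isCompact_unit
  obtain ⟨⟨g, D, p, hp, hg⟩, h⟩ :=
    ContinuousMap.exists_mem_subalgebra_near_continuous_of_separatesPoints (polAlg E) polAlg_sep
      (fun x => f x) hf.domRestrict ε hε
  obtain ⟨F, hF⟩ := exists_flow hn hp
  refine ⟨F, fun x hx => ?_⟩
  rw [hF x hx, ← hg ⟨x, hx⟩]
  exact (h ⟨x, hx⟩).le

theorem poincare (hn : 2 ≤ finrank ℝ E) {f : ℝ × E → ℝ} {τ : ℝ}
    (hf : ∀ x, ‖x‖ = 1 → ContDiffAt ℝ 1 f (τ, x)) :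
    ∫ x, (f (τ, x) - ∫ y, f (τ, y) ∂(sph E)) ^ 2 ∂(sph E) ≤
      (∫ x, ‖tg f (τ, x)‖ ^ 2 ∂(sph E)) / kk E := by
  have := nontrivial_of hn
  set m := ∫ y, f (τ, y) ∂(sph E) with hm
  have cf : ContinuousOn (fun x => f (τ, x)) {x : E | ‖x‖ = 1} :=
    continuousOn_slice fun x hx => (hf x hx).continuousAt
  have cw : ContinuousOn (fun x => f (τ, x) - m) {x : E | ‖x‖ = 1} := cf.sub continuousOn_const
  refine le_of_forall_pos_le_add fun ε hε => ?_
  obtain ⟨F, hF⟩ := exists_flow_near hn cw (Real.sqrt_pos.2 hε)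
  have cU : ContinuousOn (fun x => F.U (0, x)) {x : E | ‖x‖ = 1} :=
    continuousOn_slice fun x _ => F.isHeat.sm.continuous.continuousAt
  have h1 := dual_bound hn (w := fun q => f q - m) (τ := τ)
    (fun x hx => (hf x hx).sub contDiffAt_const)
    (by rw [integral_sub (integrable_of_continuousOn cf) (integrable_const _)]; simp [hm]) F
  simp only [tg_sub_const] at h1
  have i1 := integrable_of_continuousOn (cw.fun_mul cU)
  have i2 := integrable_of_continuousOn (cU.fun_mul cU)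
  have h2 : ∫ x, (f (τ, x) - m) ^ 2 ∂(sph E) ≤
      ∫ x, (2 * ((f (τ, x) - m) * F.U (0, x)) - F.U (0, x) * F.U (0, x)) + ε ∂(sph E) := by
    refine integral_mono_ae (integrable_of_continuousOn (cw.pow 2))
      (((i1.const_mul _).sub i2).add (integrable_const _)) ?_
    filter_upwards [ae_norm] with x hx
    have h3 := sq_le_sq' (abs_le.1 (hF x hx)).1 (abs_le.1 (hF x hx)).2
    rw [Real.sq_sqrt hε.le] at h3
    nlinarith
  rw [integral_add (by exact (i1.const_mul _).sub i2) (integrable_const _),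
    integral_sub (i1.const_mul _) i2, integral_const_mul] at h2
  simp only [integral_const, probReal_univ, smul_eq_mul, one_mul] at h2
  linarith

/-- isotropy of tangent fields -/
theorem avg_tangent (hn : 2 ≤ finrank ℝ E) {v : E → E} (hv : ContinuousOn v {x : E | ‖x‖ = 1})
    (hv' : ∀ y, ‖y‖ = 1 → ⟪y, v y⟫ = 0) {x : E} (hx : ‖x‖ = 1) (q : E) :
    ∫ g, ⟪ap g q, v (ap g x)⟫ ^ 2 ∂(haar E) =
      (‖q‖ ^ 2 - ⟪x, q⟫ ^ 2) / kk E * ∫ y, ‖v y‖ ^ 2 ∂(sph E) := by
  have := nontrivial_of hn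
  have hk := kk_pos hn
  let b : E → ℝ := fun q => ∫ g, ⟪ap g q, v (ap g x)⟫ ^ 2 ∂(haar E)
  have hxx : ⟪x, x⟫ = 1 := by rw [real_inner_self_eq_norm_sq, hx, one_pow]
  have cvg : Continuous fun g : G E => v (ap g x) :=
    hv.comp_continuous (by fun_prop) fun g => (norm_ap g x).trans hx
  have b1 : ∀ (c : ℝ) (r : E), b (c • r) = c ^ 2 * b r := by
    intro c r
    simp only [b, ap_smul, real_inner_smul_left, mul_pow, integral_const_mul]
  have b2 : ∀ r r' : E, ⟪x, r⟫ = 0 → ⟪x, r'⟫ = 0 → ‖r‖ = ‖r'‖ → b r = b r' := by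
    intro r r' h h' hr
    obtain ⟨k, h1, -, h2⟩ := exists_ap_eq hr
    have h3 : ap k x = x := h2 x (by rw [real_inner_comm, inner_sub_right, h, h', sub_zero])
    have := integral_mul_right_eq_self (μ := haar E)
      (fun g : G E => ⟪ap g r, v (ap g x)⟫ ^ 2) k
    simp only [ap_mul, h1, h3] at this
    exact this.symm
  have b3 : ∀ r : E, b r = b (r - ⟪x, r⟫ • x) := by
    intro r
    simp only [b, ap_sub, ap_smul, inner_sub_left, real_inner_smul_left,
      hv' _ ((norm_ap _ x).trans hx), mul_zero, sub_zero]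
  have p1 : ∀ r : E, ⟪x, r - ⟪x, r⟫ • x⟫ = 0 := by
    intro r
    rw [inner_sub_right, real_inner_smul_right, hxx, mul_one, sub_self]
  have p2 : ∀ r : E, ‖r - ⟪x, r⟫ • x‖ ^ 2 = ‖r‖ ^ 2 - ⟪x, r⟫ ^ 2 := by
    intro r
    rw [norm_sub_sq_real, real_inner_smul_right, norm_smul, hx, real_inner_comm x r,
      Real.norm_eq_abs, mul_one, sq_abs]
    ring
  have b4 : ∀ r r' : E, (‖r'‖ ^ 2 - ⟪x, r'⟫ ^ 2) * b r = (‖r‖ ^ 2 - ⟪x, r⟫ ^ 2) * b r' := by
    intro r r'
    rw [b3 r, b3 r', ← p2, ← p2, ← b1, ← b1]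
    refine b2 _ _ (by rw [real_inner_smul_right, p1, mul_zero])
      (by rw [real_inner_smul_right, p1, mul_zero]) ?_
    rw [norm_smul, norm_smul, norm_norm, norm_norm, mul_comm]
  have s1 : ∑ i, b (eb E i) = ∫ y, ‖v y‖ ^ 2 ∂(sph E) := by
    rw [← integral_ap hx (integrable_of_continuousOn (hv.norm.fun_pow 2)).aestronglyMeasurable,
      ← integral_finsetSum _ fun i _ => integrable_haar
        (((continuous_ap continuous_id' continuous_const).inner cvg).fun_pow 2)]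
    refine integral_congr_ae (Eventually.of_forall fun g => ?_)
    simp only [inner_ap_left, pow_two, pars_eb.inner, real_inner_self_eq_norm_mul_norm, norm_ap]
  have s2 : ∑ i, (‖eb E i‖ ^ 2 - ⟪x, eb E i⟫ ^ 2) = kk E := by
    simp only [Finset.sum_sub_distrib, ← real_inner_self_eq_norm_sq, sum_inner_eb,
      real_inner_comm (eb E _) x]
    simp only [pow_two, pars_eb.inner, hxx, kk]
  have s3 : kk E * b q = (‖q‖ ^ 2 - ⟪x, q⟫ ^ 2) * ∫ y, ‖v y‖ ^ 2 ∂(sph E) := by
    rw [← s1, ← s2, Finset.sum_mul, Finset.mul_sum]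
    exact Finset.sum_congr rfl fun i _ => b4 _ _
  change b q = _
  rw [div_mul_eq_mul_div, eq_div_iff hk.ne', ← s3, mul_comm]

/-- polynomial approximation of a family of sets missed by an orbit -/
theorem approx (hn : 2 ≤ finrank ℝ E) {t : ℕ} {z : Fin t → E} (hz : ∀ a, ‖z a‖ = 1)
    {B : Fin t → Set E} (hB : ∀ a, MeasurableSet (B a)) (hf : OrbFree z B) {M M' ε : ℝ}
    (hM : -M' ≤ M) (hε : 0 < ε) : ∃ F : Fin t → Flow E,
      (∀ a τ, 0 ≤ τ → ∀ x, ‖x‖ = 1 →
        Ph (-M' - 1) ≤ (F a).U (τ, x) ∧ (F a).U (τ, x) ≤ Ph (M + 1)) ∧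
      (∀ g : G E, ∃ a, (F a).U (0, ap g (z a)) ≤ Ph (-M' + 1)) ∧
      ∀ a, ∃ N : Set E, MeasurableSet N ∧ (sph E).real N ≤ ε ∧ ∀ x, ‖x‖ = 1 → x ∉ N →
        (x ∈ B a → Ph (M - 1) ≤ (F a).U (0, x)) ∧
        (x ∉ B a → (F a).U (0, x) ≤ Ph (-M' + 1)) := by
  have hin : ∀ {A : Set E}, MeasurableSet A →
      ∃ K, K ⊆ A ∧ IsCompact K ∧ (sph E).real (A \ K) ≤ ε / 2 := by
    intro A hA
    obtain ⟨K, h1, h2, h3⟩ := hA.exists_isCompact_sdiff_lt (μ := sph E) (measure_ne_top _ _)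
      (ENNReal.ofReal_pos.2 (half_pos hε)).ne'
    exact ⟨K, h1, h2, ENNReal.toReal_le_of_le_ofReal (half_pos hε).le h3.le⟩
  choose K hKB hK hKm using fun a => hin (hB a)
  choose L hLB hL hLm using fun a => hin (hB a).compl
  have hC : IsCompact (range fun (g : G E) (a : Fin t) => ap g (z a)) :=
    isCompact_range (by fun_prop)
  have hd : Disjoint (Set.pi univ K) (range fun (g : G E) (a : Fin t) => ap g (z a)) := by
    rw [Set.disjoint_right]
    rintro _ ⟨g, rfl⟩ h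
    obtain ⟨a, ha⟩ := hf g
    exact ha (hKB a (h a (mem_univ a)))
  obtain ⟨δ, hδ, hdd⟩ := hd.exists_thickenings (isCompact_univ_pi hK) hC.isClosed
  have hmiss : ∀ g : G E, ∃ a, ap g (z a) ∉ Metric.thickening δ (K a) := by
    intro g
    by_contra hcon
    choose k hk hk' using fun a => Metric.mem_thickening_iff.1 (not_not.1 (not_exists.1 hcon a))
    exact Set.disjoint_left.1 hdd
      (Metric.mem_thickening_iff.2 ⟨k, fun a _ => hk a, (dist_pi_lt_iff hδ).2 hk'⟩)
      (Metric.self_subset_thickening hδ _ ⟨g, rfl⟩)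
  have hury : ∀ a, ∃ φ : C(E, ℝ), EqOn φ 0 ((Metric.thickening δ (K a))ᶜ ∪ L a) ∧
      EqOn φ 1 (K a) ∧ ∀ x, φ x ∈ Icc (0 : ℝ) 1 := by
    intro a
    refine exists_continuous_zero_one_of_isClosed
      (Metric.isOpen_thickening.isClosed_compl.union (hL a).isClosed) (hK a).isClosed ?_
    rw [Set.disjoint_right]
    rintro x hx (h | h)
    · exact h (Metric.self_subset_thickening hδ _ hx)
    · exact hLB a h (hKB a hx)
  choose φ hφ0 hφ1 hφ using hury
  have q1 : Ph (-M' - 1) < Ph (-M') := Ph_strictMono (by linarith)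
  have q2 : Ph (-M') < Ph (-M' + 1) := Ph_strictMono (by linarith)
  have q3 : Ph (M - 1) < Ph M := Ph_strictMono (by linarith)
  have q4 : Ph M < Ph (M + 1) := Ph_strictMono (by linarith)
  have q5 : Ph (-M') ≤ Ph M := Ph_mono hM
  obtain ⟨η, hη, r1, r2, r3, r4⟩ : ∃ η : ℝ, 0 < η ∧ η ≤ Ph (-M') - Ph (-M' - 1) ∧
      η ≤ Ph (-M' + 1) - Ph (-M') ∧ η ≤ Ph M - Ph (M - 1) ∧ η ≤ Ph (M + 1) - Ph M :=
    ⟨min (min (Ph (-M') - Ph (-M' - 1)) (Ph (-M' + 1) - Ph (-M')))
      (min (Ph M - Ph (M - 1)) (Ph (M + 1) - Ph M)),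
      lt_min (lt_min (sub_pos.2 q1) (sub_pos.2 q2)) (lt_min (sub_pos.2 q3) (sub_pos.2 q4)),
      (min_le_left _ _).trans (min_le_left _ _), (min_le_left _ _).trans (min_le_right _ _),
      (min_le_right _ _).trans (min_le_left _ _), (min_le_right _ _).trans (min_le_right _ _)⟩
  choose F hF using fun a => exists_flow_near hn
    (f := fun x => Ph (-M') + (Ph M - Ph (-M')) * φ a x) (by fun_prop) hη
  have low : ∀ a x, ‖x‖ = 1 → x ∈ (Metric.thickening δ (K a))ᶜ ∪ L a →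
      (F a).U (0, x) ≤ Ph (-M' + 1) := by
    intro a x hx h
    have h1 := (abs_le.1 (hF a x hx)).2
    rw [hφ0 a h, Pi.zero_apply] at h1
    linarith
  refine ⟨F, fun a τ hτ x hx => ⟨(F a).isHeat.ge (fun y hy => ?_) hτ hx,
    (F a).isHeat.le (fun y hy => ?_) hτ hx⟩, fun g => ?_, fun a => ?_⟩
  · have h1 := (abs_le.1 (hF a y hy)).1
    have h2 := mul_nonneg (sub_nonneg.2 q5) (hφ a y).1
    linarith
  · have h1 := (abs_le.1 (hF a y hy)).2
    have h2 := mul_le_of_le_one_right (sub_nonneg.2 q5) (hφ a y).2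
    linarith
  · obtain ⟨a, ha⟩ := hmiss g
    exact ⟨a, low a _ ((norm_ap g _).trans (hz a)) (Or.inl ha)⟩
  · refine ⟨(B a \ K a) ∪ ((B a)ᶜ \ L a), ((hB a).diff (hK a).measurableSet).union
      ((hB a).compl.diff (hL a).measurableSet), ?_, fun x hx hN => ⟨fun h => ?_, fun h => ?_⟩⟩
    · have := measureReal_union_le (μ := sph E) (B a \ K a) ((B a)ᶜ \ L a)
      linarith [hKm a, hLm a]
    · have h1 := (abs_le.1 (hF a x hx)).1
      have h2 : x ∈ K a := by
        by_contra h3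
        exact hN (Or.inl ⟨h, h3⟩)
      rw [hφ1 a h2, Pi.one_apply] at h1
      linarith
    · refine low a x hx (Or.inr ?_)
      by_contra h3
      exact hN (Or.inr ⟨h, h3⟩)

end Pool.Agent.BL
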