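import Pool.Agent.P.MP_edb112_gt.Rep

/-! Averages over the orthogonal group and their time derivatives. -/

set_option autoImplicit false
set_option linter.unusedSectionVars false

open MeasureTheory Set Module Filter
open scoped RealInnerProductSpace Topology

noncomputable section

namespace Pool.Agent.BL

variable {E : Type} [NormedAddCommGroup E] [InnerProductSpace ℝ E] [FiniteDimensional ℝ E]
  [CompleteSpace E] [MeasurableSpace E] [BorelSpace E]
variable {V : Type} [NormedAddCommGroup V] [NormedSpace ℝ V] [Rep E V]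

theorem continuousOn_integral_haar {F : ℝ → G E → ℝ} {a b : ℝ}
    (hF : ∀ s ∈ Icc a b, ∀ g, ContinuousAt (fun p : ℝ × G E => F p.1 p.2) (s, g)) :
    ContinuousOn (fun s => ∫ g, F s g ∂(haar E)) (Icc a b) := by
  rw [continuousOn_iff_continuous_domRestrict]
  have h : Continuous (Function.uncurry fun (s : Icc a b) (g : G E) => F s g) :=
    continuous_iff_continuousAt.2 fun p => (hF p.1 p.1.2 p.2).comp_of_eq
      (f := fun p : Icc a b × G E => ((p.1 : ℝ), p.2)) (by fun_prop) rfl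
  have := continuous_parametric_integral_of_continuous (μ := haar E) h isCompact_univ
  simp only [Measure.restrict_univ] at this
  exact this

theorem hasDerivAt_integral_haar {F F' : ℝ → G E → ℝ} {a b s₀ : ℝ} (hs : s₀ ∈ Ioo a b)
    (hF : ∀ s ∈ Icc a b, Continuous (F s))
    (hF' : ∀ s ∈ Icc a b, ∀ g, ContinuousAt (fun p : ℝ × G E => F' p.1 p.2) (s, g))
    (hd : ∀ s ∈ Icc a b, ∀ g, HasDerivAt (fun s => F s g) (F' s g) s) :
    HasDerivAt (fun s => ∫ g, F s g ∂(haar E)) (∫ g, F' s₀ g ∂(haar E)) s₀ := by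
  have hs' : s₀ ∈ Icc a b := Ioo_subset_Icc_self hs
  obtain ⟨C, hC⟩ := (isCompact_Icc.prod isCompact_univ).exists_bound_of_continuousOn
    (f := fun p : ℝ × G E => F' p.1 p.2) fun p hp => (hF' p.1 hp.1 p.2).continuousWithinAt
  have hc : Continuous (F' s₀) := continuous_iff_continuousAt.2 fun g =>
    (hF' s₀ hs' g).comp_of_eq (f := fun g : G E => (s₀, g)) (by fun_prop) rfl
  exact (hasDerivAt_integral_of_dominated_loc_of_deriv_le (Icc_mem_nhds hs.1 hs.2)
    (mem_of_superset (Icc_mem_nhds hs.1 hs.2) fun s h => (hF s h).aestronglyMeasurable)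
    (integrable_haar (hF s₀ hs')) hc.aestronglyMeasurable (bound := fun _ => C)
    (Eventually.of_forall fun g s h => hC (s, g) ⟨h, mem_univ _⟩) (integrable_const C)
    (Eventually.of_forall fun g s h => hd s h g)).2

section Cont

variable {W : Type} [NormedAddCommGroup W] [NormedSpace ℝ W]

theorem continuousAt_fderiv' {f : W → ℝ} {p : W} (hf : ContDiffAt ℝ 1 f p) :
    ContinuousAt (fderiv ℝ f) p := (hf.fderiv_right (m := 0) (by norm_num)).continuousAt

theorem continuousAt_hess {f : W → ℝ} {p : W} (hf : ContDiffAt ℝ 2 f p) :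
    ContinuousAt (hess f) p :=
  ((hf.fderiv_right (m := 1) (by norm_num)).fderiv_right (m := 0) (by norm_num)).continuousAt

end Cont

theorem continuousAt_df {f : ℝ × V → ℝ} {p : ℝ × V} (hf : ContDiffAt ℝ 1 f p) (A : E →L[ℝ] E) :
    ContinuousAt (fun q => df f q A) p :=
  (continuousAt_fderiv' hf).clm_apply (by fun_prop)

theorem continuousAt_hg {f : ℝ × V → ℝ} {p : ℝ × V} (hf : ContDiffAt ℝ 1 f p) :
    ContinuousAt (hg E f) p :=
  (PiLp.continuous_toLp 2 _).continuousAt.comp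
    (continuousAt_pi.2 fun j => continuousAt_df hf (hA j))

theorem continuousAt_qf {f : ℝ × V → ℝ} {p : ℝ × V} (hf : ContDiffAt ℝ 2 f p)
    (A B : E →L[ℝ] E) : ContinuousAt (fun q => qf f q A B) p := by
  simp only [qf_apply]
  exact (((continuousAt_hess hf).clm_apply (by fun_prop)).clm_apply (by fun_prop)).add
    ((continuousAt_fderiv' (hf.of_le (by norm_num))).clm_apply (by fun_prop))

theorem continuousAt_heat {f : ℝ × V → ℝ} {p : ℝ × V} (hf : ContDiffAt ℝ 2 f p) :
    ContinuousAt (heat E f) p := by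
  have : heat E f = fun p => fderiv ℝ f p (1, 0) - 1 / 2 * ∑ j : Ix E, qf f p (hA j) (hA j) :=
    funext (heat_eq f)
  rw [this]
  exact ((continuousAt_fderiv' (hf.of_le (by norm_num))).clm_apply continuousAt_const).sub
    (continuousAt_const.mul (tendsto_finsetSum _ fun j _ => continuousAt_qf hf _ _))

theorem continuous_orbit {Y : Type} [TopologicalSpace Y] {f : ℝ × V → Y} {τ : ℝ} {z : V}
    (hf : ∀ g : G E, ContinuousAt f (τ, ga g z)) : Continuous fun g : G E => f (τ, ga g z) :=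
  continuous_iff_continuousAt.2 fun g =>
    (hf g).comp_of_eq (f := fun g : G E => (τ, ga g z)) (by fun_prop) rfl

theorem integrable_orbit {f : ℝ × V → ℝ} {τ : ℝ} {z : V}
    (hf : ∀ g : G E, ContinuousAt f (τ, ga g z)) :
    Integrable (fun g : G E => f (τ, ga g z)) (haar E) := integrable_haar (continuous_orbit hf)

theorem integral_df {f : ℝ × V → ℝ} {τ : ℝ} {z : V}
    (hf : ∀ g : G E, ContDiffAt ℝ 1 f (τ, ga g z)) {A : E →L[ℝ] E} (hA : IsSkew A) :
    ∫ g, df f (τ, ga g z) A ∂(haar E) = 0 := by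
  have h := hasDerivAt_integral_haar (E := E) (F := fun s g => f (τ, ga (rot hA s * g) z))
    (F' := fun s g => df f (τ, ga (rot hA s * g) z) A) (a := -1) (b := 1) (s₀ := 0)
    (by simp) (fun s _ => (continuous_orbit fun g => (hf g).continuousAt).comp
      (continuous_const_mul _))
    (fun s _ g => ((continuous_orbit (f := fun q => df f q A)
      fun g => continuousAt_df (hf g) A).comp
      (((continuous_rot hA).comp continuous_fst).mul continuous_snd)).continuousAt)
    (fun s _ g => by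
      have h1 := ((hf (rot hA s * g)).differentiableAt (by simp)).hasFDerivAt
      simp only [ga_mul] at h1 ⊢
      exact h1.comp_hasDerivAt s ((hasDerivAt_const s τ).prodMk (hasDerivAt_rot hA (ga g z) s)))
  have e : (fun s => ∫ g, f (τ, ga (rot hA s * g) z) ∂(haar E)) =
      fun _ => ∫ g, f (τ, ga g z) ∂(haar E) :=
    funext fun s => integral_mul_left_eq_self (fun g => f (τ, ga g z)) _
  rw [e] at h
  have := h.unique (hasDerivAt_const _ _)
  simpa [rot_zero] using this

/-- the rotation field as a linear vector field on space-time -/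
def fld (A : E →L[ℝ] E) : (ℝ × V) →L[ℝ] (ℝ × V) :=
  (0 : (ℝ × V) →L[ℝ] ℝ).prod ((act A).comp (ContinuousLinearMap.snd ℝ ℝ V))

theorem fld_apply (A : E →L[ℝ] E) (p : ℝ × V) : fld A p = (0, act A p.2) := rfl

theorem contDiffAt_df {f : ℝ × V → ℝ} {p : ℝ × V} {m n : ℕ} (hf : ContDiffAt ℝ n f p)
    (h : m + 1 ≤ n) (A : E →L[ℝ] E) : ContDiffAt ℝ m (fun q => df f q A) p :=
  (hf.fderiv_right (m := m) (by exact_mod_cast h)).clm_apply
    (ContinuousLinearMap.contDiff (𝕜 := ℝ) (n := m) (fld (V := V) A)).contDiffAt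

theorem df_df {f : ℝ × V → ℝ} {p : ℝ × V} (hf : ContDiffAt ℝ 2 f p) (A B : E →L[ℝ] E) :
    df (fun q => df f q B) p A = hess f p (0, act A p.2) (0, act B p.2) +
      fderiv ℝ f p (0, act B (act A p.2)) :=
  fderiv_field hf (fld B) _

theorem df_df_self {f : ℝ × V → ℝ} {p : ℝ × V} (hf : ContDiffAt ℝ 2 f p) (A : E →L[ℝ] E) :
    df (fun q => df f q A) p A = qf f p A A := by
  rw [df_df hf, qf_apply]

theorem integral_qf {f : ℝ × V → ℝ} {τ : ℝ} {z : V}
    (hf : ∀ g : G E, ContDiffAt ℝ 2 f (τ, ga g z)) {A : E →L[ℝ] E} (hA : IsSkew A) :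
    ∫ g, qf f (τ, ga g z) A A ∂(haar E) = 0 := by
  rw [← integral_df (f := fun q => df f q A)
    (fun g => contDiffAt_df (m := 1) (n := 2) (hf g) le_rfl A) hA]
  simp only [df_df_self (hf _)]

theorem integral_heat {f : ℝ × V → ℝ} {τ : ℝ} {z : V}
    (hf : ∀ g : G E, ContDiffAt ℝ 2 f (τ, ga g z)) :
    ∫ g, heat E f (τ, ga g z) ∂(haar E) = ∫ g, fderiv ℝ f (τ, ga g z) (1, 0) ∂(haar E) := by
  simp only [heat_eq]
  have i1 : ∀ j : Ix E, Integrable (fun g : G E => qf f (τ, ga g z) (hA j) (hA j)) (haar E) :=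
    fun j => integrable_orbit (f := fun q => qf f q (hA j) (hA j))
      fun g => continuousAt_qf (hf g) _ _
  rw [integral_sub (integrable_orbit (f := fun q => fderiv ℝ f q (1, 0)) fun g =>
      (continuousAt_fderiv' ((hf g).of_le (by norm_num))).clm_apply continuousAt_const)
    ((integrable_finsetSum _ fun j _ => i1 j).const_mul _), integral_const_mul,
    integral_finsetSum _ fun j _ => i1 j]
  simp [integral_qf hf (isSkew_hA _)]

variable (E) in
/-- average over the orbit of `z` at time `τ` -/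
def ev (z : V) (f : ℝ × V → ℝ) (τ : ℝ) : ℝ := ∫ g, f (τ, ga g z) ∂(haar E)

theorem continuousAt_orbit₂ {Y : Type} [TopologicalSpace Y] {f : ℝ × V → Y} {z : V} {s : ℝ}
    {g : G E} (hf : ContinuousAt f (s, ga g z)) :
    ContinuousAt (fun p : ℝ × G E => f (p.1, ga p.2 z)) (s, g) :=
  hf.comp_of_eq (f := fun p : ℝ × G E => (p.1, ga p.2 z))
    (continuous_fst.prodMk ((continuous_ga z).comp continuous_snd)).continuousAt rfl

theorem continuousOn_ev {z : V} {f : ℝ × V → ℝ} {a b : ℝ}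
    (hf : ∀ s ∈ Icc a b, ∀ g : G E, ContinuousAt f (s, ga g z)) :
    ContinuousOn (ev E z f) (Icc a b) :=
  continuousOn_integral_haar (F := fun s g => f (s, ga g z))
    fun s hs g => continuousAt_orbit₂ (hf s hs g)

theorem hasDerivAt_ev {z : V} {f : ℝ × V → ℝ} {a b τ : ℝ} (hτ : τ ∈ Ioo a b)
    (hf : ∀ s ∈ Icc a b, ∀ g : G E, ContDiffAt ℝ 2 f (s, ga g z)) :
    HasDerivAt (ev E z f) (ev E z (heat E f) τ) τ := by
  rw [ev, integral_heat (hf τ (Ioo_subset_Icc_self hτ))]
  refine hasDerivAt_integral_haar (F := fun s g => f (s, ga g z))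
    (F' := fun s g => fderiv ℝ f (s, ga g z) (1, 0)) hτ
    (fun s hs => continuous_orbit fun g => (hf s hs g).continuousAt)
    (fun s hs g => continuousAt_orbit₂ (f := fun q => fderiv ℝ f q (1, 0))
      ((continuousAt_fderiv' ((hf s hs g).of_le (by norm_num))).clm_apply continuousAt_const))
    fun s hs g => ?_
  exact ((hf s hs g).differentiableAt (by simp)).hasFDerivAt.comp_hasDerivAt s
    ((hasDerivAt_id s).prodMk (hasDerivAt_const s _))

/-- mean value theorem for averages -/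
theorem ev_mvt {z : V} {f : ℝ × V → ℝ} {a b : ℝ} (hab : a < b)
    (hf : ∀ s ∈ Icc a b, ∀ g : G E, ContDiffAt ℝ 2 f (s, ga g z)) :
    ∃ τ ∈ Ioo a b, ev E z (heat E f) τ * (b - a) = ev E z f b - ev E z f a := by
  obtain ⟨τ, hτ, h⟩ := exists_hasDerivAt_eq_slope (ev E z f) (ev E z (heat E f)) hab
    (continuousOn_ev fun s hs g => (hf s hs g).continuousAt) fun τ hτ => hasDerivAt_ev hτ hf
  exact ⟨τ, hτ, by rw [h, div_mul_cancel₀ _ (sub_pos.2 hab).ne']⟩

theorem ev_anti {z : V} {f : ℝ × V → ℝ} {a b : ℝ} (hab : a ≤ b)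
    (hf : ∀ s ∈ Icc a b, ∀ g : G E, ContDiffAt ℝ 2 f (s, ga g z))
    (hh : ∀ s ∈ Ioo a b, ev E z (heat E f) s ≤ 0) : ev E z f b ≤ ev E z f a := by
  rcases hab.eq_or_lt with rfl | hab
  · exact le_rfl
  obtain ⟨τ, hτ, h⟩ := ev_mvt hab hf
  nlinarith [hh τ hτ]

theorem ev_mono {z : V} {f f' : ℝ × V → ℝ} {τ : ℝ} (hf : ∀ g : G E, ContinuousAt f (τ, ga g z))
    (hf' : ∀ g : G E, ContinuousAt f' (τ, ga g z))
    (h : ∀ g : G E, f (τ, ga g z) ≤ f' (τ, ga g z)) : ev E z f τ ≤ ev E z f' τ :=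
  integral_mono (integrable_orbit hf) (integrable_orbit hf') h

theorem ev_const (z : V) (c τ : ℝ) : ev E z (fun _ => c) τ = c := by simp [ev]

theorem ev_le_const {z : V} {f : ℝ × V → ℝ} {τ c : ℝ} (hf : ∀ g : G E, ContinuousAt f (τ, ga g z))
    (h : ∀ g : G E, f (τ, ga g z) ≤ c) : ev E z f τ ≤ c :=
  (ev_mono (f' := fun _ => c) hf (fun _ => continuousAt_const) h).trans_eq (ev_const z c τ)

theorem const_le_ev {z : V} {f : ℝ × V → ℝ} {τ c : ℝ} (hf : ∀ g : G E, ContinuousAt f (τ, ga g z))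
    (h : ∀ g : G E, c ≤ f (τ, ga g z)) : c ≤ ev E z f τ :=
  (ev_const z c τ).symm.trans_le (ev_mono (f := fun _ => c) (fun _ => continuousAt_const) hf h)

theorem ev_add {z : V} {f f' : ℝ × V → ℝ} {τ : ℝ} (hf : ∀ g : G E, ContinuousAt f (τ, ga g z))
    (hf' : ∀ g : G E, ContinuousAt f' (τ, ga g z)) :
    ev E z (fun q => f q + f' q) τ = ev E z f τ + ev E z f' τ :=
  integral_add (integrable_orbit hf) (integrable_orbit hf')

theorem ev_sub {z : V} {f f' : ℝ × V → ℝ} {τ : ℝ} (hf : ∀ g : G E, ContinuousAt f (τ, ga g z))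
    (hf' : ∀ g : G E, ContinuousAt f' (τ, ga g z)) :
    ev E z (fun q => f q - f' q) τ = ev E z f τ - ev E z f' τ :=
  integral_sub (integrable_orbit hf) (integrable_orbit hf')

theorem ev_const_mul (z : V) (f : ℝ × V → ℝ) (c τ : ℝ) :
    ev E z (fun q => c * f q) τ = c * ev E z f τ := integral_const_mul _ _

theorem ev_sum {ι : Type} (s : Finset ι) {z : V} {f : ι → ℝ × V → ℝ} {τ : ℝ}
    (hf : ∀ i ∈ s, ∀ g : G E, ContinuousAt (f i) (τ, ga g z)) :
    ev E z (fun q => ∑ i ∈ s, f i q) τ = ∑ i ∈ s, ev E z (f i) τ :=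
  integral_finsetSum _ fun i hi => integrable_orbit (hf i hi)

end Pool.Agent.BL
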