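import Pool.Agent.P.MP_edb112_gt.Config

/-! The law of the height on the unit sphere and invariance under rotations of the equator. -/

set_option autoImplicit false
set_option linter.unusedSectionVars false

open MeasureTheory Set Module Filter
open scoped RealInnerProductSpace ENNReal

noncomputable section

namespace Pool.Agent.BL

namespace Den

theorem sq_add_eq {r s : ℝ} (hs : s ^ 2 < 1) :
    (r * s / √(1 - s ^ 2)) ^ 2 + r ^ 2 = (r / √(1 - s ^ 2)) ^ 2 := by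
  have h1 : 0 < 1 - s ^ 2 := by linarith
  rw [div_pow, div_pow, Real.sq_sqrt h1.le]
  field_simp
  ring

/-- length of a vertical section of a cone over a zone of the sphere -/
theorem volume_section {r : ℝ} (hr : 0 < r) {B : Set ℝ} (hB : MeasurableSet B) :
    volume {a : ℝ | a ^ 2 + r ^ 2 < 1 ∧ a / √(a ^ 2 + r ^ 2) ∈ B} =
      ∫⁻ s in B ∩ {s | r < √(1 - s ^ 2)}, ENNReal.ofReal (r / √(1 - s ^ 2) ^ 3) := by
  have hlt : ∀ s : ℝ, r < √(1 - s ^ 2) → s ^ 2 < 1 := fun s hs => by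
    have := Real.sqrt_pos.1 (hr.trans hs)
    linarith
  have hinv : ∀ s : ℝ, s ^ 2 < 1 →
      (r * s / √(1 - s ^ 2)) / √((r * s / √(1 - s ^ 2)) ^ 2 + r ^ 2) = s := by
    intro s hs
    have h1 : 0 < √(1 - s ^ 2) := Real.sqrt_pos.2 (by linarith)
    rw [sq_add_eq hs, Real.sqrt_sq (by positivity)]
    field_simp
  have e : {a : ℝ | a ^ 2 + r ^ 2 < 1 ∧ a / √(a ^ 2 + r ^ 2) ∈ B} =
      (fun s => r * s / √(1 - s ^ 2)) '' (B ∩ {s | r < √(1 - s ^ 2)}) := by
    ext a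
    constructor
    · rintro ⟨h1, h2⟩
      have h3 : 0 < a ^ 2 + r ^ 2 := by positivity
      have h4 : 0 < √(a ^ 2 + r ^ 2) := Real.sqrt_pos.2 h3
      have h5 : √(1 - (a / √(a ^ 2 + r ^ 2)) ^ 2) = r / √(a ^ 2 + r ^ 2) := by
        rw [Real.sqrt_eq_iff_mul_self_eq_of_pos (by positivity), ← sq, div_pow, div_pow,
          Real.sq_sqrt h3.le]
        field_simp
        ring
      refine ⟨_, ⟨h2, ?_⟩, ?_⟩
      · rw [mem_ofPred_eq, h5, lt_div_iff₀ h4]
        have : √(a ^ 2 + r ^ 2) < 1 := (Real.sqrt_lt' one_pos).2 (by linarith)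
        nlinarith
      · simp only [h5]
        field_simp
    · rintro ⟨s, ⟨h1, h2⟩, rfl⟩
      have h3 := hlt s h2
      refine ⟨?_, by rwa [hinv s h3]⟩
      have h4 : r / √(1 - s ^ 2) < 1 := (div_lt_one (hr.trans h2)).2 h2
      have h5 : 0 < r / √(1 - s ^ 2) := div_pos hr (hr.trans h2)
      simp only [sq_add_eq h3]
      nlinarith
  have hm : MeasurableSet (B ∩ {s : ℝ | r < √(1 - s ^ 2)}) :=
    hB.inter (isOpen_lt continuous_const (by fun_prop)).measurableSet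
  have hd : ∀ s ∈ B ∩ {s : ℝ | r < √(1 - s ^ 2)}, HasDerivWithinAt (fun s => r * s / √(1 - s ^ 2))
      (r / √(1 - s ^ 2) ^ 3) (B ∩ {s : ℝ | r < √(1 - s ^ 2)}) s := by
    intro s hs
    have h1 : 0 < 1 - s ^ 2 := by linarith [hlt s hs.2]
    have h2 : 0 < √(1 - s ^ 2) := Real.sqrt_pos.2 h1
    have h3 : HasDerivAt (fun s : ℝ => 1 - s ^ 2) (-(2 * s)) s := by
      simpa using (hasDerivAt_pow 2 s).const_sub 1
    refine (((hasDerivAt_id' s).const_mul r).div (h3.sqrt h1.ne') h2.ne').hasDerivWithinAt.congr_deriv ?_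
    have h4 := Real.sq_sqrt h1.le
    generalize √(1 - s ^ 2) = ρ at h2 h4 ⊢
    field_simp
    linear_combination h4
  have := lintegral_image_eq_lintegral_abs_deriv_mul hm hd (fun s hs t ht h => by
    rw [← hinv s (hlt s hs.2), ← hinv t (hlt t ht.2)]
    simp only at h
    rw [h]) fun _ => 1
  rw [e, ← setLIntegral_one, this]
  refine setLIntegral_congr_fun hm fun s _ => ?_
  simp only [mul_one]
  rw [abs_of_nonneg (by positivity)]

theorem lintegral_ball {F : Type} [NormedAddCommGroup F] [NormedSpace ℝ F] [FiniteDimensional ℝ F]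
    [MeasurableSpace F] [BorelSpace F] (μ : Measure F) [μ.IsAddHaarMeasure] {ρ : ℝ} (hρ : 0 < ρ) :
    ∫⁻ y in Metric.ball (0 : F) ρ, ENNReal.ofReal ‖y‖ ∂μ =
      ENNReal.ofReal (ρ ^ (finrank ℝ F + 1)) *
        ∫⁻ y in Metric.ball (0 : F) 1, ENNReal.ofReal ‖y‖ ∂μ := by
  have h1 : μ = ENNReal.ofReal (ρ ^ finrank ℝ F) • μ.map (ρ • ·) := by
    rw [Measure.map_addHaar_smul μ hρ.ne', smul_smul, ← ENNReal.ofReal_mul (by positivity),
      abs_of_pos (by positivity), mul_inv_cancel₀ (by positivity), ENNReal.ofReal_one, one_smul]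
  have h2 : (fun y : F => ρ • y) ⁻¹' Metric.ball 0 ρ = Metric.ball 0 1 := by
    ext y
    simp [norm_smul, abs_of_pos hρ, hρ]
  conv_lhs => rw [h1]
  rw [Measure.restrict_smul, lintegral_smul_measure, setLIntegral_map Metric.isOpen_ball.measurableSet
    (by fun_prop) (by fun_prop), h2, pow_succ, ENNReal.ofReal_mul (by positivity), smul_eq_mul,
    mul_assoc]
  congr 1
  rw [← lintegral_const_mul _ (by fun_prop)]
  refine lintegral_congr fun y => ?_
  rw [norm_smul, Real.norm_of_nonneg hρ.le, ENNReal.ofReal_mul hρ.le]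

/-- volume of the cone over a zone of the sphere -/
theorem volume_cone {F : Type} [NormedAddCommGroup F] [NormedSpace ℝ F] [FiniteDimensional ℝ F]
    [Nontrivial F] [MeasurableSpace F] [BorelSpace F] (μ : Measure F) [μ.IsAddHaarMeasure]
    (hn : 2 ≤ finrank ℝ F) {B : Set ℝ} (hB : MeasurableSet B) :
    (volume.prod μ) {p : ℝ × F | p.1 ^ 2 + ‖p.2‖ ^ 2 < 1 ∧ p.1 / √(p.1 ^ 2 + ‖p.2‖ ^ 2) ∈ B} =
      (∫⁻ y in Metric.ball (0 : F) 1, ENNReal.ofReal ‖y‖ ∂μ) *
        ∫⁻ s in B ∩ Ioo (-1) 1, ENNReal.ofReal (√(1 - s ^ 2) ^ (finrank ℝ F - 2)) := by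
  have hm : MeasurableSet {p : ℝ × F | p.1 ^ 2 + ‖p.2‖ ^ 2 < 1 ∧
      p.1 / √(p.1 ^ 2 + ‖p.2‖ ^ 2) ∈ B} :=
    (measurableSet_lt (f := fun p : ℝ × F => p.1 ^ 2 + ‖p.2‖ ^ 2) (g := fun _ => 1) (by fun_prop)
      measurable_const).inter ((show Measurable fun p : ℝ × F => p.1 / √(p.1 ^ 2 + ‖p.2‖ ^ 2) by fun_prop) hB)
  have hm2 : MeasurableSet {p : F × ℝ | p.2 ∈ B ∧ ‖p.1‖ < √(1 - p.2 ^ 2)} :=
    (measurable_snd hB).inter (measurableSet_lt (f := fun p : F × ℝ => ‖p.1‖)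
      (g := fun p => √(1 - p.2 ^ 2)) (by fun_prop) (by fun_prop))
  let f : F × ℝ → ℝ≥0∞ := indicator {p : F × ℝ | p.2 ∈ B ∧ ‖p.1‖ < √(1 - p.2 ^ 2)}
    fun p => ENNReal.ofReal (‖p.1‖ / √(1 - p.2 ^ 2) ^ 3)
  have hf : Measurable f := Measurable.indicator (by fun_prop) hm2
  rw [Measure.prod_apply_symm hm]
  have h1 : ∀ᵐ y ∂μ, volume ((fun a : ℝ => (a, y)) ⁻¹' {p : ℝ × F | p.1 ^ 2 + ‖p.2‖ ^ 2 < 1 ∧
      p.1 / √(p.1 ^ 2 + ‖p.2‖ ^ 2) ∈ B}) = ∫⁻ s, f (y, s) := by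
    filter_upwards [(Set.countable_singleton (0 : F)).ae_notMem μ] with y hy
    refine (volume_section (norm_pos_iff.2 hy) hB).trans ?_
    rw [← lintegral_indicator (hB.inter (isOpen_lt continuous_const (by fun_prop)).measurableSet)]
    rfl
  rw [lintegral_congr_ae h1, 
    lintegral_lintegral_swap (f := fun y s => f (y, s)) hf.aemeasurable,
    ← lintegral_const_mul _ (by fun_prop), ← lintegral_indicator (hB.inter measurableSet_Ioo)]
  refine lintegral_congr fun s => ?_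
  by_cases hs : s ∈ B ∩ Ioo (-1) 1
  · have h2 : 0 < √(1 - s ^ 2) := Real.sqrt_pos.2 (by nlinarith [hs.2.1, hs.2.2])
    have h3 : ∀ y, f (y, s) = ENNReal.ofReal ((√(1 - s ^ 2) ^ 3)⁻¹) *
        indicator (Metric.ball (0 : F) √(1 - s ^ 2)) (fun y => ENNReal.ofReal ‖y‖) y := by
      intro y
      by_cases hy : ‖y‖ < √(1 - s ^ 2)
      · rw [indicator_of_mem (mem_ball_zero_iff.2 hy), ← ENNReal.ofReal_mul (by positivity),
          ← div_eq_inv_mul]
        exact indicator_of_mem (by exact ⟨hs.1, hy⟩) _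
      · rw [indicator_of_notMem (by simpa using hy), mul_zero]
        exact indicator_of_notMem (fun h => hy h.2) _
    simp only [h3]
    rw [lintegral_const_mul _ (Measurable.indicator (by fun_prop) Metric.isOpen_ball.measurableSet),
      lintegral_indicator Metric.isOpen_ball.measurableSet, lintegral_ball μ h2, indicator_of_mem hs,
      ← mul_assoc, mul_comm, ← ENNReal.ofReal_mul (by positivity)]
    congr 2
    rw [show finrank ℝ F + 1 = 3 + (finrank ℝ F - 2) by omega, pow_add]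
    field_simp
  · rw [indicator_of_notMem hs]
    refine (lintegral_congr fun y => ?_).trans lintegral_zero
    refine indicator_of_notMem (fun h => hs ⟨h.1, ?_⟩) _
    have := Real.sqrt_pos.1 ((norm_nonneg _).trans_lt h.2)
    exact abs_lt.1 (by rw [← sq_lt_one_iff_abs_lt_one]; linarith)

variable {E : Type} [NormedAddCommGroup E] [InnerProductSpace ℝ E] [CompleteSpace E]
  [FiniteDimensional ℝ E] [MeasurableSpace E] [BorelSpace E] {e : E}

/-- projection to the equator -/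
def pr (he : ‖e‖ = 1) : E →ₗ[ℝ] (ℝ ∙ e)ᗮ :=
  LinearMap.codRestrict _ (LinearMap.id - (innerₛₗ ℝ e).smulRight e) fun x => by
    rw [Submodule.mem_orthogonal_singleton_iff_inner_right]
    simp [inner_sub_right, inner_smul_right, he]

theorem pr_coe (he : ‖e‖ = 1) (x : E) : (pr he x : E) = x - ⟪e, x⟫ • e := rfl

theorem inner_split (he : ‖e‖ = 1) (a : ℝ) (y : (ℝ ∙ e)ᗮ) : ⟪e, a • e + (y : E)⟫ = a := by
  rw [inner_add_right, inner_smul_right,
    Submodule.mem_orthogonal_singleton_iff_inner_right.1 y.2, real_inner_self_eq_norm_sq, he]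
  ring

theorem norm_split (he : ‖e‖ = 1) (a : ℝ) (y : (ℝ ∙ e)ᗮ) :
    ‖a • e + (y : E)‖ ^ 2 = a ^ 2 + ‖y‖ ^ 2 := by
  rw [norm_add_sq_real, inner_smul_left, Submodule.mem_orthogonal_singleton_iff_inner_right.1 y.2,
    norm_smul, he]
  simp

theorem norm_pr (he : ‖e‖ = 1) (x : E) : ‖x‖ ^ 2 = ⟪e, x⟫ ^ 2 + ‖pr he x‖ ^ 2 := by
  rw [← norm_split he, pr_coe, add_sub_cancel]

/-- splitting off the axis -/
def split (he : ‖e‖ = 1) : (ℝ × (ℝ ∙ e)ᗮ) ≃L[ℝ] E :=
  LinearEquiv.toContinuousLinearEquiv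
    { toFun := fun p => p.1 • e + (p.2 : E)
      map_add' := fun p q => by simp [add_smul]; abel
      map_smul' := fun t p => by simp [smul_smul]
      invFun := fun x => (⟪e, x⟫, pr he x)
      left_inv := fun p => Prod.ext (inner_split he _ _) (Subtype.ext (by
        simp only [pr_coe, inner_split he, add_sub_cancel_left]))
      right_inv := fun x => by simp only [pr_coe, add_sub_cancel] }

theorem split_apply (he : ‖e‖ = 1) (p : ℝ × (ℝ ∙ e)ᗮ) : split he p = p.1 • e + (p.2 : E) := rfl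

/-- radial projection of the unit ball -/
theorem radial [Nontrivial E] (μ : Measure E) [μ.IsAddHaarMeasure] {A : Set E}
    (hA : MeasurableSet A) : μ ((fun x => ‖x‖⁻¹ • x) ⁻¹' A ∩ Metric.ball 0 1) =
      μ (Metric.ball 0 1) * sph E A := by
  have hm : Measurable fun x : E => ‖x‖⁻¹ • x := by fun_prop
  have : IsFiniteMeasure (μ.restrict (Metric.ball 0 1)) :=
    isFiniteMeasure_restrict.2 measure_ball_lt_top.ne
  let m : Measure E := (μ.restrict (Metric.ball 0 1)).map fun x => ‖x‖⁻¹ • x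
  have h0 : ∀ B, MeasurableSet B → m B = μ ((fun x => ‖x‖⁻¹ • x) ⁻¹' B ∩ Metric.ball 0 1) :=
    fun B hB => by rw [Measure.map_apply hm hB, Measure.restrict_apply (hm hB)]
  have h1 : ∀ᵐ x ∂m, ‖x‖ = 1 := by
    rw [ae_map_iff hm.aemeasurable (measurableSet_eq_fun measurable_norm measurable_const)]
    filter_upwards [ae_restrict_of_ae ((Set.countable_singleton (0 : E)).ae_notMem μ)] with x hx
    exact norm_smul_inv_norm (𝕜 := ℝ) hx
  have h2 : ∀ g : G E, m.map (ap g) = m := by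
    intro g
    have h3 : μ.map (ap g) = μ := by
      rw [Measure.isAddLeftInvariant_eq_smul μ volume, Measure.map_smul]
      exact congrArg _ (toIso g).measurePreserving.map_eq
    ext B hB
    rw [Measure.map_apply (measurable_ap_right g) hB, h0 _ (measurable_ap_right g hB), h0 B hB]
    conv_rhs => rw [← h3, Measure.map_apply (measurable_ap_right g)
      ((hm hB).inter Metric.isOpen_ball.measurableSet)]
    congr 1
    ext x
    simp [norm_ap, ap_smul]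
  rw [← h0 A hA, eq_smul_sph m h1 h2, Measure.smul_apply, h0 _ MeasurableSet.univ]
  simp

theorem exists_law (hn : 4 ≤ finrank ℝ E) (he : ‖e‖ = 1) : ∃ C : ℝ≥0∞, ∀ B, MeasurableSet B →
    sph E ((fun x => ⟪e, x⟫) ⁻¹' B) =
      C * ∫⁻ s in B ∩ Ioo (-1) 1, ENNReal.ofReal (√(1 - s ^ 2) ^ (finrank ℝ E - 3)) := by
  have hk := finrank_orth he
  have : Nontrivial E := Module.nontrivial_of_finrank_pos (R := ℝ) (by omega)
  have : Nontrivial (ℝ ∙ e)ᗮ := Module.nontrivial_of_finrank_pos (R := ℝ) (by omega)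
  let μ : Measure E := ((volume : Measure ℝ).prod (volume : Measure (ℝ ∙ e)ᗮ)).map (split he)
  refine ⟨(μ (Metric.ball 0 1))⁻¹ *
    ∫⁻ y in Metric.ball (0 : (ℝ ∙ e)ᗮ) 1, ENNReal.ofReal ‖y‖, fun B hB => ?_⟩
  have hB' : MeasurableSet ((fun x => ⟪e, x⟫) ⁻¹' B) := (by fun_prop : Measurable _) hB
  have h1 := radial μ hB'
  have h2 := volume_cone (volume : Measure (ℝ ∙ e)ᗮ) (by omega) hB
  rw [show finrank ℝ (ℝ ∙ e)ᗮ - 2 = finrank ℝ E - 3 by omega] at h2
  have h3 : μ (Metric.ball 0 1) ≠ 0 := (Metric.measure_ball_pos μ _ one_pos).ne'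
  have h4 : μ ((fun x => ‖x‖⁻¹ • x) ⁻¹' ((fun x => ⟪e, x⟫) ⁻¹' B) ∩ Metric.ball 0 1) =
      (volume.prod volume) {p : ℝ × (ℝ ∙ e)ᗮ |
        p.1 ^ 2 + ‖p.2‖ ^ 2 < 1 ∧ p.1 / √(p.1 ^ 2 + ‖p.2‖ ^ 2) ∈ B} := by
    rw [Measure.map_apply (split he).continuous.measurable
      (((by fun_prop : Measurable fun x : E => ‖x‖⁻¹ • x) hB').inter
        Metric.isOpen_ball.measurableSet)]
    congr 1
    ext p
    simp only [mem_preimage, mem_inter_iff, mem_ofPred_eq, mem_ball_zero_iff, inner_smul_right,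
      split_apply, inner_split he, ← norm_split he, Real.sqrt_sq (norm_nonneg _),
      sq_lt_one_iff₀ (norm_nonneg _), div_eq_inv_mul, and_comm]
  rw [mul_assoc, ← h2, ← h4, h1, ← mul_assoc, ENNReal.inv_mul_cancel h3 measure_ball_lt_top.ne,
    one_mul]

/-- extension of an isometry of the equator -/
theorem exists_ext (he : ‖e‖ = 1) (g : G (ℝ ∙ e)ᗮ) :
    ∃ g' : G E, ∀ x, ap g' x = ⟪e, x⟫ • e + ((ap g (pr he x) : (ℝ ∙ e)ᗮ) : E) := by
  let f : E →ₗᵢ[ℝ] E :=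
    { toLinearMap := (innerₛₗ ℝ e).smulRight e +
        (ℝ ∙ e)ᗮ.subtype.comp ((toIso g).toLinearEquiv.toLinearMap.comp (pr he))
      norm_map' := fun x => by
        rw [← sq_eq_sq₀ (norm_nonneg _) (norm_nonneg _), norm_pr he x, ← norm_ap g]
        exact norm_split he _ _ }
  exact ⟨ofIso (f.toLinearIsometryEquiv rfl), fun _ => rfl⟩

theorem measurable_slice' (e : E) {A : Set E} (hA : MeasurableSet A) :
    Measurable fun s => sph (ℝ ∙ e)ᗮ (slice e s A) :=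
  measurable_measure_prodMk_left (s := {p : ℝ × (ℝ ∙ e)ᗮ | p.1 • e + √(1 - p.1 ^ 2) • (p.2 : E) ∈ A})
    ((by fun_prop : Measurable fun p : ℝ × (ℝ ∙ e)ᗮ => p.1 • e + √(1 - p.1 ^ 2) • (p.2 : E)) hA)

/-- averaging over the rotations of the equator -/
theorem sph_eq_lintegral (hn : 2 ≤ finrank ℝ E) (he : ‖e‖ = 1) {A : Set E} (hA : MeasurableSet A) :
    sph E A = ∫⁻ x, sph (ℝ ∙ e)ᗮ (slice e ⟪e, x⟫ A) ∂(sph E) := by
  have hk := finrank_orth he
  have : Nontrivial E := Module.nontrivial_of_finrank_pos (R := ℝ) (by omega)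
  have : Nontrivial (ℝ ∙ e)ᗮ := Module.nontrivial_of_finrank_pos (R := ℝ) (by omega)
  have hp : Continuous (pr he) := (pr he).continuous_of_finiteDimensional
  have hs : MeasurableSet {p : G (ℝ ∙ e)ᗮ × E |
      ⟪e, p.2⟫ • e + ((ap p.1 (pr he p.2) : (ℝ ∙ e)ᗮ) : E) ∈ A} :=
    (Continuous.measurable (f := fun p : G (ℝ ∙ e)ᗮ × E =>
      ⟪e, p.2⟫ • e + ((ap p.1 (pr he p.2) : (ℝ ∙ e)ᗮ) : E)) (by fun_prop)) hA
  have e1 : ((haar (ℝ ∙ e)ᗮ).prod (sph E))
      {p : G (ℝ ∙ e)ᗮ × E |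
      ⟪e, p.2⟫ • e + ((ap p.1 (pr he p.2) : (ℝ ∙ e)ᗮ) : E) ∈ A} = sph E A := by
    rw [Measure.prod_apply hs]
    have : ∀ g : G (ℝ ∙ e)ᗮ, sph E (Prod.mk g ⁻¹'
        {p : G (ℝ ∙ e)ᗮ × E |
      ⟪e, p.2⟫ • e + ((ap p.1 (pr he p.2) : (ℝ ∙ e)ᗮ) : E) ∈ A}) = sph E A := by
      intro g
      obtain ⟨g', hg'⟩ := exists_ext he g
      conv_rhs => rw [← sph_map_ap g', Measure.map_apply (measurable_ap_right g') hA]
      congr 1
      ext x
      simp [hg']
    simp only [this]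
    simp
  rw [← e1, Measure.prod_apply_symm hs]
  refine lintegral_congr_ae ?_
  filter_upwards [ae_norm] with x hx
  obtain ⟨y, hy, h⟩ : ∃ y : (ℝ ∙ e)ᗮ, ‖y‖ = 1 ∧ pr he x = ‖pr he x‖ • y := by
    by_cases h0 : pr he x = 0
    · obtain ⟨y, hy⟩ := exists_norm_eq (ℝ ∙ e)ᗮ zero_le_one
      exact ⟨y, hy, by simp [h0]⟩
    · exact ⟨_, norm_smul_inv_norm (𝕜 := ℝ) h0, by
        rw [smul_smul, RCLike.ofReal_real_eq_id, id, mul_inv_cancel₀ (norm_ne_zero_iff.2 h0),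
          one_smul]⟩
  have h2 : √(1 - ⟪e, x⟫ ^ 2) = ‖pr he x‖ := by
    rw [← Real.sqrt_sq (norm_nonneg (pr he x))]
    congr 1
    have := norm_pr he x
    rw [hx] at this
    linarith
  rw [← haar_preimage hy (B := slice e ⟪e, x⟫ A) ((by fun_prop : Measurable fun y : (ℝ ∙ e)ᗮ =>
    ⟪e, x⟫ • e + √(1 - ⟪e, x⟫ ^ 2) • (y : E)) hA)]
  congr 1
  ext g
  simp only [mem_preimage, mem_ofPred_eq, slice]
  rw [h2, ← Submodule.coe_smul, ← ap_smul, ← h]

end Den

end Pool.Agent.BL
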