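import Mathlib

/-! The standard Gaussian density, distribution function and quantile function. -/

set_option autoImplicit false

open MeasureTheory ProbabilityTheory Set Filter Real
open scoped Topology

noncomputable section

namespace Pool.Agent.BL

/-- standard Gaussian measure -/
abbrev gam : Measure ℝ := gaussianReal 0 1

/-- standard Gaussian density -/
def ph (x : ℝ) : ℝ := (√(2 * π))⁻¹ * exp (-(x ^ 2 / 2))

/-- standard Gaussian distribution function -/
def Ph (x : ℝ) : ℝ := gam.real (Iic x)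

/-- standard Gaussian quantile function -/
def Ps (y : ℝ) : ℝ := Function.invFun Ph y

theorem ph_eq (x : ℝ) : ph x = gaussianPDFReal 0 1 x := by
  simp [ph, gaussianPDFReal, neg_div]

theorem ph_pos (x : ℝ) : 0 < ph x := by
  unfold ph
  positivity

theorem ph_neg (x : ℝ) : ph (-x) = ph x := by simp [ph]

theorem ph_abs (x : ℝ) : ph |x| = ph x := by simp [ph]

theorem ph_anti {x y : ℝ} (h : |x| ≤ |y|) : ph y ≤ ph x := by
  unfold ph
  have : x ^ 2 ≤ y ^ 2 := sq_le_sq.2 h
  gcongr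

theorem ph_zero_le : ph 0 ≤ 1 / 2 := by
  have h : (2 : ℝ) ≤ √(2 * π) := by
    rw [Real.le_sqrt (by norm_num) (by positivity)]
    nlinarith [pi_gt_three]
  simp only [ph]
  rw [one_div]
  simpa using inv_anti₀ (by norm_num) h

theorem ph_le (x : ℝ) : ph x ≤ 1 / 2 := (ph_anti (by simp)).trans ph_zero_le

theorem ph_le_exp (x : ℝ) : ph x ≤ exp (-(x ^ 2 / 2)) / 2 := by
  have h := ph_zero_le
  simp only [ph] at h ⊢
  have h2 : (√(2 * π))⁻¹ ≤ 1 / 2 := by simpa using h
  nlinarith [exp_pos (-(x ^ 2 / 2))]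

@[fun_prop] theorem contDiff_ph {n : WithTop ℕ∞} : ContDiff ℝ n ph := by
  unfold ph
  fun_prop

@[fun_prop] theorem continuous_ph : Continuous ph := (contDiff_ph (n := 0)).continuous

theorem hasDerivAt_ph (x : ℝ) : HasDerivAt ph (-x * ph x) x := by
  have h : HasDerivAt (fun x : ℝ => -(x ^ 2 / 2)) (-x) x :=
    ((hasDerivAt_pow 2 x).div_const 2).neg.congr_deriv (by simp)
  refine (h.exp.const_mul (√(2 * π))⁻¹).congr_deriv ?_
  simp only [ph]
  ring

theorem integrable_ph : Integrable ph := by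
  have : ph = gaussianPDFReal 0 1 := funext ph_eq
  rw [this]
  exact integrable_gaussianPDFReal 0 1

theorem gam_real {s : Set ℝ} (hs : MeasurableSet s) : gam.real s = ∫ x in s, ph x := by
  rw [Measure.real, gaussianReal_apply_eq_integral 0 one_ne_zero,
    ENNReal.toReal_ofReal (setIntegral_nonneg hs fun x _ => gaussianPDFReal_nonneg _ _ _)]
  simp only [ph_eq]

theorem integral_gam (f : ℝ → ℝ) : ∫ x, f x ∂gam = ∫ x, ph x * f x := by
  rw [integral_gaussianReal_eq_integral_smul one_ne_zero]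
  simp only [ph_eq, smul_eq_mul]

theorem Ph_eq (x : ℝ) : Ph x = ∫ y in Iic x, ph y := gam_real measurableSet_Iic

theorem Ph_sub (a b : ℝ) : Ph b - Ph a = ∫ y in a..b, ph y := by
  rw [Ph_eq, Ph_eq, intervalIntegral.integral_Iic_sub_Iic integrable_ph.integrableOn
    integrable_ph.integrableOn]

theorem hasDerivAt_Ph (x : ℝ) : HasDerivAt Ph (ph x) x := by
  have e : Ph = fun b => Ph 0 + ∫ y in (0 : ℝ)..b, ph y := by
    funext b
    rw [← Ph_sub]
    ring
  rw [e]
  exact (intervalIntegral.integral_hasDerivAt_right (continuous_ph.intervalIntegrable _ _)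
      (continuous_ph.stronglyMeasurableAtFilter _ _) continuous_ph.continuousAt).const_add _

theorem deriv_Ph : deriv Ph = ph := funext fun x => (hasDerivAt_Ph x).deriv

@[fun_prop] theorem contDiff_Ph {n : ℕ∞} : ContDiff ℝ n Ph := by
  have : ContDiff ℝ (⊤ : ℕ∞) Ph := by
    rw [contDiff_infty_iff_deriv, deriv_Ph]
    exact ⟨fun x => (hasDerivAt_Ph x).differentiableAt, contDiff_ph⟩
  exact this.of_le (by exact_mod_cast le_top)

@[fun_prop] theorem continuous_Ph : Continuous Ph := (contDiff_Ph (n := 0)).continuous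

theorem Ph_strictMono : StrictMono Ph :=
  strictMono_of_deriv_pos fun x => by rw [deriv_Ph]; exact ph_pos x

theorem Ph_mono : Monotone Ph := Ph_strictMono.monotone

theorem tendsto_Ph_atBot : Tendsto Ph atBot (𝓝 0) := by
  have : Ph = cdf gam := funext fun x => (cdf_eq_real gam x).symm
  rw [this]
  exact tendsto_cdf_atBot gam

theorem tendsto_Ph_atTop : Tendsto Ph atTop (𝓝 1) := by
  have : Ph = cdf gam := funext fun x => (cdf_eq_real gam x).symm
  rw [this]
  exact tendsto_cdf_atTop gam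

theorem Ph_pos (x : ℝ) : 0 < Ph x :=
  lt_of_le_of_lt measureReal_nonneg (Ph_strictMono (sub_one_lt x))

theorem Ph_lt_one (x : ℝ) : Ph x < 1 :=
  (Ph_strictMono (lt_add_one x)).trans_le measureReal_le_one

theorem Ph_neg (x : ℝ) : Ph (-x) = 1 - Ph x := by
  have h : ∀ y, HasDerivAt (fun y => Ph (-y) + Ph y) 0 y := by
    intro y
    have h1 := ((hasDerivAt_Ph (-y)).comp y (hasDerivAt_neg y)).add (hasDerivAt_Ph y)
    rw [ph_neg] at h1
    exact h1.congr_deriv (by ring)
  have hc := is_const_of_deriv_eq_zero (fun y => (h y).differentiableAt) fun y => (h y).deriv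
  have h2 : Tendsto (fun y => Ph (-y) + Ph y) atTop (𝓝 (0 + 1)) :=
    (tendsto_Ph_atBot.comp tendsto_neg_atTop_atBot).add tendsto_Ph_atTop
  have h3 : (fun y => Ph (-y) + Ph y) = fun _ => Ph (-x) + Ph x := funext fun y => hc y x
  rw [h3] at h2
  have := tendsto_nhds_unique h2 tendsto_const_nhds
  linarith

theorem Ph_zero : Ph 0 = 1 / 2 := by
  have := Ph_neg 0
  rw [neg_zero] at this
  linarith

theorem Ps_Ph (x : ℝ) : Ps (Ph x) = x :=
  Function.leftInverse_invFun Ph_strictMono.injective x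

theorem exists_Ph_eq {y : ℝ} (h0 : 0 < y) (h1 : y < 1) : ∃ x, Ph x = y := by
  obtain ⟨a, ha⟩ := (tendsto_Ph_atBot.eventually (gt_mem_nhds h0)).exists
  obtain ⟨b, hb⟩ := (tendsto_Ph_atTop.eventually (lt_mem_nhds h1)).exists
  exact mem_range_of_exists_le_of_exists_ge continuous_Ph ⟨a, ha.le⟩ ⟨b, hb.le⟩

theorem Ph_Ps {y : ℝ} (h0 : 0 < y) (h1 : y < 1) : Ph (Ps y) = y := by
  obtain ⟨x, rfl⟩ := exists_Ph_eq h0 h1
  rw [Ps_Ph]

theorem le_Ps {x y : ℝ} (h1 : y < 1) (h : Ph x ≤ y) : x ≤ Ps y := by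
  rw [← Ph_strictMono.le_iff_le, Ph_Ps ((Ph_pos x).trans_le h) h1]
  exact h

theorem Ps_le {x y : ℝ} (h0 : 0 < y) (h : y ≤ Ph x) : Ps y ≤ x := by
  rw [← Ph_strictMono.le_iff_le, Ph_Ps h0 (h.trans_lt (Ph_lt_one x))]
  exact h

theorem continuousAt_Ps {y : ℝ} (h0 : 0 < y) (h1 : y < 1) : ContinuousAt Ps y := by
  obtain ⟨x, rfl⟩ := exists_Ph_eq h0 h1
  rw [ContinuousAt, Ps_Ph, tendsto_order]
  constructor
  · intro a ha
    obtain ⟨b, hb1, hb2⟩ := exists_between ha
    filter_upwards [lt_mem_nhds (Ph_strictMono hb2), gt_mem_nhds h1] with z hz1 hz2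
    exact hb1.trans_le (le_Ps hz2 hz1.le)
  · intro a ha
    obtain ⟨b, hb1, hb2⟩ := exists_between ha
    filter_upwards [gt_mem_nhds (Ph_strictMono hb1), lt_mem_nhds h0] with z hz1 hz2
    exact (Ps_le hz2 hz1.le).trans_lt hb2

theorem hasDerivAt_Ps {y : ℝ} (h0 : 0 < y) (h1 : y < 1) : HasDerivAt Ps (ph (Ps y))⁻¹ y := by
  refine HasDerivAt.of_local_left_inverse (continuousAt_Ps h0 h1) (hasDerivAt_Ph _)
    (ph_pos _).ne' ?_
  filter_upwards [lt_mem_nhds h0, gt_mem_nhds h1] with z hz1 hz2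
  exact Ph_Ps hz1 hz2

theorem contDiffOn_Ps (n : ℕ) : ContDiffOn ℝ n Ps (Ioo 0 1) := by
  induction n with
  | zero =>
    simp only [Nat.cast_zero, contDiffOn_zero]
    exact fun y hy => (continuousAt_Ps hy.1 hy.2).continuousWithinAt
  | succ n ih =>
    rw [Nat.cast_succ, contDiffOn_succ_iff_deriv_of_isOpen isOpen_Ioo]
    refine ⟨fun y hy => (hasDerivAt_Ps hy.1 hy.2).differentiableAt.differentiableWithinAt,
      by simp, ?_⟩
    refine ContDiffOn.congr (f := fun y => (ph (Ps y))⁻¹) ?_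
      fun y hy => (hasDerivAt_Ps hy.1 hy.2).deriv
    exact (contDiff_ph.comp_contDiffOn ih).inv fun y _ => (ph_pos _).ne'

theorem contDiffAt_Ps (n : ℕ) {y : ℝ} (h0 : 0 < y) (h1 : y < 1) : ContDiffAt ℝ n Ps y :=
  (contDiffOn_Ps n).contDiffAt (Ioo_mem_nhds h0 h1)

theorem Ph_sub_le {a b : ℝ} (h : a ≤ b) : Ph b - Ph a ≤ (b - a) / 2 := by
  rw [Ph_sub]
  calc ∫ y in a..b, ph y ≤ ∫ _ in a..b, (1 / 2 : ℝ) :=
        intervalIntegral.integral_mono_on h (continuous_ph.intervalIntegrable _ _)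
          (by simp) fun x _ => ph_le x
    _ = (b - a) / 2 := by simp; ring

theorem abs_Ph_sub_le (a b : ℝ) : |Ph a - Ph b| ≤ |a - b| / 2 := by
  rcases le_total a b with h | h
  · rw [abs_sub_comm, abs_sub_comm a, abs_of_nonneg (sub_nonneg.2 (Ph_mono h)),
      abs_of_nonneg (sub_nonneg.2 h)]
    exact Ph_sub_le h
  · rw [abs_of_nonneg (sub_nonneg.2 (Ph_mono h)), abs_of_nonneg (sub_nonneg.2 h)]
    exact Ph_sub_le h

theorem le_Ph_sub {a b R : ℝ} (h : a ≤ b) (ha : |a| ≤ R) (hb : |b| ≤ R) :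
    ph R * (b - a) ≤ Ph b - Ph a := by
  rw [Ph_sub]
  calc ph R * (b - a) = ∫ _ in a..b, ph R := by simp; ring
    _ ≤ ∫ y in a..b, ph y := by
        refine intervalIntegral.integral_mono_on h (by simp)
          (continuous_ph.intervalIntegrable _ _) fun x hx => ph_anti ?_
        rw [abs_le] at ha hb
        exact (abs_le.2 ⟨by linarith [hx.1], by linarith [hx.2]⟩).trans (le_abs_self R)

/-- a function on `[0, ∞)` with nonpositive derivative and limit zero is nonnegative -/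
theorem nonneg_of_deriv_nonpos {f f' : ℝ → ℝ} {s : ℝ} (hd : ∀ x, s ≤ x → HasDerivAt f (f' x) x)
    (h : ∀ x, s ≤ x → f' x ≤ 0) (hl : Tendsto f atTop (𝓝 0)) : 0 ≤ f s := by
  have ha : AntitoneOn f (Ici s) := by
    refine antitoneOn_of_deriv_nonpos (convex_Ici s)
      (fun x hx => (hd x hx).continuousAt.continuousWithinAt)
      (fun x hx => (hd x (interior_subset hx)).differentiableAt.differentiableWithinAt) ?_
    intro x hx
    rw [(hd x (interior_subset hx)).deriv]
    exact h x (interior_subset hx)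
  refine le_of_tendsto hl ?_
  filter_upwards [eventually_ge_atTop s] with x hx
  exact ha self_mem_Ici hx hx

theorem hasDerivAt_Ph_neg (x : ℝ) : HasDerivAt (fun y => Ph (-y)) (-ph x) x := by
  have h1 := (hasDerivAt_Ph (-x)).comp x (hasDerivAt_neg x)
  rw [ph_neg] at h1
  exact h1.congr_deriv (by ring)

theorem tendsto_ph_atTop : Tendsto ph atTop (𝓝 0) := by
  have h : Tendsto (fun x : ℝ => -(x ^ 2 / 2)) atTop atBot :=
    tendsto_neg_atTop_atBot.comp ((tendsto_pow_atTop two_ne_zero).atTop_div_const two_pos)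
  have := (tendsto_exp_atBot.comp h).const_mul (√(2 * π))⁻¹
  rw [mul_zero] at this
  exact this

theorem tendsto_Ph_neg : Tendsto (fun s => Ph (-s)) atTop (𝓝 0) :=
  tendsto_Ph_atBot.comp tendsto_neg_atTop_atBot

/-- lower Mills bound -/
theorem ph_le_mul_Ph {s : ℝ} (hs : 0 ≤ s) : ph s ≤ (s + 1) * Ph (-s) := by
  have h := nonneg_of_deriv_nonpos (f := fun x => Ph (-x) - ph x / (x + 1))
    (f' := fun x => -ph x - (-x * ph x * (x + 1) - ph x * 1) / (x + 1) ^ 2) (s := s)
    (fun x hx => (hasDerivAt_Ph_neg x).sub ((hasDerivAt_ph x).div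
      ((hasDerivAt_id x).add_const 1) (show x + 1 ≠ 0 by linarith)))
    (fun x hx => by
      have h1 : 0 < x + 1 := by linarith
      have h2 := ph_pos x
      have : -ph x - (-x * ph x * (x + 1) - ph x * 1) / (x + 1) ^ 2 =
          -(ph x * x / (x + 1) ^ 2) := by
        field_simp
        ring
      rw [this, neg_nonpos]
      have : 0 ≤ x := hs.trans hx
      positivity)
    (by
      have h1 : Tendsto (fun x : ℝ => ph x / (x + 1)) atTop (𝓝 0) :=
        tendsto_ph_atTop.div_atTop (tendsto_atTop_add_const_right _ 1 tendsto_id)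
      simpa using tendsto_Ph_neg.sub h1)
  have h1 : 0 < s + 1 := by linarith
  simp only [sub_nonneg] at h
  rwa [div_le_iff₀ h1, mul_comm] at h

/-- upper Mills bound -/
theorem mul_Ph_neg_le {s : ℝ} (hs : 0 < s) : s * Ph (-s) ≤ ph s := by
  have h := nonneg_of_deriv_nonpos (f := fun x => ph x / x - Ph (-x))
    (f' := fun x => (-x * ph x * x - ph x * 1) / x ^ 2 - -ph x) (s := s)
    (fun x hx => ((hasDerivAt_ph x).div (hasDerivAt_id x)
      (by simp only [id]; linarith)).sub (hasDerivAt_Ph_neg x))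
    (fun x hx => by
      have h1 : 0 < x := by linarith
      have h2 := ph_pos x
      have : (-x * ph x * x - ph x * 1) / x ^ 2 - -ph x = -(ph x / x ^ 2) := by
        field_simp
        ring
      rw [this, neg_nonpos]
      positivity)
    (by simpa using (tendsto_ph_atTop.div_atTop tendsto_id).sub tendsto_Ph_neg)
  simp only [sub_nonneg] at h
  rwa [le_div_iff₀ hs, mul_comm] at h

theorem Ph_neg_le_exp {s : ℝ} (hs : 0 ≤ s) : Ph (-s) ≤ exp (-(s ^ 2 / 2)) := by
  rcases le_total s 1 with h | h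
  · have h1 : Ph (-s) ≤ 1 / 2 := Ph_zero ▸ Ph_mono (by linarith)
    have h2 : 1 - s ^ 2 / 2 ≤ exp (-(s ^ 2 / 2)) := by
      linarith [add_one_le_exp (-(s ^ 2 / 2))]
    nlinarith
  · have h1 := mul_Ph_neg_le (by linarith : 0 < s)
    have h2 := ph_le_exp s
    have h3 := Ph_pos (-s)
    have h4 := exp_pos (-(s ^ 2 / 2))
    nlinarith

theorem Ph_neg_le_inv_sq {s : ℝ} (hs : 0 < s) : Ph (-s) ≤ 2 / s ^ 2 := by
  refine (Ph_neg_le_exp hs.le).trans ?_
  rw [exp_neg, le_div_iff₀ (by positivity), inv_mul_le_iff₀ (exp_pos _)]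
  linarith [add_one_le_exp (s ^ 2 / 2)]

/-- the isoperimetric profile is at most `V √(4 log (1 / V) + 2)` -/
theorem ph_sq_le (u : ℝ) : ph u ^ 2 ≤ Ph u ^ 2 * (4 * -log (Ph u) + 2) := by
  have hP := Ph_pos u
  have hl : 0 ≤ -log (Ph u) := neg_nonneg.2 (log_nonpos hP.le (Ph_lt_one u).le)
  rcases le_total 0 u with h | h
  · have h1 : 1 / 2 ≤ Ph u := Ph_zero ▸ Ph_mono h
    have h2 := ph_le u
    have h3 := ph_pos u
    have : ph u ^ 2 ≤ Ph u ^ 2 := by gcongr; linarith
    nlinarith [sq_nonneg (Ph u)]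
  · have h1 := ph_le_mul_Ph (s := -u) (by linarith)
    have h2 := Ph_neg_le_exp (s := -u) (by linarith)
    rw [neg_neg] at h1 h2
    rw [ph_neg] at h1
    have h3 : log (Ph u) ≤ -((-u) ^ 2 / 2) := by rwa [log_le_iff_le_exp hP]
    have h4 : ph u ^ 2 ≤ ((-u + 1) * Ph u) ^ 2 := by
      have := ph_pos u
      gcongr
    have h5 : (-u + 1) ^ 2 ≤ 4 * -log (Ph u) + 2 := by nlinarith [sq_nonneg (u + 1)]
    calc ph u ^ 2 ≤ Ph u ^ 2 * (-u + 1) ^ 2 := by rw [← mul_pow, mul_comm]; exact h4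
      _ ≤ _ := by gcongr

theorem abs_mul_ph_le (x : ℝ) : |x| * ph x ≤ 1 / 2 := by
  have h1 := ph_le_exp x
  have h2 : |x| ≤ exp (x ^ 2 / 2) := by
    nlinarith [add_one_le_exp (x ^ 2 / 2), sq_abs x, sq_nonneg (|x| - 1)]
  have h3 : exp (x ^ 2 / 2) * exp (-(x ^ 2 / 2)) = 1 := by rw [← exp_add]; simp
  calc |x| * ph x ≤ exp (x ^ 2 / 2) * (exp (-(x ^ 2 / 2)) / 2) :=
        mul_le_mul h2 h1 (ph_pos x).le (exp_pos _).le
    _ = 1 / 2 := by rw [← mul_div_assoc, h3]

theorem abs_sq_sub_mul_ph_le (x : ℝ) : |(x ^ 2 - 1) * ph x| ≤ 1 := by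
  have h1 := ph_le_exp x
  have h0 := ph_pos x
  have h2 : |x ^ 2 - 1| ≤ 2 * exp (x ^ 2 / 2) := by
    have := add_one_le_exp (x ^ 2 / 2)
    rw [abs_le]
    constructor <;> nlinarith [sq_nonneg x]
  have h3 : exp (x ^ 2 / 2) * exp (-(x ^ 2 / 2)) = 1 := by rw [← exp_add]; simp
  rw [abs_mul, abs_of_pos h0]
  calc |x ^ 2 - 1| * ph x ≤ 2 * exp (x ^ 2 / 2) * (exp (-(x ^ 2 / 2)) / 2) :=
        mul_le_mul h2 h1 h0.le (by positivity)
    _ = 1 := by linarith

/-- mean value inequality with a power bound -/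
theorem abs_le_of_deriv {f f' : ℝ → ℝ} (hd : ∀ x, HasDerivAt f (f' x) x) (h0 : f 0 = 0) {C : ℝ}
    {m : ℕ} (h : ∀ x, |f' x| ≤ C * |x| ^ m) (x : ℝ) : |f x| ≤ C * |x| ^ (m + 1) := by
  have hC : 0 ≤ C := by simpa using (abs_nonneg _).trans (h 1)
  have h1 := Convex.norm_image_sub_le_of_norm_hasDerivWithin_le (f := f) (f' := f')
    (s := Metric.closedBall (0 : ℝ) |x|) (C := C * |x| ^ m) (x := 0) (y := x)
    (fun y _ => (hd y).hasDerivWithinAt)
    (fun y hy => (h y).trans (by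
      have : |y| ≤ |x| := by simpa using hy
      gcongr)) (convex_closedBall _ _) (by simp) (by simp)
  rw [h0, sub_zero, sub_zero, Real.norm_eq_abs, Real.norm_eq_abs] at h1
  rw [pow_succ, ← mul_assoc]
  exact h1

theorem abs_ph_sub_le (m x : ℝ) : |ph (m + x) - ph m| ≤ 1 / 2 * |x| := by
  have := abs_le_of_deriv (f := fun x => ph (m + x) - ph m)
    (f' := fun x => -(m + x) * ph (m + x)) (C := 1 / 2) (m := 0)
    (fun x => ((hasDerivAt_ph (m + x)).comp_const_add m x).sub_const _) (by simp)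
    (fun x => by
      rw [pow_zero, mul_one, abs_mul, abs_neg, abs_of_pos (ph_pos _)]
      exact abs_mul_ph_le _) x
  simpa using this

theorem Ph_taylor_one (m x : ℝ) : |Ph (m + x) - Ph m - ph m * x| ≤ 1 / 2 * x ^ 2 := by
  have := abs_le_of_deriv (f := fun x => Ph (m + x) - Ph m - ph m * x)
    (f' := fun x => ph (m + x) - ph m) (C := 1 / 2) (m := 1)
    (fun x => ((((hasDerivAt_Ph (m + x)).comp_const_add m x).sub_const _).sub
        ((hasDerivAt_id x).const_mul (ph m))).congr_deriv (by ring)) (by simp)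
    (fun x => by rw [pow_one]; exact abs_ph_sub_le m x) x
  simpa using this

theorem Ph_taylor_two (m x : ℝ) :
    |Ph (m + x) - Ph m - ph m * x + m * ph m * x ^ 2 / 2| ≤ |x| ^ 3 := by
  have h1 : ∀ x, |-(m + x) * ph (m + x) + m * ph m| ≤ 1 * |x| ^ 1 := by
    refine abs_le_of_deriv (f' := fun x => ((m + x) ^ 2 - 1) * ph (m + x)) (m := 0)
      (fun x => ?_) (by simp) fun x => by simpa using abs_sq_sub_mul_ph_le (m + x)
    have := ((((hasDerivAt_id x).const_add m).neg).mul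
      ((hasDerivAt_ph (m + x)).comp_const_add m x)).add_const (m * ph m)
    refine this.congr_deriv ?_
    simp only [id, Pi.neg_apply]
    ring
  have h2 : ∀ x, |ph (m + x) - ph m + m * ph m * x| ≤ 1 * |x| ^ 2 := by
    refine abs_le_of_deriv (m := 1) (fun x => ?_) (by simp) h1
    exact ((((hasDerivAt_ph (m + x)).comp_const_add m x).sub_const _).add
      ((hasDerivAt_id x).const_mul (m * ph m))).congr_deriv (by ring)
  have h3 := abs_le_of_deriv (f := fun x => Ph (m + x) - Ph m - ph m * x + m * ph m * x ^ 2 / 2)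
    (m := 2) (fun x => ?_) (by simp) h2 x
  · simpa using h3
  · have := ((((hasDerivAt_Ph (m + x)).comp_const_add m x).sub_const (Ph m)).sub
      ((hasDerivAt_id x).const_mul (ph m))).add
      (((hasDerivAt_pow 2 x).const_mul (m * ph m)).div_const 2)
    refine this.congr_deriv ?_
    simp
    ring

end Pool.Agent.BL
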