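import Pool.Agent.P.MP_edb112_gt.Config
import Pool.Agent.P.MP_edb112_gt.Gauss
import Pool.Agent.P.MP_edb112_gt.BLDensA

/-! The law of the height, slicing, Gaussian approximation of caps. -/

set_option autoImplicit false
set_option linter.unusedSectionVars false

open MeasureTheory Set Module Filter
open scoped RealInnerProductSpace symmDiff Topology

noncomputable section

namespace Pool.Agent.BL

/-- unnormalised density of the height on the unit sphere of an `n`-dimensional space -/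
def wt (n : ℕ) (s : ℝ) : ℝ := (max (1 - s ^ 2) 0) ^ (((n : ℝ) - 3) / 2)

/-- normalising constant -/
def wc (n : ℕ) : ℝ := ∫ s, wt n s

theorem wt_nonneg (n : ℕ) (s : ℝ) : 0 ≤ wt n s := Real.rpow_nonneg (le_max_right _ _) _

theorem continuous_wt {n : ℕ} (hn : 4 ≤ n) : Continuous (wt n) := by
  have : (4 : ℝ) ≤ n := by exact_mod_cast hn
  exact Continuous.rpow_const (by fun_prop) fun _ => Or.inr (by linarith)

theorem wt_eq_zero {n : ℕ} (hn : 4 ≤ n) {s : ℝ} (hs : s ∉ Ioo (-1 : ℝ) 1) : wt n s = 0 := by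
  have : (4 : ℝ) ≤ n := by exact_mod_cast hn
  have h : 1 - s ^ 2 ≤ 0 := by
    rw [sub_nonpos, one_le_sq_iff_one_le_abs, ← not_lt, abs_lt]
    exact hs
  rw [wt, max_eq_right h, Real.zero_rpow (by linarith)]

theorem wt_eq {n : ℕ} (hn : 4 ≤ n) {s : ℝ} (hs : s ∈ Ioo (-1 : ℝ) 1) :
    wt n s = √(1 - s ^ 2) ^ (n - 3) := by
  have h : 0 ≤ 1 - s ^ 2 := by nlinarith [hs.1, hs.2]
  rw [wt, max_eq_left h, Real.sqrt_eq_rpow, ← Real.rpow_natCast _ (n - 3), ← Real.rpow_mul h,
    Nat.cast_sub (by omega)]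
  congr 1
  push_cast
  ring

theorem hasCompactSupport_wt {n : ℕ} (hn : 4 ≤ n) : HasCompactSupport (wt n) :=
  HasCompactSupport.intro (isCompact_Icc (a := -1) (b := 1)) fun _ hs =>
    wt_eq_zero hn fun h => hs (Ioo_subset_Icc_self h)

theorem integrable_wt {n : ℕ} (hn : 4 ≤ n) : Integrable (wt n) :=
  (continuous_wt hn).integrable_of_hasCompactSupport (hasCompactSupport_wt hn)

theorem wc_pos {n : ℕ} (hn : 4 ≤ n) : 0 < wc n :=
  (continuous_wt hn).integral_pos_of_hasCompactSupport_nonneg_nonzero (hasCompactSupport_wt hn)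
    (wt_nonneg n) (x := 0) (by simp [wt])

namespace Den

theorem wt_le {n : ℕ} (hn : 6 ≤ n) (u : ℝ) : wt n (u / √n) ≤ Real.exp (-(u ^ 2 / 4)) := by
  have h0 : (6 : ℝ) ≤ n := by exact_mod_cast hn
  have h1 : max (1 - (u / √n) ^ 2) 0 ≤ Real.exp (-(u ^ 2 / n)) := by
    rw [div_pow, Real.sq_sqrt (by linarith)]
    exact max_le (by linarith [Real.add_one_le_exp (-(u ^ 2 / n))]) (Real.exp_pos _).le
  refine (Real.rpow_le_rpow (le_max_right _ _) h1 (by linarith)).trans ?_
  rw [← Real.exp_mul, Real.exp_le_exp, neg_mul, neg_le_neg_iff, div_mul_div_comm,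
    div_le_div_iff₀ (by norm_num) (by linarith)]
  nlinarith [sq_nonneg u]

theorem tendsto_wt (u : ℝ) :
    Tendsto (fun n : ℕ => wt n (u / √n)) atTop (𝓝 (Real.exp (-(u ^ 2 / 2)))) := by
  have h1 := (Real.tendsto_one_add_div_rpow_exp (-u ^ 2)).comp tendsto_natCast_atTop_atTop
  have h2 : Tendsto (fun n : ℕ => (1 / 2 : ℝ) - (3 / 2) / n) atTop (𝓝 (1 / 2 - 0)) :=
    tendsto_const_nhds.sub (tendsto_const_div_atTop_nhds_zero_nat _)
  have h3 := h1.rpow h2 (Or.inl (Real.exp_pos _).ne')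
  rw [← Real.exp_mul, show -u ^ 2 * (1 / 2 - 0) = -(u ^ 2 / 2) by ring] at h3
  refine h3.congr' ?_
  filter_upwards [tendsto_natCast_atTop_atTop.eventually_gt_atTop (u ^ 2)] with n hn
  have h4 : (0 : ℝ) < n := (sq_nonneg u).trans_lt hn
  have h5 : 0 ≤ 1 - u ^ 2 / n := by rw [sub_nonneg, div_le_one h4]; exact hn.le
  simp only [Function.comp, wt]
  rw [div_pow, Real.sq_sqrt h4.le, max_eq_left h5, neg_div, ← sub_eq_add_neg, ← Real.rpow_mul h5]
  congr 1
  field_simp

theorem integrable_bd : Integrable fun u : ℝ => (1 + |u|) * Real.exp (-(u ^ 2 / 4)) := by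
  have h1 := (integrable_exp_neg_mul_sq (b := 1 / 4) (by norm_num)).add
    (integrable_mul_exp_neg_mul_sq (b := 1 / 4) (by norm_num)).norm
  refine h1.congr (Eventually.of_forall fun u => ?_)
  simp only [Pi.add_apply, norm_mul, Real.norm_eq_abs, Real.abs_exp]
  rw [show -(1 / 4) * u ^ 2 = -(u ^ 2 / 4) by ring]
  ring

theorem le_bd (u : ℝ) : Real.exp (-(u ^ 2 / 4)) ≤ (1 + |u|) * Real.exp (-(u ^ 2 / 4)) :=
  le_mul_of_one_le_left (Real.exp_pos _).le (by simp)

theorem tendsto_wc : Tendsto (fun n : ℕ => √n * wc n) atTop (𝓝 √(2 * Real.pi)) := by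
  have h1 := tendsto_integral_filter_of_dominated_convergence (μ := volume) (l := atTop)
    (F := fun (n : ℕ) (u : ℝ) => wt n (u / √n)) (f := fun u => Real.exp (-(u ^ 2 / 2))) _
    ((eventually_ge_atTop 4).mono fun n hn =>
      ((continuous_wt hn).comp (by fun_prop)).aestronglyMeasurable)
    ((eventually_ge_atTop 6).mono fun n hn => Eventually.of_forall fun u => by
      rw [Real.norm_of_nonneg (wt_nonneg _ _)]
      exact (wt_le hn u).trans (le_bd u)) integrable_bd (Eventually.of_forall tendsto_wt)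
  have h2 := integral_gaussian (1 / 2)
  simp only [show ∀ x : ℝ, -(1 / 2) * x ^ 2 = -(x ^ 2 / 2) from fun x => by ring] at h2
  rw [h2, show Real.pi / (1 / 2) = 2 * Real.pi by ring] at h1
  refine h1.congr fun n => ?_
  rw [Measure.integral_comp_div, abs_of_nonneg (Real.sqrt_nonneg _), smul_eq_mul, wc]

end Den

theorem eventually_wc : ∀ᶠ n : ℕ in atTop, 2 ≤ √n * wc n ∧ √n * wc n ≤ 3 := by
  have h1 : 2 < √(2 * Real.pi) := (Real.lt_sqrt (by norm_num)).2 (by linarith [Real.pi_gt_three])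
  have h2 : √(2 * Real.pi) < 3 := (Real.sqrt_lt' (by norm_num)).2 (by linarith [Real.pi_lt_four])
  filter_upwards [Den.tendsto_wc.eventually (lt_mem_nhds h1),
    Den.tendsto_wc.eventually (gt_mem_nhds h2)] with n h3 h4
  exact ⟨h3.le, h4.le⟩

namespace Den

/-- density of the rescaled height -/
def pd (n : ℕ) (u : ℝ) : ℝ := wt n (u / √n) / (√n * wc n)

/-- weighted distance to the Gaussian density -/
def err (n : ℕ) : ℝ := ∫ u, (1 + |u|) * |pd n u - ph u|

theorem continuous_pd {n : ℕ} (hn : 4 ≤ n) : Continuous (pd n) :=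
  ((continuous_wt hn).comp (by fun_prop)).div_const _

theorem ph_le_bd (u : ℝ) : |ph u| ≤ Real.exp (-(u ^ 2 / 4)) / 2 := by
  rw [abs_of_pos (ph_pos u)]
  refine (ph_le_exp u).trans ?_
  gcongr
  norm_num

theorem pd_le_bd {n : ℕ} (hn : 6 ≤ n) (h : 2 ≤ √n * wc n) (u : ℝ) :
    |pd n u| ≤ Real.exp (-(u ^ 2 / 4)) / 2 := by
  rw [pd, abs_of_nonneg (div_nonneg (wt_nonneg _ _) (by linarith))]
  exact div_le_div₀ (Real.exp_pos _).le (wt_le hn u) two_pos h

theorem err_le_bd {n : ℕ} (hn : 6 ≤ n) (h : 2 ≤ √n * wc n) (u : ℝ) :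
    ‖(1 + |u|) * |pd n u - ph u|‖ ≤ (1 + |u|) * Real.exp (-(u ^ 2 / 4)) := by
  rw [Real.norm_of_nonneg (by positivity)]
  gcongr
  linarith [abs_sub (pd n u) (ph u), pd_le_bd hn h u, ph_le_bd u]

theorem tendsto_err : Tendsto err atTop (𝓝 0) := by
  have h1 := tendsto_integral_filter_of_dominated_convergence (μ := volume) (l := atTop)
    (F := fun (n : ℕ) (u : ℝ) => (1 + |u|) * |pd n u - ph u|) (f := fun _ => 0) _
    ((eventually_ge_atTop 4).mono fun n hn => by
      have := continuous_pd hn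
      exact Continuous.aestronglyMeasurable (by fun_prop))
    (((eventually_ge_atTop 6).and eventually_wc).mono fun n hn =>
      Eventually.of_forall (err_le_bd hn.1 hn.2.1)) integrable_bd
    (Eventually.of_forall fun u => by
      have h2 := ((((tendsto_wt u).div tendsto_wc (by positivity)).sub_const (ph u)).abs).const_mul
        (1 + |u|)
      rwa [show Real.exp (-(u ^ 2 / 2)) / √(2 * Real.pi) = ph u from div_eq_inv_mul _ _, sub_self,
        abs_zero, mul_zero] at h2)
  rwa [integral_zero] at h1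

theorem integrable_mul {w f : ℝ → ℝ} (hw : Continuous w) (hf : Measurable f)
    (h1 : ∀ u, |w u| ≤ Real.exp (-(u ^ 2 / 4)) / 2) (h2 : ∀ u, |f u| ≤ 1 + |u|) :
    Integrable fun u => w u * f u := by
  refine integrable_bd.mono' (hw.measurable.mul hf).aestronglyMeasurable
    (Eventually.of_forall fun u => ?_)
  rw [Real.norm_eq_abs, abs_mul, mul_comm]
  exact mul_le_mul (h2 u) ((h1 u).trans (half_le_self (Real.exp_pos _).le)) (abs_nonneg _)
    (by positivity)

theorem abs_sub_le_err {n : ℕ} (hn : 6 ≤ n) (h : 2 ≤ √n * wc n) {f : ℝ → ℝ} (hf : Measurable f)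
    (h2 : ∀ u, |f u| ≤ 1 + |u|) : |(∫ u, pd n u * f u) - ∫ u, ph u * f u| ≤ err n := by
  have hc := continuous_pd (n := n) (by omega)
  rw [← integral_sub (integrable_mul hc hf (pd_le_bd hn h) h2)
    (integrable_mul continuous_ph hf ph_le_bd h2), ← Real.norm_eq_abs]
  refine norm_integral_le_of_norm_le (integrable_bd.mono'
    (Continuous.aestronglyMeasurable (by fun_prop)) (Eventually.of_forall (err_le_bd hn h)))
    (Eventually.of_forall fun u => ?_)
  rw [← sub_mul, Real.norm_eq_abs, abs_mul, mul_comm]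
  gcongr
  exact h2 u

theorem integral_Ioi_mul_ph (s : ℝ) : ∫ u in Ioi s, ph u * u = ph s := by
  have := integral_Ioi_of_hasDerivAt_of_tendsto' (f := fun u => -ph u) (f' := fun u => ph u * u)
    (a := s) (m := -0) (fun u _ => (hasDerivAt_ph u).neg.congr_deriv (by ring))
    (integrable_mul continuous_ph measurable_id ph_le_bd fun u => by simp).integrableOn
    tendsto_ph_atTop.neg
  simpa using this

theorem integral_Ioi_ph (s : ℝ) : ∫ u in Ioi s, ph u = Ph (-s) := by
  have := integral_Ioi_of_hasDerivAt_of_tendsto' (f := fun u => -Ph (-u)) (f' := ph)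
    (a := s) (m := -0) (fun u _ => (hasDerivAt_Ph_neg u).neg.congr_deriv (by ring))
    integrable_ph.integrableOn tendsto_Ph_neg.neg
  simpa using this

theorem integral_ph_mul_indicator {S : Set ℝ} (hS : MeasurableSet S) (f : ℝ → ℝ) :
    ∫ u, ph u * S.indicator f u = ∫ u in S, ph u * f u := by
  rw [← integral_indicator hS]
  congr 1
  funext u
  exact (indicator_mul_right S ph f).symm

theorem integral_ph_max (s : ℝ) : ∫ u, ph u * max (u - s) 0 = ph s - s * Ph (-s) := by
  have h1 : ∀ u, max (u - s) 0 = (Ioi s).indicator (fun u => u - s) u := by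
    intro u
    by_cases h : s < u
    · rw [indicator_of_mem (by exact h), max_eq_left (by linarith)]
    · rw [indicator_of_notMem (by exact h), max_eq_right (by linarith)]
  simp only [h1]
  rw [integral_ph_mul_indicator measurableSet_Ioi]
  simp only [mul_sub]
  rw [integral_sub (integrable_mul continuous_ph (f := fun u => u) measurable_id ph_le_bd
    fun u => by simp).integrableOn (integrable_ph.mul_const s).integrableOn, integral_Ioi_mul_ph,
    integral_mul_const, integral_Ioi_ph, mul_comm]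

end Den

section

variable {E : Type} [NormedAddCommGroup E] [InnerProductSpace ℝ E] [CompleteSpace E]
  [FiniteDimensional ℝ E] [MeasurableSpace E] [BorelSpace E]

theorem integral_inner_sq [Nontrivial E] (e : E) :
    ∫ x, ⟪e, x⟫ ^ 2 ∂(sph E) = ‖e‖ ^ 2 / finrank ℝ E := by
  let b := stdOrthonormalBasis ℝ E
  have hi : ∀ v : E, Integrable (fun x => ⟪v, x⟫ ^ 2) (sph E) := fun v =>
    integrable_of_continuousOn (by fun_prop)
  have h1 : ∀ i, ∫ x, ⟪e, x⟫ ^ 2 ∂(sph E) = ∫ x, ‖e‖ ^ 2 * ⟪b i, x⟫ ^ 2 ∂(sph E) := by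
    intro i
    obtain ⟨g, -, h, -⟩ := exists_ap_eq (x := e) (y := ‖e‖ • b i) (by simp [norm_smul])
    rw [← integral_comp_ap g (hi e).1]
    congr 1
    funext x
    conv_lhs => rw [← h, inner_ap, inner_smul_left]
    simp [mul_pow]
  have h2 : ∑ i, ∫ x, ‖e‖ ^ 2 * ⟪b i, x⟫ ^ 2 ∂(sph E) = ‖e‖ ^ 2 := by
    rw [← integral_finsetSum _ fun i _ => (hi (b i)).const_mul _]
    have : ∀ᵐ x ∂(sph E), ∑ i, ‖e‖ ^ 2 * ⟪b i, x⟫ ^ 2 = ‖e‖ ^ 2 := by
      filter_upwards [ae_norm] with x hx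
      rw [← Finset.mul_sum, b.sum_sq_inner_right, hx]
      simp
    rw [integral_congr_ae this]
    simp
  simp only [← h1, Finset.sum_const, Finset.card_univ, Fintype.card_fin, nsmul_eq_mul] at h2
  have h3 : (0 : ℝ) < finrank ℝ E := by exact_mod_cast finrank_pos
  rw [eq_div_iff h3.ne', mul_comm, h2]

theorem map_inner_sph (hn : 4 ≤ finrank ℝ E) {e : E} (he : ‖e‖ = 1) :
    (sph E).map (fun x => ⟪e, x⟫) =
      volume.withDensity fun s => ENNReal.ofReal (wt (finrank ℝ E) s / wc (finrank ℝ E)) := by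
  obtain ⟨C, hC⟩ := Den.exists_law hn he
  have hc := continuous_wt hn
  have h1 : ∀ B, MeasurableSet B → sph E ((fun x => ⟪e, x⟫) ⁻¹' B) =
      C * ∫⁻ s in B, ENNReal.ofReal (wt (finrank ℝ E) s) := by
    intro B hB
    rw [hC B hB, ← lintegral_indicator (hB.inter measurableSet_Ioo), ← lintegral_indicator hB]
    congr 1
    refine lintegral_congr fun s => ?_
    by_cases h1 : s ∈ B
    · by_cases h2 : s ∈ Ioo (-1 : ℝ) 1
      · rw [indicator_of_mem h1, indicator_of_mem (mem_inter h1 h2), wt_eq hn h2]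
      · rw [indicator_of_mem h1, indicator_of_notMem fun h => h2 h.2, wt_eq_zero hn h2,
          ENNReal.ofReal_zero]
    · rw [indicator_of_notMem h1, indicator_of_notMem fun h => h1 h.1]
  have h2 := h1 _ MeasurableSet.univ
  rw [preimage_univ, measure_univ, Measure.restrict_univ, ← ofReal_integral_eq_lintegral_ofReal
    (integrable_wt hn) (Eventually.of_forall (wt_nonneg _))] at h2
  ext B hB
  rw [Measure.map_apply (by fun_prop) hB, withDensity_apply _ hB, h1 B hB,
    ENNReal.eq_inv_of_mul_eq_one_left h2.symm, ← lintegral_const_mul _ (by fun_prop)]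
  refine lintegral_congr fun s => ?_
  rw [ENNReal.ofReal_div_of_pos (wc_pos hn), ENNReal.div_eq_inv_mul, wc]

theorem integral_comp_inner (hn : 4 ≤ finrank ℝ E) {e : E} (he : ‖e‖ = 1) {f : ℝ → ℝ}
    (hf : Measurable f) : ∫ x, f ⟪e, x⟫ ∂(sph E) =
      ∫ s, wt (finrank ℝ E) s / wc (finrank ℝ E) * f s := by
  have hc := continuous_wt hn
  rw [← integral_map (φ := fun x => ⟪e, x⟫) (by fun_prop) hf.aestronglyMeasurable,
    map_inner_sph hn he, integral_withDensity_eq_integral_toReal_smul (by fun_prop)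
      (Eventually.of_forall fun _ => ENNReal.ofReal_lt_top)]
  congr 1
  funext s
  rw [ENNReal.toReal_ofReal (div_nonneg (wt_nonneg _ _) (wc_pos hn).le), smul_eq_mul]

theorem measurable_slice (e : E) {A : Set E} (hA : MeasurableSet A) :
    Measurable fun s => (sph (ℝ ∙ e)ᗮ).real (slice e s A) :=
  (Den.measurable_slice' e hA).ennreal_toReal

theorem real_eq_integral_slice (hn : 4 ≤ finrank ℝ E) {e : E} (he : ‖e‖ = 1) {A : Set E}
    (hA : MeasurableSet A) : (sph E).real A =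
      ∫ s, wt (finrank ℝ E) s / wc (finrank ℝ E) * (sph (ℝ ∙ e)ᗮ).real (slice e s A) := by
  have : Nontrivial (ℝ ∙ e)ᗮ := Module.nontrivial_of_finrank_pos (R := ℝ) (by
    have := Submodule.finrank_add_finrank_orthogonal (ℝ ∙ e)
    rw [finrank_span_singleton (norm_ne_zero_iff.1 (by simp [he]))] at this
    omega)
  rw [← integral_comp_inner hn he (measurable_slice e hA), Measure.real,
    Den.sph_eq_lintegral (by omega) he hA]
  exact (integral_toReal
    ((Den.measurable_slice' e hA).comp (by fun_prop : Measurable fun x => ⟪e, x⟫)).aemeasurable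
    (Eventually.of_forall fun _ => measure_lt_top _ _)).symm

theorem cap_strictAnti (hn : 4 ≤ finrank ℝ E) {e : E} (he : ‖e‖ = 1) {a b : ℝ} (ha : -1 ≤ a)
    (hab : a < b) (hb : b ≤ 1) : sph E (cap e b) < sph E (cap e a) := by
  have hc := continuous_wt hn
  have h1 : ∀ c, sph E (cap e c) = (sph E).map (fun x => ⟪e, x⟫) (Ici c) := fun c =>
    (Measure.map_apply (f := fun x => ⟪e, x⟫) (by fun_prop) measurableSet_Ici).symm
  have h2 : (sph E).map (fun x => ⟪e, x⟫) (Ioo a b) ≠ 0 := by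
    rw [map_inner_sph hn he, withDensity_apply _ measurableSet_Ioo, ← pos_iff_ne_zero,
      setLIntegral_pos_iff (by fun_prop), inter_eq_right.2]
    · simpa using hab
    · intro s hs
      have h3 : s ∈ Ioo (-1 : ℝ) 1 := ⟨ha.trans_lt hs.1, hs.2.trans_le hb⟩
      have h4 : 0 < 1 - s ^ 2 := by nlinarith [h3.1, h3.2]
      refine (ENNReal.ofReal_pos.2 (div_pos ?_ (wc_pos hn))).ne'
      rw [wt_eq hn h3]
      positivity
  rw [h1, h1]
  refine (ENNReal.lt_add_right (measure_ne_top _ _) h2).trans_le ?_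
  rw [← measure_union (s₁ := Ici b) (disjoint_left.2 fun s h h' => h'.2.not_ge h)
    measurableSet_Ioo]
  exact measure_mono (union_subset (Ici_subset_Ici.2 hab.le) fun s hs => hs.1.le)

/-- Gaussian approximation of the rescaled height -/
theorem Den.approx (hn : 6 ≤ finrank ℝ E) (h : 2 ≤ √(finrank ℝ E) * wc (finrank ℝ E)) {e : E}
    (he : ‖e‖ = 1) {f : ℝ → ℝ} (hf : Measurable f) (h2 : ∀ u, |f u| ≤ 1 + |u|) :
    |(∫ x, f (√(finrank ℝ E) * ⟪e, x⟫) ∂(sph E)) - ∫ u, ph u * f u| ≤ Den.err (finrank ℝ E) := by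
  have h3 : 0 < √(finrank ℝ E) := Real.sqrt_pos.2 (by exact_mod_cast (by omega : 0 < finrank ℝ E))
  have h4 := Measure.integral_comp_div
    (fun s => wt (finrank ℝ E) s / wc (finrank ℝ E) * f (√(finrank ℝ E) * s)) √(finrank ℝ E)
  rw [abs_of_pos h3, smul_eq_mul, ← inv_mul_eq_iff_eq_mul₀ h3.ne', ← integral_const_mul] at h4
  rw [integral_comp_inner (by omega) he (f := fun s => f (√(finrank ℝ E) * s)) (by fun_prop), ← h4]
  refine le_of_eq_of_le ?_ (Den.abs_sub_le_err hn h hf h2)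
  congr 3
  funext u
  rw [mul_div_cancel₀ _ h3.ne', Den.pd]
  field_simp

theorem Den.real_eq (e : E) {S : Set ℝ} (hS : MeasurableSet S) :
    ∫ x, S.indicator (fun _ => (1 : ℝ)) (√(finrank ℝ E) * ⟪e, x⟫) ∂(sph E) =
      (sph E).real {x | √(finrank ℝ E) * ⟪e, x⟫ ∈ S} :=
  integral_indicator_one ((by fun_prop : Measurable fun x => √(finrank ℝ E) * ⟪e, x⟫) hS)

theorem Den.mem_cap (hn : 6 ≤ finrank ℝ E) {e x : E} {s : ℝ} :
    x ∈ cap e (s / √(finrank ℝ E)) ↔ s ≤ √(finrank ℝ E) * ⟪e, x⟫ :=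
  div_le_iff₀' (Real.sqrt_pos.2 (by exact_mod_cast (by omega : 0 < finrank ℝ E)))

theorem Den.abs_indicator_le (S : Set ℝ) (u : ℝ) :
    |S.indicator (fun _ => (1 : ℝ)) u| ≤ 1 + |u| := by
  by_cases h : u ∈ S <;> simp [h]
  positivity

/-- the barycentre of a cap lies on its axis -/
theorem Den.integral_cap [Nontrivial E] {e : E} (he : ‖e‖ = 1) (e' : E) (h : ℝ) :
    ∫ x in cap e h, ⟪e', x⟫ ∂(sph E) = ⟪e, e'⟫ * ∫ x in cap e h, ⟪e, x⟫ ∂(sph E) := by
  have hi : ∀ v : E, Integrable (fun x => ⟪v, x⟫) (sph E) := fun v =>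
    integrable_of_continuousOn (by fun_prop)
  obtain ⟨v, hv⟩ : ∃ v, v = e' - ⟪e, e'⟫ • e := ⟨_, rfl⟩
  obtain ⟨g, -, h1, h2⟩ := exists_ap_eq (x := v) (y := -v) (norm_neg v).symm
  have h3 : ap g e = e := h2 e (by
    rw [sub_neg_eq_add, inner_add_left, hv, inner_sub_left, inner_smul_left, real_inner_comm,
      real_inner_self_eq_norm_sq, he]
    simp)
  have h4 := integral_comp_ap g ((hi v).indicator (measurableSet_cap e h)).1
  have h5 : ∀ x, (cap e h).indicator (fun x => ⟪v, x⟫) (ap g x) =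
      -(cap e h).indicator (fun x => ⟪v, x⟫) x := by
    intro x
    have h6 : ap g x ∈ cap e h ↔ x ∈ cap e h := by
      change h ≤ ⟪e, ap g x⟫ ↔ h ≤ ⟪e, x⟫
      conv_lhs => rw [← h3, inner_ap]
    by_cases hx : x ∈ cap e h
    · rw [indicator_of_mem hx, indicator_of_mem (h6.2 hx)]
      conv_lhs => rw [← h1, inner_ap, inner_neg_left]
    · rw [indicator_of_notMem hx, indicator_of_notMem (mt h6.1 hx), neg_zero]
  simp only [h5] at h4
  rw [integral_neg, integral_indicator (measurableSet_cap e h)] at h4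
  simp only [hv, inner_sub_left, inner_smul_left, conj_trivial] at h4
  rw [integral_sub (hi e').integrableOn ((hi e).const_mul _).integrableOn,
    integral_const_mul] at h4
  linarith

theorem Den.integral_cap_eq {e e' : E} (he : ‖e‖ = 1) (he' : ‖e'‖ = 1) (h : ℝ) :
    ∫ x in cap e' h, ⟪e', x⟫ ∂(sph E) = ∫ x in cap e h, ⟪e, x⟫ ∂(sph E) := by
  obtain ⟨g, h1, -⟩ := exists_ap_eq (he.trans he'.symm)
  rw [← integral_indicator (measurableSet_cap _ _), ← integral_indicator (measurableSet_cap _ _),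
    ← integral_comp_ap g (AEStronglyMeasurable.indicator (by fun_prop) (measurableSet_cap _ _))]
  congr 1
  funext x
  simp only [← h1, cap, indicator, mem_ofPred_eq, inner_ap]
  split_ifs <;> rfl

/-- close caps have close axes -/
theorem Den.norm_sub_sq_le [Nontrivial E] {e e' : E} (he : ‖e‖ = 1) (he' : ‖e'‖ = 1) {h m : ℝ}
    (hm : 0 < m) (h1 : m ≤ √(finrank ℝ E) * ∫ x in cap e h, ⟪e, x⟫ ∂(sph E)) :
    ‖e - e'‖ ^ 2 * m ^ 2 ≤ (sph E).real (cap e h ∆ cap e' h) := by
  have hi : ∀ v : E, Integrable (fun x => ⟪v, x⟫) (sph E) := fun v =>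
    integrable_of_continuousOn (by fun_prop)
  have hi2 : Integrable (fun x => ⟪e - e', x⟫ ^ 2) (sph E) :=
    integrable_of_continuousOn (by fun_prop)
  have hn : (0 : ℝ) < finrank ℝ E := by exact_mod_cast finrank_pos
  have hD := (measurableSet_cap e h).symmDiff (measurableSet_cap e' h)
  have h2 : ∫ x in cap e h, ⟪e - e', x⟫ ∂(sph E) - ∫ x in cap e' h, ⟪e - e', x⟫ ∂(sph E) =
      ‖e - e'‖ ^ 2 * ∫ x in cap e h, ⟪e, x⟫ ∂(sph E) := by
    simp only [inner_sub_left]
    rw [integral_sub (hi e).integrableOn (hi e').integrableOn,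
      integral_sub (hi e).integrableOn (hi e').integrableOn, Den.integral_cap he e',
      Den.integral_cap he' e, Den.integral_cap_eq he he', norm_sub_sq_real, he, he',
      real_inner_comm]
    ring
  rw [← integral_indicator (measurableSet_cap e h), ← integral_indicator (measurableSet_cap e' h),
    ← integral_sub ((hi _).indicator (measurableSet_cap e h))
      ((hi _).indicator (measurableSet_cap e' h))] at h2
  have h3 := integral_mono (((((hi (e - e')).indicator (measurableSet_cap e h)).sub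
    ((hi (e - e')).indicator (measurableSet_cap e' h)))).const_mul (2 * m * √(finrank ℝ E)))
    (((integrable_const (1 : ℝ)).indicator hD).add (hi2.const_mul (m ^ 2 * finrank ℝ E)))
    fun x => by
      have h4 := Real.sq_sqrt hn.le
      have h5 := sq_nonneg (m * √(finrank ℝ E) * ⟪e - e', x⟫ - 1)
      have h6 := sq_nonneg (m * √(finrank ℝ E) * ⟪e - e', x⟫ + 1)
      have h7 := sq_nonneg (m * √(finrank ℝ E) * ⟪e - e', x⟫)
      simp only [mul_pow, add_sq, sub_sq, h4] at h5 h6 h7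
      by_cases c1 : x ∈ cap e h <;> by_cases c2 : x ∈ cap e' h <;>
        simp only [Pi.add_apply, Pi.sub_apply, indicator, mem_symmDiff, c1, c2] <;>
        simp <;> linarith
  simp only [Pi.add_apply, Pi.sub_apply] at h3
  rw [integral_const_mul, h2, integral_add ((integrable_const (1 : ℝ)).indicator hD)
    (hi2.const_mul _), integral_const_mul, integral_inner_sq, integral_indicator hD,
    setIntegral_const, smul_eq_mul, mul_one, mul_assoc (m ^ 2), mul_div_cancel₀ _ hn.ne'] at h3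
  have h4 := mul_le_mul_of_nonneg_left h1 (by positivity : 0 ≤ 2 * m * ‖e - e'‖ ^ 2)
  nlinarith

theorem Den.symmDiff_le (hn : 6 ≤ finrank ℝ E) (e e' : E) (b : ℝ) {a : ℝ} (ha : 0 < a) :
    (sph E).real (cap e (b / √(finrank ℝ E)) ∆ cap e' (b / √(finrank ℝ E))) ≤
      (sph E).real {x | √(finrank ℝ E) * ⟪e, x⟫ ∈ Ioc (b - a) (b + a)} + ‖e - e'‖ ^ 2 / a ^ 2 := by
  have : Nontrivial E := Module.nontrivial_of_finrank_pos (R := ℝ) (by omega)
  have hn' : (0 : ℝ) < finrank ℝ E := by exact_mod_cast finrank_pos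
  have hi2 : Integrable (fun x => ⟪e - e', x⟫ ^ 2) (sph E) :=
    integrable_of_continuousOn (by fun_prop)
  have h1 := mul_meas_ge_le_integral_of_nonneg (Eventually.of_forall fun x => sq_nonneg _) hi2
    (a ^ 2 / finrank ℝ E)
  rw [integral_inner_sq, div_mul_eq_mul_div, div_le_div_iff_of_pos_right hn',
    ← le_div_iff₀' (by positivity)] at h1
  refine le_trans (measureReal_mono ?_) ((measureReal_union_le _ _).trans (add_le_add le_rfl h1))
  intro x hx
  by_contra h
  simp only [mem_union, mem_ofPred_eq, mem_Ioc, not_or, not_le, not_and_or, not_lt] at h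
  obtain ⟨h2, h⟩ := h
  rw [lt_div_iff₀' hn', ← Real.sq_sqrt hn'.le, ← mul_pow, sq_lt_sq, abs_of_pos ha, abs_lt,
    inner_sub_left, mul_sub] at h
  simp only [mem_symmDiff, Den.mem_cap hn, not_le] at hx
  rcases hx with hx | hx <;> rcases h2 with h' | h' <;> linarith [h.1, h.2, hx.1, hx.2]

end

theorem Den.exists_dim {ε : ℝ} (hε : 0 < ε) :
    ∃ k₀ : ℕ, ∀ n, k₀ ≤ n → 6 ≤ n ∧ 2 ≤ √n * wc n ∧ Den.err n ≤ ε :=
  eventually_atTop.1 ((eventually_ge_atTop 6).and ((eventually_wc.mono fun _ h => h.1).and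
    (Den.tendsto_err.eventually (ge_mem_nhds hε))))

theorem cap_approx (ε : ℝ) (hε : 0 < ε) : ∃ k₀ : ℕ, ∀ (E : Type) [NormedAddCommGroup E]
    [InnerProductSpace ℝ E] [CompleteSpace E] [FiniteDimensional ℝ E] [MeasurableSpace E]
    [BorelSpace E], k₀ ≤ finrank ℝ E → ∀ e : E, ‖e‖ = 1 → ∀ s : ℝ,
      |(sph E).real (cap e (s / √(finrank ℝ E))) - Ph (-s)| ≤ ε := by
  obtain ⟨k₀, hk⟩ := Den.exists_dim hε
  refine ⟨k₀, fun E _ _ _ _ _ _ hE e he s => ?_⟩
  obtain ⟨h1, h2, h3⟩ := hk _ hE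
  have h4 := Den.approx h1 h2 he (measurable_const.indicator (measurableSet_Ici (a := s)))
    (Den.abs_indicator_le _)
  rw [Den.real_eq e measurableSet_Ici, Den.integral_ph_mul_indicator measurableSet_Ici,
    integral_Ici_eq_integral_Ioi] at h4
  simp only [mul_one, Den.integral_Ioi_ph] at h4
  rw [show cap e (s / √(finrank ℝ E)) = {x | √(finrank ℝ E) * ⟪e, x⟫ ∈ Ici s} from
    Set.ext fun x => Den.mem_cap h1]
  exact h4.trans h3

theorem cap_moment_abs (ε : ℝ) (hε : 0 < ε) : ∃ k₀ : ℕ, ∀ (E : Type) [NormedAddCommGroup E]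
    [InnerProductSpace ℝ E] [CompleteSpace E] [FiniteDimensional ℝ E] [MeasurableSpace E]
    [BorelSpace E], k₀ ≤ finrank ℝ E → ∀ e : E, ‖e‖ = 1 → ∀ s : ℝ,
      |(∫ x, max (√(finrank ℝ E) * ⟪e, x⟫ - s) 0 ∂(sph E)) - (ph s - s * Ph (-s))| ≤ ε := by
  obtain ⟨k₀, hk⟩ := Den.exists_dim hε
  refine ⟨k₀, fun E _ _ _ _ _ _ hE e he s => ?_⟩
  obtain ⟨h1, h2, h3⟩ := hk _ hE
  have : Nontrivial E := Module.nontrivial_of_finrank_pos (R := ℝ) (by omega)
  have h5 : ∀ u : ℝ, |max (u - s) 0 - max (-s) 0| ≤ 1 + |u| := fun u =>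
    (abs_max_sub_max_le_abs _ _ _).trans (by simp)
  have h4 := Den.approx h1 h2 he (f := fun u => max (u - s) 0 - max (-s) 0) (by fun_prop) h5
  have h6 : ∫ u, ph u * (max (u - s) 0 - max (-s) 0) = ph s - s * Ph (-s) - max (-s) 0 := by
    have h7 := integral_add (Den.integrable_mul continuous_ph (by fun_prop) Den.ph_le_bd h5)
      (integrable_ph.mul_const (max (-s) 0))
    have h8 := gam_real MeasurableSet.univ
    simp only [← mul_add, sub_add_cancel, Den.integral_ph_max, integral_mul_const] at h7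
    rw [probReal_univ, Measure.restrict_univ] at h8
    rw [h7, ← h8]
    ring
  rw [h6, integral_sub (integrable_of_continuousOn (by fun_prop)) (integrable_const _),
    integral_const, probReal_univ, one_smul, sub_sub_sub_cancel_right] at h4
  exact h4.trans h3

theorem cap_moment (ε : ℝ) (hε : 0 < ε) : ∃ k₀ : ℕ, ∀ (E : Type) [NormedAddCommGroup E]
    [InnerProductSpace ℝ E] [CompleteSpace E] [FiniteDimensional ℝ E] [MeasurableSpace E]
    [BorelSpace E], k₀ ≤ finrank ℝ E → ∀ e : E, ‖e‖ = 1 → ∀ s : ℝ,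
      ∫ x, max (√(finrank ℝ E) * ⟪e, x⟫ - s) 0 ∂(sph E) ≤ ph s - s * Ph (-s) + ε := by
  obtain ⟨k₀, hk⟩ := cap_moment_abs ε hε
  exact ⟨k₀, fun E _ _ _ _ _ _ hE e he s => by linarith [(abs_le.1 (hk E hE e he s)).2]⟩

theorem cap_moment_ge (ε : ℝ) (hε : 0 < ε) : ∃ k₀ : ℕ, ∀ (E : Type) [NormedAddCommGroup E]
    [InnerProductSpace ℝ E] [CompleteSpace E] [FiniteDimensional ℝ E] [MeasurableSpace E]
    [BorelSpace E], k₀ ≤ finrank ℝ E → ∀ e : E, ‖e‖ = 1 → ∀ s : ℝ,
      ph s - s * Ph (-s) - ε ≤ ∫ x, max (√(finrank ℝ E) * ⟪e, x⟫ - s) 0 ∂(sph E) := by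
  obtain ⟨k₀, hk⟩ := cap_moment_abs ε hε
  exact ⟨k₀, fun E _ _ _ _ _ _ hE e he s => by linarith [(abs_le.1 (hk E hE e he s)).1]⟩

/-- if two caps of the same moderate height are close then so are the caps of any other moderate
height -/
theorem cap_close (R ε : ℝ) (hε : 0 < ε) : ∃ ε' > 0, ∃ k₀ : ℕ, ∀ (E : Type) [NormedAddCommGroup E]
    [InnerProductSpace ℝ E] [CompleteSpace E] [FiniteDimensional ℝ E] [MeasurableSpace E]
    [BorelSpace E], k₀ ≤ finrank ℝ E → ∀ e e' : E, ‖e‖ = 1 → ‖e'‖ = 1 → ∀ b b' : ℝ, |b| ≤ R →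
      |b'| ≤ R →
      (sph E).real (cap e (b / √(finrank ℝ E)) ∆ cap e' (b / √(finrank ℝ E))) ≤ ε' →
      (sph E).real (cap e (b' / √(finrank ℝ E)) ∆ cap e' (b' / √(finrank ℝ E))) ≤ ε := by
  have hm : 0 < ph R / 2 := half_pos (ph_pos R)
  obtain ⟨k₀, hk⟩ := Den.exists_dim (lt_min hm (by positivity : 0 < ε / 3))
  refine ⟨ε / 3 * (ε / 3) ^ 2 * (ph R / 2) ^ 2, by positivity, k₀,
    fun E _ _ _ _ _ _ hE e e' he he' b b' hb _ h => ?_⟩
  obtain ⟨h1, h2, h3⟩ := hk _ hE
  have : Nontrivial E := Module.nontrivial_of_finrank_pos (R := ℝ) (by omega)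
  have h4 := Den.approx h1 h2 he (f := (Ici b).indicator fun u => u)
    (measurable_id.indicator measurableSet_Ici) fun u => by
      by_cases hu : u ∈ Ici b <;> simp [hu]
      positivity
  rw [Den.integral_ph_mul_indicator measurableSet_Ici, integral_Ici_eq_integral_Ioi,
    Den.integral_Ioi_mul_ph] at h4
  have h5 : ∫ x, (Ici b).indicator (fun u => u) (√(finrank ℝ E) * ⟪e, x⟫) ∂(sph E) =
      √(finrank ℝ E) * ∫ x in cap e (b / √(finrank ℝ E)), ⟪e, x⟫ ∂(sph E) := by
    rw [← integral_const_mul, ← integral_indicator (measurableSet_cap _ _)]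
    congr 1
    funext x
    simp only [indicator, Den.mem_cap h1, mem_Ici]
  have h6 : ph R ≤ ph b := ph_anti (hb.trans (le_abs_self R))
  have h7 := (Den.norm_sub_sq_le he he' hm (by
    rw [← h5]; linarith [(abs_le.1 h4).1, h3.trans (min_le_left _ _)])).trans h
  rw [mul_le_mul_iff_left₀ (by positivity), ← div_le_iff₀ (by positivity)] at h7
  have h8 := Den.approx h1 h2 he (measurable_const.indicator
    (measurableSet_Ioc (a := b' - ε / 3) (b := b' + ε / 3))) (Den.abs_indicator_le _)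
  rw [Den.real_eq e measurableSet_Ioc, Den.integral_ph_mul_indicator measurableSet_Ioc,
    ← intervalIntegral.integral_of_le (by linarith)] at h8
  simp only [mul_one, ← Ph_sub] at h8
  have h9 := Ph_sub_le (a := b' - ε / 3) (b := b' + ε / 3) (by linarith)
  linarith [Den.symmDiff_le h1 e e' b' (by positivity : 0 < ε / 3), (abs_le.1 h8).2,
    h3.trans (min_le_right _ _)]

end Pool.Agent.BL
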