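import Pool.Agent.P.MP_edb112_gt.BLSpec
import Pool.Agent.P.MP_edb112_gt.Density

/-! Barycentres and caps. -/

set_option autoImplicit false
set_option linter.unusedSectionVars false

open MeasureTheory Set Module
open scoped RealInnerProductSpace symmDiff

noncomputable section

namespace Pool.Agent.BL.SA

/-- Gaussian approximation of caps -/
def Apx (E : Type) [NormedAddCommGroup E] [InnerProductSpace ℝ E] [CompleteSpace E]
    [FiniteDimensional ℝ E] [MeasurableSpace E] (ε : ℝ) : Prop :=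
  ∀ e : E, ‖e‖ = 1 → ∀ s : ℝ, |(sph E).real (cap e (s / √(finrank ℝ E))) - Ph (-s)| ≤ ε ∧
    |(∫ x, max (√(finrank ℝ E) * ⟪e, x⟫ - s) 0 ∂(sph E)) - (ph s - s * Ph (-s))| ≤ ε

theorem exists_apx (ε : ℝ) (hε : 0 < ε) : ∃ k₀ : ℕ, ∀ (E : Type) [NormedAddCommGroup E]
    [InnerProductSpace ℝ E] [CompleteSpace E] [FiniteDimensional ℝ E] [MeasurableSpace E]
    [BorelSpace E], k₀ ≤ finrank ℝ E → Apx E ε := by
  obtain ⟨k1, h1⟩ := cap_approx ε hε
  obtain ⟨k2, h2⟩ := cap_moment_abs ε hε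
  exact ⟨max k1 k2, fun E _ _ _ _ _ _ hk e he s =>
    ⟨h1 E (le_of_max_le_left hk) e he s, h2 E (le_of_max_le_right hk) e he s⟩⟩

theorem pt_one {X : Type} {K : Set X} {C : ℝ → Set X} {Y : X → ℝ} {x : X} {a ρ : ℝ}
    (hC : ∀ s, x ∈ C s ↔ s ≤ Y x) (hρ : 0 < ρ) :
    ρ * (K ∆ C a).indicator 1 x ≤ max (Y x - a) 0 - K.indicator (fun x => Y x - a) x +
      (ρ * (C (a - ρ)).indicator 1 x - ρ * (C (a + ρ)).indicator 1 x) := by
  by_cases h1 : x ∈ K <;> by_cases h2 : a ≤ Y x <;> by_cases h3 : a - ρ ≤ Y x <;>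
    by_cases h4 : a + ρ ≤ Y x <;>
    simp [indicator, Set.mem_symmDiff, hC, h1, h2, h3, h4, max_def] <;> (try split_ifs) <;>
    linarith

theorem pt_two {X : Type} {K C : Set X} {Y : X → ℝ} {x : X} {s l : ℝ}
    (hC : x ∈ C ↔ s ≤ Y x) (hl : 0 < l) :
    max (Y x - s) 0 + s * C.indicator 1 x ≤ K.indicator (fun x => Y x - 0) x +
      (1 / (2 * l) * (K ∆ C).indicator 1 x + l / 2 * Y x ^ 2) := by
  have b : ∀ y : ℝ, y ≤ 1 / (2 * l) + l / 2 * y ^ 2 := by
    intro y
    have : 1 / (2 * l) + l / 2 * y ^ 2 - y = (1 - l * y) ^ 2 / (2 * l) := by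
      field_simp
      ring
    rw [← sub_nonneg, this]
    positivity
  have b1 := b (Y x)
  have b2 := b (-Y x)
  have b3 : 0 ≤ l / 2 * Y x ^ 2 := by positivity
  rw [neg_sq] at b2
  generalize 1 / (2 * l) = u at *
  by_cases h1 : x ∈ K <;> by_cases h2 : s ≤ Y x <;>
    simp [indicator, Set.mem_symmDiff, hC, h1, h2, max_def] <;> (try split_ifs) <;> linarith

variable {E : Type} [NormedAddCommGroup E] [InnerProductSpace ℝ E] [CompleteSpace E]
  [FiniteDimensional ℝ E] [MeasurableSpace E] [BorelSpace E] [Nontrivial E]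

theorem mem_cap_iff {e x : E} {s : ℝ} :
    x ∈ cap e (s / √(finrank ℝ E)) ↔ s ≤ √(finrank ℝ E) * ⟪e, x⟫ :=
  div_le_iff₀' (Real.sqrt_pos.2 (by exact_mod_cast finrank_pos))

theorem integral_ind (e : E) (s : ℝ) {K : Set E} (hK : MeasurableSet K) :
    ∫ x, K.indicator (fun x => √(finrank ℝ E) * ⟪e, x⟫ - s) x ∂(sph E) =
      √(finrank ℝ E) * ⟪e, bary K⟫ - s * (sph E).real K := by
  rw [integral_indicator hK, integral_sub (integrable_sph (by fun_prop)).integrableOn
    (integrable_const _), integral_const_mul, inner_bary]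
  simp [mul_comm]

theorem integrable_one {K : Set E} (hK : MeasurableSet K) :
    Integrable (K.indicator (1 : E → ℝ)) (sph E) := (integrable_const 1).indicator hK

/-- a set with a long barycentre is close to a cap -/
theorem bath {ζ a ρ : ℝ} (hA : Apx E ζ) (ha : 0 ≤ a) (hρ : 0 < ρ) {K : Set E}
    (hK : MeasurableSet K) (h1 : (sph E).real K ≤ Ph (-a) + ζ)
    (h2 : ph a - ζ ≤ √(finrank ℝ E) * ‖bary K‖) : ∃ e : E, ‖e‖ = 1 ∧
      (sph E).real (K ∆ cap e (a / √(finrank ℝ E))) ≤ (2 + a) * ζ / ρ + ρ + 2 * ζ := by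
  obtain ⟨e, he, hb⟩ : ∃ e : E, ‖e‖ = 1 ∧ ⟪e, bary K⟫ = ‖bary K‖ := by
    by_cases h : bary K = 0
    · obtain ⟨q, hq⟩ := exists_norm_eq E zero_le_one
      exact ⟨q, hq, by simp [h]⟩
    · refine ⟨‖bary K‖⁻¹ • bary K, by simp [norm_smul, h], ?_⟩
      rw [real_inner_smul_left, real_inner_self_eq_norm_sq]
      field_simp
  refine ⟨e, he, ?_⟩
  set r := √(finrank ℝ E : ℝ) with hr
  have hD : MeasurableSet (K ∆ cap e (a / r)) := hK.symmDiff (measurableSet_cap _ _)
  have i1 : Integrable (fun x => max (r * ⟪e, x⟫ - a) 0) (sph E) := integrable_sph (by fun_prop)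
  have i2 : Integrable (K.indicator fun x => r * ⟪e, x⟫ - a) (sph E) :=
    (integrable_sph (by fun_prop)).indicator hK
  have i3 := (integrable_one (measurableSet_cap e ((a - ρ) / r))).const_mul ρ
  have i4 := (integrable_one (measurableSet_cap e ((a + ρ) / r))).const_mul ρ
  have key : ∫ x, ρ * (K ∆ cap e (a / r)).indicator 1 x ∂(sph E) ≤
      ∫ x, (max (r * ⟪e, x⟫ - a) 0 - K.indicator (fun x => r * ⟪e, x⟫ - a) x) +
        (ρ * (cap e ((a - ρ) / r)).indicator 1 x - ρ * (cap e ((a + ρ) / r)).indicator 1 x)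
        ∂(sph E) := by
    refine integral_mono ((integrable_one hD).const_mul ρ) ((i1.sub i2).add (i3.sub i4))
      fun x => ?_
    exact pt_one (C := fun s => cap e (s / r)) (Y := fun x => r * ⟪e, x⟫) (fun _ => mem_cap_iff) hρ
  rw [integral_add (by exact i1.sub i2) (by exact i3.sub i4), integral_sub i1 i2,
    integral_sub i3 i4, integral_const_mul, integral_const_mul, integral_const_mul,
    integral_indicator_one hD, integral_indicator_one (measurableSet_cap _ _),
    integral_indicator_one (measurableSet_cap _ _), integral_ind e a hK, hb] at key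
  have a1 := (abs_le.1 (hA e he a).2).2
  have a2 := (abs_le.1 (hA e he (a - ρ)).1).2
  have a3 := (abs_le.1 (hA e he (a + ρ)).1).1
  have a4 := Ph_sub_le (a := -(a + ρ)) (b := -(a - ρ)) (by linarith)
  rw [add_assoc, div_add' _ _ _ hρ.ne', le_div_iff₀ hρ]
  nlinarith [mul_le_mul_of_nonneg_left h1 ha]

/-- a set close to a cap has a long barycentre -/
theorem bary_ge {ε s l : ℝ} (hA : Apx E ε) (hs : 0 ≤ s) (hl : 0 < l) {B : Set E}
    (hB : MeasurableSet B) {e : E} (he : ‖e‖ = 1)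
    (h : (sph E).real (B ∆ cap e (s / √(finrank ℝ E))) ≤ l ^ 2) :
    (sph E).real B ≤ Ph (-s) + ε + l ^ 2 ∧
      ph s - (1 + s) * ε - l ≤ √(finrank ℝ E) * ‖bary B‖ := by
  have a1 := abs_le.1 (hA e he s).1
  have a2 := (abs_le.1 (hA e he s).2).1
  have hn : (0 : ℝ) < finrank ℝ E := by exact_mod_cast finrank_pos
  set r := √(finrank ℝ E : ℝ) with hr
  have hD : MeasurableSet (B ∆ cap e (s / r)) := hB.symmDiff (measurableSet_cap _ _)
  constructor
  · have h1 : B ⊆ cap e (s / r) ∪ B ∆ cap e (s / r) := fun x hx => by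
      by_cases h : x ∈ cap e (s / r)
      · exact Or.inl h
      · exact Or.inr (Or.inl ⟨hx, h⟩)
    have := (measureReal_mono (μ := sph E) h1).trans (measureReal_union_le _ _)
    linarith
  have i1 : Integrable (fun x => max (r * ⟪e, x⟫ - s) 0) (sph E) := integrable_sph (by fun_prop)
  have i2 : Integrable (B.indicator fun x => r * ⟪e, x⟫ - 0) (sph E) :=
    (integrable_sph (by fun_prop)).indicator hB
  have i3 := (integrable_one (measurableSet_cap e (s / r))).const_mul s
  have i4 := (integrable_one hD).const_mul (1 / (2 * l))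
  have i5 : Integrable (fun x => l / 2 * r ^ 2 * ⟪e, x⟫ ^ 2) (sph E) := integrable_sph (by fun_prop)
  have key : ∫ x, max (r * ⟪e, x⟫ - s) 0 + s * (cap e (s / r)).indicator 1 x ∂(sph E) ≤
      ∫ x, B.indicator (fun x => r * ⟪e, x⟫ - 0) x +
        (1 / (2 * l) * (B ∆ cap e (s / r)).indicator 1 x + l / 2 * r ^ 2 * ⟪e, x⟫ ^ 2)
        ∂(sph E) := by
    refine integral_mono (i1.add i3) (i2.add (i4.add i5)) fun x => ?_
    simp only [mul_assoc (l / 2), ← mul_pow]
    exact pt_two (Y := fun x => r * ⟪e, x⟫) mem_cap_iff hl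
  rw [integral_add i1 i3, integral_add i2 (by exact i4.add i5), integral_add i4 i5,
    integral_const_mul, integral_const_mul, integral_const_mul,
    integral_indicator_one hD, integral_indicator_one (measurableSet_cap _ _),
    integral_ind e 0 hB, integral_inner_sq, he, Real.sq_sqrt hn.le] at key
  have h3 := real_inner_le_norm e (bary B)
  rw [he, one_mul] at h3
  have h4 : l / 2 * (finrank ℝ E) * (1 ^ 2 / finrank ℝ E) = l / 2 := by field_simp
  have h5 : 1 / (2 * l) * (sph E).real (B ∆ cap e (s / r)) ≤ l / 2 :=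
    (mul_le_mul_of_nonneg_left h (by positivity)).trans_eq (by field_simp)
  nlinarith [mul_le_mul_of_nonneg_left h3 (Real.sqrt_nonneg (finrank ℝ E)),
    mul_le_mul_of_nonneg_left a1.1 hs]

end Pool.Agent.BL.SA
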