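import Pool.Agent.P.MP_edb112_gt.BLNb

/-! The configuration and the numerical estimates for step A. -/

set_option autoImplicit false
set_option linter.unusedSectionVars false

open MeasureTheory Set Module
open scoped RealInnerProductSpace symmDiff

noncomputable section

namespace Pool.Agent.BL.SA

theorem sum_two {t : ℕ} (a₀ : Fin t) (x y : ℝ) :
    ∑ a, (if a = a₀ then x else y) = x + (t - 1) * y := by
  have : ∀ a, (if a = a₀ then x else y) = y + if a = a₀ then x - y else 0 := fun a => by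
    split_ifs <;> ring
  simp only [this, Finset.sum_add_distrib, Finset.sum_ite_eq', Finset.mem_univ, if_true,
    Finset.sum_const, Finset.card_univ, Fintype.card_fin, nsmul_eq_mul]
  ring

theorem height_le {t : ℕ} (ht : 3 ≤ t) {h : ℝ} (h0 : 0 ≤ h) (h1 : h ^ 2 ≤ 1) :
    0 ≤ t * h * (1 - h ^ 2) / (t - 1) ∧ t * h * (1 - h ^ 2) / (t - 1) ≤ 2 * h := by
  have ht' : (3 : ℝ) ≤ t := by exact_mod_cast ht
  have : (0 : ℝ) < t - 1 := by linarith
  have h2 : 0 ≤ 1 - h ^ 2 := by linarith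
  refine ⟨by positivity, ?_⟩
  rw [div_le_iff₀ this]
  nlinarith [mul_nonneg h0 (sq_nonneg h), mul_nonneg h0 (show (0 : ℝ) ≤ t - 3 by linarith)]

theorem geo_two {a a' η C x m n d : ℝ} (ha : 0 ≤ a) (haC : a ≤ C) (ha' : a' ≤ 2 * C) (hη : 0 < η)
    (hη1 : η ≤ 1) (h : η < a') (hd : 0 ≤ d) (hdn : d < n) (hx : x = 1 / (n - d)) (hm : n - d ≤ m)
    (h1 : (2 * C + 3) ^ 2 * x ≤ 1 / 4) (h2 : ((2 * C + 3) ^ 2 + 2 * d) * x < η / (2 * C + 1)) :
    ((a + η) / √m) ^ 2 ≤ 1 / 4 ∧ ((a' - a - 2 * η) / √m) ^ 2 ≤ 1 / 4 ∧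
      ((a + η) / √m + (a' - a - 2 * η) / √m) ^ 2 *
        (1 + ((a + η) / √m - (a' - a - 2 * η) / √m) ^ 2) < (a' / √n) ^ 2 := by
  have hnd : 0 < n - d := by linarith
  have hm0 : 0 < m := by linarith
  have hn0 : 0 < n := by linarith
  have hx0 : 0 < x := by rw [hx]; positivity
  have hC : 0 ≤ C := ha.trans haC
  have key : ∀ y : ℝ, (y / √m) ^ 2 ≤ y ^ 2 * x := by
    intro y
    rw [div_pow, Real.sq_sqrt hm0.le, hx, mul_one_div]
    gcongr
  have key2 : ∀ y : ℝ, |y| ≤ 2 * C + 3 → (y / √m) ^ 2 ≤ (2 * C + 3) ^ 2 * x := fun y hy =>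
    (key y).trans (mul_le_mul_of_nonneg_right (sq_le_sq' (abs_le.1 hy).1 (abs_le.1 hy).2) hx0.le)
  refine ⟨(key2 _ (abs_le.2 ⟨by linarith, by linarith⟩)).trans h1,
    (key2 _ (abs_le.2 ⟨by linarith, by linarith⟩)).trans h1, ?_⟩
  rw [← add_div, ← sub_div, div_pow a', Real.sq_sqrt hn0.le, lt_div_iff₀ hn0]
  have h3 := key2 (a + η - (a' - a - 2 * η)) (abs_le.2 ⟨by linarith, by linarith⟩)
  have h4 := key (a + η + (a' - a - 2 * η))
  set D := (2 * C + 3) ^ 2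
  set u := η / (2 * C + 1) with hu
  have hu0 : 0 < u := by positivity
  have hu1 : u * (2 * C + 1) = η := by rw [hu]; field_simp
  have hu2 : u ≤ 1 := by nlinarith
  have h5 : (a + η + (a' - a - 2 * η)) ^ 2 ≤ a' ^ 2 * (1 - u) := by
    have h6 : (a + η + (a' - a - 2 * η)) ^ 2 ≤ (a' * (1 - u)) ^ 2 :=
      pow_le_pow_left₀ (by linarith) (by nlinarith) 2
    rw [mul_pow] at h6
    exact h6.trans (mul_le_mul_of_nonneg_left (by nlinarith) (sq_nonneg _))
  have hxn : x * n = 1 + d * x := by rw [hx]; field_simp; ring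
  have hD : 0 ≤ D * x := by positivity
  have hdx : 0 ≤ d * x := by positivity
  have h7 : (1 - u) * ((1 + D * x) * (1 + d * x)) < 1 := by nlinarith [mul_nonneg hD hdx]
  have ha2 : 0 < a' ^ 2 := pow_pos (hη.trans h) 2
  calc _ ≤ (a' ^ 2 * (1 - u) * x) * (1 + D * x) * n := by
        gcongr
        exact h4.trans (mul_le_mul_of_nonneg_right h5 hx0.le)
    _ = a' ^ 2 * ((1 - u) * ((1 + D * x) * (x * n))) := by ring
    _ < a' ^ 2 := by rw [hxn]; exact mul_lt_of_lt_one_right ha2 h7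

variable {E : Type} [NormedAddCommGroup E] [InnerProductSpace ℝ E] [CompleteSpace E]
  [FiniteDimensional ℝ E]

theorem exists_config {t : ℕ} (ht : 3 ≤ t) (hn : t + 2 ≤ finrank ℝ E) {h : ℝ} (h0 : 0 ≤ h)
    (h1 : h ^ 2 ≤ 1 / 16) (a₀ : Fin t) {s : Fin t → ℝ}
    (hs : ∀ a, s a = if a = a₀ then 0 else t * h * (1 - h ^ 2) / (t - 1)) :
    ∃ z : Fin t → E, Near t (20 * h ^ 2) z ∧ ∀ a b, a ≠ b →
      √(1 - s a ^ 2) * √(1 - s b ^ 2) * ⟪z a, z b⟫ + s a * s b = beta t h := by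
  have ht' : (3 : ℝ) ≤ t := by exact_mod_cast ht
  have ht1 : (0 : ℝ) < t - 1 := by linarith
  have : Nontrivial E := Module.nontrivial_of_finrank_pos (R := ℝ) (by omega)
  obtain ⟨e, he⟩ := exists_norm_eq E zero_le_one
  obtain ⟨b0, b1⟩ := height_le ht h0 (by linarith)
  set m := h * (1 - h ^ 2) with hm
  have hd : ∀ a, s a - m = if a = a₀ then -m else m / (t - 1) := fun a => by
    rw [hs]
    split_ifs
    · ring
    · rw [hm]; field_simp; ring
  have hd2 : ∑ a, (s a - m) ^ 2 = t / (t - 1) * m ^ 2 := by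
    simp only [hd, ite_pow, sum_two]
    field_simp
    ring
  have hk : 0 ≤ 1 - h ^ 2 := by linarith
  have hm2 : m ^ 2 ≤ h ^ 2 * (1 - h ^ 2) := by
    rw [hm, mul_pow]
    exact mul_le_mul_of_nonneg_left (by nlinarith [sq_nonneg h]) (sq_nonneg _)
  obtain ⟨x, x1, x2, x3⟩ := exists_heights (by omega : 2 ≤ t) hn he h0 (by nlinarith)
    (m := m) (d := fun a => s a - m) (by simp only [hd, sum_two]; field_simp; ring)
    (by rw [hd2]; gcongr; nlinarith)
    (by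
      have : ((t : ℝ) - 1) / t * (t / (t - 1) * m ^ 2) = m ^ 2 := by field_simp
      rw [hd2, this]
      nlinarith)
  have s0 : ∀ a, 0 ≤ s a ∧ s a ≤ 2 * h := fun a => by
    rw [hs]
    split_ifs
    · exact ⟨le_rfl, by linarith⟩
    · exact ⟨b0, b1⟩
  have s1 : ∀ a, s a ^ 2 ≤ 4 * h ^ 2 := fun a => by nlinarith [s0 a]
  have k0 : ∀ a, 0 < √(1 - s a ^ 2) := fun a => Real.sqrt_pos.2 (by linarith [s1 a])
  have hee : ⟪e, e⟫ = 1 := by rw [real_inner_self_eq_norm_sq, he, one_pow]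
  have hz : ∀ a b, √(1 - s a ^ 2) * √(1 - s b ^ 2) * ⟪(√(1 - s a ^ 2))⁻¹ • (x a - s a • e),
      (√(1 - s b ^ 2))⁻¹ • (x b - s b • e)⟫ + s a * s b = ⟪x a, x b⟫ := by
    intro a b
    have := (k0 a).ne'
    have := (k0 b).ne'
    simp only [real_inner_smul_left, real_inner_smul_right, inner_sub_left, inner_sub_right, hee,
      real_inner_comm e (x a), x3]
    field_simp
    ring
  refine ⟨fun a => (√(1 - s a ^ 2))⁻¹ • (x a - s a • e), ⟨fun a => ?_, fun a b hab => ?_⟩,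
    fun a b hab => (hz a b).trans (x2 a b hab)⟩
  · have h2 := hz a a
    rw [real_inner_self_eq_norm_sq, real_inner_self_eq_norm_sq, x1,
      Real.mul_self_sqrt (by linarith [s1 a])] at h2
    refine (pow_eq_one_iff_of_nonneg (norm_nonneg _) two_ne_zero).1 (mul_left_cancel₀
      (show 1 - s a ^ 2 ≠ 0 by linarith [s1 a]) (by linarith))
  · have h2 := hz a b
    rw [x2 a b hab, beta_eq (by omega)] at h2
    have k1 : ∀ a, √(1 - s a ^ 2) ≤ 1 := fun a => Real.sqrt_le_one.2 (by nlinarith)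
    have k2 : ∀ a, √(1 - 4 * h ^ 2) ≤ √(1 - s a ^ 2) := fun a =>
      Real.sqrt_le_sqrt (by linarith [s1 a])
    have d1 : 1 - 4 * h ^ 2 ≤ √(1 - s a ^ 2) * √(1 - s b ^ 2) := by
      rw [← Real.mul_self_sqrt (show 0 ≤ 1 - 4 * h ^ 2 by linarith)]
      exact mul_le_mul (k2 a) (k2 b) (Real.sqrt_nonneg _) (Real.sqrt_nonneg _)
    have d2 : √(1 - s a ^ 2) * √(1 - s b ^ 2) ≤ 1 := mul_le_one₀ (k1 a) (k0 b).le (k1 b)
    have d3 : 0 ≤ s a * s b := mul_nonneg (s0 a).1 (s0 b).1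
    have d4 : s a * s b ≤ 4 * h ^ 2 := by nlinarith [s0 a, s0 b]
    have r0 : (0 : ℝ) < 1 / (t - 1) := by positivity
    have r1 : (1 : ℝ) / (t - 1) ≤ 1 / 2 := one_div_le_one_div_of_le two_pos (by linarith)
    rw [neg_div] at h2
    generalize (1 : ℝ) / (t - 1) = ρ at *
    generalize √(1 - s a ^ 2) * √(1 - s b ^ 2) = D at *
    generalize s a * s b = p at *
    generalize ⟪(√(1 - s a ^ 2))⁻¹ • (x a - s a • e), (√(1 - s b ^ 2))⁻¹ • (x b - s b • e)⟫ = w
      at *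
    have hh := sq_nonneg h
    generalize h ^ 2 = y at *
    rw [abs_le]
    constructor
    · by_contra hc
      nlinarith [mul_nonneg r0.le hh, mul_le_mul_of_nonneg_left d1 r0.le]
    · by_contra hc
      nlinarith [mul_nonneg r0.le hh, mul_le_mul_of_nonneg_left d2 r0.le]

variable [MeasurableSpace E] [BorelSpace E] [Nontrivial E]

theorem good {t : ℕ} (ht : 3 ≤ t) (a₀ : Fin t) {B0 B1 : Set E} {a η γ C ε : ℝ} (ha : 0 ≤ a)
    (haC : a ≤ C) (hη : 0 < η) (hη1 : η ≤ 1) (hγ : 0 < γ) (hγ1 : γ ≤ 1)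
    (hM : ∀ θ : Fin t → ℝ, (∀ a, |θ a| ≤ C + 3) → η ≤ ∑ a, θ a →
      ∃ a, (sph E).real (if a = a₀ then B0 else B1) < Ph (θ a))
    (hS : ∀ θ : Fin t → ℝ, (∀ a, |θ a| ≤ C + 3) → -γ ≤ ∑ a, θ a →
      (∀ a, Ph (θ a) ≤ (sph E).real (if a = a₀ then B0 else B1)) → ∃ e : E, ‖e‖ = 1 ∧
        ∀ a, (sph E).real ((if a = a₀ then B0 else B1) ∆ cap e (-θ a / √(finrank ℝ E))) ≤ ε)
    (h0 : Ph (-(a + η)) ≤ (sph E).real B0) :
    (sph E).real B1 < Ph ((a + 2 * η) / (t - 1)) ∧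
      (Ph ((a + 2 * η) / (t - 1)) - (sph E).real B1 < ph (C + 3) * (γ / (t - 1)) →
        ∃ e : E, ‖e‖ = 1 ∧ (sph E).real (B0 ∆ cap e ((a + η) / √(finrank ℝ E))) ≤ ε) := by
  have ht' : (3 : ℝ) ≤ t := by exact_mod_cast ht
  have ht1 : (0 : ℝ) < t - 1 := by linarith
  have b0 : |-(a + η)| ≤ C + 3 := abs_le.2 ⟨by linarith, by linarith⟩
  have p1 : 0 ≤ (a + 2 * η) / (t - 1) := by positivity
  have p2 : (a + 2 * η) / (t - 1) ≤ a + 2 * η := div_le_self (by positivity) (by linarith)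
  have p3 : 0 ≤ γ / (t - 1) := by positivity
  have p4 : γ / (t - 1) ≤ γ := div_le_self hγ.le (by linarith)
  have b1 : |(a + 2 * η) / (t - 1)| ≤ C + 3 := abs_le.2 ⟨by linarith, by linarith⟩
  have b2 : |(a + 2 * η) / (t - 1) - γ / (t - 1)| ≤ C + 3 := abs_le.2 ⟨by linarith, by linarith⟩
  constructor
  · obtain ⟨b, hb⟩ := hM (fun b => if b = a₀ then -(a + η) else (a + 2 * η) / (t - 1))
      (fun b => by split_ifs <;> assumption) (by rw [sum_two, mul_div_cancel₀ _ ht1.ne']; linarith)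
    split_ifs at hb
    · linarith
    · exact hb
  · intro hlt
    obtain ⟨e, he, h⟩ := hS
      (fun b => if b = a₀ then -(a + η) else (a + 2 * η) / (t - 1) - γ / (t - 1))
      (fun b => by split_ifs <;> assumption)
      (by rw [sum_two, ← sub_div, mul_div_cancel₀ _ ht1.ne']; linarith)
      (fun b => by
        split_ifs
        · exact h0
        · have := le_Ph_sub (sub_le_self _ p3) b2 b1
          rw [sub_sub_cancel] at this
          linarith)
    exact ⟨e, he, by simpa only [if_true, neg_neg] using h a₀⟩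

end Pool.Agent.BL.SA
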