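import Pool.Agent.P.MP_edb112_gt.BLCfg

/-! The averaging argument of step A. -/

set_option autoImplicit false
set_option linter.unusedSectionVars false

open MeasureTheory Set Module
open scoped RealInnerProductSpace symmDiff

noncomputable section

namespace Pool.Agent.BL.SA

variable {E : Type} [NormedAddCommGroup E] [InnerProductSpace ℝ E] [CompleteSpace E]
  [FiniteDimensional ℝ E] [MeasurableSpace E] [BorelSpace E] [Nontrivial E]

theorem mean_lower {V : Submodule ℝ E} [CompleteSpace V] [Nontrivial V]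
    {C η η₁ ε x a a' : ℝ} {K : Set E} (hVE : finrank ℝ V + 2 ≤ finrank ℝ E)
    (hx : x = 1 / (finrank ℝ E - finrank ℝ V)) (hη : 0 < η) (hη1 : η ≤ 1) (hη₁ : 0 < η₁)
    (hε : 0 ≤ ε) (hAW : ∀ (W : Submodule ℝ E) [CompleteSpace W],
      finrank ℝ E - finrank ℝ V ≤ finrank ℝ W → Apx W ε)
    (c5 : (2 * C + 3) ^ 2 * x ≤ 1 / 4)
    (c6 : ((2 * C + 3) ^ 2 + 2 * finrank ℝ V) * x < η / (2 * C + 1))
    (ha : 0 ≤ a) (haC : a ≤ C) (ha' : a' ≤ 2 * C) (hs : (a' / √(finrank ℝ E)) ^ 2 ≤ 1)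
    (hK : IsCompact K) (hS : ∀ z ∈ K, ‖z‖ = 1)
    (hμ : Ph (-(a + η)) + ε ≤ (sph E).real K - η₁) :
    Ph (a' - a - 2 * η) - ε - (x + 1 / (finrank ℝ E - 1)) / η₁ ^ 2 ≤
      ∫ g, (sph V).real (NN V (√(1 - (a' / √(finrank ℝ E)) ^ 2)) K g) ∂(haar E) := by
  rw [hx]
  refine mean_NN V (by omega) (by omega) hη₁ (by linarith [Ph_lt_one (a' - a - 2 * η)]) hK hS
    fun W _ _ hW L hL hLS hLm => ?_
  by_cases h : η < a'
  · have hd : (finrank ℝ V : ℝ) + 2 ≤ finrank ℝ E := by exact_mod_cast hVE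
    have hm : (finrank ℝ E : ℝ) - finrank ℝ V ≤ finrank ℝ W := by
      rw [← Nat.cast_sub (by omega)]
      exact_mod_cast hW
    obtain ⟨g1, g2, g3⟩ := geo_two ha haC ha' hη hη1 h (Nat.cast_nonneg _) (by linarith) hx hm c5 c6
    exact isoper (by omega) (hAW W hW) hL hLS (by linarith) (by linarith) (by linarith)
      (geo g1 g2 hs g3)
  · have h1 : L ⊆ nb (√(1 - (a' / √(finrank ℝ E)) ^ 2)) L := fun w hw => ⟨w, hw, by
      rw [real_inner_self_eq_norm_sq, hLS w hw, one_pow]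
      exact Real.sqrt_le_one.2 (sub_le_self _ (sq_nonneg _))⟩
    have h2 := measureReal_mono (μ := sph W) h1
    have h3 := Ph_mono (show a' - a - 2 * η ≤ -(a + η) by linarith [not_lt.1 h])
    linarith

theorem core {t : ℕ} (ht : 3 ≤ t) (V : Submodule ℝ E) [CompleteSpace V]
    {C ζ γ ω η η₁ ε ε' x a : ℝ} {K : Set E} (hζ : 0 < ζ) (hζ1 : ζ ≤ 1) (hγ : 0 < γ) (hγ1 : γ ≤ 1)
    (hω : ω = ph (C + 3) * (γ / (t - 1))) (hη : η = ω * ζ ^ 2 / 48)
    (hη₁ : η₁ = ph (C + 3) * η / 4) (hε : ε = η₁ / (2 * (C + 2)))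
    (hV : t + 2 ≤ finrank ℝ V) (hVE : finrank ℝ V + 2 ≤ finrank ℝ E)
    (hx : x = 1 / (finrank ℝ E - finrank ℝ V))
    (hAW : ∀ (W : Submodule ℝ E) [CompleteSpace W],
      min (finrank ℝ V) (finrank ℝ E - finrank ℝ V) ≤ finrank ℝ W → Apx W ε)
    (hM : ∀ z : Fin t → V, Near t ε' z → ∀ B : Fin t → Set V, (∀ a, MeasurableSet (B a)) →
      OrbFree z B → ∀ θ : Fin t → ℝ, (∀ a, |θ a| ≤ C + 3) → η ≤ ∑ a, θ a →
      ∃ a, (sph V).real (B a) < Ph (θ a))
    (hSt : ∀ z : Fin t → V, Near t ε' z → ∀ B : Fin t → Set V, (∀ a, MeasurableSet (B a)) →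
      OrbFree z B → ∀ θ : Fin t → ℝ, (∀ a, |θ a| ≤ C + 3) → -γ ≤ ∑ a, θ a →
      (∀ a, Ph (θ a) ≤ (sph V).real (B a)) → ∃ e : V, ‖e‖ = 1 ∧
        ∀ a, (sph V).real (B a ∆ cap e (-θ a / √(finrank ℝ V))) ≤ (ζ / 8) ^ 2)
    (d1 : (1 + 1 / ω) / η₁ ^ 2 * (1 / finrank ℝ V) ≤ ζ ^ 2 / 32)
    (d2 : 2 / √(finrank ℝ V) ≤ ζ ^ 2 / 32)
    (c1 : 20 * C ^ 2 * x ≤ ε') (c2 : 16 * t * C ^ 2 * x ≤ 1)
    (c3 : ((1 + 1 / ω) / η₁ ^ 2 + 2 / η₁ ^ 2 / ω + finrank ℝ V) * x ≤ ζ ^ 2 / 16)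
    (c4 : 2 * C ^ 3 * x ≤ η) (c5 : (2 * C + 3) ^ 2 * x ≤ 1 / 4)
    (c6 : ((2 * C + 3) ^ 2 + 2 * finrank ℝ V) * x < η / (2 * C + 1))
    (ha : 0 ≤ a) (haC : a ≤ C) (hK : IsCompact K) (hS : ∀ z ∈ K, ‖z‖ = 1)
    (hF : Free t (a / √(finrank ℝ E)) K) (hμ : Ph (-a) - η₁ ≤ (sph E).real K) :
    (sph E).real K ≤ Ph (-a) + ζ ∧ ph a - ζ ≤ √(finrank ℝ E) * ‖bary K‖ := by
  have : Nontrivial V := Module.nontrivial_of_finrank_pos (R := ℝ) (by omega)
  have ht' : (3 : ℝ) ≤ t := by exact_mod_cast ht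
  have ht1 : (0 : ℝ) < t - 1 := by linarith
  have hC : 0 ≤ C := ha.trans haC
  have hp := ph_pos (C + 3)
  have hp1 := ph_le (C + 3)
  have hω0 : 0 < ω := by rw [hω]; positivity
  have hω1 : ω ≤ 1 := by
    rw [hω]
    exact mul_le_one₀ (by linarith) (by positivity) ((div_le_self hγ.le (by linarith)).trans hγ1)
  have hη0 : 0 < η := by rw [hη]; positivity
  have hη1 : η ≤ ζ / 48 := by
    have : ω * ζ ≤ 1 := mul_le_one₀ hω1 hζ.le hζ1
    linarith only [hη, mul_le_mul_of_nonneg_right this hζ.le]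
  have hζζ : ζ ^ 2 ≤ ζ := by linarith only [mul_le_mul_of_nonneg_right hζ1 hζ.le]
  have hη₁0 : 0 < η₁ := by rw [hη₁]; positivity
  have hη₁1 : η₁ ≤ η / 8 := by linarith only [hη₁, mul_le_mul_of_nonneg_right hp1 hη0.le]
  have hε0 : 0 < ε := by rw [hε]; positivity
  have hε1 : 2 * (C + 2) * ε = η₁ := by rw [hε]; field_simp
  have hε2 : ε ≤ η₁ / 4 := by linarith only [hε1, mul_nonneg hC hε0.le]
  have hd : (finrank ℝ V : ℝ) + 2 ≤ finrank ℝ E := by exact_mod_cast hVE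
  have hd1 : (1 : ℝ) ≤ finrank ℝ V := by exact_mod_cast (show 1 ≤ finrank ℝ V by omega)
  have hn0 : (0 : ℝ) < finrank ℝ E := by linarith
  have hx1 : (1 : ℝ) / (finrank ℝ E - 1) ≤ x :=
    hx ▸ one_div_le_one_div_of_le (by linarith) (by linarith)
  have hx2 : (1 : ℝ) / finrank ℝ E ≤ x := hx ▸ one_div_le_one_div_of_le (by linarith) (by linarith)
  have hx0 : 0 ≤ x := le_trans (by positivity) hx2
  set h := a / √(finrank ℝ E : ℝ) with hh
  have h0 : 0 ≤ h := by positivity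
  have h2 : h ^ 2 ≤ C ^ 2 * x := by
    rw [hh, div_pow, Real.sq_sqrt hn0.le, div_eq_mul_one_div]
    gcongr
  have h3 : t * h ^ 2 ≤ 1 / 16 := by
    linarith only [c2, mul_le_mul_of_nonneg_left h2 (Nat.cast_nonneg (α := ℝ) t)]
  have h4 : h ^ 2 ≤ 1 / 16 := by linarith only [h3, mul_nonneg ht1.le (sq_nonneg h)]
  let a₀ : Fin t := ⟨0, by omega⟩
  set a' := t * a * (1 - h ^ 2) / (t - 1) with ha'
  have hs' : t * h * (1 - h ^ 2) / (t - 1) = a' / √(finrank ℝ E : ℝ) := by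
    rw [ha']
    conv_lhs => rw [show t * h = t * a / √(finrank ℝ E : ℝ) by rw [hh]; ring]
    ring
  obtain ⟨b0, b1⟩ := height_le ht h0 (by linarith)
  obtain ⟨z, hz, hz2⟩ := exists_config ht hV h0 h4 a₀ fun _ => rfl
  rw [hs'] at hz2 b0 b1
  have hz' : Near t ε' z := ⟨hz.1, fun a b hab => (hz.2 a b hab).trans (by linarith)⟩
  have hs1 : (a' / √(finrank ℝ E : ℝ)) ^ 2 < 1 := by
    linarith only [h4, pow_le_pow_left₀ b0 b1 2]
  set κ := √(1 - (a' / √(finrank ℝ E : ℝ)) ^ 2) with hκ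
  have hKm := hK.measurableSet
  have hZ := measurableSet_NN V κ hK
  have hβ : beta t h ≤ 0 := div_nonpos_of_nonpos_of_nonneg (by linarith) ht1.le
  have hO : ∀ g, OrbFree z fun b => if b = a₀ then sec V K g else NN V κ K g := by
    intro g k
    obtain ⟨b, hb⟩ := orbFree_NN V hβ hS hF hz.1 (fun b => by split_ifs; exacts [le_rfl, b0])
      (fun b => by split_ifs; exacts [by norm_num, hs1]) hz2 g k
    refine ⟨b, fun h => hb ?_⟩
    by_cases hb0 : b = a₀
    · simp only [hb0, if_true] at h ⊢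
      simpa using mem_NN V ((norm_ap k _).trans (hz.1 _)) h
    · simpa only [hb0, if_false] using h
  have hBm : ∀ g b, MeasurableSet (if b = a₀ then sec V K g else NN V κ K g) := fun g b => by
    split_ifs
    exacts [measurableSet_sec V hKm g, measurable_prodMk_left hZ]
  have hPh := le_Ph_sub (a := -(a + η)) (b := -a) (R := C + 3) (by linarith)
    (abs_le.2 ⟨by linarith, by linarith⟩) (abs_le.2 ⟨by linarith, by linarith⟩)
  have hPh' : Ph (-(a + η)) + 4 * η₁ ≤ Ph (-a) := by rw [hη₁]; linarith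
  set μ := (sph E).real K with hμd
  set θ := (a + 2 * η) / (t - 1) with hθ
  let pen : G E → ℝ := fun g => (1 + 1 / ω) / η₁ ^ 2 * ((sph V).real (sec V K g) - μ) ^ 2 +
    (Ph θ - (sph V).real (NN V κ K g)) / ω
  have hpen : ∀ g, 0 ≤ pen g ∧ (pen g < 1 → μ ≤ Ph (-a) + ζ ∧
      ph a - ζ / 2 ≤ √(finrank ℝ V) * ‖bary (sec V K g)‖) := by
    intro g
    by_cases hg : ((sph V).real (sec V K g) - μ) ^ 2 < η₁ ^ 2
    · have hg' := abs_lt.1 (abs_lt_of_sq_lt_sq hg hη₁0.le)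
      obtain ⟨g1, g2⟩ := good ht a₀ ha haC hη0 (by linarith) hγ hγ1
        (hM z hz' _ (hBm g) (hO g)) (hSt z hz' _ (hBm g) (hO g)) (by linarith)
      have p1 : 0 ≤ (1 + 1 / ω) / η₁ ^ 2 * ((sph V).real (sec V K g) - μ) ^ 2 := by positivity
      have p2 : 0 ≤ (Ph θ - (sph V).real (NN V κ K g)) / ω := div_nonneg (by linarith) hω0.le
      refine ⟨add_nonneg p1 p2, fun hlt => ?_⟩
      obtain ⟨e, he, hcap⟩ := g2 (by
        rw [← hω, ← div_lt_one hω0]
        exact (le_add_of_nonneg_left p1).trans_lt hlt)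
      obtain ⟨q1, q2⟩ := bary_ge (hAW V (min_le_left _ _)) (by linarith) (by positivity)
        (measurableSet_sec V hKm g) he hcap
      have q3 := (abs_le.1 (abs_ph_sub_le a η)).1
      rw [abs_of_pos hη0] at q3
      constructor
      · linarith only [hg'.1, q1, hPh', hε2, hη₁0, hζζ, hζ]
      · have q4 := mul_nonneg (show 0 ≤ C + 2 - (1 + (a + η)) by linarith only [haC, hη1, hζ1])
          hε0.le
        linarith only [q2, q3, q4, hε1, hη₁1, hη1, hζ]
    · have p1 : 1 + 1 / ω ≤ (1 + 1 / ω) / η₁ ^ 2 * ((sph V).real (sec V K g) - μ) ^ 2 := by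
        rw [div_mul_eq_mul_div, le_div_iff₀ (by positivity)]
        exact mul_le_mul_of_nonneg_left (not_lt.1 hg) (by positivity)
      have p2 : -1 / ω ≤ (Ph θ - (sph V).real (NN V κ K g)) / ω := by
        gcongr
        linarith [Ph_pos θ, measureReal_le_one (μ := sph V) (s := NN V κ K g)]
      have p3 : 1 ≤ pen g := by
        rw [neg_div] at p2
        simp only [pen]
        linarith
      exact ⟨by linarith, fun hlt => absurd hlt p3.not_gt⟩
  have i1 := (integrable_sec V hKm μ).const_mul ((1 + 1 / ω) / η₁ ^ 2)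
  have i2 : Integrable (fun g => (sph V).real (NN V κ K g)) (haar E) :=
    Integrable.of_bound (measurable_measure_prodMk_left hZ).ennreal_toReal.aestronglyMeasurable 1
      (Filter.Eventually.of_forall fun g => by
        rw [Real.norm_of_nonneg measureReal_nonneg]; exact measureReal_le_one)
  have i3 : Integrable (fun g => (Ph θ - (sph V).real (NN V κ K g)) / ω) (haar E) :=
    ((integrable_const _).sub i2).div_const ω
  have ip : Integrable pen (haar E) := i1.add i3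
  have ha2 : a' ≤ 2 * C := by
    rw [ha', div_le_iff₀ ht1]
    linarith only [mul_nonneg (Nat.cast_nonneg (α := ℝ) t) (mul_nonneg ha (sq_nonneg h)), hC,
      mul_nonneg (Nat.cast_nonneg (α := ℝ) t) (sub_nonneg.2 haC), mul_nonneg hC (sub_nonneg.2 ht')]
  have m1 := mean_lower hVE hx hη0 (by linarith) hη₁0 hε0.le
    (fun W _ hW => hAW W ((min_le_right _ _).trans hW)) c5 c6 ha haC ha2 hs1.le hK hS (by linarith)
  have m2 := sub_var V (by omega) hKm
  have m3 : Ph θ - Ph (a' - a - 2 * η) ≤ 2 * η := by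
    have e : θ - (a' - a - 2 * η) = 2 * η / (t - 1) + t / (t - 1) * (a * h ^ 2) + 2 * η := by
      rw [hθ, ha']
      field_simp
      ring
    have u1 : 2 * η / (t - 1) ≤ η := by
      rw [div_le_iff₀ ht1]
      linarith only [mul_nonneg hη0.le (sub_nonneg.2 ht')]
    have u2 : (t : ℝ) / (t - 1) ≤ 2 := by rw [div_le_iff₀ ht1]; linarith
    have u3 : a * h ^ 2 ≤ C * (C ^ 2 * x) := mul_le_mul haC h2 (sq_nonneg _) hC
    have u4 := mul_le_mul u2 u3 (by positivity) zero_le_two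
    have := Ph_sub_le (a := a' - a - 2 * η) (b := θ) (by rw [← sub_nonneg, e]; positivity)
    rw [e] at this
    linarith only [this, u1, u4, c4]
  obtain ⟨i4, m4⟩ := sub_bary V (by omega) hKm
  have m5 : ∫ g, pen g ∂(haar E) + finrank ℝ V / (finrank ℝ E - 1) ≤ 5 * ζ ^ 2 / 32 := by
    rw [integral_add i1 i3, integral_const_mul, integral_div, integral_sub (integrable_const _) i2]
    simp only [integral_const, probReal_univ, one_smul]
    have v1 := mul_le_mul_of_nonneg_left (m2.trans (add_le_add le_rfl hx1))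
      (show 0 ≤ (1 + 1 / ω) / η₁ ^ 2 by positivity)
    have v2 : (x + 1 / (finrank ℝ E - 1)) / η₁ ^ 2 ≤ 2 / η₁ ^ 2 * x := by
      rw [div_mul_eq_mul_div]
      gcongr
      linarith
    have v3 : (Ph θ - ∫ g, (sph V).real (NN V κ K g) ∂(haar E)) / ω ≤
        (3 * η + 2 / η₁ ^ 2 * x) / ω := by
      gcongr
      linarith
    have v4 : (3 * η + 2 / η₁ ^ 2 * x) / ω = ζ ^ 2 / 16 + 2 / η₁ ^ 2 / ω * x := by
      rw [hη]
      field_simp
      ring
    have v5 : (finrank ℝ V : ℝ) / (finrank ℝ E - 1) ≤ finrank ℝ V * x := by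
      rw [div_eq_mul_one_div]
      gcongr
    linarith
  have v6 : (0 : ℝ) ≤ finrank ℝ V / (finrank ℝ E - 1) := div_nonneg (by linarith) (by linarith)
  constructor
  · by_contra hc
    have := integral_mono (integrable_const (μ := haar E) (1 : ℝ)) ip fun g =>
      not_lt.1 fun hlt => hc ((hpen g).2 hlt).1
    simp only [integral_const, probReal_univ, one_smul] at this
    linarith only [this, m5, v6, hζζ, hζ1]
  · by_contra hc
    rw [not_le] at hc
    have hb : 0 ≤ √(finrank ℝ E : ℝ) * ‖bary K‖ := by positivity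
    have hL : ∀ g, (ph a - ζ / 2) ^ 2 ≤ finrank ℝ V * ‖bary (sec V K g)‖ ^ 2 + pen g := by
      intro g
      by_cases hlt : pen g < 1
      · have := pow_le_pow_left₀ (by linarith) ((hpen g).2 hlt).2 2
        rw [mul_pow, Real.sq_sqrt (by linarith)] at this
        linarith [(hpen g).1]
      · have : (0 : ℝ) ≤ finrank ℝ V * ‖bary (sec V K g)‖ ^ 2 := by positivity
        have h5 : (ph a - ζ / 2) ^ 2 ≤ 1 :=
          pow_le_one₀ (by linarith only [hb, hc, hζ]) (by linarith only [ph_le a, hζ])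
        linarith only [this, h5, not_lt.1 hlt]
    have := integral_mono (integrable_const _) ((i4.const_mul _).add ip) hL
    simp only [integral_const, probReal_univ, one_smul, Pi.add_apply] at this
    rw [integral_add (i4.const_mul _) ip, integral_const_mul] at this
    have e : (finrank ℝ E : ℝ) * ‖bary K‖ ^ 2 = (√(finrank ℝ E : ℝ) * ‖bary K‖) ^ 2 := by
      rw [mul_pow, Real.sq_sqrt hn0.le]
    rw [e] at m4
    have h5 := pow_le_pow_left₀ (show 0 ≤ √(finrank ℝ E : ℝ) * ‖bary K‖ + ζ / 2 by positivity)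
      (show √(finrank ℝ E : ℝ) * ‖bary K‖ + ζ / 2 ≤ ph a - ζ / 2 by linarith only [hc]) 2
    generalize √(finrank ℝ E : ℝ) * ‖bary K‖ = B at h5 m4 hb
    linarith only [h5, this, m4, m5, d2, mul_nonneg hb hζ.le, pow_pos hζ 2]

end Pool.Agent.BL.SA
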