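import Mathlib

/-! The fourth moment inequality for functions of low degree on the discrete cube. -/

set_option autoImplicit false

noncomputable section

namespace Pool.Agent.BL.Cube

/-- the sign attached to a bit -/
def sg (b : Bool) : ℝ := if b then 1 else -1

theorem sg_sq (b : Bool) : sg b ^ 2 = 1 := by cases b <;> simp [sg]

/-- functions on the cube of degree less than `J` -/
def Dg : (n J : ℕ) → ((Fin n → Bool) → ℝ) → Prop
  | _, 0, f => ∀ ε, f ε = 0
  | 0, _ + 1, _ => True
  | n + 1, J + 1, f => Dg n J (fun ε => f (Fin.cons true ε) - f (Fin.cons false ε)) ∧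
      Dg n (J + 1) (fun ε => f (Fin.cons true ε) + f (Fin.cons false ε))

theorem dg_zero_iff {n : ℕ} {f : (Fin n → Bool) → ℝ} : Dg n 0 f ↔ ∀ ε, f ε = 0 := by
  cases n <;> simp [Dg]

theorem Dg.congr {n J : ℕ} {f g : (Fin n → Bool) → ℝ} (h : Dg n J f) (e : ∀ ε, g ε = f ε) :
    Dg n J g := by
  rwa [show g = f from funext e]

theorem Dg.lin {n : ℕ} : ∀ {J : ℕ} {f g : (Fin n → Bool) → ℝ} (a b : ℝ), Dg n J f → Dg n J g →
    Dg n J fun ε => a * f ε + b * g ε := by
  induction n with
  | zero =>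
    intro J f g a b hf hg
    cases J with
    | zero =>
      rw [dg_zero_iff] at *
      intro ε
      simp [hf, hg]
    | succ J => trivial
  | succ n ih =>
    intro J f g a b hf hg
    cases J with
    | zero =>
      rw [dg_zero_iff] at *
      intro ε
      simp [hf, hg]
    | succ J =>
      exact ⟨(ih a b hf.1 hg.1).congr fun ε => by ring, (ih a b hf.2 hg.2).congr fun ε => by ring⟩

theorem dg_zero {n : ℕ} : ∀ J : ℕ, Dg n J fun _ => 0 := by
  induction n with
  | zero =>
    intro J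
    cases J with
    | zero => exact dg_zero_iff.2 fun _ => rfl
    | succ J => trivial
  | succ n ih =>
    intro J
    cases J with
    | zero => exact dg_zero_iff.2 fun _ => rfl
    | succ J => exact ⟨(ih J).congr fun ε => by simp, (ih (J + 1)).congr fun ε => by simp⟩

theorem Dg.succ {n : ℕ} : ∀ {J : ℕ} {f : (Fin n → Bool) → ℝ}, Dg n J f → Dg n (J + 1) f := by
  induction n with
  | zero => intro J f _; trivial
  | succ n ih =>
    intro J f hf
    cases J with
    | zero => exact (dg_zero _).congr (dg_zero_iff.1 hf)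
    | succ J => exact ⟨ih hf.1, ih hf.2⟩

theorem Dg.mono {n I J : ℕ} {f : (Fin n → Bool) → ℝ} (h : Dg n I f) (hIJ : I ≤ J) : Dg n J f := by
  induction J, hIJ using Nat.le_induction with
  | base => exact h
  | succ J _ ih => exact ih.succ

theorem dg_const {n : ℕ} : ∀ c : ℝ, Dg n 1 fun _ => c := by
  induction n with
  | zero => intro c; trivial
  | succ n ih => intro c; exact ⟨dg_zero_iff.2 fun ε => by simp, ih _⟩

theorem Dg.mul_lin {n : ℕ} : ∀ {J : ℕ} {f : (Fin n → Bool) → ℝ} (c : Fin n → ℝ), Dg n J f →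
    Dg n (J + 1) fun ε => (∑ l, c l * sg (ε l)) * f ε := by
  induction n with
  | zero => intro J f c _; trivial
  | succ n ih =>
    intro J f c hf
    cases J with
    | zero => exact (dg_zero _).congr fun ε => by simp [dg_zero_iff.1 hf]
    | succ J =>
      refine ⟨(Dg.lin (c 0) 1 hf.2 (ih (fun l => c l.succ) hf.1)).congr fun ε => ?_,
        (Dg.lin (c 0) 1 hf.1.succ.succ (ih (fun l => c l.succ) hf.2)).congr fun ε => ?_⟩
      · simp only [Fin.sum_univ_succ, Fin.cons_zero, Fin.cons_succ, sg]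
        simp
        ring
      · simp only [Fin.sum_univ_succ, Fin.cons_zero, Fin.cons_succ, sg]
        simp
        ring

theorem dg_pow {n : ℕ} (c : Fin n → ℝ) (i : ℕ) :
    Dg n (i + 1) fun ε => (∑ l, c l * sg (ε l)) ^ i := by
  induction i with
  | zero => exact (dg_const 1).congr fun ε => by simp
  | succ i ih => exact (ih.mul_lin c).congr fun ε => by ring

theorem sum_succ {n : ℕ} (f : (Fin (n + 1) → Bool) → ℝ) :
    ∑ ε, f ε = ∑ ε : Fin n → Bool, (f (Fin.cons true ε) + f (Fin.cons false ε)) := by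
  rw [← (Fin.consEquiv fun _ => Bool).sum_comp, Fintype.sum_prod_type_right]
  refine Finset.sum_congr rfl fun ε _ => ?_
  rw [Fintype.sum_bool]
  rfl

/-- the fourth moment inequality -/
theorem bonami {n : ℕ} : ∀ {J : ℕ} {f : (Fin n → Bool) → ℝ}, Dg n J f →
    2 ^ n * ∑ ε, f ε ^ 4 ≤ 9 ^ J * (∑ ε, f ε ^ 2) ^ 2 := by
  induction n with
  | zero =>
    intro J f _
    have h9 : (1 : ℝ) ≤ 9 ^ J := one_le_pow₀ (by norm_num)
    simp only [pow_zero, one_mul, Finset.univ_unique, Finset.sum_singleton]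
    nlinarith [sq_nonneg (f default ^ 2)]
  | succ n ih =>
    intro J f hf
    cases J with
    | zero => simp [dg_zero_iff.1 hf]
    | succ J =>
      have h1 := ih hf.1
      have h2 := ih hf.2
      set d : (Fin n → Bool) → ℝ := fun ε => f (Fin.cons true ε) - f (Fin.cons false ε) with hd
      set e : (Fin n → Bool) → ℝ := fun ε => f (Fin.cons true ε) + f (Fin.cons false ε) with he
      have e4 : ∑ ε, f ε ^ 4 =
          (∑ ε, d ε ^ 4 + 6 * ∑ ε, d ε ^ 2 * e ε ^ 2 + ∑ ε, e ε ^ 4) / 8 := by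
        rw [sum_succ, Finset.mul_sum, ← Finset.sum_add_distrib, ← Finset.sum_add_distrib,
          Finset.sum_div]
        exact Finset.sum_congr rfl fun ε _ => by simp only [hd, he]; ring
      have e2 : ∑ ε, f ε ^ 2 = (∑ ε, d ε ^ 2 + ∑ ε, e ε ^ 2) / 2 := by
        rw [sum_succ, ← Finset.sum_add_distrib, Finset.sum_div]
        exact Finset.sum_congr rfl fun ε _ => by simp only [hd, he]; ring
      have hcs := Finset.sum_mul_sq_le_sq_mul_sq Finset.univ (fun ε => d ε ^ 2) fun ε => e ε ^ 2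
      simp only [← pow_mul] at hcs
      norm_num at hcs
      set D := ∑ ε, d ε ^ 2
      set E := ∑ ε, e ε ^ 2
      set D4 := ∑ ε, d ε ^ 4
      set E4 := ∑ ε, e ε ^ 4
      set X := ∑ ε, d ε ^ 2 * e ε ^ 2
      have hD : 0 ≤ D := Finset.sum_nonneg fun _ _ => by positivity
      have hE : 0 ≤ E := Finset.sum_nonneg fun _ _ => by positivity
      have hD4 : 0 ≤ D4 := Finset.sum_nonneg fun _ _ => by positivity
      have hE4 : 0 ≤ E4 := Finset.sum_nonneg fun _ _ => by positivity
      have hX : 2 ^ n * X ≤ 3 * 9 ^ J * D * E := by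
        refine abs_le_of_sq_le_sq' ?_ (by positivity) |>.2
        calc (2 ^ n * X) ^ 2 = 2 ^ n * 2 ^ n * X ^ 2 := by ring
          _ ≤ 2 ^ n * 2 ^ n * (D4 * E4) := by gcongr
          _ = (2 ^ n * D4) * (2 ^ n * E4) := by ring
          _ ≤ (9 ^ J * D ^ 2) * (9 ^ (J + 1) * E ^ 2) := by gcongr
          _ = _ := by ring
      rw [e4, e2]
      have h9 : (0 : ℝ) ≤ 9 ^ J * D ^ 2 := by positivity
      rw [pow_succ 9 J] at h2 ⊢
      rw [pow_succ 2 n]
      nlinarith

theorem sum_lin_sq {n : ℕ} : ∀ c : Fin n → ℝ,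
    ∑ ε : Fin n → Bool, (∑ l, c l * sg (ε l)) ^ 2 = 2 ^ n * ∑ l, c l ^ 2 := by
  induction n with
  | zero => intro c; simp
  | succ n ih =>
    intro c
    rw [sum_succ, Fin.sum_univ_succ fun l => c l ^ 2]
    have : ∀ ε : Fin n → Bool,
        (∑ l, c l * sg ((Fin.cons true ε : Fin (n + 1) → Bool) l)) ^ 2 +
          (∑ l, c l * sg ((Fin.cons false ε : Fin (n + 1) → Bool) l)) ^ 2 =
        2 * c 0 ^ 2 + 2 * (∑ l : Fin n, c l.succ * sg (ε l)) ^ 2 := by
      intro ε
      simp only [Fin.sum_univ_succ, Fin.cons_zero, Fin.cons_succ, sg]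
      simp
      ring
    simp only [this, Finset.sum_add_distrib, ← Finset.mul_sum, ih]
    simp
    ring

end Pool.Agent.BL.Cube
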