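import Pool.Agent.P.MP_edb112_gt.BLExt

/-! Polynomials of linear forms in the space of square integrable functions on the sphere. -/

set_option autoImplicit false
set_option linter.unusedSectionVars false

open MeasureTheory Set Module Polynomial
open scoped RealInnerProductSpace NNReal

noncomputable section

namespace Pool.Agent.BL.SA

variable {E : Type} [NormedAddCommGroup E] [InnerProductSpace ℝ E] [CompleteSpace E]
  [FiniteDimensional ℝ E] [MeasurableSpace E] [BorelSpace E] [Nontrivial E]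

theorem exists_bound_sph {f : E → ℝ} (hf : Continuous f) : ∃ C, ∀ x : E, ‖x‖ = 1 → |f x| ≤ C :=
  isCompact_unit.exists_bound_of_continuousOn hf.continuousOn

theorem memLp_sph {f : E → ℝ} (hf : Continuous f) : MemLp f 2 (sph E) := by
  obtain ⟨C, hC⟩ := exists_bound_sph hf
  exact MemLp.of_bound hf.aestronglyMeasurable C (ae_norm.mono hC)

theorem cont_pl (a : E) (P : ℝ[X]) : Continuous fun x : E => P.eval ⟪a, x⟫ :=
  P.continuous.comp (by fun_prop)

/-- the class of a polynomial of a linear form -/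
def pl (a : E) : ℝ[X] →ₗ[ℝ] Lp ℝ 2 (sph E) where
  toFun P := (memLp_sph (cont_pl a P)).toLp _
  map_add' P Q := by
    rw [← MemLp.toLp_add]
    exact MemLp.toLp_congr _ _ (Filter.Eventually.of_forall fun x => by simp)
  map_smul' c P := by
    rw [RingHom.id_apply, ← MemLp.toLp_const_smul]
    exact MemLp.toLp_congr _ _ (Filter.Eventually.of_forall fun x => by simp)

theorem coeFn_pl (a : E) (P : ℝ[X]) : pl a P =ᵐ[sph E] fun x => P.eval ⟪a, x⟫ :=
  MemLp.coeFn_toLp (memLp_sph (cont_pl a P))

theorem inner_pl (a : E) (P : ℝ[X]) (f : Lp ℝ 2 (sph E)) :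
    ⟪f, pl a P⟫ = ∫ x, f x * P.eval ⟪a, x⟫ ∂(sph E) := by
  rw [L2.inner_def]
  refine integral_congr_ae ?_
  filter_upwards [coeFn_pl a P] with x hx
  rw [hx]
  simp [mul_comm]

theorem integrable_mul_cont {f : E → ℝ} (hf : Integrable f (sph E)) {u : E → ℝ}
    (hu : Continuous u) : Integrable (fun x => f x * u x) (sph E) := by
  obtain ⟨C, hC⟩ := exists_bound_sph hu
  exact hf.mul_bdd hu.aestronglyMeasurable (ae_norm.mono hC)

theorem ae_zero_of_orth {f : E → ℝ} (hm : Measurable f) (hf : Integrable f (sph E))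
    (h : ∀ (a : E) (P : ℝ[X]), ∫ x, f x * P.eval ⟪a, x⟫ ∂(sph E) = 0) : f =ᵐ[sph E] 0 := by
  have h1 : ∀ (a : E) (χ : ℝ → ℝ), Continuous χ → ∫ x, f x * χ ⟪x, a⟫ ∂(sph E) = 0 := by
    intro a χ hχ
    have hI : 0 ≤ ∫ x, |f x| ∂(sph E) := integral_nonneg fun x => abs_nonneg _
    refine abs_nonpos_iff.1 (le_of_forall_pos_le_add fun ε hε => ?_)
    obtain ⟨P, hP⟩ := exists_polynomial_near_of_continuousOn (-‖a‖) ‖a‖ χ hχ.continuousOn
      (ε / (∫ x, |f x| ∂(sph E) + 1)) (by positivity)
    have i1 := integrable_mul_cont hf (u := fun x => χ ⟪x, a⟫) (by fun_prop)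
    have i2 := integrable_mul_cont hf (cont_pl a P)
    have e : ∫ x, f x * χ ⟪x, a⟫ ∂(sph E) =
        ∫ x, (f x * χ ⟪x, a⟫ - f x * P.eval ⟪a, x⟫) ∂(sph E) := by
      rw [integral_sub i1 i2, h, sub_zero]
    rw [e, zero_add]
    have b : ∀ᵐ x ∂(sph E), ‖f x * χ ⟪x, a⟫ - f x * P.eval ⟪a, x⟫‖ ≤
        |f x| * (ε / (∫ x, |f x| ∂(sph E) + 1)) := by
      filter_upwards [ae_norm] with x hx
      rw [← mul_sub, Real.norm_eq_abs, abs_mul, abs_sub_comm, real_inner_comm a x]
      have := abs_real_inner_le_norm a x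
      rw [hx, mul_one] at this
      exact mul_le_mul_of_nonneg_left (hP _ (abs_le.1 this)).le (abs_nonneg _)
    refine (norm_integral_le_of_norm_le (hf.abs.mul_const _) b).trans ?_
    rw [integral_mul_const, mul_div_assoc', div_le_iff₀ (by positivity)]
    nlinarith
  have fin : ∀ u : E → ℝ, Integrable u (sph E) →
      IsFiniteMeasure ((sph E).withDensity fun x => (u x).toNNReal) := fun u hu =>
    isFiniteMeasure_withDensity hu.lintegral_lt_top.ne
  have := fin f hf
  have := fin _ hf.neg
  have h2 : ((sph E).withDensity fun x => (f x).toNNReal) =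
      (sph E).withDensity fun x => ((-f) x).toNNReal := by
    refine Measure.ext_of_charFun (funext fun a => ?_)
    have iC : ∀ u : E → ℝ, Integrable u (sph E) → Integrable
        (fun x => (u x).toNNReal • Complex.exp (⟪x, a⟫ * Complex.I)) (sph E) := by
      intro u hu
      refine Integrable.mono' hu.abs ?_ (Filter.Eventually.of_forall fun x => ?_)
      · exact (continuous_real_toNNReal.comp_aestronglyMeasurable hu.1).smul (by fun_prop)
      · rw [NNReal.smul_def, norm_smul, Complex.norm_exp_ofReal_mul_I]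
        simp only [Real.coe_toNNReal', Real.norm_eq_abs, mul_one]
        rw [abs_of_nonneg (le_max_right _ _)]
        exact max_le (le_abs_self _) (abs_nonneg _)
    rw [charFun_apply, charFun_apply, integral_withDensity_eq_integral_smul hm.real_toNNReal,
      integral_withDensity_eq_integral_smul hm.neg.real_toNNReal, ← sub_eq_zero,
      ← integral_sub (iC f hf) (iC _ hf.neg)]
    have e : ∀ x, (f x).toNNReal • Complex.exp (⟪x, a⟫ * Complex.I) -
        ((-f) x).toNNReal • Complex.exp (⟪x, a⟫ * Complex.I) =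
        ((f x * Real.cos ⟪x, a⟫ : ℝ) : ℂ) + ((f x * Real.sin ⟪x, a⟫ : ℝ) : ℂ) * Complex.I := by
      intro x
      rw [NNReal.smul_def, NNReal.smul_def, ← sub_smul, Complex.exp_mul_I, Real.coe_toNNReal',
        Real.coe_toNNReal', Pi.neg_apply, max_zero_sub_max_neg_zero_eq_self]
      simp [mul_assoc]
    simp only [e]
    rw [integral_add (integrable_mul_cont hf (by fun_prop)).ofReal
      ((integrable_mul_cont hf (by fun_prop)).ofReal.mul_const _), integral_mul_const,
      integral_complex_ofReal, integral_complex_ofReal,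
      h1 a _ Real.continuous_cos, h1 a _ Real.continuous_sin]
    simp
  have h3 := (withDensity_eq_iff_of_sigmaFinite hm.real_toNNReal.coe_nnreal_ennreal.aemeasurable
    hm.neg.real_toNNReal.coe_nnreal_ennreal.aemeasurable).1 h2
  filter_upwards [h3] with x hx
  have h4 : ((f x).toNNReal : ℝ) = ((-f) x).toNNReal := by rw [ENNReal.coe_injective hx]
  rw [Real.coe_toNNReal', Real.coe_toNNReal', Pi.neg_apply] at h4
  rw [← max_zero_sub_max_neg_zero_eq_self (f x), h4]
  simp

/-- the filtration by the degree -/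
def fil (j : ℕ) : Submodule ℝ (Lp ℝ 2 (sph E)) := ⨆ a : E, (degreeLT ℝ j).map (pl a)

theorem pl_mem_fil (a : E) {P : ℝ[X]} {j : ℕ} (h : P ∈ degreeLT ℝ j) : pl a P ∈ fil (E := E) j :=
  Submodule.mem_iSup_of_mem a (Submodule.mem_map_of_mem h)

theorem fil_mono : Monotone (fil (E := E)) := fun _ _ h =>
  iSup_mono fun _ => Submodule.map_mono (degreeLT_mono h)

theorem fil_induction {j : ℕ} {S : Submodule ℝ (Lp ℝ 2 (sph E))}
    (h : ∀ (a : E) (i : ℕ), i < j → pl a (X ^ i) ∈ S) : fil j ≤ S := by
  classical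
  refine iSup_le fun a => ?_
  rw [Submodule.map_le_iff_le_comap, degreeLT_eq_span_X_pow, Submodule.span_le]
  intro P hP
  simp only [Finset.coe_image, Finset.coe_range, mem_image, mem_Iio] at hP
  obtain ⟨i, hi, rfl⟩ := hP
  exact h a i hi

theorem fil_dense (f : Lp ℝ 2 (sph E)) (h : ∀ j, ∀ v ∈ fil (E := E) j, ⟪v, f⟫ = 0) : f = 0 := by
  rw [Lp.eq_zero_iff_ae_eq_zero]
  refine ae_zero_of_orth (Lp.stronglyMeasurable f).measurable
    ((Lp.memLp f).integrable one_le_two) fun a P => ?_
  rw [← inner_pl, real_inner_comm]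
  exact h (P.natDegree + 1) _ (pl_mem_fil a (mem_degreeLT.2
    (degree_le_natDegree.trans_lt (by exact_mod_cast Nat.lt_succ_self _))))

end Pool.Agent.BL.SA
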