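import Pool.Agent.P.MP_edb112_gt.Basic

/-! Extension of isometries of a subspace, averaging over subspaces, moments. -/

set_option autoImplicit false
set_option linter.unusedSectionVars false

open MeasureTheory Set Module
open scoped RealInnerProductSpace

noncomputable section

namespace Pool.Agent.BL.SA

variable {E : Type} [NormedAddCommGroup E] [InnerProductSpace ℝ E] [CompleteSpace E]
  [FiniteDimensional ℝ E]

section ext

variable (W : Submodule ℝ E) [CompleteSpace W]

/-- the extension by the identity, as a linear map -/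
def extL (k : G W) : E →L[ℝ] E :=
  1 - W.starProjection + W.subtypeL ∘L (k : W →L[ℝ] W) ∘L W.orthogonalProjectionOnto

theorem extL_apply (k : G W) (x : E) :
    extL W k x = (x - W.starProjection x) + ((ap k (W.orthogonalProjectionOnto x) : W) : E) := rfl

theorem norm_extL (k : G W) (x : E) : ‖extL W k x‖ = ‖x‖ := by
  have o := W.sub_starProjection_mem_orthogonal x
  have h1 : ∀ w : W, ‖(x - W.starProjection x) + (w : E)‖ ^ 2 =
      ‖x - W.starProjection x‖ ^ 2 + ‖w‖ ^ 2 := by
    intro w
    rw [norm_add_sq_real, real_inner_comm, Submodule.inner_right_of_mem_orthogonal w.2 o]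
    simp
  have h2 := h1 (W.orthogonalProjectionOnto x)
  have h3 : x - W.starProjection x + (W.orthogonalProjectionOnto x : E) = x := by
    rw [← Submodule.starProjection_apply]; abel
  rw [h3] at h2
  have h4 := h1 (ap k (W.orthogonalProjectionOnto x))
  rw [norm_ap, ← h2, ← extL_apply] at h4
  exact (sq_eq_sq₀ (norm_nonneg _) (norm_nonneg _)).1 h4

/-- the extension by the identity on the orthogonal complement -/
def ext (k : G W) : G E :=
  ofIso (LinearIsometry.toLinearIsometryEquiv
    ({ toLinearMap := (extL W k : E →ₗ[ℝ] E), norm_map' := norm_extL W k } : E →ₗᵢ[ℝ] E) rfl)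

theorem ap_ext (k : G W) (x : E) : ap (ext W k) x = extL W k x := rfl

theorem ap_ext_coe (k : G W) (w : W) : ap (ext W k) (w : E) = ((ap k w : W) : E) := by
  rw [ap_ext, extL_apply]
  simp [Submodule.starProjection_eq_self_iff.2 w.2]

theorem ap_ext_orth (k : G W) {x : E} (hx : x ∈ Wᗮ) : ap (ext W k) x = x := by
  have h : W.orthogonalProjectionOnto x = 0 :=
    Submodule.orthogonalProjectionOnto_apply_of_mem_orthogonal hx
  rw [ap_ext, extL_apply, Submodule.starProjection_apply, h]
  simp [ap]

theorem continuous_ext : Continuous (ext W) := by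
  refine continuous_induced_rng.2 ?_
  have : (Subtype.val ∘ ext W) = extL W := by
    funext k
    ext x
    rfl
  rw [this]
  unfold extL
  exact continuous_const.add (continuous_const.clm_comp
    (continuous_subtype_val.clm_comp continuous_const))

/-- averaging over the isometries of a subspace -/
theorem integral_ext {F : G E → ℝ} (hF : Measurable F) {C : ℝ} (hC : ∀ g, |F g| ≤ C) :
    ∫ g, F g ∂(haar E) = ∫ g, ∫ k, F (g * ext W k) ∂(haar W) ∂(haar E) := by
  have hm : Measurable fun p : G E × G W => F (p.1 * ext W p.2) :=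
    hF.comp (continuous_fst.mul ((continuous_ext W).comp continuous_snd)).measurable
  have hi : Integrable (fun p : G E × G W => F (p.1 * ext W p.2)) ((haar E).prod (haar W)) :=
    Integrable.of_bound hm.aestronglyMeasurable C (Filter.Eventually.of_forall fun p => hC _)
  rw [integral_integral_swap hi]
  have : ∀ k : G W, ∫ g, F (g * ext W k) ∂(haar E) = ∫ g, F g ∂(haar E) := fun k =>
    integral_mul_right_eq_self F _
  simp [this]

end ext

variable [MeasurableSpace E] [BorelSpace E]

theorem integral_neg_sph {f : E → ℝ} (hf : AEStronglyMeasurable f (sph E)) :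
    ∫ y, f (-y) ∂(sph E) = ∫ y, f y ∂(sph E) :=
  integral_comp_ap (ofIso (LinearIsometryEquiv.neg ℝ)) hf

theorem integrable_sph [Nontrivial E] {f : E → ℝ} (hf : Continuous f) : Integrable f (sph E) :=
  integrable_of_continuousOn hf.continuousOn

variable (E) in
/-- moments of a coordinate -/
def mom (i : ℕ) : ℝ := ∫ x, ⟪pt E, x⟫ ^ i ∂(sph E)

theorem integral_inner_pow [Nontrivial E] (b : E) (i : ℕ) :
    ∫ x, ⟪b, x⟫ ^ i ∂(sph E) = ‖b‖ ^ i * mom E i := by
  obtain ⟨x0, hx0⟩ := exists_norm_eq E zero_le_one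
  have hp := norm_pt hx0
  have h1 : ‖b‖ = ‖‖b‖ • pt E‖ := by rw [norm_smul, hp]; simp
  obtain ⟨g, hg, hg', -⟩ := exists_ap_eq h1
  rw [← integral_comp_ap g (f := fun x => ⟪b, x⟫ ^ i) (by fun_prop), mom, ← integral_const_mul]
  refine integral_congr_ae (Filter.Eventually.of_forall fun x => ?_)
  simp only
  conv_lhs => rw [← hg', inner_ap, real_inner_smul_left, mul_pow]

theorem mom_odd [Nontrivial E] {i : ℕ} (hi : Odd i) : mom E i = 0 := by
  have h := integral_neg_sph (E := E) (f := fun x => ⟪pt E, x⟫ ^ i) (by fun_prop)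
  simp only [inner_neg_right, hi.neg_pow, integral_neg] at h
  unfold mom
  linarith

theorem mom_zero : mom E 0 = 1 := by simp [mom]

theorem integral_inner_zero [Nontrivial E] (b : E) : ∫ x, ⟪b, x⟫ ∂(sph E) = 0 := by
  simpa [mom_odd (E := E) odd_one] using integral_inner_pow b 1

theorem mom_two [Nontrivial E] : mom E 2 = 1 / finrank ℝ E := by
  let b := stdOrthonormalBasis ℝ E
  have hn : (0 : ℝ) < finrank ℝ E := by exact_mod_cast finrank_pos
  have h1 : ∫ x, ∑ i, ⟪b i, x⟫ ^ 2 ∂(sph E) = 1 := by
    rw [← show ∫ _ : E, (1 : ℝ) ∂(sph E) = 1 by simp]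
    refine integral_congr_ae ?_
    filter_upwards [ae_norm] with x hx
    rw [b.sum_sq_inner_right, hx]
    norm_num
  rw [integral_finsetSum _ fun i _ => integrable_sph (by fun_prop)] at h1
  simp only [integral_inner_pow, b.orthonormal.1, one_pow, one_mul, Finset.sum_const,
    Finset.card_univ, Fintype.card_fin, nsmul_eq_mul] at h1
  field_simp
  linarith

theorem integral_inner_mul [Nontrivial E] (a b : E) :
    ∫ x, ⟪a, x⟫ * ⟪b, x⟫ ∂(sph E) = ⟪a, b⟫ / finrank ℝ E := by
  have h1 := integral_inner_pow (a + b) 2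
  have h2 := integral_inner_pow (a - b) 2
  have e : ∀ x : E, ⟪a, x⟫ * ⟪b, x⟫ = (⟪a + b, x⟫ ^ 2 - ⟪a - b, x⟫ ^ 2) / 4 := by
    intro x
    rw [inner_add_left, inner_sub_left]
    ring
  simp only [e]
  rw [integral_div, integral_sub (integrable_sph (by fun_prop)) (integrable_sph (by fun_prop)),
    h1, h2, mom_two, norm_add_sq_real, norm_sub_sq_real]
  ring

theorem mom_four_le [Nontrivial E] : mom E 4 ≤ 3 / (finrank ℝ E : ℝ) ^ 2 := by
  classical
  let b := stdOrthonormalBasis ℝ E
  have hn : (0 : ℝ) < finrank ℝ E := by exact_mod_cast finrank_pos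
  have h0 : 0 ≤ mom E 4 := integral_nonneg fun x => by positivity
  have hij : ∀ i j, mom E 4 / 3 ≤ ∫ x, ⟪b i, x⟫ ^ 2 * ⟪b j, x⟫ ^ 2 ∂(sph E) := by
    intro i j
    by_cases h : i = j
    · subst h
      have := integral_inner_pow (b i) 4
      rw [b.orthonormal.1, one_pow, one_mul] at this
      have e : ∀ x : E, ⟪b i, x⟫ ^ 2 * ⟪b i, x⟫ ^ 2 = ⟪b i, x⟫ ^ 4 := fun x => by ring
      simp only [e, this]
      linarith
    · have o : ⟪b i, b j⟫ = 0 := b.orthonormal.2 h
      have h1 := integral_inner_pow (b i + b j) 4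
      have h2 := integral_inner_pow (b i - b j) 4
      have h3 := integral_inner_pow (b i) 4
      have h4 := integral_inner_pow (b j) 4
      have n1 : ‖b i + b j‖ ^ 4 = 4 := by
        rw [show 4 = 2 * 2 from rfl, pow_mul, norm_add_sq_real, o, b.orthonormal.1,
          b.orthonormal.1]
        norm_num
      have n2 : ‖b i - b j‖ ^ 4 = 4 := by
        rw [show 4 = 2 * 2 from rfl, pow_mul, norm_sub_sq_real, o, b.orthonormal.1,
          b.orthonormal.1]
        norm_num
      have e : ∀ x : E, ⟪b i, x⟫ ^ 2 * ⟪b j, x⟫ ^ 2 = ((⟪b i + b j, x⟫ ^ 4 + ⟪b i - b j, x⟫ ^ 4) -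
          (2 * ⟪b i, x⟫ ^ 4 + 2 * ⟪b j, x⟫ ^ 4)) / 12 := by
        intro x
        rw [inner_add_left, inner_sub_left]
        ring
      simp only [e]
      rw [integral_div, integral_sub (integrable_sph (by fun_prop)) (integrable_sph (by fun_prop)),
        integral_add (integrable_sph (by fun_prop)) (integrable_sph (by fun_prop)),
        integral_add (integrable_sph (by fun_prop)) (integrable_sph (by fun_prop)),
        integral_const_mul, integral_const_mul, h1, h2, h3, h4, n1, n2, b.orthonormal.1,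
        b.orthonormal.1]
      linarith
  have h1 : ∫ x, ∑ i, ∑ j, ⟪b i, x⟫ ^ 2 * ⟪b j, x⟫ ^ 2 ∂(sph E) = 1 := by
    rw [← show ∫ _ : E, (1 : ℝ) ∂(sph E) = 1 by simp]
    refine integral_congr_ae ?_
    filter_upwards [ae_norm] with x hx
    rw [← Finset.sum_mul_sum, b.sum_sq_inner_right, hx]
    norm_num
  rw [integral_finsetSum _ fun i _ => integrable_sph (by fun_prop)] at h1
  have h2 : ∑ _i : Fin (finrank ℝ E), ∑ _j : Fin (finrank ℝ E), mom E 4 / 3 ≤ 1 := by
    rw [← h1]
    refine Finset.sum_le_sum fun i _ => ?_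
    rw [integral_finsetSum _ fun j _ => integrable_sph (by fun_prop)]
    exact Finset.sum_le_sum fun j _ => hij i j
  simp only [Finset.sum_const, Finset.card_univ, Fintype.card_fin, nsmul_eq_mul] at h2
  rw [le_div_iff₀ (by positivity)]
  nlinarith

end Pool.Agent.BL.SA
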