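import Mathlib

/-! A self-adjoint operator that is triangular for a dense filtration. -/

set_option autoImplicit false

open Filter Topology
open scoped RealInnerProductSpace

namespace Pool.Agent.BL.SA

theorem spec_bound {H : Type*} [NormedAddCommGroup H] [InnerProductSpace ℝ H] [CompleteSpace H]
    (T : H →L[ℝ] H) (hT : ∀ x y, ⟪T x, y⟫ = ⟪x, T y⟫) (V : ℕ → Submodule ℝ H)
    (hmono : Monotone V) (lam : ℕ → ℝ) (htri : ∀ j, ∀ v ∈ V (j + 1), T v - lam j • v ∈ V j)
    (h0 : ∀ v ∈ V 0, v = 0) (hd : ∀ f, (∀ j, ∀ v ∈ V j, ⟪v, f⟫ = 0) → f = 0)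
    (J : ℕ) (c : ℝ) (hc : ∀ j, J ≤ j → |lam j| ≤ c) (f : H) (hf : ∀ v ∈ V J, ⟪v, f⟫ = 0) :
    |⟪f, T f⟫| ≤ c * ‖f‖ ^ 2 := by
  let U : ℕ → Submodule ℝ H := fun j => (V j).topologicalClosure
  have hUc : ∀ j, IsClosed (U j : Set H) := fun j => (V j).isClosed_topologicalClosure
  have : ∀ j, CompleteSpace (U j) := fun j => (hUc j).completeSpace_coe
  have hUm : Monotone U := fun i j h => Submodule.topologicalClosure_mono (hmono h)
  have hU1 : ∀ j, ∀ v ∈ U (j + 1), T v - lam j • v ∈ U j := by
    intro j v hv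
    have hcont : Continuous fun v : H => T v - lam j • v := by fun_prop
    exact map_mem_closure (f := fun v : H => T v - lam j • v) (t := (V j : Set H)) hcont hv
      fun w hw => htri j w hw
  have hU2 : ∀ j, ∀ v ∈ U j, T v ∈ U j := by
    intro j v hv
    refine map_mem_closure (t := (V j : Set H)) T.continuous hv fun w hw => ?_
    cases j with
    | zero => rw [h0 w hw, map_zero]; exact zero_mem _
    | succ j =>
      have h1 := hmono (Nat.le_succ j) (htri j w hw)
      have h2 : T w = (T w - lam j • w) + lam j • w := by abel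
      change T w ∈ V (j + 1)
      rw [h2]
      exact add_mem h1 (Submodule.smul_mem _ _ hw)
  have horth : ∀ j (g : H), (∀ v ∈ V j, ⟪v, g⟫ = 0) → ∀ v ∈ U j, ⟪v, g⟫ = 0 := by
    intro j g hg v hv
    have hcl : IsClosed {v : H | ⟪v, g⟫ = 0} := isClosed_eq (by fun_prop) continuous_const
    exact closure_minimal (s := (V j : Set H)) (fun w hw => hg w hw) hcl hv
  have key : ∀ N, J ≤ N → ∀ g ∈ U N, (∀ v ∈ U J, ⟪v, g⟫ = 0) → |⟪g, T g⟫| ≤ c * ‖g‖ ^ 2 := by
    intro N hN
    induction N, hN using Nat.le_induction with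
    | base =>
      intro g hg hg'
      have : g = 0 := inner_self_eq_zero.1 (hg' g hg)
      simp [this]
    | succ N hN ih =>
      intro g hg hg'
      set g1 := (U N).starProjection g with hg1
      have m1 : g1 ∈ U N := (U N).starProjection_apply_mem g
      set g2 := g - g1 with hg2
      have o2 : ∀ v ∈ U N, ⟪v, g2⟫ = 0 := fun v hv =>
        Submodule.inner_right_of_mem_orthogonal hv ((U N).sub_starProjection_mem_orthogonal g)
      have m2 : g2 ∈ U (N + 1) := sub_mem hg (hUm (Nat.le_succ N) m1)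
      have e : g = g1 + g2 := by rw [hg2]; abel
      have o1 : ∀ v ∈ U J, ⟪v, g1⟫ = 0 := by
        intro v hv
        have h1 := hg' v hv
        rw [e, inner_add_right, o2 v (hUm hN hv)] at h1
        simpa using h1
      have hT2 : T g2 = lam N • g2 := by
        have h1 := hU1 N g2 m2
        have h2 : ⟪T g2 - lam N • g2, T g2 - lam N • g2⟫ = 0 := by
          conv_lhs => rw [inner_sub_right, ← hT, real_inner_smul_right]
          rw [o2 _ (hU2 N _ h1), o2 _ h1]
          simp
        exact sub_eq_zero.1 (inner_self_eq_zero.1 h2)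
      have o12 : ⟪g1, g2⟫ = 0 := o2 g1 m1
      have e1 : ⟪g, T g⟫ = ⟪g1, T g1⟫ + lam N * ‖g2‖ ^ 2 := by
        conv_lhs => rw [e]
        rw [map_add, inner_add_left, inner_add_right, inner_add_right, hT2,
          real_inner_smul_right, real_inner_smul_right, o12, real_inner_self_eq_norm_sq,
          real_inner_comm (T g1) g2, o2 _ (hU2 N _ m1)]
        ring
      have e2 : ‖g‖ ^ 2 = ‖g1‖ ^ 2 + ‖g2‖ ^ 2 := by
        conv_lhs => rw [e]
        rw [norm_add_sq_real, o12]
        ring
      have h3 := ih g1 m1 o1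
      have h4 : |lam N * ‖g2‖ ^ 2| ≤ c * ‖g2‖ ^ 2 := by
        rw [abs_mul, abs_of_nonneg (sq_nonneg ‖g2‖)]
        exact mul_le_mul_of_nonneg_right (hc N hN) (sq_nonneg _)
      rw [e1, e2, mul_add]
      exact (abs_add_le _ _).trans (add_le_add h3 h4)
  have htop : ⊤ ≤ (⨆ j, U j).topologicalClosure := by
    rw [top_le_iff, Submodule.topologicalClosure_eq_top_iff, eq_bot_iff]
    intro g hg
    rw [Submodule.mem_bot]
    refine hd g fun j v hv => ?_
    exact Submodule.inner_right_of_mem_orthogonal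
      (Submodule.mem_iSup_of_mem j ((V j).le_topologicalClosure hv)) hg
  have hlim := Submodule.starProjection_tendsto_self U hUm f htop
  have l1 : Tendsto (fun N => |⟪(U N).starProjection f, T ((U N).starProjection f)⟫|) atTop
      (𝓝 |⟪f, T f⟫|) := (hlim.inner ((T.continuous.tendsto f).comp hlim)).abs
  have l2 : Tendsto (fun N => c * ‖(U N).starProjection f‖ ^ 2) atTop (𝓝 (c * ‖f‖ ^ 2)) :=
    (hlim.norm.pow 2).const_mul c
  refine le_of_tendsto_of_tendsto l1 l2 ?_
  filter_upwards [eventually_ge_atTop J] with N hN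
  refine key N hN _ ((U N).starProjection_apply_mem f) fun v hv => ?_
  have h1 := Submodule.inner_right_of_mem_orthogonal (hUm hN hv)
    ((U N).sub_starProjection_mem_orthogonal f)
  rw [inner_sub_right, horth J f hf v hv] at h1
  linarith

end Pool.Agent.BL.SA
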