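import Pool.Agent.P.MP_edb112_gt.BLLevA
import Pool.Agent.P.MP_edb112_gt.Density

/-! The pair operator and its action on the polynomial levels. -/

set_option autoImplicit false
set_option linter.unusedSectionVars false

open MeasureTheory Set Module Filter
open scoped RealInnerProductSpace Topology

noncomputable section

namespace Pool.Agent.BL.Lev

variable {E : Type} [NormedAddCommGroup E] [InnerProductSpace ℝ E] [CompleteSpace E]
  [FiniteDimensional ℝ E] [MeasurableSpace E] [BorelSpace E]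

section Moments

variable [Nontrivial E]

variable (E) in
/-- moments of a coordinate -/
def mom (m : ℕ) : ℝ := ∫ u, ⟪pt E, u⟫ ^ m ∂(sph E)

theorem norm_pt' : ‖pt E‖ = 1 := by
  obtain ⟨x, hx⟩ := exists_norm_eq E zero_le_one
  exact norm_pt hx

theorem int_pow (b : E) (m : ℕ) : Integrable (fun u => ⟪b, u⟫ ^ m) (sph E) :=
  integrable_of_continuousOn (by fun_prop)

theorem integral_pow (b : E) (m : ℕ) : ∫ u, ⟪b, u⟫ ^ m ∂(sph E) = ‖b‖ ^ m * mom E m := by
  obtain ⟨g, -, h, -⟩ := exists_ap_eq (x := b) (y := ‖b‖ • pt E) (by simp [norm_smul, norm_pt'])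
  rw [← integral_comp_ap g (int_pow b m).1, mom, ← integral_const_mul]
  congr 1
  funext x
  conv_lhs => rw [← h, inner_ap, inner_smul_left]
  simp [mul_pow]

theorem mom_odd {m : ℕ} (hm : Odd m) : mom E m = 0 := by
  have h := integral_pow (-pt E) m
  simp only [inner_neg_left, hm.neg_pow, integral_neg, norm_neg, norm_pt', one_pow, one_mul] at h
  have e : ∫ u, ⟪pt E, u⟫ ^ m ∂(sph E) = mom E m := rfl
  linarith

theorem mom_zero : mom E 0 = 1 := by simp [mom]

theorem mom_two : mom E 2 = 1 / finrank ℝ E := by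
  rw [mom, integral_inner_sq, norm_pt', one_pow]

variable (E) in
/-- coefficients of the averaged power -/
def co (r s : ℝ) (j m : ℕ) : ℝ := (j.choose m : ℝ) * r ^ (j - m) * s ^ m * mom E m

variable (E) in
/-- eigenvalues of the pair operator -/
def lv (r s : ℝ) (j : ℕ) : ℝ := ∑ m ∈ Finset.range (j + 1), co E r s j m * (-1) ^ (m / 2)

theorem integral_add_pow (r s α : ℝ) (b : E) (j : ℕ) :
    ∫ u, (r * α + s * ⟪b, u⟫) ^ j ∂(sph E) =
      ∑ m ∈ Finset.range (j + 1), co E r s j m * (α ^ (j - m) * (‖b‖ ^ 2) ^ (m / 2)) := by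
  have e : ∀ u, (r * α + s * ⟪b, u⟫) ^ j = ∑ m ∈ Finset.range (j + 1),
      ((j.choose m : ℝ) * r ^ (j - m) * s ^ m * α ^ (j - m)) * ⟪b, u⟫ ^ m := by
    intro u
    rw [add_comm, add_pow]
    exact Finset.sum_congr rfl fun m _ => by ring
  simp only [e]
  rw [integral_finsetSum _ fun m _ => (int_pow b m).const_mul _]
  refine Finset.sum_congr rfl fun m _ => ?_
  rw [integral_const_mul, integral_pow, co]
  rcases Nat.even_or_odd m with hm | hm
  · rw [← pow_mul, Nat.two_mul_div_two_of_even hm]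
    ring
  · simp [mom_odd hm]

theorem abs_lv_le (r s : ℝ) (j : ℕ) :
    |lv E r s j| ≤ ∫ u, √(r ^ 2 + s ^ 2 * ⟪pt E, u⟫ ^ 2) ^ j ∂(sph E) := by
  have e : ∀ u, ((r : ℂ) + Complex.I * (s * (⟪pt E, u⟫ : ℝ))) ^ j = ∑ m ∈ Finset.range (j + 1),
      ((j.choose m : ℂ) * r ^ (j - m) * s ^ m * Complex.I ^ m) * ((⟪pt E, u⟫ ^ m : ℝ) : ℂ) := by
    intro u
    rw [add_comm, add_pow]
    exact Finset.sum_congr rfl fun m _ => by push_cast; ring
  have h : ∫ u, ((r : ℂ) + Complex.I * (s * (⟪pt E, u⟫ : ℝ))) ^ j ∂(sph E) = (lv E r s j : ℝ) := by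
    simp only [e]
    rw [integral_finsetSum _ fun m _ => (int_pow (pt E) m).ofReal.const_mul _, lv]
    push_cast
    refine Finset.sum_congr rfl fun m _ => ?_
    rw [integral_const_mul]
    have e2 : ∫ u, ((⟪pt E, u⟫ : ℝ) : ℂ) ^ m ∂(sph E) = (mom E m : ℝ) := by
      rw [mom, ← integral_complex_ofReal]
      simp
    rw [e2, co]
    rcases Nat.even_or_odd m with hm | hm
    · have : Complex.I ^ m = (-1) ^ (m / 2) := by
        rw [← Complex.I_sq, ← pow_mul, Nat.two_mul_div_two_of_even hm]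
      rw [this]
      push_cast
      ring
    · simp [mom_odd hm]
  rw [← Real.norm_eq_abs, ← Complex.norm_real, ← h]
  refine (norm_integral_le_integral_norm _).trans (le_of_eq ?_)
  congr 1
  funext u
  rw [norm_pow, Complex.norm_eq_sqrt_sq_add_sq]
  congr 2
  simp
  ring

theorem lv_zero (r s : ℝ) : lv E r s 0 = 1 := by simp [lv, co, mom_zero]

theorem lv_one (r s : ℝ) : lv E r s 1 = r := by
  simp [lv, co, Finset.sum_range_succ, mom_zero, mom_odd odd_one]

theorem ae_sq_le : ∀ᵐ u ∂(sph E), ⟪pt E, u⟫ ^ 2 ≤ 1 := by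
  filter_upwards [ae_norm] with u hu
  rw [sq_le_one_iff_abs_le_one]
  simpa [norm_pt', hu] using abs_real_inner_le_norm (pt E) u

theorem abs_lv_le_gap {r s : ℝ} (h : r ^ 2 + s ^ 2 = 1) {j : ℕ} (hj : 1 ≤ j) :
    |lv E r s j| ≤ |r| + 1 / √(finrank ℝ E) := by
  have hn : (0 : ℝ) < finrank ℝ E := by exact_mod_cast finrank_pos
  have hq : 0 < √(finrank ℝ E) := Real.sqrt_pos.2 hn
  set q := √(finrank ℝ E) with hqd
  have hqq : q * q = finrank ℝ E := Real.mul_self_sqrt hn.le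
  refine (abs_lv_le r s j).trans ?_
  calc _ ≤ ∫ u, (|r| + 1 / (2 * q)) + q / 2 * ⟪pt E, u⟫ ^ 2 ∂(sph E) := by
        refine integral_mono_ae (integrable_of_continuousOn (by fun_prop))
          (integrable_of_continuousOn (by fun_prop)) ?_
        filter_upwards [ae_sq_le] with u hu
        set ξ := ⟪pt E, u⟫
        have h1 : √(r ^ 2 + s ^ 2 * ξ ^ 2) ≤ 1 := by
          exact Real.sqrt_le_one.2 (by nlinarith [sq_nonneg s])
        have h2 : √(r ^ 2 + s ^ 2 * ξ ^ 2) ≤ |r| + |ξ| := by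
          rw [Real.sqrt_le_left (by positivity), add_sq, sq_abs, sq_abs]
          have := mul_nonneg (abs_nonneg r) (abs_nonneg ξ)
          nlinarith [sq_nonneg r, sq_nonneg ξ]
        have h3 : |ξ| ≤ 1 / (2 * q) + q / 2 * ξ ^ 2 := by
          rw [← sq_abs ξ, ← sub_nonneg]
          have : 1 / (2 * q) + q / 2 * |ξ| ^ 2 - |ξ| = (q * |ξ| - 1) ^ 2 / (2 * q) := by
            field_simp
            ring
          rw [this]
          positivity
        have h4 := pow_le_of_le_one (Real.sqrt_nonneg _) h1 (by omega : j ≠ 0)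
        linarith
    _ = _ := by
        rw [integral_add (integrable_const _) ((int_pow _ 2).const_mul _), integral_const_mul,
          integral_inner_sq, norm_pt', ← hqq]
        simp only [integral_const, probReal_univ, smul_eq_mul]
        field_simp
        ring

theorem abs_lv_le_high {r s : ℝ} (h : r ^ 2 + s ^ 2 = 1) (hr : |r| ≤ 0.52) {J j : ℕ}
    (hj : 2 * J ≤ j) : |lv E r s j| ≤ (1 / 2) ^ J + 5 / finrank ℝ E := by
  refine (abs_lv_le r s j).trans ?_
  calc _ ≤ ∫ u, (1 / 2) ^ J + 5 * ⟪pt E, u⟫ ^ 2 ∂(sph E) := by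
        refine integral_mono_ae (integrable_of_continuousOn (by fun_prop))
          (integrable_of_continuousOn (by fun_prop)) ?_
        filter_upwards [ae_sq_le] with u hu
        set ξ := ⟪pt E, u⟫
        have h0 : 0 ≤ r ^ 2 + s ^ 2 * ξ ^ 2 := by positivity
        have h1 : r ^ 2 + s ^ 2 * ξ ^ 2 ≤ 1 := by nlinarith [sq_nonneg s]
        have h2 : √(r ^ 2 + s ^ 2 * ξ ^ 2) ^ j ≤ (r ^ 2 + s ^ 2 * ξ ^ 2) ^ J := by
          calc _ ≤ √(r ^ 2 + s ^ 2 * ξ ^ 2) ^ (2 * J) :=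
                pow_le_pow_of_le_one (Real.sqrt_nonneg _) (Real.sqrt_le_one.2 h1) hj
            _ = _ := by rw [pow_mul, Real.sq_sqrt h0]
        refine h2.trans ?_
        rcases le_total (r ^ 2 + s ^ 2 * ξ ^ 2) (1 / 2) with h3 | h3
        · have := pow_le_pow_left₀ h0 h3 J
          nlinarith [sq_nonneg ξ]
        · have h4 := pow_le_one₀ (n := J) h0 h1
          have h5 : r ^ 2 ≤ 0.52 ^ 2 := by
            rw [← sq_abs]
            gcongr
          have h6 : (0 : ℝ) ≤ (1 / 2) ^ J := by positivity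
          nlinarith [sq_nonneg r, sq_nonneg ξ]
    _ = _ := by
        rw [integral_add (integrable_const _) ((int_pow _ 2).const_mul _), integral_const_mul,
          integral_inner_sq, norm_pt']
        simp only [integral_const, probReal_univ, smul_eq_mul]
        ring

end Moments

theorem nontrivial_orth (hn : 2 ≤ finrank ℝ E) {y : E} (hy : ‖y‖ = 1) : Nontrivial (ℝ ∙ y)ᗮ :=
  (Module.finrank_pos_iff (R := ℝ)).1 (by have := finrank_orth hy; omega)

/-- averaging over the stabiliser of the second point -/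
theorem integral_pair_pow (hn : 2 ≤ finrank ℝ E) [Nontrivial E] {x y : E} (hx : ‖x‖ = 1)
    (hy : ‖y‖ = 1) (a : E) (j : ℕ) {h : E → ℝ} (hh : Integrable h (sph E)) :
    ∫ g, ⟪a, ap g x⟫ ^ j * h (ap g y) ∂(haar E) =
      ∫ z, (∑ m ∈ Finset.range (j + 1), co (ℝ ∙ y)ᗮ ⟪y, x⟫ √(1 - ⟪y, x⟫ ^ 2) j m *
        (⟪a, z⟫ ^ (j - m) * (‖a‖ ^ 2 - ⟪a, z⟫ ^ 2) ^ (m / 2))) * h z ∂(sph E) := by
  have := nontrivial_orth hn hy
  set r := ⟪y, x⟫ with hr
  set s := √(1 - r ^ 2) with hs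
  have hr1 : r ^ 2 ≤ 1 := by
    rw [sq_le_one_iff_abs_le_one]
    simpa [hx, hy] using abs_real_inner_le_norm y x
  have hss : s ^ 2 = 1 - r ^ 2 := Real.sq_sqrt (by linarith)
  have hz : ∀ u : (ℝ ∙ y)ᗮ, ‖u‖ = 1 → ‖r • y + ((s • u : (ℝ ∙ y)ᗮ) : E)‖ = 1 := by
    intro u hu
    have := Den.norm_split hy r (s • u)
    rw [norm_smul, hu, mul_one, Real.norm_eq_abs, sq_abs, hss] at this
    exact (sq_eq_sq₀ (norm_nonneg _) zero_le_one).1 (by rw [this]; ring)
  have h1 : ∀ u : (ℝ ∙ y)ᗮ, ‖u‖ = 1 → ∫ g, ⟪a, ap g x⟫ ^ j * h (ap g y) ∂(haar E) =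
      ∫ g, ⟪a, ap g (r • y + ((s • u : (ℝ ∙ y)ᗮ) : E))⟫ ^ j * h (ap g y) ∂(haar E) := by
    intro u hu
    obtain ⟨k, k1, -, k2⟩ := exists_ap_eq (hx.trans (hz u hu).symm)
    have k3 : ap k y = y := k2 y (by
      rw [real_inner_comm, inner_sub_right, Den.inner_split hy, sub_self])
    rw [← integral_mul_right_eq_self (fun g => ⟪a, ap g x⟫ ^ j * h (ap g y)) k]
    simp only [ap_mul, k1, k3]
  have hi : Integrable (fun g => h (ap g y)) (haar E) :=
    ((measurePreserving_ap hy).integrable_comp hh.1).2 hh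
  have h2 : Integrable (Function.uncurry fun (u : (ℝ ∙ y)ᗮ) (g : G E) =>
      ⟪a, ap g (r • y + ((s • u : (ℝ ∙ y)ᗮ) : E))⟫ ^ j * h (ap g y))
      ((sph (ℝ ∙ y)ᗮ).prod (haar E)) := by
    refine Integrable.bdd_mul (c := ‖a‖ ^ j) (hi.comp_snd _)
      (Continuous.aestronglyMeasurable (by fun_prop)) ?_
    filter_upwards [Measure.quasiMeasurePreserving_fst.ae (ae_norm (E := (ℝ ∙ y)ᗮ))] with p hp
    rw [norm_pow]
    gcongr
    refine (norm_inner_le_norm _ _).trans ?_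
    rw [norm_ap, hz _ hp, mul_one]
  calc _ = ∫ u, ∫ g, ⟪a, ap g (r • y + ((s • u : (ℝ ∙ y)ᗮ) : E))⟫ ^ j * h (ap g y) ∂(haar E)
        ∂(sph (ℝ ∙ y)ᗮ) := by
        rw [← integral_congr_ae (ae_norm.mono h1)]
        simp
    _ = ∫ g, ∫ u, ⟪a, ap g (r • y + ((s • u : (ℝ ∙ y)ᗮ) : E))⟫ ^ j * h (ap g y) ∂(sph (ℝ ∙ y)ᗮ)
        ∂(haar E) := integral_integral_swap h2
    _ = ∫ g, (∑ m ∈ Finset.range (j + 1), co (ℝ ∙ y)ᗮ r s j m *
        (⟪a, ap g y⟫ ^ (j - m) * (‖a‖ ^ 2 - ⟪a, ap g y⟫ ^ 2) ^ (m / 2))) * h (ap g y)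
        ∂(haar E) := by
        congr 1
        funext g
        rw [integral_mul_const]
        congr 1
        have e1 : ⟪a, ap g y⟫ = ⟪y, ap g⁻¹ a⟫ := by rw [← inner_ap_left, real_inner_comm]
        have e2 : ‖a‖ ^ 2 - ⟪a, ap g y⟫ ^ 2 = ‖Den.pr hy (ap g⁻¹ a)‖ ^ 2 := by
          rw [e1, ← norm_ap g⁻¹ a, Den.norm_pr hy]
          ring
        rw [e2, ← integral_add_pow]
        congr 1
        funext u
        congr 1
        rw [ap_add, ap_smul, inner_add_right, real_inner_smul_right, Submodule.coe_smul, ap_smul,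
          real_inner_smul_right, Submodule.coe_inner, Den.pr_coe, inner_sub_left,
          real_inner_smul_left, Submodule.mem_orthogonal_singleton_iff_inner_right.1 u.2,
          real_inner_comm (ap g u), inner_ap_left g u, real_inner_comm (u : E)]
        ring
    _ = _ := integral_ap hy (f := fun z => (∑ m ∈ Finset.range (j + 1), co (ℝ ∙ y)ᗮ r s j m *
        (⟪a, z⟫ ^ (j - m) * (‖a‖ ^ 2 - ⟪a, z⟫ ^ 2) ^ (m / 2))) * h z)
        ((Continuous.aestronglyMeasurable (by fun_prop)).mul hh.1)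

section Op

variable [Nontrivial E]

/-- evaluation along the orbit of a point -/
def cx {x : E} (hx : ‖x‖ = 1) : Lp ℝ 2 (sph E) →L[ℝ] Lp ℝ 2 (haar E) :=
  (Lp.compMeasurePreservingₗᵢ ℝ (fun g => ap g x) (measurePreserving_ap hx)).toContinuousLinearMap

theorem coe_cx {x : E} (hx : ‖x‖ = 1) {u : Lp ℝ 2 (sph E)} {f : E → ℝ} (hu : u =ᵐ[sph E] f) :
    cx hx u =ᵐ[haar E] fun g => f (ap g x) :=
  (Lp.coeFn_compMeasurePreserving u (measurePreserving_ap hx)).trans
    ((measurePreserving_ap hx).quasiMeasurePreserving.ae_eq_comp hu)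

theorem norm_cx {x : E} (hx : ‖x‖ = 1) (u : Lp ℝ 2 (sph E)) : ‖cx hx u‖ = ‖u‖ :=
  LinearIsometry.norm_map _ u

theorem inner_eq {α : Type} [MeasurableSpace α] {μ : Measure α} {u v : Lp ℝ 2 μ} {f h : α → ℝ}
    (hu : u =ᵐ[μ] f) (hv : v =ᵐ[μ] h) : ⟪u, v⟫ = ∫ z, f z * h z ∂μ := by
  rw [L2.inner_def]
  refine integral_congr_ae ?_
  filter_upwards [hu, hv] with z h1 h2
  rw [h1, h2, mul_comm]
  rfl

theorem norm_eq {α : Type} [MeasurableSpace α] {μ : Measure α} {u : Lp ℝ 2 μ} {f : α → ℝ}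
    (hu : u =ᵐ[μ] f) : ‖u‖ = √(∫ z, f z ^ 2 ∂μ) := by
  rw [norm_eq_sqrt_real_inner, inner_eq hu hu]
  simp only [sq]

/-- the pair operator -/
def pairOp {x y : E} (hx : ‖x‖ = 1) (hy : ‖y‖ = 1) : Lp ℝ 2 (sph E) →L[ℝ] Lp ℝ 2 (sph E) :=
  (ContinuousLinearMap.adjoint (cx hy)).comp (cx hx)

variable {x y : E} (hx : ‖x‖ = 1) (hy : ‖y‖ = 1)

theorem inner_pairOp {u v : Lp ℝ 2 (sph E)} {f h : E → ℝ} (hu : u =ᵐ[sph E] f)
    (hv : v =ᵐ[sph E] h) :
    ⟪pairOp hx hy u, v⟫ = ∫ g, f (ap g x) * h (ap g y) ∂(haar E) := by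
  rw [pairOp, ContinuousLinearMap.comp_apply, ContinuousLinearMap.adjoint_inner_left,
    inner_eq (coe_cx hx hu) (coe_cx hy hv)]

include hx hy in
theorem integral_pair_swap (f h : E → ℝ) :
    ∫ g, f (ap g x) * h (ap g y) ∂(haar E) = ∫ g, h (ap g x) * f (ap g y) ∂(haar E) := by
  obtain ⟨k, k1, k2, -⟩ := exists_ap_eq (hx.trans hy.symm)
  rw [← integral_mul_right_eq_self (fun g => f (ap g x) * h (ap g y)) k]
  simp only [ap_mul, k1, k2, mul_comm]

theorem pairOp_symm (u v : Lp ℝ 2 (sph E)) : ⟪pairOp hx hy u, v⟫ = ⟪u, pairOp hx hy v⟫ := by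
  rw [real_inner_comm _ u, inner_pairOp hx hy (EventuallyEq.refl _ _) (EventuallyEq.refl _ _),
    inner_pairOp hx hy (EventuallyEq.refl _ _) (EventuallyEq.refl _ _), integral_pair_swap hx hy]

theorem norm_pairOp_le (u : Lp ℝ 2 (sph E)) : ‖pairOp hx hy u‖ ≤ ‖u‖ := by
  have h : ‖pairOp hx hy u‖ * ‖pairOp hx hy u‖ ≤ ‖u‖ * ‖pairOp hx hy u‖ := by
    rw [← real_inner_self_eq_norm_mul_norm]
    nth_rw 1 [pairOp]
    rw [ContinuousLinearMap.comp_apply, ContinuousLinearMap.adjoint_inner_left]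
    refine (real_inner_le_norm _ _).trans ?_
    rw [norm_cx, norm_cx]
  rcases (norm_nonneg (pairOp hx hy u)).eq_or_lt with h0 | h0
  · rw [← h0]
    exact norm_nonneg _
  · exact le_of_mul_le_mul_right h h0

theorem lower_mem (a : E) (A : ℝ) (l : ℕ) : ∀ i : ℕ,
    lf a ^ l * (A • 1 - lf a ^ 2) ^ i - ((-1 : ℝ) ^ i) • lf a ^ (l + 2 * i) ∈ VF E (l + 2 * i) := by
  intro i
  induction i generalizing l with
  | zero => simp
  | succ i ih =>
    have e : lf a ^ l * (A • 1 - lf a ^ 2) ^ (i + 1) - ((-1 : ℝ) ^ (i + 1)) • lf a ^ (l + 2 * (i + 1))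
        = A • (lf a ^ l * (A • 1 - lf a ^ 2) ^ i - ((-1 : ℝ) ^ i) • lf a ^ (l + 2 * i)) +
          (A * (-1 : ℝ) ^ i) • lf a ^ (l + 2 * i) -
          (lf a ^ (l + 2) * (A • 1 - lf a ^ 2) ^ i - ((-1 : ℝ) ^ i) • lf a ^ (l + 2 + 2 * i)) := by
      ext z
      simp
      ring
    rw [e]
    exact Submodule.sub_mem _ (Submodule.add_mem _
      (Submodule.smul_mem _ _ (VF_mono (by omega) (ih l)))
      (Submodule.smul_mem _ _ (pow_mem a (by omega)))) (VF_mono (by omega) (ih (l + 2)))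

/-- the eigenvalues for the pair `x, y` -/
def lvp (x y : E) (j : ℕ) : ℝ := lv (ℝ ∙ y)ᗮ ⟪y, x⟫ √(1 - ⟪y, x⟫ ^ 2) j

theorem pairOp_pow (hn : 2 ≤ finrank ℝ E) (a : E) (j : ℕ) : ∃ q ∈ VF E j,
    pairOp hx hy (toL (lf a ^ j)) = toL q + lvp x y j • toL (lf a ^ j) := by
  have := nontrivial_orth hn hy
  refine ⟨∑ m ∈ Finset.range (j + 1), co (ℝ ∙ y)ᗮ ⟪y, x⟫ √(1 - ⟪y, x⟫ ^ 2) j m •
    (lf a ^ (j - m) * ((‖a‖ ^ 2) • 1 - lf a ^ 2) ^ (m / 2) - ((-1 : ℝ) ^ (m / 2)) • lf a ^ j),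
    Submodule.sum_mem _ fun m hm => ?_, ?_⟩
  · rcases Nat.even_or_odd m with h | h
    · have e : j - m + 2 * (m / 2) = j := by
        rw [Nat.two_mul_div_two_of_even h]
        have := Finset.mem_range.1 hm
        omega
      have := lower_mem a (‖a‖ ^ 2) (j - m) (m / 2)
      rw [e] at this
      exact Submodule.smul_mem _ _ this
    · simp [co, mom_odd h]
  · rw [← map_smul, ← map_add]
    refine ext_inner_right ℝ fun v => ?_
    rw [inner_pairOp hx hy (coe_toL _) (EventuallyEq.refl _ _),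
      inner_eq (coe_toL _) (EventuallyEq.refl _ _)]
    simp only [ContinuousMap.pow_apply, lf_apply]
    rw [integral_pair_pow hn hx hy a j ((Lp.memLp v).integrable one_le_two)]
    congr 1
    funext z
    congr 1
    simp only [lvp, lv, ContinuousMap.add_apply, ContinuousMap.sum_apply, ContinuousMap.smul_apply,
      ContinuousMap.sub_apply, ContinuousMap.mul_apply, ContinuousMap.pow_apply, lf_apply,
      ContinuousMap.one_apply, smul_eq_mul, Finset.sum_mul, ← Finset.sum_add_distrib]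
    exact Finset.sum_congr rfl fun m _ => by ring

theorem pairOp_tri (hn : 2 ≤ finrank ℝ E) (j : ℕ) (v : Lp ℝ 2 (sph E)) (hv : v ∈ W E (j + 1)) :
    pairOp hx hy v - lvp x y j • v ∈ W E j := by
  refine W_induction (P := fun v => pairOp hx hy v - lvp x y j • v ∈ W E j)
    ((Submodule.isClosed_topologicalClosure _).preimage (f := fun v => pairOp hx hy v - lvp x y j • v)
      (by fun_prop)) (fun p hp => ?_) hv
  induction hp using Submodule.span_induction with
  | mem p hp =>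
    obtain ⟨a, i, hi, rfl⟩ := hp
    obtain ⟨q, hq, e⟩ := pairOp_pow hx hy hn a i
    rw [e]
    rcases (Nat.lt_succ_iff.1 hi).eq_or_lt with h | h
    · subst h
      simpa using toL_mem hq
    · exact Submodule.sub_mem _ (Submodule.add_mem _ (toL_mem (VF_mono h.le hq))
        (Submodule.smul_mem _ _ (toL_mem (pow_mem a h))))
        (Submodule.smul_mem _ _ (toL_mem (pow_mem a h)))
  | zero => simp
  | add p q _ _ h1 h2 =>
    have := Submodule.add_mem _ h1 h2
    rw [map_add, map_add, smul_add]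
    convert this using 1
    abel
  | smul c p _ h1 =>
    have := Submodule.smul_mem _ c h1
    rwa [map_smul, map_smul, smul_comm, ← smul_sub]

theorem pairOp_mem (hn : 2 ≤ finrank ℝ E) (j : ℕ) (v : Lp ℝ 2 (sph E)) (hv : v ∈ W E j) :
    pairOp hx hy v ∈ W E j := by
  simpa using Submodule.add_mem _ (pairOp_tri hx hy hn j v (W_mono (Nat.le_succ j) hv))
    (Submodule.smul_mem _ (lvp x y j) hv)

theorem norm_pairOp_high (hn : 2 ≤ finrank ℝ E) {J : ℕ} {η : ℝ} (hη : 0 ≤ η)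
    (hJ : ∀ j, J ≤ j → |lvp x y j| ≤ η) {u : Lp ℝ 2 (sph E)} (hu : u ∈ (W E J)ᗮ) :
    ‖pairOp hx hy u‖ ≤ η * ‖u‖ :=
  norm_le_of_levels _ (pairOp_symm hx hy) (W E) W_mono W_zero _ (pairOp_tri hx hy hn) W_dense hη
    hJ hu

theorem mem_orth {J : ℕ} {u : Lp ℝ 2 (sph E)} {f : E → ℝ} (hu : u =ᵐ[sph E] f)
    (h : ∀ q ∈ VF E J, ∫ z, f z * q z ∂(sph E) = 0) : u ∈ (W E J)ᗮ := by
  rw [Submodule.mem_orthogonal']
  intro v hv
  exact W_induction (P := fun v => ⟪u, v⟫ = 0) (isClosed_eq (by fun_prop) continuous_const)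
    (fun q hq => by rw [inner_eq hu (coe_toL q), h q hq]) hv

include hx hy

theorem sq_add_sq : ⟪y, x⟫ ^ 2 + √(1 - ⟪y, x⟫ ^ 2) ^ 2 = 1 := by
  have hr1 : ⟪y, x⟫ ^ 2 ≤ 1 := by
    rw [sq_le_one_iff_abs_le_one]
    simpa [hx, hy] using abs_real_inner_le_norm y x
  rw [Real.sq_sqrt (by linarith)]
  ring

theorem cast_finrank_orth : (finrank ℝ (ℝ ∙ y)ᗮ : ℝ) = finrank ℝ E - 1 := by
  rw [← finrank_orth hy]
  push_cast
  ring

theorem abs_lvp_le_gap (hn : 2 ≤ finrank ℝ E) {j : ℕ} (hj : 1 ≤ j) :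
    |lvp x y j| ≤ |⟪x, y⟫| + 1 / √(finrank ℝ E - 1) := by
  have := nontrivial_orth hn hy
  rw [← cast_finrank_orth hx hy, real_inner_comm]
  exact abs_lv_le_gap (sq_add_sq hx hy) hj

theorem abs_lvp_le_high (hn : 2 ≤ finrank ℝ E) (hr : |⟪x, y⟫| ≤ 0.52) {J j : ℕ}
    (hj : 2 * J ≤ j) : |lvp x y j| ≤ (1 / 2) ^ J + 5 / (finrank ℝ E - 1) := by
  have := nontrivial_orth hn hy
  rw [← cast_finrank_orth hx hy]
  exact abs_lv_le_high (sq_add_sq hx hy) (by rwa [real_inner_comm]) hj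

/-- on an orthogonal level the pair operator is a scalar -/
theorem pair_level (hn : 2 ≤ finrank ℝ E) {d : ℕ} {p : C(E, ℝ)} (hp : p ∈ VF E (d + 1))
    (ho : ∀ q ∈ VF E d, ∫ z, p z * q z ∂(sph E) = 0) {h : E → ℝ} (hh : MemLp h 2 (sph E)) :
    ∫ g, p (ap g x) * h (ap g y) ∂(haar E) = lvp x y d * ∫ z, p z * h z ∂(sph E) := by
  rw [← inner_pairOp hx hy (coe_toL p) hh.coeFn_toLp, level_eq _ (pairOp_symm hx hy)
    (pairOp_mem hx hy hn d) (pairOp_tri hx hy hn d) (toL_mem hp) (mem_orth (coe_toL p) ho),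
    real_inner_smul_left, inner_eq (coe_toL p) hh.coeFn_toLp]

/-- spectral gap, centred form -/
theorem pair_gap_zero (hn : 2 ≤ finrank ℝ E) {f h : E → ℝ} (hf : MemLp f 2 (sph E))
    (hh : MemLp h 2 (sph E)) (h0 : ∫ z, f z ∂(sph E) = 0) :
    |∫ g, f (ap g x) * h (ap g y) ∂(haar E)| ≤ (|⟪x, y⟫| + 1 / √(finrank ℝ E - 1)) *
      √(∫ z, f z ^ 2 ∂(sph E)) * √(∫ z, h z ^ 2 ∂(sph E)) := by
  rw [← inner_pairOp hx hy hf.coeFn_toLp hh.coeFn_toLp, ← norm_eq hf.coeFn_toLp,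
    ← norm_eq hh.coeFn_toLp]
  refine (abs_real_inner_le_norm _ _).trans ?_
  gcongr
  refine norm_pairOp_high hx hy hn (J := 1) (by positivity)
    (fun j hj => abs_lvp_le_gap hx hy hn hj) ?_
  rw [Submodule.mem_orthogonal']
  intro v hv
  refine W_induction (P := fun v => ⟪hf.toLp f, v⟫ = 0)
    (isClosed_eq (by fun_prop) continuous_const) (fun q hq => ?_) hv
  induction hq using Submodule.span_induction with
  | mem q hq =>
    obtain ⟨a, i, hi, rfl⟩ := hq
    obtain rfl : i = 0 := by omega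
    rw [inner_eq hf.coeFn_toLp (coe_toL _)]
    simpa using h0
  | zero => simp
  | add p q _ _ h1 h2 => rw [map_add, inner_add_right, h1, h2, add_zero]
  | smul c p _ h1 => rw [map_smul, inner_smul_right, h1, mul_zero]

/-- spectral gap -/
theorem pair_gap (hn : 2 ≤ finrank ℝ E) {f h : E → ℝ} (hf : MemLp f 2 (sph E))
    (hh : MemLp h 2 (sph E)) :
    |∫ g, f (ap g x) * h (ap g y) ∂(haar E) - (∫ z, f z ∂(sph E)) * ∫ z, h z ∂(sph E)| ≤
      (|⟪x, y⟫| + 1 / √(finrank ℝ E - 1)) *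
        √(∫ z, f z ^ 2 ∂(sph E)) * √(∫ z, h z ^ 2 ∂(sph E)) := by
  set m := ∫ z, f z ∂(sph E) with hm
  have hf1 := hf.integrable one_le_two
  have hh1 := hh.integrable one_le_two
  have h1 := pair_gap_zero hx hy hn (f := fun z => f z - m) (hf.sub (memLp_const m)) hh (by
    rw [integral_sub hf1 (integrable_const _)]
    simp [hm])
  have i1 : Integrable (fun g => f (ap g x) * h (ap g y)) (haar E) :=
    (hf.comp_measurePreserving (measurePreserving_ap hx)).integrable_mul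
      (hh.comp_measurePreserving (measurePreserving_ap hy))
  have i2 : Integrable (fun g => h (ap g y)) (haar E) :=
    ((measurePreserving_ap hy).integrable_comp hh.1).2 hh1
  simp only [sub_mul] at h1
  rw [integral_sub i1 (i2.const_mul _), integral_const_mul, integral_ap hy hh.1] at h1
  refine h1.trans ?_
  have e : ∀ z, (f z - m) ^ 2 = f z ^ 2 - 2 * m * f z + m ^ 2 := fun z => by ring
  have i3 : Integrable (fun z => f z ^ 2 - 2 * m * f z) (sph E) :=
    hf.integrable_sq.sub (hf1.const_mul _)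
  have h2 : ∫ z, (f z - m) ^ 2 ∂(sph E) ≤ ∫ z, f z ^ 2 ∂(sph E) := by
    simp only [e]
    rw [integral_add i3 (integrable_const _), integral_sub hf.integrable_sq (hf1.const_mul _),
      integral_const_mul, ← hm]
    simp only [integral_const, probReal_univ, smul_eq_mul]
    nlinarith [sq_nonneg m]
  have h3 := Real.sqrt_le_sqrt h2
  exact mul_le_mul_of_nonneg_right (mul_le_mul_of_nonneg_left h3 (by positivity))
    (Real.sqrt_nonneg _)

end Op

end Pool.Agent.BL.Lev
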