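import Pool.Agent.P.MP_edb112_gt.Basic

/-! Polynomial levels on the sphere and an abstract spectral lemma. -/

set_option autoImplicit false
set_option linter.unusedSectionVars false

open MeasureTheory Set Module Filter
open scoped RealInnerProductSpace Topology

noncomputable section

namespace Pool.Agent.BL.Lev

/-- the coefficients of a polynomial curve in a subspace lie in the subspace -/
theorem coef_mem {M : Type*} [AddCommGroup M] [Module ℝ M] (W : Submodule ℝ M) (f : ℕ → M)
    (N : ℕ) (h : ∀ t : ℝ, ∑ m ∈ Finset.range N, t ^ m • f m ∈ W) {m : ℕ} (hm : m < N) :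
    f m ∈ W := by
  by_contra hn
  obtain ⟨φ, h1, h2⟩ := Submodule.exists_dual_map_eq_bot_of_notMem hn inferInstance
  have h3 : ∀ t : ℝ, ∑ m ∈ Finset.range N, t ^ m * φ (f m) = 0 := by
    intro t
    have : φ (∑ m ∈ Finset.range N, t ^ m • f m) ∈ W.map φ := Submodule.mem_map_of_mem (h t)
    rw [h2, Submodule.mem_bot, map_sum] at this
    simpa using this
  have h4 : (∑ m ∈ Finset.range N, Polynomial.monomial m (φ (f m)) : Polynomial ℝ) = 0 := by
    refine Polynomial.funext fun t => ?_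
    rw [Polynomial.eval_finsetSum, Polynomial.eval_zero, ← h3 t]
    exact Finset.sum_congr rfl fun m _ => by rw [Polynomial.eval_monomial, mul_comm]
  have h5 := congrArg (fun p : Polynomial ℝ => p.coeff m) h4
  simp only [Polynomial.finsetSum_coeff, Polynomial.coeff_monomial, Finset.sum_ite_eq',
    Finset.mem_range, hm, if_true, Polynomial.coeff_zero] at h5
  exact h1 h5

section Abstract

variable {H : Type*} [NormedAddCommGroup H] [InnerProductSpace ℝ H] [CompleteSpace H]

/-- on the orthogonal levels a symmetric triangular operator is a scalar -/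
theorem level_eq (T : H →L[ℝ] H) (hT : ∀ u v, ⟪T u, v⟫ = ⟪u, T v⟫) {W W' : Submodule ℝ H}
    (hW : ∀ v ∈ W, T v ∈ W) {l : ℝ} (hl : ∀ v ∈ W', T v - l • v ∈ W) {w : H} (hw : w ∈ W')
    (ho : w ∈ Wᗮ) : T w = l • w := by
  have h1 := hl w hw
  have h2 : T w - l • w ∈ Wᗮ := by
    refine Submodule.sub_mem _ ?_ (Submodule.smul_mem _ _ ho)
    rw [Submodule.mem_orthogonal'] at ho ⊢
    intro v hv
    rw [hT]
    exact ho _ (hW v hv)
  have h3 := (Submodule.mem_orthogonal' _ _).1 h2 _ h1
  rw [inner_self_eq_zero] at h3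
  exact sub_eq_zero.1 h3

theorem norm_le_of_levels (T : H →L[ℝ] H) (hT : ∀ u v, ⟪T u, v⟫ = ⟪u, T v⟫)
    (W : ℕ → Submodule ℝ H) [∀ j, (W j).HasOrthogonalProjection] (hm : Monotone W)
    (h0 : W 0 = ⊥) (lam : ℕ → ℝ) (hl : ∀ j, ∀ v ∈ W (j + 1), T v - lam j • v ∈ W j)
    (hd : ∀ u : H, ∀ ε > 0, ∃ N, ∃ v ∈ W N, ‖u - v‖ ≤ ε) {J : ℕ} {η : ℝ} (hη : 0 ≤ η)
    (hJ : ∀ j, J ≤ j → |lam j| ≤ η) {u : H} (hu : u ∈ (W J)ᗮ) : ‖T u‖ ≤ η * ‖u‖ := by
  have hW : ∀ j, ∀ v ∈ W j, T v ∈ W j := by
    intro j v hv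
    cases j with
    | zero =>
      rw [h0, Submodule.mem_bot] at hv ⊢
      simp [hv]
    | succ j =>
      have := Submodule.add_mem _ (hm (Nat.le_succ j) (hl j v hv))
        (Submodule.smul_mem _ (lam j) hv)
      simpa using this
  have key : ∀ N, J ≤ N → ∀ u ∈ W N, u ∈ (W J)ᗮ → ‖T u‖ ≤ η * ‖u‖ := by
    intro N hN
    induction N, hN using Nat.le_induction with
    | base =>
      intro u h1 h2
      have := (Submodule.mem_orthogonal' _ _).1 h2 _ h1
      rw [inner_self_eq_zero] at this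
      simp [this]
    | succ N hN ih =>
      intro u h1 h2
      obtain ⟨v, hv, w, hw, rfl⟩ := (W N).exists_add_mem_mem_orthogonal u
      have hw1 : w ∈ W (N + 1) := by
        simpa using Submodule.sub_mem _ h1 (hm (Nat.le_succ N) hv)
      have hv1 : v ∈ (W J)ᗮ := by
        simpa using Submodule.sub_mem _ h2 (Submodule.orthogonal_le (hm hN) hw)
      have e1 := level_eq T hT (hW N) (hl N) hw1 hw
      have e2 := ih v hv hv1
      have o1 : ⟪v, w⟫ = 0 := (Submodule.mem_orthogonal _ _).1 hw _ hv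
      have o2 : ⟪T v, T w⟫ = 0 := by
        rw [e1, inner_smul_right, (Submodule.mem_orthogonal _ _).1 hw _ (hW N v hv), mul_zero]
      have e3 : ‖T w‖ ≤ η * ‖w‖ := by
        rw [e1, norm_smul]
        gcongr
        exact hJ N hN
      refine abs_le_of_sq_le_sq' ?_ (by positivity) |>.2
      rw [map_add, norm_add_sq_real, mul_pow, norm_add_sq_real, o1, o2]
      have e4 := pow_le_pow_left₀ (norm_nonneg _) e2 2
      have e5 := pow_le_pow_left₀ (norm_nonneg _) e3 2
      nlinarith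
  refine le_of_forall_pos_le_add fun ε hε => ?_
  have hc : 0 < ‖T‖ + η + 1 := by positivity
  obtain ⟨N, v, hv, h1⟩ := hd u (ε / (‖T‖ + η + 1)) (by positivity)
  obtain ⟨a, ha, b, hb, rfl⟩ := (W J).exists_add_mem_mem_orthogonal v
  have hb1 : b ∈ W (max N J) := by
    simpa using Submodule.sub_mem _ (hm (le_max_left N J) hv) (hm (le_max_right N J) ha)
  have h2 := key _ (le_max_right N J) b hb1 hb
  have h3 : ‖u - b‖ ≤ ε / (‖T‖ + η + 1) := by
    refine le_trans ?_ h1
    refine abs_le_of_sq_le_sq' ?_ (by positivity) |>.2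
    have o : ⟪u - b, a⟫ = 0 := (Submodule.mem_orthogonal' _ _).1 (Submodule.sub_mem _ hu hb) _ ha
    rw [show u - (a + b) = (u - b) - a by abel, norm_sub_sq_real (u - b), o]
    nlinarith [sq_nonneg ‖a‖]
  have h4 : ‖T u‖ ≤ ‖T b‖ + ‖T‖ * ‖u - b‖ := by
    have : T u = T b + T (u - b) := by simp
    rw [this]
    exact (norm_add_le _ _).trans (by gcongr; exact T.le_opNorm _)
  have h5 : ‖b‖ ≤ ‖u‖ + ‖u - b‖ := by
    have := norm_sub_le u (u - b)
    simpa using this
  have h6 : (‖T‖ + η + 1) * ‖u - b‖ ≤ ε := by rwa [le_div_iff₀' hc] at h3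
  nlinarith [norm_nonneg (u - b), mul_le_mul_of_nonneg_left h5 hη]

end Abstract

variable {E : Type} [NormedAddCommGroup E] [InnerProductSpace ℝ E] [CompleteSpace E]
  [FiniteDimensional ℝ E]

/-- a linear form as a continuous function -/
def lf (a : E) : C(E, ℝ) := ⟨fun x => ⟪a, x⟫, by fun_prop⟩

@[simp] theorem lf_apply (a x : E) : lf a x = ⟪a, x⟫ := rfl

variable (E) in
/-- polynomials of degree less than `J` -/
def VF (J : ℕ) : Submodule ℝ C(E, ℝ) := Submodule.span ℝ {f | ∃ a i, i < J ∧ f = lf a ^ i}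

theorem pow_mem (a : E) {i J : ℕ} (h : i < J) : lf a ^ i ∈ VF E J :=
  Submodule.subset_span ⟨a, i, h, rfl⟩

theorem VF_mono : Monotone (VF E) := fun _ _ h =>
  Submodule.span_mono fun _ ⟨a, i, hi, e⟩ => ⟨a, i, hi.trans_le h, e⟩

theorem VF_zero : VF E 0 = ⊥ := by simp [VF]

theorem one_mem (J : ℕ) : (1 : C(E, ℝ)) ∈ VF E (J + 1) := by
  simpa using pow_mem (0 : E) (Nat.succ_pos J)

theorem lf_mem (a : E) : lf a ∈ VF E 2 := by simpa using pow_mem a one_lt_two

theorem pow_mul_pow_mem (a b : E) (i j : ℕ) : lf a ^ i * lf b ^ j ∈ VF E (i + j + 1) := by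
  have h := coef_mem (VF E (i + j + 1))
    (fun m => (((i + j).choose m : ℕ) : ℝ) • (lf a ^ m * lf b ^ (i + j - m))) (i + j + 1)
    (fun t => ?_) (m := i) (by omega)
  · have hc : ((((i + j).choose i : ℕ) : ℝ)) ≠ 0 := by
      exact_mod_cast (Nat.choose_pos (Nat.le_add_right i j)).ne'
    rw [Submodule.smul_mem_iff _ hc] at h
    simpa using h
  · convert pow_mem (t • a + b) (Nat.lt_succ_self (i + j)) using 1
    ext x
    simp only [ContinuousMap.sum_apply, ContinuousMap.smul_apply, ContinuousMap.mul_apply,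
      ContinuousMap.pow_apply, lf_apply, inner_add_left, real_inner_smul_left, smul_eq_mul,
      add_pow]
    exact Finset.sum_congr rfl fun m _ => by ring

/-- degrees add under multiplication -/
theorem mul_mem {I J : ℕ} {p q : C(E, ℝ)} (hp : p ∈ VF E (I + 1)) (hq : q ∈ VF E (J + 1)) :
    p * q ∈ VF E (I + J + 1) := by
  induction hp using Submodule.span_induction with
  | mem p hp =>
    obtain ⟨a, i, hi, rfl⟩ := hp
    induction hq using Submodule.span_induction with
    | mem q hq =>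
      obtain ⟨b, j, hj, rfl⟩ := hq
      exact VF_mono (by omega) (pow_mul_pow_mem a b i j)
    | zero => simp
    | add q r _ _ h1 h2 => rw [mul_add]; exact Submodule.add_mem _ h1 h2
    | smul c q _ h1 => rw [mul_smul_comm]; exact Submodule.smul_mem _ _ h1
  | zero => simp
  | add p r _ _ h1 h2 => rw [add_mul]; exact Submodule.add_mem _ h1 h2
  | smul c p _ h1 => rw [smul_mul_assoc]; exact Submodule.smul_mem _ _ h1

/-- a product of `d` linear forms has degree at most `d` -/
theorem prod_mem {ι : Type*} (s : Finset ι) (a : ι → E) :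
    ∏ i ∈ s, lf (a i) ∈ VF E (s.card + 1) := by
  classical
  induction s using Finset.induction_on with
  | empty => simpa using one_mem (E := E) 0
  | insert i s hi ih =>
    rw [Finset.prod_insert hi, Finset.card_insert_of_notMem hi]
    have := mul_mem (lf_mem (a i)) ih
    rwa [add_comm 1] at this

/-- uniform approximation by polynomials on the sphere -/
theorem exists_near (f : C(E, ℝ)) {ε : ℝ} (hε : 0 < ε) :
    ∃ N, ∃ p ∈ VF E N, ∀ x, ‖x‖ = 1 → |p x - f x| < ε := by
  let A : Subalgebra ℝ C(E, ℝ) :=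
    { carrier := {p | ∃ N, p ∈ VF E (N + 1)}
      mul_mem' := fun ⟨I, hI⟩ ⟨J, hJ⟩ => ⟨I + J, mul_mem hI hJ⟩
      add_mem' := fun ⟨I, hI⟩ ⟨J, hJ⟩ => ⟨I + J, Submodule.add_mem _ (VF_mono (by omega) hI)
        (VF_mono (by omega) hJ)⟩
      algebraMap_mem' := fun c => ⟨0, by
        rw [Algebra.algebraMap_eq_smul_one]
        exact Submodule.smul_mem _ _ (one_mem 0)⟩ }
  have hA : A.SeparatesPoints := by
    intro x y hxy
    refine ⟨lf (x - y), ⟨lf (x - y), ⟨1, lf_mem _⟩, rfl⟩, fun h => hxy ?_⟩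
    have : ⟪x - y, x - y⟫ = 0 := by
      rw [inner_sub_right]
      exact sub_eq_zero.2 h
    exact sub_eq_zero.1 (inner_self_eq_zero.1 this)
  obtain ⟨g, ⟨N, hN⟩, hg⟩ :=
    ContinuousMap.exists_mem_subalgebra_near_continuous_of_isCompact_of_separatesPoints hA f
      (isCompact_sphere (0 : E) 1) hε
  exact ⟨N + 1, g, hN, fun x hx => hg x (by simpa using hx)⟩

variable [MeasurableSpace E] [BorelSpace E] [Nontrivial E]

theorem exists_bound (f : C(E, ℝ)) : ∃ C, ∀ x, ‖x‖ = 1 → ‖f x‖ ≤ C :=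
  (isCompact_unit (E := E)).exists_bound_of_continuousOn f.continuous.continuousOn

theorem memLp_cont (f : C(E, ℝ)) : MemLp f 2 (sph E) := by
  obtain ⟨C, hC⟩ := exists_bound f
  exact MemLp.of_bound f.continuous.aestronglyMeasurable C (ae_norm.mono hC)

/-- continuous functions as elements of the Hilbert space -/
def toL : C(E, ℝ) →ₗ[ℝ] Lp ℝ 2 (sph E) where
  toFun f := (memLp_cont f).toLp f
  map_add' f g := MemLp.toLp_add _ _
  map_smul' c f := MemLp.toLp_const_smul c _

theorem coe_toL (f : C(E, ℝ)) : toL f =ᵐ[sph E] f := (memLp_cont f).coeFn_toLp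

variable (E) in
/-- the closed levels -/
def W (J : ℕ) : Submodule ℝ (Lp ℝ 2 (sph E)) := ((VF E J).map toL).topologicalClosure

instance (J : ℕ) : CompleteSpace (W E J) :=
  (Submodule.isClosed_topologicalClosure _).completeSpace_coe

theorem W_mono : Monotone (W E) := fun _ _ h =>
  Submodule.topologicalClosure_mono (Submodule.map_mono (VF_mono h))

theorem W_zero : W E 0 = ⊥ := by
  rw [W, VF_zero, Submodule.map_bot]
  exact IsClosed.submodule_topologicalClosure_eq (by simp)

theorem toL_mem {J : ℕ} {p : C(E, ℝ)} (hp : p ∈ VF E J) : toL p ∈ W E J :=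
  Submodule.le_topologicalClosure _ (Submodule.mem_map_of_mem hp)

/-- closed properties of the levels are checked on polynomials -/
theorem W_induction {J : ℕ} {P : Lp ℝ 2 (sph E) → Prop} (hc : IsClosed {u | P u})
    (h : ∀ p ∈ VF E J, P (toL p)) {u : Lp ℝ 2 (sph E)} (hu : u ∈ W E J) : P u := by
  refine closure_minimal (t := {u | P u}) ?_ hc hu
  rintro _ ⟨p, hp, rfl⟩
  exact h p hp

theorem W_dense (u : Lp ℝ 2 (sph E)) (ε : ℝ) (hε : 0 < ε) : ∃ N, ∃ v ∈ W E N, ‖u - v‖ ≤ ε := by
  obtain ⟨f, hf⟩ := Metric.denseRange_iff.1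
    (BoundedContinuousFunction.toLp_denseRange ℝ (sph E) ℝ (p := 2) (by simp)) u (ε / 2)
    (by positivity)
  obtain ⟨N, p, hp, h1⟩ := exists_near f.toContinuousMap (half_pos hε)
  refine ⟨N, toL p, toL_mem hp, ?_⟩
  have h2 : ‖BoundedContinuousFunction.toLp 2 (sph E) ℝ f - toL p‖ ≤ ε / 2 := by
    have := Lp.norm_le_of_ae_bound (f := BoundedContinuousFunction.toLp 2 (sph E) ℝ f - toL p)
      (C := ε / 2) (by positivity) (by
        filter_upwards [Lp.coeFn_sub (BoundedContinuousFunction.toLp 2 (sph E) ℝ f) (toL p),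
          BoundedContinuousFunction.coeFn_toLp 2 (sph E) ℝ f, coe_toL p, ae_norm] with x e1 e2 e3 hx
        rw [e1, Pi.sub_apply, e2, e3, Real.norm_eq_abs, abs_sub_comm]
        exact (h1 x hx).le)
    simpa [measureUnivNNReal] using this
  rw [dist_eq_norm] at hf
  calc ‖u - toL p‖ = ‖(u - BoundedContinuousFunction.toLp 2 (sph E) ℝ f) +
        (BoundedContinuousFunction.toLp 2 (sph E) ℝ f - toL p)‖ := by congr 1; abel
    _ ≤ _ := (norm_add_le _ _).trans (by linarith)

end Pool.Agent.BL.Lev
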