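import Pool.Agent.P.MP_edb112_gt.Polar2

/-! The two set isodiametric inequality on the sphere. -/

set_option autoImplicit false
set_option linter.unusedSectionVars false

open MeasureTheory Set Module TopologicalSpace
open scoped RealInnerProductSpace Topology

noncomputable section

namespace Pool.Agent.BL

variable {E : Type} [NormedAddCommGroup E] [InnerProductSpace ℝ E] [CompleteSpace E]
  [FiniteDimensional ℝ E] [MeasurableSpace E] [BorelSpace E]

namespace P2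

theorem Refl.inner_pol2 {g : G E} {u : E} (hg : Refl g u) {K L : Set E} {β : ℝ}
    (hK : ∀ x ∈ K, ∀ y ∈ L, β ≤ ⟪x, y⟫) : ∀ x ∈ pol g u K, ∀ y ∈ pol g u L, β ≤ ⟪x, y⟫ := by
  obtain ⟨c, hc0, hc⟩ := hg.form
  have key : ∀ a b : E, a ∈ K → ap g b ∈ L → 0 ≤ ⟪u, a⟫ → 0 ≤ ⟪u, b⟫ → β ≤ ⟪a, b⟫ := by
    intro a b ha hb hua hub
    have h1 := hK a ha _ hb
    rw [hc b, inner_sub_right, real_inner_smul_right, real_inner_comm u a] at h1
    have : 0 ≤ c * ⟪u, b⟫ * ⟪u, a⟫ := by positivity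
    linarith
  have key' : ∀ a b : E, ap g a ∈ K → b ∈ L → 0 ≤ ⟪u, a⟫ → 0 ≤ ⟪u, b⟫ → β ≤ ⟪a, b⟫ := by
    intro a b ha hb hua hub
    have h1 := hK _ ha _ hb
    rw [hc a, inner_sub_left, real_inner_smul_left] at h1
    have : 0 ≤ c * ⟪u, a⟫ * ⟪u, b⟫ := by positivity
    linarith
  have both : ∀ a b : E, ap g a ∈ K → ap g b ∈ L → β ≤ ⟪a, b⟫ := by
    intro a b ha hb
    have h1 := hK _ ha _ hb
    rwa [inner_ap] at h1
  rintro a (⟨ha, ha'⟩ | ⟨ha | ha, hua⟩) b (⟨hb, hb'⟩ | ⟨hb | hb, hub⟩)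
  · exact hK a ha b hb
  · exact hK a ha b hb
  · exact both a b ha' hb
  · exact hK a ha b hb
  · exact hK a ha b hb
  · exact key a b ha hb hua hub
  · exact both a b ha hb'
  · exact key' a b ha hb hua hub
  · exact both a b ha hb

theorem Refl.le_pol [Nontrivial E] {g : G E} {u e : E} (hg : Refl g u) (he : ‖e‖ = 1)
    (hu : 0 < ⟪e, u⟫) {K : Set E} (hK : MeasurableSet K) (hS : ∀ z ∈ K, ‖z‖ = 1) :
    ∫⁻ z in K, wt e z ∂sph E ≤ ∫⁻ z in pol g u K, wt e z ∂sph E := by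
  by_cases h0 : sph E (mov g u K) = 0
  · rw [hg.lintegral_pol hK (measurable_wt e), lintegral_split g u hK,
      setLIntegral_measure_zero _ _ h0, setLIntegral_measure_zero _ _ h0]
  · exact (hg.lt_pol he hu hK hS h0).le

theorem mem_of_max' [Nontrivial E] {e : E} (he : ‖e‖ = 1) {K : Set E} (hK : IsCompact K)
    (hS : ∀ z ∈ K, ‖z‖ = 1)
    (hmax : ∀ (g : G E) (u : E), Refl g u → 0 < ⟪e, u⟫ →
      ∫⁻ z in pol g u K, wt e z ∂sph E ≤ ∫⁻ z in K, wt e z ∂sph E)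
    {p : ℝ} (hp : sph E (cap e p) < sph E K) {y : E} (hy : ‖y‖ = 1) (hyp : p ≤ ⟪e, y⟫) :
    y ∈ K := by
  by_contra hyK
  have hs : sph E (K ∩ {z | ⟪e, z⟫ < p}) ≠ 0 := by
    intro h0
    have hsub : K ⊆ cap e p ∪ (K ∩ {z | ⟪e, z⟫ < p}) := fun z hz =>
      (le_or_gt p ⟪e, z⟫).imp id fun h => ⟨hz, h⟩
    have := (measure_mono (μ := sph E) hsub).trans (measure_union_le _ _)
    rw [h0, add_zero] at this
    exact hp.not_ge this
  obtain ⟨x, ⟨hxK, hxs⟩, hx⟩ := exists_mem_forall_mem_nhdsWithin_pos_measure hs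
  have hxy : x ≠ y := fun h => hyK (h ▸ hxK)
  obtain ⟨g, hg, hgx⟩ := exists_refl ((hS x hxK).trans hy.symm) hxy
  have hN : IsOpen {z : E | ap g z ∉ K ∧ ⟪y - x, z⟫ < 0} :=
    ((hK.isClosed.preimage (cont_ap g)).isOpen_compl).inter (isOpen_neg (y - x))
  have hxN : x ∈ {z : E | ap g z ∉ K ∧ ⟪y - x, z⟫ < 0} := by
    refine ⟨hgx ▸ hyK, ?_⟩
    have h1 := hg.neg x
    have h2 : 0 < ⟪y - x, y - x⟫ := real_inner_self_pos.2 (sub_ne_zero.2 hxy.symm)
    rw [hgx] at h1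
    rw [inner_sub_right (y - x)] at h2
    linarith
  have h1 := hx _ (inter_mem_nhdsWithin _ (hN.mem_nhds hxN))
  have h2 : sph E (mov g (y - x) K) ≠ 0 :=
    (h1.trans_le (measure_mono (t := mov g (y - x) K) fun z hz => ⟨hz.1.1, hz.2⟩)).ne'
  have h3 : 0 < ⟪e, y - x⟫ := by
    rw [inner_sub_right]
    have : ⟪e, x⟫ < p := hxs
    linarith
  exact (hg.lt_pol he h3 hK.measurableSet hS h2).not_ge (hmax g _ hg h3)

end P2

open P2 in
/-- two compact sets larger than two caps have points as far apart as the caps -/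
theorem two_set (hn : 2 ≤ finrank ℝ E) {e : E} (he : ‖e‖ = 1) {p q β : ℝ} (hp : p ^ 2 ≤ 1)
    (hq : q ^ 2 ≤ 1) {K0 L0 : Set E} (hK0 : IsCompact K0) (hL0 : IsCompact L0)
    (hKS : ∀ z ∈ K0, ‖z‖ = 1) (hLS : ∀ z ∈ L0, ‖z‖ = 1)
    (hf : ∀ x ∈ K0, ∀ y ∈ L0, β ≤ ⟪x, y⟫) (hKm : sph E (cap e p) < sph E K0)
    (hLm : sph E (cap e q) < sph E L0) : β ≤ p * q - √(1 - p ^ 2) * √(1 - q ^ 2) := by
  have : Nontrivial E := Module.nontrivial_of_finrank_pos (R := ℝ) (by omega)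
  set Sp : Set (Compacts E) := {K | (K : Set E) ⊆ {x : E | ‖x‖ = 1}} with hSp
  set F : Set (Compacts E × Compacts E) := (Sp ×ˢ Sp) ∩
    ({K | ((K.1 ×ˢ K.2 : Compacts (E × E)) : Set (E × E)) ⊆ {p | β ≤ ⟪p.1, p.2⟫}} ∩
      ({K : Compacts E | sph E K < sph E K0}ᶜ ×ˢ {K : Compacts E | sph E K < sph E L0}ᶜ)) with hF
  have memF : ∀ K : Compacts E × Compacts E, K ∈ F ↔ ((∀ z ∈ (K.1 : Set E), ‖z‖ = 1) ∧
      (∀ z ∈ (K.2 : Set E), ‖z‖ = 1)) ∧
      (∀ x ∈ (K.1 : Set E), ∀ y ∈ (K.2 : Set E), β ≤ ⟪x, y⟫) ∧ sph E K0 ≤ sph E K.1 ∧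
      sph E L0 ≤ sph E K.2 := by
    intro K
    simp only [hF, hSp, mem_inter_iff, mem_ofPred_eq, mem_compl_iff, not_lt, Compacts.coe_prod,
      prod_subset_iff, mem_prod]
    rfl
  have hSc : IsCompact Sp := Compacts.isCompact_subsets_of_isCompact isCompact_unit
  have hFc : IsCompact F := by
    refine (hSc.prod hSc).inter_right (IsClosed.inter ?_
      ((isOpen_meas_lt _ _).isClosed_compl.prod (isOpen_meas_lt _ _).isClosed_compl))
    exact (Compacts.isClosed_subsets_of_isClosed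
      (isClosed_le continuous_const (continuous_fst.inner continuous_snd))).preimage
      Compacts.continuous_prod
  have hFn : F.Nonempty := ⟨(⟨K0, hK0⟩, ⟨L0, hL0⟩), (memF _).2 ⟨⟨hKS, hLS⟩, hf, le_rfl, le_rfl⟩⟩
  have hfin := isFiniteMeasure_withDensity (lintegral_wt_ne_top e)
  have husc : UpperSemicontinuous fun K : Compacts E => (sph E).withDensity (wt e) K :=
    upperSemicontinuous_iff_isOpen_preimage.2 fun c => isOpen_meas_lt _ c
  have husc2 : UpperSemicontinuous fun K : Compacts E × Compacts E =>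
      (sph E).withDensity (wt e) K.1 + (sph E).withDensity (wt e) K.2 :=
    (husc.comp continuous_fst).add (husc.comp continuous_snd)
  obtain ⟨⟨K, L⟩, hKF, hmax⟩ := (husc2.upperSemicontinuousOn F).exists_isMaxOn hFn hFc
  obtain ⟨⟨hS, hS'⟩, hin, hm, hm'⟩ := (memF _).1 hKF
  have hKs : MeasurableSet (K : Set E) := K.isCompact.measurableSet
  have hLs : MeasurableSet (L : Set E) := L.isCompact.measurableSet
  have fin : ∀ T : Set E, ∫⁻ z in T, wt e z ∂sph E ≠ ⊤ := fun T =>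
    ne_top_of_le_ne_top (lintegral_wt_ne_top e) (setLIntegral_le_lintegral _ _)
  have hmax' : ∀ (g : G E) (u : E), Refl g u →
      ∫⁻ z in pol g u K, wt e z ∂sph E + ∫⁻ z in pol g u L, wt e z ∂sph E ≤
        ∫⁻ z in K, wt e z ∂sph E + ∫⁻ z in L, wt e z ∂sph E := by
    intro g u hg
    have hc := hg.isCompact_pol K.isCompact
    have hc' := hg.isCompact_pol L.isCompact
    have hu : ∀ M : Set E, (∀ z ∈ M, ‖z‖ = 1) → ∀ z ∈ pol g u M, ‖z‖ = 1 := by
      rintro M hM z (hz | ⟨hz | hz, -⟩)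
      · exact hM z hz.1
      · exact hM z hz
      · exact (norm_ap g z).symm.trans (hM _ hz)
    have hP : ((⟨pol g u K, hc⟩, ⟨pol g u L, hc'⟩) : Compacts E × Compacts E) ∈ F :=
      (memF _).2 ⟨⟨hu _ hS, hu _ hS'⟩, hg.inner_pol2 hin, hm.trans_eq (hg.measure_pol hKs).symm,
        hm'.trans_eq (hg.measure_pol hLs).symm⟩
    have := hmax hP
    simp only [mem_ofPred_eq, Compacts.coe_mk] at this
    rwa [withDensity_apply _ hc.measurableSet, withDensity_apply _ hKs,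
      withDensity_apply _ hc'.measurableSet, withDensity_apply _ hLs] at this
  obtain ⟨w, hw, hew⟩ := exists_perp hn he
  have hee : ⟪e, e⟫ = 1 := by rw [real_inner_self_eq_norm_sq, he, one_pow]
  have hww : ⟪w, w⟫ = 1 := by rw [real_inner_self_eq_norm_sq, hw, one_pow]
  have hwe : ⟪w, e⟫ = 0 := by rw [real_inner_comm, hew]
  have hin2 : ∀ a c b d : ℝ, ⟪a • e + c • w, b • e + d • w⟫ = a * b + c * d := by
    intro a c b d
    simp only [inner_add_left, inner_add_right, real_inner_smul_left, real_inner_smul_right,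
      hee, hww, hwe, hew]
    ring
  have hun : ∀ a c : ℝ, a ^ 2 + c ^ 2 = 1 → ‖a • e + c • w‖ = 1 := by
    intro a c h
    have h2 := hin2 a c a c
    rw [real_inner_self_eq_norm_sq] at h2
    exact (pow_eq_one_iff_of_nonneg (norm_nonneg _) two_ne_zero).1 (by nlinarith)
  have hht : ∀ a c : ℝ, a ≤ ⟪e, a • e + c • w⟫ := by
    intro a c
    rw [inner_add_right, real_inner_smul_right, real_inner_smul_right, hee, hew]
    linarith
  have h1 : p • e + √(1 - p ^ 2) • w ∈ (K : Set E) := by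
    refine mem_of_max' he K.isCompact hS (fun g u hg hu => ?_) (hKm.trans_le hm)
      (hun _ _ (by rw [Real.sq_sqrt (by linarith)]; ring)) (hht _ _)
    exact (ENNReal.add_le_add_iff_right (fin _)).1
      ((add_le_add le_rfl (hg.le_pol he hu hLs hS')).trans (hmax' g u hg))
  have h2 : q • e + (-√(1 - q ^ 2)) • w ∈ (L : Set E) := by
    refine mem_of_max' he L.isCompact hS' (fun g u hg hu => ?_) (hLm.trans_le hm')
      (hun _ _ (by rw [neg_sq, Real.sq_sqrt (by linarith)]; ring)) (hht _ _)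
    exact (ENNReal.add_le_add_iff_left (fin _)).1
      ((add_le_add (hg.le_pol he hu hKs hS) le_rfl).trans (hmax' g u hg))
  have h3 := hin _ h1 _ h2
  rw [hin2] at h3
  linarith

end Pool.Agent.BL
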