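import Pool.Agent.P.MP_edb112_gt.BLSub
import Pool.Agent.P.MP_edb112_gt.BLBath
import Pool.Agent.P.MP_edb112_gt.BLTwo

/-! Neighbourhoods of a compact set in directions orthogonal to a subspace. -/

set_option autoImplicit false
set_option linter.unusedSectionVars false

open MeasureTheory Set Module
open scoped RealInnerProductSpace symmDiff

noncomputable section

namespace Pool.Agent.BL.SA

theorem isClosed_ex {X Y : Type} [TopologicalSpace X] [TopologicalSpace Y] {L : Set Y}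
    (hL : IsCompact L) {R : X → Y → Prop} (hR : IsClosed {p : X × Y | R p.1 p.2}) :
    IsClosed {x | ∃ w ∈ L, R x w} := by
  have := isCompact_iff_compactSpace.1 hL
  have h := isClosedMap_fst_of_compactSpace (X := X) (Y := L) _
    (hR.preimage (continuous_fst.prodMk (continuous_subtype_val.comp continuous_snd)))
  convert h using 1
  ext x
  simp

theorem geo {p q s : ℝ} (hp : p ^ 2 ≤ 1 / 4) (hq : q ^ 2 ≤ 1 / 4) (hs : s ^ 2 ≤ 1)
    (h : (p + q) ^ 2 * (1 + (p - q) ^ 2) < s ^ 2) :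
    √(1 - s ^ 2) < √(1 - p ^ 2) * √(1 - q ^ 2) - p * q := by
  have h1 : √(1 - s ^ 2) ≤ 1 - s ^ 2 / 2 :=
    Real.sqrt_le_iff.2 ⟨by linarith, by nlinarith [sq_nonneg (s ^ 2)]⟩
  have hu := Real.sq_sqrt (show 0 ≤ 1 - p ^ 2 by linarith)
  have hv := Real.sq_sqrt (show 0 ≤ 1 - q ^ 2 by linarith)
  have hu1 : 1 / 2 ≤ √(1 - p ^ 2) := Real.le_sqrt_of_sq_le (by linarith)
  have hv1 : 1 / 2 ≤ √(1 - q ^ 2) := Real.le_sqrt_of_sq_le (by linarith)
  set u := √(1 - p ^ 2)
  set v := √(1 - q ^ 2)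
  have h2 : (u - v) ^ 2 * 1 ≤ (u - v) ^ 2 * (u + v) ^ 2 :=
    mul_le_mul_of_nonneg_left (by nlinarith) (sq_nonneg _)
  have h3 : (u - v) ^ 2 * (u + v) ^ 2 = (p + q) ^ 2 * (p - q) ^ 2 := by
    rw [← mul_pow, ← mul_pow, show (u - v) * (u + v) = u ^ 2 - v ^ 2 by ring, hu, hv]
    ring
  nlinarith

variable {E : Type} [NormedAddCommGroup E] [InnerProductSpace ℝ E] [CompleteSpace E]
  [FiniteDimensional ℝ E] [MeasurableSpace E] [BorelSpace E] [Nontrivial E]

/-- neighbourhood of a set on the sphere -/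
def nb (κ : ℝ) (L : Set E) : Set E := {y | ∃ w ∈ L, κ ≤ ⟪y, w⟫}

theorem measurableSet_nb (κ : ℝ) {L : Set E} (hL : IsCompact L) : MeasurableSet (nb κ L) :=
  (isClosed_ex hL (R := fun y w => κ ≤ ⟪y, w⟫)
    (isClosed_le continuous_const (by fun_prop))).measurableSet

/-- the isoperimetric inequality -/
theorem isoper (hn : 2 ≤ finrank ℝ E) {ε P Q κ : ℝ} (hA : Apx E ε) {L : Set E} (hL : IsCompact L)
    (hS : ∀ z ∈ L, ‖z‖ = 1) (h1 : Ph (-P) + ε < (sph E).real L)
    (hP : (P / √(finrank ℝ E)) ^ 2 ≤ 1) (hQ : (Q / √(finrank ℝ E)) ^ 2 ≤ 1)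
    (hκ : κ < √(1 - (P / √(finrank ℝ E)) ^ 2) * √(1 - (Q / √(finrank ℝ E)) ^ 2) -
      P / √(finrank ℝ E) * (Q / √(finrank ℝ E))) : Ph Q - ε ≤ (sph E).real (nb κ L) := by
  obtain ⟨e, he⟩ := exists_norm_eq E zero_le_one
  have lt : ∀ s t : Set E, (sph E).real s < (sph E).real t → sph E s < sph E t := fun s t h =>
    (ENNReal.toReal_lt_toReal (measure_ne_top _ _) (measure_ne_top _ _)).1 h
  by_contra hc
  rw [not_le] at hc
  have hN := measurableSet_nb κ hL
  have a1 := (abs_le.1 (hA e he P).1).2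
  have a2 := (abs_le.1 (hA e he Q).1).2
  have h2 : (sph E).real (cap e (Q / √(finrank ℝ E))) < (sph E).real (nb κ L)ᶜ := by
    rw [probReal_compl_eq_one_sub hN]
    rw [Ph_neg] at a2
    linarith
  have h3 := lt _ _ h2
  rw [← measure_congr (inter_ae_eq_left_of_ae_eq_univ (s := (nb κ L)ᶜ)
    (t := {x : E | ‖x‖ = 1}) (ae_eq_univ.2 ae_norm))] at h3
  obtain ⟨M, hM, hMc, hMm⟩ := (hN.compl.inter isCompact_unit.measurableSet
    ).exists_lt_isCompact_of_ne_top (measure_ne_top _ _) h3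
  have h4 : sph E (-M) = sph E M :=
    (measurePreserving_ap_right (ofIso (LinearIsometryEquiv.neg ℝ))).measure_preimage
      hMc.nullMeasurableSet
  have h5 := two_set hn he (β := -κ) hP hQ hL hMc.neg hS
    (fun z hz => (norm_neg z).symm.trans (hM hz).2)
    (fun x hx y hy => by
      have := not_le.1 fun h => (hM hy).1 ⟨x, hx, h⟩
      rw [inner_neg_left, real_inner_comm] at this
      linarith) (lt _ _ (by linarith)) (hMm.trans_eq h4.symm)
  linarith

variable (V : Submodule ℝ E) [CompleteSpace V]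

/-- points of the subspace close to the rotated set, in a direction orthogonal to the subspace -/
def NN (κ : ℝ) (K : Set E) (g : G E) : Set V :=
  {y | ∃ u ∈ K, κ ≤ ⟪(y : E), ap g⁻¹ u⟫ ∧ ap g⁻¹ u - ⟪(y : E), ap g⁻¹ u⟫ • (y : E) ∈ Vᗮ}

theorem measurableSet_NN (κ : ℝ) {K : Set E} (hK : IsCompact K) :
    MeasurableSet {p : G E × V | p.2 ∈ NN V κ K p.1} := by
  refine (isClosed_ex hK (R := fun (p : G E × V) u => κ ≤ ⟪(p.2 : E), ap p.1⁻¹ u⟫ ∧
    ap p.1⁻¹ u - ⟪(p.2 : E), ap p.1⁻¹ u⟫ • (p.2 : E) ∈ Vᗮ) ?_).measurableSet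
  have c1 : Continuous fun p : (G E × V) × E => ⟪(p.1.2 : E), ap p.1.1⁻¹ p.2⟫ := by fun_prop
  have c2 : Continuous fun p : (G E × V) × E =>
      ap p.1.1⁻¹ p.2 - ⟪(p.1.2 : E), ap p.1.1⁻¹ p.2⟫ • (p.1.2 : E) := by fun_prop
  exact (isClosed_le continuous_const c1).inter (V.isClosed_orthogonal.preimage c2)

theorem isCompact_sec {K : Set E} (hK : IsCompact K) (hS : ∀ z ∈ K, ‖z‖ = 1) (g : G E) :
    IsCompact (sec V K g) ∧ ∀ z ∈ sec V K g, ‖z‖ = 1 := by
  have h : ∀ z ∈ sec V K g, ‖z‖ = 1 := fun z hz => (norm_ap g (z : E)).symm.trans (hS _ hz)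
  exact ⟨isCompact_unit.of_isClosed_subset (hK.isClosed.preimage
    (continuous_ap continuous_const continuous_subtype_val)) h, h⟩

theorem mean_NN [Nontrivial V] (hn : 2 ≤ finrank ℝ E) (hV : finrank ℝ V < finrank ℝ E)
    {κ η T : ℝ} (hη : 0 < η) (hT : T ≤ 1) {K : Set E} (hK : IsCompact K) (hS : ∀ z ∈ K, ‖z‖ = 1)
    (hiso : ∀ (W : Submodule ℝ E) [CompleteSpace W] [Nontrivial W],
      finrank ℝ E - finrank ℝ V ≤ finrank ℝ W → ∀ L : Set W, IsCompact L → (∀ z ∈ L, ‖z‖ = 1) →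
      (sph E).real K - η < (sph W).real L → T ≤ (sph W).real (nb κ L)) :
    T - (1 / (finrank ℝ E - finrank ℝ V) + 1 / (finrank ℝ E - 1)) / η ^ 2 ≤
      ∫ g, (sph V).real (NN V κ K g) ∂(haar E) := by
  have hZ := measurableSet_NN V κ hK
  refine le_trans ?_ (integral_section V hZ).ge
  refine (show ∀ c : ℝ, c = ∫ _ : V, c ∂(sph V) by simp) _ |>.le.trans ?_
  refine integral_mono_ae (integrable_const _) (Integrable.of_bound
    (measurable_measure_prodMk_right hZ).ennreal_toReal.aestronglyMeasurable 1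
    (Filter.Eventually.of_forall fun y => by
      rw [Real.norm_of_nonneg measureReal_nonneg]; exact measureReal_le_one)) ?_
  filter_upwards [ae_norm] with y hy
  let W : Submodule ℝ E := (ℝ ∙ (y : E)) ⊔ Vᗮ
  have : CompleteSpace W := FiniteDimensional.complete ℝ W
  let y' : W := ⟨y, Submodule.mem_sup_left (Submodule.mem_span_singleton_self _)⟩
  have hy' : ‖y'‖ = 1 := hy
  have : Nontrivial W := ⟨y', 0, fun h => by simp [h] at hy'⟩
  have hW : finrank ℝ E - finrank ℝ V ≤ finrank ℝ W := by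
    have h1 := V.finrank_add_finrank_orthogonal
    have h2 : finrank ℝ Vᗮ ≤ finrank ℝ W := Submodule.finrank_mono le_sup_right
    omega
  have hZy : MeasurableSet {g : G E | y ∈ NN V κ K g} := measurable_prodMk_right hZ
  have hi : Integrable ({g : G E | y ∈ NN V κ K g}.indicator (1 : G E → ℝ)) (haar E) :=
    (integrable_const 1).indicator hZy
  change _ ≤ (haar E).real {g : G E | y ∈ NN V κ K g}
  rw [← integral_indicator_one hZy, integral_ext' W hi]
  have i1 := (integrable_sec W hK.measurableSet ((sph E).real K)).div_const (η ^ 2)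
  have h1 := sub_var W hn hK.measurableSet
  have h2 : (1 : ℝ) / finrank ℝ W ≤ 1 / (finrank ℝ E - finrank ℝ V) := by
    rw [← Nat.cast_sub hV.le]
    exact one_div_le_one_div_of_le (by exact_mod_cast Nat.sub_pos_of_lt hV) (by exact_mod_cast hW)
  refine le_trans ?_ (integral_mono ((integrable_const T).sub i1)
    (((measurePreserving_ext W).integrable_comp hi.1).2 hi).integral_prod_left fun g => ?_)
  · simp only [Pi.sub_apply]
    rw [integral_sub (integrable_const T) i1, integral_div]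
    simp only [integral_const, probReal_univ, one_smul]
    gcongr
    linarith
  · have hm : MeasurableSet {k : G W | y ∈ NN V κ K (g * ext W k)} :=
      (continuous_const.mul (continuous_ext W)).measurable hZy
    change T - _ ≤ ∫ k, {k : G W | y ∈ NN V κ K (g * ext W k)}.indicator 1 k ∂(haar W)
    rw [integral_indicator_one hm]
    by_cases hg : (sph E).real K - η < (sph W).real (sec W K g)
    · obtain ⟨c1, c2⟩ := isCompact_sec W hK hS g
      refine (sub_le_self _ (by positivity)).trans ((hiso W hW _ c1 c2 hg).trans ?_)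
      rw [measureReal_def, ← haar_preimage hy' (measurableSet_nb κ c1)]
      refine measureReal_mono ?_
      rintro k ⟨w, hw, hκ⟩
      have e1 : ap (g * ext W k)⁻¹ (ap g (w : E)) = ((ap k⁻¹ w : W) : E) := by
        conv_lhs => rw [← ap_ap_inv k w, ← ap_ext_coe, ← ap_mul g, ap_inv_ap]
      refine ⟨_, hw, ?_, ?_⟩
      · rw [e1]
        rw [inner_ap_left] at hκ
        exact hκ
      · rw [e1]
        obtain ⟨a, ha, b, hb, hab⟩ := Submodule.mem_sup.1 (ap k⁻¹ w).2
        obtain ⟨c, rfl⟩ := Submodule.mem_span_singleton.1 ha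
        rw [← hab, inner_add_right, real_inner_smul_right, real_inner_self_eq_norm_sq,
          Submodule.inner_right_of_mem_orthogonal y.2 hb, show ‖(y : E)‖ = 1 from hy]
        simpa using hb
    · refine le_trans ?_ measureReal_nonneg
      rw [sub_nonpos, le_div_iff₀ (by positivity)]
      nlinarith [not_lt.1 hg, sq_nonneg η]

theorem mem_NN {K : Set E} {g : G E} {y : V} (hy : ‖y‖ = 1) (h : y ∈ sec V K g) :
    y ∈ NN V 1 K g := by
  have h1 : ⟪(y : E), (y : E)⟫ = 1 := by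
    rw [real_inner_self_eq_norm_sq, show ‖(y : E)‖ = 1 from hy, one_pow]
  refine ⟨_, h, ?_, ?_⟩ <;> rw [ap_inv_ap, h1]
  simp

theorem orbFree_NN {t : ℕ} {h : ℝ} (hβ : beta t h ≤ 0) {K : Set E} (hS : ∀ z ∈ K, ‖z‖ = 1)
    (hK : Free t h K) {z : Fin t → V} (hz1 : ∀ a, ‖z a‖ = 1) {s : Fin t → ℝ} (hs0 : ∀ a, 0 ≤ s a)
    (hs1 : ∀ a, s a ^ 2 < 1) (hz : ∀ a b, a ≠ b →
      √(1 - s a ^ 2) * √(1 - s b ^ 2) * ⟪z a, z b⟫ + s a * s b = beta t h) (g : G E) :
    OrbFree z fun a => NN V (√(1 - s a ^ 2)) K g := by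
  intro k
  by_contra hc
  push Not at hc
  choose u hu h1 h2 using hc
  obtain ⟨a, b, hab, hlt⟩ := hK u hu fun a => hS _ (hu a)
  rw [← inner_ap g⁻¹] at hlt
  set y : Fin t → E := fun a => ((ap k (z a) : V) : E) with hy
  set c : Fin t → ℝ := fun a => ⟪y a, ap g⁻¹ (u a)⟫ with hc
  set v : Fin t → E := fun a => ap g⁻¹ (u a) - c a • y a with hv
  have hy1 : ∀ a, ‖y a‖ = 1 := fun a => (norm_ap k (z a)).trans (hz1 a)
  have hκ : ∀ a, 0 < √(1 - s a ^ 2) := fun a => Real.sqrt_pos.2 (sub_pos.2 (hs1 a))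
  have hvn : ∀ a, ‖v a‖ ≤ s a := by
    intro a
    refine abs_le_of_sq_le_sq' ?_ (hs0 a) |>.2
    have h3 : √(1 - s a ^ 2) ^ 2 ≤ c a ^ 2 := pow_le_pow_left₀ (hκ a).le (h1 a) 2
    rw [Real.sq_sqrt (sub_pos.2 (hs1 a)).le] at h3
    rw [norm_sub_sq_real, norm_ap, hS _ (hu a), real_inner_smul_right, real_inner_comm (y a),
      norm_smul, hy1, mul_one, Real.norm_eq_abs, sq_abs]
    change 1 ^ 2 - 2 * (c a * c a) + _ ≤ _
    nlinarith
  have o : ∀ a b, ⟪y a, v b⟫ = 0 := fun a b =>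
    Submodule.inner_right_of_mem_orthogonal (ap k (z a)).2 (h2 b)
  have e : ∀ a, ap g⁻¹ (u a) = c a • y a + v a := fun a => by simp [hv]
  have hyy : ⟪y a, y b⟫ = ⟪z a, z b⟫ := by rw [← inner_ap k]; rfl
  rw [e a, e b, inner_add_left, inner_add_right, inner_add_right, real_inner_smul_left,
    real_inner_smul_left, real_inner_smul_right, real_inner_smul_right, o,
    real_inner_comm (y b) (v a), o, hyy] at hlt
  have h4 := (real_inner_le_norm (v a) (v b)).trans
    (mul_le_mul (hvn a) (hvn b) (norm_nonneg _) (hs0 a))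
  have h5 := hz a b hab
  have h6 : ⟪z a, z b⟫ ≤ 0 := by
    by_contra h7
    have := mul_pos (mul_pos (hκ a) (hκ b)) (not_le.1 h7)
    have := mul_nonneg (hs0 a) (hs0 b)
    linarith
  have h7 : √(1 - s a ^ 2) * √(1 - s b ^ 2) ≤ c a * c b :=
    mul_le_mul (h1 a) (h1 b) (hκ b).le ((hκ a).le.trans (h1 a))
  nlinarith

end Pool.Agent.BL.SA
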