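import Pool.Agent.P.MP_edb112_gt.BLDense
import Pool.Agent.P.MP_edb112_gt.BLHilb
import Pool.Agent.P.MP_edb112_gt.Config

/-! The pair operator and its spectrum. -/

set_option autoImplicit false
set_option linter.unusedSectionVars false

open MeasureTheory Set Module Polynomial
open scoped RealInnerProductSpace NNReal

noncomputable section

namespace Pool.Agent.BL.SA

variable {E : Type} [NormedAddCommGroup E] [InnerProductSpace ℝ E] [CompleteSpace E]
  [FiniteDimensional ℝ E]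

theorem measurePreserving_ext (W : Submodule ℝ E) [CompleteSpace W] :
    MeasurePreserving (fun p : G E × G W => p.1 * ext W p.2) ((haar E).prod (haar W)) (haar E) := by
  have hm : Measurable fun p : G E × G W => p.1 * ext W p.2 :=
    (continuous_fst.mul ((continuous_ext W).comp continuous_snd)).measurable
  refine ⟨hm, Measure.ext fun s hs => ?_⟩
  rw [Measure.map_apply hm hs, Measure.prod_apply_symm (hm hs)]
  have : ∀ k : G W, haar E ((fun g => (g, k)) ⁻¹'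
      ((fun p : G E × G W => p.1 * ext W p.2) ⁻¹' s)) = haar E s := fun k =>
    measure_preimage_mul_right (haar E) (ext W k) s
  simp [this]

theorem integral_ext' (W : Submodule ℝ E) [CompleteSpace W] {F : G E → ℝ}
    (hF : Integrable F (haar E)) :
    ∫ g, F g ∂(haar E) = ∫ g, ∫ k, F (g * ext W k) ∂(haar W) ∂(haar E) := by
  have h := measurePreserving_ext W
  have hi := (h.integrable_comp hF.1).2 hF
  rw [← integral_prod (fun p : G E × G W => F (p.1 * ext W p.2)) hi]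
  conv_lhs => rw [← h.map_eq]
  rw [integral_map h.aemeasurable (by rw [h.map_eq]; exact hF.1)]

variable [MeasurableSpace E] [BorelSpace E] [Nontrivial E]

theorem integral_haar_pow (c y : E) (i : ℕ) :
    ∫ k, ⟪c, ap k y⟫ ^ i ∂(haar E) = ‖c‖ ^ i * ‖y‖ ^ i * mom E i := by
  obtain ⟨q, hq, hy⟩ : ∃ q : E, ‖q‖ = 1 ∧ y = ‖y‖ • q := by
    by_cases h : y = 0
    · obtain ⟨q, hq⟩ := exists_norm_eq E zero_le_one
      exact ⟨q, hq, by simp [h]⟩
    · exact ⟨‖y‖⁻¹ • y, by simp [norm_smul, h], by simp [smul_smul, h]⟩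
  have e : ∀ k : G E, ⟪c, ap k y⟫ ^ i = ⟪‖y‖ • c, ap k q⟫ ^ i := by
    intro k
    conv_lhs => rw [hy, ap_smul, real_inner_smul_right]
    rw [real_inner_smul_left]
  simp only [e]
  rw [integral_ap hq (f := fun x => ⟪‖y‖ • c, x⟫ ^ i) (by fun_prop), integral_inner_pow, norm_smul,
    mul_pow, norm_norm]
  ring

/-- evaluation along an orbit map -/
def io {x : E} (hx : ‖x‖ = 1) : Lp ℝ 2 (sph E) →L[ℝ] Lp ℝ 2 (haar E) :=
  (Lp.compMeasurePreservingₗᵢ ℝ _ (measurePreserving_ap hx)).toContinuousLinearMap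

theorem coeFn_io {x : E} (hx : ‖x‖ = 1) (f : Lp ℝ 2 (sph E)) :
    io hx f =ᵐ[haar E] fun g => f (ap g x) :=
  Lp.coeFn_compMeasurePreserving f (measurePreserving_ap hx)

/-- the pair operator -/
def pairT {x y : E} (hx : ‖x‖ = 1) (hy : ‖y‖ = 1) : Lp ℝ 2 (sph E) →L[ℝ] Lp ℝ 2 (sph E) :=
  (io hx).adjoint ∘L io hy

theorem inner_pairT {x y : E} (hx : ‖x‖ = 1) (hy : ‖y‖ = 1) (f f' : Lp ℝ 2 (sph E)) :
    ⟪f, pairT hx hy f'⟫ = ∫ g, f (ap g x) * f' (ap g y) ∂(haar E) := by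
  rw [pairT, ContinuousLinearMap.comp_apply, ContinuousLinearMap.adjoint_inner_right,
    L2.inner_def]
  refine integral_congr_ae ?_
  filter_upwards [coeFn_io hx f, coeFn_io hy f'] with g h1 h2
  rw [h1, h2]
  simp [mul_comm]

theorem pairT_symm {x y : E} (hx : ‖x‖ = 1) (hy : ‖y‖ = 1) (f f' : Lp ℝ 2 (sph E)) :
    ⟪pairT hx hy f, f'⟫ = ⟪f, pairT hx hy f'⟫ := by
  obtain ⟨k, h1, h2, -⟩ := exists_ap_eq (hx.trans hy.symm)
  rw [real_inner_comm, inner_pairT, inner_pairT,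
    ← integral_mul_right_eq_self (fun g => f (ap g x) * f' (ap g y)) k]
  simp only [ap_mul, h1, h2, mul_comm]

/-- the eigenvalues -/
def plam (W : Type) [NormedAddCommGroup W] [InnerProductSpace ℝ W] [CompleteSpace W]
    [FiniteDimensional ℝ W] [MeasurableSpace W] (r σ : ℝ) (j : ℕ) : ℝ :=
  ∑ m ∈ Finset.range (j + 1), σ ^ m * mom W m * r ^ (j - m) * j.choose m * (-1) ^ (m / 2)

theorem abs_plam_le {r σ : ℝ} (h : r ^ 2 + σ ^ 2 = 1) {j : ℕ} (hj : 2 ≤ j) :
    |plam E r σ j| ≤ r ^ 2 + 1 / finrank ℝ E := by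
  obtain ⟨x0, hx0⟩ := exists_norm_eq E zero_le_one
  have hp := norm_pt hx0
  have e1 : ∀ ξ : ℝ, ((σ * ξ * Complex.I + r) ^ j).re = ∑ m ∈ Finset.range (j + 1),
      ξ ^ m * (σ ^ m * r ^ (j - m) * j.choose m * (Complex.I ^ m).re) := by
    intro ξ
    rw [add_pow, Complex.re_sum]
    refine Finset.sum_congr rfl fun m _ => ?_
    have : ((σ : ℂ) * ξ * Complex.I) ^ m * (r : ℂ) ^ (j - m) * (j.choose m : ℂ) =
        ((ξ ^ m * (σ ^ m * r ^ (j - m) * j.choose m) : ℝ) : ℂ) * Complex.I ^ m := by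
      push_cast
      ring
    rw [this, Complex.re_ofReal_mul]
    ring
  have e2 : plam E r σ j = ∫ x, ((σ * ⟪pt E, x⟫ * Complex.I + r) ^ j).re ∂(sph E) := by
    simp only [e1]
    rw [integral_finsetSum _ fun m _ => integrable_sph (by fun_prop), plam]
    refine Finset.sum_congr rfl fun m _ => ?_
    rw [integral_mul_const]
    change _ = mom E m * _
    rcases Nat.even_or_odd' m with ⟨l, rfl | rfl⟩
    · rw [pow_mul Complex.I, Complex.I_sq, Nat.mul_div_cancel_left _ two_pos]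
      have : ((-1 : ℂ) ^ l).re = (-1) ^ l := by
        rw [← Complex.ofReal_one, ← Complex.ofReal_neg, ← Complex.ofReal_pow, Complex.ofReal_re]
      rw [this]
      ring
    · rw [mom_odd (odd_two_mul_add_one l)]
      ring
  have b : ∀ᵐ x ∂(sph E), ‖((σ * ⟪pt E, x⟫ * Complex.I + r) ^ j).re‖ ≤ r ^ 2 + ⟪pt E, x⟫ ^ 2 := by
    filter_upwards [ae_norm] with x hx
    have h1 := abs_real_inner_le_norm (pt E) x
    rw [hp, hx, mul_one] at h1
    have h2 : ⟪pt E, x⟫ ^ 2 ≤ 1 := (sq_le_one_iff_abs_le_one _).2 h1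
    set ξ := ⟪pt E, x⟫
    have h3 : ‖(σ * ξ * Complex.I + r : ℂ)‖ ^ 2 = r ^ 2 + σ ^ 2 * ξ ^ 2 := by
      rw [Complex.sq_norm, Complex.normSq_apply]
      simp
      ring
    have h4 : ‖(σ * ξ * Complex.I + r : ℂ)‖ ≤ 1 := by
      refine (sq_le_one_iff₀ (norm_nonneg _)).1 ?_
      nlinarith [sq_nonneg σ]
    refine (Complex.abs_re_le_norm _).trans ?_
    rw [norm_pow]
    refine (pow_le_pow_of_le_one (norm_nonneg _) h4 hj).trans ?_
    nlinarith [sq_nonneg r, sq_nonneg ξ]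
  rw [e2]
  refine (norm_integral_le_of_norm_le (integrable_sph (by fun_prop)) b).trans ?_
  rw [integral_add (integrable_const _) (integrable_sph (by fun_prop))]
  have := mom_two (E := E)
  rw [mom] at this
  rw [this]
  simp

theorem pairT_pl (hn : 2 ≤ finrank ℝ E) {x y : E} (hx : ‖x‖ = 1) (hy : ‖y‖ = 1) (a : E) (j : ℕ) :
    pairT hx hy (pl a (X ^ j)) = pl a (∑ m ∈ Finset.range (j + 1),
      C (‖y - ⟪x, y⟫ • x‖ ^ m * mom (ℝ ∙ x)ᗮ m * ⟪x, y⟫ ^ (j - m) * j.choose m * (-1) ^ (m / 2)) *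
        ((X ^ 2 - C (‖a‖ ^ 2)) ^ (m / 2) * X ^ (j - m))) := by
  have hW := finrank_orth hx
  have : Nontrivial (ℝ ∙ x)ᗮ := Module.nontrivial_of_finrank_pos (R := ℝ) (by omega)
  refine ext_inner_left ℝ fun f => ?_
  have hf : Integrable f (sph E) := (Lp.memLp f).integrable one_le_two
  have hf' : Integrable (fun g => f (ap g x)) (haar E) :=
    ((measurePreserving_ap hx).integrable_comp hf.1).2 hf
  rw [inner_pairT, inner_pl, ← integral_ap hx (integrable_mul_cont hf (cont_pl a _)).1]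
  have e1 : ∫ g, f (ap g x) * pl a (X ^ j) (ap g y) ∂(haar E) =
      ∫ g, f (ap g x) * ⟪a, ap g y⟫ ^ j ∂(haar E) := by
    refine integral_congr_ae ?_
    filter_upwards [(measurePreserving_ap hy).quasiMeasurePreserving.ae_eq_comp
      (coeFn_pl a (X ^ j))] with g hg
    simp only [Function.comp_apply, eval_pow, eval_X] at hg
    rw [hg]
  have i1 : Integrable (fun g => f (ap g x) * ⟪a, ap g y⟫ ^ j) (haar E) := by
    refine hf'.mul_bdd (c := ‖a‖ ^ j) (Continuous.aestronglyMeasurable (by fun_prop))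
      (Filter.Eventually.of_forall fun g => ?_)
    have := abs_real_inner_le_norm a (ap g y)
    rw [norm_ap, hy, mul_one] at this
    rw [norm_pow]
    exact pow_le_pow_left₀ (norm_nonneg _) this _
  rw [e1, integral_ext' (ℝ ∙ x)ᗮ i1]
  refine integral_congr_ae (Filter.Eventually.of_forall fun g => ?_)
  have hxx : ⟪x, x⟫ = 1 := by rw [real_inner_self_eq_norm_sq, hx, one_pow]
  have hxo : x ∈ (ℝ ∙ x)ᗮᗮ :=
    Submodule.le_orthogonal_orthogonal _ (Submodule.mem_span_singleton_self x)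
  have hm : ∀ z : E, z - ⟪x, z⟫ • x ∈ (ℝ ∙ x)ᗮ := fun z =>
    Submodule.mem_orthogonal_singleton_iff_inner_right.2 (by
      rw [inner_sub_right, real_inner_smul_right, hxx, mul_one, sub_self])
  set y' : (ℝ ∙ x)ᗮ := ⟨_, hm y⟩ with hy'
  set c : (ℝ ∙ x)ᗮ := ⟨_, hm (ap g⁻¹ a)⟩ with hc
  set s := ⟪a, ap g x⟫ with hs
  have hs' : ⟪x, ap g⁻¹ a⟫ = s := by rw [← inner_ap_left, real_inner_comm]
  have hcn : ‖c‖ ^ 2 = ‖a‖ ^ 2 - s ^ 2 := by
    change ‖ap g⁻¹ a - ⟪x, ap g⁻¹ a⟫ • x‖ ^ 2 = _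
    rw [norm_sub_sq_real, norm_ap, real_inner_smul_right, real_inner_comm x, hs', norm_smul, hx,
      mul_one, Real.norm_eq_abs, sq_abs]
    ring
  have e2 : ∀ k : G (ℝ ∙ x)ᗮ, ⟪a, ap (g * ext _ k) y⟫ = ⟪c, ap k y'⟫ + ⟪x, y⟫ * s := by
    intro k
    have h1 : y = (y' : E) + ⟪x, y⟫ • x := by simp [hy']
    have h2 : ⟪x, ((ap k y' : (ℝ ∙ x)ᗮ) : E)⟫ = 0 :=
      Submodule.mem_orthogonal_singleton_iff_inner_right.1 (ap k y').2
    conv_lhs => rw [ap_mul, h1, ap_add, ap_smul, ap_ext_coe, ap_ext_orth _ _ hxo, ap_add, ap_smul,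
      inner_add_right, real_inner_smul_right, real_inner_comm, inner_ap_left, real_inner_comm]
    rw [Submodule.coe_inner]
    congr 1
    change _ = ⟪ap g⁻¹ a - ⟪x, ap g⁻¹ a⟫ • x, _⟫
    rw [inner_sub_left, real_inner_smul_left, h2, mul_zero, sub_zero]
  simp only [e2]
  simp only [ap_mul, ap_ext_orth _ _ hxo]
  rw [integral_const_mul]
  congr 1
  simp only [add_pow]
  rw [integral_finsetSum _ fun m _ => integrable_haar (by fun_prop), eval_finsetSum]
  refine Finset.sum_congr rfl fun m _ => ?_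
  rw [integral_mul_const, integral_mul_const, integral_haar_pow]
  simp only [eval_mul, eval_C, eval_pow, eval_sub, eval_X, ← hs]
  change _ = ‖y'‖ ^ m * _ * _ * _ * _ * _
  rcases Nat.even_or_odd' m with ⟨l, rfl | rfl⟩
  · rw [pow_mul ‖c‖, hcn, Nat.mul_div_cancel_left _ two_pos, ← neg_sub (s ^ 2), neg_pow, mul_pow]
    ring
  · rw [mom_odd (odd_two_mul_add_one l)]
    ring

theorem pairT_tri (hn : 2 ≤ finrank ℝ E) {x y : E} (hx : ‖x‖ = 1) (hy : ‖y‖ = 1) (a : E) (j : ℕ) :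
    pairT hx hy (pl a (X ^ j)) - plam (ℝ ∙ x)ᗮ ⟪x, y⟫ ‖y - ⟪x, y⟫ • x‖ j • pl a (X ^ j) ∈
      fil (E := E) j := by
  have hW := finrank_orth hx
  have : Nontrivial (ℝ ∙ x)ᗮ := Module.nontrivial_of_finrank_pos (R := ℝ) (by omega)
  rw [pairT_pl hn, ← map_smul, ← map_sub]
  refine pl_mem_fil a ?_
  rw [plam, Finset.sum_smul, ← Finset.sum_sub_distrib]
  refine Submodule.sum_mem _ fun m hm => ?_
  rw [← smul_eq_C_mul, ← smul_sub]
  rcases Nat.even_or_odd' m with ⟨l, rfl | rfl⟩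
  · refine Submodule.smul_mem _ _ (mem_degreeLT.2 ?_)
    rw [Nat.mul_div_cancel_left _ two_pos]
    have h1 : (X ^ 2 - C (‖a‖ ^ 2) : ℝ[X]).Monic := monic_X_pow_sub_C _ two_ne_zero
    have h2 := (h1.pow (n := l)).mul (monic_X_pow (j - 2 * l))
    have h3 : ((X ^ 2 - C (‖a‖ ^ 2) : ℝ[X]) ^ l * X ^ (j - 2 * l)).natDegree = j := by
      rw [(h1.pow (n := l)).natDegree_mul (monic_X_pow _), h1.natDegree_pow,
        natDegree_X_pow_sub_C, natDegree_X_pow]
      have := Finset.mem_range.1 hm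
      omega
    have h4 := degree_sub_lt_right (q := X ^ j)
      (by rw [degree_eq_natDegree h2.ne_zero, h3, degree_X_pow]) (monic_X_pow j).ne_zero
      (h2.leadingCoeff.trans (monic_X_pow j).leadingCoeff.symm)
    rwa [degree_X_pow] at h4
  · rw [mom_odd (odd_two_mul_add_one l)]
    simp

theorem abs_pairT_le (hn : 2 ≤ finrank ℝ E) {x y : E} (hx : ‖x‖ = 1) (hy : ‖y‖ = 1)
    (f : Lp ℝ 2 (sph E)) (hf : ∀ v ∈ fil (E := E) 2, ⟪v, f⟫ = 0) :
    |⟪f, pairT hx hy f⟫| ≤ (⟪x, y⟫ ^ 2 + 1 / (finrank ℝ E - 1)) * ‖f‖ ^ 2 := by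
  have hW := finrank_orth hx
  have : Nontrivial (ℝ ∙ x)ᗮ := Module.nontrivial_of_finrank_pos (R := ℝ) (by omega)
  refine spec_bound _ (pairT_symm hx hy) fil fil_mono (plam (ℝ ∙ x)ᗮ ⟪x, y⟫ ‖y - ⟪x, y⟫ • x‖)
    (fun j v hv => ?_) (fun v hv => ?_) fil_dense 2 _ (fun j hj => ?_) f hf
  · refine fil_induction (S := (fil j).comap ((pairT hx hy : _ →ₗ[ℝ] _) -
      plam (ℝ ∙ x)ᗮ ⟪x, y⟫ ‖y - ⟪x, y⟫ • x‖ j • LinearMap.id)) (fun a i hi => ?_) hv
    change pairT hx hy (pl a (X ^ i)) - plam (ℝ ∙ x)ᗮ ⟪x, y⟫ ‖y - ⟪x, y⟫ • x‖ j • pl a (X ^ i) ∈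
      fil (E := E) j
    rcases (Nat.lt_succ_iff.1 hi).eq_or_lt with rfl | hi
    · exact pairT_tri hn hx hy a i
    · have h1 := fil_mono hi.le (pairT_tri hn hx hy a i)
      have h2 : pl a (X ^ i) ∈ fil (E := E) j :=
        pl_mem_fil a (mem_degreeLT.2 (by rw [degree_X_pow]; exact_mod_cast hi))
      exact sub_mem ((Submodule.sub_mem_iff_left _ (Submodule.smul_mem _ _ h2)).1 h1)
        (Submodule.smul_mem _ _ h2)
  · exact fil_induction (S := ⊥) (fun a i hi => absurd hi (Nat.not_lt_zero i)) hv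
  · have h1 : (finrank ℝ E : ℝ) - 1 = finrank ℝ (ℝ ∙ x)ᗮ := by
      rw [← hW]
      simp
    rw [h1]
    refine abs_plam_le ?_ hj
    rw [norm_sub_sq_real, hy, real_inner_smul_right, real_inner_comm, norm_smul, hx,
      mul_one, Real.norm_eq_abs, sq_abs]
    ring

/-- the barycentre of a set -/
def bary (K : Set E) : E := ∫ z in K, z ∂(sph E)

theorem integrable_id_sph : Integrable (fun z : E => z) (sph E) :=
  Integrable.of_bound continuous_id.aestronglyMeasurable 1 (ae_norm.mono fun _ h => h.le)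

theorem inner_bary (a : E) (K : Set E) : ⟪a, bary K⟫ = ∫ z in K, ⟪a, z⟫ ∂(sph E) :=
  (integral_inner integrable_id_sph.integrableOn a).symm

theorem pair_expand (hn : 2 ≤ finrank ℝ E) {K : Set E} (hK : MeasurableSet K) :
    finrank ℝ E * ‖bary K‖ ^ 2 ≤ 1 ∧ ∀ x y : E, ‖x‖ = 1 → ‖y‖ = 1 →
      |(haar E).real {g | ap g x ∈ K ∧ ap g y ∈ K} - (sph E).real K ^ 2 -
        ⟪x, y⟫ * (finrank ℝ E * ‖bary K‖ ^ 2)| ≤ ⟪x, y⟫ ^ 2 + 1 / (finrank ℝ E - 1) := by
  set n : ℝ := (finrank ℝ E : ℝ) with hnd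
  have hn0 : 2 ≤ n := by rw [hnd]; exact_mod_cast hn
  set b := bary K with hb
  set μ := (sph E).real K with hμ
  let χ : Lp ℝ 2 (sph E) := indicatorConstLp 2 hK (measure_ne_top _ _) 1
  have hχ : χ =ᵐ[sph E] K.indicator fun _ => (1 : ℝ) := indicatorConstLp_coeFn
  have iχ : ∀ (a : E) (P : ℝ[X]), ⟪χ, pl a P⟫ = ∫ z in K, P.eval ⟪a, z⟫ ∂(sph E) := by
    intro a P
    rw [inner_pl, ← integral_indicator hK]
    refine integral_congr_ae ?_
    filter_upwards [hχ] with z hz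
    rw [hz]
    by_cases h : z ∈ K <;> simp [h]
  have ipl : ∀ (a a' : E) (P P' : ℝ[X]), ⟪pl a P, pl a' P'⟫ =
      ∫ z, P.eval ⟪a, z⟫ * P'.eval ⟪a', z⟫ ∂(sph E) := by
    intro a a' P P'
    rw [inner_pl]
    refine integral_congr_ae ?_
    filter_upwards [coeFn_pl a P] with z hz
    rw [hz]
  set o := pl b (X ^ 0) with ho
  set l := pl b (X ^ 1) with hl
  have c0 : ∀ a : E, ⟪χ, pl a (X ^ 0)⟫ = μ := fun a => by simp [iχ, hμ]
  have c1 : ∀ a : E, ⟪χ, pl a (X ^ 1)⟫ = ⟪a, b⟫ := fun a => by simp [iχ, hb, inner_bary]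
  have o0 : ∀ a : E, ⟪o, pl a (X ^ 0)⟫ = 1 := fun a => by simp [ho, ipl]
  have o1 : ∀ a : E, ⟪o, pl a (X ^ 1)⟫ = 0 := fun a => by simp [ho, ipl, integral_inner_zero]
  have l0 : ∀ a : E, ⟪l, pl a (X ^ 0)⟫ = 0 := fun a => by simp [hl, ipl, integral_inner_zero]
  have l1 : ∀ a : E, ⟪l, pl a (X ^ 1)⟫ = ⟪a, b⟫ / n := fun a => by
    rw [real_inner_comm b a]
    simp [hl, ipl, integral_inner_mul, hnd]
  set f := χ - μ • o - n • l with hf
  have f0 : ∀ a : E, ⟪f, pl a (X ^ 0)⟫ = 0 := fun a => by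
    rw [hf, inner_sub_left, inner_sub_left, real_inner_smul_left, real_inner_smul_left, c0, o0, l0]
    ring
  have f1 : ∀ a : E, ⟪f, pl a (X ^ 1)⟫ = 0 := fun a => by
    rw [hf, inner_sub_left, inner_sub_left, real_inner_smul_left, real_inner_smul_left, c1, o1, l1]
    field_simp
    ring
  have hf2 : ∀ v ∈ fil (E := E) 2, ⟪v, f⟫ = 0 := by
    intro v hv
    refine Submodule.mem_orthogonal_singleton_iff_inner_left.1 (fil_induction
      (S := (ℝ ∙ f)ᗮ) (fun a i hi => ?_) hv)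
    rw [Submodule.mem_orthogonal_singleton_iff_inner_right]
    interval_cases i
    · exact f0 a
    · exact f1 a
  have hχχ : ⟪χ, χ⟫ = μ := by
    rw [real_inner_self_eq_norm_sq, norm_indicatorConstLp two_ne_zero ENNReal.ofNat_ne_top,
      norm_one, one_mul, ← Real.rpow_natCast, ← Real.rpow_mul measureReal_nonneg]
    simp [hμ]
  have e : χ = f + μ • o + n • l := by rw [hf]; abel
  have hbb : ⟪b, b⟫ = ‖b‖ ^ 2 := real_inner_self_eq_norm_sq b
  have hff : ‖f‖ ^ 2 = μ - μ ^ 2 - n * ‖b‖ ^ 2 := by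
    have h1 : ⟪f, f⟫ = ⟪f, χ⟫ := by
      conv_rhs => rw [e, inner_add_right, inner_add_right, real_inner_smul_right,
        real_inner_smul_right, f0, f1]
      ring
    rw [← real_inner_self_eq_norm_sq, h1, real_inner_comm, hf, inner_sub_right, inner_sub_right,
      real_inner_smul_right, real_inner_smul_right, hχχ, c0, c1, hbb]
    ring
  have hμ1 : μ ≤ 1 := measureReal_le_one
  have hμ0 : 0 ≤ μ := measureReal_nonneg
  have hnb : 0 ≤ n * ‖b‖ ^ 2 := by positivity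
  refine ⟨by nlinarith [sq_nonneg ‖f‖], fun x y hx hy => ?_⟩
  have hW := finrank_orth hx
  have : Nontrivial (ℝ ∙ x)ᗮ := Module.nontrivial_of_finrank_pos (R := ℝ) (by omega)
  have To : pairT hx hy o = o := by
    rw [ho, pairT_pl hn]
    simp [mom_zero]
  have Tl : pairT hx hy l = ⟪x, y⟫ • l := by
    rw [hl, pairT_pl hn, ← map_smul]
    simp [mom_zero, Finset.sum_range_succ, mom_odd odd_one, smul_eq_C_mul]
  have e1 : (haar E).real {g | ap g x ∈ K ∧ ap g y ∈ K} = ⟪χ, pairT hx hy χ⟫ := by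
    have hm : MeasurableSet {g : G E | ap g x ∈ K ∧ ap g y ∈ K} :=
      (measurable_ap x hK).inter (measurable_ap y hK)
    rw [inner_pairT, ← integral_indicator_one hm]
    refine integral_congr_ae ?_
    filter_upwards [(measurePreserving_ap hx).quasiMeasurePreserving.ae_eq_comp hχ,
      (measurePreserving_ap hy).quasiMeasurePreserving.ae_eq_comp hχ] with g h1 h2
    simp only [Function.comp_apply] at h1 h2
    rw [h1, h2]
    by_cases h3 : ap g x ∈ K <;> by_cases h4 : ap g y ∈ K <;> simp [h3, h4]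
  have e2 : ⟪χ, pairT hx hy χ⟫ = ⟪f, pairT hx hy f⟫ + μ ^ 2 + ⟪x, y⟫ * (n * ‖b‖ ^ 2) := by
    have h1 : ⟪χ, pairT hx hy f⟫ = ⟪f, pairT hx hy f⟫ := by
      conv_lhs => rw [e, inner_add_left, inner_add_left, real_inner_smul_left,
        real_inner_smul_left, ← pairT_symm hx hy o, ← pairT_symm hx hy l, To, Tl,
        real_inner_smul_left, real_inner_comm f o, real_inner_comm f l, f0, f1]
      ring
    have h2 : pairT hx hy χ = pairT hx hy f + μ • o + n • ⟪x, y⟫ • l := by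
      conv_lhs => rw [e, map_add, map_add, map_smul, map_smul, To, Tl]
    rw [h2, inner_add_right, inner_add_right, real_inner_smul_right, real_inner_smul_right,
      real_inner_smul_right, h1, c0, c1, hbb]
    ring
  rw [e1, e2, show ∀ u v w : ℝ, u + v + w - v - w = u from fun u v w => by ring]
  refine (abs_pairT_le hn hx hy f hf2).trans (mul_le_of_le_one_right ?_ (by nlinarith))
  have : 0 < n - 1 := by linarith
  positivity

end Pool.Agent.BL.SA
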