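import Pool.Agent.P.MP_edb112_gt.BLLev
import Pool.Agent.P.MP_edb112_gt.BLCube

/-! Fourth moments of polynomials on the sphere and small set expansion. -/

set_option autoImplicit false
set_option linter.unusedSectionVars false

open MeasureTheory Set Module Filter
open scoped RealInnerProductSpace Topology

noncomputable section

namespace Pool.Agent.BL.Lev

open _root_.Pool.Agent.BL.Cube

variable {E : Type} [NormedAddCommGroup E] [InnerProductSpace ℝ E] [CompleteSpace E]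
  [FiniteDimensional ℝ E] [MeasurableSpace E] [BorelSpace E] [Nontrivial E]

variable (E) in
/-- the vertices of the cube inscribed in the sphere -/
def cv (ε : Fin (finrank ℝ E) → Bool) : E :=
  ∑ l, (sg (ε l) / √(finrank ℝ E)) • stdOrthonormalBasis ℝ E l

theorem inner_cv (a : E) (ε : Fin (finrank ℝ E) → Bool) :
    ⟪a, cv E ε⟫ = ∑ l, ⟪a, stdOrthonormalBasis ℝ E l⟫ / √(finrank ℝ E) * sg (ε l) := by
  rw [cv, inner_sum]
  exact Finset.sum_congr rfl fun l _ => by rw [real_inner_smul_right]; ring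

theorem sum_inner_cv_sq (a : E) :
    ∑ ε, ⟪a, cv E ε⟫ ^ 2 = 2 ^ finrank ℝ E * (‖a‖ ^ 2 / finrank ℝ E) := by
  simp only [inner_cv]
  rw [sum_lin_sq]
  simp only [div_pow, ← Finset.sum_div, Real.sq_sqrt (Nat.cast_nonneg (finrank ℝ E))]
  rw [(stdOrthonormalBasis ℝ E).sum_sq_inner_left]

theorem norm_cv (ε : Fin (finrank ℝ E) → Bool) : ‖cv E ε‖ = 1 := by
  have hn : (0 : ℝ) < finrank ℝ E := by exact_mod_cast finrank_pos
  have h1 : ∀ l, ⟪stdOrthonormalBasis ℝ E l, cv E ε⟫ = sg (ε l) / √(finrank ℝ E) := fun l =>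
    (stdOrthonormalBasis ℝ E).orthonormal.inner_right_fintype _ l
  have h2 := (stdOrthonormalBasis ℝ E).sum_sq_inner_right (cv E ε)
  simp only [h1, div_pow, sg_sq, Real.sq_sqrt hn.le, Finset.sum_const, Finset.card_univ,
    Fintype.card_fin, nsmul_eq_mul] at h2
  rw [mul_one_div_cancel hn.ne'] at h2
  exact (sq_eq_sq₀ (norm_nonneg _) zero_le_one).1 (by rw [← h2]; ring)

theorem dg_of_mem {J : ℕ} {q : C(E, ℝ)} (hq : q ∈ VF E J) (g : G E) :
    Dg (finrank ℝ E) J fun ε => q (ap g (cv E ε)) := by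
  induction hq using Submodule.span_induction with
  | mem q hq =>
    obtain ⟨a, i, hi, rfl⟩ := hq
    refine ((dg_pow (fun l => ⟪ap g⁻¹ a, stdOrthonormalBasis ℝ E l⟫ / √(finrank ℝ E)) i).mono
      hi).congr fun ε => ?_
    rw [ContinuousMap.pow_apply, lf_apply, ← inner_cv, real_inner_comm, inner_ap_left,
      real_inner_comm]
  | zero => exact dg_zero _
  | add p q _ _ h1 h2 => exact (h1.lin 1 1 h2).congr fun ε => by simp
  | smul c p _ h1 => exact (h1.lin c 0 h1).congr fun ε => by simp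

theorem sum_abs_inner_cv {x : E} (hx : ‖x‖ = 1) :
    ∑ ε, |⟪x, cv E ε⟫| ≤ 2 ^ finrank ℝ E * (1 / √(finrank ℝ E)) := by
  have hn : (0 : ℝ) < finrank ℝ E := by exact_mod_cast finrank_pos
  have hq : 0 < √(finrank ℝ E) := Real.sqrt_pos.2 hn
  have hqq : √(finrank ℝ E) * √(finrank ℝ E) = finrank ℝ E := Real.mul_self_sqrt hn.le
  have h := sum_inner_cv_sq x
  set q := √(finrank ℝ E) with hqd
  rw [hx, ← hqq] at h
  calc _ ≤ ∑ ε, (1 / (2 * q) + q / 2 * ⟪x, cv E ε⟫ ^ 2) := by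
        refine Finset.sum_le_sum fun ε _ => ?_
        set ξ := ⟪x, cv E ε⟫
        rw [← sq_abs ξ, ← sub_nonneg]
        have : 1 / (2 * q) + q / 2 * |ξ| ^ 2 - |ξ| = (q * |ξ| - 1) ^ 2 / (2 * q) := by
          field_simp
          ring
        rw [this]
        positivity
    _ = _ := by
        rw [Finset.sum_add_distrib, ← Finset.mul_sum, h]
        simp only [Finset.sum_const, Finset.card_univ, Fintype.card_fun, Fintype.card_bool,
          Fintype.card_fin, nsmul_eq_mul]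
        push_cast
        field_simp
        ring

/-- fourth moments of polynomials of low degree in high dimension -/
theorem fourth_le (hn : 2 ≤ finrank ℝ E) {J : ℕ} (hJ : 4 * 9 ^ J ≤ √(finrank ℝ E - 1))
    {q : C(E, ℝ)} (hq : q ∈ VF E J) :
    ∫ z, q z ^ 4 ∂(sph E) ≤ 2 * 9 ^ J * (∫ z, q z ^ 2 ∂(sph E)) ^ 2 := by
  have hn' : (2 : ℝ) ≤ finrank ℝ E := by exact_mod_cast hn
  set N := finrank ℝ E with hN
  set Q4 := ∫ z, q z ^ 4 ∂(sph E) with hQ4
  set Q2 := ∫ z, q z ^ 2 ∂(sph E) with hQ2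
  have h40 : 0 ≤ Q4 := integral_nonneg fun z => by positivity
  have hm : MemLp (fun z => q z ^ 2) 2 (sph E) := memLp_cont (q ^ 2)
  have hs : 0 < √((N : ℝ) - 1) := Real.sqrt_pos.2 (by linarith)
  have h1 : ∀ ε ε', ∫ g, q (ap g (cv E ε)) ^ 2 * q (ap g (cv E ε')) ^ 2 ∂(haar E) ≤
      Q2 ^ 2 + (|⟪cv E ε, cv E ε'⟫| + 1 / √((N : ℝ) - 1)) * Q4 := by
    intro ε ε'
    have := (abs_le.1 (pair_gap (norm_cv ε) (norm_cv ε') hn hm hm)).2
    simp only [← pow_mul] at this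
    rw [mul_assoc, Real.mul_self_sqrt h40] at this
    nlinarith
  have h2 : ∫ g, 2 ^ N * ∑ ε, q (ap g (cv E ε)) ^ 4 ∂(haar E) ≤
      ∫ g, 9 ^ J * ∑ ε, ∑ ε', q (ap g (cv E ε)) ^ 2 * q (ap g (cv E ε')) ^ 2 ∂(haar E) := by
    refine integral_mono (integrable_haar (by fun_prop)) (integrable_haar (by fun_prop)) fun g => ?_
    have := bonami (dg_of_mem hq g)
    rwa [sq (∑ _, _), Finset.sum_mul_sum] at this
  rw [integral_const_mul, integral_const_mul,
    integral_finsetSum _ fun ε _ => integrable_haar (by fun_prop),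
    integral_finsetSum _ fun ε _ => integrable_haar (by fun_prop)] at h2
  have h3 : ∀ ε, ∫ g, q (ap g (cv E ε)) ^ 4 ∂(haar E) = Q4 := fun ε =>
    integral_ap (norm_cv ε) (f := fun z => q z ^ 4) (Continuous.aestronglyMeasurable (by fun_prop))
  have h4 : ∀ ε, ∫ g, ∑ ε', q (ap g (cv E ε)) ^ 2 * q (ap g (cv E ε')) ^ 2 ∂(haar E) ≤
      2 ^ N * (Q2 ^ 2 + 2 / √((N : ℝ) - 1) * Q4) := by
    intro ε
    rw [integral_finsetSum _ fun ε _ => integrable_haar (by fun_prop)]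
    refine (Finset.sum_le_sum fun ε' _ => h1 ε ε').trans ?_
    have h5 := sum_abs_inner_cv (norm_cv ε)
    have h6 : 1 / √(N : ℝ) ≤ 1 / √((N : ℝ) - 1) := by
      gcongr
      linarith
    have h7 : ∑ ε', |⟪cv E ε, cv E ε'⟫| ≤ 2 ^ N * (1 / √((N : ℝ) - 1)) :=
      h5.trans (by gcongr)
    simp only [add_mul, Finset.sum_add_distrib, ← Finset.sum_mul, Finset.sum_const,
      Finset.card_univ, Fintype.card_fun, Fintype.card_bool, Fintype.card_fin, nsmul_eq_mul]
    push_cast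
    have h8 := mul_le_mul_of_nonneg_right h7 h40
    have e : 2 / √((N : ℝ) - 1) = 2 * (1 / √((N : ℝ) - 1)) := by ring
    rw [e]
    nlinarith
  have h5 := Finset.sum_le_sum fun ε (_ : ε ∈ Finset.univ) => h4 ε
  simp only [h3] at h2
  simp only [Finset.sum_const, Finset.card_univ, Fintype.card_fun, Fintype.card_bool,
    Fintype.card_fin, nsmul_eq_mul] at h2 h5
  push_cast at h2 h5
  have h6 : (2 : ℝ) ^ N * (2 ^ N * Q4) ≤
      2 ^ N * (2 ^ N * (9 ^ J * (Q2 ^ 2 + 2 / √((N : ℝ) - 1) * Q4))) :=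
    h2.trans ((mul_le_mul_of_nonneg_left h5 (by positivity)).trans (le_of_eq (by ring)))
  have h7 := le_of_mul_le_mul_left (le_of_mul_le_mul_left h6 (by positivity)) (by positivity)
  have h8 : 9 ^ J * (2 / √((N : ℝ) - 1)) ≤ 1 / 2 := by
    rw [← mul_div_assoc, div_le_iff₀ hs]
    linarith
  nlinarith [mul_le_mul_of_nonneg_right h8 h40]

theorem le_sqrt_of_forall {A b c : ℝ} (hb : 0 ≤ b) (hc : 0 ≤ c)
    (h : ∀ t : ℝ, 0 ≤ b * (t * t) + 2 * A * t + c) : A ≤ √(b * c) := by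
  have := discrim_le_zero h
  rw [discrim] at this
  exact Real.le_sqrt_of_sq_le (by nlinarith)

/-- functions of small mean have small low levels -/
theorem low_le (hn : 2 ≤ finrank ℝ E) {J : ℕ} (hJ : 4 * 9 ^ J ≤ √(finrank ℝ E - 1)) {δ : ℝ}
    (hδ : 0 < δ) {f : E → ℝ} (hf : MemLp f 2 (sph E)) (h01 : ∀ᵐ z ∂(sph E), 0 ≤ f z ∧ f z ≤ 1)
    (hb : ∫ z, f z ∂(sph E) ≤ δ ^ 2 / (2 * 9 ^ J)) {v : Lp ℝ 2 (sph E)} (hv : v ∈ W E J) :
    ⟪hf.toLp f, v⟫ ≤ √(δ * ∫ z, f z ∂(sph E)) * ‖v‖ := by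
  refine W_induction (P := fun v => ⟪hf.toLp f, v⟫ ≤ √(δ * ∫ z, f z ∂(sph E)) * ‖v‖)
    (isClosed_le (by fun_prop) (by fun_prop)) (fun q hq => ?_) hv
  rw [inner_eq hf.coeFn_toLp (coe_toL q), norm_eq (coe_toL q)]
  have h4 := fourth_le hn hJ hq
  set b := ∫ z, f z ∂(sph E) with hbd
  set Q2 := ∫ z, q z ^ 2 ∂(sph E) with hQ2
  have hb0 : 0 ≤ b := integral_nonneg_of_ae (h01.mono fun z hz => hz.1)
  have h20 : 0 ≤ Q2 := integral_nonneg fun z => by positivity
  have hf1 := hf.integrable one_le_two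
  have i1 : Integrable (fun z => f z * q z) (sph E) := hf.integrable_mul (memLp_cont q)
  have i2 : Integrable (fun z => f z * q z ^ 2) (sph E) := hf.integrable_mul (memLp_cont (q ^ 2))
  have i4 : Integrable (fun z => q z ^ 4) (sph E) := integrable_of_continuousOn (by fun_prop)
  have h1 : ∫ z, f z * q z ^ 2 ∂(sph E) ≤ √(b * ∫ z, q z ^ 4 ∂(sph E)) := by
    refine le_sqrt_of_forall hb0 (integral_nonneg fun z => by positivity) fun t => ?_
    have i5 : Integrable (fun z => f z * (t * t) + 2 * t * (f z * q z ^ 2)) (sph E) :=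
      (hf1.mul_const _).add (i2.const_mul _)
    have : 0 ≤ ∫ z, f z * (t * t) + 2 * t * (f z * q z ^ 2) + q z ^ 4 ∂(sph E) := by
      refine integral_nonneg_of_ae (h01.mono fun z hz => ?_)
      have h5 := mul_nonneg hz.1 (sq_nonneg (t + q z ^ 2))
      have h6 := mul_nonneg (sub_nonneg.2 hz.2) (by positivity : 0 ≤ q z ^ 4)
      simp only [Pi.zero_apply]
      nlinarith
    rw [integral_add i5 i4, integral_add (hf1.mul_const _) (i2.const_mul _), integral_mul_const,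
      integral_const_mul] at this
    linarith
  have h2 : ∫ z, f z * q z ^ 2 ∂(sph E) ≤ δ * Q2 := by
    refine h1.trans (Real.sqrt_le_iff.2 ⟨by positivity, ?_⟩)
    rw [le_div_iff₀ (by positivity)] at hb
    calc _ ≤ b * (2 * 9 ^ J * Q2 ^ 2) := by gcongr
      _ = b * (2 * 9 ^ J) * Q2 ^ 2 := by ring
      _ ≤ δ ^ 2 * Q2 ^ 2 := by gcongr
      _ = _ := by ring
  rw [← Real.sqrt_mul (by positivity), show δ * b * Q2 = b * (δ * Q2) by ring]
  refine le_sqrt_of_forall hb0 (by positivity) fun t => ?_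
  have i5 : Integrable (fun z => f z * (t * t) + 2 * t * (f z * q z)) (sph E) :=
    (hf1.mul_const _).add (i1.const_mul _)
  have : 0 ≤ ∫ z, f z * (t * t) + 2 * t * (f z * q z) + f z * q z ^ 2 ∂(sph E) := by
    refine integral_nonneg_of_ae (h01.mono fun z hz => ?_)
    have h5 := mul_nonneg hz.1 (sq_nonneg (t + q z))
    simp only [Pi.zero_apply]
    nlinarith
  rw [integral_add i5 i2, integral_add (hf1.mul_const _) (i1.const_mul _), integral_mul_const,
    integral_const_mul] at this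
  linarith

end Pool.Agent.BL.Lev

namespace Pool.Agent.BL

open Lev

/-- small set expansion for functions with values in the unit interval -/
theorem sse_fun (ε : ℝ) (hε : 0 < ε) : ∃ γ > 0, ∃ k₀ : ℕ, 2 ≤ k₀ ∧
    ∀ (E : Type) [NormedAddCommGroup E] [InnerProductSpace ℝ E] [CompleteSpace E]
    [FiniteDimensional ℝ E] [MeasurableSpace E] [BorelSpace E], k₀ ≤ finrank ℝ E →
    ∀ x y : E, ‖x‖ = 1 → ‖y‖ = 1 → |⟪x, y⟫| ≤ 0.52 →
    ∀ f h : E → ℝ, AEStronglyMeasurable f (sph E) → (∀ᵐ z ∂(sph E), 0 ≤ f z ∧ f z ≤ 1) →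
      ∫ z, f z ∂(sph E) ≤ γ → MemLp h 2 (sph E) →
      ∫ g, f (ap g x) * h (ap g y) ∂(haar E) ≤
        ε * √(∫ z, f z ∂(sph E)) * √(∫ z, h z ^ 2 ∂(sph E)) := by
  obtain ⟨J, hJ⟩ := exists_pow_lt_of_lt_one (show 0 < ε / 4 by positivity)
    (show (1 / 2 : ℝ) < 1 by norm_num)
  obtain ⟨k, hk⟩ := exists_nat_ge (max ((4 * 9 ^ (2 * J)) ^ 2) (20 / ε) + 1)
  refine ⟨((ε / 2) ^ 2) ^ 2 / (2 * 9 ^ (2 * J)), by positivity, max k 2, le_max_right _ _, ?_⟩
  intro E _ _ _ _ _ _ hn x y hx hy hr f h hfm h01 hb hh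
  have hn2 : 2 ≤ finrank ℝ E := (le_max_right _ _).trans hn
  have : Nontrivial E := (Module.finrank_pos_iff (R := ℝ)).1 (by omega)
  have hn1 : (k : ℝ) ≤ finrank ℝ E := by exact_mod_cast (le_max_left _ _).trans hn
  have hf : MemLp f 2 (sph E) := MemLp.of_bound hfm 1 (h01.mono fun z hz => by
    rw [Real.norm_eq_abs, abs_of_nonneg hz.1]
    exact hz.2)
  have h1 : 4 * 9 ^ (2 * J) ≤ √(finrank ℝ E - 1) :=
    Real.le_sqrt_of_sq_le (by linarith [le_max_left ((4 * 9 ^ (2 * J) : ℝ) ^ 2) (20 / ε)])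
  have h2 : 5 / ((finrank ℝ E : ℝ) - 1) ≤ ε / 4 := by
    have h3 : 20 / ε ≤ finrank ℝ E - 1 := by
      linarith [le_max_right ((4 * 9 ^ (2 * J) : ℝ) ^ 2) (20 / ε)]
    have h4 : 0 < 20 / ε := by positivity
    rw [div_le_iff₀ hε] at h3
    rw [div_le_iff₀ (by linarith [le_max_right ((4 * 9 ^ (2 * J) : ℝ) ^ 2) (20 / ε)])]
    linarith
  set b := ∫ z, f z ∂(sph E) with hbd
  have hb0 : 0 ≤ b := integral_nonneg_of_ae (h01.mono fun z hz => hz.1)
  obtain ⟨v, hv, w, hw, e⟩ := (W E (2 * J)).exists_add_mem_mem_orthogonal (hf.toLp f)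
  have o : ⟪v, w⟫ = 0 := (Submodule.mem_orthogonal _ _).1 hw _ hv
  have h3 : ‖v‖ ≤ ε / 2 * √b := by
    have h4 := low_le hn2 h1 (δ := (ε / 2) ^ 2) (by positivity) hf h01 hb hv
    rw [e, inner_add_left, real_inner_comm v w, o, add_zero, real_inner_self_eq_norm_mul_norm,
      Real.sqrt_mul (by positivity), Real.sqrt_sq (by positivity)] at h4
    rcases (norm_nonneg v).eq_or_lt with h0 | h0
    · rw [← h0]
      positivity
    · exact le_of_mul_le_mul_right h4 h0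
  have h4 : ‖w‖ ≤ √b := by
    have h5 : ‖hf.toLp f‖ ≤ √b := by
      rw [norm_eq hf.coeFn_toLp]
      refine Real.sqrt_le_sqrt (integral_mono_ae hf.integrable_sq (hf.integrable one_le_two) ?_)
      filter_upwards [h01] with z hz
      nlinarith [hz.1, hz.2]
    refine le_trans ?_ h5
    refine abs_le_of_sq_le_sq' ?_ (by positivity) |>.2
    rw [e, norm_add_sq_real, o]
    nlinarith [sq_nonneg ‖v‖]
  have h5 := norm_pairOp_high hx hy hn2 (J := 2 * J) (η := ε / 2) (by positivity)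
    (fun j hj => (abs_lvp_le_high hx hy hn2 hr hj).trans (by linarith)) hw
  have h6 : ‖pairOp hx hy (hf.toLp f)‖ ≤ ε * √b := by
    rw [e, map_add]
    refine (norm_add_le _ _).trans ?_
    have := norm_pairOp_le hx hy v
    nlinarith
  rw [← inner_pairOp hx hy hf.coeFn_toLp hh.coeFn_toLp, ← norm_eq hh.coeFn_toLp]
  exact (real_inner_le_norm _ _).trans (by gcongr)

end Pool.Agent.BL
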