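import Pool.Agent.P.MP_edb112_gt.BLSpec

/-! Random sections of a set by subspaces. -/

set_option autoImplicit false
set_option linter.unusedSectionVars false

open MeasureTheory Set Module
open scoped RealInnerProductSpace

noncomputable section

namespace Pool.Agent.BL.SA

variable {E : Type} [NormedAddCommGroup E] [InnerProductSpace ℝ E] [CompleteSpace E]
  [FiniteDimensional ℝ E] [MeasurableSpace E] [BorelSpace E] [Nontrivial E]

theorem integral_prod_inner_pow (i : ℕ) :
    ∫ p : E × E, ⟪p.1, p.2⟫ ^ i ∂((sph E).prod (sph E)) = mom E i ∧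
    Integrable (fun p : E × E => ⟪p.1, p.2⟫ ^ i) ((sph E).prod (sph E)) := by
  have hi : Integrable (fun p : E × E => ⟪p.1, p.2⟫ ^ i) ((sph E).prod (sph E)) := by
    refine Integrable.of_bound (Continuous.aestronglyMeasurable (by fun_prop)) 1 ?_
    filter_upwards [Measure.quasiMeasurePreserving_fst.ae (ae_norm (E := E)),
      Measure.quasiMeasurePreserving_snd.ae (ae_norm (E := E))] with p h1 h2
    have := abs_real_inner_le_norm p.1 p.2
    rw [h1, h2, mul_one] at this
    rw [norm_pow]
    exact pow_le_one₀ (norm_nonneg _) this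
  refine ⟨?_, hi⟩
  rw [integral_prod _ hi, ← show ∫ _ : E, mom E i ∂(sph E) = mom E i by simp]
  refine integral_congr_ae ?_
  filter_upwards [ae_norm] with x hx
  rw [integral_inner_pow, hx, one_pow, one_mul]

variable (W : Submodule ℝ E) [CompleteSpace W]

/-- the section of the rotated set -/
def sec (K : Set E) (g : G E) : Set W := {y | ap g (y : E) ∈ K}

theorem measurable_apW : Measurable fun p : G E × W => ap p.1 (p.2 : E) :=
  (continuous_ap continuous_fst (continuous_subtype_val.comp continuous_snd)).measurable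

theorem measurableSet_sec {K : Set E} (hK : MeasurableSet K) (g : G E) :
    MeasurableSet (sec W K g) :=
  ((measurable_ap_right g).comp measurable_subtype_coe) hK

theorem measurable_sec {K : Set E} (hK : MeasurableSet K) :
    Measurable fun g => (sph W).real (sec W K g) :=
  (measurable_measure_prodMk_left (measurable_apW W hK)).ennreal_toReal

/-- mean of the measures of the sections of a set -/
theorem integral_section {Z : Set (G E × W)} (hZ : MeasurableSet Z) :
    ∫ g, (sph W).real {y | (g, y) ∈ Z} ∂(haar E) = ∫ y, (haar E).real {g | (g, y) ∈ Z} ∂(sph W) := by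
  have hi : Integrable (Function.uncurry fun g y => Z.indicator (fun _ => (1 : ℝ)) (g, y))
      ((haar E).prod (sph W)) := (integrable_const 1).indicator hZ
  have h := integral_integral_swap hi
  have e1 : ∀ g, ∫ y, Z.indicator (fun _ => (1 : ℝ)) (g, y) ∂(sph W) =
      (sph W).real {y | (g, y) ∈ Z} := fun g =>
    integral_indicator_one (measurable_prodMk_left hZ)
  have e2 : ∀ y, ∫ g, Z.indicator (fun _ => (1 : ℝ)) (g, y) ∂(haar E) =
      (haar E).real {g | (g, y) ∈ Z} := fun y =>
    integral_indicator_one (measurable_prodMk_right hZ)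
  simpa only [e1, e2] using h

variable [Nontrivial W]

theorem sub_mean {K : Set E} (hK : MeasurableSet K) :
    ∫ g, (sph W).real (sec W K g) ∂(haar E) = (sph E).real K := by
  refine (integral_section W (measurable_apW W hK)).trans ?_
  rw [← show ∫ _ : W, (sph E).real K ∂(sph W) = (sph E).real K by simp]
  refine integral_congr_ae ?_
  filter_upwards [ae_norm] with y hy
  exact congrArg ENNReal.toReal (haar_preimage (x := (y : E)) hy hK)

theorem pair_moment (hn : 2 ≤ finrank ℝ E) {K : Set E} (hK : MeasurableSet K) (i : ℕ)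
    {u : W × W → ℝ} (hu : Integrable u ((sph W).prod (sph W)))
    (h : ∀ p : W × W, |⟪p.1, p.2⟫| ≤ 1 →
      |⟪p.1, p.2⟫| ^ i * (⟪p.1, p.2⟫ ^ 2 + 1 / (finrank ℝ E - 1)) ≤ u p) :
    Integrable (fun g => ∫ p in sec W K g ×ˢ sec W K g, ⟪p.1, p.2⟫ ^ i ∂((sph W).prod (sph W)))
      (haar E) ∧
    ∫ g, ∫ p in sec W K g ×ˢ sec W K g, ⟪p.1, p.2⟫ ^ i ∂((sph W).prod (sph W)) ∂(haar E) ≤
      (sph E).real K ^ 2 * mom W i + finrank ℝ E * ‖bary K‖ ^ 2 * mom W (i + 1) +
        ∫ p, u p ∂((sph W).prod (sph W)) := by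
  set Z : Set (G E × (W × W)) := {q | ap q.1 (q.2.1 : E) ∈ K ∧ ap q.1 (q.2.2 : E) ∈ K} with hZd
  have hZ : MeasurableSet Z :=
    (((measurable_apW W).comp (measurable_fst.prodMk measurable_snd.fst)) hK).inter
      (((measurable_apW W).comp (measurable_fst.prodMk measurable_snd.snd)) hK)
  have hi : Integrable (Function.uncurry fun (g : G E) (p : W × W) =>
      Z.indicator (fun q => ⟪q.2.1, q.2.2⟫ ^ i) (g, p)) ((haar E).prod ((sph W).prod (sph W))) :=
    ((integral_prod_inner_pow (E := W) i).2.comp_snd (haar E)).indicator hZ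
  have e1 : ∀ g, ∫ p, Z.indicator (fun q => ⟪q.2.1, q.2.2⟫ ^ i) (g, p) ∂((sph W).prod (sph W)) =
      ∫ p in sec W K g ×ˢ sec W K g, ⟪p.1, p.2⟫ ^ i ∂((sph W).prod (sph W)) := fun g =>
    integral_indicator ((measurableSet_sec W hK g).prod (measurableSet_sec W hK g))
  have e2 : ∀ p : W × W, ∫ g, Z.indicator (fun q => ⟪q.2.1, q.2.2⟫ ^ i) (g, p) ∂(haar E) =
      (haar E).real {g | ap g (p.1 : E) ∈ K ∧ ap g (p.2 : E) ∈ K} * ⟪p.1, p.2⟫ ^ i := fun p =>
    integral_indicator_const (μ := haar E) (⟪p.1, p.2⟫ ^ i) (measurable_prodMk_right (y := p) hZ)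
  have h1 := hi.integral_prod_left
  have h2 := hi.integral_prod_right
  have h3 := integral_integral_swap hi
  simp only [Function.uncurry_apply_pair, e1, e2] at h1 h2 h3
  refine ⟨h1, ?_⟩
  obtain ⟨m1, i1⟩ := integral_prod_inner_pow (E := W) i
  obtain ⟨m2, i2⟩ := integral_prod_inner_pow (E := W) (i + 1)
  rw [h3, ← m1, ← m2, ← integral_const_mul, ← integral_const_mul,
    ← integral_add (i1.const_mul _) (i2.const_mul _),
    ← integral_add (by exact (i1.const_mul _).add (i2.const_mul _)) hu]
  refine integral_mono_ae h2 (((i1.const_mul _).add (i2.const_mul _)).add hu) ?_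
  filter_upwards [Measure.quasiMeasurePreserving_fst.ae (ae_norm (E := W)),
    Measure.quasiMeasurePreserving_snd.ae (ae_norm (E := W))] with p h1 h2
  have h4 := (pair_expand hn hK).2 p.1 p.2 h1 h2
  have h5 := abs_real_inner_le_norm p.1 p.2
  rw [h1, h2, mul_one] at h5
  rw [← Submodule.coe_inner] at h4
  have h6 := (mul_le_mul_of_nonneg_left h4 (pow_nonneg (abs_nonneg ⟪p.1, p.2⟫) i)).trans (h p h5)
  rw [← abs_pow, ← abs_mul] at h6
  have := (le_abs_self _).trans h6
  simp only [pow_succ ⟪p.1, p.2⟫ i]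
  linarith

theorem integrable_sec {K : Set E} (hK : MeasurableSet K) (c : ℝ) :
    Integrable (fun g => ((sph W).real (sec W K g) - c) ^ 2) (haar E) := by
  refine Integrable.of_bound (((measurable_sec W hK).sub_const c).pow_const 2).aestronglyMeasurable
    ((1 + |c|) ^ 2) (Filter.Eventually.of_forall fun g => ?_)
  rw [norm_pow]
  refine pow_le_pow_left₀ (norm_nonneg _) ((abs_sub _ _).trans ?_) _
  rw [abs_of_nonneg measureReal_nonneg]
  exact add_le_add measureReal_le_one le_rfl

theorem sub_var (hn : 2 ≤ finrank ℝ E) {K : Set E} (hK : MeasurableSet K) :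
    ∫ g, ((sph W).real (sec W K g) - (sph E).real K) ^ 2 ∂(haar E) ≤
      1 / finrank ℝ W + 1 / (finrank ℝ E - 1) := by
  obtain ⟨m2, i2⟩ := integral_prod_inner_pow (E := W) 2
  obtain ⟨-, h⟩ := pair_moment W hn hK 0 (i2.add (integrable_const (1 / (finrank ℝ E - 1) : ℝ)))
    fun p _ => by simp
  have e : ∀ g, ∫ p in sec W K g ×ˢ sec W K g, ⟪p.1, p.2⟫ ^ 0 ∂((sph W).prod (sph W)) =
      ((sph W).real (sec W K g) - 0) ^ 2 := fun g => by
    simp [measureReal_prod_prod, sq]
  simp only [e, Pi.add_apply] at h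
  rw [integral_add i2 (integrable_const _), m2, mom_zero, mom_odd (i := 0 + 1) odd_one,
    mom_two] at h
  have i1 : Integrable (fun g => (sph W).real (sec W K g)) (haar E) :=
    Integrable.of_bound (measurable_sec W hK).aestronglyMeasurable 1
      (Filter.Eventually.of_forall fun g => by
        rw [Real.norm_of_nonneg measureReal_nonneg]; exact measureReal_le_one)
  have e2 : ∀ g, ((sph W).real (sec W K g) - (sph E).real K) ^ 2 =
      ((sph W).real (sec W K g) - 0) ^ 2 - (2 * (sph E).real K * (sph W).real (sec W K g) -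
        (sph E).real K ^ 2) := fun g => by ring
  simp only [e2]
  rw [integral_sub (integrable_sec W hK 0) (by exact (i1.const_mul _).sub (integrable_const _)),
    integral_sub (i1.const_mul _) (integrable_const _), integral_const_mul, sub_mean W hK]
  simp only [integral_const, probReal_univ, one_smul] at h ⊢
  linarith

theorem norm_bary_sq (L : Set E) :
    ‖bary L‖ ^ 2 = ∫ p in L ×ˢ L, ⟪p.1, p.2⟫ ^ 1 ∂((sph E).prod (sph E)) := by
  rw [setIntegral_prod _ (integral_prod_inner_pow 1).2.integrableOn, ← real_inner_self_eq_norm_sq,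
    inner_bary]
  simp only [pow_one, ← inner_bary, real_inner_comm]

theorem sub_bary (hn : 2 ≤ finrank ℝ E) {K : Set E} (hK : MeasurableSet K) :
    Integrable (fun g => ‖bary (sec W K g)‖ ^ 2) (haar E) ∧
    finrank ℝ W * ∫ g, ‖bary (sec W K g)‖ ^ 2 ∂(haar E) ≤ finrank ℝ E * ‖bary K‖ ^ 2 +
      2 / √(finrank ℝ W) + finrank ℝ W / (finrank ℝ E - 1) := by
  obtain ⟨m2, i2⟩ := integral_prod_inner_pow (E := W) 2
  obtain ⟨m4, i4⟩ := integral_prod_inner_pow (E := W) 4
  have hm : (0 : ℝ) < finrank ℝ W := by exact_mod_cast finrank_pos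
  have hn' : (2 : ℝ) ≤ finrank ℝ E := by exact_mod_cast hn
  have hn1 : (0 : ℝ) ≤ 1 / (finrank ℝ E - 1) := by
    have : (0 : ℝ) < finrank ℝ E - 1 := by linarith
    positivity
  set s := √(finrank ℝ W : ℝ) with hs
  have hs0 : 0 < s := Real.sqrt_pos.2 hm
  have hss : s * s = finrank ℝ W := Real.mul_self_sqrt hm.le
  have i3 : Integrable (fun p : W × W => 1 / (2 * s) * ⟪p.1, p.2⟫ ^ 2 + s / 2 * ⟪p.1, p.2⟫ ^ 4) _ :=
    (i2.const_mul (1 / (2 * s))).add (i4.const_mul (s / 2))
  obtain ⟨h1, h⟩ := pair_moment W hn hK 1 (i3.add (integrable_const (1 / (finrank ℝ E - 1) : ℝ)))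
    fun p hp => by
      simp only [Pi.add_apply, pow_one]
      set r := ⟪p.1, p.2⟫
      have h2 : |r| ≤ 1 / (2 * s) + s / 2 * r ^ 2 := by
        rw [← sq_abs r, ← sub_nonneg]
        have : 1 / (2 * s) + s / 2 * |r| ^ 2 - |r| = (1 - s * |r|) ^ 2 / (2 * s) := by
          field_simp
          ring
        rw [this]
        positivity
      nlinarith [mul_le_mul_of_nonneg_right h2 (sq_nonneg r), mul_le_mul_of_nonneg_right hp hn1]
  simp only [← norm_bary_sq, Pi.add_apply] at h h1
  refine ⟨h1, ?_⟩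
  rw [integral_add i3 (integrable_const _), integral_add (i2.const_mul _) (i4.const_mul _),
    integral_const_mul, integral_const_mul, m2, m4, mom_odd odd_one, mom_two] at h
  simp only [integral_const, probReal_univ, one_smul] at h
  have h4 := mul_le_mul_of_nonneg_left (mom_four_le (E := W)) (show 0 ≤ s / 2 by positivity)
  have h5 := mul_le_mul_of_nonneg_left (h.trans (add_le_add le_rfl (add_le_add (add_le_add le_rfl
    h4) le_rfl))) hm.le
  refine h5.trans_eq ?_
  rw [← hss]
  field_simp
  ring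

end Pool.Agent.BL.SA
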