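import Mathlib

/-! Second order calculus: diffusion operators at a point and their jets. -/

set_option autoImplicit false
set_option linter.unusedSectionVars false

open Filter
open scoped RealInnerProductSpace Topology

noncomputable section

namespace Pool.Agent.BL

variable {W : Type} [NormedAddCommGroup W] [NormedSpace ℝ W] {J : Type} [Fintype J]

/-- the second derivative -/
def hess (f : W → ℝ) (p : W) : W →L[ℝ] W →L[ℝ] ℝ := fderiv ℝ (fderiv ℝ f) p

theorem ev_diff {f : W → ℝ} {p : W} (hf : ContDiffAt ℝ 2 f p) :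
    ∀ᶠ q in 𝓝 p, DifferentiableAt ℝ f q :=
  (hf.eventually (by simp)).mono fun _ h => h.differentiableAt (by simp)

theorem diff_fderiv {f : W → ℝ} {p : W} (hf : ContDiffAt ℝ 2 f p) :
    DifferentiableAt ℝ (fderiv ℝ f) p :=
  (hf.fderiv_right (m := 1) (by norm_num)).differentiableAt (by simp)

theorem diff_fderiv_apply {f : W → ℝ} {p : W} (hf : ContDiffAt ℝ 2 f p) (w : W) :
    DifferentiableAt ℝ (fun q => fderiv ℝ f q w) p :=
  (diff_fderiv hf).clm_apply (differentiableAt_const w)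

theorem hess_eq {f : W → ℝ} {p : W} (hf : ContDiffAt ℝ 2 f p) (v w : W) :
    hess f p v w = fderiv ℝ (fun q => fderiv ℝ f q w) p v := by
  rw [fderiv_clm_apply (diff_fderiv hf) (differentiableAt_const w)]
  simp [hess]

theorem hess_symm {f : W → ℝ} {p : W} (hf : ContDiffAt ℝ 2 f p) (v w : W) :
    hess f p v w = hess f p w v :=
  (hf.isSymmSndFDerivAt (by simp)) v w

theorem hess_add {f g : W → ℝ} {p : W} (hf : ContDiffAt ℝ 2 f p) (hg : ContDiffAt ℝ 2 g p)
    (v w : W) : hess (fun q => f q + g q) p v w = hess f p v w + hess g p v w := by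
  rw [hess_eq (hf.add hg), hess_eq hf, hess_eq hg, ← add_apply,
    ← fderiv_fun_add (diff_fderiv_apply hf w) (diff_fderiv_apply hg w)]
  congr 1
  refine EventuallyEq.fderiv_eq ?_
  filter_upwards [ev_diff hf, ev_diff hg] with q h1 h2
  rw [fderiv_fun_add h1 h2, add_apply]

theorem hess_mul {f g : W → ℝ} {p : W} (hf : ContDiffAt ℝ 2 f p) (hg : ContDiffAt ℝ 2 g p)
    (v w : W) : hess (fun q => f q * g q) p v w = f p * hess g p v w + g p * hess f p v w +
      fderiv ℝ f p v * fderiv ℝ g p w + fderiv ℝ g p v * fderiv ℝ f p w := by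
  have e : (fun q => fderiv ℝ (fun q => f q * g q) q w) =ᶠ[𝓝 p]
      fun q => f q * fderiv ℝ g q w + g q * fderiv ℝ f q w := by
    filter_upwards [ev_diff hf, ev_diff hg] with q h1 h2
    rw [fderiv_fun_mul h1 h2]
    simp
  have d1 := hf.differentiableAt (by simp)
  have d2 := hg.differentiableAt (by simp)
  rw [hess_eq (hf.mul hg), e.fderiv_eq, hess_eq hf, hess_eq hg,
    fderiv_fun_add (d1.fun_mul (diff_fderiv_apply hg w)) (d2.fun_mul (diff_fderiv_apply hf w)),
    fderiv_fun_mul d1 (diff_fderiv_apply hg w), fderiv_fun_mul d2 (diff_fderiv_apply hf w)]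
  simp only [add_apply, smul_apply, smul_eq_mul]
  ring

theorem fderiv_comp_real {f : W → ℝ} {p : W} (hf : DifferentiableAt ℝ f p) {h : ℝ → ℝ} {h' : ℝ}
    (hh : HasDerivAt h h' (f p)) (w : W) :
    fderiv ℝ (fun q => h (f q)) p w = h' * fderiv ℝ f p w := by
  have := (hh.comp_hasFDerivAt p hf.hasFDerivAt).fderiv
  change fderiv ℝ (h ∘ f) p w = _
  rw [this]
  simp

theorem hess_comp {f : W → ℝ} {p : W} (hf : ContDiffAt ℝ 2 f p) {h h' : ℝ → ℝ} {h'' : ℝ}
    (hs : ContDiffAt ℝ 2 h (f p)) (h1 : ∀ᶠ y in 𝓝 (f p), HasDerivAt h (h' y) y)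
    (h2 : HasDerivAt h' h'' (f p)) (v w : W) : hess (fun q => h (f q)) p v w =
      h' (f p) * hess f p v w + h'' * (fderiv ℝ f p v * fderiv ℝ f p w) := by
  have e : (fun q => fderiv ℝ (fun q => h (f q)) q w) =ᶠ[𝓝 p]
      fun q => h' (f q) * fderiv ℝ f q w := by
    filter_upwards [ev_diff hf, hf.continuousAt.eventually h1] with q h3 h4
    exact fderiv_comp_real h3 h4 w
  have d1 := hf.differentiableAt (by simp)
  have d2 : DifferentiableAt ℝ (fun q => h' (f q)) p := h2.differentiableAt.comp p d1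
  rw [hess_eq (f := fun q => h (f q)) (hs.comp p hf), e.fderiv_eq, hess_eq hf, fderiv_fun_mul d2 (diff_fderiv_apply hf w)]
  simp only [add_apply, smul_apply, smul_eq_mul]
  rw [fderiv_comp_real d1 h2]
  ring

theorem fderiv_comp_clm {W' : Type} [NormedAddCommGroup W'] [NormedSpace ℝ W'] (π : W →L[ℝ] W')
    {f : W' → ℝ} {p : W} (hf : DifferentiableAt ℝ f (π p)) (w : W) :
    fderiv ℝ (fun q => f (π q)) p w = fderiv ℝ f (π p) (π w) := by
  have := (hf.hasFDerivAt.comp p π.hasFDerivAt).fderiv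
  change fderiv ℝ (f ∘ π) p w = _
  rw [this]
  simp

theorem hess_comp_clm {W' : Type} [NormedAddCommGroup W'] [NormedSpace ℝ W'] (π : W →L[ℝ] W')
    {f : W' → ℝ} {p : W} (hf : ContDiffAt ℝ 2 f (π p)) (v w : W) :
    hess (fun q => f (π q)) p v w = hess f (π p) (π v) (π w) := by
  have e : (fun q => fderiv ℝ (fun q => f (π q)) q w) =ᶠ[𝓝 p]
      fun q => fderiv ℝ f (π q) (π w) := by
    filter_upwards [π.continuous.continuousAt.eventually (ev_diff hf)] with q h3
    exact fderiv_comp_clm π h3 w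
  rw [hess_eq (f := fun q => f (π q)) (hf.comp p π.contDiff.contDiffAt), e.fderiv_eq, hess_eq hf]
  exact fderiv_comp_clm π (f := fun q => fderiv ℝ f q (π w)) (diff_fderiv_apply hf _) v

theorem hess_clm (l : W →L[ℝ] ℝ) (p : W) : hess l p = 0 := by
  have : fderiv ℝ l = fun _ => l := funext fun _ => l.fderiv
  simp [hess, this]

theorem hess_congr {f g : W → ℝ} {p : W} (h : f =ᶠ[𝓝 p] g) : hess f p = hess g p :=
  h.fderiv.fderiv_eq

/-- derivative along a linear vector field of the derivative along the same field -/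
theorem fderiv_field {f : W → ℝ} {p : W} (hf : ContDiffAt ℝ 2 f p) (X : W →L[ℝ] W) (v : W) :
    fderiv ℝ (fun q => fderiv ℝ f q (X q)) p v = hess f p v (X p) + fderiv ℝ f p (X v) := by
  rw [fderiv_clm_apply (diff_fderiv hf) X.differentiableAt]
  simp [hess, add_comm]

/-- second derivative test along a curve -/
theorem curve_max {f : W → ℝ} {c c' : ℝ → W} {c'' : W} (hf : ContDiffAt ℝ 2 f (c 0))
    (h1 : ∀ s, HasDerivAt c (c' s) s) (h2 : HasDerivAt c' c'' 0)
    (hm : IsLocalMax (fun s => f (c s)) 0) :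
    fderiv ℝ f (c 0) (c' 0) = 0 ∧ hess f (c 0) (c' 0) (c' 0) + fderiv ℝ f (c 0) c'' ≤ 0 := by
  have e : deriv (fun s => f (c s)) =ᶠ[𝓝 0] fun s => fderiv ℝ f (c s) (c' s) := by
    filter_upwards [(h1 0).continuousAt.eventually (ev_diff hf)] with s hs
    exact (hs.hasFDerivAt.comp_hasDerivAt s (h1 s)).deriv
  have d : HasDerivAt (fun s => fderiv ℝ f (c s) (c' s))
      (hess f (c 0) (c' 0) (c' 0) + fderiv ℝ f (c 0) c'') 0 :=
    ((diff_fderiv hf).hasFDerivAt.comp_hasDerivAt 0 (h1 0)).clm_apply h2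
  have z : fderiv ℝ f (c 0) (c' 0) = 0 := by
    rw [← e.eq_of_nhds]
    exact hm.deriv_eq_zero
  refine ⟨z, ?_⟩
  by_contra hpos
  have hc : ContinuousAt (fun s => f (c s)) 0 := hf.continuousAt.comp (h1 0).continuousAt
  have hd : deriv (deriv fun s => f (c s)) 0 > 0 := by
    rw [e.deriv_eq, d.deriv]
    exact not_le.1 hpos
  have hmin := isLocalMin_of_deriv_deriv_pos hd hm.deriv_eq_zero hc
  have hconst : (fun s => f (c s)) =ᶠ[𝓝 0] fun _ => f (c 0) := by
    filter_upwards [hm, hmin] with s h3 h4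
    exact le_antisymm h3 h4
  rw [hconst.deriv.deriv_eq] at hd
  simp at hd

/-- the operator `b · ∇ - (1/2) ∑ ∇²(v j, v j)` -/
def op (b : W) (v : J → W) (f : W → ℝ) (p : W) : ℝ :=
  fderiv ℝ f p b - 1 / 2 * ∑ j, hess f p (v j) (v j)

/-- the derivatives in the directions `v j` -/
def gr (v : J → W) (f : W → ℝ) (p : W) : EuclideanSpace ℝ J :=
  WithLp.toLp 2 fun j => fderiv ℝ f p (v j)

theorem inner_gr (v : J → W) (f g : W → ℝ) (p : W) :
    ⟪gr v f p, gr v g p⟫ = ∑ j, fderiv ℝ f p (v j) * fderiv ℝ g p (v j) := by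
  simp [gr, PiLp.inner_apply, mul_comm]

/-- value, image under the operator and gradient of `f` at `p` -/
structure Jet (b : W) (v : J → W) (f : W → ℝ) (p : W) (a o : ℝ) (g : EuclideanSpace ℝ J) :
    Prop where
  sm : ContDiffAt ℝ 2 f p
  val : f p = a
  op : op b v f p = o
  gr : gr v f p = g

namespace Jet

variable {b : W} {v : J → W} {f f' : W → ℝ} {p : W} {a o a' o' : ℝ} {g g' : EuclideanSpace ℝ J}

theorem of (hf : ContDiffAt ℝ 2 f p) : Jet b v f p (f p) (BL.op b v f p) (BL.gr v f p) :=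
  ⟨hf, rfl, rfl, rfl⟩

theorem diff (h : Jet b v f p a o g) : DifferentiableAt ℝ f p := h.sm.differentiableAt (by simp)

theorem congr (h : Jet b v f p a o g) (ha : a = a') (ho : o = o') (hg : g = g') :
    Jet b v f p a' o' g' := ha ▸ ho ▸ hg ▸ h

theorem congr_fun (h : Jet b v f p a o g) (hf : f' =ᶠ[𝓝 p] f) : Jet b v f' p a o g := by
  refine ⟨h.sm.congr_of_eventuallyEq hf, hf.eq_of_nhds.trans h.val, ?_, ?_⟩
  · rw [← h.op, BL.op, BL.op, hf.fderiv_eq, hess_congr hf]
  · rw [← h.gr, BL.gr, BL.gr, hf.fderiv_eq]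

theorem const (c : ℝ) : Jet b v (fun _ => c) p c 0 0 := by
  refine ⟨contDiffAt_const, rfl, ?_, ?_⟩
  · simp [BL.op, hess]
  · ext j
    simp [BL.gr]

theorem clm (l : W →L[ℝ] ℝ) :
    Jet b v l p (l p) (l b) (WithLp.toLp 2 fun j => l (v j)) := by
  refine ⟨l.contDiff.contDiffAt, rfl, ?_, ?_⟩
  · simp [BL.op, hess_clm]
  · simp [BL.gr]

theorem add (h : Jet b v f p a o g) (h' : Jet b v f' p a' o' g') :
    Jet b v (fun q => f q + f' q) p (a + a') (o + o') (g + g') := by
  refine ⟨h.sm.add h'.sm, by rw [h.val, h'.val], ?_, ?_⟩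
  · rw [← h.op, ← h'.op]
    simp only [BL.op, hess_add h.sm h'.sm, fderiv_fun_add h.diff h'.diff, Finset.sum_add_distrib,
      add_apply]
    ring
  · rw [← h.gr, ← h'.gr]
    ext j
    simp [BL.gr, fderiv_fun_add h.diff h'.diff]

theorem mul (h : Jet b v f p a o g) (h' : Jet b v f' p a' o' g') :
    Jet b v (fun q => f q * f' q) p (a * a') (a * o' + a' * o - ⟪g, g'⟫) (a • g' + a' • g) := by
  refine ⟨h.sm.mul h'.sm, by rw [h.val, h'.val], ?_, ?_⟩
  · rw [← h.op, ← h'.op, ← h.gr, ← h'.gr, ← h.val, ← h'.val, inner_gr]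
    simp only [BL.op, hess_mul h.sm h'.sm, fderiv_fun_mul h.diff h'.diff, Finset.sum_add_distrib,
      add_apply, smul_apply, smul_eq_mul,
      ← Finset.mul_sum, mul_comm (fderiv ℝ f' p _) (fderiv ℝ f p _)]
    ring
  · rw [← h.gr, ← h'.gr, ← h.val, ← h'.val]
    ext j
    simp [BL.gr, fderiv_fun_mul h.diff h'.diff]

theorem comp (h : Jet b v f p a o g) {φ φ' : ℝ → ℝ} {φ'' : ℝ} (hs : ContDiffAt ℝ 2 φ a)
    (h1 : ∀ᶠ y in 𝓝 a, HasDerivAt φ (φ' y) y) (h2 : HasDerivAt φ' φ'' a) :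
    Jet b v (fun q => φ (f q)) p (φ a) (φ' a * o - 1 / 2 * φ'' * ‖g‖ ^ 2) (φ' a • g) := by
  obtain ⟨hsm, rfl, rfl, rfl⟩ := h
  have d := hsm.differentiableAt (by simp)
  refine ⟨hs.comp p hsm, rfl, ?_, ?_⟩
  · rw [← real_inner_self_eq_norm_sq, inner_gr]
    simp only [BL.op, hess_comp hsm hs h1 h2, fderiv_comp_real d h1.self_of_nhds,
      Finset.sum_add_distrib, ← Finset.mul_sum]
    ring
  · ext j
    simp [BL.gr, fderiv_comp_real d h1.self_of_nhds]

theorem const_mul (h : Jet b v f p a o g) (c : ℝ) :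
    Jet b v (fun q => c * f q) p (c * a) (c * o) (c • g) :=
  ((const c).mul h).congr rfl (by simp) (by simp)

theorem neg (h : Jet b v f p a o g) : Jet b v (fun q => -f q) p (-a) (-o) (-g) := by
  simpa using h.const_mul (-1)

theorem sub (h : Jet b v f p a o g) (h' : Jet b v f' p a' o' g') :
    Jet b v (fun q => f q - f' q) p (a - a') (o - o') (g - g') := by
  simpa [sub_eq_add_neg] using h.add h'.neg

theorem add_const (h : Jet b v f p a o g) (c : ℝ) :
    Jet b v (fun q => f q + c) p (a + c) o g :=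
  (h.add (const c)).congr rfl (by simp) (by simp)

theorem sum {ι : Type} (s : Finset ι) {F : ι → W → ℝ} {A O : ι → ℝ}
    {Γ : ι → EuclideanSpace ℝ J} (h : ∀ i ∈ s, Jet b v (F i) p (A i) (O i) (Γ i)) :
    Jet b v (fun q => ∑ i ∈ s, F i q) p (∑ i ∈ s, A i) (∑ i ∈ s, O i) (∑ i ∈ s, Γ i) := by
  classical
  induction s using Finset.induction_on with
  | empty => simpa using const 0
  | insert i s hi ih =>
    simp only [Finset.sum_insert hi]
    exact (h i (Finset.mem_insert_self _ _)).add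
      (ih fun j hj => h j (Finset.mem_insert_of_mem hj))

theorem sq (h : Jet b v f p a o g) :
    Jet b v (fun q => f q ^ 2) p (a ^ 2) (2 * a * o - ‖g‖ ^ 2) ((2 * a) • g) := by
  have := h.mul h
  simp only [← pow_two] at this
  exact this.congr rfl (by rw [real_inner_self_eq_norm_sq]; ring) (by rw [two_mul, add_smul])

theorem exp (h : Jet b v f p a o g) :
    Jet b v (fun q => Real.exp (f q)) p (Real.exp a) (Real.exp a * (o - 1 / 2 * ‖g‖ ^ 2))
      (Real.exp a • g) :=
  (h.comp (φ := Real.exp) (φ' := Real.exp) Real.contDiff_exp.contDiffAt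
    (Eventually.of_forall Real.hasDerivAt_exp) (Real.hasDerivAt_exp a)).congr rfl (by ring) rfl

theorem log (h : Jet b v f p a o g) (ha : 0 < a) :
    Jet b v (fun q => Real.log (f q)) p (Real.log a) (o / a + 1 / 2 * (‖g‖ ^ 2 / a ^ 2))
      (a⁻¹ • g) :=
  (h.comp (φ := Real.log) (φ' := fun y => y⁻¹) (Real.contDiffAt_log.2 ha.ne')
    ((lt_mem_nhds ha).mono fun y hy => Real.hasDerivAt_log hy.ne')
    (hasDerivAt_inv ha.ne')).congr rfl (by field_simp; ring) rfl

theorem inv (h : Jet b v f p a o g) (ha : 0 < a) :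
    Jet b v (fun q => (f q)⁻¹) p a⁻¹ (-(o / a ^ 2) - ‖g‖ ^ 2 / a ^ 3) (-(a ^ 2)⁻¹ • g) := by
  have h2 : HasDerivAt (fun y : ℝ => -(y ^ 2)⁻¹) (2 / a ^ 3) a := by
    refine ((hasDerivAt_pow 2 a).inv (by positivity)).neg.congr_deriv ?_
    field_simp
    simp [mul_comm]
  exact (h.comp (φ := fun y => y⁻¹) (φ' := fun y => -(y ^ 2)⁻¹) (contDiffAt_inv ℝ ha.ne')
    ((lt_mem_nhds ha).mono fun y hy => hasDerivAt_inv hy.ne') h2).congr rfl
    (by field_simp) rfl

/-- pull-back along a linear map -/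
theorem comp_clm {W' : Type} [NormedAddCommGroup W'] [NormedSpace ℝ W'] (π : W' →L[ℝ] W)
    {b' : W'} {v' : J → W'} {p' : W'} (h : Jet b v f p a o g) (hp : π p' = p) (hb : π b' = b)
    (hv : ∀ j, π (v' j) = v j) : Jet b' v' (fun q => f (π q)) p' a o g := by
  subst hp hb
  refine ⟨h.sm.comp p' π.contDiff.contDiffAt, h.val, ?_, ?_⟩
  · rw [← h.op]
    simp only [BL.op, hess_comp_clm π h.sm, fderiv_comp_clm π h.diff, hv]
  · rw [← h.gr]
    simp only [BL.gr, fderiv_comp_clm π h.diff, hv]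

end Jet

end Pool.Agent.BL
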