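import Pool.Agent.P.MP_edb112_gt.Alg
import Pool.Agent.P.MP_edb112_gt.Approx

/-! Families of heat flows evaluated on configurations; the basic Bellman function. -/

set_option autoImplicit false
set_option linter.unusedSectionVars false

open MeasureTheory Set Module Filter
open scoped RealInnerProductSpace Topology

noncomputable section

namespace Pool.Agent.BL

/-- powers of the positive part -/
def pp (n : ℕ) (y : ℝ) : ℝ := max y 0 ^ n

theorem pp_nonneg (n : ℕ) (y : ℝ) : 0 ≤ pp n y := pow_nonneg (le_max_right _ _) _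

theorem continuous_pp (n : ℕ) : Continuous (pp n) := by
  unfold pp
  fun_prop

theorem hasDerivAt_pp (n : ℕ) (y : ℝ) : HasDerivAt (pp (n + 2)) ((n + 2) * pp (n + 1) y) y := by
  rcases lt_trichotomy y 0 with h | rfl | h
  · have e : pp (n + 2) =ᶠ[𝓝 y] fun _ => 0 :=
      (gt_mem_nhds h).mono fun z hz => by simp [pp, max_eq_right hz.le]
    refine ((hasDerivAt_const y (0 : ℝ)).congr_of_eventuallyEq e).congr_deriv ?_
    simp [pp, max_eq_right h.le]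
  · rw [hasDerivAt_iff_tendsto_slope_zero]
    have h1 : Tendsto (pp (n + 1)) (𝓝[≠] 0) (𝓝 (pp (n + 1) 0)) :=
      (continuous_pp _).continuousAt.mono_left nhdsWithin_le_nhds
    have h2 : pp (n + 1) 0 = 0 := by simp [pp]
    rw [h2] at h1 ⊢
    rw [mul_zero]
    refine h1.congr' ?_
    filter_upwards [self_mem_nhdsWithin] with z (hz : z ≠ 0)
    rcases le_total z 0 with h | h
    · simp [pp, max_eq_right h]
    · simp only [pp, max_eq_left h, zero_add, max_self, smul_eq_mul]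
      field_simp
      simp [pow_succ]
  · have e : pp (n + 2) =ᶠ[𝓝 y] fun z => z ^ (n + 2) :=
      (lt_mem_nhds h).mono fun z hz => by simp [pp, max_eq_left hz.le]
    refine ((hasDerivAt_pow (n + 2) y).congr_of_eventuallyEq e).congr_deriv ?_
    simp [pp, max_eq_left h.le]

theorem contDiff_pp (m n : ℕ) : ContDiff ℝ m (pp (n + m + 1)) := by
  induction m with
  | zero => exact contDiff_zero.2 (continuous_pp _)
  | succ m ih =>
    have e : deriv (pp (n + m + 2)) = fun y => ((n + m : ℕ) + 2) * pp (n + m + 1) y :=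
      funext fun y => (hasDerivAt_pp (n + m) y).deriv
    push_cast
    rw [contDiff_succ_iff_deriv]
    refine ⟨fun y => (hasDerivAt_pp (n + m) y).differentiableAt, by simp, ?_⟩
    change ContDiff ℝ m (deriv (pp (n + m + 2)))
    rw [e]
    exact contDiff_const.mul ih

variable {E : Type} [NormedAddCommGroup E] [InnerProductSpace ℝ E] [FiniteDimensional ℝ E]
  [CompleteSpace E] [MeasurableSpace E] [BorelSpace E] {t : ℕ}

/-- functions whose image under the heat operator is bounded above at a point -/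
structure Sup {V : Type} [NormedAddCommGroup V] [NormedSpace ℝ V] (E : Type)
    [NormedAddCommGroup E] [InnerProductSpace ℝ E] [FiniteDimensional ℝ E] [Rep E V]
    (f : ℝ × V → ℝ) (p : ℝ × V) (o : ℝ) : Prop where
  sm : ContDiffAt ℝ 2 f p
  le : heat E f p ≤ o

section Sup

variable {V : Type} [NormedAddCommGroup V] [NormedSpace ℝ V] [Rep E V] {f f' : ℝ × V → ℝ}
  {p : ℝ × V} {o o' : ℝ}

theorem HJet.sup {a : ℝ} {g : EuclideanSpace ℝ (Ix E)} (h : HJet f p a o g) (ho : o ≤ o') :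
    Sup E f p o' := ⟨h.sm, h.op.trans_le ho⟩

theorem Sup.mono (h : Sup E f p o) (ho : o ≤ o') : Sup E f p o' := ⟨h.sm, h.le.trans ho⟩

theorem Sup.add (h : Sup E f p o) (h' : Sup E f' p o') : Sup E (fun q => f q + f' q) p (o + o') :=
  HJet.sup ((HJet.of' h.sm).add (HJet.of' h'.sm)) (add_le_add h.le h'.le)

theorem Sup.const_mul (h : Sup E f p o) {c : ℝ} (hc : 0 ≤ c) :
    Sup E (fun q => c * f q) p (c * o) :=
  HJet.sup ((HJet.of' h.sm).const_mul c) (mul_le_mul_of_nonneg_left h.le hc)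

theorem Sup.sum {ι : Type} (s : Finset ι) {F : ι → ℝ × V → ℝ} {O : ι → ℝ}
    (h : ∀ i ∈ s, Sup E (F i) p (O i)) : Sup E (fun q => ∑ i ∈ s, F i q) p (∑ i ∈ s, O i) :=
  HJet.sup (Jet.sum s fun i hi => HJet.of' (h i hi).sm) (Finset.sum_le_sum fun i hi => (h i hi).le)

theorem ev_heat_le {z : V} {τ : ℝ} {b : ℝ × V → ℝ}
    (h : ∀ g : G E, Sup E f (τ, ga g z) (b (τ, ga g z)))
    (hb : ∀ g : G E, ContinuousAt b (τ, ga g z)) : ev E z (heat E f) τ ≤ ev E z b τ :=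
  ev_mono (fun g => continuousAt_heat (h g).sm) hb fun g => (h g).le

end Sup

/-- the quantile of the `a`-th solution at the `a`-th point -/
def uu (U : Fin t → ℝ × E → ℝ) (a : Fin t) (q : ℝ × (Fin t → E)) : ℝ := Ps (U a (q.1, q.2 a))

/-- the gradients of the quantiles -/
def gg (U : Fin t → ℝ × E → ℝ) (q : ℝ × (Fin t → E)) (a : Fin t) : E :=
  tg (fun p => Ps (U a p)) (q.1, q.2 a)

/-- families of solutions with bounded quantiles -/
structure HD (U : Fin t → ℝ × E → ℝ) (M : ℝ) : Prop where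
  heat : ∀ a, IsHeat (U a)
  rng : ∀ a τ, 0 ≤ τ → ∀ x, ‖x‖ = 1 → Ph (-M) ≤ U a (τ, x) ∧ U a (τ, x) ≤ Ph M

namespace HD

variable {U : Fin t → ℝ × E → ℝ} {M : ℝ}

theorem pos (h : HD U M) (a : Fin t) {τ : ℝ} (hτ : 0 ≤ τ) {x : E} (hx : ‖x‖ = 1) :
    0 < U a (τ, x) := (Ph_pos _).trans_le (h.rng a τ hτ x hx).1

theorem lt_one (h : HD U M) (a : Fin t) {τ : ℝ} (hτ : 0 ≤ τ) {x : E} (hx : ‖x‖ = 1) :
    U a (τ, x) < 1 := (h.rng a τ hτ x hx).2.trans_lt (Ph_lt_one _)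

theorem abs_Ps_le (h : HD U M) (a : Fin t) {τ : ℝ} (hτ : 0 ≤ τ) {x : E} (hx : ‖x‖ = 1) :
    |Ps (U a (τ, x))| ≤ M :=
  abs_le.2 ⟨le_Ps (h.lt_one a hτ hx) (h.rng a τ hτ x hx).1,
    Ps_le (h.pos a hτ hx) (h.rng a τ hτ x hx).2⟩

theorem jet₁ (h : HD U M) (a : Fin t) {τ : ℝ} (hτ : 0 ≤ τ) {x : E} (hx : ‖x‖ = 1) :
    HJet (fun q => Ps (U a q)) (τ, x) (Ps (U a (τ, x)))
      (-(1 / 2) * Ps (U a (τ, x)) * ‖tg (fun q => Ps (U a q)) (τ, x)‖ ^ 2)
      (wv x (tg (fun q => Ps (U a q)) (τ, x))) :=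
  (h.heat a).jet_Ps τ hx (h.pos a hτ hx) (h.lt_one a hτ hx)

theorem cont_tg (h : HD U M) (a : Fin t) {τ : ℝ} (hτ : 0 ≤ τ) {x : E} (hx : ‖x‖ = 1) :
    ContinuousAt (tg fun q => Ps (U a q)) (τ, x) :=
  continuousAt_tg ((h.jet₁ a hτ hx).sm.of_le (by norm_num))

variable {τ : ℝ} {x : Fin t → E}

theorem abs_le (h : HD U M) (hτ : 0 ≤ τ) (hx : ∀ a, ‖x a‖ = 1) (a : Fin t) :
    |uu U a (τ, x)| ≤ M := h.abs_Ps_le a hτ (hx a)

theorem jet (h : HD U M) (hτ : 0 ≤ τ) (hx : ∀ a, ‖x a‖ = 1) (a : Fin t) :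
    HJet (uu U a) (τ, x) (uu U a (τ, x)) (-(1 / 2) * uu U a (τ, x) * ‖gg U (τ, x) a‖ ^ 2)
      (wv (x a) (gg U (τ, x) a)) := HJet.pt a (h.jet₁ a hτ (hx a))

theorem perp (hx : ∀ a, ‖x a‖ = 1) (a : Fin t) : ⟪x a, gg U (τ, x) a⟫ = 0 :=
  inner_tg_self _ τ (hx a)

theorem cont_gg (h : HD U M) (hτ : 0 ≤ τ) (hx : ∀ a, ‖x a‖ = 1) (a : Fin t) :
    ContinuousAt (fun q => gg U q a) (τ, x) :=
  (h.cont_tg a hτ (hx a)).comp_of_eq (f := fun q : ℝ × (Fin t → E) => (q.1, q.2 a))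
    (by fun_prop) rfl

theorem cont_En (h : HD U M) (hτ : 0 ≤ τ) (hx : ∀ a, ‖x a‖ = 1) :
    ContinuousAt (fun q => En (gg U q)) (τ, x) :=
  tendsto_finsetSum _ fun a _ => (h.cont_gg hτ hx a).norm.pow 2

theorem cont_Dd (h : HD U M) (hτ : 0 ≤ τ) (hx : ∀ a, ‖x a‖ = 1) :
    ContinuousAt (fun q => Dd (gg U q)) (τ, x) :=
  tendsto_finsetSum _ fun a _ => tendsto_finsetSum _ fun b _ =>
    ((h.cont_gg hτ hx a).sub (h.cont_gg hτ hx b)).norm.pow 2

theorem cont_cross (h : HD U M) (hτ : 0 ≤ τ) (hx : ∀ a, ‖x a‖ = 1) (a b : Fin t) :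
    ContinuousAt (fun q : ℝ × (Fin t → E) => ⟪q.2 b, gg U q a⟫ ^ 2) (τ, x) :=
  (ContinuousAt.inner (f := fun q : ℝ × (Fin t → E) => q.2 b) (by fun_prop)
    (h.cont_gg hτ hx a)).pow 2

theorem cont_Er (h : HD U M) (hτ : 0 ≤ τ) (hx : ∀ a, ‖x a‖ = 1) (ε : ℝ) :
    ContinuousAt (fun q => Er ε q.2 (gg U q)) (τ, x) :=
  (continuousAt_const.mul (h.cont_En hτ hx)).add
    (tendsto_finsetSum _ fun a _ => tendsto_finsetSum _ fun b _ => h.cont_cross hτ hx a b)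

theorem jetC (h : HD U M) (hτ : 0 ≤ τ) (hx : ∀ a, ‖x a‖ = 1) :
    HJet (fun q => ∑ a, uu U a q) (τ, x) (∑ a, uu U a (τ, x))
      (-(1 / 2) * ∑ a, uu U a (τ, x) * ‖gg U (τ, x) a‖ ^ 2) (∑ a, wv (x a) (gg U (τ, x) a)) :=
  (Jet.sum _ fun a _ => h.jet hτ hx a).congr rfl (by simp only [Finset.mul_sum, mul_assoc]) rfl

theorem jetQ (h : HD U M) (hτ : 0 ≤ τ) (hx : ∀ a, ‖x a‖ = 1) :
    HJet (fun q => ∑ a, uu U a q ^ 2) (τ, x) (∑ a, uu U a (τ, x) ^ 2)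
      (-(En (gg U (τ, x)) + ∑ a, uu U a (τ, x) ^ 2 * ‖gg U (τ, x) a‖ ^ 2))
      (∑ a, (2 * uu U a (τ, x)) • wv (x a) (gg U (τ, x) a)) := by
  refine (Jet.sum _ fun a _ => (h.jet hτ hx a).sq).congr rfl ?_ rfl
  rw [En, ← Finset.sum_add_distrib, ← Finset.sum_neg_distrib]
  refine Finset.sum_congr rfl fun a _ => ?_
  rw [norm_wv (hx a) (perp hx a)]
  ring

theorem supQ (h : HD U M) (hτ : 0 ≤ τ) (hx : ∀ a, ‖x a‖ = 1) :
    Sup E (fun q => ∑ a, uu U a q ^ 2) (τ, x) (-En (gg U (τ, x))) :=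
  (h.jetQ hτ hx).sup (by
    have : 0 ≤ ∑ a, uu U a (τ, x) ^ 2 * ‖gg U (τ, x) a‖ ^ 2 :=
      Finset.sum_nonneg fun _ _ => by positivity
    linarith)

theorem ev_pt (h : HD U M) (hτ : 0 ≤ τ) (hx : ∀ a, ‖x a‖ = 1) (a : Fin t) :
    ev E x (fun q => ‖gg U q a‖ ^ 2) τ =
      ∫ y, ‖tg (fun q => Ps (U a q)) (τ, y)‖ ^ 2 ∂(sph E) :=
  ev_unit (hx a) (f := fun p => ‖tg (fun q => Ps (U a q)) p‖ ^ 2)
    fun _ hy => (h.cont_tg a hτ hy).norm.pow 2

theorem ev_En (h : HD U M) (hτ : 0 ≤ τ) (hx : ∀ a, ‖x a‖ = 1) :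
    ev E x (fun q => En (gg U q)) τ =
      ∑ a, ∫ y, ‖tg (fun q => Ps (U a q)) (τ, y)‖ ^ 2 ∂(sph E) := by
  simp only [En]
  rw [ev_sum _ fun a _ g => (h.cont_gg hτ (fun b => (norm_ap g _).trans (hx b)) a).norm.pow 2]
  simp only [h.ev_pt hτ hx]

theorem ev_Er (h : HD U M) (hn : 2 ≤ finrank ℝ E) (hτ : 0 ≤ τ) (hx : ∀ a, ‖x a‖ = 1) (ε : ℝ) :
    ev E x (fun q => Er ε q.2 (gg U q)) τ ≤
      (ε * t + t / kk E) * ev E x (fun q => En (gg U q)) τ := by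
  have hk : 0 < kk E := by
    have : (2 : ℝ) ≤ finrank ℝ E := by exact_mod_cast hn
    unfold kk
    linarith
  have hx' : ∀ (g : G E) b, ‖ga g x b‖ = 1 := fun g b => (norm_ap g _).trans (hx b)
  have h1 : ∀ a b, ev E x (fun q : ℝ × (Fin t → E) => ⟪q.2 b, gg U q a⟫ ^ 2) τ ≤
      1 / kk E * ∫ y, ‖tg (fun q => Ps (U a q)) (τ, y)‖ ^ 2 ∂(sph E) := by
    intro a b
    have := avg_tangent hn (v := fun y => tg (fun q => Ps (U a q)) (τ, y))
      (fun y hy => ((h.cont_tg a hτ hy).comp_of_eq (f := fun y : E => (τ, y)) (by fun_prop)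
        rfl).continuousWithinAt) (fun y hy => inner_tg_self _ τ hy) (hx a) (x b)
    refine this.trans_le (mul_le_mul_of_nonneg_right ?_ (integral_nonneg fun _ => sq_nonneg _))
    rw [hx b]
    gcongr
    nlinarith [sq_nonneg ⟪x a, x b⟫]
  simp only [Er]
  rw [ev_add (f := fun q => ε * t * En (gg U q))
    (fun g => continuousAt_const.mul (h.cont_En hτ (hx' g)))
    (fun g => tendsto_finsetSum _ fun a _ => tendsto_finsetSum _ fun b _ =>
      h.cont_cross hτ (hx' g) a b), ev_const_mul, add_mul,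
    ev_sum _ fun a _ g => tendsto_finsetSum _ fun b _ => h.cont_cross hτ (hx' g) a b]
  refine add_le_add_right ?_ _
  rw [h.ev_En hτ hx, Finset.mul_sum]
  refine Finset.sum_le_sum fun a _ => ?_
  rw [ev_sum _ fun b _ g => h.cont_cross hτ (hx' g) a b]
  refine (Finset.sum_le_sum fun b _ => h1 a b).trans_eq ?_
  simp only [Finset.sum_const, Finset.card_univ, Fintype.card_fin, nsmul_eq_mul]
  ring

/-- the basic Bellman function -/
theorem supF (h : HD U M) (ht : 2 ≤ t) {n : ℕ} (hn : 2 * t * (4 * t * M ^ 2 + 1) ≤ n + 2) {ε : ℝ}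
    (hε : 0 ≤ ε) (hτ : 0 ≤ τ) (hx : Near t ε x) {s : Fin t}
    (hs : ∀ a, ‖gg U (τ, x) s‖ ≤ ‖gg U (τ, x) a‖) :
    Sup E (fun q => pp (n + 3) (∑ a, uu U a q)) (τ, x)
      (-(pp (n + 1) (∑ a, uu U a (τ, x)) *
          (1 / 2 * (∑ a, uu U a (τ, x)) ^ 2 * ‖gg U (τ, x) s‖ ^ 2 + Dd (gg U (τ, x)))) +
        (n + 3) ^ 2 * (t * M) ^ (n + 1) * Er ε x (gg U (τ, x))) := by
  have hj := (h.jetC hτ hx.1).comp (φ := pp (n + 3)) (φ' := fun y => (n + 3) * pp (n + 2) y)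
    (φ'' := (n + 3) * ((n + 2) * pp (n + 1) (∑ a, uu U a (τ, x))))
    (contDiff_pp 2 n).contDiffAt (Eventually.of_forall fun y =>
      (hasDerivAt_pp (n + 1) y).congr_deriv (by push_cast; ring))
    ((hasDerivAt_pp n _).const_mul _)
  refine HJet.sup hj ?_
  have h1 := gamma_ge ht hε (g := gg U (τ, x)) hx
  have h2 := sum_u_ge' hs (h.abs_le hτ hx.1)
  have h3 := le_of_abs_le (abs_sum_le (h.abs_le hτ hx.1))
  have h4 := Er_nonneg hε x (gg U (τ, x))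
  have h5 := Dd_nonneg (gg U (τ, x))
  have hM : 0 ≤ M := (abs_nonneg _).trans (h.abs_le hτ hx.1 s)
  have ht' : (2 : ℝ) ≤ t := by exact_mod_cast ht
  set C := ∑ a, uu U a (τ, x)
  set S := ∑ a, uu U a (τ, x) * ‖gg U (τ, x) a‖ ^ 2
  set Γ := ‖∑ a, wv (x a) (gg U (τ, x) a)‖ ^ 2
  set D := Dd (gg U (τ, x))
  set e := Er ε x (gg U (τ, x))
  rcases le_total C 0 with hC | hC
  · simp only [pp, max_eq_right hC, ne_eq, Nat.add_eq_zero_iff, one_ne_zero, and_false,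
      not_false_eq_true, zero_pow, OfNat.ofNat_ne_zero, mul_zero, zero_mul, sub_zero, neg_zero,
      zero_add]
    positivity
  · have e1 : pp (n + 2) C = pp (n + 1) C * C := by simp only [pp, max_eq_left hC, pow_succ]
    have e2 : pp (n + 1) C ≤ (t * M) ^ (n + 1) := by
      simp only [pp, max_eq_left hC]
      gcongr
    have e3 := pp_nonneg (n + 1) C
    have h6 : (4 * t * M ^ 2 + 1) * D ≤ (n + 2) * (D / (2 * t)) := by
      rw [mul_div_assoc', le_div_iff₀ (by linarith)]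
      nlinarith
    have h7 : 1 / 2 * C ^ 2 * ‖gg U (τ, x) s‖ ^ 2 + D - (n + 2) * e ≤ C * S + (n + 2) * Γ := by
      nlinarith [h2 hC, mul_le_mul_of_nonneg_left h1 (show (0 : ℝ) ≤ n + 2 by positivity)]
    have h8 : 0 ≤ 1 / 2 * C ^ 2 * ‖gg U (τ, x) s‖ ^ 2 + D := by positivity
    have h9 := mul_le_mul_of_nonneg_left h7 (show 0 ≤ ((n : ℝ) + 3) / 2 * pp (n + 1) C by positivity)
    have h10 : ((n : ℝ) + 3) / 2 * pp (n + 1) C * ((n + 2) * e) ≤
        (n + 3) ^ 2 * (t * M) ^ (n + 1) * e := by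
      calc _ = (((n : ℝ) + 3) / 2 * (n + 2)) * pp (n + 1) C * e := by ring
        _ ≤ _ := by
          gcongr
          nlinarith [(Nat.cast_nonneg n : (0 : ℝ) ≤ n)]
    have h11 : pp (n + 1) C * (1 / 2 * C ^ 2 * ‖gg U (τ, x) s‖ ^ 2 + D) ≤
        ((n : ℝ) + 3) / 2 * pp (n + 1) C * (1 / 2 * C ^ 2 * ‖gg U (τ, x) s‖ ^ 2 + D) := by
      nlinarith [mul_nonneg e3 h8, (Nat.cast_nonneg n : (0 : ℝ) ≤ n)]
    rw [e1]
    nlinarith

end HD

end Pool.Agent.BL
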