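import Pool.Agent.P.MP_edb112_gt.Tg
import Pool.Agent.P.MP_edb112_gt.Config

/-! Polynomial heat flows on the sphere. -/

set_option autoImplicit false
set_option linter.unusedSectionVars false

open MeasureTheory Set Module Filter
open scoped RealInnerProductSpace Topology

noncomputable section

namespace Pool.Agent.BL

variable {E : Type} [NormedAddCommGroup E] [InnerProductSpace ℝ E] [FiniteDimensional ℝ E]
  [CompleteSpace E] [MeasurableSpace E] [BorelSpace E]

variable (E) in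
/-- linear functions -/
def Lin : Submodule ℝ (E → ℝ) := Submodule.span ℝ (range fun a : E => fun x => ⟪a, x⟫)

variable (E) in
/-- polynomial functions of degree at most `d` -/
def Pol (d : ℕ) : Submodule ℝ (E → ℝ) := (1 ⊔ Lin E) ^ d

variable (E) in
/-- eigenvalue of level `d` -/
def lam (d : ℕ) : ℝ := d * (d + kk E - 1)

/-- eigenfunctions of the Laplacian of the sphere -/
structure Eig (l : ℝ) (p : E → ℝ) : Prop where
  sm : ContDiff ℝ 3 p
  eq : ∀ τ x, ‖x‖ = 1 → heat E (fun q : ℝ × E => p q.2) (τ, x) = l / 2 * p x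

namespace Flw

/-- the linear function attached to a vector -/
def linMap : E →ₗ[ℝ] (E → ℝ) where
  toFun a := fun x => ⟪a, x⟫
  map_add' a b := by funext x; simp [inner_add_left]
  map_smul' c a := by funext x; simp [real_inner_smul_left]

theorem Lin_eq : Lin E = LinearMap.range (linMap (E := E)) := by
  rw [Lin]
  exact Submodule.span_eq (LinearMap.range (linMap (E := E)))

theorem mem_one {p : E → ℝ} : p ∈ (1 : Submodule ℝ (E → ℝ)) ↔ ∃ c : ℝ, p = fun _ => c := by
  rw [Submodule.mem_one]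
  exact exists_congr fun c => eq_comm

theorem mem_aff {m : E → ℝ} : m ∈ 1 ⊔ Lin E ↔ ∃ (c : ℝ) (a : E), m = fun x => c + ⟪a, x⟫ := by
  rw [Submodule.mem_sup, Lin_eq]
  constructor
  · rintro ⟨y, hy, z, ⟨a, rfl⟩, rfl⟩
    obtain ⟨c, rfl⟩ := mem_one.1 hy
    exact ⟨c, a, rfl⟩
  · rintro ⟨c, a, rfl⟩
    exact ⟨fun _ => c, mem_one.2 ⟨c, rfl⟩, linMap a, ⟨a, rfl⟩, rfl⟩

theorem Pol_succ (d : ℕ) : Pol E (d + 1) = (1 ⊔ Lin E) * Pol E d := pow_succ' _ _

theorem aff_mul_mem {d : ℕ} {n : E → ℝ} (hn : n ∈ Pol E d) (c : ℝ) (a : E) :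
    (fun x => (c + ⟪a, x⟫) * n x) ∈ Pol E (d + 1) := by
  rw [Pol_succ]
  exact Submodule.mul_mem_mul (mem_aff.2 ⟨c, a, rfl⟩) hn

theorem induction_succ {d : ℕ} {C : (E → ℝ) → Prop}
    (hm : ∀ (c : ℝ) (a : E), ∀ n ∈ Pol E d, C fun x => (c + ⟪a, x⟫) * n x)
    (ha : ∀ p ∈ Pol E (d + 1), ∀ q ∈ Pol E (d + 1), C p → C q → C fun x => p x + q x)
    {p : E → ℝ} (hp : p ∈ Pol E (d + 1)) : C p := by
  rw [Pol_succ] at hp ha
  induction hp using Submodule.mul_induction_on' with
  | mem_mul_mem m hm' n hn =>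
    obtain ⟨c, a, rfl⟩ := mem_aff.1 hm'
    exact hm c a n hn
  | add x hx y hy h1 h2 => exact ha x hx y hy h1 h2

theorem le_succ (d : ℕ) : Pol E d ≤ Pol E (d + 1) := fun p hp => by
  simpa using aff_mul_mem hp 1 0

end Flw

open Flw

theorem mem_Pol_zero {p : E → ℝ} : p ∈ Pol E 0 ↔ ∃ c : ℝ, p = fun _ => c := by
  rw [Pol, pow_zero, Flw.mem_one]

theorem contDiff_of_mem_Pol {d : ℕ} {p : E → ℝ} (hp : p ∈ Pol E d) {n : ℕ∞} :
    ContDiff ℝ n p := by
  induction d generalizing p with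
  | zero =>
    obtain ⟨c, rfl⟩ := mem_Pol_zero.1 hp
    exact contDiff_const
  | succ d ih =>
    exact induction_succ (C := fun p => ContDiff ℝ n p)
      (fun c a m hm => (contDiff_const.add (contDiff_const.inner ℝ contDiff_id)).mul (ih hm))
      (fun _ _ _ _ h1 h2 => h1.add h2) hp

instance (d : ℕ) : Module.Finite ℝ (Pol E d) := by
  refine Module.Finite.iff_fg.2 (Submodule.FG.pow (Submodule.FG.sup ?_ ?_) d)
  · rw [Submodule.one_eq_span]
    exact Submodule.fg_span_singleton _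
  · rw [Lin_eq]
    exact Module.Finite.iff_fg.1 inferInstance

theorem Pol_mono {d d' : ℕ} (h : d ≤ d') : Pol E d ≤ Pol E d' :=
  monotone_nat_of_le_succ (f := Pol E) le_succ h

theorem comp_ap_mem_Pol {d : ℕ} {p : E → ℝ} (hp : p ∈ Pol E d) (g : G E) :
    (fun x => p (ap g x)) ∈ Pol E d := by
  induction d generalizing p with
  | zero =>
    obtain ⟨c, rfl⟩ := mem_Pol_zero.1 hp
    exact mem_Pol_zero.2 ⟨c, rfl⟩
  | succ d ih =>
    refine induction_succ (C := fun p => (fun x => p (ap g x)) ∈ Pol E (d + 1))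
      (fun c a m hm => ?_) (fun _ _ _ _ h1 h2 => add_mem h1 h2) hp
    have := aff_mul_mem (ih hm) c (ap g⁻¹ a)
    simpa only [inner_ap_left, inv_inv] using this

namespace Flw

/-- polynomial functions of degree less than `d` -/
def Pl (E : Type) [NormedAddCommGroup E] [InnerProductSpace ℝ E] : ℕ → Submodule ℝ (E → ℝ)
  | 0 => ⊥
  | d + 1 => Pol E d

theorem Pl_le (d : ℕ) : Pl E d ≤ Pol E d := by
  cases d with
  | zero => exact bot_le
  | succ d => exact le_succ d

theorem aff_mul_Pl {d : ℕ} {n : E → ℝ} (hn : n ∈ Pl E d) (c : ℝ) (a : E) :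
    (fun x => (c + ⟪a, x⟫) * n x) ∈ Pol E d := by
  cases d with
  | zero =>
    have : n = 0 := hn
    exact mem_Pol_zero.2 ⟨0, by simp [this]⟩
  | succ d => exact aff_mul_mem hn c a

theorem cmul_mem {S : Submodule ℝ (E → ℝ)} {n : E → ℝ} (hn : n ∈ S) (c : ℝ) :
    (fun x => c * n x) ∈ S := S.smul_mem c hn

theorem c2 {d : ℕ} {p : E → ℝ} (hp : p ∈ Pol E d) (x : E) : ContDiffAt ℝ 2 p x :=
  (contDiff_of_mem_Pol hp (n := 2)).contDiffAt

theorem dif {d : ℕ} {p : E → ℝ} (hp : p ∈ Pol E d) (x : E) : DifferentiableAt ℝ p x :=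
  (c2 hp x).differentiableAt (by simp)

theorem fderiv_aff_mul {d : ℕ} {n : E → ℝ} (hn : n ∈ Pol E d) (c : ℝ) (a x b : E) :
    fderiv ℝ (fun x => (c + ⟪a, x⟫) * n x) x b = (c + ⟪a, x⟫) * fderiv ℝ n x b + ⟪a, b⟫ * n x := by
  have h1 : HasFDerivAt (fun x : E => c + ⟪a, x⟫) (innerSL ℝ a) x :=
    (innerSL ℝ a).hasFDerivAt.const_add c
  rw [(h1.fun_mul (dif hn x).hasFDerivAt).fderiv]
  simp [mul_comm]

theorem fderiv_mem {d : ℕ} {p : E → ℝ} (hp : p ∈ Pol E d) (b : E) :
    (fun x => fderiv ℝ p x b) ∈ Pl E d := by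
  induction d generalizing p with
  | zero =>
    obtain ⟨c, rfl⟩ := mem_Pol_zero.1 hp
    simp only [fderiv_fun_const, Pi.zero_apply, zero_apply]
    exact zero_mem _
  | succ d ih =>
    refine induction_succ (C := fun p => (fun x => fderiv ℝ p x b) ∈ Pol E d)
      (fun c a m hm => ?_) (fun p hp q hq h1 h2 => ?_) hp
    · simp only [fderiv_aff_mul hm]
      exact add_mem (aff_mul_Pl (ih hm) c a) (cmul_mem hm _)
    · simp only [fderiv_fun_add (dif hp _) (dif hq _), add_apply]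
      exact add_mem h1 h2

theorem euler_mem {d : ℕ} {p : E → ℝ} (hp : p ∈ Pol E d) :
    (fun x => fderiv ℝ p x x - d * p x) ∈ Pl E d := by
  induction d generalizing p with
  | zero =>
    obtain ⟨c, rfl⟩ := mem_Pol_zero.1 hp
    simp only [fderiv_fun_const, Pi.zero_apply, zero_apply, Nat.cast_zero, zero_mul, sub_zero]
    exact zero_mem _
  | succ d ih =>
    refine induction_succ (C := fun p => (fun x => fderiv ℝ p x x - (d + 1 : ℕ) * p x) ∈ Pol E d)
      (fun c a m hm => ?_) (fun p hp q hq h1 h2 => ?_) hp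
    · convert add_mem (aff_mul_Pl (ih hm) c a) (cmul_mem hm (-c)) using 1
      funext x
      simp only [fderiv_aff_mul hm, Pi.add_apply]
      push_cast
      ring
    · convert add_mem h1 h2 using 1
      funext x
      simp only [fderiv_fun_add (dif hp _) (dif hq _), add_apply, Pi.add_apply]
      ring

/-- jets of time independent functions -/
abbrev SJet (p : E → ℝ) (x : E) (a o : ℝ) (g : EuclideanSpace ℝ (Ix E)) : Prop :=
  Jet ((kk E / 2) • x) (fun j : Ix E => hA j x) p x a o g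

/-- the heat operator on time independent functions -/
def Lp (p : E → ℝ) (x : E) : ℝ := op ((kk E / 2) • x) (fun j : Ix E => hA j x) p x

theorem SJet.hjet {p : E → ℝ} {x : E} {a o : ℝ} {g : EuclideanSpace ℝ (Ix E)}
    (h : SJet p x a o g) (τ : ℝ) : HJet (fun q : ℝ × E => p q.2) (τ, x) a o g :=
  h.comp_clm (ContinuousLinearMap.snd ℝ ℝ E) rfl rfl fun _ => rfl

theorem heat_eq_Lp {p : E → ℝ} {x : E} (hp : ContDiffAt ℝ 2 p x) (τ : ℝ) :
    heat E (fun q : ℝ × E => p q.2) (τ, x) = Lp p x :=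
  (SJet.hjet (Jet.of hp) τ).op

theorem sjet {p : E → ℝ} {x : E} (hp : ContDiffAt ℝ 2 p x) :
    SJet p x (p x) (Lp p x) (wv x ((InnerProductSpace.toDual ℝ E).symm (fderiv ℝ p x))) := by
  refine (Jet.of hp).congr rfl rfl ?_
  ext j
  simp [gr, wv]

theorem sjet_aff (c : ℝ) (a x : E) :
    SJet (fun x => c + ⟪a, x⟫) x (c + ⟪a, x⟫) (kk E / 2 * ⟪a, x⟫) (wv x a) :=
  ((Jet.const c).add (Jet.clm (innerSL ℝ a))).congr rfl
    (by simp) (by ext j; simp [wv])

theorem Lp_mem {d : ℕ} {p : E → ℝ} (hp : p ∈ Pol E d) :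
    ∃ r ∈ Pl E d, ∀ x, ‖x‖ = 1 → Lp p x = lam E d / 2 * p x + r x := by
  induction d generalizing p with
  | zero =>
    obtain ⟨c, rfl⟩ := mem_Pol_zero.1 hp
    refine ⟨0, zero_mem _, fun x _ => ?_⟩
    have : Lp (fun _ : E => c) x = 0 := (Jet.const c).op
    simp [this, lam]
  | succ d ih =>
    refine induction_succ (C := fun p => ∃ r ∈ Pol E d, ∀ x, ‖x‖ = 1 →
      Lp p x = lam E (d + 1) / 2 * p x + r x) (fun c a m hm => ?_) (fun p hp q hq h1 h2 => ?_) hp
    · obtain ⟨r, hr, he⟩ := ih hm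
      refine ⟨_, add_mem (add_mem (add_mem (aff_mul_Pl hr c a) (cmul_mem hm (-(kk E / 2 + d) * c)))
        (cmul_mem (Pl_le d (fderiv_mem hm a)) (-1))) (aff_mul_Pl (euler_mem hm) 0 a),
        fun x hx => ?_⟩
      have h1 : Lp (fun x => (c + ⟪a, x⟫) * m x) x = _ := ((sjet_aff c a x).mul (sjet (c2 hm x))).op
      have h2 : ∀ y, ⟪y, (InnerProductSpace.toDual ℝ E).symm (fderiv ℝ m x)⟫ = fderiv ℝ m x y :=
        fun y => by rw [real_inner_comm, InnerProductSpace.toDual_symm_apply]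
      rw [h1, he x hx, inner_wv, real_inner_self_eq_norm_sq, hx, h2, h2, real_inner_comm a x]
      simp only [Pi.add_apply, lam]
      push_cast
      ring
    · obtain ⟨r, hr, he⟩ := h1
      obtain ⟨r', hr', he'⟩ := h2
      refine ⟨_, add_mem hr hr', fun x hx => ?_⟩
      have h1 : Lp (fun x => p x + q x) x = _ := ((sjet (c2 hp x)).add (sjet (c2 hq x))).op
      rw [h1, he x hx, he' x hx, Pi.add_apply]
      ring

theorem conj_sk (g : G E) (a b : E) :
    (g : E →L[ℝ] E) * sk a b = sk (ap g a) (ap g b) * (g : E →L[ℝ] E) := by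
  ext x
  change ap g (sk a b x) = sk (ap g a) (ap g b) (ap g x)
  simp only [sk_apply, ap_sub, ap_smul, inner_ap]

theorem pars_ap (g : G E) : Pars fun i => ap g (eb E i) := by
  intro x
  simp only [inner_ap_left, ← ap_smul]
  have h := map_sum (g : E →L[ℝ] E) (fun i => ⟪eb E i, ap g⁻¹ x⟫ • eb E i) Finset.univ
  rw [pars_eb] at h
  exact h.symm.trans (ap_ap_inv g x)

end Flw

/-- the heat operator commutes with rotations -/
theorem heat_comp_ga {V : Type} [NormedAddCommGroup V] [NormedSpace ℝ V] [Rep E V]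
    {f : ℝ × V → ℝ} (g : G E) {τ : ℝ} {z : V} (hf : ContDiffAt ℝ 2 f (τ, ga g z)) :
    heat E (fun q => f (q.1, ga g q.2)) (τ, z) = heat E f (τ, ga g z) := by
  let π : (ℝ × V) →L[ℝ] (ℝ × V) := (ContinuousLinearMap.id ℝ ℝ).prodMap (act (g : E →L[ℝ] E))
  have hπ : ∀ q : ℝ × V, π q = (q.1, act (g : E →L[ℝ] E) q.2) := fun _ => rfl
  have hf' : ContDiffAt ℝ 2 f (π (τ, z)) := hf
  have hd := hf'.differentiableAt (by simp)
  change heat E (fun q => f (π q)) (τ, z) = heat E f (π (τ, z))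
  rw [heat_eq, heat_eq, fderiv_comp_clm π hd, sum_hA _ (pars_eb (E := E)), sum_hA _ (pars_ap g)]
  congr 1
  · simp [hπ]
  congr 2
  refine Finset.sum_congr rfl fun i _ => Finset.sum_congr rfl fun k _ => ?_
  rw [qf_apply, qf_apply, hess_comp_clm π hf', fderiv_comp_clm π hd]
  simp only [hπ, act_act, ← conj_sk]
  rw [← mul_assoc, ← mul_assoc, conj_sk]

theorem Eig.c2 {l : ℝ} {p : E → ℝ} (h : Eig l p) (q : ℝ × E) :
    ContDiffAt ℝ 2 (fun q : ℝ × E => p q.2) q :=
  ((h.sm.comp contDiff_snd).of_le (by norm_num)).contDiffAt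

theorem Eig.jet {l : ℝ} {p : E → ℝ} (h : Eig l p) (τ : ℝ) {x : E} (hx : ‖x‖ = 1) :
    HJet (fun q : ℝ × E => p q.2) (τ, x) (p x) (l / 2 * p x)
      (hg E (fun q : ℝ × E => p q.2) (τ, x)) :=
  (HJet.of' (h.c2 _)).congr rfl (h.eq τ x hx) rfl

theorem Eig.comp_ap {l : ℝ} {p : E → ℝ} (h : Eig l p) (g : G E) :
    Eig l fun x => p (ap g x) :=
  ⟨h.sm.comp (g : E →L[ℝ] E).contDiff, fun τ x hx =>
    (heat_comp_ga (f := fun q : ℝ × E => p q.2) g (h.c2 _)).trans
      (h.eq τ _ ((norm_ap g x).trans hx))⟩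

theorem Eig.comp_neg {l : ℝ} {p : E → ℝ} (h : Eig l p) : Eig l fun x => p (-x) :=
  h.comp_ap (ofIso (LinearIsometryEquiv.neg ℝ))

theorem Eig.const_mul {l : ℝ} {p : E → ℝ} (h : Eig l p) (c : ℝ) : Eig l fun x => c * p x :=
  ⟨contDiff_const.mul h.sm, fun τ x hx => ((h.jet τ hx).const_mul c).op.trans (by ring)⟩

theorem Eig.cont {l : ℝ} {p : E → ℝ} (h : Eig l p) : Continuous p := h.sm.continuous

theorem eig_const (c : ℝ) : Eig 0 fun _ : E => c :=
  ⟨contDiff_const, fun τ x _ => (Jet.const c).op.trans (by ring)⟩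

theorem eig_zero (l : ℝ) : Eig l fun _ : E => 0 :=
  ⟨contDiff_const, fun τ x _ => (Jet.const 0).op.trans (by ring)⟩

/-- integration by parts -/
theorem Eig.integral_inner_tg [Nontrivial E] {l : ℝ} {p : E → ℝ} (h : Eig l p) {f : ℝ × E → ℝ}
    {τ : ℝ} (hf : ∀ x, ‖x‖ = 1 → ContDiffAt ℝ 1 f (τ, x)) :
    ∫ x, ⟪tg f (τ, x), tg (fun q => p q.2) (τ, x)⟫ ∂(sph E) =
      l * ∫ x, f (τ, x) * p x ∂(sph E) := by
  obtain ⟨x₀, hx₀⟩ := exists_norm_eq E zero_le_one
  set P : ℝ × E → ℝ := fun q => p q.2 with hP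
  have hP2 : ∀ q, ContDiffAt ℝ 2 P q := h.c2
  have hP1 : ∀ q, ContDiffAt ℝ 1 P q := fun q => (hP2 q).of_le (by norm_num)
  have hdP : ∀ (j : Ix E) q, ContDiffAt ℝ 1 (fun q => df P q (hA j)) q := fun j q =>
    contDiffAt_df (m := 1) (n := 2) (hP2 q) le_rfl _
  have hu : ∀ g : G E, ‖ga g x₀‖ = 1 := fun g => (norm_ap g x₀).trans hx₀
  have hm : ∀ (j : Ix E) x, ‖x‖ = 1 → ContDiffAt ℝ 1 (fun q => f q * df P q (hA j)) (τ, x) :=
    fun j x hx => (hf x hx).mul (hdP j _)
  have key : ∀ x, ‖x‖ = 1 → ∑ j : Ix E, df (fun q => f q * df P q (hA j)) (τ, x) (hA j) =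
      ⟪tg f (τ, x), tg P (τ, x)⟫ - l * (f (τ, x) * p x) := by
    intro x hx
    have e1 : ∀ j : Ix E, df (fun q => f q * df P q (hA j)) (τ, x) (hA j) =
        f (τ, x) * qf P (τ, x) (hA j) (hA j) + df f (τ, x) (hA j) * df P (τ, x) (hA j) := by
      intro j
      rw [← df_df_self (hP2 _), df_apply, fderiv_fun_mul ((hf x hx).differentiableAt (by simp))
        ((hdP j _).differentiableAt (by simp))]
      simp only [add_apply, smul_apply, smul_eq_mul, df_apply]
      ring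
    have e2 : ∑ j : Ix E, df f (τ, x) (hA j) * df P (τ, x) (hA j) =
        ⟪tg f (τ, x), tg P (τ, x)⟫ := by
      simp only [df_eq_tg _ _ (isSkew_hA _), inner_hA, inner_tg_self _ τ hx,
        real_inner_self_eq_norm_sq, hx]
      ring
    have e3 := h.eq τ x hx
    have e4 : fderiv ℝ P (τ, x) (1, 0) = 0 :=
      (fderiv_comp_clm (ContinuousLinearMap.snd ℝ ℝ E) (f := p) (p := (τ, x))
        (h.sm.differentiable (by simp) _) (1, 0)).trans (by simp)
    rw [heat_eq, e4] at e3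
    simp only [e1, Finset.sum_add_distrib, ← Finset.mul_sum, e2]
    linear_combination (-2 * f (τ, x)) * e3
  have c1 : ∀ y, ‖y‖ = 1 → ContinuousAt (fun q => ⟪tg f q, tg P q⟫) (τ, y) := fun y hy =>
    (continuousAt_tg (hf y hy)).inner (continuousAt_tg (hP1 _))
  have c2 : ∀ y, ‖y‖ = 1 → ContinuousAt (fun q => f q * P q) (τ, y) := fun y hy =>
    (hf y hy).continuousAt.mul (hP1 _).continuousAt
  have i0 : ∫ g, ∑ j : Ix E, df (fun q => f q * df P q (hA j)) (τ, ga g x₀) (hA j) ∂(haar E) = 0 := by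
    rw [integral_finsetSum _ fun j _ => integrable_orbit
      (f := fun q => df (fun q => f q * df P q (hA j)) q (hA j))
      fun g => continuousAt_df (hm j _ (hu g)) _]
    exact Finset.sum_eq_zero fun j _ => integral_df (fun g => hm j _ (hu g)) (isSkew_hA j)
  simp only [key _ (hu _)] at i0
  rw [integral_sub (integrable_orbit fun g => c1 _ (hu g))
    ((integrable_orbit fun g => c2 _ (hu g)).const_mul l), integral_const_mul, sub_eq_zero] at i0
  rw [← ev_unit hx₀ c1, ← ev_unit hx₀ c2]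
  exact i0

theorem Eig.orth [Nontrivial E] {l l' : ℝ} {p p' : E → ℝ} (h : Eig l p) (h' : Eig l' p')
    (hl : l ≠ l') : ∫ x, p x * p' x ∂(sph E) = 0 := by
  have h1 := h.integral_inner_tg (f := fun q => p' q.2) (τ := 0)
    fun x _ => (h'.c2 _).of_le (by norm_num)
  have h2 := h'.integral_inner_tg (f := fun q => p q.2) (τ := 0)
    fun x _ => (h.c2 _).of_le (by norm_num)
  simp only [real_inner_comm (tg (fun q => p q.2) _), mul_comm (p' _)] at h1
  rw [h1] at h2
  exact (mul_eq_zero.1 (by linear_combination h2)).resolve_left (sub_ne_zero.2 hl)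

theorem lam_strictMono (hn : 2 ≤ finrank ℝ E) : StrictMono (lam E) := by
  refine strictMono_nat_of_lt_succ fun d => ?_
  have h1 : (2 : ℝ) ≤ finrank ℝ E := by exact_mod_cast hn
  have h2 : (0 : ℝ) ≤ d := d.cast_nonneg
  simp only [lam, kk]
  push_cast
  nlinarith

theorem lam_zero : lam E 0 = 0 := by simp [lam]

theorem lam_one : lam E 1 = kk E := by simp [lam]

variable (E) in
/-- a polynomial heat flow, given by its levels -/
structure Flow where
  D : ℕ
  p : ℕ → E → ℝ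
  mem : ∀ d, p d ∈ Pol E d
  eig : ∀ d, Eig (lam E d) (p d)

/-- the solution of the heat equation with the given levels -/
def Flow.U (F : Flow E) (q : ℝ × E) : ℝ :=
  ∑ d ∈ Finset.range (F.D + 1), Real.exp (-(lam E d * q.1 / 2)) * F.p d q.2

theorem Flow.isHeat (F : Flow E) : IsHeat F.U := by
  refine ⟨ContDiff.sum fun d _ => ContDiff.mul (by fun_prop) ((F.eig d).sm.comp contDiff_snd),
    fun τ x hx => ?_⟩
  have h1 : ∀ d, HJet (E := E) (fun q : ℝ × E => Real.exp (-(lam E d * q.1 / 2))) (τ, x)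
      (Real.exp (-(lam E d * τ / 2))) (Real.exp (-(lam E d * τ / 2)) * -(lam E d / 2)) 0 := fun d =>
    hjet_fun_time (a := fun s => Real.exp (-(lam E d * s / 2)))
      (a' := fun s => Real.exp (-(lam E d * s / 2)) * -(lam E d / 2)) (τ, x) (by fun_prop)
      ((((hasDerivAt_id τ).const_mul (lam E d)).div_const 2).neg.exp.congr_deriv (by simp))
  refine (Jet.sum (Finset.range (F.D + 1)) fun d _ => (h1 d).mul ((F.eig d).jet τ hx)).op.trans ?_
  refine Finset.sum_eq_zero fun d _ => ?_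
  rw [inner_zero_left]
  ring

namespace Flw

theorem exists_levels (hn : 2 ≤ finrank ℝ E) {D : ℕ} {f : E → ℝ} (hf : f ∈ Pl E D) :
    ∃ p : ℕ → E → ℝ, (∀ d, p d ∈ Pol E d) ∧ (∀ d, Eig (lam E d) (p d)) ∧
      ∀ x, ‖x‖ = 1 → ∑ d ∈ Finset.range D, p d x = f x := by
  induction D generalizing f with
  | zero =>
    have : f = 0 := hf
    exact ⟨fun _ _ => 0, fun _ => zero_mem _, fun _ => eig_zero _, fun x _ => by simp [this]⟩
  | succ D ih =>
    have hf' : f ∈ Pol E D := hf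
    obtain ⟨r, hr, he⟩ := Lp_mem hf'
    obtain ⟨p, hp1, hp2, hp3⟩ := ih hr
    set c : ℕ → ℝ := fun d => 2 / (lam E d - lam E D) with hc
    have hmem : (fun x => f x - ∑ d ∈ Finset.range D, c d * p d x) ∈ Pol E D := by
      have := sub_mem hf' (sum_mem fun d (hd : d ∈ Finset.range D) =>
        cmul_mem (Pol_mono (Finset.mem_range.1 hd).le (hp1 d)) (c d))
      convert this using 1
      funext x
      simp
    have heig : Eig (lam E D) fun x => f x - ∑ d ∈ Finset.range D, c d * p d x := by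
      refine ⟨contDiff_of_mem_Pol hmem (n := 3), fun τ x hx => ?_⟩
      refine ((SJet.hjet (sjet (c2 hf' x)) τ).sub (Jet.sum (Finset.range D)
        fun d _ => ((hp2 d).jet τ hx).const_mul (c d))).op.trans ?_
      rw [he x hx, ← hp3 x hx, mul_sub, Finset.mul_sum, add_sub_assoc, sub_eq_add_neg (_ * f x),
        ← Finset.sum_sub_distrib, ← Finset.sum_neg_distrib]
      congr 1
      refine Finset.sum_congr rfl fun d hd => ?_
      have : lam E d - lam E D ≠ 0 := sub_ne_zero.2 (lam_strictMono hn (Finset.mem_range.1 hd)).ne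
      simp only [hc]
      field_simp
      ring
    refine ⟨fun d => if d = D then fun x => f x - ∑ d ∈ Finset.range D, c d * p d x
      else fun x => c d * p d x, fun d => ?_, fun d => ?_, fun x _ => ?_⟩
    · by_cases h : d = D
      · simpa only [h, if_true] using hmem
      · simpa only [h, if_false] using cmul_mem (hp1 d) _
    · by_cases h : d = D
      · simpa only [h, if_true] using heig
      · simpa only [h, if_false] using (hp2 d).const_mul _
    · rw [Finset.sum_range_succ, Finset.sum_congr rfl fun d hd =>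
        (show _ = c d * p d x by simp only [if_neg (Finset.mem_range.1 hd).ne])]
      simp

theorem nontriv (hn : 2 ≤ finrank ℝ E) : Nontrivial E :=
  Module.nontrivial_of_finrank_pos (R := ℝ) (by omega)

theorem lam_nonneg (hn : 2 ≤ finrank ℝ E) (d : ℕ) : 0 ≤ lam E d :=
  lam_zero.symm.trans_le ((lam_strictMono hn).monotone d.zero_le)

theorem integ [Nontrivial E] {f : E → ℝ} (hf : Continuous f) : Integrable f (sph E) :=
  integrable_of_continuousOn hf.continuousOn

end Flw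

theorem exists_flow (hn : 2 ≤ finrank ℝ E) {D : ℕ} {f : E → ℝ} (hf : f ∈ Pol E D) :
    ∃ F : Flow E, ∀ x, ‖x‖ = 1 → F.U (0, x) = f x := by
  obtain ⟨p, h1, h2, h3⟩ := exists_levels hn (D := D + 1) hf
  exact ⟨⟨D, p, h1, h2⟩, fun x hx => by simpa [Flow.U] using h3 x hx⟩

theorem exists_flow' (hn : 2 ≤ finrank ℝ E) {D : ℕ} {f : E → ℝ} (hf : f ∈ Pol E D) :
    ∃ F : Flow E, F.D = D ∧ ∀ x, ‖x‖ = 1 → F.U (0, x) = f x := by
  obtain ⟨p, h1, h2, h3⟩ := exists_levels hn (D := D + 1) hf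
  exact ⟨⟨D, p, h1, h2⟩, rfl, fun x hx => by simpa [Flow.U] using h3 x hx⟩

theorem Eig.orth_Pol (hn : 2 ≤ finrank ℝ E) {d j : ℕ} (hj : j < d) {p q : E → ℝ}
    (hp : Eig (lam E d) p) (hq : q ∈ Pol E j) : ∫ x, p x * q x ∂(sph E) = 0 := by
  have := nontriv hn
  obtain ⟨r, -, h2, h3⟩ := exists_levels hn (D := j + 1) hq
  have e : ∫ x, p x * q x ∂(sph E) = ∫ x, ∑ i ∈ Finset.range (j + 1), p x * r i x ∂(sph E) := by
    refine integral_congr_ae ?_
    filter_upwards [ae_norm (E := E)] with x hx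
    rw [← h3 x hx, Finset.mul_sum]
  rw [e, integral_finsetSum _ fun i _ => integ (f := fun x => p x * r i x) (hp.cont.mul (h2 i).cont)]
  refine Finset.sum_eq_zero fun i hi => hp.orth (h2 i) (lam_strictMono hn ?_).ne'
  have := Finset.mem_range.1 hi
  omega

theorem Flow.cont (F : Flow E) (τ : ℝ) : Continuous fun x => F.U (τ, x) :=
  F.isHeat.sm.continuous.comp (by fun_prop)

theorem Flow.integral_U (hn : 2 ≤ finrank ℝ E) (F : Flow E) (τ : ℝ) (y : E) :
    ∫ x, F.U (τ, x) ∂(sph E) = F.p 0 y := by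
  have := nontriv hn
  simp only [Flow.U]
  rw [integral_finsetSum _ fun d _ => (integ (F.eig d).cont).const_mul _, Finset.sum_eq_single 0]
  · obtain ⟨c, hc⟩ := mem_Pol_zero.1 (F.mem 0)
    simp [hc, lam_zero]
  · intro d _ hd
    have h := (F.eig d).orth (eig_const 1)
      (lam_zero.symm.trans_lt (lam_strictMono hn (Nat.pos_of_ne_zero hd))).ne'
    simp only [mul_one] at h
    rw [integral_const_mul, h, mul_zero]
  · simp

theorem Flow.integral_mul (hn : 2 ≤ finrank ℝ E) (F F' : Flow E) (τ τ' : ℝ) :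
    ∫ x, F.U (τ, x) * F'.U (τ', x) ∂(sph E) = ∑ d ∈ Finset.range (min F.D F'.D + 1),
      Real.exp (-(lam E d * (τ + τ') / 2)) * ∫ x, F.p d x * F'.p d x ∂(sph E) := by
  have := nontriv hn
  have hi : ∀ d d', Integrable (fun x => (Real.exp (-(lam E d * τ / 2)) * F.p d x) *
      (Real.exp (-(lam E d' * τ' / 2)) * F'.p d' x)) (sph E) := fun d d' =>
    integ ((continuous_const.mul (F.eig d).cont).mul (continuous_const.mul (F'.eig d').cont))
  simp only [Flow.U, Finset.sum_mul_sum]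
  rw [integral_finsetSum _ fun d _ => integrable_finsetSum _ fun d' _ => hi d d']
  have h1 : ∀ d, ∫ x, ∑ d' ∈ Finset.range (F'.D + 1), (Real.exp (-(lam E d * τ / 2)) * F.p d x) *
      (Real.exp (-(lam E d' * τ' / 2)) * F'.p d' x) ∂(sph E) =
      if d ∈ Finset.range (F'.D + 1) then
        Real.exp (-(lam E d * (τ + τ') / 2)) * ∫ x, F.p d x * F'.p d x ∂(sph E) else 0 := by
    intro d
    rw [integral_finsetSum _ fun d' _ => hi d d', ← Finset.sum_ite_eq (Finset.range (F'.D + 1)) d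
      fun _ => Real.exp (-(lam E d * (τ + τ') / 2)) * ∫ x, F.p d x * F'.p d x ∂(sph E)]
    refine Finset.sum_congr rfl fun d' _ => ?_
    simp only [mul_mul_mul_comm (Real.exp _) (F.p d _), integral_const_mul]
    split_ifs with h
    · subst h
      rw [← Real.exp_add]
      congr 2
      ring
    · rw [(F.eig d).orth (F'.eig d') fun e => h ((lam_strictMono hn).injective e), mul_zero]
  simp only [h1]
  rw [← Finset.sum_filter]
  refine Finset.sum_congr ?_ fun _ _ => rfl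
  ext d
  simp only [Finset.mem_filter, Finset.mem_range]
  omega

theorem Flow.near_mean (hn : 2 ≤ finrank ℝ E) (F : Flow E) {ε : ℝ} (hε : 0 < ε) :
    ∃ T, 0 ≤ T ∧ ∀ τ, T ≤ τ → ∀ x, ‖x‖ = 1 → |F.U (τ, x) - ∫ y, F.U (0, y) ∂(sph E)| ≤ ε := by
  choose C hC using fun d => (isCompact_unit (E := E)).exists_bound_of_continuousOn
    (F.eig d).cont.continuousOn
  have ht : Tendsto (fun τ : ℝ => ∑ d ∈ Finset.range F.D,
      Real.exp (-(lam E (d + 1) * τ / 2)) * C (d + 1)) atTop (𝓝 (∑ d ∈ Finset.range F.D, 0)) := by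
    refine tendsto_finsetSum _ fun d _ => ?_
    have h0 : 0 < lam E (d + 1) := lam_zero.symm.trans_lt (lam_strictMono hn d.succ_pos)
    have h1 : Tendsto (fun τ : ℝ => lam E (d + 1) * τ / 2) atTop atTop :=
      (tendsto_id.const_mul_atTop h0).atTop_div_const two_pos
    simpa using (Real.tendsto_exp_neg_atTop_nhds_zero.comp h1).mul_const (C (d + 1))
  rw [Finset.sum_const_zero] at ht
  obtain ⟨T, hT⟩ := eventually_atTop.1 (ht.eventually (gt_mem_nhds hε))
  refine ⟨max T 0, le_max_right _ _, fun τ hτ x hx => ?_⟩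
  rw [F.integral_U hn 0 x, Flow.U, Finset.sum_range_succ', lam_zero]
  simp only [zero_mul, zero_div, neg_zero, Real.exp_zero, one_mul, add_sub_cancel_right]
  refine ((Finset.abs_sum_le_sum_abs _ _).trans (Finset.sum_le_sum fun d _ => ?_)).trans
    (hT τ ((le_max_left _ _).trans hτ)).le
  rw [abs_mul, abs_of_pos (Real.exp_pos _)]
  exact mul_le_mul_of_nonneg_left (hC _ x hx) (Real.exp_pos _).le

theorem Flow.l2_le (hn : 2 ≤ finrank ℝ E) (F : Flow E)
    (h01 : ∀ x, ‖x‖ = 1 → 0 ≤ F.U (0, x) ∧ F.U (0, x) ≤ 1) {τ : ℝ} (hτ : 0 ≤ τ) :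
    ∫ x, (F.U (0, x) - F.U (τ, x)) ^ 2 ∂(sph E) ≤
      ∫ x, F.U (τ, x) * (1 - F.U (τ, x)) ∂(sph E) := by
  have := nontriv hn
  have hi : ∀ s t, Integrable (fun x => F.U (s, x) * F.U (t, x)) (sph E) := fun s t =>
    integ ((F.cont s).mul (F.cont t))
  have e1 : ∫ x, (F.U (0, x) - F.U (τ, x)) ^ 2 ∂(sph E) =
      (∫ x, F.U (0, x) * F.U (0, x) ∂(sph E) - 2 * ∫ x, F.U (0, x) * F.U (τ, x) ∂(sph E)) +
        ∫ x, F.U (τ, x) * F.U (τ, x) ∂(sph E) := by
    have hi2 : Integrable (fun x => F.U (0, x) * F.U (0, x) - 2 * (F.U (0, x) * F.U (τ, x)))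
        (sph E) := (hi _ _).sub ((hi _ _).const_mul _)
    rw [← integral_const_mul, ← integral_sub (hi _ _) ((hi _ _).const_mul _),
      ← integral_add hi2 (hi _ _)]
    congr 1
    funext x
    ring
  have e2 : ∫ x, F.U (τ, x) * (1 - F.U (τ, x)) ∂(sph E) =
      ∫ x, F.U (0, x) ∂(sph E) - ∫ x, F.U (τ, x) * F.U (τ, x) ∂(sph E) := by
    rw [← F.isHeat.integral_eq τ, ← integral_sub (integ (F.cont τ)) (hi _ _)]
    congr 1
    funext x
    ring
  have e3 : ∫ x, F.U (0, x) * F.U (0, x) ∂(sph E) ≤ ∫ x, F.U (0, x) ∂(sph E) := by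
    refine integral_mono_ae (hi _ _) (integ (F.cont 0)) ?_
    filter_upwards [ae_norm (E := E)] with x hx
    nlinarith [h01 x hx]
  have e4 : ∫ x, F.U (τ, x) * F.U (τ, x) ∂(sph E) ≤ ∫ x, F.U (0, x) * F.U (τ, x) ∂(sph E) := by
    rw [Flow.integral_mul hn, Flow.integral_mul hn]
    refine Finset.sum_le_sum fun d _ => mul_le_mul_of_nonneg_right (Real.exp_le_exp.2 ?_)
      (integral_nonneg fun x => mul_self_nonneg _)
    nlinarith [mul_nonneg (lam_nonneg hn d) hτ]
  linarith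

end Pool.Agent.BL
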