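import Pool.Agent.P.MP_edb112_gt.GoodB

/-! The mean value argument. -/

set_option autoImplicit false
set_option linter.unusedSectionVars false

open MeasureTheory Set Module Filter Real
open scoped RealInnerProductSpace Topology

noncomputable section

namespace Pool.Agent.BL

variable {E : Type} [NormedAddCommGroup E] [InnerProductSpace ℝ E] [FiniteDimensional ℝ E]
  [CompleteSpace E] [MeasurableSpace E] [BorelSpace E] {t : ℕ}

theorem sum_fin_const (c : ℝ) : ∑ _a : Fin t, c = t * c := by simp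

theorem ev_lin {V : Type} [NormedAddCommGroup V] [NormedSpace ℝ V] [Rep E V] {z : V} {τ : ℝ}
    {f₁ f₂ f₃ f₄ f₅ : ℝ × V → ℝ} (a b c d : ℝ) (h₁ : ∀ g : G E, ContinuousAt f₁ (τ, ga g z))
    (h₂ : ∀ g : G E, ContinuousAt f₂ (τ, ga g z)) (h₃ : ∀ g : G E, ContinuousAt f₃ (τ, ga g z))
    (h₄ : ∀ g : G E, ContinuousAt f₄ (τ, ga g z)) (h₅ : ∀ g : G E, ContinuousAt f₅ (τ, ga g z)) :
    ev E z (fun q => f₁ q + a * f₂ q + b * f₃ q + c * f₄ q + d * f₅ q) τ =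
      ev E z f₁ τ + a * ev E z f₂ τ + b * ev E z f₃ τ + c * ev E z f₄ τ + d * ev E z f₅ τ := by
  have i₁ := integrable_orbit h₁
  have i₂ := (integrable_orbit h₂).const_mul a
  have i₃ := (integrable_orbit h₃).const_mul b
  have i₄ := (integrable_orbit h₄).const_mul c
  have i₅ := (integrable_orbit h₅).const_mul d
  simp only [ev]
  rw [integral_add (((i₁.fun_add i₂).fun_add i₃).fun_add i₄) i₅,
    integral_add ((i₁.fun_add i₂).fun_add i₃) i₄, integral_add (i₁.fun_add i₂) i₃,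
    integral_add i₁ i₂]
  simp only [integral_const_mul]

theorem sup_exp {V : Type} [NormedAddCommGroup V] [NormedSpace ℝ V] [Rep E V] (k : ℝ)
    (p : ℝ × V) : Sup E (fun q : ℝ × V => exp (-k * q.1)) p (-k * exp (-k * p.1)) :=
  HJet.sup ((hjet_time p).const_mul (-k)).exp (le_of_eq (by simp [mul_comm]))

theorem IsHeat.cont_pt {J : ℝ × E → ℝ} (h : IsHeat J) (a : Fin t) (p : ℝ × (Fin t → E)) :
    ContinuousAt (fun q : ℝ × (Fin t → E) => J (q.1, q.2 a)) p :=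
  (h.sm.continuous.comp (by fun_prop)).continuousAt

/-- the logarithmic potential -/
def XX (U : Fin t → ℝ × E → ℝ) (c : ℝ) (q : ℝ × (Fin t → E)) : ℝ := ∑ a, log (uu U a q ^ 2 + c)

/-- the potential of the pair terms -/
def PP (U : Fin t → ℝ × E → ℝ) (Θ : Fin t → Fin t → ℝ × E → ℝ) (c : ℝ) (q : ℝ × (Fin t → E)) : ℝ :=
  ∑ a, ∑ b ∈ Finset.univ.erase a, Θ a b (q.1, q.2 a) ^ 2 * (2 - c * log (uu U a q ^ 2 + 1))⁻¹

namespace HD

variable {U : Fin t → ℝ × E → ℝ} {M τ : ℝ} {x : Fin t → E}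

theorem norm_wv_gg (hx : ∀ a, ‖x a‖ = 1) (a : Fin t) :
    ‖wv (x a) (gg U (τ, x) a)‖ = ‖gg U (τ, x) a‖ := norm_wv (hx a) (perp hx a)

theorem supX (h : HD U M) (hτ : 0 ≤ τ) (hx : ∀ a, ‖x a‖ = 1) :
    Sup E (fun q => -XX U 1 q) (τ, x) (En (gg U (τ, x))) := by
  have := Sup.sum Finset.univ fun a _ => sup_neg_ll (h.jet' hτ hx a)
  simp only [Finset.sum_neg_distrib, norm_wv_gg hx] at this
  exact this

theorem contX (h : HD U M) (hτ : 0 ≤ τ) (hx : ∀ a, ‖x a‖ = 1) : ContinuousAt (XX U 1) (τ, x) :=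
  (Sup.sum Finset.univ fun a _ => sup_ll (h.jet' hτ hx a)).sm.continuousAt

theorem supR (h : HD U M) (hτ : 0 ≤ τ) (hx : ∀ a, ‖x a‖ = 1) {R : ℝ} (hR : 2 ≤ R) :
    Sup E (XX U (R ^ 2)) (τ, x)
      (-∑ a, (if R < |uu U a (τ, x)| then 1 / 4 else 0) * ‖gg U (τ, x) a‖ ^ 2) := by
  have := Sup.sum Finset.univ fun a _ => sup_lR (h.jet' hτ hx a) hR
  simp only [Finset.sum_neg_distrib, norm_wv_gg hx] at this
  exact this

theorem log_le (h : HD U M) (hτ : 0 ≤ τ) (hx : ∀ a, ‖x a‖ = 1) (a : Fin t) {c : ℝ} (hc : 0 < c) :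
    log (uu U a (τ, x) ^ 2 + c) ≤ log (M ^ 2 + c) := by
  refine log_le_log (by positivity) (add_le_add_left ?_ _)
  rw [← sq_abs]
  exact pow_le_pow_left₀ (abs_nonneg _) (h.abs_le hτ hx a) 2

theorem supP (h : HD U M) (hτ : 0 ≤ τ) (hx : ∀ a, ‖x a‖ = 1) {Θ : Fin t → Fin t → ℝ × E → ℝ}
    (hΘ : ∀ a b, IsHeat (Θ a b)) {c : ℝ} (hc : 0 ≤ c) (hM : c * log (M ^ 2 + 1) ≤ 1) :
    Sup E (PP U Θ c) (τ, x) (∑ a, ∑ b ∈ Finset.univ.erase a,
      -(c / 8 * Θ a b (τ, x a) ^ 2 * ‖gg U (τ, x) a‖ ^ 2)) := by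
  have := Sup.sum Finset.univ fun a _ => Sup.sum (Finset.univ.erase a) fun b _ =>
    sup_theta (h.jet' hτ hx a) (HJet.pt a ((hΘ a b).jet τ (hx a))) hc
      ((mul_le_mul_of_nonneg_left (h.log_le hτ hx a one_pos) hc).trans hM)
  simp only [norm_wv_gg hx] at this
  exact this

theorem PP_bounds (h : HD U M) (hτ : 0 ≤ τ) (hx : ∀ a, ‖x a‖ = 1) (Θ : Fin t → Fin t → ℝ × E → ℝ)
    {c : ℝ} (hc : 0 ≤ c) (hM : c * log (M ^ 2 + 1) ≤ 1) : 0 ≤ PP U Θ c (τ, x) ∧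
      PP U Θ c (τ, x) ≤ ∑ a, ∑ b ∈ Finset.univ.erase a, Θ a b (τ, x a) ^ 2 := by
  have h1 : ∀ a, 1 ≤ 2 - c * log (uu U a (τ, x) ^ 2 + 1) := fun a => by
    linarith [mul_le_mul_of_nonneg_left (h.log_le hτ hx a one_pos) hc]
  refine ⟨Finset.sum_nonneg fun a _ => Finset.sum_nonneg fun b _ =>
    mul_nonneg (sq_nonneg _) (inv_nonneg.2 (zero_le_one.trans (h1 a))),
    Finset.sum_le_sum fun a _ => Finset.sum_le_sum fun b _ => ?_⟩
  exact mul_le_of_le_one_right (sq_nonneg _) (inv_le_one_of_one_le₀ (h1 a))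

open Classical in
theorem core (h : HD U M) (hn : 2 ≤ finrank ℝ E) (ht : 2 ≤ t) {z : Fin t → E} {ε : ℝ}
    (hε : 0 ≤ ε) (hz : Near t ε z) {R K η A k b xs e₀ : ℝ} (hR : 2 ≤ R) (hK : 0 ≤ K) (hη : 0 < η)
    (hA : 0 ≤ A) (hk : 0 ≤ k) (hM : log (M ^ 2 + 1) ≤ 2 * log (R ^ 2 + 1))
    {Y : ℝ × (Fin t → E) → ℝ}
    (hY : ∀ τ, 0 ≤ τ → ∀ x, Near t ε x → Sup E Y (τ, x) (K * Er ε x (gg U (τ, x)) -
      if ∀ a, |uu U a (τ, x)| ≤ R then Dd (gg U (τ, x)) else 0))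
    (hY0 : ∀ g : G E, Y (0, ga g z) ≤ 0) {s T : ℝ} (hs : 0 ≤ s) (hsT : s < T)
    (hYT : ∀ g : G E, -b ≤ Y (T, ga g z))
    {J : Fin t → ℝ × E → ℝ} (hJ : ∀ c, IsHeat (J c))
    (hJ0 : ∀ c x, ‖x‖ = 1 → (2 * log (R ^ 2 + 1))⁻¹ * log (Ps (U c (s, x)) ^ 2 + 1) ≤ J c (s, x))
    {Θ : Fin t → Fin t → ℝ × E → ℝ} (hΘ : ∀ a c, IsHeat (Θ a c))
    (hΘJ : ∀ a c, c ≠ a → ∀ τ, ∀ f : E → ℝ, ContinuousOn f {w : E | ‖w‖ = 1} →
      ∫ g, f (ap g (z a)) * J c (τ, ap g (z c)) ∂(haar E) = ∫ w, f w * Θ a c (τ, w) ∂(sph E))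
    (hΘ2 : ∑ a, ∑ c ∈ Finset.univ.erase a, ∫ w, Θ a c (s, w) ^ 2 ∂(sph E) ≤ e₀)
    (hXs : ev E z (XX U 1) T + xs ≤ ev E z (XX U 1) s)
    (hbig : K * (ε * t + t / kk E) * (t * M ^ 2) + b +
      8 * t ^ 2 * (log (M ^ 2 + R ^ 2) - log (R ^ 2)) + 64 * t ^ 3 * log (R ^ 2 + 1) / η * e₀ +
      η * A ≤ η * xs) :
    ∃ τ ∈ Ioo s T, ev E z (fun q => Dd (gg U q)) τ + η * A * (k * exp (-k * τ)) ≤
      2 * η * ev E z (fun q => En (gg U q)) τ := by
  have ht' : (2 : ℝ) ≤ t := by exact_mod_cast ht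
  have hkk := kk_pos hn
  have hLg : 0 < log (R ^ 2 + 1) := log_pos (by nlinarith)
  obtain ⟨c, hc⟩ : ∃ c, c = K * (ε * t + t / kk E) := ⟨_, rfl⟩
  have hc0 : 0 ≤ c := by rw [hc]; positivity
  obtain ⟨β, hβ⟩ : ∃ β, β = 64 * t ^ 3 * log (R ^ 2 + 1) / η := ⟨_, rfl⟩
  have hβ0 : 0 ≤ β := by rw [hβ]; positivity
  have hl0 : 0 ≤ (2 * log (R ^ 2 + 1))⁻¹ := by positivity
  have hl1 : (2 * log (R ^ 2 + 1))⁻¹ * log (M ^ 2 + 1) ≤ 1 := by
    rw [inv_mul_le_iff₀ (by positivity)]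
    linarith
  have hx : ∀ (g : G E) a, ‖ga g z a‖ = 1 := fun g => (hz.ga g).1
  have S1 := fun τ (hτ : 0 ≤ τ) (g : G E) =>
    (hY τ hτ _ (hz.ga g)).add ((h.supQ hτ (hx g)).const_mul hc0)
  have S2 := fun τ (hτ : 0 ≤ τ) (g : G E) => h.supR hτ (hx g) hR
  have S3 := fun τ (hτ : 0 ≤ τ) (g : G E) => h.supP hτ (hx g) hΘ hl0 hl1
  have S4 := fun τ (hτ : 0 ≤ τ) (g : G E) => h.supX hτ (hx g)
  have S5 := fun τ (g : G E) => sup_exp (E := E) k (τ, ga g z)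
  have S := fun τ (hτ : 0 ≤ τ) (g : G E) => ((((S1 τ hτ g).add ((S2 τ hτ g).const_mul
    (show (0 : ℝ) ≤ 8 * t by positivity))).add ((S3 τ hτ g).const_mul hβ0)).add
    ((S4 τ hτ g).const_mul hη.le)).add ((S5 τ g).const_mul (mul_nonneg hη.le hA))
  have L := fun τ (hτ : 0 ≤ τ) => ev_lin (8 * t) β η (η * A)
    (fun g => (S1 τ hτ g).sm.continuousAt) (fun g => (S2 τ hτ g).sm.continuousAt)
    (fun g => (S3 τ hτ g).sm.continuousAt) (fun g => (S4 τ hτ g).sm.continuousAt)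
    (fun g => (S5 τ g).sm.continuousAt)
  have hT : 0 ≤ T := hs.trans hsT.le
  obtain ⟨τ, hτ, hm⟩ := ev_mvt hsT fun r hr g => (S r (hs.trans hr.1) g).sm
  have hτ0 : 0 ≤ τ := hs.trans hτ.1.le
  refine ⟨τ, hτ, ?_⟩
  -- values at the end points
  have v1 := h.ev_le_of_sup hn hz.1 hK hε (Y := Y) (fun r hr g => (hY r hr _ (hz.ga g)).mono (by
    have := Dd_nonneg (gg U (r, ga g z))
    split_ifs <;> linarith)) hY0 hs
  rw [← hc] at v1 hbig
  rw [← hβ] at hbig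
  have v2 : ev E z (XX U (R ^ 2)) s ≤ t * log (M ^ 2 + R ^ 2) :=
    ev_le_const (fun g => (S2 s hs g).sm.continuousAt) fun g =>
      (Finset.sum_le_sum fun a _ => h.log_le hs (hx g) a (c := R ^ 2) (by positivity)).trans_eq
        (sum_fin_const _)
  have v3 : ev E z (PP U Θ (2 * log (R ^ 2 + 1))⁻¹) s ≤ e₀ := by
    have c1 : ∀ a b (g : G E), ContinuousAt (fun q : ℝ × (Fin t → E) => Θ a b (q.1, q.2 a) ^ 2)
      (s, ga g z) := fun a b g => ((hΘ a b).cont_pt a _).pow 2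
    refine le_trans ((ev_mono (f' := fun q : ℝ × (Fin t → E) =>
      ∑ a, ∑ b ∈ Finset.univ.erase a, Θ a b (q.1, q.2 a) ^ 2)
      (fun g => (S3 s hs g).sm.continuousAt)
      (fun g => tendsto_finsetSum _ fun a _ => tendsto_finsetSum _ fun b _ => c1 a b g)
      fun g => (h.PP_bounds hs (hx g) Θ hl0 hl1).2).trans_eq ?_) hΘ2
    rw [ev_sum _ fun a _ g => tendsto_finsetSum _ fun b _ => c1 a b g]
    refine Finset.sum_congr rfl fun a _ => ?_
    rw [ev_sum _ fun b _ g => c1 a b g]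
    exact Finset.sum_congr rfl fun b _ => ev_unit (hz.1 a) (f := fun q => Θ a b q ^ 2)
      fun y _ => ((hΘ a b).c2 _).continuousAt.pow 2
  have v4 : ∀ r, ev E z (fun q => -XX U 1 q) r = -ev E z (XX U 1) r := fun r => integral_neg _
  have v5 : ∀ r, ev E z (fun q => exp (-k * q.1)) r = exp (-k * r) := fun r => by simp [ev]
  have v6 : exp (-k * s) ≤ 1 := exp_le_one_iff.2 (by nlinarith)
  have w1 : -b ≤ ev E z (fun q => Y q + c * ∑ a, uu U a q ^ 2) T :=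
    const_le_ev (fun g => (S1 T hT g).sm.continuousAt) fun g =>
      (hYT g).trans (le_add_of_nonneg_right (by positivity))
  have w2 : t * log (R ^ 2) ≤ ev E z (XX U (R ^ 2)) T :=
    const_le_ev (fun g => (S2 T hT g).sm.continuousAt) fun g =>
      (sum_fin_const _).symm.trans_le (Finset.sum_le_sum fun a _ => log_le_log
        (by positivity) (le_add_of_nonneg_left (sq_nonneg (uu U a (T, ga g z)))))
  have w3 : 0 ≤ ev E z (PP U Θ (2 * log (R ^ 2 + 1))⁻¹) T :=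
    const_le_ev (fun g => (S3 T hT g).sm.continuousAt) fun g =>
      (h.PP_bounds hT (hx g) Θ hl0 hl1).1
  rw [L T hT, L s hs, v4, v4, v5, v5] at hm
  have hpos := nonneg_of_mul_nonneg_left (le_of_le_of_eq (by
    linarith [mul_le_mul_of_nonneg_left v2 (show (0 : ℝ) ≤ 8 * t by positivity),
      mul_le_mul_of_nonneg_left w2 (show (0 : ℝ) ≤ 8 * t by positivity),
      mul_le_mul_of_nonneg_left v3 hβ0, mul_nonneg hβ0 w3, mul_le_mul_of_nonneg_left hXs hη.le,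
      mul_le_mul_of_nonneg_left v6 (mul_nonneg hη.le hA),
      mul_nonneg (mul_nonneg hη.le hA) (exp_pos (-k * T)).le]) hm.symm) (sub_pos.2 hsT)
  -- the bound for the heat image
  have c5 : ∀ a b (g : G E), ContinuousAt (fun q : ℝ × (Fin t → E) =>
      ‖gg U q a‖ ^ 2 * J b (q.1, q.2 b)) (τ, ga g z) :=
    fun a b g => ((h.cont_gg hτ0 (hx g) a).norm.pow 2).mul ((hJ b).cont_pt b _)
  have c6 : ∀ a b (g : G E), ContinuousAt (fun q : ℝ × (Fin t → E) =>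
      ‖gg U q a‖ ^ 2 * Θ a b (q.1, q.2 a)) (τ, ga g z) :=
    fun a b g => ((h.cont_gg hτ0 (hx g) a).norm.pow 2).mul ((hΘ a b).cont_pt a _)
  have c7 : ∀ a (g : G E), ContinuousAt (fun q : ℝ × (Fin t → E) => ∑ b ∈ Finset.univ.erase a,
      (‖gg U q a‖ ^ 2 * J b (q.1, q.2 b) - ‖gg U q a‖ ^ 2 * Θ a b (q.1, q.2 a))) (τ, ga g z) :=
    fun a g => tendsto_finsetSum _ fun b _ => (c5 a b g).sub (c6 a b g)
  have c8 : ∀ g : G E, ContinuousAt (fun q : ℝ × (Fin t → E) => ∑ a, ∑ b ∈ Finset.univ.erase a,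
      (‖gg U q a‖ ^ 2 * J b (q.1, q.2 b) - ‖gg U q a‖ ^ 2 * Θ a b (q.1, q.2 a))) (τ, ga g z) :=
    fun g => tendsto_finsetSum _ fun a _ => c7 a g
  have z8 : ev E z (fun q : ℝ × (Fin t → E) => ∑ a, ∑ b ∈ Finset.univ.erase a,
      (‖gg U q a‖ ^ 2 * J b (q.1, q.2 b) - ‖gg U q a‖ ^ 2 * Θ a b (q.1, q.2 a))) τ = 0 := by
    rw [ev_sum _ fun a _ g => c7 a g]
    refine Finset.sum_eq_zero fun a _ => ?_
    rw [ev_sum (f := fun b q => ‖gg U q a‖ ^ 2 * J b (q.1, q.2 b) -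
      ‖gg U q a‖ ^ 2 * Θ a b (q.1, q.2 a)) _ fun b _ g => (c5 a b g).sub (c6 a b g)]
    refine Finset.sum_eq_zero fun b hb => ?_
    rw [ev_sub (c5 a b) (c6 a b), sub_eq_zero]
    refine (hΘJ a b (Finset.mem_erase.1 hb).1 τ
      (fun w => ‖tg (fun q => Ps (U a q)) (τ, w)‖ ^ 2) fun y hy =>
        (((h.cont_tg a hτ0 hy).comp_of_eq (f := fun y : E => (τ, y)) (by fun_prop)
          rfl).norm.pow 2).continuousWithinAt).trans (ev_unit (hz.1 a)
        (f := fun p => ‖tg (fun q => Ps (U a q)) p‖ ^ 2 * Θ a b p) fun y hy =>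
          ((h.cont_tg a hτ0 hy).norm.pow 2).mul ((hΘ a b).c2 _).continuousAt).symm
  have c1 : ∀ g : G E, ContinuousAt (fun q : ℝ × (Fin t → E) => -(η * A * (k * exp (-k * q.1))))
      (τ, ga g z) := fun g => by fun_prop
  have L' := ev_lin (-1) K (2 * η - c) (4 * t) c1 (fun g => h.cont_Dd hτ0 (hx g))
    (fun g => h.cont_Er hτ0 (hx g) ε) (fun g => h.cont_En hτ0 (hx g)) c8
  have hle := ev_heat_le (b := fun q : ℝ × (Fin t → E) => -(η * A * (k * exp (-k * q.1))) +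
      -1 * Dd (gg U q) + K * Er ε q.2 (gg U q) + (2 * η - c) * En (gg U q) +
      4 * t * ∑ a, ∑ b ∈ Finset.univ.erase a,
        (‖gg U q a‖ ^ 2 * J b (q.1, q.2 b) - ‖gg U q a‖ ^ 2 * Θ a b (q.1, q.2 a)))
    (fun g => (S τ hτ0 g).mono ?_) fun g => ((((c1 g).add
      (continuousAt_const.mul (h.cont_Dd hτ0 (hx g)))).add
      (continuousAt_const.mul (h.cont_Er hτ0 (hx g) ε))).add
      (continuousAt_const.mul (h.cont_En hτ0 (hx g)))).add (continuousAt_const.mul (c8 g))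
  · have v7 : ev E z (fun q => -(η * A * (k * exp (-k * q.1)))) τ =
        -(η * A * (k * exp (-k * τ))) := by simp [ev]
    rw [L', z8, v7] at hle
    have := mul_le_mul_of_nonneg_left (h.ev_Er hn hτ0 hz.1 ε) hK
    rw [← mul_assoc, ← hc] at this
    linarith
  · have hj := fun c => h.ll_le c (hJ c) hl0 hs (hJ0 c) hτ.1.le (hx g c)
    have h1 := Dd_split (R := R) (gg U (τ, ga g z)) (fun a => uu U a (τ, ga g z))
      (fun c => J c (τ, ga g z c))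
      (fun c => le_trans (mul_nonneg hl0 (log_nonneg (le_add_of_nonneg_left (sq_nonneg _)))) (hj c))
      fun c hc => le_trans (by
        rw [le_inv_mul_iff₀ (by positivity), mul_assoc, mul_comm _ (1 / 2 : ℝ), ← mul_assoc,
          mul_one_div_cancel two_ne_zero, one_mul]
        refine log_le_log (by positivity) (add_le_add_left ?_ _)
        rw [← sq_abs (Ps _)]
        exact pow_le_pow_left₀ (by linarith) hc.le 2) (hj c)
    have h2 : β * ∑ a, ∑ b ∈ Finset.univ.erase a, -((2 * log (R ^ 2 + 1))⁻¹ / 8 *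
        Θ a b (τ, ga g z a) ^ 2 * ‖gg U (τ, ga g z) a‖ ^ 2) ≤ η * En (gg U (τ, ga g z)) -
        4 * t * ∑ a, ∑ b ∈ Finset.univ.erase a, ‖gg U (τ, ga g z) a‖ ^ 2 * Θ a b (τ, ga g z a) := by
      rw [En, Finset.mul_sum, Finset.mul_sum, Finset.mul_sum, ← Finset.sum_sub_distrib]
      refine Finset.sum_le_sum fun a _ => ?_
      have h3 : ∑ _b ∈ Finset.univ.erase a, η / t * ‖gg U (τ, ga g z) a‖ ^ 2 ≤
          η * ‖gg U (τ, ga g z) a‖ ^ 2 := by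
        rw [Finset.sum_const, nsmul_eq_mul, ← mul_assoc]
        refine mul_le_mul_of_nonneg_right ?_ (sq_nonneg _)
        have h4 : ((Finset.univ.erase a).card : ℝ) ≤ t := by
          exact_mod_cast (Finset.card_erase_le).trans_eq (Finset.card_fin t)
        rw [mul_div_assoc', div_le_iff₀ (by linarith)]
        nlinarith
      refine le_trans ?_ (sub_le_sub_right h3 _)
      rw [Finset.mul_sum, Finset.mul_sum, ← Finset.sum_sub_distrib]
      refine Finset.sum_le_sum fun b _ => ?_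
      rw [← sub_nonneg]
      have : η / t * ‖gg U (τ, ga g z) a‖ ^ 2 -
          4 * t * (‖gg U (τ, ga g z) a‖ ^ 2 * Θ a b (τ, ga g z a)) -
          β * -((2 * log (R ^ 2 + 1))⁻¹ / 8 * Θ a b (τ, ga g z a) ^ 2 * ‖gg U (τ, ga g z) a‖ ^ 2) =
          4 * t ^ 3 / η * (Θ a b (τ, ga g z a) - η / (2 * t ^ 2)) ^ 2 *
            ‖gg U (τ, ga g z) a‖ ^ 2 := by
        rw [hβ]
        field_simp
        ring
      rw [this]
      positivity
    simp only [Finset.sum_sub_distrib]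
    linarith

end HD

end Pool.Agent.BL
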