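import Pool.Agent.P.MP_edb112_gt.Tg

/-! The gradient bound. -/

set_option autoImplicit false
set_option linter.unusedSectionVars false

open MeasureTheory Set Module Filter
open scoped RealInnerProductSpace Topology

noncomputable section

namespace Pool.Agent.BL

namespace GradAux

section Lift

variable {W W' : Type} [NormedAddCommGroup W] [NormedSpace ℝ W] [NormedAddCommGroup W']
  [NormedSpace ℝ W']

theorem fderiv_lift (π ρ : W' →L[ℝ] W) {f : W → ℝ} {r : W'} (hf : ContDiffAt ℝ 2 f (π r))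
    (a : W') : fderiv ℝ (fun r' => fderiv ℝ f (π r') (ρ r')) r a =
      hess f (π r) (π a) (ρ r) + fderiv ℝ f (π r) (ρ a) := by
  have h := (((diff_fderiv hf).hasFDerivAt.comp r π.hasFDerivAt).clm_apply ρ.hasFDerivAt).fderiv
  change fderiv ℝ (fun r' => fderiv ℝ f (π r') (ρ r')) r = _ at h
  rw [h]
  simp [hess, add_comm]

theorem contDiff_lift (π ρ : W' →L[ℝ] W) {f : W → ℝ} (hf : ContDiff ℝ 3 f) :
    ContDiff ℝ 2 fun r' => fderiv ℝ f (π r') (ρ r') :=
  ((hf.fderiv_right (m := 2) (by norm_num)).comp π.contDiff).clm_apply ρ.contDiff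

theorem contDiff_dir {f : W → ℝ} (hf : ContDiff ℝ 3 f) (w : W) :
    ContDiff ℝ 2 fun p => fderiv ℝ f p w :=
  (hf.fderiv_right (m := 2) (by norm_num)).clm_apply contDiff_const

theorem hess_lift (π ρ : W' →L[ℝ] W) {f : W → ℝ} (hf : ContDiff ℝ 3 f) (r a : W') :
    hess (fun r' => fderiv ℝ f (π r') (ρ r')) r a a =
      hess (fun p => fderiv ℝ f p (π a)) (π r) (π a) (ρ r) + 2 * hess f (π r) (π a) (ρ a) := by
  have h2 : ∀ p, ContDiffAt ℝ 2 f p := fun p => hf.contDiffAt.of_le (by norm_num)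
  have e : (fun r' => fderiv ℝ (fun r' => fderiv ℝ f (π r') (ρ r')) r' a) = fun r' =>
      fderiv ℝ (fun p => fderiv ℝ f p (π a)) (π r') (ρ r') + fderiv ℝ f (π r') (ρ a) := by
    funext r'
    rw [fderiv_lift π ρ (h2 _), hess_symm (h2 _), hess_eq (h2 _)]
  have d1 : DifferentiableAt ℝ
      (fun r' => fderiv ℝ (fun p => fderiv ℝ f p (π a)) (π r') (ρ r')) r :=
    ((diff_fderiv (contDiff_dir hf _).contDiffAt).comp r π.differentiableAt).clm_apply
      ρ.differentiableAt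
  have d2 : DifferentiableAt ℝ (fun r' => fderiv ℝ f (π r') (ρ a)) r :=
    (diff_fderiv_apply (h2 _) _).comp r π.differentiableAt
  rw [hess_eq (contDiff_lift π ρ hf).contDiffAt, e, fderiv_fun_add d1 d2, add_apply,
    fderiv_lift π ρ (contDiff_dir hf _).contDiffAt,
    fderiv_comp_clm π (f := fun p => fderiv ℝ f p (ρ a)) (diff_fderiv_apply (h2 _) _),
    ← hess_eq (h2 _), ← hess_eq (h2 _), hess_symm (h2 _) (ρ a)]
  ring

theorem hess_field {f : W → ℝ} (hf : ContDiff ℝ 3 f) (X : W →L[ℝ] W) (p : W) :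
    DifferentiableAt ℝ (fun p' => hess f p' (X p') (X p')) p ∧ ∀ w,
      fderiv ℝ (fun p' => hess f p' (X p') (X p')) p w =
        hess (fun p' => fderiv ℝ f p' (X p)) p (X p) w + 2 * hess f p (X p) (X w) := by
  have h2 : ∀ p, ContDiffAt ℝ 2 f p := fun p => hf.contDiffAt.of_le (by norm_num)
  have d : DifferentiableAt ℝ (hess f) p :=
    ((hf.fderiv_right (m := 2) (by norm_num)).fderiv_right (m := 1)
      (by norm_num)).differentiable (by simp) p
  have h := (d.hasFDerivAt.clm_apply X.hasFDerivAt).clm_apply X.hasFDerivAt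
  refine ⟨h.differentiableAt, fun w => ?_⟩
  have h' := ((d.hasFDerivAt.clm_apply (hasFDerivAt_const (X p) p)).clm_apply
    (hasFDerivAt_const (X p) p)).fderiv
  have e : (fun p' => fderiv ℝ (fun q => fderiv ℝ f q (X p)) p' (X p)) =
      fun p' => hess f p' (X p) (X p) := funext fun p' => (hess_eq (h2 _) _ _).symm
  rw [h.fderiv, hess_symm (contDiff_dir hf _).contDiffAt, hess_eq (contDiff_dir hf _).contDiffAt,
    e, h']
  simp [hess_symm (h2 p) (X w)]
  ring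

end Lift

variable {E : Type} [NormedAddCommGroup E] [InnerProductSpace ℝ E] [FiniteDimensional ℝ E]
  [CompleteSpace E] [MeasurableSpace E] [BorelSpace E]

variable (E) in
/-- the base point -/
def p0 : (ℝ × E × E) →L[ℝ] ℝ × E :=
  (ContinuousLinearMap.id ℝ ℝ).prodMap (ContinuousLinearMap.fst ℝ E E)

variable (E) in
/-- the direction -/
def p1 : (ℝ × E × E) →L[ℝ] ℝ × E :=
  (0 : ℝ →L[ℝ] ℝ).prodMap (ContinuousLinearMap.snd ℝ E E)

@[simp] theorem p0_apply (τ : ℝ) (x q : E) : p0 E (τ, x, q) = (τ, x) := rfl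

@[simp] theorem p1_apply (τ : ℝ) (x q : E) : p1 E (τ, x, q) = (0, q) := rfl

/-- the directional derivative as a function of point and direction -/
def dy (U : ℝ × E → ℝ) (r : ℝ × E × E) : ℝ := fderiv ℝ U (p0 E r) (p1 E r)

theorem heat_dy {U : ℝ × E → ℝ} (hU : IsHeat U) (τ : ℝ) {x q : E} (hx : ‖x‖ = 1)
    (hq : ⟪x, q⟫ = 0) : heat E (dy U) (τ, x, q) = 0 := by
  have e : heat E U = fun p => (fderiv ℝ U p (1, 0) +
      fderiv ℝ U p (fld ((kk E / 2) • (1 : E →L[ℝ] E)) p)) - 1 / 2 * ∑ j : Ix E, hess U p (fld (hA j) p) (fld (hA j) p) := by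
    funext p
    rw [← map_add]
    simp [heat, op, hb, hv, fld_apply]
  have d1 := diff_fderiv_apply (hU.c2 (τ, x)) (1, 0)
  have d2 : DifferentiableAt ℝ (fun p => fderiv ℝ U p (fld ((kk E / 2) • (1 : E →L[ℝ] E)) p))
      (τ, x) := (diff_fderiv (hU.c2 _)).clm_apply (ContinuousLinearMap.differentiableAt _)
  have d3 := fun j : Ix E => hess_field hU.sm (fld (hA j)) (τ, x)
  have h := (d1.hasFDerivAt.fun_add d2.hasFDerivAt).fun_sub
    ((HasFDerivAt.fun_sum fun j (_ : j ∈ Finset.univ) => (d3 j).1.hasFDerivAt).const_mul (1 / 2))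
  rw [← e] at h
  have c := (hasDerivAt_const 0 τ).prodMk (hasDerivAt_rot (isSkew_sk x q) x 0)
  have h0 : ga (rot (isSkew_sk x q) 0) x = x := by rw [rot_zero, ga_one]
  have h1 := HasFDerivAt.comp_hasDerivAt (f := fun s => (τ, ga (rot (isSkew_sk x q) s) x)) 0
    (by rw [h0]; exact h) c
  have e2 : heat E U ∘ (fun s => (τ, ga (rot (isSkew_sk x q) s) x)) = fun _ => 0 :=
    funext fun s => hU.eq _ _ (unit_ga _ x hx)
  rw [e2, h0, act_self, sk_apply, real_inner_comm x q, hq, real_inner_self_eq_norm_sq, hx] at h1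
  have h2 := h1.unique (hasDerivAt_const _ _)
  simp only [one_pow, one_smul, zero_smul, sub_zero, sub_apply, add_apply,
    smul_apply, sum_apply, (d3 _).2, fderiv_field (hU.c2 _), ← hess_eq (hU.c2 _)] at h2
  simp only [fld_apply, act_self, smul_apply, one_apply_eq_self, smul_eq_mul] at h2
  unfold dy
  simp only [heat, op, hess_lift _ _ hU.sm, fderiv_lift _ _ (hU.c2 _), hb, hv, act_prod, act_self,
    p0_apply, p1_apply, Prod.smul_mk]
  rw [hess_symm (hU.c2 _), show ((1, (kk E / 2) • x) : ℝ × E) = (1, 0) + (0, (kk E / 2) • x) by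
    simp, map_add]
  linarith

/-- reciprocal of the Gaussian density at the quantile -/
def ps (y : ℝ) : ℝ := (ph (Ps y))⁻¹

theorem ps_pos (y : ℝ) : 0 < ps y := inv_pos.2 (ph_pos _)

theorem contDiffAt_ps {y : ℝ} (h0 : 0 < y) (h1 : y < 1) : ContDiffAt ℝ 2 ps y :=
  (contDiff_ph.contDiffAt.comp y (contDiffAt_Ps 2 h0 h1)).inv (ph_pos _).ne'

theorem hasDerivAt_ps {y : ℝ} (h0 : 0 < y) (h1 : y < 1) : HasDerivAt ps (Ps y * ps y ^ 2) y := by
  have hp := ph_pos (Ps y)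
  refine (((hasDerivAt_ph _).comp _ (hasDerivAt_Ps h0 h1)).inv hp.ne').congr_deriv ?_
  simp only [Function.comp, ps]
  field_simp

theorem hasDerivAt_ps' {y : ℝ} (h0 : 0 < y) (h1 : y < 1) :
    HasDerivAt (fun y => Ps y * ps y ^ 2) ((1 + 2 * Ps y ^ 2) * ps y ^ 3) y := by
  refine ((hasDerivAt_Ps h0 h1).mul ((hasDerivAt_ps h0 h1).pow 2)).congr_deriv ?_
  change ps y * _ + _ = _
  simp only [Pi.pow_apply]
  norm_num
  ring

/-- the directional derivative of the quantile -/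
def YY (U : ℝ × E → ℝ) (r : ℝ × E × E) : ℝ := ps (U (p0 E r)) * dy U r

variable {U : ℝ × E → ℝ} (hU : IsHeat U) {τ : ℝ} {x q : E} (h0 : 0 < U (τ, x))
  (h1 : U (τ, x) < 1)

include hU h0 h1

theorem c2_ps : ContDiffAt ℝ 2 (fun z => ps (U z)) (p0 E (τ, x, q)) :=
  (contDiffAt_ps h0 h1).comp (τ, x) (hU.c2 _)

theorem c2_YY : ContDiffAt ℝ 2 (YY U) (τ, x, q) :=
  ((c2_ps hU h0 h1).comp _ (p0 E).contDiff.contDiffAt).mul (contDiff_lift _ _ hU.sm).contDiffAt

theorem YY_eq (hq : ⟪x, q⟫ = 0) : YY U (τ, x, q) = ⟪tg (fun z => Ps (U z)) (τ, x), q⟫ := by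
  rw [tg_comp ((hU.c2 _).differentiableAt (by simp)) (hasDerivAt_Ps h0 h1), real_inner_smul_left,
    inner_tg_of_perp _ _ hq]
  rfl

theorem heat_YY (hx : ‖x‖ = 1) (hq : ⟪x, q⟫ = 0) (hz : hg E (YY U) (τ, x, q) = 0) :
    heat E (YY U) (τ, x, q) = -(1 / 2) * YY U (τ, x, q) * ‖tg (fun z => Ps (U z)) (τ, x)‖ ^ 2 := by
  have j1 : HJet (fun r => U (p0 E r)) (τ, x, q) (U (τ, x)) 0 (wv x (tg U (τ, x))) :=
    HJet.pull (ContinuousLinearMap.fst ℝ E E) (fun _ _ => rfl) (z := (x, q)) (hU.jet τ hx)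
  have j2 := j1.comp (contDiffAt_ps h0 h1)
    (mem_of_superset (Ioo_mem_nhds h0 h1) fun y hy => hasDerivAt_ps hy.1 hy.2)
    (hasDerivAt_ps' h0 h1)
  have j3 := j2.mul ((HJet.of' (E := E) (f := dy U) (p := (τ, x, q))
    (contDiff_lift _ _ hU.sm).contDiffAt).congr rfl (heat_dy hU τ hx hq) rfl)
  have a1 : heat E (YY U) (τ, x, q) = _ := j3.op
  have a2 := congrArg (fun w => ⟪wv x (tg U (τ, x)), w⟫) (hz.symm.trans j3.gr)
  simp only [inner_zero_right, inner_add_right, real_inner_smul_right,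
    real_inner_self_eq_norm_sq, norm_wv hx (inner_tg_self U τ hx)] at a2
  rw [a1, real_inner_smul_left, norm_wv hx (inner_tg_self U τ hx),
    tg_comp ((hU.c2 _).differentiableAt (by simp)) (hasDerivAt_Ps h0 h1), norm_smul, mul_pow,
    Real.norm_eq_abs, sq_abs]
  change _ = _ * (ps (U (τ, x)) * _) * (ps (U (τ, x)) ^ 2 * _)
  linear_combination Ps (U (τ, x)) * ps (U (τ, x)) * a2

theorem qf_YY (hq : ‖q‖ = 1) (hxq : ⟪x, q⟫ = 0) {r : E} (hx : ⟪x, r⟫ = 0) (hr : ⟪q, r⟫ = 0) :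
    qf (YY U) (τ, x, q) (sk q r) (sk q r) = -(⟪r, r⟫ * YY U (τ, x, q)) := by
  have c1 := c2_ps (q := q) hU h0 h1
  have c2 : ContDiffAt ℝ 2 (fun z => ps (U (p0 E z))) (τ, x, q) :=
    c1.comp _ (p0 E).contDiff.contDiffAt
  have c3 : ContDiffAt ℝ 2 (dy U) (τ, x, q) := (contDiff_lift _ _ hU.sm).contDiffAt
  have e1 : sk q r x = 0 := by
    rw [sk_apply, real_inner_comm x q, real_inner_comm x r, hxq, hx]; simp
  have e2 : sk q r q = r := by
    rw [sk_apply, real_inner_comm q r, hr, real_inner_self_eq_norm_sq, hq]; simp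
  have e3 : sk q r r = (-⟪r, r⟫) • q := by rw [sk_apply, hr]; simp
  have z : ((0, 0) : ℝ × E) = 0 := rfl
  have f1 : ∀ w : E, fderiv ℝ (fun z => ps (U (p0 E z))) (τ, x, q) (0, 0, w) = 0 := fun w => by
    rw [fderiv_comp_clm (p0 E) (f := fun z => ps (U z)) (c1.differentiableAt (by simp)), p0_apply,
      p0_apply, z, map_zero]
  rw [qf_apply]
  simp only [act_prod, act_self, e1, e2, e3, map_zero]
  unfold YY
  rw [hess_mul c2 c3, f1, hess_comp_clm (p0 E) (f := fun z => ps (U z)) c1,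
    fderiv_fun_mul (c2.differentiableAt (by simp)) (c3.differentiableAt (by simp)), add_apply,
    smul_apply, smul_apply, f1]
  unfold dy
  rw [hess_lift _ _ hU.sm, fderiv_lift _ _ (hU.c2 _) (0, 0, (-⟪r, r⟫) • q)]
  have e4 : ((0, (-⟪r, r⟫) • q) : ℝ × E) = (-⟪r, r⟫) • (0, q) := by simp
  simp only [p0_apply, p1_apply, z, map_zero, e4, map_smul, smul_eq_mul, zero_apply]
  ring

omit hU h0 h1 in
theorem sum_planes (hx : ‖x‖ = 1) (hq : ‖q‖ = 1) (hxq : ⟪x, q⟫ = 0)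
    (B : (E →L[ℝ] E) →ₗ[ℝ] (E →L[ℝ] E) →ₗ[ℝ] ℝ) (hB : ∀ a b, B (sk a b) (sk a b) ≤ 0) {Y : ℝ}
    (hY : ∀ r, ⟪x, r⟫ = 0 → ⟪q, r⟫ = 0 → B (sk q r) (sk q r) = -(⟪r, r⟫ * Y)) :
    ∑ j, B (hA j) (hA j) ≤ -((kk E - 1) * Y) := by
  let P : E → E := fun v => v - ⟪x, v⟫ • x - ⟪q, v⟫ • q
  have hxx : ⟪x, x⟫ = 1 := by rw [real_inner_self_eq_norm_sq, hx, one_pow]
  have hqq : ⟪q, q⟫ = 1 := by rw [real_inner_self_eq_norm_sq, hq, one_pow]
  have hqx : ⟪q, x⟫ = 0 := by rw [real_inner_comm, hxq]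
  have a1 : ∀ v, ⟪x, P v⟫ = 0 := fun v => by
    simp [P, inner_sub_right, real_inner_smul_right, hx, hxq]
  have a2 : ∀ v, ⟪q, P v⟫ = 0 := fun v => by
    simp [P, inner_sub_right, real_inner_smul_right, hq, hqx]
  have a3 : ∀ v w, ⟪P v, w⟫ = ⟪v, w⟫ - ⟪x, v⟫ * ⟪x, w⟫ - ⟪q, v⟫ * ⟪q, w⟫ := fun v w => by
    simp only [P, inner_sub_left, real_inner_smul_left]
  have a4 : ∀ v w, ⟪P v, w⟫ = ⟪v, P w⟫ := fun v w => by
    rw [real_inner_comm (P w), a3, a3, real_inner_comm w v]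
    ring
  have a5 : ∀ v w, ⟪P v, P w⟫ = ⟪P v, w⟫ := fun v w => by
    rw [a3 v (P w), a1, a2, a4]
    ring
  let a : Option (Option (Fin (finrank ℝ E))) → E :=
    fun i => i.elim q fun i => i.elim x fun i => P (eb E i)
  have ha : Pars a := by
    intro v
    refine ext_inner_right ℝ fun w => ?_
    simp only [inner_add_left, sum_inner, real_inner_smul_left, Fintype.sum_option, a, Option.elim,
      a4 (eb E _), pars_eb.inner]
    rw [a5, a3]
    ring
  have a6 : ∑ i, B (sk q (P (eb E i))) (sk q (P (eb E i))) = -((kk E - 1) * Y) := by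
    simp only [hY _ (a1 _) (a2 _), a5, a3, Finset.sum_neg_distrib, ← Finset.sum_mul,
      Finset.sum_sub_distrib, sum_inner_eb, real_inner_comm (eb E _), pars_eb.inner, hxx, hqq, kk]
  have a7 : ∑ i, B (sk (P (eb E i)) q) (sk (P (eb E i)) q) = -((kk E - 1) * Y) := by
    rw [← a6]
    exact Finset.sum_congr rfl fun i _ => by rw [sk_swap]; simp
  have a8 : ∑ i : Option (Fin (finrank ℝ E)), ∑ k : Option (Fin (finrank ℝ E)),
      B (sk (a (some i)) (a (some k))) (sk (a (some i)) (a (some k))) ≤ 0 :=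
    Finset.sum_nonpos fun i _ => Finset.sum_nonpos fun k _ => hB _ _
  rw [sum_hA B ha, Fintype.sum_option]
  simp only [Fintype.sum_option (α := Option (Fin (finrank ℝ E))), Finset.sum_add_distrib]
  rw [Fintype.sum_option, Fintype.sum_option]
  have := hB q q
  have := hB q x
  have := hB x q
  simp only [a, Option.elim] at a8 ⊢
  linarith

end GradAux

open GradAux

variable {E : Type} [NormedAddCommGroup E] [InnerProductSpace ℝ E] [FiniteDimensional ℝ E]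
  [CompleteSpace E] [MeasurableSpace E] [BorelSpace E]

/-- gradient bound for the Gaussian quantile of a solution -/
theorem grad_bound (hn : 3 ≤ finrank ℝ E) {U : ℝ × E → ℝ} (hU : IsHeat U)
    (h01 : ∀ τ, 0 ≤ τ → ∀ x, ‖x‖ = 1 → 0 < U (τ, x) ∧ U (τ, x) < 1) {τ : ℝ} (hτ : 0 < τ) {x : E}
    (hx : ‖x‖ = 1) : ‖tg (fun q => Ps (U q)) (τ, x)‖ ^ 2 ≤
      (kk E - 1) / (Real.exp ((kk E - 1) * τ) - 1) := by
  set K := kk E - 1 with hK
  have hK0 : 0 < K := by
    have : (3 : ℝ) ≤ finrank ℝ E := by exact_mod_cast hn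
    simp only [hK, kk]
    linarith
  let θ : ℝ → ℝ := fun s => (Real.exp (K * s) - 1) / K
  have hθ : ∀ s, 0 < s → 0 < θ s := fun s hs =>
    div_pos (sub_pos.2 (Real.one_lt_exp_iff.2 (mul_pos hK0 hs))) hK0
  let C : Set (E × E) := {z | ‖z.1‖ = 1 ∧ ‖z.2‖ = 1 ∧ ⟪z.1, z.2⟫ = 0}
  have hC : IsCompact C := (isCompact_unit.prod isCompact_unit).of_isClosed_subset
    ((isClosed_eq (by fun_prop) continuous_const).inter ((isClosed_eq (by fun_prop)
      continuous_const).inter (isClosed_eq (continuous_fst.inner continuous_snd)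
        continuous_const))) fun z hz => ⟨hz.1, hz.2.1⟩
  have hY : ∀ s, 0 ≤ s → ∀ z ∈ C, ContDiffAt ℝ 2 (YY U) (s, z) := fun s hs z hz =>
    c2_YY hU (h01 s hs _ hz.1).1 (h01 s hs _ hz.1).2
  have key : ∀ z ∈ C, YY U (τ, z) * √(θ τ) ≤ 1 := by
    intro z hz
    obtain ⟨⟨s, y, q⟩, hs, hq, hm⟩ := exists_max (f := fun r => YY U r * √(θ r.1)) hC (a := 0)
      (b := τ) (fun s hs z hz => (hY s hs.1 z hz).continuousAt.mul (by fun_prop))
      ⟨hτ.le, le_rfl⟩ hz
    refine (hm τ ⟨hτ.le, le_rfl⟩ z hz).trans (not_lt.1 fun h => ?_)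
    have hs0 : 0 < s := hs.1.lt_of_ne fun e : 0 = s => by
      simp only [θ, ← e, mul_zero, Real.exp_zero, sub_self, zero_div, Real.sqrt_zero] at h
      linarith
    have b0 := (h01 s hs.1 y hq.1).1
    have b1 := (h01 s hs.1 y hq.1).2
    have hσ : 0 < √(θ s) := Real.sqrt_pos.2 (hθ s hs0)
    have hσ2 : √(θ s) ^ 2 = θ s := Real.sq_sqrt (hθ s hs0).le
    have c2 := hY s hs.1 _ hq
    have o1 : ∀ {A : E →L[ℝ] E}, IsSkew A → df (YY U) (s, y, q) A = 0 ∧
        qf (YY U) (s, y, q) A A ≤ 0 := fun hA => orbit_max c2 hA fun t =>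
      le_of_mul_le_mul_right (hm s hs _ ⟨(norm_ap _ _).trans hq.1, (norm_ap _ _).trans hq.2.1,
        (inner_ap _ _ _).trans hq.2.2⟩) hσ
    have o2 := heat_YY hU b0 b1 hq.1 hq.2.2 (by ext j; exact (o1 (isSkew_hA j)).1)
    have o3 := sum_planes hq.1 hq.2.1 hq.2.2 (qf (YY U) (s, y, q))
      (fun a b => (o1 (isSkew_sk a b)).2) fun r => qf_YY hU b0 b1 hq.2.1 hq.2.2
    have d1 : HasDerivAt θ (Real.exp (K * s)) s := by
      refine (((((hasDerivAt_id s).const_mul K).exp).sub_const 1).div_const K).congr_deriv ?_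
      simp only [id]
      field_simp
    have d2 := (d1.sqrt (hθ s hs0).ne').comp_hasFDerivAt (s, y, q)
      (hasFDerivAt_fst (𝕜 := ℝ) (p := (s, y, q)))
    have d3 := (c2.differentiableAt (by simp)).hasFDerivAt.mul d2
    have o4 := time_max (a := 0) d3.differentiableAt hs0
      fun t ht ht' => hm t ⟨ht, ht'.trans hs.2⟩ _ hq
    rw [d3.fderiv] at o4
    simp only [add_apply, smul_apply, smul_eq_mul, ContinuousLinearMap.coe_fst', mul_one,
      Function.comp] at o4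
    have o5 : YY U (s, y, q) ≤ ‖tg (fun z => Ps (U z)) (s, y)‖ := by
      rw [YY_eq hU b0 b1 hq.2.2]
      simpa [show ‖q‖ = 1 from hq.2.1] using real_inner_le_norm (tg (fun z => Ps (U z)) (s, y)) q
    rw [heat_eq] at o2
    have e1 : Real.exp (K * s) = K * √(θ s) ^ 2 + 1 := by
      rw [hσ2]
      simp only [θ]
      field_simp
      ring
    simp only [← hK] at h o3
    set σ := √(θ s)
    set Y := YY U (s, y, q)
    have hY0 : 0 < Y := (mul_pos_iff_of_pos_right hσ).1 (zero_lt_one.trans h)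
    rw [e1] at o4
    have o6 := mul_nonneg o4 hσ.le
    have e2 : (K * σ ^ 2 + 1) / (2 * σ) * σ = (K * σ ^ 2 + 1) / 2 := by field_simp
    rw [add_mul, mul_assoc, e2] at o6
    have o7 : Y * Y ^ 2 ≤ Y * ‖tg (fun z => Ps (U z)) (s, y)‖ ^ 2 := by gcongr
    have o8 : fderiv ℝ (YY U) (s, y, q) (1, 0) * σ ^ 2 ≤ (-(K * Y) / 2 - Y ^ 3 / 2) * σ ^ 2 :=
      mul_le_mul_of_nonneg_right (by linarith) (by positivity)
    have o9 : Y * 1 ^ 2 < Y * (Y * σ) ^ 2 := by gcongr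
    linarith
  set g := tg (fun q => Ps (U q)) (τ, x)
  have hσ : 0 < √(θ τ) := Real.sqrt_pos.2 (hθ τ hτ)
  have h2 : ‖g‖ * √(θ τ) ≤ 1 := by
    rcases eq_or_ne g 0 with h | h
    · simp [h]
    have h3 : ⟪x, ‖g‖⁻¹ • g⟫ = 0 := by rw [real_inner_smul_right, inner_tg_self _ τ hx, mul_zero]
    have h4 := key (x, ‖g‖⁻¹ • g) ⟨hx, norm_smul_inv_norm h, h3⟩
    rw [YY_eq hU (h01 τ hτ.le x hx).1 (h01 τ hτ.le x hx).2 h3, real_inner_smul_right,
      real_inner_self_eq_norm_sq, sq, inv_mul_cancel_left₀ (norm_ne_zero_iff.2 h)] at h4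
    exact h4
  have h3 : (‖g‖ * √(θ τ)) ^ 2 ≤ 1 ^ 2 := by gcongr
  rw [mul_pow, Real.sq_sqrt (hθ τ hτ).le, one_pow, ← le_div_iff₀ (hθ τ hτ)] at h3
  simpa [θ] using h3

end Pool.Agent.BL
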