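import Pool.Agent.P.MP_edb112_gt.Approx
import Pool.Agent.P.MP_edb112_gt.Grad
import Pool.Agent.P.MP_edb112_gt.BLSse

/-! The pair operator: spectral gap and small set expansion for flows. -/

set_option autoImplicit false
set_option linter.unusedSectionVars false

open MeasureTheory Set Module Filter
open scoped RealInnerProductSpace Topology symmDiff

noncomputable section

namespace Pool.Agent.BL

namespace Pr

open Lev

variable {E : Type} [NormedAddCommGroup E] [InnerProductSpace ℝ E] [FiniteDimensional ℝ E]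
  [CompleteSpace E] [MeasurableSpace E] [BorelSpace E]

theorem exists_VF {d : ℕ} {p : E → ℝ} (hp : p ∈ Pol E d) : ∃ q ∈ VF E (d + 1), ⇑q = p := by
  induction d generalizing p with
  | zero =>
    obtain ⟨c, rfl⟩ := mem_Pol_zero.1 hp
    exact ⟨c • 1, Submodule.smul_mem _ _ (one_mem 0), by ext; simp⟩
  | succ d ih =>
    refine Flw.induction_succ (C := fun p => ∃ q ∈ VF E (d + 1 + 1), ⇑q = p) ?_ ?_ hp
    · intro c a n hn
      obtain ⟨q, hq, rfl⟩ := ih hn
      refine ⟨(c • 1 + lf a) * q, ?_, by ext; simp⟩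
      have := mul_mem (I := 1) (Submodule.add_mem _ (Submodule.smul_mem _ c (one_mem 1))
        (lf_mem a)) hq
      rwa [add_comm 1 d] at this
    · rintro _ - _ - ⟨p, hp, rfl⟩ ⟨q, hq, rfl⟩
      exact ⟨p + q, Submodule.add_mem _ hp hq, rfl⟩

theorem pow_mem_Pol (a : E) (i : ℕ) : (fun x => ⟪a, x⟫ ^ i) ∈ Pol E i := by
  induction i with
  | zero => exact mem_Pol_zero.2 ⟨1, by simp⟩
  | succ i ih => simpa [pow_succ'] using Flw.aff_mul_mem ih 0 a

theorem mem_Pl {d : ℕ} {q : C(E, ℝ)} (hq : q ∈ VF E d) : ⇑q ∈ Flw.Pl E d := by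
  induction hq using Submodule.span_induction with
  | mem q hq =>
    obtain ⟨a, i, hi, rfl⟩ := hq
    obtain ⟨d, rfl⟩ : ∃ e, d = e + 1 := ⟨d - 1, by omega⟩
    exact Pol_mono (Nat.lt_succ_iff.1 hi) (pow_mem_Pol a i)
  | zero => exact Submodule.zero_mem _
  | add p q _ _ h1 h2 => exact Submodule.add_mem _ h1 h2
  | smul c p _ h1 => exact Submodule.smul_mem _ c h1

theorem orth_Pl (hn : 2 ≤ finrank ℝ E) {d : ℕ} {p q : E → ℝ} (hp : Eig (lam E d) p)
    (hq : q ∈ Flw.Pl E d) : ∫ z, p z * q z ∂(sph E) = 0 := by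
  have := Flw.nontriv hn
  obtain ⟨r, -, h2, h3⟩ := Flw.exists_levels hn hq
  have e : ∀ᵐ z ∂(sph E), p z * q z = ∑ j ∈ Finset.range d, p z * r j z := by
    filter_upwards [ae_norm] with z hz
    rw [← h3 z hz, Finset.mul_sum]
  rw [integral_congr_ae e, integral_finsetSum (f := fun j z => p z * r j z) _
    fun j _ => Flw.integ (hp.cont.mul (h2 j).cont)]
  exact Finset.sum_eq_zero fun j hj =>
    hp.orth (h2 j) ((lam_strictMono hn) (Finset.mem_range.1 hj)).ne'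

theorem memLp_of_continuousOn [Nontrivial E] {h : E → ℝ}
    (hh : ContinuousOn h {w : E | ‖w‖ = 1}) : MemLp h 2 (sph E) := by
  obtain ⟨C, hC⟩ := (isCompact_unit (E := E)).exists_bound_of_continuousOn hh
  exact MemLp.of_bound (integrable_of_continuousOn hh).1 C (ae_norm.mono hC)

/-- eigenfunctions of the Laplacian are eigenfunctions of the pair operator -/
theorem pair_eig (hn : 2 ≤ finrank ℝ E) {x y : E} (hx : ‖x‖ = 1) (hy : ‖y‖ = 1) {d : ℕ}
    {p : E → ℝ} (hp : p ∈ Pol E d) (he : Eig (lam E d) p) {h : E → ℝ} (hh : MemLp h 2 (sph E)) :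
    ∫ g, h (ap g x) * p (ap g y) ∂(haar E) = lvp x y d * ∫ z, p z * h z ∂(sph E) := by
  have := Flw.nontriv hn
  obtain ⟨q, hq, rfl⟩ := exists_VF hp
  rw [integral_pair_swap hx hy]
  exact pair_level hx hy hn hq (fun r hr => orth_Pl hn he (mem_Pl hr)) hh

end Pr

open Lev Pr

/-- spectral gap of the pair operator (paper, section 3) -/
theorem gap : ∃ k₀ : ℕ,
    ∀ (E : Type) [NormedAddCommGroup E] [InnerProductSpace ℝ E] [CompleteSpace E]
    [FiniteDimensional ℝ E] [MeasurableSpace E] [BorelSpace E], k₀ ≤ finrank ℝ E →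
    ∀ x y : E, ‖x‖ = 1 → ‖y‖ = 1 → -0.52 ≤ ⟪x, y⟫ → ⟪x, y⟫ ≤ 0 →
    ∀ h h' : E → ℝ, ContinuousOn h {w : E | ‖w‖ = 1} → ContinuousOn h' {w : E | ‖w‖ = 1} →
      ∫ w, h' w ∂(sph E) = 0 →
      |∫ g, h (ap g x) * h' (ap g y) ∂(haar E)| ≤
        0.95 * √(∫ w, h w ^ 2 ∂(sph E)) * √(∫ w, h' w ^ 2 ∂(sph E)) := by
  refine ⟨10, fun E _ _ _ _ _ _ hn x y hx hy h1 h2 h h' hh hh' h0 => ?_⟩
  have hn2 : 2 ≤ finrank ℝ E := by omega
  have := Flw.nontriv hn2
  rw [integral_pair_swap hx hy]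
  refine (pair_gap_zero hx hy hn2 (memLp_of_continuousOn hh') (memLp_of_continuousOn hh) h0).trans ?_
  rw [mul_right_comm]
  have h3 : (10 : ℝ) ≤ finrank ℝ E := by exact_mod_cast hn
  have h4 : 3 ≤ √((finrank ℝ E : ℝ) - 1) := Real.le_sqrt_of_sq_le (by linarith)
  have h5 : 1 / √((finrank ℝ E : ℝ) - 1) ≤ 1 / 3 := by gcongr
  have h6 : |⟪x, y⟫| ≤ 0.52 := abs_le.2 ⟨h1, by linarith⟩
  gcongr
  linarith

/-- the pair operator maps flows to flows and contracts functions of small mean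
(paper, sections 3 and 4) -/
theorem sse_flow (ε : ℝ) (hε : 0 < ε) : ∃ γ > 0, ∃ k₀ : ℕ,
    ∀ (E : Type) [NormedAddCommGroup E] [InnerProductSpace ℝ E] [CompleteSpace E]
    [FiniteDimensional ℝ E] [MeasurableSpace E] [BorelSpace E], k₀ ≤ finrank ℝ E →
    ∀ x y : E, ‖x‖ = 1 → ‖y‖ = 1 → -0.52 ≤ ⟪x, y⟫ → ⟪x, y⟫ ≤ 0 →
    ∀ J : Flow E, (∀ w, ‖w‖ = 1 → 0 < J.U (0, w) ∧ J.U (0, w) < 1) →
      ∫ w, J.U (0, w) ∂(sph E) ≤ γ →
      ∃ Θ : Flow E, (∀ τ, ∀ h : E → ℝ, ContinuousOn h {w : E | ‖w‖ = 1} →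
          ∫ g, h (ap g x) * J.U (τ, ap g y) ∂(haar E) = ∫ w, h w * Θ.U (τ, w) ∂(sph E)) ∧
        ∫ w, Θ.U (0, w) ^ 2 ∂(sph E) ≤ ε * ∫ w, J.U (0, w) ∂(sph E) := by
  obtain ⟨γ, hγ, k₀, hk, H⟩ := sse_fun √ε (Real.sqrt_pos.2 hε)
  refine ⟨γ, hγ, k₀, fun E _ _ _ _ _ _ hn x y hx hy h1 h2 J hJ hb => ?_⟩
  have hn2 : 2 ≤ finrank ℝ E := hk.trans hn
  have := Flw.nontriv hn2
  let Θ : Flow E := ⟨J.D, fun d w => lvp x y d * J.p d w, fun d => Flw.cmul_mem (J.mem d) _,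
    fun d => (J.eig d).const_mul _⟩
  have key : ∀ τ, ∀ h : E → ℝ, ContinuousOn h {w : E | ‖w‖ = 1} →
      ∫ g, h (ap g x) * J.U (τ, ap g y) ∂(haar E) = ∫ w, h w * Θ.U (τ, w) ∂(sph E) := by
    intro τ h hh
    have hm := memLp_of_continuousOn hh
    have hp : ∀ d, MemLp (J.p d) 2 (sph E) := fun d =>
      memLp_of_continuousOn (J.eig d).cont.continuousOn
    have e1 : ∀ g, h (ap g x) * J.U (τ, ap g y) = ∑ d ∈ Finset.range (J.D + 1),
        Real.exp (-(lam E d * τ / 2)) * (h (ap g x) * J.p d (ap g y)) := by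
      intro g
      rw [Flow.U, Finset.mul_sum]
      exact Finset.sum_congr rfl fun d _ => by ring
    have e2 : ∀ w, h w * Θ.U (τ, w) = ∑ d ∈ Finset.range (J.D + 1),
        Real.exp (-(lam E d * τ / 2)) * lvp x y d * (J.p d w * h w) := by
      intro w
      rw [Flow.U, Finset.mul_sum]
      exact Finset.sum_congr rfl fun d _ => by simp only [Θ]; ring
    simp only [e1, e2]
    rw [integral_finsetSum, integral_finsetSum]
    · refine Finset.sum_congr rfl fun d _ => ?_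
      rw [integral_const_mul, integral_const_mul, pair_eig hn2 hx hy (J.mem d) (J.eig d) hm,
        mul_assoc]
    · exact fun d _ => ((hp d).integrable_mul hm).const_mul _
    · exact fun d _ => ((hm.comp_measurePreserving (measurePreserving_ap hx)).integrable_mul
        ((hp d).comp_measurePreserving (measurePreserving_ap hy))).const_mul _
  refine ⟨Θ, key, ?_⟩
  have hc : ∀ F : Flow E, Continuous fun w => F.U (0, w) := fun F =>
    F.isHeat.sm.continuous.comp (by fun_prop)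
  have h3 := H E hn x y hx hy (abs_le.2 ⟨h1, by linarith⟩) (fun w => J.U (0, w))
    (fun w => Θ.U (0, w)) (hc J).aestronglyMeasurable
    (ae_norm.mono fun w hw => ⟨(hJ w hw).1.le, (hJ w hw).2.le⟩) hb
    (memLp_of_continuousOn (hc Θ).continuousOn)
  rw [integral_pair_swap hx hy (fun w => J.U (0, w)) fun w => Θ.U (0, w),
    key 0 _ (hc Θ).continuousOn] at h3
  simp only [← sq] at h3
  have hb0 : 0 ≤ ∫ w, J.U (0, w) ∂(sph E) :=
    integral_nonneg_of_ae (ae_norm.mono fun w hw => (hJ w hw).1.le)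
  have hq0 : 0 ≤ ∫ w, Θ.U (0, w) ^ 2 ∂(sph E) := integral_nonneg fun w => by positivity
  rw [← Real.sqrt_mul hε.le] at h3
  have h4 := Real.mul_self_sqrt hq0
  have h5 := Real.mul_self_sqrt (mul_nonneg hε.le hb0)
  nlinarith [sq_nonneg (√(ε * ∫ w, J.U (0, w) ∂(sph E)) - √(∫ w, Θ.U (0, w) ^ 2 ∂(sph E)))]

end Pool.Agent.BL
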