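import Pool.Agent.P.MP_edb112_gt.GoodA
import Pool.Agent.P.MP_edb112_gt.GoodC
import Pool.Agent.P.MP_edb112_gt.Pair

/-! Existence of a good time. -/

set_option autoImplicit false
set_option linter.unusedSectionVars false

open MeasureTheory Set Module Filter Real
open scoped RealInnerProductSpace Topology symmDiff

noncomputable section

namespace Pool.Agent.BL

section

variable {E : Type} [NormedAddCommGroup E] [InnerProductSpace ℝ E] [FiniteDimensional ℝ E]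
  [CompleteSpace E] [MeasurableSpace E] [BorelSpace E] {t : ℕ}

namespace HD

variable {U : Fin t → ℝ × E → ℝ} {M τ : ℝ} {z : Fin t → E}

theorem cont_ll (h : HD U M) (a : Fin t) (hτ : 0 ≤ τ) {x : E} (hx : ‖x‖ = 1) :
    ContinuousAt (fun p => log (Ps (U a p) ^ 2 + 1)) (τ, x) :=
  (sup_ll (h.jet₂ a hτ hx)).sm.continuousAt

theorem contOn_ll (h : HD U M) (a : Fin t) (hτ : 0 ≤ τ) :
    ContinuousOn (fun x => log (Ps (U a (τ, x)) ^ 2 + 1)) {x : E | ‖x‖ = 1} := fun y hy =>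
  ((h.cont_ll a hτ hy).comp_of_eq (f := fun y : E => (τ, y)) (by fun_prop) rfl).continuousWithinAt

theorem ev_XX (h : HD U M) (hτ : 0 ≤ τ) (hz : ∀ a, ‖z a‖ = 1) :
    ev E z (XX U 1) τ = ∑ a, ∫ x, log (Ps (U a (τ, x)) ^ 2 + 1) ∂(sph E) := by
  refine (ev_sum (f := fun a q => log (uu U a q ^ 2 + 1)) _ fun a _ g =>
    (sup_ll (h.jet' hτ (fun b => (norm_ap g _).trans (hz b)) a)).sm.continuousAt).trans ?_
  exact Finset.sum_congr rfl fun a _ => ev_unit (hz a) (f := fun p => log (Ps (U a p) ^ 2 + 1))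
    fun y hy => h.cont_ll a hτ hy

theorem XX_zero_ge [Nontrivial E] (h : HD U M) (hz : ∀ a, ‖z a‖ = 1) (a : Fin t) {N : Set E}
    (hN : MeasurableSet N) (hN1 : (sph E).real N ≤ 1 / 2) {R : ℝ} (hR : 0 ≤ R)
    (hN2 : ∀ x, ‖x‖ = 1 → x ∉ N → R ≤ |Ps (U a (0, x))|) :
    log (R ^ 2 + 1) / 2 ≤ ev E z (XX U 1) 0 := by
  have p : ∀ v : ℝ, 0 ≤ log (v ^ 2 + 1) := fun v => log_nonneg (le_add_of_nonneg_left (sq_nonneg _))
  rw [h.ev_XX le_rfl hz]
  refine le_trans ?_ (Finset.single_le_sum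
    (f := fun a => ∫ x, log (Ps (U a (0, x)) ^ 2 + 1) ∂(sph E))
    (fun b _ => integral_nonneg fun x => p _) (Finset.mem_univ a))
  have hiN : Integrable (fun x => log (R ^ 2 + 1) * N.indicator (1 : E → ℝ) x) (sph E) :=
    ((integrable_const (1 : ℝ)).indicator hN).const_mul _
  refine le_trans ?_ (integral_mono_ae (f := fun x => log (R ^ 2 + 1) -
    log (R ^ 2 + 1) * N.indicator (1 : E → ℝ) x) ((integrable_const _).sub hiN)
    (integrable_of_continuousOn (h.contOn_ll a le_rfl)) ?_)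
  · rw [integral_sub (integrable_const _) hiN, integral_const_mul, integral_indicator_one hN]
    simp only [integral_const, probReal_univ, one_smul]
    nlinarith [p R]
  · filter_upwards [ae_norm (E := E)] with x hx
    by_cases hxN : x ∈ N
    · simpa [hxN] using p _
    · simp only [indicator, hxN, if_false, mul_zero, sub_zero]
      refine log_le_log (by positivity) (add_le_add_left ?_ _)
      rw [← sq_abs (Ps _)]
      exact pow_le_pow_left₀ hR (hN2 x hx hxN) 2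

theorem XX_le (h : HD U M) (hτ : 0 ≤ τ) (hz : ∀ a, ‖z a‖ = 1) {b : ℝ} (hb : 1 ≤ b)
    (hl : ∀ a, -b ≤ uu U a (τ, z)) (n : ℕ) :
    XX U 1 (τ, z) ≤ t * (t * b) ^ 2 + t * log (M ^ 2 + 1) * pp n (∑ a, uu U a (τ, z)) := by
  have p : 0 ≤ t * log (M ^ 2 + 1) :=
    mul_nonneg (by positivity) (log_nonneg (le_add_of_nonneg_left (sq_nonneg _)))
  rcases le_total (∑ a, uu U a (τ, z)) 1 with hC | hC
  · refine le_trans ?_ (le_add_of_nonneg_right (mul_nonneg p (pp_nonneg _ _)))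
    refine (Finset.sum_le_sum fun a _ => ?_).trans_eq (sum_fin_const _)
    have h1 := Finset.single_le_sum (f := fun a => uu U a (τ, z) + b)
      (fun a _ => by linarith [hl a]) (Finset.mem_univ a)
    rw [Finset.sum_add_distrib, sum_fin_const] at h1
    have h2 : (1 : ℝ) ≤ t := by exact_mod_cast a.pos
    have h3 : uu U a (τ, z) ^ 2 ≤ (t * b) ^ 2 := sq_le_sq' (by nlinarith [hl a]) (by linarith)
    linarith [log_le_sub_one_of_pos (show 0 < uu U a (τ, z) ^ 2 + 1 by positivity)]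
  · have h1 : 1 ≤ pp n (∑ a, uu U a (τ, z)) := one_le_pow₀ (le_max_of_le_left hC)
    have h2 : XX U 1 (τ, z) ≤ t * log (M ^ 2 + 1) :=
      (Finset.sum_le_sum fun a _ => h.log_le hτ hz a one_pos).trans_eq (sum_fin_const _)
    have h3 : (0 : ℝ) ≤ t * (t * b) ^ 2 := by positivity
    nlinarith

end HD

end

theorem exp_neg_le_inv {x : ℝ} (hx : 0 < x) : exp (-x) ≤ x⁻¹ := by
  rw [exp_neg]
  exact inv_anti₀ hx (by linarith [add_one_le_exp x])

theorem energy_ge {t n : ℕ} (ht : 3 ≤ t) (hn : 3 ≤ n) {L e d η τ : ℝ} (hη : 0 < η) (hτ : 0 < τ)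
    (hd : 0 ≤ d) (h1 : d + η * (12 * L ^ 2 + 4 * t) * ((n - 1 - 1) * exp (-(n - 1 - 1) * τ)) ≤
      2 * η * e) (h2 : e ≤ t * ((n - 1 - 1) / (exp ((n - 1 - 1) * τ) - 1))) : n * L ^ 2 ≤ e := by
  have ht' : (3 : ℝ) ≤ t := by exact_mod_cast ht
  have hn' : (3 : ℝ) ≤ n := by exact_mod_cast hn
  have hk : (0 : ℝ) < n - 1 - 1 := by linarith
  have hw : 1 < exp ((n - 1 - 1) * τ) := one_lt_exp_iff.2 (by positivity)
  rw [neg_mul, exp_neg] at h1
  set w := exp ((n - 1 - 1) * τ)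
  set k := (n : ℝ) - 1 - 1 with hkn
  have h3 : (12 * L ^ 2 + 4 * t) * (k * w⁻¹) ≤ 2 * e := by
    refine le_of_mul_le_mul_left ?_ hη
    linarith
  have h4 : (12 * L ^ 2 + 4 * t) * (k * w⁻¹) ≤ 2 * (t * (k / (w - 1))) := by linarith
  have h5 : w ≤ 2 := by
    rw [← div_eq_mul_inv, mul_div_assoc', mul_div_assoc', mul_div_assoc',
      div_le_div_iff₀ (by linarith) (by linarith)] at h4
    have h6 : 0 ≤ L ^ 2 * k * (w - 1) := by
      have : 0 ≤ w - 1 := by linarith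
      positivity
    have h7 : 0 < t * k := by positivity
    nlinarith
  have h6 : 1 / 2 ≤ w⁻¹ := by
    rw [one_div]
    exact inv_anti₀ (by linarith) h5
  have h7 : 0 ≤ (12 * L ^ 2 + 4 * t) * k := by positivity
  nlinarith [mul_le_mul_of_nonneg_left h6 h7, sq_nonneg L,
    mul_nonneg (sq_nonneg L) (show 0 ≤ 3 * k - n by linarith)]

theorem cst1 {t S : ℝ} (ht : 3 ≤ t) (hS : 2 ≤ S) : S ≤ 1 + 64 * t ^ 2 * S - 1 := by
  have : 1 ≤ 64 * t ^ 2 := by nlinarith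
  nlinarith

theorem cst2 {t S : ℝ} (ht : 3 ≤ t) (hS : 2 ≤ S) :
    (t * (1 + 64 * t ^ 2 * S + 1) + 2) ^ 2 ≤ (64 * t ^ 3 + 2 * t + 2) ^ 2 * S ^ 2 := by
  rw [← mul_pow]
  refine pow_le_pow_left₀ (by positivity) ?_ 2
  nlinarith

theorem cst3 {t : ℕ} (ht : 3 ≤ t) {S p : ℝ} (hS : 2 ≤ S) (hp : 0 < p) (h : 16 * t < S ^ 2 * p) :
    Ph (1 - (1 + 64 * t ^ 2 * S)) < p * (exp (-(S ^ 2 / (4 * kap t))) / 4 / t) := by
  have ht' : (3 : ℝ) ≤ t := by exact_mod_cast ht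
  have hκ := kap_pos (t := t) (by omega)
  have hκ' := kap_le (t := t) (by omega)
  have h2 : Ph (1 - (1 + 64 * t ^ 2 * S)) ≤
      exp (-(S ^ 2 / (4 * kap t))) * exp (-(S ^ 2 / (4 * kap t))) := by
    rw [show 1 - (1 + 64 * t ^ 2 * S) = -(64 * t ^ 2 * S) by ring, ← exp_add]
    refine (Ph_neg_le_exp (by positivity)).trans (exp_le_exp.2 ?_)
    have : S ^ 2 / (4 * kap t) = 16 * t ^ 2 * S ^ 2 := by
      unfold kap
      field_simp
      ring
    rw [this]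
    have h3 : 1 ≤ (t : ℝ) ^ 2 := by nlinarith
    have h4 : 0 ≤ (t : ℝ) ^ 2 * S ^ 2 := by positivity
    linarith [mul_le_mul_of_nonneg_right h3 h4, mul_nonneg (sq_nonneg (t : ℝ)) h4]
  have h3 : exp (-(S ^ 2 / (4 * kap t))) < p / (4 * t) := by
    refine (exp_neg_le_inv (by positivity)).trans_lt ?_
    rw [inv_div, div_lt_div_iff₀ (by positivity) (by positivity)]
    nlinarith
  calc _ ≤ _ := h2
    _ < p / (4 * t) * exp (-(S ^ 2 / (4 * kap t))) := mul_lt_mul_of_pos_right h3 (exp_pos _)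
    _ = _ := by field_simp

theorem cst4 {t : ℕ} (ht : 3 ≤ t) {S : ℝ} (hS : 2 ≤ S) :
    exp (kap t * log (4 * (exp (-(S ^ 2 / (4 * kap t))) / 4))) *
      (20 * t * ((t * S + 1) ^ 2 + 1) * exp (S ^ 2 / 8) / kap t) ≤
      160 * t * ((t + 1) ^ 2 + 1) / kap t := by
  have hκ := kap_pos (t := t) (by omega)
  have h1 : kap t * log (4 * (exp (-(S ^ 2 / (4 * kap t))) / 4)) = -(S ^ 2 / 8) + -(S ^ 2 / 8) := by
    rw [mul_div_cancel₀ _ (by norm_num), log_exp]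
    field_simp
    ring
  have h2 := exp_neg_le_inv (show 0 < S ^ 2 / 8 by positivity)
  have h3 : (t * S + 1) ^ 2 + 1 ≤ ((t + 1) ^ 2 + 1) * S ^ 2 := by
    have : (t * S + 1) ^ 2 ≤ ((t + 1) * S) ^ 2 := pow_le_pow_left₀ (by positivity) (by linarith) 2
    nlinarith
  calc _ = 20 * t / kap t * (exp (-(S ^ 2 / 8)) * ((t * S + 1) ^ 2 + 1)) := by
        rw [h1, exp_add, exp_neg]
        field_simp
    _ ≤ 20 * t / kap t * ((S ^ 2 / 8)⁻¹ * (((t + 1) ^ 2 + 1) * S ^ 2)) := by gcongr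
    _ = _ := by
        field_simp
        ring

theorem good_consts (t : ℕ) (ht : 3 ≤ t) (R L : ℝ) {η ω xs : ℝ} (hη : 0 < η) (hω : 0 < ω)
    (hxs : 0 < xs) : ∃ S γ M b ε₁ : ℝ, 2 ≤ S ∧ 0 < γ ∧ γ ≤ 1 ∧ S ≤ M - 1 ∧ 0 < ε₁ ∧ ε₁ ≤ 1 / 2 ∧
      Ph (1 - M) + ε₁ ≤ ω ∧ Ph (1 - M) + ε₁ < ph (|R| + γ / t) * (γ / t) ∧
      log ((t * (M + 1) + 2) ^ 2 + 1) ≤ 3 / 2 * log (S ^ 2 + 1) ∧
      exp (kap t * log (4 * γ)) *
        (20 * t * ((t * S + 1) ^ 2 + 1) * exp (S ^ 2 / 8) / kap t) ≤ b ∧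
      1 + b + 8 * t ^ 2 * (log ((t * (M + 1) + 2) ^ 2 + S ^ 2) - log (S ^ 2)) +
        η / 2 * (12 * L ^ 2 + 4 * t) ≤ log (S ^ 2 + 1) * (η / 4 * xs) ∧
      t * (t * (|R| + 1)) ^ 2 + 1 ≤ log (S ^ 2 + 1) * xs := by
  have ht' : (3 : ℝ) ≤ t := by exact_mod_cast ht
  have hκ := kap_pos (t := t) (by omega)
  obtain ⟨C, hC⟩ : ∃ C : ℝ, C = 64 * t ^ 3 + 2 * t + 2 := ⟨_, rfl⟩
  have hC0 : 1 ≤ C := by
    have : (0 : ℝ) ≤ 64 * t ^ 3 := by positivity
    linarith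
  have hC1 : 1 ≤ C ^ 2 := one_le_pow₀ hC0
  obtain ⟨b, hb⟩ : ∃ b : ℝ, b = 160 * t * ((t + 1) ^ 2 + 1) / kap t := ⟨_, rfl⟩
  have hb0 : 0 < b := by rw [hb]; positivity
  have hph := ph_pos (|R| + 1)
  have h1 : Tendsto (fun S : ℝ => log (S ^ 2 + 1)) atTop atTop := tendsto_log_atTop.comp
    (tendsto_atTop_add_const_right _ _ (tendsto_pow_atTop two_ne_zero))
  obtain ⟨S, hS2, r1, r2, r3, r4, r5⟩ := ((eventually_ge_atTop 2).and
    ((h1.eventually_ge_atTop (2 * C ^ 2)).and ((h1.eventually_ge_atTop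
    ((1 + b + 8 * t ^ 2 * C ^ 2 + η / 2 * (12 * L ^ 2 + 4 * t)) / (η / 4 * xs))).and
    ((h1.eventually_ge_atTop ((t * (t * (|R| + 1)) ^ 2 + 1) / xs)).and
    ((h1.eventually_gt_atTop (16 * t / ph (|R| + 1))).and
    (h1.eventually_ge_atTop (4 / ω))))))).exists
  have hLS : log (S ^ 2 + 1) ≤ S ^ 2 := by
    linarith [log_le_sub_one_of_pos (show 0 < S ^ 2 + 1 by positivity)]
  rw [div_le_iff₀ (by positivity)] at r2 r3
  have r4' := (div_lt_iff₀ hph).1 (r4.trans_le hLS)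
  have r5' := (div_le_iff₀ hω).1 (r5.trans hLS)
  have hγ1 : exp (-(S ^ 2 / (4 * kap t))) / 4 ≤ 1 := by
    have : exp (-(S ^ 2 / (4 * kap t))) ≤ 1 := exp_le_one_iff.2 (neg_nonpos.2 (by positivity))
    linarith
  have hP2 := cst3 ht hS2 hph r4'
  have hbb := cst4 ht hS2
  have hMS := cst1 ht' hS2
  have hMC := cst2 ht' hS2
  have hγ0 : 0 < exp (-(S ^ 2 / (4 * kap t))) / 4 := by positivity
  rw [← hb] at hbb
  rw [← hC] at hMC
  generalize exp (-(S ^ 2 / (4 * kap t))) / 4 = γ at *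
  generalize 1 + 64 * (t : ℝ) ^ 2 * S = M at *
  have hδ0 : 0 < γ / t := by positivity
  have hδ1 : γ / t ≤ 1 := (div_le_one (by linarith)).2 (by linarith)
  have hP1 : Ph (1 - M) ≤ ω / 2 := by
    refine (Ph_mono (show 1 - M ≤ -S by linarith)).trans ((Ph_neg_le_inv_sq (by linarith)).trans ?_)
    rw [div_le_div_iff₀ (by positivity) two_pos]
    linarith
  have h2 : ph (|R| + 1) ≤ ph (|R| + γ / t) := ph_anti (by
    rw [abs_of_pos (a := |R| + γ / t) (by positivity), abs_of_pos (a := |R| + 1) (by positivity)]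
    linarith)
  have hP3 := hP2.trans_le (mul_le_mul_of_nonneg_right h2 hδ0.le)
  refine ⟨S, γ, M, b, min (min (ω / 2) (1 / 2)) ((ph (|R| + γ / t) * (γ / t) - Ph (1 - M)) / 2),
    hS2, hγ0, hγ1, hMS, lt_min (by positivity) (by linarith),
    (min_le_left _ _).trans (min_le_right _ _), ?_, ?_, ?_, hbb, ?_, r3⟩
  · linarith [(min_le_left (min (ω / 2) (1 / 2))
      ((ph (|R| + γ / t) * (γ / t) - Ph (1 - M)) / 2)).trans (min_le_left _ _)]
  · linarith [min_le_right (min (ω / 2) (1 / 2)) ((ph (|R| + γ / t) * (γ / t) - Ph (1 - M)) / 2)]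
  · have h3 := log_le_log (x := (t * (M + 1) + 2) ^ 2 + 1) (y := C ^ 2 * (S ^ 2 + 1))
      (by positivity) (by linarith)
    rw [log_mul (by positivity) (by positivity)] at h3
    linarith [log_le_sub_one_of_pos (show 0 < C ^ 2 by positivity)]
  · have h3 := log_le_log (x := (t * (M + 1) + 2) ^ 2 + S ^ 2) (y := (C ^ 2 + 1) * S ^ 2)
      (by positivity) (by linarith)
    rw [log_mul (by positivity) (by positivity)] at h3
    have h4 : log ((t * (M + 1) + 2) ^ 2 + S ^ 2) - log (S ^ 2) ≤ C ^ 2 := by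
      linarith [log_le_sub_one_of_pos (show 0 < C ^ 2 + 1 by positivity)]
    linarith [mul_le_mul_of_nonneg_left h4 (show (0 : ℝ) ≤ 8 * t ^ 2 by positivity)]

/-- a time at which the gradients are large and nearly equal (paper, section 6) -/
theorem good_time (t : ℕ) (ht : 3 ≤ t) (R η L ω : ℝ) (hη : 0 < η) (hω : 0 < ω) :
    ∃ γ > 0, ∃ ε' > 0, ∃ k₀ : ℕ,
    ∀ (E : Type) [NormedAddCommGroup E] [InnerProductSpace ℝ E] [CompleteSpace E]
    [FiniteDimensional ℝ E] [MeasurableSpace E] [BorelSpace E], k₀ ≤ finrank ℝ E →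
    ∀ z : Fin t → E, Near t ε' z → ∀ B : Fin t → Set E, (∀ a, MeasurableSet (B a)) →
    OrbFree z B → ∀ θ : Fin t → ℝ, (∀ a, |θ a| ≤ R) → -γ ≤ ∑ a, θ a →
    (∀ a, Ph (θ a) ≤ (sph E).real (B a)) →
      ∃ (F : Fin t → Flow E) (τ : ℝ), 0 < τ ∧
        (∀ a s, 0 ≤ s → ∀ x, ‖x‖ = 1 → 0 < (F a).U (s, x) ∧ (F a).U (s, x) < 1) ∧
        (∀ a, ∫ x, |(F a).U (0, x) - (B a).indicator 1 x| ∂(sph E) ≤ ω) ∧
        finrank ℝ E * L ^ 2 ≤
          ∑ a, ∫ x, ‖tg (fun q => Ps ((F a).U q)) (τ, x)‖ ^ 2 ∂(sph E) ∧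
        ∫ g, ∑ a, ∑ b, ‖tg (fun q => Ps ((F a).U q)) (τ, ap g (z a)) -
            tg (fun q => Ps ((F b).U q)) (τ, ap g (z b))‖ ^ 2 ∂(haar E) ≤
          η * ∑ a, ∫ x, ‖tg (fun q => Ps ((F a).U q)) (τ, x)‖ ^ 2 ∂(sph E) := by
  classical
  have ht2 : 2 ≤ t := by omega
  have ht' : (3 : ℝ) ≤ t := by exact_mod_cast ht
  obtain ⟨γs, hγs, ks, hs⟩ := sse_flow ((η / 2) ^ 2 / (256 * t ^ 4)) (by positivity)
  obtain ⟨xs, hxs0, hxs1, hxs2⟩ : ∃ xs, 0 < xs ∧ xs ≤ γs / 2 ∧ xs ≤ 1 / 4 :=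
    ⟨min (γs / 2) (1 / 4), by positivity, min_le_left _ _, min_le_right _ _⟩
  obtain ⟨S, γ, M, b, ε₁, hS2, hγ0, hγ1, hMS, hε₁, e2, e1, e3, hlM, hbb, r2, r3⟩ :=
    good_consts t ht R L hη hω hxs0
  obtain ⟨Lg, hLg⟩ : ∃ Lg, Lg = log (S ^ 2 + 1) := ⟨_, rfl⟩
  obtain ⟨M₁, hM₁⟩ : ∃ M₁ : ℝ, M₁ = t * (M + 1) + 2 := ⟨_, rfl⟩
  rw [← hLg, ← hM₁] at hlM r2
  rw [← hLg] at r3
  have hLg0 : 0 < Lg := hLg ▸ log_pos (lt_add_of_pos_left _ (by positivity))
  have hM0 : 0 ≤ M₁ := by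
    have : 0 ≤ M + 1 := by linarith
    rw [hM₁]
    positivity
  have hδ0 : 0 < γ / t := by positivity
  have hδ1 : γ / t ≤ 1 := (div_le_one (by linarith)).2 (by linarith)
  obtain ⟨K, hK, hY⟩ := exists_Y t ht2 (R := S) hM0 hγ0 hγ1
  obtain ⟨n, hn⟩ := exists_nat_ge (2 * t * (4 * t * M₁ ^ 2 + 1))
  have hl0 : 0 ≤ log (M₁ ^ 2 + 1) := log_nonneg (le_add_of_nonneg_left (sq_nonneg _))
  obtain ⟨ε, hε, k₁, hk₁, hsm⟩ := exists_small_mul t (K := K * (t * M₁ ^ 2) +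
    t * log (M₁ ^ 2 + 1) * ((n + 3) ^ 2 * (t * M₁) ^ (n + 1) * (t * M₁ ^ 2))) (by positivity) one_pos
  obtain ⟨ε', hε', f1, f2, f3⟩ : ∃ ε' : ℝ, 0 < ε' ∧ ε' ≤ ε ∧ ε' ≤ 0.02 ∧ ε' ≤ 1 / (t - 1) :=
    ⟨min ε (min 0.02 (1 / (t - 1))), lt_min hε (lt_min (by norm_num) (one_div_pos.2 (by linarith))),
      min_le_left _ _, (min_le_right _ _).trans (min_le_left _ _),
      (min_le_right _ _).trans (min_le_right _ _)⟩
  refine ⟨γ, hγ0, ε', hε', max (max k₁ ks) 3,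
    fun E _ _ _ _ _ _ hE z hz B hB hf θ hθ hsum hθB => ?_⟩
  have hE3 : 3 ≤ finrank ℝ E := le_of_max_le_right hE
  have hE2 : 2 ≤ finrank ℝ E := by omega
  have := nontrivial_of_two_le hE2
  have hkk := kk_pos hE2
  have hθ' : ∀ a, |θ a| ≤ |R| := fun a => (hθ a).trans (le_abs_self R)
  obtain ⟨F, T, hT, hD, h0, h1, h2, h3⟩ := setup hE2 ht2 hz.1 hB hf hθ' hθB hδ0 (M := M)
    (by linarith) hε₁ e3
  rw [← hM₁] at hD
  obtain ⟨Y, hY1, hY2, hY3⟩ := hY E _ hD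
  have hx : ∀ (g : G E) a, ‖ga g z a‖ = 1 := fun g => (hz.ga g).1
  have hsm' := hsm _ (le_of_max_le_left (le_of_max_le_left hE)) ε' f1
  change _ * (ε' * t + t / kk E) ≤ 1 at hsm'
  have hc0 : 0 ≤ ε' * t + t / kk E := by positivity
  have g1 : 0 ≤ K * (t * M₁ ^ 2) * (ε' * t + t / kk E) := by positivity
  have g2 : 0 ≤ t * log (M₁ ^ 2 + 1) * ((n + 3) ^ 2 * (t * M₁) ^ (n + 1) * (t * M₁ ^ 2)) *
    (ε' * t + t / kk E) := by positivity
  -- the potential at the end points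
  have hX0 : Lg / 2 ≤ ev E z (XX (fun a => (F a).U) 1) 0 := by
    obtain ⟨N, hN, hN1, hN2⟩ := h3 ⟨0, by omega⟩
    rw [hLg]
    exact hD.XX_zero_ge hz.1 _ hN (hN1.trans e2) (by linarith) fun x hx hxN =>
      hMS.trans (hN2 x hx hxN)
  have hXT : ev E z (XX (fun a => (F a).U) 1) T ≤ Lg * xs := by
    have c1 := fun g : G E => (hD.supF' ht2 (n := n) (by linarith) hε'.le hT
      (hz.ga g)).sm.continuousAt
    have c2 := fun g : G E => (continuousAt_const (y := t * log (M₁ ^ 2 + 1))).mul (c1 g)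
    have h4 := ev_mono (f' := fun q => t * (t * (|R| + 1)) ^ 2 + t * log (M₁ ^ 2 + 1) *
      pp (n + 3) (∑ a, uu (fun a => (F a).U) a q)) (fun g => hD.contX hT (hx g))
      (fun g => continuousAt_const.add (c2 g)) fun g => hD.XX_le hT (hx g)
        (le_add_of_nonneg_left (abs_nonneg R)) (fun a => le_trans
          (by linarith [neg_le_of_abs_le (hθ' a)]) (h1 a _ (hx g a))) _
    rw [ev_add (f := fun _ => t * (t * (|R| + 1)) ^ 2) (f' := fun q => t * log (M₁ ^ 2 + 1) *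
      pp (n + 3) (∑ a, uu (fun a => (F a).U) a q)) (fun _ => continuousAt_const) c2, ev_const,
      ev_const_mul] at h4
    have h5 := mul_le_mul_of_nonneg_left (hD.evF_le hM0 hE2 ht2 (n := n) (by linarith) hε'.le hz h0 hT)
      (show 0 ≤ t * log (M₁ ^ 2 + 1) by positivity)
    linarith
  have hLx : 0 < Lg * xs := by positivity
  obtain ⟨s, hs', hXs⟩ := intermediate_value_Icc' hT
    (continuousOn_ev (E := E) (z := z) (f := XX (fun a => (F a).U) 1)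
      fun r hr g => hD.contX hr.1 (hx g))
    (show 2 * (Lg * xs) ∈ Icc _ _ from ⟨by linarith, by
      linarith [mul_le_mul_of_nonneg_left hxs2 hLg0.le]⟩)
  have hsT : s < T := lt_of_le_of_ne hs'.2 (by
    rintro rfl
    linarith)
  -- the comparison flows
  have hδ' : 0 < xs / (2 * t) := by positivity
  have hδ'' : xs / (2 * t) ≤ 1 / 8 := by
    rw [div_le_iff₀ (by positivity)]
    linarith
  choose J hJ using fun c => exists_flow_near hE2
    (f := fun x => (2 * Lg)⁻¹ * log (Ps ((F c).U (s, x)) ^ 2 + 1) + xs / (2 * t))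
    ((continuousOn_const.mul (hD.contOn_ll c hs'.1)).add continuousOn_const) (half_pos hδ')
  have hl2 : 0 < (2 * Lg)⁻¹ := by positivity
  have hj0 : ∀ v : ℝ, 0 ≤ (2 * Lg)⁻¹ * log (v ^ 2 + 1) := fun v =>
    mul_nonneg hl2.le (log_nonneg (le_add_of_nonneg_left (sq_nonneg _)))
  have hJ01 : ∀ c w, ‖w‖ = 1 → 0 < (J c).U (0, w) ∧ (J c).U (0, w) < 1 := by
    intro c w hw
    have h4 := abs_le.1 (hJ c w hw)
    have h5 : (2 * Lg)⁻¹ * log (Ps ((F c).U (s, w)) ^ 2 + 1) ≤ 3 / 4 := by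
      rw [inv_mul_le_iff₀ (by positivity)]
      refine le_trans (log_le_log (by positivity) (add_le_add_left ?_ _)) (hlM.trans (by linarith))
      rw [← sq_abs]
      exact pow_le_pow_left₀ (abs_nonneg _) (hD.abs_Ps_le c hs'.1 hw) 2
    constructor <;> linarith [hj0 (Ps ((F c).U (s, w)))]
  have hJp : ∀ c, 0 ≤ ∫ w, (J c).U (0, w) ∂(sph E) := fun c => integral_nonneg_of_ae
    ((ae_norm (E := E)).mono fun w hw => (hJ01 c w hw).1.le)
  have hJs : ∑ c, ∫ w, (J c).U (0, w) ∂(sph E) ≤ 2 * xs := by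
    have h4 : ∀ c, ∫ w, (J c).U (0, w) ∂(sph E) ≤
        (2 * Lg)⁻¹ * ∫ w, log (Ps ((F c).U (s, w)) ^ 2 + 1) ∂(sph E) + xs / t := by
      intro c
      have i1 := (integrable_of_continuousOn (hD.contOn_ll c hs'.1)).const_mul (2 * Lg)⁻¹
      refine (integral_mono_ae ((J c).isHeat.integrable 0) (i1.fun_add (integrable_const (xs / t)))
        ((ae_norm (E := E)).mono fun w hw => ?_)).trans_eq ?_
      · have h5 : xs / t = 2 * (xs / (2 * t)) := by field_simp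
        linarith [le_of_abs_le (hJ c w hw)]
      · rw [integral_add i1 (integrable_const _), integral_const_mul]
        simp
    refine (Finset.sum_le_sum fun c _ => h4 c).trans_eq ?_
    rw [Finset.sum_add_distrib, ← Finset.mul_sum, sum_fin_const, ← hD.ev_XX hs'.1 hz.1, hXs]
    field_simp
    ring
  have hΘ : ∀ a c, ∃ Θ : Flow E, c ≠ a → (∀ τ, ∀ h : E → ℝ, ContinuousOn h {w : E | ‖w‖ = 1} →
      ∫ g, h (ap g (z a)) * (J c).U (τ, ap g (z c)) ∂(haar E) =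
        ∫ w, h w * Θ.U (τ, w) ∂(sph E)) ∧ ∫ w, Θ.U (0, w) ^ 2 ∂(sph E) ≤
          (η / 2) ^ 2 / (256 * t ^ 4) * ∫ w, (J c).U (0, w) ∂(sph E) := by
    intro a c
    by_cases hac : c = a
    · exact ⟨J c, fun h => absurd hac h⟩
    have h4 := abs_le.1 (hz.2 a c (Ne.symm hac))
    have h5 : 1 / ((t : ℝ) - 1) ≤ 1 / 2 := one_div_le_one_div_of_le two_pos (by linarith)
    obtain ⟨Θ, hΘ⟩ := hs E (le_of_max_le_right (le_of_max_le_left hE)) (z a) (z c) (hz.1 a) (hz.1 c)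
      (by linarith) (by linarith) (J c) (hJ01 c) (by
        linarith [Finset.single_le_sum (fun c _ => hJp c) (Finset.mem_univ c)])
    exact ⟨Θ, fun _ => hΘ⟩
  choose Θ hΘ using hΘ
  obtain ⟨τ, hτ, hmain⟩ := hD.core hE2 ht2 hε'.le hz (R := S) (η := η / 2)
    (A := 12 * L ^ 2 + 4 * t) (k := kk E - 1) (b := b) (xs := Lg * xs)
    (e₀ := t * ((η / 2) ^ 2 / (256 * t ^ 4) * (2 * xs))) hS2 hK (half_pos hη) (by positivity)
    (by
      have : (3 : ℝ) ≤ finrank ℝ E := by exact_mod_cast hE3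
      unfold kk
      linarith) (by linarith) (hY1 ε' hε'.le) (fun g => hY2 _ (h0 g)) hs'.1 hsT
    (fun g => le_trans (neg_le_neg hbb) (hY3 T hT _ (hx g) (by
      have h4 := Finset.sum_le_sum fun a (_ : a ∈ Finset.univ) => h1 a _ (hx g a)
      rw [Finset.sum_sub_distrib, sum_fin_const, mul_div_cancel₀ _ (by positivity)] at h4
      exact le_trans (by linarith) h4)))
    (J := fun c q => (J c).U (q.1 + -s, q.2)) (fun c => (J c).isHeat.shift _)
    (fun c x hx => by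
      simp only [add_neg_cancel, ← hLg]
      linarith [neg_le_of_abs_le (hJ c x hx)])
    (Θ := fun a c q => (Θ a c).U (q.1 + -s, q.2)) (fun a c => (Θ a c).isHeat.shift _)
    (fun a c hac τ => (hΘ a c hac).1 (τ + -s))
    (by
      simp only [add_neg_cancel]
      refine (Finset.sum_le_sum fun a _ => ?_).trans_eq (sum_fin_const _)
      refine (Finset.sum_le_sum fun c hc => (hΘ a c (Finset.mem_erase.1 hc).1).2).trans ?_
      rw [← Finset.mul_sum]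
      exact mul_le_mul_of_nonneg_left ((Finset.sum_le_sum_of_subset_of_nonneg
        (Finset.erase_subset _ _) fun c _ _ => hJp c).trans hJs) (by positivity))
    (by linarith)
    (by
      have h4 : 64 * t ^ 3 * log (S ^ 2 + 1) / (η / 2) *
          (t * ((η / 2) ^ 2 / (256 * t ^ 4) * (2 * xs))) = Lg * (η / 4 * xs) := by
        rw [← hLg]
        field_simp
        ring
      rw [h4]
      linarith)
  have hτ0 : 0 < τ := hs'.1.trans_lt hτ.1
  have h01 : ∀ a r, 0 ≤ r → ∀ x, ‖x‖ = 1 → 0 < (F a).U (r, x) ∧ (F a).U (r, x) < 1 :=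
    fun a r hr x hx => ⟨hD.pos a hr hx, hD.lt_one a hr hx⟩
  rw [hD.ev_En hτ0.le hz.1] at hmain
  have hD0 : 0 ≤ ev E z (fun q => Dd (gg (fun a => (F a).U) q)) τ :=
    integral_nonneg fun g => Dd_nonneg _
  refine ⟨F, τ, hτ0, h01, fun a => (h2 a).trans e1, ?_, ?_⟩
  · refine energy_ge ht hE3 (half_pos hη) hτ0 hD0 hmain ?_
    refine (Finset.sum_le_sum fun a _ => ?_).trans_eq (sum_fin_const _)
    rw [← ev_unit (hz.1 a) (f := fun p => ‖tg (fun q => Ps ((F a).U q)) p‖ ^ 2)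
      fun y hy => (hD.cont_tg a hτ0.le hy).norm.pow 2]
    exact ev_le_const (fun g => (hD.cont_tg a hτ0.le (hx g a)).norm.pow 2) fun g =>
      grad_bound hE3 (F a).isHeat (h01 a) hτ0 (hx g a)
  · have h4 : 0 ≤ η / 2 * (12 * L ^ 2 + 4 * t) * ((kk E - 1) * exp (-(kk E - 1) * τ)) := by
      have : (3 : ℝ) ≤ finrank ℝ E := by exact_mod_cast hE3
      have : 0 ≤ kk E - 1 := by
        unfold kk
        linarith
      positivity
    change ev E z (fun q => Dd (gg (fun a => (F a).U) q)) τ ≤ _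
    linarith

end Pool.Agent.BL
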