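import Pool.Agent.P.MP_edb112_gt.Multi

/-! The Bellman function for the stability estimate. -/

set_option autoImplicit false
set_option linter.unusedSectionVars false

open MeasureTheory Set Module Filter Real
open scoped RealInnerProductSpace Topology

noncomputable section

namespace Pool.Agent.BL

variable {E : Type} [NormedAddCommGroup E] [InnerProductSpace ℝ E] [FiniteDimensional ℝ E]
  [CompleteSpace E] [MeasurableSpace E] [BorelSpace E] {t : ℕ}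

/-- the small exponent -/
def kap (t : ℕ) : ℝ := 1 / (64 * t ^ 2)

/-- the weight function -/
def HH (t : ℕ) (γ C Q : ℝ) : ℝ :=
  exp (kap t / 2 * log ((γ - C) ^ 2 + γ ^ 2 / 16) - 1 / (8 * t) * Q)

/-- lower bound of the logarithmic heat image of the weight function -/
def Om (t : ℕ) (γ C S Γ e Q : ℝ) : ℝ :=
  kap t * (1 / 2 * ((γ - C) / ((γ - C) ^ 2 + γ ^ 2 / 16)) * S -
      Γ / (2 * ((γ - C) ^ 2 + γ ^ 2 / 16)) +
      (1 - kap t) * ((γ - C) / ((γ - C) ^ 2 + γ ^ 2 / 16)) ^ 2 * Γ) +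
    1 / (8 * t) * e + 1 / (16 * t) * Q

theorem kap_pos (ht : 2 ≤ t) : 0 < kap t := by
  have : (2 : ℝ) ≤ t := by exact_mod_cast ht
  unfold kap
  positivity

theorem kap_le (ht : 2 ≤ t) : kap t ≤ 1 / 8 := by
  have : (2 : ℝ) ≤ t := by exact_mod_cast ht
  unfold kap
  exact one_div_le_one_div_of_le (by norm_num) (by nlinarith)

theorem HH_pos (γ C Q : ℝ) : 0 < HH t γ C Q := exp_pos _

theorem HH_le (ht : 2 ≤ t) {γ C Q Y : ℝ} (hγ : 0 < γ) (hQ : 0 ≤ Q)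
    (hY : (γ - C) ^ 2 + γ ^ 2 / 16 ≤ Y) : HH t γ C Q ≤ exp (kap t / 2 * log Y) := by
  have h1 := log_le_log (by positivity) hY
  have h2 : 0 ≤ 1 / (8 * (t : ℝ)) * Q := by positivity
  refine exp_le_exp.2 ?_
  nlinarith [kap_pos ht]

theorem HH_le' (ht : 2 ≤ t) {γ C Q b : ℝ} (hγ : 0 < γ) (hγ1 : γ ≤ 1) (hQ : 0 ≤ Q)
    (hC : |C| ≤ b) : HH t γ C Q ≤ (b + 1) ^ 2 + 1 := by
  have h0 := abs_le.1 hC
  have h1 : (γ - C) ^ 2 ≤ (b + 1) ^ 2 := sq_le_sq' (by linarith) (by linarith)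
  refine (HH_le ht hγ hQ (Y := (b + 1) ^ 2 + 1) (by nlinarith)).trans ?_
  have h2 : 0 ≤ log ((b + 1) ^ 2 + 1) := log_nonneg (by nlinarith)
  calc _ ≤ exp (log ((b + 1) ^ 2 + 1)) := exp_le_exp.2 (by nlinarith [kap_pos ht, kap_le ht])
    _ = _ := exp_log (by positivity)

theorem HH_ge (ht : 2 ≤ t) {γ C Q R : ℝ} (hγ : 0 < γ) (hγ1 : γ ≤ 1) (hQ : Q ≤ t * R ^ 2)
    (hC : |C| ≤ t * R) (hx : C ≤ γ / 2) : 4 / 5 * exp (-(R ^ 2 / 8)) / ((t * R + 1) ^ 2 + 1) ≤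
      HH t γ C Q * ((γ - C) / ((γ - C) ^ 2 + γ ^ 2 / 16)) ^ 2 := by
  have ht' : (2 : ℝ) ≤ t := by exact_mod_cast ht
  have h0 := abs_le.1 hC
  have h1 : (γ - C) ^ 2 ≤ (t * R + 1) ^ 2 := sq_le_sq' (by linarith) (by linarith)
  have hy : 0 < (γ - C) ^ 2 + γ ^ 2 / 16 := by positivity
  have h3 : 4 / 5 * ((γ - C) ^ 2 + γ ^ 2 / 16) ≤ (γ - C) ^ 2 := by nlinarith
  have hYy : (γ - C) ^ 2 + γ ^ 2 / 16 ≤ (t * R + 1) ^ 2 + 1 := by nlinarith
  have h4 := log_le_log hy hYy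
  have h5 : 0 ≤ log ((t * R + 1) ^ 2 + 1) := log_nonneg (by nlinarith)
  have h6 : 1 / (8 * (t : ℝ)) * Q ≤ R ^ 2 / 8 := by
    rw [div_mul_eq_mul_div, div_le_div_iff₀ (by positivity) (by norm_num)]
    nlinarith
  set y := (γ - C) ^ 2 + γ ^ 2 / 16
  set Y := (t * R + 1) ^ 2 + 1
  have hY : 0 < Y := hy.trans_le hYy
  have h7 : exp (-(R ^ 2 / 8)) * (y / Y) ≤ HH t γ C Q := by
    rw [← exp_log (div_pos hy hY), ← exp_add, log_div hy.ne' hY.ne']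
    refine exp_le_exp.2 ?_
    nlinarith [kap_pos ht, kap_le ht]
  have h8 : 4 / 5 / y ≤ ((γ - C) / y) ^ 2 := by
    rw [div_pow, div_le_div_iff₀ hy (by positivity)]
    nlinarith
  calc _ = exp (-(R ^ 2 / 8)) * (y / Y) * (4 / 5 / y) := by field_simp
    _ ≤ _ := mul_le_mul h7 h8 (by positivity) (HH_pos _ _ _).le

theorem Om_geA (ht : 2 ≤ t) {γ C S Γ e Q D r P s : ℝ} (hγ : 0 < γ) (hx : C ≤ γ / 2) (hΓ : 0 ≤ Γ)
    (h1 : D / (2 * t) - r ≤ Γ) (h2 : C * s - 2 * P ≤ S) (hs : 0 ≤ s) (hse : s ≤ e)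
    (hP : ∀ l, 0 ≤ l → l * P ≤ l ^ 2 * D / (16 * t) + 4 * t * Q) :
    kap t * ((γ - C) / ((γ - C) ^ 2 + γ ^ 2 / 16)) ^ 2 * (D / (16 * t) - r / 4) ≤
      Om t γ C S Γ e Q := by
  have ht' : (2 : ℝ) ≤ t := by exact_mod_cast ht
  have hy : 0 < (γ - C) ^ 2 + γ ^ 2 / 16 := by positivity
  have hk := kap_pos ht
  have hk' := kap_le ht
  have h3 : (γ - C) ^ 2 + γ ^ 2 / 16 ≤ 5 / 4 * (γ - C) ^ 2 := by nlinarith
  have hl : 0 ≤ (γ - C) / ((γ - C) ^ 2 + γ ^ 2 / 16) := div_nonneg (by linarith) hy.le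
  have h4 : (γ - C) / ((γ - C) ^ 2 + γ ^ 2 / 16) * (γ - C) ≤ 1 := by
    rw [div_mul_eq_mul_div, div_le_one hy]
    nlinarith
  have h5 : 1 / (2 * ((γ - C) ^ 2 + γ ^ 2 / 16)) ≤
      5 / 8 * ((γ - C) / ((γ - C) ^ 2 + γ ^ 2 / 16)) ^ 2 := by
    rw [div_pow, mul_div_assoc', div_le_div_iff₀ (by positivity) (by positivity)]
    nlinarith
  have h6 := hP _ hl
  unfold Om
  rw [div_eq_mul_one_div Γ]
  set y := (γ - C) ^ 2 + γ ^ 2 / 16
  set l := (γ - C) / y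
  have h7 : 1 / 4 * l ^ 2 * (D / (2 * t) - r) ≤ -(Γ * (1 / (2 * y))) + (1 - kap t) * l ^ 2 * Γ := by
    nlinarith [mul_le_mul_of_nonneg_left h5 hΓ, mul_le_mul_of_nonneg_left h1 (sq_nonneg l),
      mul_le_mul_of_nonneg_right hk' (mul_nonneg (sq_nonneg l) hΓ)]
  have h8 : -s - 2 * (l * P) ≤ l * S := by
    nlinarith [mul_le_mul_of_nonneg_left h2 hl, mul_le_mul_of_nonneg_right h4 hs,
      mul_nonneg (mul_nonneg hl hγ.le) hs]
  have h9 : kap t * (4 * t) = 1 / (16 * t) := by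
    unfold kap
    field_simp
    norm_num
  have h10 : kap t / 2 ≤ 1 / (8 * t) := by
    unfold kap
    rw [div_div, div_le_div_iff₀ (by positivity) (by positivity)]
    nlinarith
  have h11 : D / (2 * t) = 8 * (D / (16 * t)) := by
    field_simp
    ring
  have h12 : kap t / 2 * s ≤ 1 / (8 * t) * e := mul_le_mul h10 hse hs (by positivity)
  rw [mul_div_assoc] at h6
  rw [h11] at h7
  rw [← h9]
  nlinarith [mul_le_mul_of_nonneg_left h6 hk.le, mul_le_mul_of_nonneg_left h7 hk.le,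
    mul_le_mul_of_nonneg_left h8 hk.le]

theorem Om_geB (ht : 2 ≤ t) {γ C S Γ e Q M : ℝ} (hγ : 0 < γ) (hΓ : 0 ≤ Γ) (h1 : Γ ≤ t * e)
    (h2 : |S| ≤ M * e) (he : 0 ≤ e) (hQ : 0 ≤ Q) :
    -((M / γ + 8 * t / γ ^ 2) * e) ≤ Om t γ C S Γ e Q := by
  have hy : 0 < (γ - C) ^ 2 + γ ^ 2 / 16 := by positivity
  have hk := kap_pos ht
  have hk' := kap_le ht
  have h3 : |(γ - C) / ((γ - C) ^ 2 + γ ^ 2 / 16)| ≤ 2 / γ := by
    rw [abs_div, abs_of_pos hy, div_le_div_iff₀ hy hγ]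
    nlinarith [sq_nonneg (|γ - C| - γ / 4), sq_abs (γ - C)]
  have h4 : Γ / (2 * ((γ - C) ^ 2 + γ ^ 2 / 16)) ≤ 8 * t / γ ^ 2 * e := by
    rw [div_mul_eq_mul_div, div_le_div_iff₀ (by positivity) (by positivity)]
    nlinarith [mul_le_mul_of_nonneg_right h1 (sq_nonneg γ), mul_nonneg (hΓ.trans h1) (sq_nonneg (γ - C))]
  unfold Om
  set l := (γ - C) / ((γ - C) ^ 2 + γ ^ 2 / 16)
  have h5 : |l * S| ≤ 2 / γ * (M * e) := by
    rw [abs_mul]
    exact mul_le_mul h3 h2 (abs_nonneg _) (by positivity)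
  have h6 := neg_le_of_abs_le h5
  have h7 : 0 ≤ (1 - kap t) * l ^ 2 * Γ := mul_nonneg (mul_nonneg (by linarith) (sq_nonneg _)) hΓ
  have h8 : 0 ≤ 1 / (8 * (t : ℝ)) * e + 1 / (16 * t) * Q := by positivity
  have h9 : 0 ≤ 2 / γ * (M * e) := (abs_nonneg _).trans h5
  have h10 : 0 ≤ 8 * t / γ ^ 2 * e := by positivity
  have h11 : (M / γ + 8 * t / γ ^ 2) * e = 1 / 2 * (2 / γ * (M * e)) + 8 * t / γ ^ 2 * e := by ring
  rw [h11]
  nlinarith

theorem cross_le (ht : 2 ≤ t) (g : Fin t → E) (s : Fin t) (u : Fin t → ℝ) (l : ℝ) :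
    l * ∑ a, |u a| * ‖g a‖ * ‖g a - g s‖ ≤
      l ^ 2 * Dd g / (16 * t) + 4 * t * ∑ a, u a ^ 2 * ‖g a‖ ^ 2 := by
  have ht' : (2 : ℝ) ≤ t := by exact_mod_cast ht
  calc _ ≤ ∑ a, (l ^ 2 / (16 * t) * ‖g a - g s‖ ^ 2 + 4 * t * (u a ^ 2 * ‖g a‖ ^ 2)) := by
        rw [Finset.mul_sum]
        refine Finset.sum_le_sum fun a _ => ?_
        rw [← sq_abs (u a), ← sub_nonneg]
        have : l ^ 2 / (16 * t) * ‖g a - g s‖ ^ 2 + 4 * t * (|u a| ^ 2 * ‖g a‖ ^ 2) -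
            l * (|u a| * ‖g a‖ * ‖g a - g s‖) =
            (l * ‖g a - g s‖ - 8 * t * (|u a| * ‖g a‖)) ^ 2 / (16 * t) := by
          field_simp
          ring
        rw [this]
        positivity
    _ ≤ _ := by
        rw [Finset.sum_add_distrib, ← Finset.mul_sum, ← Finset.mul_sum, div_mul_eq_mul_div]
        gcongr
        exact sum_sub_le_Dd g s

namespace HD

variable {U : Fin t → ℝ × E → ℝ} {M τ : ℝ} {x : Fin t → E}

theorem supH (h : HD U M) (ht : 2 ≤ t) {γ : ℝ} (hγ : 0 < γ) (hτ : 0 ≤ τ) (hx : ∀ a, ‖x a‖ = 1) :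
    Sup E (fun q => -HH t γ (∑ a, uu U a q) (∑ a, uu U a q ^ 2)) (τ, x)
      (-(HH t γ (∑ a, uu U a (τ, x)) (∑ a, uu U a (τ, x) ^ 2) *
        Om t γ (∑ a, uu U a (τ, x)) (∑ a, uu U a (τ, x) * ‖gg U (τ, x) a‖ ^ 2)
          (‖∑ a, wv (x a) (gg U (τ, x) a)‖ ^ 2) (En (gg U (τ, x)))
          (∑ a, uu U a (τ, x) ^ 2 * ‖gg U (τ, x) a‖ ^ 2))) := by
  have ht' : (2 : ℝ) ≤ t := by exact_mod_cast ht
  have hy : 0 < (γ - ∑ a, uu U a (τ, x)) ^ 2 + γ ^ 2 / 16 := by positivity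
  have hj := ((((((Jet.const γ).sub (h.jetC hτ hx)).sq.add_const (γ ^ 2 / 16)).log hy).const_mul
    (kap t / 2)).sub ((h.jetQ hτ hx).const_mul (1 / (8 * t)))).exp.neg
  refine HJet.sup hj (neg_le_neg (mul_le_mul_of_nonneg_left ?_ (exp_pos _).le))
  have h1 := gamma_le hx (perp (U := U) (τ := τ) hx) fun a => 2 * uu U a (τ, x)
  simp only [mul_pow, mul_assoc, ← Finset.mul_sum] at h1
  unfold Om
  set W := ∑ a, wv (x a) (gg U (τ, x) a)
  set V := ∑ a, (2 * uu U a (τ, x)) • wv (x a) (gg U (τ, x) a)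
  set C := ∑ a, uu U a (τ, x)
  set y := (γ - C) ^ 2 + γ ^ 2 / 16
  set Q := ∑ a, uu U a (τ, x) ^ 2 * ‖gg U (τ, x) a‖ ^ 2
  have e1 : (kap t / 2) • y⁻¹ • (2 * (γ - C)) • (0 - W) = -(kap t * ((γ - C) / y)) • W := by
    simp only [smul_smul, zero_sub, smul_neg, neg_smul]
    congr 2
    field_simp
  have h2 : ‖-(kap t * ((γ - C) / y)) • W - (1 / (8 * (t : ℝ))) • V‖ ^ 2 ≤
      2 * ((kap t * ((γ - C) / y)) ^ 2 * ‖W‖ ^ 2) + 2 * ((1 / (8 * (t : ℝ))) ^ 2 * ‖V‖ ^ 2) := by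
    have h3 := norm_sub_le (-(kap t * ((γ - C) / y)) • W) ((1 / (8 * (t : ℝ))) • V)
    have h4 := pow_le_pow_left₀ (norm_nonneg _) h3 2
    have e2 : ∀ (c : ℝ) (v : EuclideanSpace ℝ (Ix E)), c ^ 2 * ‖v‖ ^ 2 = ‖c • v‖ ^ 2 :=
      fun c v => by rw [norm_smul, mul_pow, Real.norm_eq_abs, sq_abs]
    rw [← neg_sq (kap t * ((γ - C) / y)), e2, e2]
    nlinarith [sq_nonneg (‖-(kap t * ((γ - C) / y)) • W‖ - ‖(1 / (8 * (t : ℝ))) • V‖)]
  have h5 : (1 / (8 * (t : ℝ))) ^ 2 * ‖V‖ ^ 2 ≤ 1 / (16 * t) * Q := by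
    refine (mul_le_mul_of_nonneg_left h1 (sq_nonneg _)).trans_eq ?_
    field_simp
    ring
  have e3 : ‖(2 * (γ - C)) • (0 - W)‖ ^ 2 = 4 * (γ - C) ^ 2 * ‖W‖ ^ 2 := by
    rw [norm_smul, mul_pow, Real.norm_eq_abs, sq_abs, zero_sub, norm_neg]
    ring
  have e4 : 1 / (8 * (t : ℝ)) = 2 * (1 / (16 * t)) := by
    field_simp
    norm_num
  rw [e1, e3, zero_sub W, norm_neg]
  refine le_trans (le_of_eq ?_) (sub_le_sub_left (mul_le_mul_of_nonneg_left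
    (h2.trans (add_le_add_right (mul_le_mul_of_nonneg_left h5 zero_le_two) _)) one_half_pos.le) _)
  rw [e4]
  field_simp
  ring

end HD

open Classical in
/-- the Bellman function of the stability estimate -/
theorem exists_Y (t : ℕ) (ht : 2 ≤ t) {M R γ : ℝ} (hM : 0 ≤ M) (hγ : 0 < γ) (hγ1 : γ ≤ 1) :
    ∃ K, 0 ≤ K ∧ ∀ (E : Type) [NormedAddCommGroup E] [InnerProductSpace ℝ E]
      [FiniteDimensional ℝ E] [CompleteSpace E] [MeasurableSpace E] [BorelSpace E]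
      (U : Fin t → ℝ × E → ℝ), HD U M → ∃ Y : ℝ × (Fin t → E) → ℝ,
      (∀ ε, 0 ≤ ε → ∀ τ, 0 ≤ τ → ∀ x, Near t ε x → Sup E Y (τ, x) (K * Er ε x (gg U (τ, x)) -
        if ∀ a, |uu U a (τ, x)| ≤ R then Dd (gg U (τ, x)) else 0)) ∧
      (∀ q, ∑ a, uu U a q ≤ 0 → Y q ≤ 0) ∧
      ∀ τ, 0 ≤ τ → ∀ x, (∀ a, ‖x a‖ = 1) → -(2 * γ) ≤ ∑ a, uu U a (τ, x) →
        -(exp (kap t * log (4 * γ)) * (20 * t * ((t * R + 1) ^ 2 + 1) * exp (R ^ 2 / 8) / kap t)) ≤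
          Y (τ, x) := by
  have ht' : (2 : ℝ) ≤ t := by exact_mod_cast ht
  have hk := kap_pos ht
  have hk' := kap_le ht
  obtain ⟨n, hn⟩ := exists_nat_ge (2 * t * (4 * t * M ^ 2 + 1))
  obtain ⟨c, hc⟩ : ∃ c, c = 20 * t * ((t * R + 1) ^ 2 + 1) * exp (R ^ 2 / 8) / kap t := ⟨_, rfl⟩
  have hc0 : 0 < c := by rw [hc]; positivity
  obtain ⟨B, hB⟩ : ∃ B, B = (t * M + 1) ^ 2 + 1 := ⟨_, rfl⟩
  have hB0 : 0 < B := by rw [hB]; positivity
  obtain ⟨K₃, hK₃⟩ : ∃ K₃, K₃ = c * B / γ ^ (n + 3) +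
    (c * B * (M / γ + 8 * t / γ ^ 2) + 2 * t) / ((γ / 2) ^ (n + 1) * (γ ^ 2 / (16 * t))) := ⟨_, rfl⟩
  have hK0 : 0 ≤ K₃ := by rw [hK₃]; positivity
  have hK1 : c * B ≤ K₃ * γ ^ (n + 3) := by
    rw [← div_le_iff₀ (by positivity), hK₃]
    exact le_add_of_nonneg_right (by positivity)
  have hK2 : c * B * (M / γ + 8 * t / γ ^ 2) + 2 * t ≤
      K₃ * ((γ / 2) ^ (n + 1) * (γ ^ 2 / (16 * t))) := by
    rw [← div_le_iff₀ (by positivity), hK₃]
    exact le_add_of_nonneg_left (by positivity)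
  refine ⟨K₃ * ((n + 3) ^ 2 * (t * M) ^ (n + 1)) + c * B / γ ^ 2, by positivity,
    fun E _ _ _ _ _ _ U h => ⟨fun q => K₃ * pp (n + 3) (∑ a, uu U a q) +
      c * -HH t γ (∑ a, uu U a q) (∑ a, uu U a q ^ 2), fun ε hε τ hτ x hx => ?_, fun q hq => ?_,
      fun τ hτ x hx hC => ?_⟩⟩
  · obtain ⟨s, hs⟩ := exists_shortest ht (gg U (τ, x))
    refine (((h.supF ht (by linarith) hε hτ hx hs).const_mul hK0).add
      ((h.supH ht hγ hτ hx.1).const_mul hc0.le)).mono ?_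
    have hQ : 0 ≤ ∑ a, uu U a (τ, x) ^ 2 := Finset.sum_nonneg fun _ _ => sq_nonneg _
    have h1 := HH_le' ht hγ hγ1 hQ (abs_sum_le (h.abs_le hτ hx.1))
    rw [← hB] at h1
    have h2 := HH_pos (t := t) γ (∑ a, uu U a (τ, x)) (∑ a, uu U a (τ, x) ^ 2)
    have h3 := Er_nonneg hε x (gg U (τ, x))
    have h4 := Dd_nonneg (gg U (τ, x))
    have h5 := En_nonneg (gg U (τ, x))
    rcases le_total (∑ a, uu U a (τ, x)) (γ / 2) with hC | hC
    · have h6 := Om_geA ht hγ hC (sq_nonneg _) (gamma_ge ht hε (g := gg U (τ, x)) hx)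
        (sum_u_ge hs fun a => uu U a (τ, x)) (sq_nonneg _)
        (Finset.single_le_sum (f := fun a => ‖gg U (τ, x) a‖ ^ 2) (fun _ _ => sq_nonneg _)
          (Finset.mem_univ s)) fun l _ => cross_le ht _ s _ l
      have h7 : ((γ - ∑ a, uu U a (τ, x)) / ((γ - ∑ a, uu U a (τ, x)) ^ 2 + γ ^ 2 / 16)) ^ 2 ≤
          4 / γ ^ 2 := by
        rw [div_pow, div_le_div_iff₀ (by positivity) (by positivity)]
        nlinarith [sq_nonneg ((γ - ∑ a, uu U a (τ, x)) ^ 2 - γ ^ 2 / 16)]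
      have h8 : (if ∀ a, |uu U a (τ, x)| ≤ R then Dd (gg U (τ, x)) else 0) ≤
          c * (HH t γ (∑ a, uu U a (τ, x)) (∑ a, uu U a (τ, x) ^ 2) *
            ((γ - ∑ a, uu U a (τ, x)) / ((γ - ∑ a, uu U a (τ, x)) ^ 2 + γ ^ 2 / 16)) ^ 2) *
            kap t * (Dd (gg U (τ, x)) / (16 * t)) := by
        split_ifs with hg
        · have h9 : ∑ a, uu U a (τ, x) ^ 2 ≤ t * R ^ 2 := by
            have : ∀ a, uu U a (τ, x) ^ 2 ≤ R ^ 2 := fun a => by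
              rw [← sq_abs]
              exact pow_le_pow_left₀ (abs_nonneg _) (hg a) 2
            simpa using Finset.sum_le_sum fun a (_ : a ∈ Finset.univ) => this a
          refine le_trans (le_of_eq ?_) (mul_le_mul_of_nonneg_right (mul_le_mul_of_nonneg_right
            (mul_le_mul_of_nonneg_left (HH_ge ht hγ hγ1 h9 (abs_sum_le hg) hC) hc0.le) hk.le)
            (by positivity))
          rw [hc, exp_neg]
          field_simp
          ring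
        · positivity
      have h9 := mul_nonneg hK0 (mul_nonneg (pp_nonneg (n + 1) (∑ a, uu U a (τ, x)))
        (add_nonneg (by positivity : 0 ≤ 1 / 2 * (∑ a, uu U a (τ, x)) ^ 2 * ‖gg U (τ, x) s‖ ^ 2)
          h4))
      have h10 := mul_le_mul_of_nonneg_left h6 (mul_pos hc0 h2).le
      have h11 := mul_le_mul h1 h7 (sq_nonneg _) hB0.le
      have h12 := mul_le_mul h11 (hk'.trans (by norm_num : (1 : ℝ) / 8 ≤ 1)) hk.le (by positivity)
      have h13 := mul_le_mul_of_nonneg_left h12 (mul_nonneg hc0.le h3)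
      have e : c * B / γ ^ 2 = c * (B * (4 / γ ^ 2)) / 4 := by ring
      rw [e]
      unfold En at h10 ⊢
      linarith
    · have h6 := Om_geB ht (C := ∑ a, uu U a (τ, x))
        (S := ∑ a, uu U a (τ, x) * ‖gg U (τ, x) a‖ ^ 2)
        (Γ := ‖∑ a, wv (x a) (gg U (τ, x) a)‖ ^ 2) (e := En (gg U (τ, x)))
        (Q := ∑ a, uu U a (τ, x) ^ 2 * ‖gg U (τ, x) a‖ ^ 2) (M := M) hγ (sq_nonneg _)
        (by simpa [En] using gamma_le hx.1 (HD.perp (U := U) (τ := τ) hx.1) fun _ => 1)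
        (by
          refine (Finset.abs_sum_le_sum_abs _ _).trans ?_
          rw [En, Finset.mul_sum]
          refine Finset.sum_le_sum fun a _ => ?_
          rw [abs_mul, abs_of_nonneg (sq_nonneg ‖gg U (τ, x) a‖)]
          exact mul_le_mul_of_nonneg_right (h.abs_le hτ hx.1 a) (sq_nonneg _))
        h5 (Finset.sum_nonneg fun _ _ => by positivity)
      have h7 : (γ / 2) ^ (n + 1) ≤ pp (n + 1) (∑ a, uu U a (τ, x)) :=
        pow_le_pow_left₀ (by positivity) (le_max_of_le_left hC) _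
      have h8 : γ ^ 2 / (16 * t) * En (gg U (τ, x)) ≤
          1 / 2 * (∑ a, uu U a (τ, x)) ^ 2 * ‖gg U (τ, x) s‖ ^ 2 + Dd (gg U (τ, x)) := by
        have h9 := pow_le_pow_left₀ (by positivity) hC 2
        rw [div_mul_eq_mul_div, div_le_iff₀ (by positivity)]
        have h10 := mul_le_mul_of_nonneg_left (En_le (gg U (τ, x)) s) (sq_nonneg γ)
        have h11 := mul_le_mul_of_nonneg_right h9
          (show 0 ≤ t * ‖gg U (τ, x) s‖ ^ 2 by positivity)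
        have h12 : γ ^ 2 ≤ 1 := by nlinarith
        nlinarith [mul_le_mul_of_nonneg_right h12 h4, mul_le_mul_of_nonneg_right ht' h4]
      have h9 := mul_le_mul_of_nonneg_left (mul_le_mul h7 h8 (by positivity) (pp_nonneg _ _)) hK0
      have h10 := mul_le_mul_of_nonneg_right hK2 h5
      have h11 : (if ∀ a, |uu U a (τ, x)| ≤ R then Dd (gg U (τ, x)) else 0) ≤
          2 * t * En (gg U (τ, x)) := by
        split_ifs
        · exact Dd_le _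
        · positivity
      have h12 := mul_le_mul_of_nonneg_left h6 (mul_pos hc0 h2).le
      have h13 := mul_le_mul_of_nonneg_right h1
        (show 0 ≤ c * ((M / γ + 8 * t / γ ^ 2) * En (gg U (τ, x))) by positivity)
      have h14 : 0 ≤ c * B / γ ^ 2 * Er ε x (gg U (τ, x)) := by positivity
      linarith
  · have := mul_pos hc0 (HH_pos (t := t) γ (∑ a, uu U a q) (∑ a, uu U a q ^ 2))
    simp only [pp, max_eq_right hq, ne_eq, Nat.add_eq_zero_iff, OfNat.ofNat_ne_zero, and_false,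
      not_false_eq_true, zero_pow, mul_zero, zero_add]
    linarith
  · rw [← hc]
    have hQ : 0 ≤ ∑ a, uu U a (τ, x) ^ 2 := Finset.sum_nonneg fun _ _ => sq_nonneg _
    rcases le_total (∑ a, uu U a (τ, x)) γ with hC' | hC'
    · have h1 := HH_le ht hγ hQ (C := ∑ a, uu U a (τ, x)) (Y := (4 * γ) ^ 2) (by nlinarith)
      rw [log_pow, show kap t / 2 * ((2 : ℕ) * log (4 * γ)) = kap t * log (4 * γ) by
        push_cast; ring] at h1
      have h2 := mul_nonneg hK0 (pp_nonneg (n + 3) (∑ a, uu U a (τ, x)))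
      nlinarith
    · have h1 := HH_le' ht hγ hγ1 hQ (abs_sum_le (h.abs_le hτ hx))
      rw [← hB] at h1
      have h2 : γ ^ (n + 3) ≤ pp (n + 3) (∑ a, uu U a (τ, x)) :=
        pow_le_pow_left₀ hγ.le (le_max_of_le_left hC') _
      nlinarith [mul_le_mul_of_nonneg_left h2 hK0, mul_pos (exp_pos (kap t * log (4 * γ))) hc0]

end Pool.Agent.BL
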