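import Pool.Agent.P.MP_edb112_gt.Multi

/-! Logarithmic potentials. -/

set_option autoImplicit false
set_option linter.unusedSectionVars false

open MeasureTheory Set Module Filter Real
open scoped RealInnerProductSpace Topology

noncomputable section

namespace Pool.Agent.BL

variable {E : Type} [NormedAddCommGroup E] [InnerProductSpace ℝ E] [FiniteDimensional ℝ E]
  [CompleteSpace E] [MeasurableSpace E] [BorelSpace E] {t : ℕ}

section Pot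

variable {V : Type} [NormedAddCommGroup V] [NormedSpace ℝ V] [Rep E V] {u : ℝ × V → ℝ}
  {p : ℝ × V} {v : ℝ} {w : EuclideanSpace ℝ (Ix E)}

theorem jet_log_add (h : HJet u p v (-(1 / 2) * v * ‖w‖ ^ 2) w) {c : ℝ} (hc : 0 < c) :
    HJet (fun q => log (u q ^ 2 + c)) p (log (v ^ 2 + c))
      (-(((1 + v ^ 2) / (v ^ 2 + c) - 2 * v ^ 2 / (v ^ 2 + c) ^ 2) * ‖w‖ ^ 2))
      ((v ^ 2 + c)⁻¹ • (2 * v) • w) := by
  have hy : 0 < v ^ 2 + c := by positivity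
  refine ((h.sq.add_const c).log hy).congr rfl ?_ rfl
  rw [norm_smul, mul_pow, Real.norm_eq_abs, sq_abs]
  field_simp
  ring

theorem coef_one_le (v : ℝ) : (1 + v ^ 2) / (v ^ 2 + 1) - 2 * v ^ 2 / (v ^ 2 + 1) ^ 2 ≤ 1 := by
  have : 0 ≤ 2 * v ^ 2 / (v ^ 2 + 1) ^ 2 := by positivity
  rw [add_comm 1, div_self (by positivity)]
  linarith

theorem coef_one_ge (v : ℝ) : 1 / 2 ≤ (1 + v ^ 2) / (v ^ 2 + 1) - 2 * v ^ 2 / (v ^ 2 + 1) ^ 2 := by
  have : 2 * v ^ 2 / (v ^ 2 + 1) ^ 2 ≤ 1 / 2 := by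
    rw [div_le_div_iff₀ (by positivity) (by norm_num)]
    nlinarith [sq_nonneg (v ^ 2 - 1)]
  rw [add_comm 1, div_self (by positivity)]
  linarith

theorem coef_R_ge {R : ℝ} (hR : 2 ≤ R) (v : ℝ) : (if R < |v| then 1 / 4 else 0) ≤
    (1 + v ^ 2) / (v ^ 2 + R ^ 2) - 2 * v ^ 2 / (v ^ 2 + R ^ 2) ^ 2 := by
  have hy : 0 < v ^ 2 + R ^ 2 := by positivity
  have e : (1 + v ^ 2) / (v ^ 2 + R ^ 2) - 2 * v ^ 2 / (v ^ 2 + R ^ 2) ^ 2 =
      ((1 + v ^ 2) * (v ^ 2 + R ^ 2) - 2 * v ^ 2) / (v ^ 2 + R ^ 2) ^ 2 := by field_simp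
  have h4 : 4 ≤ R ^ 2 := by nlinarith
  rw [e, le_div_iff₀ (by positivity)]
  split_ifs with h
  · have h1 : R ^ 2 ≤ v ^ 2 := by
      rw [← sq_abs v]
      exact pow_le_pow_left₀ (by linarith) h.le 2
    nlinarith [mul_le_mul_of_nonneg_right h1 hy.le, mul_le_mul_of_nonneg_right h4 (sq_nonneg v)]
  · nlinarith [mul_le_mul_of_nonneg_right h4 (sq_nonneg v), sq_nonneg (v ^ 2)]

theorem sup_neg_ll (h : HJet u p v (-(1 / 2) * v * ‖w‖ ^ 2) w) :
    Sup E (fun q => -log (u q ^ 2 + 1)) p (‖w‖ ^ 2) :=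
  HJet.sup (jet_log_add h one_pos).neg (by nlinarith [coef_one_le v, sq_nonneg ‖w‖])

theorem sup_ll (h : HJet u p v (-(1 / 2) * v * ‖w‖ ^ 2) w) :
    Sup E (fun q => log (u q ^ 2 + 1)) p 0 :=
  HJet.sup (jet_log_add h one_pos) (by nlinarith [coef_one_ge v, sq_nonneg ‖w‖])

theorem sup_lR (h : HJet u p v (-(1 / 2) * v * ‖w‖ ^ 2) w) {R : ℝ} (hR : 2 ≤ R) :
    Sup E (fun q => log (u q ^ 2 + R ^ 2)) p (-((if R < |v| then 1 / 4 else 0) * ‖w‖ ^ 2)) :=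
  HJet.sup (jet_log_add h (by positivity))
    (neg_le_neg (mul_le_mul_of_nonneg_right (coef_R_ge hR v) (sq_nonneg _)))

theorem sup_theta (h : HJet u p v (-(1 / 2) * v * ‖w‖ ^ 2) w) {Θ : ℝ × V → ℝ} {θ : ℝ}
    {w' : EuclideanSpace ℝ (Ix E)} (h' : HJet Θ p θ 0 w') {c : ℝ} (hc : 0 ≤ c)
    (h1 : c * log (v ^ 2 + 1) ≤ 1) :
    Sup E (fun q => Θ q ^ 2 * (2 - c * log (u q ^ 2 + 1))⁻¹) p (-(c / 8 * θ ^ 2 * ‖w‖ ^ 2)) := by
  have h0 : 0 ≤ c * log (v ^ 2 + 1) := mul_nonneg hc (log_nonneg (by nlinarith [sq_nonneg v]))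
  have ha : 0 < 2 - c * log (v ^ 2 + 1) := by linarith
  refine HJet.sup (h'.sq.mul (((Jet.const 2).sub ((jet_log_add h one_pos).const_mul c)).inv ha)) ?_
  have h2 := coef_one_ge v
  set k := (1 + v ^ 2) / (v ^ 2 + 1) - 2 * v ^ 2 / (v ^ 2 + 1) ^ 2
  set a := 2 - c * log (v ^ 2 + 1)
  set g := c • (v ^ 2 + 1)⁻¹ • (2 * v) • w
  have h3 : 0 ≤ a⁻¹ * ‖w' + (θ / a) • g‖ ^ 2 := by positivity
  rw [norm_add_sq_real, norm_smul, mul_pow, Real.norm_eq_abs, sq_abs, real_inner_smul_right] at h3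
  have h4 : c / 8 * θ ^ 2 * ‖w‖ ^ 2 ≤ θ ^ 2 * (c * (k * ‖w‖ ^ 2) / a ^ 2) := by
    have h5 : a ^ 2 ≤ 4 := by nlinarith
    have h6 : 0 ≤ c * θ ^ 2 * ‖w‖ ^ 2 := by positivity
    rw [mul_div_assoc', le_div_iff₀ (by positivity)]
    nlinarith [mul_le_mul_of_nonneg_left h5 h6, mul_le_mul_of_nonneg_left h2 h6]
  simp only [zero_sub, norm_neg, smul_neg, neg_smul, neg_neg, real_inner_smul_left,
    real_inner_smul_right, mul_neg, mul_zero]
  refine le_trans (le_of_eq ?_) (add_le_add (neg_le_neg h4) (neg_nonpos.2 h3)) |>.trans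
    (le_of_eq (add_zero _))
  field_simp
  ring

end Pot

theorem heat_shift {V : Type} [NormedAddCommGroup V] [NormedSpace ℝ V] [Rep E V]
    (f : ℝ × V → ℝ) (s τ : ℝ) (z : V) :
    heat E (fun q => f (q.1 + s, q.2)) (τ, z) = heat E f (τ + s, z) := by
  have e : (fun q : ℝ × V => f (q.1 + s, q.2)) = fun q => f (q + (s, 0)) := by
    funext q
    congr 1
    ext <;> simp
  have e1 : fderiv ℝ (fun q => f (q + (s, 0))) = fun q => fderiv ℝ f (q + (s, 0)) :=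
    funext fun q => fderiv_comp_add_right _
  have e2 : ((τ, z) : ℝ × V) + (s, 0) = (τ + s, z) := by simp
  simp only [e, heat, op, hess, e1, fderiv_comp_add_right, e2]
  rfl

theorem IsHeat.shift {U : ℝ × E → ℝ} (h : IsHeat U) (s : ℝ) :
    IsHeat fun q => U (q.1 + s, q.2) :=
  ⟨h.sm.comp (by fun_prop), fun τ x hx => by rw [heat_shift, h.eq _ x hx]⟩

open Classical in
theorem Dd_split {R : ℝ} (g : Fin t → E) (u J : Fin t → ℝ) (h0 : ∀ c, 0 ≤ J c)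
    (h1 : ∀ c, R < |u c| → 1 / 2 ≤ J c) :
    Dd g ≤ (if ∀ a, |u a| ≤ R then Dd g else 0) +
      8 * t * ∑ a, (if R < |u a| then 1 / 4 else 0) * ‖g a‖ ^ 2 +
      4 * t * ∑ a, ∑ c ∈ Finset.univ.erase a, ‖g a‖ ^ 2 * J c := by
  have p1 : ∀ a, 0 ≤ (if R < |u a| then 1 / 4 else 0) * ‖g a‖ ^ 2 := fun a => by
    split_ifs <;> positivity
  have p2 : ∀ a c, 0 ≤ ‖g a‖ ^ 2 * J c := fun a c => mul_nonneg (sq_nonneg _) (h0 c)
  by_cases hg : ∀ a, |u a| ≤ R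
  · rw [if_pos hg, add_assoc]
    exact le_add_of_nonneg_right (add_nonneg
      (mul_nonneg (by positivity) (Finset.sum_nonneg fun a _ => p1 a))
      (mul_nonneg (by positivity) (Finset.sum_nonneg fun a _ => Finset.sum_nonneg fun c _ => p2 a c)))
  · rw [if_neg hg, zero_add]
    push Not at hg
    obtain ⟨c, hc⟩ := hg
    refine (Dd_le g).trans ?_
    rw [En, Finset.mul_sum, Finset.mul_sum, Finset.mul_sum, ← Finset.sum_add_distrib]
    refine Finset.sum_le_sum fun a _ => ?_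
    have ht : (0 : ℝ) ≤ t := by positivity
    by_cases hac : c = a
    · subst hac
      rw [if_pos hc]
      have := mul_nonneg ht (Finset.sum_nonneg fun b (_ : b ∈ Finset.univ.erase c) => p2 c b)
      linarith
    · have h2 := Finset.single_le_sum (f := fun b => ‖g a‖ ^ 2 * J b)
        (fun b (_ : b ∈ Finset.univ.erase a) => p2 a b) (Finset.mem_erase.2 ⟨hac, Finset.mem_univ _⟩)
      have h3 := mul_le_mul_of_nonneg_left (h1 c hc) (sq_nonneg ‖g a‖)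
      nlinarith [mul_le_mul_of_nonneg_left (h3.trans h2) ht, mul_nonneg ht (p1 a)]

namespace HD

variable {U : Fin t → ℝ × E → ℝ} {M τ : ℝ}

theorem jet₂ (h : HD U M) (a : Fin t) (hτ : 0 ≤ τ) {x : E} (hx : ‖x‖ = 1) :
    HJet (fun q => Ps (U a q)) (τ, x) (Ps (U a (τ, x)))
      (-(1 / 2) * Ps (U a (τ, x)) * ‖wv x (tg (fun q => Ps (U a q)) (τ, x))‖ ^ 2)
      (wv x (tg (fun q => Ps (U a q)) (τ, x))) :=
  (h.jet₁ a hτ hx).congr rfl (by rw [norm_wv hx (inner_tg_self _ τ hx)]) rfl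

theorem jet' (h : HD U M) (hτ : 0 ≤ τ) {x : Fin t → E} (hx : ∀ a, ‖x a‖ = 1) (a : Fin t) :
    HJet (uu U a) (τ, x) (uu U a (τ, x))
      (-(1 / 2) * uu U a (τ, x) * ‖wv (x a) (gg U (τ, x) a)‖ ^ 2) (wv (x a) (gg U (τ, x) a)) :=
  HJet.pt a (h.jet₂ a hτ (hx a))

/-- comparison of the logarithmic potential with a solution of the heat equation -/
theorem ll_le (h : HD U M) (a : Fin t) {J : ℝ × E → ℝ} (hJ : IsHeat J) {c s : ℝ} (hc : 0 ≤ c)
    (hs : 0 ≤ s) (h0 : ∀ x, ‖x‖ = 1 → c * log (Ps (U a (s, x)) ^ 2 + 1) ≤ J (s, x)) (hτ : s ≤ τ)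
    {x : E} (hx : ‖x‖ = 1) : c * log (Ps (U a (τ, x)) ^ 2 + 1) ≤ J (τ, x) := by
  have hS : ∀ r, s ≤ r → ∀ y, ‖y‖ = 1 →
      Sup E (fun q => c * log (Ps (U a q) ^ 2 + 1) + -J q) (r, y) (c * 0 + -0) := fun r hr y hy =>
    ((sup_ll (h.jet₂ a (hs.trans hr) hy)).const_mul hc).add (HJet.sup (hJ.jet r hy).neg le_rfl)
  have := max_principle (E := E) (c := 0) isCompact_unit unit_ga (fun r hr y hy => (hS r hr y hy).sm)
    (fun r hr y hy => (hS r hr.le y hy).le.trans_eq (by simp))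
    (fun y hy => by linarith [h0 y hy]) hτ hx
  linarith

end HD

end Pool.Agent.BL
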