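import Pool.Agent.P.MP_edb112_gt.Gauss

/-! One-dimensional lemmas: approximate linearity and the window lemma. -/

set_option autoImplicit false

open MeasureTheory ProbabilityTheory Set Filter Real
open scoped symmDiff

noncomputable section

namespace Pool.Agent.BL

namespace Win

/-- a unit linear combination of independent standard Gaussians is standard -/
theorem mp_lin {t : ℕ} (w : Fin t → ℝ) (hw : ∑ b, w b ^ 2 = 1) :
    MeasurePreserving (fun z : Fin t → ℝ => ∑ b, w b * z b) (Measure.pi fun _ => gam) gam := by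
  refine ⟨by fun_prop, ?_⟩
  let L : StrongDual ℝ (EuclideanSpace ℝ (Fin t)) := innerSL ℝ (WithLp.toLp 2 w)
  have e : (fun z : Fin t → ℝ => ∑ b, w b * z b) = L ∘ WithLp.toLp 2 := by
    funext z
    simp [L, PiLp.inner_apply, mul_comm]
  have hn : ‖L‖ ^ 2 = 1 := by
    simp only [L, innerSL_apply_norm, EuclideanSpace.norm_sq_eq, Real.norm_eq_abs, sq_abs]
    exact hw
  rw [e, ← Measure.map_map L.continuous.measurable (by fun_prop), map_pi_eq_stdGaussian,
    IsGaussian.map_eq_gaussianReal, integral_strongDual_stdGaussian, variance_dual_stdGaussian, hn]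
  simp

/-- normalising constant of the simplex coupling -/
def cc (t : ℕ) : ℝ := √(t / (t - 1))

/-- the simplex coupling -/
def th {t : ℕ} (z : Fin t → ℝ) (a : Fin t) : ℝ := cc t * (z a - (∑ b, z b) / t)

theorem cc_sq {t : ℕ} (ht : 3 ≤ t) : cc t ^ 2 = t / (t - 1) := by
  have : (3 : ℝ) ≤ t := by exact_mod_cast ht
  exact Real.sq_sqrt (div_nonneg (by linarith) (by linarith))

theorem one_le_cc {t : ℕ} (ht : 3 ≤ t) : 1 ≤ cc t := by
  have : (3 : ℝ) ≤ t := by exact_mod_cast ht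
  exact Real.one_le_sqrt.2 ((one_le_div (by linarith)).2 (by linarith))

theorem cc_le {t : ℕ} (ht : 3 ≤ t) : cc t ≤ 2 := by
  have : (3 : ℝ) ≤ t := by exact_mod_cast ht
  exact Real.sqrt_le_iff.2 ⟨by norm_num, (div_le_iff₀ (by linarith)).2 (by linarith)⟩

theorem sum_th {t : ℕ} (ht : 3 ≤ t) (z : Fin t → ℝ) : ∑ a, th z a = 0 := by
  have : (3 : ℝ) ≤ t := by exact_mod_cast ht
  simp only [th, ← Finset.mul_sum, Finset.sum_sub_distrib, Finset.sum_const, Finset.card_univ,
    Fintype.card_fin, nsmul_eq_mul]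
  rw [mul_div_cancel₀ _ (by linarith), sub_self, mul_zero]

theorem mp_th {t : ℕ} (ht : 3 ≤ t) (a : Fin t) :
    MeasurePreserving (fun z : Fin t → ℝ => th z a) (Measure.pi fun _ => gam) gam := by
  have h3 : (3 : ℝ) ≤ t := by exact_mod_cast ht
  have h := mp_lin (fun b => cc t * ((if b = a then 1 else 0) - 1 / t)) (by
    have e : ∀ b : Fin t, (cc t * ((if b = a then 1 else 0) - 1 / t)) ^ 2 =
        cc t ^ 2 * ((if b = a then 1 - 2 / (t : ℝ) else 0) + 1 / t ^ 2) := by
      intro b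
      split_ifs <;> ring
    simp only [e, ← Finset.mul_sum, Finset.sum_add_distrib, Finset.sum_ite_eq', Finset.mem_univ,
      if_true, Finset.sum_const, Finset.card_univ, Fintype.card_fin, nsmul_eq_mul, cc_sq ht]
    have : (t : ℝ) - 1 ≠ 0 := by linarith
    have : (t : ℝ) ≠ 0 := by linarith
    field_simp
    ring)
  convert h using 2 with z
  simp only [th, mul_assoc, ← Finset.mul_sum, sub_mul, Finset.sum_sub_distrib, ite_mul, one_mul,
    zero_mul, Finset.sum_ite_eq', Finset.mem_univ, if_true]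
  ring

/-- expectation of a sum along the coupling -/
theorem integral_sum_th {t : ℕ} (ht : 3 ≤ t) {g : ℝ → ℝ} (hg : Integrable g gam) :
    Integrable (fun z : Fin t → ℝ => ∑ a, g (th z a)) (Measure.pi fun _ => gam) ∧
    ∫ z : Fin t → ℝ, ∑ a, g (th z a) ∂(Measure.pi fun _ => gam) = t * ∫ x, g x ∂gam := by
  have h1 : ∀ a, Integrable (fun z : Fin t → ℝ => g (th z a)) (Measure.pi fun _ => gam) :=
    fun a => (mp_th ht a).integrable_comp_of_integrable hg
  refine ⟨integrable_finsetSum _ fun a _ => h1 a, ?_⟩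
  rw [integral_finsetSum _ fun a _ => h1 a]
  have h2 : ∀ a, ∫ z : Fin t → ℝ, g (th z a) ∂(Measure.pi fun _ => gam) = ∫ x, g x ∂gam := by
    intro a
    conv_rhs => rw [← (mp_th ht a).map_eq]
    rw [integral_map (mp_th ht a).measurable.aemeasurable
      (by rw [(mp_th ht a).map_eq]; exact hg.1)]
  simp [h2]

/-- boxes have positive probability, so the sum is small slightly below the zero sum plane -/
theorem sum_le_of_box {t : ℕ} (ht : 3 ≤ t) {g : ℝ → ℝ} (hm : Monotone g) (hg : Integrable g gam)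
    (h0 : ∀ θ : Fin t → ℝ, ∑ a, θ a = 0 → 0 ≤ ∑ a, g (θ a)) {a K : ℝ} (ha : 0 < a) (ha1 : a ≤ 1)
    (x : Fin t → ℝ) (hx : ∀ b, |x b| ≤ K) (hs : ∑ b, x b = -(t * a)) :
    (a / 2 * ph (K + 2)) ^ t * ∑ b, g (x b) ≤ t * ∫ x, g x ∂gam := by
  have h3 : (3 : ℝ) ≤ t := by exact_mod_cast ht
  obtain ⟨hi, he⟩ := integral_sum_th ht hg
  have hn : ∀ z : Fin t → ℝ, 0 ≤ ∑ a, g (th z a) := fun z => h0 _ (sum_th ht z)
  have c1 := one_le_cc ht
  have c2 := cc_le ht
  rw [← he]
  rcases le_total (∑ b, g (x b)) 0 with hV | hV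
  · exact (mul_nonpos_of_nonneg_of_nonpos (by have := ph_pos (K + 2); positivity) hV).trans
      (integral_nonneg hn)
  set B : Set (Fin t → ℝ) := univ.pi fun b => Ioc ((x b + a) / cc t) ((x b + a) / cc t + a / 2)
  have hB : MeasurableSet B := MeasurableSet.univ_pi fun _ => measurableSet_Ioc
  have hP : (a / 2 * ph (K + 2)) ^ t ≤ (Measure.pi fun _ : Fin t => gam).real B := by
    have e : (Measure.pi fun _ : Fin t => gam).real B =
        ∏ b, gam.real (Ioc ((x b + a) / cc t) ((x b + a) / cc t + a / 2)) := by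
      simp only [B, Measure.real, Measure.pi_pi, ENNReal.toReal_prod]
    rw [e]
    calc (a / 2 * ph (K + 2)) ^ t = ∏ _b : Fin t, a / 2 * ph (K + 2) := by simp
      _ ≤ _ := by
        refine Finset.prod_le_prod (fun _ _ => by have := ph_pos (K + 2); positivity)
          fun b _ => ?_
        have h1 : |(x b + a) / cc t| ≤ K + 1 := by
          rw [abs_div, abs_of_pos (show 0 < cc t by linarith)]
          refine (div_le_self (abs_nonneg _) c1).trans ((abs_add_le _ _).trans ?_)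
          rw [abs_of_pos ha]
          linarith [hx b]
        have h2 := le_Ph_sub (a := (x b + a) / cc t) (b := (x b + a) / cc t + a / 2) (R := K + 2)
          (by linarith) (by linarith) ((abs_add_le _ _).trans (by
            rw [abs_of_pos (show 0 < a / 2 by linarith)]
            linarith))
        rw [gam_real measurableSet_Ioc, ← intervalIntegral.integral_of_le (by linarith), ← Ph_sub]
        linarith
  have hl : ∀ z ∈ B, ∑ b, g (x b) ≤ ∑ a, g (th z a) := by
    intro z hz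
    refine Finset.sum_le_sum fun b _ => hm ?_
    have h1 : ∑ b, z b ≤ t * (a / 2) := by
      calc ∑ b, z b ≤ ∑ b, ((x b + a) / cc t + a / 2) :=
            Finset.sum_le_sum fun b _ => (hz b (mem_univ b)).2
        _ = t * (a / 2) := by
          simp [Finset.sum_add_distrib, ← Finset.sum_div, hs]
    have h2 : (∑ b, z b) / t ≤ a / 2 := (div_le_iff₀ (by linarith)).2 (by linarith)
    have h4 : x b + a ≤ cc t * z b := by
      have := (div_lt_iff₀ (show 0 < cc t by linarith)).1 (hz b (mem_univ b)).1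
      linarith
    have h5 : cc t * ((∑ b, z b) / t) ≤ a := by nlinarith
    simp only [th]
    linarith
  calc _ ≤ (Measure.pi fun _ : Fin t => gam).real B * ∑ b, g (x b) := by gcongr
    _ = ∫ _ in B, ∑ b, g (x b) ∂(Measure.pi fun _ => gam) := by simp
    _ ≤ ∫ z in B, ∑ a, g (th z a) ∂(Measure.pi fun _ => gam) :=
        setIntegral_mono_on (by simp) hi.integrableOn hB hl
    _ ≤ _ := setIntegral_le_integral hi (Eventually.of_forall hn)

theorem step_le {g : ℝ → ℝ} {h r x K : ℝ} (hh : 0 ≤ h)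
    (H : ∀ y, x ≤ y → y ≤ K → g y + r ≤ g (y + h)) (n : ℕ) (hn : x + n * h ≤ K + h) :
    g x + n * r ≤ g (x + n * h) := by
  induction n with
  | zero => simp
  | succ n ih =>
    push_cast at hn ⊢
    have h1 := ih (by linarith)
    have h2 := H (x + n * h) (by have : 0 ≤ n * h := by positivity
                                 linarith) (by linarith)
    rw [show x + (n + 1) * h = x + n * h + h by ring]
    linarith

/-- an approximately linear minorant -/
theorem lin_minorant {g : ℝ → ℝ} (hm : Monotone g) {u K B : ℝ} (hu : 0 < u) (hu1 : u ≤ 1 / 6)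
    (hK : 1 ≤ K) (hB : 0 ≤ B) (h0 : 0 ≤ g 0) (h1 : g 1 ≤ B)
    (hU : ∀ x, |x| ≤ K → g (x + (u - u ^ 2)) + g 0 ≤ g x + g u + u ^ 2)
    (hL : ∀ x, |x| ≤ K → g u + g x ≤ g 0 + g (x + (u + u ^ 2)) + u ^ 2) :
    ∃ κ, 0 < κ ∧ ∀ x, |x| ≤ K → κ * x - u * ((2 * B + 6) * (1 + 2 * K)) ≤ g x := by
  obtain ⟨k, hk⟩ : ∃ k, g u - g 0 = k * u := ⟨(g u - g 0) / u, by field_simp⟩
  have hk0 : 0 ≤ k := by
    have := hm hu.le
    exact nonneg_of_mul_nonneg_left (by linarith) hu
  have low : ∀ x, 0 ≤ x → x ≤ K → k * x / (1 + u) - k * u - u * x ≤ g x := by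
    intro x hx hxK
    have hp : 0 < u + u ^ 2 := by positivity
    set n := ⌊x / (u + u ^ 2)⌋₊
    have a1 : n * (u + u ^ 2) ≤ x := (le_div_iff₀ hp).1 (Nat.floor_le (by positivity))
    have a2 : x < (n + 1) * (u + u ^ 2) := (div_lt_iff₀ hp).1 (Nat.lt_floor_add_one _)
    have a3 := step_le (g := g) (r := k * u - u ^ 2) (x := 0) (K := K) hp.le
      (fun y hy hyK => by have := hL y (abs_le.2 ⟨by linarith, hyK⟩); linarith) n (by linarith)
    have a4 := hm (show 0 + n * (u + u ^ 2) ≤ x by linarith)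
    have a5 : k * x / (1 + u) ≤ k * ((n + 1) * u) := by
      rw [div_le_iff₀ (by linarith), mul_assoc]
      exact mul_le_mul_of_nonneg_left (by nlinarith) hk0
    have a6 : n * u ^ 2 ≤ u * x := by
      have : 0 ≤ (n : ℝ) * u ^ 2 := by positivity
      nlinarith
    nlinarith
  have hk1 : k ≤ 2 * B + 2 := by
    have a1 := low 1 zero_le_one hK
    have a2 : k * (2 / 3) ≤ k * 1 / (1 + u) := by
      rw [le_div_iff₀ (by linarith), mul_assoc]
      exact mul_le_mul_of_nonneg_left (by linarith) hk0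
    nlinarith
  refine ⟨k + u, by linarith, fun x hx => ?_⟩
  obtain ⟨x1, x2⟩ := abs_le.1 hx
  have hkK : k * K ≤ (2 * B + 2) * K := by gcongr
  have hBK : 0 ≤ B * K := by positivity
  rcases le_total 0 x with h | h
  · have a1 := low x h x2
    have a2 : k * x - u * (k * K) ≤ k * x / (1 + u) := by
      rw [le_div_iff₀ (by linarith)]
      have : k * x ≤ k * K := by gcongr
      have : 0 ≤ u * (u * (k * K)) := by positivity
      nlinarith
    have a3 : u * x ≤ u * K := by gcongr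
    have a4 : u * (k * K + k + 2 * K) ≤ u * ((2 * B + 6) * (1 + 2 * K)) := by
      gcongr
      nlinarith
    nlinarith
  · have hp : 0 < u - u ^ 2 := by nlinarith
    set n := ⌈-x / (u - u ^ 2)⌉₊
    have a1 : -x ≤ n * (u - u ^ 2) := (div_le_iff₀ hp).1 (Nat.le_ceil _)
    have a2 : (n - 1) * (u - u ^ 2) < -x := by
      have := Nat.ceil_lt_add_one (show 0 ≤ -x / (u - u ^ 2) from div_nonneg (by linarith) hp.le)
      exact (lt_div_iff₀ hp).1 (by linarith)
    have a3 := step_le (g := fun y => -g y) (r := -(k * u + u ^ 2)) (x := x) (K := 0) hp.le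
      (fun y hy hyK => by
        have := hU y (abs_le.2 ⟨by linarith, by linarith⟩)
        linarith) n (by linarith)
    have a4 := hm (show 0 ≤ x + n * (u - u ^ 2) by linarith)
    have a5 : (n - 1) * u ≤ -x + 2 * u * K := by
      have b1 : (n - 1) * u * (1 - u) ≤ -x := by nlinarith
      have b2 : -x ≤ (-x + 2 * u * K) * (1 - u) := by
        have : 0 ≤ u * (x + K) := mul_nonneg hu.le (by linarith)
        have : 0 ≤ u * K * (1 - 2 * u) := mul_nonneg (by positivity) (by linarith)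
        linarith
      exact le_of_mul_le_mul_right (b1.trans b2) (by linarith)
    have a6 : (n - 1) * u * (k + u) ≤ (-x + 2 * u * K) * (k + u) := by gcongr
    have a7 : u * ((k + u) * (1 + 2 * K)) ≤ u * ((2 * B + 6) * (1 + 2 * K)) :=
      mul_le_mul_of_nonneg_left (mul_le_mul_of_nonneg_right (by linarith) (by linarith)) hu.le
    nlinarith

theorem integrable_exp_sq : Integrable (fun x : ℝ => exp (3 / 8 * x ^ 2)) gam := by
  have h := (integrable_exp_neg_mul_sq (b := 1 / 8) (by norm_num)).const_mul (√(2 * π))⁻¹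
  rw [gam, gaussianReal_of_var_ne_zero 0 one_ne_zero, integrable_withDensity_iff
    (measurable_gaussianPDF _ _) (Eventually.of_forall fun _ => gaussianPDF_lt_top)]
  refine h.congr (Eventually.of_forall fun x => ?_)
  simp only [toReal_gaussianPDF, ← ph_eq, ph]
  rw [mul_left_comm, ← exp_add]
  congr 2
  ring

theorem inv_Ph_le (x : ℝ) : 2 / Ph (-(|x| / 2 + 1)) ≤ 6 * exp 4 * exp (x ^ 2 / 4) := by
  have hx := abs_nonneg x
  have h1 := ph_le_mul_Ph (s := |x| / 2 + 1) (by linarith)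
  have h2 : √(2 * π) ≤ 3 := Real.sqrt_le_iff.2 ⟨by norm_num, by linarith [pi_lt_d2]⟩
  have h3 : 0 < √(2 * π) := by positivity
  have h4 : 3⁻¹ * exp (-((|x| / 2 + 1) ^ 2 / 2)) ≤ ph (|x| / 2 + 1) := by
    unfold ph
    gcongr
  have h5 : |x| / 2 + 1 + 1 ≤ exp (|x| / 2 + 1) := add_one_le_exp _
  have h6 : exp (|x| / 2 + 1) ≤ exp 4 * exp (x ^ 2 / 4) * exp (-((|x| / 2 + 1) ^ 2 / 2)) := by
    rw [← exp_add, ← exp_add, exp_le_exp, ← sq_abs x]
    nlinarith [sq_nonneg (|x| - 4)]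
  have h7 := Ph_pos (-(|x| / 2 + 1))
  have h8 := exp_pos (-((|x| / 2 + 1) ^ 2 / 2))
  rw [div_le_iff₀ h7]
  have h9 : (|x| / 2 + 1 + 1) * Ph (-(|x| / 2 + 1)) ≤
      exp 4 * exp (x ^ 2 / 4) * exp (-((|x| / 2 + 1) ^ 2 / 2)) * Ph (-(|x| / 2 + 1)) := by
    gcongr
    exact h5.trans h6
  refine le_of_mul_le_mul_right ?_ h8
  linarith

theorem sum_cons_const (n : ℕ) (g : ℝ → ℝ) (x y w : ℝ) :
    ∑ a, g ((Fin.cons x (Fin.cons y fun _ => w) : Fin (n + 3) → ℝ) a) =
      g x + g y + (n + 1) * g w := by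
  rw [Fin.sum_univ_succ, Fin.sum_univ_succ]
  simp [add_assoc]

/-- approximate linearity -/
theorem approx_linear {t : ℕ} (ht : 3 ≤ t) {ε : ℝ} (hε : 0 < ε) : ∃ η > 0, ∀ g : ℝ → ℝ,
    Monotone g → Integrable g gam → (∀ θ : Fin t → ℝ, ∑ a, θ a = 0 → 0 ≤ ∑ a, g (θ a)) →
    (∀ x, 0 ≤ x → g x ≤ 2 / Ph (-(x + 1))) → ∫ x, g x ∂gam ≤ η →
    ∃ κ, 0 < κ ∧ κ ≤ 2 / Ph (-2) + 1 ∧ ∫ x, |g x - κ * x| ∂gam ≤ ε := by
  have h3 : (3 : ℝ) ≤ t := by exact_mod_cast ht
  set B := 2 / Ph (-2) with hBdef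
  have hB : 0 ≤ B := by have := Ph_pos (-2); positivity
  set M := ∫ x : ℝ, exp (3 / 8 * x ^ 2) ∂gam
  have hM : 0 ≤ M := integral_nonneg fun x => (exp_pos _).le
  set C := B + 1 + t * (6 * exp 4)
  have hC : 0 ≤ C := by positivity
  set K := 1 + 64 * C * M / ε
  have hK : 1 ≤ K := le_add_of_nonneg_right (by positivity)
  set e := min 1 (ε / 8)
  have he : 0 < e := by positivity
  set u := min (1 / 6) (e / ((2 * B + 6) * (1 + 2 * K)))
  have hu : 0 < u := by positivity
  have hu1 : u ≤ 1 / 6 := min_le_left _ _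
  have hue : u * ((2 * B + 6) * (1 + 2 * K)) ≤ e :=
    (le_div_iff₀ (by positivity)).1 (min_le_right _ _)
  have hu2 : u ^ 2 ≤ u := by nlinarith
  set a := u ^ 2 / t
  have ha : 0 < a := by positivity
  have ha1 : a ≤ 1 := (div_le_one (by linarith)).2 (by linarith)
  set p := (a / 2 * ph (K + 1 + 2)) ^ t
  have hp : 0 < p := by have := ph_pos (K + 1 + 2); positivity
  refine ⟨min (ε / 2) (p * u ^ 2 / t), by positivity, fun g hm hg h0 hup hη => ?_⟩
  obtain ⟨n, rfl⟩ := Nat.exists_eq_add_of_le' ht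
  have hn : (0 : ℝ) ≤ n := Nat.cast_nonneg n
  have g0 : 0 ≤ g 0 := by
    have := h0 (fun _ => 0) (by simp)
    simp only [Finset.sum_const, Finset.card_univ, Fintype.card_fin, nsmul_eq_mul] at this
    exact nonneg_of_mul_nonneg_right (by linarith) (show (0 : ℝ) < (n + 3 : ℕ) by linarith)
  have key : ∀ x y x' y', |x| ≤ K + 1 → |y| ≤ K + 1 → |x' + y'| ≤ K + 1 →
      x + y + u ^ 2 = x' + y' → g x + g y ≤ g x' + g y' + u ^ 2 := by
    intro x y x' y' hx hy hs hxy
    set w := -(x' + y') / (n + 1)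
    have hw : (n + 1) * w = -(x' + y') := mul_div_cancel₀ _ (by linarith)
    have hw1 : |w| ≤ K + 1 := by
      rw [abs_div, abs_neg, abs_of_pos (show (0 : ℝ) < n + 1 by linarith)]
      exact (div_le_self (abs_nonneg _) (by linarith)).trans hs
    have b1 := h0 (Fin.cons x' (Fin.cons y' fun _ => w))
      ((sum_cons_const n id x' y' w).trans (by simp only [id]; linarith))
    have b2 := sum_le_of_box ht hm hg h0 ha ha1 (K := K + 1) (Fin.cons x (Fin.cons y fun _ => w))
      (Fin.cases hx (Fin.cases hy fun _ => hw1))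
      ((sum_cons_const n id x y w).trans (by
        have : ((n + 3 : ℕ) : ℝ) * a = u ^ 2 := mul_div_cancel₀ _ (by linarith)
        simp only [id]
        linarith))
    rw [sum_cons_const] at b1 b2
    have b3 : ((n + 3 : ℕ) : ℝ) * ∫ x, g x ∂gam ≤ p * u ^ 2 := by
      rw [mul_comm, ← le_div_iff₀ (by linarith)]
      exact hη.trans (min_le_right _ _)
    have b4 := le_of_mul_le_mul_left (b2.trans b3) hp
    linarith
  have g1 : g 1 ≤ B := by
    have := hup 1 zero_le_one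
    rwa [one_add_one_eq_two] at this
  obtain ⟨κ, hκ, hl⟩ := lin_minorant hm hu hu1 hK hB g0 g1
    (fun x hx => by
      obtain ⟨x1, x2⟩ := abs_le.1 hx
      exact key _ _ _ _ (abs_le.2 ⟨by linarith, by nlinarith⟩) (by simp; linarith)
        (abs_le.2 ⟨by linarith, by linarith⟩) (by ring))
    (fun x hx => by
      obtain ⟨x1, x2⟩ := abs_le.1 hx
      exact key _ _ _ _ (abs_le.2 ⟨by linarith, by linarith⟩) (by linarith)
        (abs_le.2 ⟨by nlinarith, by linarith⟩) (by ring))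
  have hκ1 : κ ≤ B + 1 := by
    have := hl 1 (by simpa using hK)
    have : e ≤ 1 := min_le_left _ _
    linarith
  refine ⟨κ, hκ, hκ1, ?_⟩
  have hpt : ∀ x, κ * x - g x ≤ e + 8 * C / K * exp (3 / 8 * x ^ 2) := by
    intro x
    rcases le_total |x| K with h | h
    · have := hl x h
      have : 0 ≤ 8 * C / K * exp (3 / 8 * x ^ 2) := by positivity
      linarith
    have c1 : κ * x - g x ≤ C * exp (x ^ 2 / 4) := by
      have d0 := exp_pos (x ^ 2 / 4)
      have d1 : 0 ≤ ((n + 3 : ℕ) : ℝ) * (6 * exp 4) * exp (x ^ 2 / 4) := by positivity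
      rcases le_total 0 x with h' | h'
      · have d2 := hm h'
        have d3 : x ≤ exp (x ^ 2 / 4) := by
          nlinarith [add_one_le_exp (x ^ 2 / 4), sq_nonneg (x - 2)]
        have d4 : κ * x ≤ (B + 1) * exp (x ^ 2 / 4) := by gcongr
        simp only [C]
        linarith
      · set w := -x / (n + 2)
        have hw : (n + 2) * w = -x := mul_div_cancel₀ _ (by linarith)
        have hw0 : 0 ≤ w := div_nonneg (by linarith) (by linarith)
        have d2 := h0 (Fin.cons x (Fin.cons w fun _ => w))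
          ((sum_cons_const n id x w w).trans (by simp only [id]; linarith))
        rw [sum_cons_const] at d2
        have d3 : g w ≤ 6 * exp 4 * exp (x ^ 2 / 4) := by
          refine (hup w hw0).trans (le_trans ?_ (inv_Ph_le x))
          have : w ≤ |x| / 2 := by
            rw [abs_of_nonpos h']
            nlinarith
          exact div_le_div_of_nonneg_left zero_le_two (Ph_pos _) (Ph_mono (by linarith))
        have d4 : (n + 2) * g w ≤ (n + 3) * (6 * exp 4 * exp (x ^ 2 / 4)) := by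
          have : (n + 2) * g w ≤ (n + 2) * (6 * exp 4 * exp (x ^ 2 / 4)) := by gcongr
          have : 0 ≤ 6 * exp 4 * exp (x ^ 2 / 4) := by positivity
          linarith
        have d5 : κ * x ≤ 0 := mul_nonpos_of_nonneg_of_nonpos hκ.le h'
        have d6 : 0 ≤ (B + 1) * exp (x ^ 2 / 4) := by positivity
        simp only [C]
        push_cast
        linarith
    have c2 : exp (x ^ 2 / 4) ≤ 8 / K * exp (3 / 8 * x ^ 2) := by
      have d1 : K ≤ x ^ 2 := by nlinarith [sq_abs x]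
      have d2 : K / 8 ≤ exp (x ^ 2 / 8) := by linarith [add_one_le_exp (x ^ 2 / 8)]
      rw [show 3 / 8 * x ^ 2 = x ^ 2 / 8 + x ^ 2 / 4 by ring, exp_add, ← mul_assoc]
      refine le_mul_of_one_le_left (exp_pos _).le ?_
      rw [div_mul_eq_mul_div, le_div_iff₀ (by linarith)]
      linarith
    have c3 : C * exp (x ^ 2 / 4) ≤ C * (8 / K * exp (3 / 8 * x ^ 2)) := by gcongr
    have c4 : C * (8 / K * exp (3 / 8 * x ^ 2)) = 8 * C / K * exp (3 / 8 * x ^ 2) := by ring
    linarith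
  have hid : Integrable (fun x : ℝ => κ * x) gam := IsGaussian.integrable_id.const_mul κ
  have hi1 : Integrable (fun x : ℝ => g x - κ * x) gam := hg.sub hid
  have hi2 : Integrable (fun x : ℝ => e + 8 * C / K * exp (3 / 8 * x ^ 2)) gam :=
    (integrable_const e).add (integrable_exp_sq.const_mul (8 * C / K))
  have c1 : ∫ x, |g x - κ * x| ∂gam ≤
      ∫ x, (g x - κ * x + 2 * (e + 8 * C / K * exp (3 / 8 * x ^ 2))) ∂gam := by
    refine integral_mono hi1.abs (hi1.add (hi2.const_mul 2)) fun x => ?_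
    have := hpt x
    have : 0 ≤ e + 8 * C / K * exp (3 / 8 * x ^ 2) := by positivity
    exact abs_le.2 ⟨by linarith, by linarith⟩
  rw [integral_add hi1 (hi2.const_mul 2), integral_sub hg hid, integral_const_mul,
    integral_const_mul, integral_add (integrable_const e) (integrable_exp_sq.const_mul _),
    integral_const_mul, integral_id_gaussianReal] at c1
  have c2 : 8 * C / K * M ≤ ε / 8 := by
    rw [div_mul_eq_mul_div, div_le_iff₀ (by linarith)]
    have : ε / 8 * K = ε / 8 + 8 * C * M := by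
      simp only [K]
      field_simp
      ring
    linarith
  have c3 : e ≤ ε / 8 := min_le_right _ _
  have c4 := hη.trans (min_le_left _ _)
  simp only [integral_const, probReal_univ, smul_eq_mul, one_mul] at c1
  linarith

/-- Lebesgue measure on the window -/
abbrev muW (D T : ℝ) : Measure ℝ := volume.restrict (Icc (-D) T)

/-- level sets -/
def Yl (m : ℝ → ℝ) (θ : ℝ) : Set ℝ := {σ | Ph θ ≤ m σ}

/-- rearranged boundary -/
def tau (D T : ℝ) (m : ℝ → ℝ) (θ : ℝ) : ℝ := T - (muW D T).real (Yl m θ)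

theorem measurableSet_Yl {m : ℝ → ℝ} (hm : Measurable m) (θ : ℝ) : MeasurableSet (Yl m θ) :=
  measurableSet_le measurable_const hm

theorem tau_mono (D T : ℝ) (m : ℝ → ℝ) : Monotone (tau D T m) := fun _ _ h =>
  sub_le_sub_left (measureReal_mono fun _ hσ => (Ph_mono h).trans hσ) _

theorem muW_le {D T : ℝ} {s : Set ℝ} (hs : MeasurableSet s) {a b : ℝ} (hab : a ≤ b)
    (h : s ∩ Icc (-D) T ⊆ Icc a b) : (muW D T).real s ≤ b - a := by
  rw [measureReal_restrict_apply hs, ← volume_real_Icc_of_le hab]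
  exact measureReal_mono h (by simp)

theorem integrableOn_Icc_of_bdd {f : ℝ → ℝ} (hf : Measurable f) {C : ℝ} (h : ∀ x, |f x| ≤ C)
    (a b : ℝ) : IntegrableOn f (Icc a b) :=
  Integrable.of_bound hf.aestronglyMeasurable C (Eventually.of_forall h)

theorem tau_le {D T : ℝ} (hD : 0 ≤ D) (hT : 0 ≤ T) {m : ℝ → ℝ} (hm : Measurable m)
    (h0 : ∀ x, 0 ≤ m x) (h1 : ∀ x, m x ≤ 1) (θ : ℝ) :
    tau D T m θ ≤ (∫ x in Icc 0 T, (1 - m x)) / Ph (-θ) := by
  have a1 := mul_meas_ge_le_integral_of_nonneg (μ := volume.restrict (Icc 0 T))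
    (f := fun x => 1 - m x) (Eventually.of_forall fun x => sub_nonneg.2 (h1 x))
    (integrableOn_Icc_of_bdd (by fun_prop) (C := 1)
      (fun x => abs_le.2 ⟨by linarith [h1 x], by linarith [h0 x]⟩) _ _) (Ph (-θ))
  have a2 := measureReal_add_measureReal_compl (μ := volume.restrict (Icc 0 T))
    (measurableSet_Yl hm θ)
  have a3 : (volume.restrict (Icc 0 T)).real (Yl m θ) ≤ (muW D T).real (Yl m θ) := by
    rw [measureReal_restrict_apply (measurableSet_Yl hm θ),
      measureReal_restrict_apply (measurableSet_Yl hm θ)]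
    exact measureReal_mono (inter_subset_inter_right _ (Icc_subset_Icc_left (by linarith)))
      (measure_ne_top_of_subset inter_subset_right (by simp))
  have a4 : (volume.restrict (Icc 0 T)).real (Yl m θ)ᶜ ≤
      (volume.restrict (Icc 0 T)).real {x | Ph (-θ) ≤ 1 - m x} := by
    refine measureReal_mono fun x hx => ?_
    have : m x < Ph θ := not_le.1 hx
    exact (Ph_neg θ).trans_le (by linarith)
  rw [measureReal_restrict_apply_univ, volume_real_Icc_of_le hT] at a2
  rw [le_div_iff₀ (Ph_pos _), tau]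
  have := Ph_pos (-θ)
  nlinarith

theorem two_sets {D T z : ℝ} (hD : 0 ≤ D) (hT : 0 ≤ T) (hz : z ≤ T - D) {Y Y' : Set ℝ}
    (hY : MeasurableSet Y) (hY' : MeasurableSet Y')
    (h : ∀ x ∈ Y ∩ Icc (-D) T, ∀ y ∈ Y' ∩ Icc (-D) T, x + y ≠ z) :
    (muW D T).real Y + (muW D T).real Y' ≤ 2 * T - z := by
  have hB : MeasurableSet (Y' ∩ Icc (-D) T) := hY'.inter measurableSet_Icc
  have a1 := (Measure.measurePreserving_sub_left volume z).measureReal_preimage
    hB.nullMeasurableSet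
  have a2 : (fun x => z - x) ⁻¹' (Y' ∩ Icc (-D) T) ⊆ Icc (z - T) T := fun x hx =>
    ⟨by linarith [hx.2.2], by linarith [hx.2.1]⟩
  have a3 : Y ∩ Icc (-D) T ⊆ Icc (z - T) T := fun x hx => ⟨by linarith [hx.2.1], hx.2.2⟩
  have a4 : Disjoint (Y ∩ Icc (-D) T) ((fun x => z - x) ⁻¹' (Y' ∩ Icc (-D) T)) :=
    disjoint_left.2 fun x hx hx' => h x hx (z - x) hx' (by ring)
  rw [measureReal_restrict_apply hY, measureReal_restrict_apply hY', ← a1,
    ← measureReal_union a4 (hB.preimage (by fun_prop)) (measure_ne_top_of_subset a3 (by simp))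
      (measure_ne_top_of_subset a2 (by simp)), show 2 * T - z = T - (z - T) by ring,
    ← volume_real_Icc_of_le (by linarith)]
  exact measureReal_mono (union_subset a3 a2) (by simp)

theorem exists_low {D T : ℝ} (hD : 0 ≤ D) (hT : 0 ≤ T) {Y : Set ℝ} (hY : MeasurableSet Y)
    (hp : 0 < (muW D T).real Y) {η : ℝ} (hη : 0 < η) : ∃ σ ∈ Y ∩ Icc (-D) T,
      σ + (muW D T).real (Y ∆ Ici (T - (muW D T).real Y)) / 2 ≤ T - (muW D T).real Y + η := by
  set τ := T - (muW D T).real Y with hτ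
  have hne : (Y ∩ Icc (-D) T).Nonempty := by
    rw [measureReal_restrict_apply hY] at hp
    exact nonempty_of_measureReal_ne_zero hp.ne'
  have hb : BddBelow (Y ∩ Icc (-D) T) := ⟨-D, fun x hx => hx.2.1⟩
  obtain ⟨σ, hσ, h⟩ := Real.lt_sInf_add_pos hne hη
  refine ⟨σ, hσ, ?_⟩
  set ι := sInf (Y ∩ Icc (-D) T)
  have a0 : ι ≤ T := (csInf_le hb hσ).trans hσ.2.2
  have a1 := muW_le hY a0 fun x hx => ⟨csInf_le hb hx, hx.2.2⟩
  have a2 := muW_le hY (show -D ≤ T by linarith) inter_subset_right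
  have a3 := muW_le (D := D) (T := T) (hY.diff (measurableSet_Ici (a := τ)))
    (show ι ≤ τ by linarith) fun x hx => ⟨csInf_le hb ⟨hx.1.1, hx.2⟩, (not_le.1 hx.1.2).le⟩
  have a4 := muW_le (D := D) (T := T) (measurableSet_Ici (a := τ)) (show τ ≤ T by linarith)
    fun x hx => ⟨hx.1, hx.2.2⟩
  have a5 := measureReal_inter_add_sdiff (μ := muW D T) (s := Y) (measurableSet_Ici (a := τ))
  have a6 := measureReal_inter_add_sdiff (μ := muW D T) (s := Ici τ) hY
  rw [inter_comm] at a6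
  rw [measureReal_symmDiff_eq hY measurableSet_Ici]
  linarith

theorem tuple_le {n : ℕ} {D R γ₀ : ℝ} (hD : 0 ≤ D) {m : ℝ → ℝ} (hm : Measurable m)
    (H : ∀ σ θ : Fin (n + 3) → ℝ, (∀ a, σ a ∈ Icc (-D) ((n + 3 : ℕ) * D)) → ∑ a, σ a = 0 →
      (∀ a, |θ a| ≤ R) → γ₀ ≤ ∑ a, θ a → ∃ a, m (σ a) < Ph (θ a))
    (c : Fin (n + 3) → ℝ) (hc : ∀ a, |c a| ≤ R) (hs : γ₀ ≤ ∑ a, c a)
    (hp : ∀ a, tau D ((n + 3 : ℕ) * D) m (c a) < (n + 3 : ℕ) * D) :
    (muW D ((n + 3 : ℕ) * D)).real (Yl m (c 2) ∆ Ici (tau D ((n + 3 : ℕ) * D) m (c 2))) ≤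
      2 * ∑ a, tau D ((n + 3 : ℕ) * D) m (c a) := by
  set T := ((n + 3 : ℕ) : ℝ) * D with hT
  have hT0 : 0 ≤ T := by positivity
  refine le_of_forall_pos_le_add fun η hη => ?_
  choose σ h1 h2 using fun a : Fin (n + 1) => exists_low hD hT0
    (measurableSet_Yl hm (c a.succ.succ)) (by have := hp a.succ.succ; rw [tau] at this; linarith)
    (show 0 < η / (2 * (n + 1)) by positivity)
  have a1 : -∑ a, σ a ≤ T - D := by
    have : ∑ _a : Fin (n + 1), -D ≤ ∑ a, σ a := Finset.sum_le_sum fun a _ => (h1 a).2.1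
    simp only [Finset.sum_const, Finset.card_univ, Fintype.card_fin, nsmul_eq_mul] at this
    push_cast at this hT
    nlinarith
  have a2 := two_sets hD hT0 a1 (measurableSet_Yl hm (c 0)) (measurableSet_Yl hm (c 1))
    fun x hx y hy hxy => by
      obtain ⟨a, ha⟩ := H (Fin.cons x (Fin.cons y σ)) c
        (Fin.cases hx.2 (Fin.cases hy.2 fun a => (h1 a).2))
        (by rw [Fin.sum_cons, Fin.sum_cons]; linarith) hc hs
      revert a
      exact Fin.cases hx.1.not_gt (Fin.cases hy.1.not_gt fun a => (h1 a).1.not_gt)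
  have a3 := Finset.sum_le_sum fun a (_ : a ∈ Finset.univ) => h2 a
  have a4 := Finset.single_le_sum (s := Finset.univ) (f := fun a : Fin (n + 1) =>
    (muW D T).real (Yl m (c a.succ.succ) ∆ Ici (T - (muW D T).real (Yl m (c a.succ.succ)))) / 2)
    (fun a _ => by positivity) (Finset.mem_univ 0)
  rw [Finset.sum_add_distrib, Finset.sum_add_distrib, Finset.sum_const, Finset.card_univ,
    Fintype.card_fin, nsmul_eq_mul] at a3
  have a5 : ((n + 1 : ℕ) : ℝ) * (η / (2 * (n + 1))) = η / 2 := by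
    push_cast
    field_simp
  rw [Fin.sum_univ_succ, Fin.sum_univ_succ]
  simp only [tau, Fin.succ_zero_eq_one, Fin.succ_one_eq_two] at a4 ⊢
  linarith

theorem muW_Ici (D T a b : ℝ) : (muW D T).real (Ici a ∆ Ici b) ≤ |a - b| := by
  rw [← max_sub_min_eq_abs']
  refine muW_le (measurableSet_Ici.symmDiff measurableSet_Ici) min_le_max fun x hx => ?_
  rcases hx.1 with h | h
  · exact ⟨min_le_of_left_le h.1, le_max_of_le_right (not_le.1 h.2).le⟩
  · exact ⟨min_le_of_right_le h.1, le_max_of_le_left (not_le.1 h.2).le⟩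

theorem fubini_real (μ ν : Measure ℝ) [IsFiniteMeasure μ] [IsFiniteMeasure ν] {A : Set (ℝ × ℝ)}
    (hA : MeasurableSet A) : Integrable (fun x => ν.real {y | (x, y) ∈ A}) μ ∧
      Integrable (fun y => μ.real {x | (x, y) ∈ A}) ν ∧
      ∫ x, ν.real {y | (x, y) ∈ A} ∂μ = ∫ y, μ.real {x | (x, y) ∈ A} ∂ν := by
  refine ⟨Measure.integrable_measure_prodMk_left hA (measure_ne_top _ _),
    Measure.integrable_measure_prodMk_left (measurable_swap hA) (measure_ne_top _ _), ?_⟩
  change ∫ x, (ν (Prod.mk x ⁻¹' A)).toReal ∂μ = ∫ y, (μ ((fun x => (x, y)) ⁻¹' A)).toReal ∂ν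
  rw [integral_toReal (measurable_measure_prodMk_left hA).aemeasurable
      (Eventually.of_forall fun _ => measure_lt_top _ _),
    integral_toReal (measurable_measure_prodMk_right hA).aemeasurable
      (Eventually.of_forall fun _ => measure_lt_top _ _),
    ← Measure.prod_apply hA, ← Measure.prod_apply_symm hA]

theorem sub_le_gam {c : ℝ → ℝ} {r γ₀ y : ℝ} (hγ : 0 ≤ γ₀) (hc : ∀ x, c x ≤ max r (x + γ₀))
    (h0 : 0 ≤ y) (h1 : y ≤ 1) :
    y - gam.real {θ | Ph (c θ) ≤ y} ≤ γ₀ / 2 + if y < Ph r then y else 0 := by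
  have hn : 0 ≤ gam.real {θ | Ph (c θ) ≤ y} := measureReal_nonneg
  split_ifs with h
  · linarith
  rcases h1.eq_or_lt with rfl | h1
  · have : {θ | Ph (c θ) ≤ 1} = univ := eq_univ_of_forall fun θ => (Ph_lt_one _).le
    rw [this, probReal_univ]
    linarith
  obtain ⟨s, rfl⟩ := exists_Ph_eq ((Ph_pos r).trans_le (not_lt.1 h)) h1
  have a1 : r ≤ s := Ph_strictMono.le_iff_le.1 (not_lt.1 h)
  have a2 : Ph (s - γ₀) ≤ gam.real {θ | Ph (c θ) ≤ Ph s} :=
    measureReal_mono fun x hx => Ph_mono ((hc x).trans (max_le a1 (by linarith [mem_Iic.1 hx])))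
  linarith [Ph_sub_le (show s - γ₀ ≤ s by linarith)]

theorem integral_Ph_le {D κ : ℝ} (hD : 0 ≤ D) (hκ : 0 < κ) :
    ∫ x in Icc (-D) 0, Ph (x / κ) ≤ κ / 2 := by
  have h : ∀ x, HasDerivAt (fun x => x * Ph (x / κ) + κ * ph (x / κ)) (Ph (x / κ)) x := by
    intro x
    have a0 : HasDerivAt (fun x : ℝ => x / κ) (1 / κ) x := (hasDerivAt_id x).div_const κ
    refine (((hasDerivAt_id x).mul ((hasDerivAt_Ph _).comp x a0)).add
      (((hasDerivAt_ph _).comp x a0).const_mul κ)).congr_deriv ?_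
    simp only [id, Function.comp]
    field_simp
    ring
  rw [integral_Icc_eq_integral_Ioc, ← intervalIntegral.integral_of_le (by linarith),
    intervalIntegral.integral_eq_sub_of_hasDerivAt (fun x _ => h x)
      ((continuous_Ph.comp (continuous_id.div_const κ)).intervalIntegrable _ _)]
  have a1 : κ * ph (0 / κ) ≤ κ * (1 / 2) := by gcongr; exact ph_le _
  have a2 : D * Ph (-D / κ) ≤ κ * ph (-D / κ) := by
    rcases hD.eq_or_lt with rfl | hD
    · have := ph_pos (-0 / κ)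
      rw [zero_mul]
      positivity
    · have := mul_Ph_neg_le (div_pos hD hκ)
      rw [neg_div, ph_neg]
      rw [div_mul_eq_mul_div, div_le_iff₀ hκ] at this
      linarith
  linarith

theorem integral_split {D T : ℝ} (hD : 0 ≤ D) (hT : 0 ≤ T) {f : ℝ → ℝ} (hf : Measurable f) {C : ℝ}
    (h : ∀ x, |f x| ≤ C) :
    ∫ x in Icc (-D) T, f x = (∫ x in Icc (-D) 0, f x) + ∫ x in Icc 0 T, f x := by
  rw [← Icc_union_Icc_eq_Icc (show -D ≤ 0 by linarith) hT,
    setIntegral_union₀ _ measurableSet_Icc.nullMeasurableSet (integrableOn_Icc_of_bdd hf h _ _)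
      (integrableOn_Icc_of_bdd hf h _ _)]
  exact measure_mono_null (fun x hx => le_antisymm hx.1.2 hx.2.1) (measure_singleton (0 : ℝ))

/-- the window lemma at unit scale -/
theorem window_one (t : ℕ) (ht : 3 ≤ t) (ε : ℝ) (hε : 0 < ε) :
    ∃ ε₁ > 0, ∀ γ > 0, ∀ D₀ : ℝ, ∃ D R γ₀ : ℝ, D₀ ≤ D ∧ 0 < γ₀ ∧ 0 ≤ D ∧
      ∀ m : ℝ → ℝ, Measurable m → (∀ x, 0 ≤ m x) → (∀ x, m x ≤ 1) →
        1 / 4 ≤ ∫ x in Icc (-D) 0, m x →
        (∫ x in Icc (-D) 0, m x) + (∫ x in Icc 0 (t * D), (1 - m x)) ≤ 2 →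
        (∫ x in Icc (-D) 0, if m x ≤ γ then m x else 0) ≤ ε₁ →
        (∀ σ θ : Fin t → ℝ, (∀ a, σ a ∈ Icc (-D) (t * D)) → ∑ a, σ a = 0 →
          (∀ a, |θ a| ≤ R) → γ₀ ≤ ∑ a, θ a → ∃ a, m (σ a) < Ph (θ a)) →
        (∫ x in Icc (-D) 0, m x) - (∫ x in Icc 0 (t * D), (1 - m x)) ≤ ε ∧
        (-ε₁ ≤ (∫ x in Icc (-D) 0, m x) - (∫ x in Icc 0 (t * D), (1 - m x)) →
          ∃ κ, 1 / 8 ≤ κ ∧ κ ≤ 2 / Ph (-2) + 1 ∧
            ∫ x in Icc (-D) (t * D), |m x - Ph (x / κ)| ≤ ε) := by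
  have h3 : (3 : ℝ) ≤ t := by exact_mod_cast ht
  set e := min ε (1 / 8)
  have he : 0 < e := by positivity
  have he1 : e ≤ ε := min_le_left _ _
  have he2 : e ≤ 1 / 8 := min_le_right _ _
  obtain ⟨η, hη, hlin⟩ := approx_linear ht (half_pos he)
  set ε₁ := min (η / 7) (e / (2 * (13 + 14 * t)))
  have hε₁ : 0 < ε₁ := by positivity
  have e1 : ε₁ ≤ η / 7 := min_le_left _ _
  have e2 : ε₁ * (2 * (13 + 14 * t)) ≤ e := (le_div_iff₀ (by positivity)).1 (min_le_right _ _)
  have e3 : 0 ≤ ε₁ * t := by positivity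
  refine ⟨ε₁, hε₁, fun γ hγ D₀ => ?_⟩
  obtain ⟨r, hr, hr0⟩ := ((tendsto_Ph_neg.eventually (gt_mem_nhds (lt_min hγ hε₁))).and
    (eventually_ge_atTop 0)).exists
  set R := t * r + 1 with hR
  have hrR : r + 1 ≤ R := by nlinarith
  set D := max D₀ (2 / Ph (-R))
  have hD1 : 2 / Ph (-R) ≤ D := le_max_right _ _
  have hD : 0 < D := lt_of_lt_of_le (by have := Ph_pos (-R); positivity) hD1
  set γ₀ := min 1 (ε₁ / ((t + 1) * D))
  have hγ0 : 0 < γ₀ := by positivity
  have hγ1 : γ₀ ≤ 1 := min_le_left _ _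
  have hγ2 : γ₀ * ((t + 1) * D) ≤ ε₁ := (le_div_iff₀ (by positivity)).1 (min_le_right _ _)
  refine ⟨D, R, γ₀, le_max_left _ _, hγ0, hD.le, fun m hm h0 h1 hE hs hlow H => ?_⟩
  set T := (t : ℝ) * D with hT
  have hT0 : 0 ≤ T := by positivity
  set Ex := ∫ x in Icc (-D) 0, m x
  set De := ∫ x in Icc 0 T, (1 - m x) with hDe
  have De0 : 0 ≤ De := integral_nonneg fun x => sub_nonneg.2 (h1 x)
  have habs : ∀ x, |m x| ≤ 1 := fun x => abs_le.2 ⟨by linarith [h0 x], h1 x⟩
  have him := integrableOn_Icc_of_bdd hm habs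
  have hsplit : ∫ x, m x ∂muW D T = Ex + (T - De) := by
    rw [integral_split hD.le hT0 hm habs, hDe, integral_sub (integrable_const _) (him _ _)]
    simp [hT0, Ex]
  set c : ℝ → ℝ := fun θ => max (-r) (min (θ + γ₀) R)
  have cm : Monotone c := fun x y h => max_le_max le_rfl (min_le_min (by linarith) le_rfl)
  have cR : ∀ θ, |c θ| ≤ R := fun θ => abs_le.2 ⟨le_max_of_le_left (by linarith),
    max_le (by linarith) (min_le_right _ _)⟩
  have cs : ∀ θ : Fin t → ℝ, ∑ a, θ a = 0 → γ₀ ≤ ∑ a, c (θ a) := by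
    intro θ hθ
    by_cases h : ∀ a, θ a + γ₀ ≤ R
    · have a1 : ∑ a, (θ a + γ₀) ≤ ∑ a, c (θ a) :=
        Finset.sum_le_sum fun a _ => le_max_of_le_right (le_min le_rfl (h a))
      rw [Finset.sum_add_distrib, hθ, Finset.sum_const, Finset.card_univ, Fintype.card_fin,
        nsmul_eq_mul] at a1
      nlinarith
    · obtain ⟨a, ha⟩ := not_forall.1 h
      have a1 := Finset.single_le_sum (s := Finset.univ) (f := fun a => c (θ a) + r)
        (fun a _ => by linarith [le_max_left (-r) (min (θ a + γ₀) R)]) (Finset.mem_univ a)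
      have a2 : R ≤ c (θ a) := le_max_of_le_right (le_min (not_le.1 ha).le le_rfl)
      rw [Finset.sum_add_distrib, Finset.sum_const, Finset.card_univ, Fintype.card_fin,
        nsmul_eq_mul] at a1
      linarith
  have tl : ∀ θ, tau D T m θ ≤ 2 / Ph (-θ) := fun θ => (tau_le hD.le hT0 hm h0 h1 θ).trans
    (div_le_div_of_nonneg_right (by linarith) (Ph_pos _).le)
  set g : ℝ → ℝ := fun θ => tau D T m (c θ)
  have gm : Monotone g := (tau_mono D T m).comp cm
  obtain ⟨a₀, hd⟩ : ∃ a₀ : Fin t, ∀ θ : Fin t → ℝ, ∑ a, θ a = 0 →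
      (muW D T).real (Yl m (c (θ a₀)) ∆ Ici (g (θ a₀))) ≤ 2 * ∑ a, g (θ a) := by
    obtain ⟨n, rfl⟩ := Nat.exists_eq_add_of_le' ht
    refine ⟨2, fun θ hθ =>
      tuple_le hD.le hm H (fun a => c (θ a)) (fun a => cR _) (cs θ hθ) fun a => ?_⟩
    have := (tau_mono D T m (abs_le.1 (cR (θ a))).2).trans ((tl R).trans hD1)
    nlinarith
  have g0 : ∀ θ : Fin t → ℝ, ∑ a, θ a = 0 → 0 ≤ ∑ a, g (θ a) := fun θ hθ => by
    linarith [measureReal_nonneg.trans (hd θ hθ)]
  have hA : MeasurableSet {q : ℝ × ℝ | Ph (c q.1) ≤ m q.2} :=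
    measurableSet_le (Ph_mono.measurable.comp (cm.measurable.comp measurable_fst))
      (hm.comp measurable_snd)
  obtain ⟨i1, i2, i3⟩ := fubini_real gam (muW D T) hA
  set p : ℝ → ℝ := fun σ => gam.real {θ | Ph (c θ) ≤ m σ}
  replace i2 : Integrable p (muW D T) := i2
  have gi : Integrable g gam := (integrable_const T).sub i1
  have ge : ∫ x, g x ∂gam = T - ∫ σ, p σ ∂muW D T := by
    refine (integral_sub (integrable_const T) i1).trans ?_
    rw [i3]
    simp [p]
  have gE : 0 ≤ ∫ x, g x ∂gam := by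
    have a1 := (integral_sum_th ht gi).2
    have a2 : 0 ≤ ∫ z : Fin t → ℝ, ∑ a, g (th z a) ∂(Measure.pi fun _ => gam) :=
      integral_nonneg fun z => g0 _ (sum_th ht z)
    exact nonneg_of_mul_nonneg_right (by linarith) (show (0 : ℝ) < t by linarith)
  set l : ℝ → ℝ := fun σ => if m σ < Ph (-r) then m σ else 0
  have lm : Measurable l := Measurable.ite (measurableSet_lt hm measurable_const) hm
    measurable_const
  have l1 : ∀ x, |l x| ≤ 1 := fun x => by
    simp only [l]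
    split_ifs
    exacts [habs x, by simp]
  have li := integrableOn_Icc_of_bdd lm l1
  have hl : ∫ σ, (γ₀ / 2 + l σ) ∂muW D T ≤ 6 * ε₁ := by
    have b1 := hr.le.trans (min_le_left _ _)
    have b2 := hr.le.trans (min_le_right _ _)
    have a1 : ∫ x in Icc (-D) 0, l x ≤ ε₁ := by
      refine le_trans (integral_mono (li _ _) (integrableOn_Icc_of_bdd
        (Measurable.ite (measurableSet_le hm measurable_const) hm measurable_const) (C := 1)
        (fun x => by
          split_ifs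
          exacts [habs x, by simp]) _ _) fun x => ?_) hlow
      simp only [l]
      split_ifs <;> linarith [h0 x]
    have a2 : ∫ x in Icc 0 T, l x ≤ 2 * ε₁ * De := by
      rw [hDe, ← integral_const_mul]
      refine integral_mono (li _ _) (((integrable_const 1).sub (him _ _)).const_mul _) fun x => ?_
      have : Ph (-r) ≤ 1 / 2 := Ph_zero ▸ Ph_mono (by linarith)
      have a3 : 0 ≤ ε₁ * (1 - m x) := mul_nonneg hε₁.le (sub_nonneg.2 (h1 x))
      simp only [l]
      split_ifs with h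
      · have : 0 ≤ ε₁ * (1 / 2 - m x) := mul_nonneg hε₁.le (by linarith)
        linarith
      · linarith
    rw [integral_add (integrable_const _) (li _ _), integral_split hD.le hT0 lm l1, integral_const,
      measureReal_restrict_apply_univ, volume_real_Icc_of_le (by linarith), smul_eq_mul]
    have a3 : ε₁ * De ≤ ε₁ * 2 := by gcongr; linarith
    linarith
  have hmp : ∀ σ, m σ - p σ ≤ γ₀ / 2 + l σ := fun σ => sub_le_gam hγ0.le
    (fun x => max_le_max le_rfl (min_le_left _ _)) (h0 σ) (h1 σ)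
  have il : Integrable (fun σ => γ₀ / 2 + l σ) (muW D T) := (integrable_const _).add (li _ _)
  have imp : Integrable (fun σ => m σ - p σ) (muW D T) := (him _ _).sub i2
  have s1 : ∫ σ, (m σ - p σ) ∂muW D T = Ex - De + ∫ x, g x ∂gam := by
    rw [integral_sub (him _ _) i2, hsplit, ge]
    ring
  have s2 := (integral_mono imp il hmp).trans hl
  refine ⟨by linarith, fun hb => ?_⟩
  obtain ⟨κ, hκ, hκ1, hk⟩ := hlin g gm gi g0 (fun x hx => (tau_mono D T m (max_le (by linarith)
    ((min_le_left _ _).trans (by linarith)))).trans (tl (x + 1))) (by linarith)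
  have s3 : ∫ σ, |m σ - p σ| ∂muW D T ≤ 13 * ε₁ := by
    have a1 : ∫ σ, |m σ - p σ| ∂muW D T ≤ ∫ σ, (2 * (γ₀ / 2 + l σ) - (m σ - p σ)) ∂muW D T := by
      refine integral_mono imp.abs ((il.const_mul 2).sub imp) fun σ => ?_
      have : 0 ≤ l σ := by
        simp only [l]
        split_ifs
        exacts [h0 σ, le_rfl]
      exact abs_le.2 ⟨by linarith, by linarith [hmp σ]⟩
    rw [integral_sub (il.const_mul 2) imp, integral_const_mul] at a1
    linarith
  obtain ⟨j1, j2, j3⟩ := fubini_real gam (muW D T) (hA.symmDiff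
    (measurableSet_le (f := fun q : ℝ × ℝ => κ * q.1) (by fun_prop) measurable_snd))
  set F : ℝ → ℝ := fun θ => (muW D T).real (Yl m (c θ) ∆ Ici (κ * θ))
  replace j1 : Integrable F gam := j1
  have hid : Integrable (fun x : ℝ => κ * x) gam := IsGaussian.integrable_id.const_mul κ
  have ik : Integrable (fun x => |g x - κ * x|) gam := (gi.sub hid).abs
  have s4 : ∫ θ, (F θ - |g θ - κ * θ|) ∂gam ≤ 2 * (t * ∫ x, g x ∂gam) := by
    have iF : Integrable (fun θ => F θ - |g θ - κ * θ|) gam := j1.sub ik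
    have mp := mp_th ht a₀
    obtain ⟨a1, a2⟩ := integral_sum_th ht gi
    rw [← a2, ← integral_const_mul, ← mp.map_eq, integral_map mp.measurable.aemeasurable
      (by rw [mp.map_eq]; exact iF.1), mp.map_eq]
    refine integral_mono (mp.integrable_comp_of_integrable iF) (a1.const_mul 2) fun z => ?_
    have h := hd _ (sum_th ht z)
    have b1 := measureReal_symmDiff_le (μ := muW D T) (s := Yl m (c (th z a₀)))
      (t := Ici (g (th z a₀))) (Ici (κ * th z a₀)) (measure_ne_top _ _) (measure_ne_top _ _)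
    have b2 := muW_Ici D T (g (th z a₀)) (κ * th z a₀)
    simp only [F]
    linarith
  have iq : ∀ a b, IntegrableOn (fun x => Ph (x / κ)) (Icc a b) := fun a b =>
    (continuous_Ph.comp (continuous_id.div_const κ)).integrableOn_Icc
  have ipq : Integrable (fun σ => |p σ - Ph (σ / κ)|) (muW D T) := (i2.sub (iq _ _)).abs
  have s5 : ∫ σ, |p σ - Ph (σ / κ)| ∂muW D T ≤ ∫ θ, F θ ∂gam := by
    refine le_trans (integral_mono ipq j2 fun σ => ?_) j3.symm.le
    have a1 : Iic (σ / κ) = {θ | κ * θ ≤ σ} := by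
      ext θ
      exact le_div_iff₀' hκ
    rw [Ph, a1]
    exact abs_measureReal_sub_le_measureReal_symmDiff
      (measurableSet_le (Ph_mono.measurable.comp cm.measurable)
        measurable_const).nullMeasurableSet
      (measurableSet_le (by fun_prop) measurable_const).nullMeasurableSet
  rw [integral_sub j1 ik] at s4
  have s6 : ∫ σ, |m σ - Ph (σ / κ)| ∂muW D T ≤ e := by
    have a1 : ∫ σ, |m σ - Ph (σ / κ)| ∂muW D T ≤
        ∫ σ, (|m σ - p σ| + |p σ - Ph (σ / κ)|) ∂muW D T :=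
      integral_mono ((him _ _).sub (iq _ _)).abs (imp.abs.add ipq)
        fun σ => abs_sub_le _ _ _
    rw [integral_add imp.abs ipq] at a1
    have a2 : t * ∫ x, g x ∂gam ≤ t * (7 * ε₁) := by gcongr; linarith
    linarith
  refine ⟨κ, ?_, hκ1, s6.trans he1⟩
  have a1 := integral_Ph_le hD.le hκ
  have a2 : ∫ σ in Icc (-D) 0, (m σ - Ph (σ / κ)) ≤ ∫ σ, |m σ - Ph (σ / κ)| ∂muW D T :=
    (integral_mono ((him _ _).sub (iq _ _)) ((him _ _).sub (iq _ _)).abs
      fun σ => le_abs_self _).trans (setIntegral_mono_set ((him _ _).sub (iq _ _)).abs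
        (Eventually.of_forall fun _ => abs_nonneg _) (Icc_subset_Icc_right hT0).eventuallyLE)
  rw [integral_sub (him _ _) (iq _ _)] at a2
  linarith

theorem integral_Icc_scale (f : ℝ → ℝ) {a b δ : ℝ} (hab : a ≤ b) (hδ : 0 < δ) :
    ∫ x in Icc (a * δ) (b * δ), f x = (∫ x in Icc a b, f (x * δ)) * δ := by
  rw [integral_Icc_eq_integral_Ioc, integral_Icc_eq_integral_Ioc,
    ← intervalIntegral.integral_of_le hab,
    ← intervalIntegral.integral_of_le (mul_le_mul_of_nonneg_right hab hδ.le),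
    intervalIntegral.integral_comp_mul_right _ hδ.ne', smul_eq_mul]
  field_simp

end Win

open Win in
/-- window lemma (paper, section 8.2) -/
theorem window (t : ℕ) (ht : 3 ≤ t) (ε : ℝ) (hε : 0 < ε) :
    ∃ ε₁ > 0, ∀ γ > 0, ∀ D₀ : ℝ, ∃ D R γ₀ : ℝ, D₀ ≤ D ∧ 0 < γ₀ ∧
      ∀ (m : ℝ → ℝ) (δ : ℝ), Measurable m → (∀ x, 0 ≤ m x) → (∀ x, m x ≤ 1) → 0 < δ →
        δ / 4 ≤ ∫ x in Icc (-(D * δ)) 0, m x →
        (∫ x in Icc (-(D * δ)) 0, m x) + (∫ x in Icc 0 (t * D * δ), (1 - m x)) ≤ 2 * δ →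
        (∫ x in Icc (-(D * δ)) 0, if m x ≤ γ then m x else 0) ≤ ε₁ * δ →
        (∀ σ θ : Fin t → ℝ, (∀ a, σ a ∈ Icc (-(D * δ)) (t * D * δ)) → ∑ a, σ a = 0 →
          (∀ a, |θ a| ≤ R) → γ₀ ≤ ∑ a, θ a → ∃ a, m (σ a) < Ph (θ a)) →
        (∫ x in Icc (-(D * δ)) 0, m x) - (∫ x in Icc 0 (t * D * δ), (1 - m x)) ≤ ε * δ ∧
        (-(ε₁ * δ) ≤ (∫ x in Icc (-(D * δ)) 0, m x) - (∫ x in Icc 0 (t * D * δ), (1 - m x)) →
          ∃ κ, δ / 8 ≤ κ ∧ κ ≤ (2 / Ph (-2) + 1) * δ ∧
            ∫ x in Icc (-(D * δ)) (t * D * δ), |m x - Ph (x / κ)| ≤ ε * δ) := by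
  obtain ⟨ε₁, hε₁, h⟩ := window_one t ht ε hε
  refine ⟨ε₁, hε₁, fun γ hγ D₀ => ?_⟩
  obtain ⟨D, R, γ₀, hD₀, hγ₀, hD, h⟩ := h γ hγ D₀
  refine ⟨D, R, γ₀, hD₀, hγ₀, fun m δ hm h0 h1 hδ hE hs hlow H => ?_⟩
  have hT : 0 ≤ t * D := by positivity
  have e1 : ∀ f : ℝ → ℝ, ∫ x in Icc (-(D * δ)) 0, f x = (∫ x in Icc (-D) 0, f (x * δ)) * δ :=
    fun f => by rw [← integral_Icc_scale f (by linarith) hδ, neg_mul, zero_mul]
  have e2 : ∀ f : ℝ → ℝ, ∫ x in Icc 0 (t * D * δ), f x = (∫ x in Icc 0 (t * D), f (x * δ)) * δ :=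
    fun f => by rw [← integral_Icc_scale f hT hδ, zero_mul]
  rw [e1] at hE hlow
  rw [e1, e2] at hs ⊢
  obtain ⟨c1, c2⟩ := h (fun x => m (x * δ)) (hm.comp (measurable_mul_const δ)) (fun _ => h0 _)
    (fun _ => h1 _) (le_of_mul_le_mul_right (by linarith) hδ)
    (le_of_mul_le_mul_right (by linarith) hδ) (le_of_mul_le_mul_right hlow hδ)
    fun σ θ hσ hs => H (fun a => σ a * δ) θ (fun a => ⟨by nlinarith [(hσ a).1],
      mul_le_mul_of_nonneg_right (hσ a).2 hδ.le⟩) (by rw [← Finset.sum_mul, hs, zero_mul])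
  refine ⟨by nlinarith, fun hb => ?_⟩
  obtain ⟨κ, k1, k2, k3⟩ := c2 (le_of_mul_le_mul_right (by linarith) hδ)
  refine ⟨κ * δ, by nlinarith, mul_le_mul_of_nonneg_right k2 hδ.le, ?_⟩
  rw [← neg_mul, integral_Icc_scale _ (by linarith) hδ]
  simp only [mul_div_mul_right _ _ hδ.ne']
  exact mul_le_mul_of_nonneg_right k3 hδ.le

end Pool.Agent.BL
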