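import Pool.Agent.P.MP_edb112_gt.Basic

/-! The isodiametric inequality on the sphere by two-point symmetrization. -/

set_option autoImplicit false
set_option linter.unusedSectionVars false

open MeasureTheory Set Module TopologicalSpace
open scoped RealInnerProductSpace Topology

noncomputable section

namespace Pool.Agent.BL

variable {E : Type} [NormedAddCommGroup E] [InnerProductSpace ℝ E] [CompleteSpace E]
  [FiniteDimensional ℝ E] [MeasurableSpace E] [BorelSpace E]

namespace P2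

/-- the measure of a compact set is upper semicontinuous -/
theorem isOpen_meas_lt (ν : Measure E) [IsFiniteMeasure ν] (c : ENNReal) :
    IsOpen {K : Compacts E | ν K < c} := by
  refine isOpen_iff_forall_mem_open.2 fun K hK => ?_
  obtain ⟨U, hKU, hU, hc⟩ := (K : Set E).exists_isOpen_lt_of_lt (μ := ν) c hK
  exact ⟨{L : Compacts E | (L : Set E) ⊆ U}, fun L hL => (measure_mono hL).trans_lt hc,
    Compacts.isOpen_subsets_of_isOpen hU, hKU⟩

/-- a reflection -/
structure Refl (g : G E) (u : E) : Prop where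
  form : ∃ c : ℝ, 0 < c ∧ ∀ z, ap g z = z - (c * ⟪u, z⟫) • u
  invol : ∀ z, ap g (ap g z) = z
  neg : ∀ z, ⟪u, ap g z⟫ = -⟪u, z⟫

theorem exists_refl {x y : E} (h : ‖x‖ = ‖y‖) (hxy : x ≠ y) :
    ∃ g : G E, Refl g (y - x) ∧ ap g x = y := by
  obtain ⟨g, h1, h2, h3⟩ := exists_ap_eq h
  have hu : y - x ≠ 0 := sub_ne_zero.2 hxy.symm
  have hp : 0 < ⟪y - x, y - x⟫ := real_inner_self_pos.2 hu
  have hg : ap g (y - x) = -(y - x) := by rw [ap_sub, h1, h2, neg_sub]
  set u := y - x with hudef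
  have form : ∀ z, ap g z = z - (2 / ⟪u, u⟫ * ⟪u, z⟫) • u := by
    intro z
    have e0 : ⟪x - y, z - (⟪u, z⟫ / ⟪u, u⟫) • u⟫ = 0 := by
      have : x - y = -u := by rw [hudef, neg_sub]
      rw [this, inner_neg_left, inner_sub_right, real_inner_smul_right, div_mul_cancel₀ _ hp.ne',
        sub_self, neg_zero]
    have e1 := h3 _ e0
    rw [ap_sub, ap_smul, hg, smul_neg, sub_neg_eq_add] at e1
    have e2 : ap g z = z - (⟪u, z⟫ / ⟪u, u⟫) • u - (⟪u, z⟫ / ⟪u, u⟫) • u := by
      rw [← e1, add_sub_cancel_right]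
    rw [e2, sub_sub, ← add_smul]
    congr 2
    ring
  have neg : ∀ z, ⟪u, ap g z⟫ = -⟪u, z⟫ := by
    intro z
    rw [form, inner_sub_right, real_inner_smul_right]
    field_simp
    ring
  refine ⟨g, ⟨⟨2 / ⟪u, u⟫, by positivity, form⟩, fun z => ?_, neg⟩, h1⟩
  rw [form (ap g z), neg, form z, mul_neg, neg_smul, sub_neg_eq_add, sub_add_cancel]

/-- the part of `K` that is moved by the polarisation -/
def mov (g : G E) (u : E) (K : Set E) : Set E := {z | z ∈ K ∧ ap g z ∉ K ∧ ⟪u, z⟫ < 0}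

/-- the polarisation -/
def pol (g : G E) (u : E) (K : Set E) : Set E :=
  (K ∩ ap g ⁻¹' K) ∪ ((K ∪ ap g ⁻¹' K) ∩ {z | 0 ≤ ⟪u, z⟫})

theorem cont_ap (g : G E) : Continuous (ap g : E → E) :=
  continuous_ap continuous_const continuous_id

theorem isOpen_neg (u : E) : IsOpen {z : E | ⟪u, z⟫ < 0} :=
  isOpen_lt (continuous_const.inner continuous_id) continuous_const

theorem measurableSet_mov (g : G E) (u : E) {K : Set E} (hK : MeasurableSet K) :
    MeasurableSet (mov g u K) :=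
  hK.inter (((measurable_ap_right g) hK).compl.inter (isOpen_neg u).measurableSet)

theorem Refl.isCompact_pol {g : G E} {u : E} (hg : Refl g u) {K : Set E} (hK : IsCompact K) :
    IsCompact (pol g u K) := by
  have e : ap g ⁻¹' K = ap g '' K := by
    ext z
    constructor
    · intro hz
      exact ⟨_, hz, hg.invol z⟩
    · rintro ⟨w, hw, rfl⟩
      simpa [hg.invol] using hw
  have h1 : IsCompact (ap g ⁻¹' K) := e ▸ hK.image (cont_ap g)
  exact (hK.inter_right h1.isClosed).union ((hK.union h1).inter_right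
    (isClosed_le continuous_const (continuous_const.inner continuous_id)))

theorem Refl.pol_eq {g : G E} {u : E} (hg : Refl g u) (K : Set E) :
    pol g u K = (K \ mov g u K) ∪ ap g ⁻¹' mov g u K := by
  obtain ⟨c, -, hc⟩ := hg.form
  ext z
  simp only [pol, mov, mem_union, mem_inter_iff, mem_preimage, mem_ofPred_eq, mem_sdiff,
    hg.invol, hg.neg]
  by_cases h1 : z ∈ K <;> by_cases h2 : ap g z ∈ K
  · simp [h1, h2]
  · simp [h1, h2]
  · have : ⟪u, z⟫ ≠ 0 := by
      intro h0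
      rw [hc, h0, mul_zero, zero_smul, sub_zero] at h2
      exact h1 h2
    simp only [h1, h2, false_and, false_or, true_and, or_true, not_false_eq_true,
      Left.neg_neg_iff]
    exact ⟨fun h => lt_of_le_of_ne h this.symm, fun h => h.le⟩
  · simp [h1, h2]

theorem Refl.disjoint_pol {g : G E} {u : E} (hg : Refl g u) (K : Set E) :
    Disjoint (K \ mov g u K) (ap g ⁻¹' mov g u K) := by
  refine Set.disjoint_left.2 fun z hz hz' => hz'.2.1 ?_
  rw [hg.invol]
  exact hz.1

theorem Refl.inner_pol {g : G E} {u : E} (hg : Refl g u) {K : Set E} {β : ℝ}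
    (hK : ∀ x ∈ K, ∀ y ∈ K, β ≤ ⟪x, y⟫) : ∀ x ∈ pol g u K, ∀ y ∈ pol g u K, β ≤ ⟪x, y⟫ := by
  obtain ⟨c, hc0, hc⟩ := hg.form
  have key : ∀ a b : E, a ∈ K → ap g b ∈ K → 0 ≤ ⟪u, a⟫ → 0 ≤ ⟪u, b⟫ → β ≤ ⟪a, b⟫ := by
    intro a b ha hb hua hub
    have h1 := hK a ha _ hb
    rw [hc b, inner_sub_right, real_inner_smul_right, real_inner_comm u a] at h1
    have : 0 ≤ c * ⟪u, b⟫ * ⟪u, a⟫ := by positivity
    linarith
  have both : ∀ a b : E, ap g a ∈ K → ap g b ∈ K → β ≤ ⟪a, b⟫ := by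
    intro a b ha hb
    have h1 := hK _ ha _ hb
    rwa [inner_ap] at h1
  rintro a (⟨ha, ha'⟩ | ⟨ha | ha, hua⟩) b (⟨hb, hb'⟩ | ⟨hb | hb, hub⟩)
  · exact hK a ha b hb
  · exact hK a ha b hb
  · exact both a b ha' hb
  · exact hK a ha b hb
  · exact hK a ha b hb
  · exact key a b ha hb hua hub
  · exact both a b ha hb'
  · rw [real_inner_comm]
    exact key b a hb ha hub hua
  · exact both a b ha hb

theorem Refl.lintegral_pol {g : G E} {u : E} (hg : Refl g u) {K : Set E} (hK : MeasurableSet K)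
    {f : E → ENNReal} (hf : Measurable f) :
    ∫⁻ z in pol g u K, f z ∂sph E =
      ∫⁻ z in K \ mov g u K, f z ∂sph E + ∫⁻ z in mov g u K, f (ap g z) ∂sph E := by
  have hm := measurableSet_mov g u hK
  rw [hg.pol_eq, lintegral_union ((measurable_ap_right g) hm) (hg.disjoint_pol K)]
  congr 1
  have := (measurePreserving_ap_right g).setLIntegral_comp_preimage hm
    (hf.comp (measurable_ap_right g))
  simpa [Function.comp_def, hg.invol] using this

theorem lintegral_split (g : G E) (u : E) {K : Set E} (hK : MeasurableSet K) (f : E → ENNReal) :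
    ∫⁻ z in K, f z ∂sph E =
      ∫⁻ z in K \ mov g u K, f z ∂sph E + ∫⁻ z in mov g u K, f z ∂sph E := by
  rw [← lintegral_union (measurableSet_mov g u hK) disjoint_sdiff_left,
    sdiff_union_of_subset fun z hz => hz.1]

theorem Refl.measure_pol {g : G E} {u : E} (hg : Refl g u) {K : Set E} (hK : MeasurableSet K) :
    sph E (pol g u K) = sph E K := by
  have h1 := hg.lintegral_pol hK (f := fun _ => 1) measurable_const
  have h2 := lintegral_split g u hK fun _ => 1
  rw [← h2] at h1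
  simpa using h1

/-- the weight of the functional -/
def wt (e z : E) : ENNReal := ENNReal.ofReal (2 + ⟪e, z⟫)

theorem measurable_wt (e : E) : Measurable (wt e) :=
  (continuous_const.add (continuous_const.inner continuous_id)).measurable.ennreal_ofReal

theorem lintegral_wt_ne_top [Nontrivial E] (e : E) : ∫⁻ z, wt e z ∂sph E ≠ ⊤ :=
  (integrable_of_continuousOn (f := fun z => 2 + ⟪e, z⟫)
    (continuous_const.add (continuous_const.inner continuous_id)).continuousOn).lintegral_lt_top.ne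

theorem Refl.lt_pol [Nontrivial E] {g : G E} {u e : E} (hg : Refl g u) (he : ‖e‖ = 1)
    (hu : 0 < ⟪e, u⟫) {K : Set E} (hK : MeasurableSet K) (hS : ∀ z ∈ K, ‖z‖ = 1)
    (h0 : sph E (mov g u K) ≠ 0) :
    ∫⁻ z in K, wt e z ∂sph E < ∫⁻ z in pol g u K, wt e z ∂sph E := by
  obtain ⟨c, hc0, hc⟩ := hg.form
  have fin : ∀ T : Set E, ∫⁻ z in T, wt e z ∂sph E ≠ ⊤ := fun T =>
    ne_top_of_le_ne_top (lintegral_wt_ne_top e) (setLIntegral_le_lintegral _ _)
  rw [hg.lintegral_pol hK (measurable_wt e), lintegral_split g u hK]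
  refine ENNReal.add_lt_add_left (fin _) ?_
  refine setLIntegral_strict_mono (measurableSet_mov g u hK) h0
    ((measurable_wt e).comp (measurable_ap_right g)) (fin _)
    (Filter.Eventually.of_forall fun z hz => ?_)
  have h1 : |⟪e, z⟫| ≤ 1 := by
    have := abs_real_inner_le_norm e z
    rwa [he, hS z hz.1, one_mul] at this
  have h2 : ⟪e, z⟫ < ⟪e, ap g z⟫ := by
    rw [hc, inner_sub_right, real_inner_smul_right]
    have : 0 < c * (-⟪u, z⟫) * ⟪e, u⟫ := by
      have := neg_pos.2 hz.2.2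
      positivity
    linarith
  have h3 := (abs_le.1 h1).1
  exact (ENNReal.ofReal_lt_ofReal_iff (by linarith)).2 (by linarith)

/-- a maximiser contains everything above a level below which it has positive measure -/
theorem mem_of_max [Nontrivial E] {e : E} (he : ‖e‖ = 1) {K : Set E} (hK : IsCompact K)
    (hS : ∀ z ∈ K, ‖z‖ = 1)
    (hmax : ∀ (g : G E) (u : E), Refl g u →
      ∫⁻ z in pol g u K, wt e z ∂sph E ≤ ∫⁻ z in K, wt e z ∂sph E)
    {s : ℝ} (hs : sph E (K ∩ {z | ⟪e, z⟫ ≤ s}) ≠ 0) {y : E} (hy : ‖y‖ = 1) (hys : s < ⟪e, y⟫) :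
    y ∈ K := by
  by_contra hyK
  obtain ⟨x, ⟨hxK, hxs⟩, hx⟩ := exists_mem_forall_mem_nhdsWithin_pos_measure hs
  have hxy : x ≠ y := fun h => hyK (h ▸ hxK)
  obtain ⟨g, hg, hgx⟩ := exists_refl ((hS x hxK).trans hy.symm) hxy
  have hN : IsOpen {z : E | ap g z ∉ K ∧ ⟪y - x, z⟫ < 0} :=
    ((hK.isClosed.preimage (cont_ap g)).isOpen_compl).inter (isOpen_neg (y - x))
  have hxN : x ∈ {z : E | ap g z ∉ K ∧ ⟪y - x, z⟫ < 0} := by
    refine ⟨hgx ▸ hyK, ?_⟩
    have h1 := hg.neg x
    have h2 : 0 < ⟪y - x, y - x⟫ := real_inner_self_pos.2 (sub_ne_zero.2 hxy.symm)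
    rw [hgx] at h1
    rw [inner_sub_right (y - x)] at h2
    linarith
  have h1 := hx _ (inter_mem_nhdsWithin _ (hN.mem_nhds hxN))
  have h2 : sph E (mov g (y - x) K) ≠ 0 :=
    (h1.trans_le (measure_mono (t := mov g (y - x) K) fun z hz => ⟨hz.1.1, hz.2⟩)).ne'
  have h3 : 0 < ⟪e, y - x⟫ := by
    rw [inner_sub_right]
    have : ⟪e, x⟫ ≤ s := hxs
    linarith
  exact (hg.lt_pol he h3 hK.measurableSet hS h2).not_ge (hmax g _ hg)

theorem exists_perp (hn : 2 ≤ finrank ℝ E) {e : E} (he : ‖e‖ = 1) :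
    ∃ w : E, ‖w‖ = 1 ∧ ⟪e, w⟫ = 0 := by
  have he0 : e ≠ 0 := by
    rintro rfl
    simp at he
  have h1 := Submodule.finrank_add_finrank_orthogonal (ℝ ∙ e)
  rw [finrank_span_singleton he0] at h1
  have : Nontrivial (ℝ ∙ e)ᗮ := Module.nontrivial_of_finrank_pos (R := ℝ) (by omega)
  obtain ⟨w, hw⟩ := exists_norm_eq (ℝ ∙ e)ᗮ zero_le_one
  exact ⟨w, hw, Submodule.mem_orthogonal_singleton_iff_inner_right.1 w.2⟩

end P2

open P2 in
/-- the case of two points (paper, section 9) -/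
theorem two_point (hn : 2 ≤ finrank ℝ E) {e : E} (he : ‖e‖ = 1) {h : ℝ} (h0 : 0 < h) (h1 : h < 1)
    {A : Set E} (hA : MeasurableSet A)
    (hf : ∀ x ∈ A, ∀ y ∈ A, ‖x‖ = 1 → ‖y‖ = 1 → 2 * h ^ 2 - 1 < ⟪x, y⟫) :
    sph E A ≤ sph E (cap e h) := by
  have : Nontrivial E := Module.nontrivial_of_finrank_pos (R := ℝ) (by omega)
  by_contra hlt
  rw [not_le] at hlt
  have hSm : MeasurableSet {x : E | ‖x‖ = 1} := isCompact_unit.measurableSet
  have eA : sph E (A ∩ {x : E | ‖x‖ = 1}) = sph E A :=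
    measure_congr (inter_ae_eq_left_of_ae_eq_univ (ae_eq_univ.2 ae_norm))
  rw [← eA] at hlt
  obtain ⟨K0, hK0, hK0c, hK0m⟩ :=
    (hA.inter hSm).exists_lt_isCompact_of_ne_top (measure_ne_top _ _) hlt
  set F : Set (Compacts E) := {K | (K : Set E) ⊆ {x : E | ‖x‖ = 1}} ∩
    ({K | ((K ×ˢ K : Compacts (E × E)) : Set (E × E)) ⊆ {p | 2 * h ^ 2 - 1 ≤ ⟪p.1, p.2⟫}} ∩
      {K | sph E K < sph E K0}ᶜ) with hF
  have memF : ∀ K : Compacts E, K ∈ F ↔ (∀ z ∈ (K : Set E), ‖z‖ = 1) ∧
      (∀ x ∈ (K : Set E), ∀ y ∈ (K : Set E), 2 * h ^ 2 - 1 ≤ ⟪x, y⟫) ∧ sph E K0 ≤ sph E K := by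
    intro K
    simp only [hF, mem_inter_iff, mem_ofPred_eq, mem_compl_iff, not_lt, Compacts.coe_prod,
      prod_subset_iff]
    rfl
  have hFc : IsCompact F := by
    refine (Compacts.isCompact_subsets_of_isCompact isCompact_unit).inter_right
      (IsClosed.inter ?_ (isOpen_meas_lt _ _).isClosed_compl)
    exact (Compacts.isClosed_subsets_of_isClosed
      (isClosed_le continuous_const (continuous_fst.inner continuous_snd))).preimage
      (Compacts.continuous_prod.comp (continuous_id.prodMk continuous_id))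
  have hFn : F.Nonempty := ⟨⟨K0, hK0c⟩, (memF _).2 ⟨fun z hz => (hK0 hz).2,
    fun x hx y hy => (hf x (hK0 hx).1 y (hK0 hy).1 (hK0 hx).2 (hK0 hy).2).le, le_rfl⟩⟩
  have hfin := isFiniteMeasure_withDensity (lintegral_wt_ne_top e)
  have husc : UpperSemicontinuous fun K : Compacts E => (sph E).withDensity (wt e) K :=
    upperSemicontinuous_iff_isOpen_preimage.2 fun c => isOpen_meas_lt _ c
  obtain ⟨K, hKF, hmax⟩ := (husc.upperSemicontinuousOn F).exists_isMaxOn hFn hFc
  obtain ⟨hS, hin, hm⟩ := (memF K).1 hKF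
  have hKm : MeasurableSet (K : Set E) := K.isCompact.measurableSet
  have hmax' : ∀ (g : G E) (u : E), Refl g u →
      ∫⁻ z in pol g u K, wt e z ∂sph E ≤ ∫⁻ z in K, wt e z ∂sph E := by
    intro g u hg
    have hc := hg.isCompact_pol K.isCompact
    have hP : (⟨pol g u K, hc⟩ : Compacts E) ∈ F := by
      refine (memF _).2 ⟨?_, hg.inner_pol hin, hm.trans_eq (hg.measure_pol hKm).symm⟩
      rintro z (hz | ⟨hz | hz, -⟩)
      · exact hS z hz.1
      · exact hS z hz
      · exact (norm_ap g z).symm.trans (hS _ hz)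
    have := hmax hP
    simp only [mem_ofPred_eq, Compacts.coe_mk] at this
    rwa [withDensity_apply _ hc.measurableSet, withDensity_apply _ hKm] at this
  have hex : ∃ s : ℝ, 0 ≤ s ∧ s < h ∧ sph E ((K : Set E) ∩ {z | ⟪e, z⟫ ≤ s}) ≠ 0 := by
    by_contra hno
    push Not at hno
    obtain ⟨q, -, hq, hlim⟩ := exists_seq_strictMono_tendsto' h0
    have hz : sph E (⋃ n, (K : Set E) ∩ {z | ⟪e, z⟫ ≤ q n}) = 0 :=
      measure_iUnion_null fun n => hno _ (hq n).1.le (hq n).2
    have hsub : (K : Set E) ⊆ cap e h ∪ ⋃ n, (K : Set E) ∩ {z | ⟪e, z⟫ ≤ q n} := by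
      intro z hz
      by_cases hc : h ≤ ⟪e, z⟫
      · exact Or.inl hc
      · obtain ⟨n, hn⟩ := (hlim.eventually (lt_mem_nhds (not_le.1 hc))).exists
        exact Or.inr (mem_iUnion.2 ⟨n, hz, hn.le⟩)
    have := (measure_mono (μ := sph E) hsub).trans (measure_union_le _ _)
    rw [hz, add_zero] at this
    exact (hK0m.trans_le hm).not_ge this
  obtain ⟨s, hs0, hsh, hs⟩ := hex
  obtain ⟨w, hw, hew⟩ := exists_perp hn he
  set a := (s + h) / 2 with ha
  have ha1 : 0 ≤ 1 - a ^ 2 := by nlinarith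
  have hb := Real.sq_sqrt ha1
  set b := √(1 - a ^ 2)
  have hee : ⟪e, e⟫ = 1 := by rw [real_inner_self_eq_norm_sq, he, one_pow]
  have hww : ⟪w, w⟫ = 1 := by rw [real_inner_self_eq_norm_sq, hw, one_pow]
  have hwe : ⟪w, e⟫ = 0 := by rw [real_inner_comm, hew]
  have hin2 : ∀ c d : ℝ, ⟪a • e + c • w, a • e + d • w⟫ = a ^ 2 + c * d := by
    intro c d
    simp only [inner_add_left, inner_add_right, real_inner_smul_left, real_inner_smul_right,
      hee, hww, hwe, hew]
    ring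
  have hmem : ∀ c : ℝ, c ^ 2 = b ^ 2 → a • e + c • w ∈ (K : Set E) := by
    intro c hc
    refine mem_of_max he K.isCompact hS hmax' hs ?_ ?_
    · have h2 := hin2 c c
      rw [real_inner_self_eq_norm_sq] at h2
      exact (pow_eq_one_iff_of_nonneg (norm_nonneg _) two_ne_zero).1 (by nlinarith)
    · rw [inner_add_right, real_inner_smul_right, real_inner_smul_right, hee, hew]
      linarith
  have h3 := hin _ (hmem b rfl) _ (hmem (-b) (by ring))
  rw [hin2] at h3
  nlinarith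

end Pool.Agent.BL
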