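import Pool.Agent.P.MP_edb112_gt.StepBD
import Pool.Agent.P.MP_edb112_gt.Lin1D

set_option autoImplicit false

open MeasureTheory Set Module
open scoped RealInnerProductSpace symmDiff

noncomputable section

namespace Pool.Agent.BL

namespace SB

open Filter Real

theorem final_le {t c₁ C R ε₅ ε₆ ε e f η κ T T' I : ℝ} (ht : 3 ≤ t) (h1 : 0 < c₁) (hf : c₁ ≤ f)
    (hf1 : f ≤ 1) (hC : 1 ≤ C) (hR : R = 768 * C / c₁) (h6 : ε₆ = c₁ / (32 * R * C)) (h5 : 0 < ε₅)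
    (h5' : ε₅ ≤ 1) (hε : ε = c₁ * ε₅ / (64 * t)) (he : e ≤ 1 / 64) (hη : 0 < η) (hκ : κ ≤ C * η)
    (hT : T ≤ e * (f * η)) (hT' : T' ≤ f * (ε * η + 6 * e * η)) (hI : I ≤ ε * η) :
    T + T' + (1 + 2 / ε₅) * I + 48 * κ / R + 2 * R * κ * ε₆ ≤ f * η / 2 := by
  have hR0 : 0 < R := by rw [hR]; positivity
  have hf0 : 0 < f := h1.trans_le hf
  have a0 : c₁ * η ≤ f * η := by gcongr
  have a1 : 48 * κ / R ≤ c₁ * η / 16 :=
    calc _ ≤ 48 * (C * η) / R := by gcongr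
      _ = _ := by rw [hR]; field_simp; norm_num
  have a2 : 2 * R * κ * ε₆ ≤ c₁ * η / 16 :=
    calc _ ≤ 2 * R * (C * η) * ε₆ := by rw [h6]; gcongr
      _ = _ := by rw [h6]; field_simp; norm_num
  have a3 : (1 + 2 / ε₅) * I ≤ c₁ * η / 64 :=
    calc _ ≤ (1 + 2 / ε₅) * (ε * η) := by gcongr
      _ = c₁ * η / 64 * ((ε₅ + 2) / t) := by rw [hε]; field_simp
      _ ≤ _ := mul_le_of_le_one_right (by positivity) (by rw [div_le_one (by linarith)]; linarith)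
  have a4 : ε ≤ 1 / 64 := by
    rw [hε, div_le_div_iff₀ (by positivity) (by norm_num)]
    nlinarith
  have a5 : 0 < f * η := by positivity
  nlinarith [mul_le_mul_of_nonneg_right he a5.le, mul_le_mul_of_nonneg_right a4 a5.le]

theorem exists_p {t c H D η e k : ℝ} (ht : 3 ≤ t) (hc : 1 ≤ c) (H0 : 0 ≤ H) (Hc : H ≤ c)
    (D1 : 1 ≤ D) (η0 : 0 < η) (S1 : t * D * η ≤ 1) (S2 : 2 * c * t ^ 3 * D ^ 2 * η ≤ e)
    (he : e ≤ 1) (K : 2 * t ≤ 1 * k) : ∃ u p, t * (t * D * η) ^ 2 = u * k / 2 ∧ p = H * (1 - u) ∧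
      0 ≤ u ∧ u ≤ 1 ∧ 0 ≤ p ∧ 0 ≤ H - p ∧ H - p ≤ 2 * c * t ^ 3 * D ^ 2 * η * η ∧ H - p ≤ e * η ∧
      H - p ≤ t * D * η ∧ 0 < D * η ∧ D * η ≤ t * D * η := by
  have W0 : 0 < D * η := by positivity
  have W1 : D * η ≤ t * D * η := by nlinarith
  have k0 : 0 < k := by linarith
  have u0 : 0 ≤ 2 * t * (t * D * η) ^ 2 / k := by positivity
  have u1 : 2 * t * (t * D * η) ^ 2 / k ≤ 1 := by
    rw [div_le_one k0]
    nlinarith [mul_le_mul_of_nonneg_left (pow_le_one₀ (n := 2) (by linarith) S1)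
      (by linarith : (0 : ℝ) ≤ 2 * t)]
  have u2 : 2 * t * (t * D * η) ^ 2 / k ≤ 2 * t * (t * D * η) ^ 2 :=
    div_le_self (by positivity) (by linarith)
  have p2 := mul_le_mul Hc u2 u0 (by linarith)
  have p3 := mul_le_mul_of_nonneg_right S2 η0.le
  refine ⟨_, _, by field_simp, rfl, u0, u1, mul_nonneg H0 (by linarith),
    by linarith [mul_nonneg H0 u0], by linarith, by linarith, ?_, W0, W1⟩
  nlinarith

theorem rho_le {t c H D η p κ C ε : ℝ} (ht : 3 ≤ t) (hc : 1 ≤ c) (H0 : 0 ≤ H) (Hc : H ≤ c)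
    (η0 : 0 < η) (κ1 : η / 8 ≤ κ) (κ2 : κ ≤ C * η) (p1 : 0 ≤ H - p)
    (p2 : H - p ≤ 2 * c * t ^ 3 * D ^ 2 * η * η) (S : (c * C + 16 * c * t ^ 3 * D ^ 2) * η ≤ ε) :
    p ≤ H * √(1 + κ ^ 2) ∧ H * √(1 + κ ^ 2) - p ≤ ε * κ := by
  have κ0 : 0 < κ := by linarith
  have q1 : 1 ≤ √(1 + κ ^ 2) := Real.one_le_sqrt.2 (by nlinarith)
  have q2 : √(1 + κ ^ 2) ≤ 1 + κ ^ 2 := by
    nlinarith [Real.mul_self_sqrt (by positivity : 0 ≤ 1 + κ ^ 2)]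
  have b1 : H * κ ^ 2 ≤ c * (C * η * κ) := by rw [sq]; gcongr
  have b2 : 2 * c * t ^ 3 * D ^ 2 * η * η ≤ 2 * c * t ^ 3 * D ^ 2 * η * (8 * κ) := by
    gcongr; linarith
  exact ⟨by nlinarith,
    by linarith [mul_le_mul_of_nonneg_left q2 H0, mul_le_mul_of_nonneg_right S κ0.le]⟩

theorem good_lt {t c₁ ε₅ η κ : ℝ} (ht : 3 ≤ t) (h1 : c₁ ≤ 1) (h5 : 0 < ε₅) (η0 : 0 < η)
    (κ1 : η / 8 ≤ κ) : c₁ * ε₅ / (64 * t) * η < κ / t * ε₅ := by
  rw [div_mul_eq_mul_div, div_mul_eq_mul_div, div_lt_div_iff₀ (by positivity) (by linarith)]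
  have : c₁ * η < 64 * κ := by nlinarith
  nlinarith [mul_lt_mul_of_pos_right this (mul_pos h5 (by linarith : (0 : ℝ) < t))]

theorem core (t : ℕ) (ht : 3 ≤ t) {c : ℝ} (hc : 1 ≤ c) : ∃ δ₀ > 0, ∃ k₀ : ℕ,
    ∀ (F : Type) [NormedAddCommGroup F] [InnerProductSpace ℝ F] [CompleteSpace F]
    [FiniteDimensional ℝ F] [MeasurableSpace F] [BorelSpace F], k₀ ≤ finrank ℝ F →
    Big (finrank ℝ F) → ∀ H : ℝ, 0 ≤ H → H ≤ c → ∀ B : ℝ → Set F, Fam t H B → ∀ δ ≤ δ₀,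
    ∀ m w : ℝ → ℝ, (m = fun x => (sph F).real (B x)) → w = om (finrank ℝ F) →
    δ = (∫ x in Iio H, w x * m x) + ∫ x in Ici H, w x * (1 - m x) →
    ∫ x in Ici H, w x * (1 - m x) < ∫ x in Iio H, w x * m x →
    ∃ (v : F) (κ p R r s b ε₅ ε₆ L : ℝ), ‖v‖ = 1 ∧ 0 < κ ∧ 1 ≤ R ∧ (R + 1) * κ ≤ r ∧ r ≤ s ∧
      0 ≤ b ∧ b ≤ κ ∧ 0 < ε₅ ∧ 0 < ε₆ ∧ ε₆ ≤ 1 ∧ p ≤ H * √(1 + κ ^ 2) ∧
      H * √(1 + κ ^ 2) - p ≤ ε₆ / 8 * κ ∧ |p| + R * κ ≤ L ∧ 8 * R * L ^ 2 ≤ ε₆ * finrank ℝ F ∧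
      (∀ σ, |σ| ≤ R * κ → |m (p + σ) - Ph (σ / κ)| ≤ ε₅ →
        |m (p + (-σ - b)) - Ph ((-σ - b) / κ)| ≤ ε₅ → ∀ β, |β + σ / κ| ≤ ε₆ / 2 →
        (sph F).real (B (p + σ) ∆ cap v (β / √(finrank ℝ F))) ≤ ε₆) ∧
      (∫ x in Iio (-r), w (p + x) * m (p + x)) + (∫ x in Ioi s, w (p + x) * (1 - m (p + x))) +
        (1 + 2 / ε₅) * (∫ x in Icc (-r) s, |m (p + x) - Ph (x / κ)|) + 48 * κ / R +
        2 * R * κ * ε₆ ≤ δ / 2 := by
  have h3 : (3 : ℝ) ≤ t := by exact_mod_cast ht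
  obtain ⟨c₁, hc₁⟩ : ∃ c₁, c₁ = exp (-c ^ 2) / 3 := ⟨_, rfl⟩
  have c10 : 0 < c₁ := by rw [hc₁]; positivity
  have c11 : c₁ ≤ 1 := by
    have : exp (-c ^ 2) ≤ 1 := exp_le_one_iff.2 (by nlinarith)
    linarith
  obtain ⟨C, hC⟩ : ∃ C, C = 2 / Ph (-2) + 1 := ⟨_, rfl⟩
  have C1 : 1 ≤ C := by linarith [div_pos two_pos (Ph_pos (-2))]
  obtain ⟨R, hR⟩ : ∃ R, R = 768 * C / c₁ := ⟨_, rfl⟩
  have R1 : 1 ≤ R := by rw [hR, one_le_div c10]; linarith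
  obtain ⟨ε₆, h6⟩ : ∃ ε₆, ε₆ = c₁ / (32 * R * C) := ⟨_, rfl⟩
  have h60 : 0 < ε₆ := by rw [h6]; positivity
  have h61 : ε₆ ≤ 1 := by rw [h6, div_le_one (by positivity)]; nlinarith
  obtain ⟨ε₅, h50, h51, εd, hεd, k₁, hcd⟩ := common_dir t ht R1 h60
  obtain ⟨ε, hε⟩ : ∃ ε, ε = c₁ * ε₅ / (64 * t) := ⟨_, rfl⟩
  obtain ⟨ε₁, hε₁, hwin⟩ := window t ht ε (by rw [hε]; positivity)
  obtain ⟨e₀, e0, e1, e2⟩ : ∃ e₀ : ℝ, 0 < e₀ ∧ e₀ ≤ ε₁ / 6 ∧ e₀ ≤ 1 / 64 :=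
    ⟨min _ _, by positivity, min_le_left _ _, min_le_right _ _⟩
  have e3 : e₀ ≤ 1 := by linarith
  obtain ⟨γ, hγ, D₀, k₂, htl⟩ := tails t ht c e0 e3
  obtain ⟨D, R', γ₀, hD, hγ₀, hwin⟩ := hwin γ hγ (max D₀ ((R + 1) * C))
  rw [← hC] at hwin
  obtain ⟨hD1, hD2⟩ := max_le_iff.1 hD
  have D1 : 1 ≤ D := by nlinarith only [hD2, R1, C1]
  obtain ⟨εm, hεm, k₃, hmu⟩ := multi t (by omega) R' γ₀ hγ₀
  have hsm : ∀ a b : ℝ, 0 < b → ∀ᶠ η in nhds (0 : ℝ), a * η ≤ b := fun a b hb =>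
    (continuous_const_mul a).continuousAt.eventually (ge_mem_nhds (by simpa using hb))
  obtain ⟨η₀, hη₀, hsm⟩ := Metric.eventually_nhds_iff.1 ((hsm (t * D) 1 one_pos).and
    ((hsm (2 * c * t ^ 3 * D ^ 2) e₀ e0).and ((hsm (8 * (c + 1) * t * D) e₀ e0).and
    (hsm (c * C + 16 * c * t ^ 3 * D ^ 2) (ε₆ / 8) (by positivity)))))
  have hlg : ∀ a b : ℝ, 0 < b → ∀ᶠ k : ℕ in atTop, a ≤ b * k := fun a b hb =>
    (tendsto_natCast_atTop_atTop.const_mul_atTop hb).eventually_ge_atTop a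
  obtain ⟨k₅, hlg⟩ := eventually_atTop.1 ((hlg (4 * (c + 1) ^ 2) εm hεm).and
    ((hlg (4 * (c + 1) ^ 2) εd hεd).and ((hlg (2 * (c + 1) ^ 2) 1 one_pos).and
    ((hlg (2 * t) 1 one_pos).and (hlg (8 * R * (c + 1) ^ 2) ε₆ h60)))))
  refine ⟨c₁ * η₀ / 2, by positivity, max (max k₁ k₂) (max k₃ k₅), ?_⟩
  intro F _ _ _ _ _ _ hn hk H H0 Hc B hB δ hδ m w hm hw s1 s2
  obtain ⟨K1, K2, K3, K4, K5⟩ := hlg (finrank ℝ F) (by omega)
  have k0 : (0 : ℝ) < finrank ℝ F := by linarith only [K4, h3]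
  have K1' : 4 * ((c + 1) ^ 2 / finrank ℝ F) ≤ εm := by rwa [← mul_div_assoc, div_le_iff₀ k0]
  have K2' : 4 * ((c + 1) ^ 2 / finrank ℝ F) ≤ εd := by rwa [← mul_div_assoc, div_le_iff₀ k0]
  rw [one_mul] at K3
  have P₀ : Prof m w := hm ▸ hw ▸ hB.prof
  have De0 : 0 ≤ ∫ x in Ici H, w x * (1 - m x) := integral_nonneg P₀.compl.nonneg
  have f1 : c₁ ≤ w H :=
    hc₁ ▸ hw ▸ hk.lower H c (by rwa [abs_of_nonneg H0]) (by nlinarith only [K3, hc])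
  have f2 := P₀.w1 H
  have f0 : 0 < w H := c10.trans_le f1
  obtain ⟨η, rfl⟩ : ∃ η, δ = w H * η := ⟨_, (mul_div_cancel₀ _ f0.ne').symm⟩
  have η0 : 0 < η := pos_of_mul_pos_right (by linarith only [s1, s2, De0]) f0.le
  have η1 : w H * η ≤ η := mul_le_of_le_one_left η0.le f2
  obtain ⟨S1, S2, S3, S4⟩ := hsm (y := η) (by
    rw [dist_zero_right, Real.norm_of_nonneg η0.le]
    refine lt_of_mul_lt_mul_left ?_ c10.le
    linarith only [hδ, mul_le_mul_of_nonneg_right f1 η0.le, mul_pos c10 hη₀])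
  obtain ⟨T1, T2⟩ : ∫ x in Icc (-1) H, (if m x ≤ γ then m x else 0) ≤ e₀ * (w H * η) ∧
      ∀ r, D₀ * (w H * η) ≤ r → ∫ x in Iio (H - r), w x * m x ≤ e₀ * (w H * η) := by
    subst hm hw
    exact htl F (by omega) hk H H0 Hc B hB _ (by linarith only [s1, s2, De0])
  obtain ⟨u, p, hu, hp, u0, u1, p0, p1, p2, p3, p4, W0, W1⟩ :=
    exists_p h3 hc H0 Hc D1 η0 S1 S2 e3 K4
  have hO : ∀ σ : Fin t → ℝ, (∀ a, σ a ∈ Icc (-(D * η)) (t * D * η)) → ∑ a, σ a = 0 →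
      ∃ y, Near t (4 * ((c + 1) ^ 2 / finrank ℝ F)) y ∧ OrbFree y fun a => B (p + σ a) :=
    fun σ h1 h2 => hB.high (fun a => p + σ a) _ u
      (fun a => sq_le_sq' (by linarith only [(h1 a).1, W1, S1, p0, hc])
        (by linarith only [(h1 a).2, S1, p1, Hc]))
      (sq_le_sq' (by linarith only [H0, hc]) (by linarith only [Hc])) K3 u0 u1
      (by simp [Finset.sum_add_distrib, h2, hp])
      (by
        simp only [← hp, add_sub_cancel_left]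
        refine (Finset.sum_le_card_nsmul _ _ ((t * D * η) ^ 2) fun a _ =>
          sq_le_sq' (by linarith only [(h1 a).1, W1]) (h1 a).2).trans_eq ?_
        rw [Finset.card_univ, Fintype.card_fin, nsmul_eq_mul, hu])
  have P := P₀.shift p
  have I1 := shift_int (fun x => w x * m x) p (Iio H)
  have I2 := shift_int (fun x => w x * (1 - m x)) p (Ici H)
  have I3 := shift_int (fun x => w x * m x) p (Iio (p - D * η))
  have I4 := shift_int (fun x => if m x ≤ γ then m x else 0) p (Icc (p - D * η) p)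
  simp only [preimage_const_add_Iio, preimage_const_add_Ici, preimage_const_add_Icc,
    sub_sub_cancel_left, sub_self] at I1 I2 I3 I4
  have T3 : ∫ x in Iio (-(D * η)), w (p + x) * m (p + x) ≤ e₀ * (w H * η) := by
    have := T2 (D * η + (H - p)) (by
      linarith only [p1, mul_le_mul hD1 η1 (by positivity) (by linarith only [D1])])
    rwa [I3, show p - D * η = H - (D * η + (H - p)) by ring]
  obtain ⟨V1, V2, V3, V4⟩ := P.window_in (s := t * D * η) p1 p3 p4 W0.le f0 η0 e0.le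
    (by linarith only [e2])
    (fun x hx => hw ▸ hk.near (L := c + 1)
      (abs_le.2 ⟨by linarith only [hx.1, W1, S1, p0, hc], by linarith only [hx.2, S1, p1, Hc]⟩)
      (abs_le.2 ⟨by linarith only [H0, hc], by linarith only [Hc]⟩) K3 e3 (by
        have : |p + x - H| ≤ 2 * (t * D * η) :=
          abs_le.2 ⟨by linarith only [hx.1, W1, p4], by linarith only [hx.2, p1, W0, W1]⟩
        linarith only [S3, mul_le_mul_of_nonneg_left this (by linarith only [hc] : 0 ≤ 4 * (c + 1))]))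
    (by rw [I1, I2, s1]) (by rw [I1, I2]; exact s2.le) T3
  have e4 : 6 * e₀ * η ≤ ε₁ * η := by gcongr; linarith only [e1]
  obtain ⟨V5, V6⟩ := hwin _ η P.meas P.m0 P.m1 η0 V1 V2
    (by
      rw [I4]
      refine le_trans (setIntegral_mono_set (P₀.low_intOn γ (by simp))
        (Eventually.of_forall fun x => ?_) (Icc_subset_Icc (by linarith only [p0, W1, S1])
          (by linarith only [p1])).eventuallyLE)
        (T1.trans (by linarith only [e4, mul_le_mul_of_nonneg_left η1 e0.le, mul_pos e0 η0]))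
      simp only [Pi.zero_apply]
      split_ifs <;> simp [P₀.m0 x])
    fun σ θ h1 h2 h4 h5 => by
      obtain ⟨y, hy, hy'⟩ := hO σ h1 h2
      exact hm ▸ hmu F (by omega) y (near_mono hy K1') _ (fun a => hB.meas _) hy' θ h4 h5
  obtain ⟨κ, κ1, κ2, κ3⟩ := V6 (by linarith only [V3, e4])
  have κ0 : 0 < κ := by linarith only [κ1, η0]
  have κ4 : (R + 1) * κ ≤ D * η := by
    linarith only [mul_le_mul_of_nonneg_left κ2 (by linarith only [R1] : 0 ≤ R + 1),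
      mul_le_mul_of_nonneg_right hD2 η0.le]
  have κ5 : κ / t ≤ κ := div_le_self κ0.le (by linarith only [h3])
  have κ6 : 0 ≤ R * κ := by positivity
  obtain ⟨σ₀, hσ₀, hg⟩ := exists_good measurableSet_Icc (P.dev_intOn κ (-(D * η)) (t * D * η))
    (fun _ => abs_nonneg _) (b := κ / t) (ε := ε₅) (by positivity)
    (Icc_subset_Icc (by linarith only [W0]) (by linarith only [κ4, κ5, κ6, W1]))
    (κ3.trans_lt (hε ▸ good_lt h3 c11 h50 η0 κ1))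
  obtain ⟨v, hv, hv'⟩ := hcd F (by omega) (fun σ => B (p + σ)) (fun _ => hB.meas _) κ κ0
    (fun σ h1 h2 => by
      obtain ⟨y, hy, hy'⟩ := hO σ (fun a => ⟨by linarith only [(abs_le.1 (h1 a)).1, κ4],
        by linarith only [(abs_le.1 (h1 a)).2, κ4, W1]⟩) h2
      exact ⟨y, near_mono hy K2', hy'⟩) σ₀ hσ₀ (by simpa only [hm] using hg)
  obtain ⟨r1, r2⟩ := rho_le h3 hc H0 Hc η0 κ1 κ2 p1 p2 S4
  exact ⟨v, κ, p, R, D * η, t * D * η, (t - 2) * σ₀, ε₅, ε₆, c + 1, hv, κ0, R1, κ4, W1,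
    mul_nonneg (by linarith only [h3]) hσ₀.1,
    by linarith only [(le_div_iff₀' (by linarith only [h3])).1 hσ₀.2, hσ₀.1], h50, h60, h61, r1, r2,
    by rw [abs_of_nonneg p0]; linarith only [κ4, κ0, W1, S1, p1, Hc], K5,
    by simpa only [hm] using hv',
    final_le h3 c10 f1 f2 C1 hR h6 h50 h51 hε e2 η0 κ2 T3 (V4.trans (by gcongr)) κ3⟩

theorem contract (t : ℕ) (ht : 3 ≤ t) {c : ℝ} (hc : 1 ≤ c) : ∃ δ₀ > 0, ∃ k₀ : ℕ,
    ∀ (E : Type) [NormedAddCommGroup E] [InnerProductSpace ℝ E] [CompleteSpace E]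
    [FiniteDimensional ℝ E] [MeasurableSpace E] [BorelSpace E], k₀ ≤ finrank ℝ E →
    ∀ h : ℝ, 0 ≤ h → h ≤ c / √(finrank ℝ E) → ∀ A : Set E, MeasurableSet A → Free t h A →
    ∀ e : E, ‖e‖ = 1 → (sph E).real (A ∆ cap e h) ≤ δ₀ → (sph E).real (cap e h) < (sph E).real A →
      ∃ e' : E, ‖e'‖ = 1 ∧ (sph E).real (A ∆ cap e' h) ≤ (sph E).real (A ∆ cap e h) / 2 := by
  obtain ⟨δ₀, hδ₀, k₁, hco⟩ := core t ht hc
  obtain ⟨k₂, hbig⟩ := exists_big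
  refine ⟨δ₀, hδ₀, max k₁ k₂ + t + 2, ?_⟩
  intro E _ _ _ _ _ _ hn h h0 hhc A hA hF e he hδ hlt
  have hnk := finrank_orth he
  have hk := hbig (finrank ℝ (ℝ ∙ e)ᗮ) (by omega)
  have hq := sqrt_pos' hk.three
  obtain ⟨H, rfl⟩ : ∃ H, h = H / √(finrank ℝ (ℝ ∙ e)ᗮ) :=
    ⟨h * _, (mul_div_cancel_right₀ _ hq.ne').symm⟩
  have H0 : 0 ≤ H := by simpa [hq.ne'] using mul_nonneg h0 hq.le
  have Hc : H ≤ c := by
    refine (div_le_div_iff_of_pos_right hq).1 (hhc.trans ?_)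
    gcongr
    omega
  obtain ⟨s1, s2⟩ := split_cap he hk hA H
  obtain ⟨v, κ, p, R, r, s, b, ε₅, ε₆, L, a1, a2, a3, a4, a5, a6, a7, a8, a9, b1, b2, b3, b4, b5,
    b6, b7⟩ := hco _ (by omega) hk H H0 Hc _ (fam_of_free (by omega) he (by omega) hk H0 hA hF) _
      hδ (mu e A) _ rfl rfl s1 (by linarith)
  obtain ⟨e', he', hfin⟩ := tilt he hk hA a1 a2 a3 a4 a5 a6 a7 a8 a9 b1 b2 b3 b4 b5 b6
  exact ⟨e', he', hfin.trans b7⟩

end SB

/-- local optimality of caps, uniformly in the dimension (paper, section 8) -/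
theorem stepB (t : ℕ) (ht : 3 ≤ t) (c : ℝ) : ∃ δ₀ > 0, ∃ k₀ : ℕ,
    ∀ (E : Type) [NormedAddCommGroup E] [InnerProductSpace ℝ E] [CompleteSpace E]
    [FiniteDimensional ℝ E] [MeasurableSpace E] [BorelSpace E], k₀ ≤ finrank ℝ E →
    ∀ h : ℝ, 0 ≤ h → h ≤ c / √(finrank ℝ E) → ∀ A : Set E, MeasurableSet A → Free t h A →
    ∀ e : E, ‖e‖ = 1 → (sph E).real (A ∆ cap e h) ≤ δ₀ →
      (sph E).real A ≤ (sph E).real (cap e h) := by
  obtain ⟨δ₀, hδ₀, k₀, hc⟩ := SB.contract t ht (le_max_right c 1)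
  refine ⟨δ₀, hδ₀, k₀, fun E _ _ _ _ _ _ hn h h0 hh A hA hF e he hδ => ?_⟩
  by_contra hlt
  have hcap : ∀ e' : E, ‖e'‖ = 1 → (sph E).real (cap e' h) = (sph E).real (cap e h) := by
    intro e' he'
    obtain ⟨g, hg, -⟩ := exists_ap_eq (he.trans he'.symm)
    rw [← (measurePreserving_ap_right g).measureReal_preimage
      (measurableSet_cap e' h).nullMeasurableSet]
    congr 1
    ext x
    simp only [cap, mem_preimage, mem_ofPred_eq]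
    rw [← hg, inner_ap]
  have key : ∀ j : ℕ, ∃ e' : E, ‖e'‖ = 1 ∧ (sph E).real (A ∆ cap e' h) ≤ δ₀ * (1 / 2) ^ j := by
    intro j
    induction j with
    | zero => exact ⟨e, he, by simpa using hδ⟩
    | succ j ih =>
      obtain ⟨e', he', h1⟩ := ih
      obtain ⟨e'', he'', h2⟩ := hc E hn h h0 (hh.trans (by gcongr; exact le_max_left _ _)) A hA hF
        e' he' (h1.trans (mul_le_of_le_one_right hδ₀.le (pow_le_one₀ (by norm_num) (by norm_num))))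
        (by rw [hcap e' he']; exact not_le.1 hlt)
      exact ⟨e'', he'', by rw [pow_succ]; linarith⟩
  obtain ⟨j, hj⟩ := exists_pow_lt_of_lt_one (div_pos (sub_pos.2 (not_le.1 hlt)) hδ₀)
    (by norm_num : (1 / 2 : ℝ) < 1)
  obtain ⟨e', he', h1⟩ := key j
  have h2 := abs_measureReal_sub_le_measureReal_symmDiff (μ := sph E) hA.nullMeasurableSet
    (measurableSet_cap e' h).nullMeasurableSet
  rw [hcap e' he'] at h2
  rw [lt_div_iff₀' hδ₀] at hj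
  linarith [le_abs_self ((sph E).real A - (sph E).real (cap e h))]

end Pool.Agent.BL
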