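import Pool.Agent.P.MP_edb112_gt.StepA
import Pool.Agent.P.MP_edb112_gt.StepB
import Pool.Agent.P.MP_edb112_gt.Polar2

set_option autoImplicit false
set_option linter.unusedSectionVars false

open MeasureTheory Set Module
open scoped RealInnerProductSpace symmDiff Pointwise

noncomputable section

namespace Pool.Agent.BL

/-- a free set has at most the measure of the cap -/
theorem free_le (t : ℕ) (ht : 2 ≤ t) (c : ℝ) : ∃ k₀ : ℕ,
    ∀ (E : Type) [NormedAddCommGroup E] [InnerProductSpace ℝ E] [CompleteSpace E]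
    [FiniteDimensional ℝ E] [MeasurableSpace E] [BorelSpace E], k₀ ≤ finrank ℝ E →
    ∀ h : ℝ, 0 < h → h < 1 → h ≤ c / √(finrank ℝ E) → ∀ A : Set E, MeasurableSet A →
    Free t h A → ∀ e : E, ‖e‖ = 1 → (sph E).real A ≤ (sph E).real (cap e h) := by
  rcases ht.eq_or_lt with rfl | ht
  · refine ⟨2, fun E _ _ _ _ _ _ hn h h0 h1 _ A hA hF e he => ?_⟩
    refine ENNReal.toReal_mono (measure_ne_top _ _) (two_point hn he h0 h1 hA ?_)
    intro x hx y hy hx1 hy1
    obtain ⟨a, b, hab, h2⟩ := hF ![x, y] (by simp [Fin.forall_fin_two, hx, hy])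
      (by simp [Fin.forall_fin_two, hx1, hy1])
    have hb : beta 2 h = 2 * h ^ 2 - 1 := by norm_num [beta]
    rw [hb] at h2
    fin_cases a <;> fin_cases b
    · exact absurd rfl hab
    · simpa using h2
    · simpa [real_inner_comm] using h2
    · exact absurd rfl hab
  · obtain ⟨δ, hδ, k₁, hB⟩ := stepB t ht c
    obtain ⟨k₂, hA'⟩ := stepA t ht c δ hδ
    refine ⟨max (max k₁ k₂) 4, fun E _ _ _ _ _ _ hn h h0 h1 hc A hA hF e he => ?_⟩
    by_contra hlt
    obtain ⟨e', he', h2⟩ := hA' E (by omega) h h0.le hc A hA hF e he (not_le.1 hlt).le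
    have h3 := hB E (by omega) h h0.le hc A hA hF e' he' h2
    obtain ⟨g, hg, -⟩ := exists_ap_eq (he.trans he'.symm)
    have h4 : (sph E).real (cap e' h) = (sph E).real (cap e h) := by
      rw [← (measurePreserving_ap_right g).measureReal_preimage
        (measurableSet_cap e' h).nullMeasurableSet]
      congr 1
      ext x
      simp only [cap, mem_preimage, mem_ofPred_eq]
      rw [← hg, inner_ap]
    exact hlt (h4 ▸ h3)

section

variable {E : Type} [NormedAddCommGroup E] [InnerProductSpace ℝ E] [CompleteSpace E]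
  [FiniteDimensional ℝ E] [MeasurableSpace E] [BorelSpace E]

theorem toSphere_eq (A : Set (Metric.sphere (0 : E) 1)) (hA : MeasurableSet A) :
    (volume : Measure E).toSphere A =
      (volume : Measure E).toSphere univ * sph E (Subtype.val '' A) := by
  have hemb : MeasurableEmbedding (Subtype.val : Metric.sphere (0 : E) 1 → E) :=
    MeasurableEmbedding.subtype_coe Metric.isClosed_sphere.measurableSet
  let m : Measure E := ((volume : Measure E).toSphere).map Subtype.val
  have h1 : ∀ᵐ x ∂m, ‖x‖ = 1 := by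
    rw [ae_map_iff hemb.measurable.aemeasurable
      (measurableSet_eq_fun measurable_norm measurable_const)]
    exact Filter.Eventually.of_forall fun x => by simp
  have h2 : ∀ g : G E, m.map (ap g) = m := by
    intro g
    ext B hB
    rw [Measure.map_apply (measurable_ap_right g) hB, hemb.map_apply, hemb.map_apply,
      Measure.toSphere_apply' _ (hemb.measurable (measurable_ap_right g hB)),
      Measure.toSphere_apply' _ (hemb.measurable hB)]
    congr 1
    symm
    rw [← (toIso g).measurePreserving.measure_preimage_emb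
      (toIso g).toHomeomorph.measurableEmbedding]
    congr 1
    ext y
    simp only [mem_preimage, Set.mem_smul, mem_image, toIso_apply]
    constructor
    · rintro ⟨r, hr, _, ⟨x, hx, rfl⟩, h⟩
      refine ⟨r, hr, _, ⟨⟨ap g⁻¹ x, by simp [norm_ap]⟩, by simpa [ap_ap_inv] using hx,
        rfl⟩, ?_⟩
      rw [← ap_smul, h, ap_inv_ap]
    · rintro ⟨r, hr, _, ⟨x, hx, rfl⟩, rfl⟩
      exact ⟨r, hr, _, ⟨⟨ap g x, by simp [norm_ap]⟩, hx, rfl⟩, (ap_smul g r _).symm⟩
  have h3 := eq_smul_sph m h1 h2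
  have h4 : m (Subtype.val '' A) = (volume : Measure E).toSphere A := by
    rw [hemb.map_apply, preimage_image_eq _ Subtype.val_injective]
  have h5 : m univ = (volume : Measure E).toSphere univ := by
    rw [hemb.map_apply, preimage_univ]
  rw [← h4, h3, Measure.smul_apply, h5, smul_eq_mul]

theorem cap_le_inv [Nontrivial E] {e : E} (he : ‖e‖ = 1) {c : ℝ} (hc : 0 < c) :
    (sph E).real (cap e c) ≤ 1 / (finrank ℝ E * c ^ 2) := by
  have hi : Integrable (fun x => ⟪e, x⟫ ^ 2) (sph E) :=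
    integrable_of_continuousOn (by fun_prop)
  have h1 := mul_meas_ge_le_integral_of_nonneg (μ := sph E) (f := fun x => ⟪e, x⟫ ^ 2)
    (Filter.Eventually.of_forall fun x => sq_nonneg _) hi (c ^ 2)
  rw [integral_inner_sq, he] at h1
  have h2 : (sph E).real (cap e c) ≤ (sph E).real {x | c ^ 2 ≤ ⟪e, x⟫ ^ 2} :=
    measureReal_mono fun x hx => pow_le_pow_left₀ hc.le hx 2
  have hn : (0 : ℝ) < finrank ℝ E := by exact_mod_cast finrank_pos
  rw [le_div_iff₀ (by positivity)]
  rw [one_pow, le_div_iff₀ hn] at h1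
  nlinarith [mul_le_mul_of_nonneg_left h2 (mul_pos hn (pow_pos hc 2)).le]

/-- `t` points in a cap have a pair with inner product at least `beta` -/
theorem beta_le {t : ℕ} (ht : 2 ≤ t) {v : E} (hv : ‖v‖ = 1) {c b : ℝ} {x : Fin t → E}
    (h1 : ∀ i, ‖x i‖ = 1) (h2 : ∀ i, c ≤ ⟪v, x i⟫) (h3 : ∀ i j, i ≠ j → ⟪x i, x j⟫ ≤ b) :
    beta t (max c 0) ≤ b := by
  classical
  have ht2 : (2 : ℝ) ≤ t := by exact_mod_cast ht
  have hS : ‖∑ i, x i‖ ^ 2 ≤ t * (1 + (t - 1) * b) := by
    rw [← real_inner_self_eq_norm_sq, sum_inner]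
    have : ∀ i, ⟪x i, ∑ j, x j⟫ ≤ 1 + (t - 1) * b := by
      intro i
      rw [inner_sum, ← Finset.add_sum_erase _ _ (Finset.mem_univ i), real_inner_self_eq_norm_sq, h1]
      have := Finset.sum_le_card_nsmul (Finset.univ.erase i) (fun j => ⟪x i, x j⟫) b
        fun j hj => h3 i j (Finset.ne_of_mem_erase hj).symm
      rw [Finset.card_erase_of_mem (Finset.mem_univ i), Finset.card_univ, Fintype.card_fin,
        nsmul_eq_mul, Nat.cast_sub (by omega)] at this
      simpa using this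
    simpa [mul_add] using Finset.sum_le_sum fun i (_ : i ∈ Finset.univ) => this i
  have hL : (t * max c 0) ^ 2 ≤ ‖∑ i, x i‖ ^ 2 := by
    refine pow_le_pow_left₀ (by positivity) ?_ 2
    rcases le_total c 0 with hc | hc
    · simp [hc]
    · rw [max_eq_left hc]
      calc (t : ℝ) * c ≤ ⟪v, ∑ i, x i⟫ := by
            rw [inner_sum]
            simpa using Finset.sum_le_sum fun i (_ : i ∈ Finset.univ) => h2 i
        _ ≤ ‖v‖ * ‖∑ i, x i‖ := real_inner_le_norm _ _
        _ = _ := by rw [hv, one_mul]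
  rw [beta, div_le_iff₀ (by linarith)]
  have : t * (t * max c 0 ^ 2) ≤ t * (1 + (t - 1) * b) := by nlinarith
  have := le_of_mul_le_mul_left this (by linarith)
  linarith

end

theorem main (t : ℕ) (ht : 2 ≤ t) (ε : ℝ) (hε : 0 < ε) : ∃ k₀ : ℕ,
    ∀ (E : Type) [NormedAddCommGroup E] [InnerProductSpace ℝ E] [CompleteSpace E]
    [FiniteDimensional ℝ E] [MeasurableSpace E] [BorelSpace E], k₀ ≤ finrank ℝ E →
    ∀ A : Set E, MeasurableSet A → (∀ x ∈ A, ‖x‖ = 1) → ∀ v : E, ‖v‖ = 1 → ∀ c : ℝ,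
      (sph E).real A = (sph E).real (cap v c) → ε < (sph E).real A → ∀ r : ℝ,
      (∃ x : Fin t → E, (∀ i, ‖x i‖ = 1) ∧ (∀ i, c ≤ ⟪v, x i⟫) ∧
        ∀ i j, i ≠ j → r ≤ dist (x i) (x j)) → ∀ s < r,
      ∃ y : Fin t → E, (∀ i, y i ∈ A) ∧ ∀ i j, i ≠ j → s < dist (y i) (y j) := by
  obtain ⟨k₁, hk⟩ := free_le t ht (1 / √ε + 1)
  obtain ⟨k₂, hk₂⟩ := exists_nat_gt ((1 / √ε + 1) ^ 2)
  refine ⟨max (max k₁ k₂) 4, fun E _ _ _ _ _ _ hn A hA hA1 v hv c hAc hAε r hx s hs => ?_⟩
  obtain ⟨x, hx1, hx2, hx3⟩ := hx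
  have hn4 : 4 ≤ finrank ℝ E := by omega
  have : Nontrivial E := Module.nontrivial_of_finrank_pos (R := ℝ) (by omega)
  have hn0 : (0 : ℝ) < finrank ℝ E := by exact_mod_cast finrank_pos
  have hsn : 0 < √(finrank ℝ E : ℝ) := Real.sqrt_pos.2 hn0
  have hse : 0 < √ε := Real.sqrt_pos.2 hε
  rcases lt_or_ge s 0 with hs0 | hs0
  · obtain ⟨y, hy⟩ : A.Nonempty := by
      rw [nonempty_iff_ne_empty]
      rintro rfl
      simp at hAε
      linarith
    exact ⟨fun _ => y, fun _ => hy, fun i j _ => by simpa using hs0⟩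
  have hd : ∀ y z : E, ‖y‖ = 1 → ‖z‖ = 1 → dist y z ^ 2 = 2 - 2 * ⟪y, z⟫ := by
    intro y z hy hz
    rw [dist_eq_norm, norm_sub_sq_real, hy, hz]
    ring
  have hb : beta t (max c 0) ≤ 1 - r ^ 2 / 2 := by
    refine beta_le ht hv hx1 hx2 fun i j hij => ?_
    have := pow_le_pow_left₀ (hs0.trans hs.le) (hx3 i j hij) 2
    rw [hd _ _ (hx1 i) (hx1 j)] at this
    linarith
  have hb2 : beta t (max c 0) < 1 - s ^ 2 / 2 := by
    have := pow_lt_pow_left₀ hs hs0 two_ne_zero
    linarith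
  have hcn : max c 0 ≤ 1 / √ε / √(finrank ℝ E : ℝ) := by
    rcases le_or_gt c 0 with hc | hc
    · rw [max_eq_right hc]
      positivity
    · rw [max_eq_left hc.le, div_div, ← Real.sqrt_mul hε.le, le_div_iff₀ (by positivity)]
      have h1 := (hAε.trans_eq hAc).trans_le (cap_le_inv hv hc)
      rw [lt_div_iff₀ (by positivity)] at h1
      refine (abs_le_one_iff_mul_self_le_one.2 ?_).trans' (le_abs_self _)
      have := Real.mul_self_sqrt (mul_pos hε hn0).le
      nlinarith
  have hcont : ContinuousAt (beta t) (max c 0) := by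
    unfold beta
    fun_prop
  have hev : ∀ᶠ h in nhdsWithin (max c 0) (Ioi (max c 0)), beta t h < 1 - s ^ 2 / 2 ∧
      h < max c 0 + 1 / √(finrank ℝ E : ℝ) ∧ max c 0 < h := by
    refine ((hcont.eventually (gt_mem_nhds hb2)).filter_mono nhdsWithin_le_nhds).and
      (((gt_mem_nhds (by simpa using hsn)).filter_mono nhdsWithin_le_nhds).and
        self_mem_nhdsWithin)
  obtain ⟨h, hh1, hh2, hh3⟩ := hev.exists
  have hh0 : 0 < h := (le_max_right _ _).trans_lt hh3
  have hhc : h ≤ (1 / √ε + 1) / √(finrank ℝ E : ℝ) := by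
    rw [add_div]
    linarith
  have hh4 : h < 1 := by
    refine hhc.trans_lt ?_
    rw [div_lt_one hsn]
    refine Real.lt_sqrt_of_sq_lt (hk₂.trans_le ?_)
    exact_mod_cast (by omega : k₂ ≤ finrank ℝ E)
  by_contra hne
  have hF : Free t h A := by
    intro y hy hy1
    by_contra hc
    push Not at hc
    refine hne ⟨y, hy, fun i j hij => ?_⟩
    refine lt_of_pow_lt_pow_left₀ 2 dist_nonneg ?_
    rw [hd _ _ (hy1 i) (hy1 j)]
    linarith [hc i j hij]
  have h1 := hk E (by omega) h hh0 hh4 hhc A hA hF v hv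
  have h2 : (sph E).real (cap v h) < (sph E).real (cap v (max c 0)) :=
    ENNReal.toReal_strict_mono (measure_ne_top _ _)
      (cap_strictAnti hn4 hv (by linarith [le_max_right c 0]) hh3 hh4.le)
  have h3 : (sph E).real (cap v (max c 0)) ≤ (sph E).real (cap v c) :=
    measureReal_mono fun x (hx : max c 0 ≤ _) => (le_max_left c 0).trans hx
  linarith

end Pool.Agent.BL
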