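import Pool.Agent.P.MP_edb112_gt.Density
import Pool.Agent.P.MP_edb112_gt.Data

set_option autoImplicit false
set_option linter.unusedSectionVars false

open MeasureTheory Set Module Filter
open scoped RealInnerProductSpace symmDiff Topology

noncomputable section

namespace Pool.Agent.BL

section

variable {E : Type} [NormedAddCommGroup E] [InnerProductSpace ℝ E] [FiniteDimensional ℝ E]
  [CompleteSpace E] [MeasurableSpace E] [BorelSpace E] {t : ℕ}

theorem nontrivial_of_two_le (hn : 2 ≤ finrank ℝ E) : Nontrivial E :=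
  Module.nontrivial_of_finrank_pos (R := ℝ) (by omega)

theorem kk_pos (hn : 2 ≤ finrank ℝ E) : 0 < kk E := by
  have : (2 : ℝ) ≤ finrank ℝ E := by exact_mod_cast hn
  unfold kk
  linarith

theorem IsHeat.integrable [Nontrivial E] {U : ℝ × E → ℝ} (h : IsHeat U) (τ : ℝ) :
    Integrable (fun x => U (τ, x)) (sph E) :=
  integrable_of_continuousOn (h.sm.continuous.comp (by fun_prop)).continuousOn

/-- heat flows adapted to a family of sets missed by an orbit -/
theorem setup (hn : 2 ≤ finrank ℝ E) (ht : 2 ≤ t) {z : Fin t → E} (hz : ∀ a, ‖z a‖ = 1)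
    {B : Fin t → Set E} (hB : ∀ a, MeasurableSet (B a)) (hf : OrbFree z B) {θ : Fin t → ℝ}
    {R δ M ε : ℝ} (hθ : ∀ a, |θ a| ≤ R) (hθB : ∀ a, Ph (θ a) ≤ (sph E).real (B a)) (hδ : 0 < δ)
    (hM : 0 ≤ M) (hε : 0 < ε) (h : Ph (1 - M) + ε < ph (R + δ) * δ) :
    ∃ (F : Fin t → Flow E) (T : ℝ), 0 ≤ T ∧ HD (fun a => (F a).U) (t * (M + 1) + 2) ∧
      (∀ g : G E, ∑ a, uu (fun a => (F a).U) a (0, ga g z) ≤ 0) ∧
      (∀ a x, ‖x‖ = 1 → θ a - δ ≤ Ps ((F a).U (T, x))) ∧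
      (∀ a, ∫ x, |(F a).U (0, x) - (B a).indicator 1 x| ∂(sph E) ≤ Ph (1 - M) + ε) ∧
      ∀ a, ∃ N : Set E, MeasurableSet N ∧ (sph E).real N ≤ ε ∧
        ∀ x, ‖x‖ = 1 → x ∉ N → M - 1 ≤ |Ps ((F a).U (0, x))| := by
  have := nontrivial_of_two_le hn
  have ht' : (2 : ℝ) ≤ t := by exact_mod_cast ht
  have hM1 : M + 1 ≤ t * (M + 1) := by nlinarith
  obtain ⟨F, h1, h2, h3⟩ := approx hn hz hB hf (M := M) (M' := t * (M + 1) + 1) (by linarith) hε
  have hD : HD (fun a => (F a).U) (t * (M + 1) + 2) := ⟨fun a => (F a).isHeat, fun a τ hτ x hx =>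
    ⟨(Ph_mono (by linarith)).trans (h1 a τ hτ x hx).1,
      (h1 a τ hτ x hx).2.trans (Ph_mono (by linarith))⟩⟩
  have hi : ∀ a, Integrable (fun x => (F a).U (0, x) - (B a).indicator 1 x) (sph E) :=
    fun a => ((F a).isHeat.integrable 0).sub ((integrable_const (1 : ℝ)).indicator (hB a))
  have hL : ∀ a, ∫ x, |(F a).U (0, x) - (B a).indicator 1 x| ∂(sph E) ≤ Ph (1 - M) + ε := by
    intro a
    obtain ⟨N, hN, hN1, hN2⟩ := h3 a
    have hiN : Integrable (N.indicator (1 : E → ℝ)) (sph E) :=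
      (integrable_const (1 : ℝ)).indicator hN
    calc _ ≤ ∫ x, (Ph (1 - M) + N.indicator 1 x) ∂(sph E) := by
          refine integral_mono_ae (hi a).abs ((integrable_const _).add hiN) ?_
          filter_upwards [ae_norm (E := E)] with x hx
          have p0 := hD.pos a le_rfl hx
          have p1 := hD.lt_one a le_rfl hx
          have p2 := Ph_pos (1 - M)
          have p3 : Ph (1 - M) = 1 - Ph (M - 1) := by rw [← Ph_neg, neg_sub]
          have p4 : Ph (-(t * (M + 1) + 1) + 1) ≤ Ph (1 - M) := Ph_mono (by linarith)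
          by_cases hxN : x ∈ N <;> by_cases hxB : x ∈ B a <;>
            simp only [indicator, hxN, hxB, if_true, if_false, Pi.one_apply, abs_le]
          · constructor <;> linarith
          · constructor <;> linarith
          · constructor <;> linarith [(hN2 x hx hxN).1 hxB]
          · constructor <;> linarith [(hN2 x hx hxN).2 hxB]
      _ ≤ _ := by
          rw [integral_add (integrable_const _) hiN, integral_indicator_one hN]
          simpa using hN1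
  have hm : ∀ a, Ph (θ a) - (Ph (1 - M) + ε) ≤ ∫ x, (F a).U (0, x) ∂(sph E) := by
    intro a
    have h4 := (abs_integral_le_integral_abs (μ := sph E)
      (f := fun x => (F a).U (0, x) - (B a).indicator 1 x)).trans (hL a)
    rw [integral_sub (g := (B a).indicator 1) ((F a).isHeat.integrable 0)
      ((integrable_const (1 : ℝ)).indicator (hB a)), integral_indicator_one (hB a)] at h4
    linarith [neg_le_of_abs_le h4, hθB a]
  choose T hT0 hT using fun a => (F a).near_mean hn (sub_pos.2 h)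
  have hTa : ∀ a, T a ≤ ∑ b, T b := fun a =>
    Finset.single_le_sum (fun b _ => hT0 b) (Finset.mem_univ a)
  have hT1 : 0 ≤ ∑ b, T b := Finset.sum_nonneg fun b _ => hT0 b
  refine ⟨F, ∑ b, T b, hT1, hD, fun g => ?_, fun a x hx => ?_, hL, fun a => ?_⟩
  · obtain ⟨a, ha⟩ := h2 g
    have hx : ∀ b, ‖ap g (z b)‖ = 1 := fun b => (norm_ap g _).trans (hz b)
    have h4 : ∀ b, uu (fun a => (F a).U) b (0, ga g z) ≤ M + 1 := fun b =>
      Ps_le (hD.pos b le_rfl (hx b)) (h1 b 0 le_rfl _ (hx b)).2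
    have h5 : uu (fun a => (F a).U) a (0, ga g z) ≤ -(t * (M + 1) + 1) + 1 :=
      Ps_le (hD.pos a le_rfl (hx a)) ha
    have h6 := Finset.single_le_sum (f := fun b => M + 1 - uu (fun a => (F a).U) b (0, ga g z))
      (fun b _ => sub_nonneg.2 (h4 b)) (Finset.mem_univ a)
    simp only [Finset.sum_sub_distrib, Finset.sum_const, Finset.card_univ, Fintype.card_fin,
      nsmul_eq_mul] at h6
    linarith
  · refine le_Ps (hD.lt_one a hT1 hx) ?_
    have h4 := neg_le_of_abs_le (hT a _ (hTa a) x hx)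
    have h5 := abs_le.1 (hθ a)
    have h6 := le_Ph_sub (a := θ a - δ) (b := θ a) (R := R + δ) (by linarith)
      (abs_le.2 ⟨by linarith, by linarith⟩) (abs_le.2 ⟨by linarith, by linarith⟩)
    rw [sub_sub_cancel] at h6
    linarith [hm a]
  · obtain ⟨N, hN, hN1, hN2⟩ := h3 a
    refine ⟨N, hN, hN1, fun x hx hxN => ?_⟩
    by_cases hxB : x ∈ B a
    · exact (le_Ps (hD.lt_one a le_rfl hx) ((hN2 x hx hxN).1 hxB)).trans (le_abs_self _)
    · have := Ps_le (hD.pos a le_rfl hx) ((hN2 x hx hxN).2 hxB)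
      exact le_trans (by linarith) (neg_le_abs _)

namespace HD

variable {U : Fin t → ℝ × E → ℝ} {M : ℝ}

theorem sum_sq_le (h : HD U M) {τ : ℝ} (hτ : 0 ≤ τ) {x : Fin t → E} (hx : ∀ a, ‖x a‖ = 1) :
    ∑ a, uu U a (τ, x) ^ 2 ≤ t * M ^ 2 := by
  have : ∀ a, uu U a (τ, x) ^ 2 ≤ M ^ 2 := fun a => by
    rw [← sq_abs]
    exact pow_le_pow_left₀ (abs_nonneg _) (h.abs_le hτ hx a) 2
  simpa using Finset.sum_le_sum fun a (_ : a ∈ Finset.univ) => this a

/-- a function whose heat image is bounded by the error term is almost decreasing in mean -/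
theorem ev_le_of_sup (h : HD U M) (hn : 2 ≤ finrank ℝ E) {z : Fin t → E} (hz : ∀ a, ‖z a‖ = 1)
    {ε K : ℝ} (hK : 0 ≤ K) (hε : 0 ≤ ε) {Y : ℝ × (Fin t → E) → ℝ}
    (hY : ∀ τ, 0 ≤ τ → ∀ g : G E, Sup E Y (τ, ga g z) (K * Er ε (ga g z) (gg U (τ, ga g z))))
    (h0 : ∀ g : G E, Y (0, ga g z) ≤ 0) {τ : ℝ} (hτ : 0 ≤ τ) :
    ev E z (fun q => Y q + K * (ε * t + t / kk E) * ∑ a, uu U a q ^ 2) τ ≤
      K * (ε * t + t / kk E) * (t * M ^ 2) := by
  have hk := kk_pos hn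
  have hc : 0 ≤ K * (ε * t + t / kk E) := by positivity
  have hx : ∀ (g : G E) b, ‖ga g z b‖ = 1 := fun g b => (norm_ap g _).trans (hz b)
  have hS := fun s (hs : 0 ≤ s) (g : G E) => (hY s hs g).add ((h.supQ hs (hx g)).const_mul hc)
  refine (ev_anti hτ (fun s hs g => (hS s hs.1 g).sm) fun s hs => ?_).trans ?_
  · have c1 := fun g : G E => continuousAt_const (y := K).mul (h.cont_Er hs.1.le (hx g) ε)
    have c2 := fun g : G E => continuousAt_const (y := K * (ε * t + t / kk E)).mul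
      (h.cont_En hs.1.le (hx g)).neg
    refine (ev_heat_le (b := fun q => K * Er ε q.2 (gg U q) +
      K * (ε * t + t / kk E) * -En (gg U q)) (hS s hs.1.le) fun g => (c1 g).add (c2 g)).trans ?_
    rw [ev_add (f := fun q => K * Er ε q.2 (gg U q))
      (f' := fun q => K * (ε * t + t / kk E) * -En (gg U q)) c1 c2]
    simp only [mul_neg, ← neg_mul]
    rw [ev_const_mul, ev_const_mul]
    nlinarith [mul_le_mul_of_nonneg_left (h.ev_Er hn hs.1.le hz ε) hK]
  · refine ev_le_const (fun g => (hS 0 le_rfl g).sm.continuousAt) fun g => ?_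
    have := mul_le_mul_of_nonneg_left (h.sum_sq_le le_rfl (hx g)) hc
    linarith [h0 g]

theorem supF' (h : HD U M) (ht : 2 ≤ t) {n : ℕ} (hn : 2 * t * (4 * t * M ^ 2 + 1) ≤ n + 2)
    {ε τ : ℝ} (hε : 0 ≤ ε) (hτ : 0 ≤ τ) {x : Fin t → E} (hx : Near t ε x) :
    Sup E (fun q => pp (n + 3) (∑ a, uu U a q)) (τ, x)
      ((n + 3) ^ 2 * (t * M) ^ (n + 1) * Er ε x (gg U (τ, x))) := by
  obtain ⟨s, hs⟩ := exists_shortest ht (gg U (τ, x))
  refine (h.supF ht hn hε hτ hx hs).mono ?_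
  have := mul_nonneg (pp_nonneg (n + 1) (∑ a, uu U a (τ, x)))
    (add_nonneg (by positivity : 0 ≤ 1 / 2 * (∑ a, uu U a (τ, x)) ^ 2 * ‖gg U (τ, x) s‖ ^ 2)
      (Dd_nonneg (gg U (τ, x))))
  linarith

theorem evF_le (h : HD U M) (hM : 0 ≤ M) (hd : 2 ≤ finrank ℝ E) (ht : 2 ≤ t) {n : ℕ}
    (hn : 2 * t * (4 * t * M ^ 2 + 1) ≤ n + 2) {ε : ℝ} (hε : 0 ≤ ε) {z : Fin t → E}
    (hz : Near t ε z) (h0 : ∀ g : G E, ∑ a, uu U a (0, ga g z) ≤ 0) {τ : ℝ} (hτ : 0 ≤ τ) :
    ev E z (fun q => pp (n + 3) (∑ a, uu U a q)) τ ≤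
      (n + 3) ^ 2 * (t * M) ^ (n + 1) * (ε * t + t / kk E) * (t * M ^ 2) := by
  have hk := kk_pos hd
  refine le_trans ?_ (h.ev_le_of_sup hd hz.1 (by positivity) hε
    (fun s hs g => h.supF' ht hn hε hs (hz.ga g)) (fun g => ?_) hτ)
  · have c1 := fun g : G E => (h.supF' ht hn hε hτ (hz.ga g)).sm.continuousAt
    refine ev_mono c1 (fun g => (c1 g).add (continuousAt_const.mul
      (h.supQ hτ (hz.ga g).1).sm.continuousAt)) fun g => le_add_of_nonneg_right ?_
    positivity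
  · simp [pp, max_eq_right (h0 g)]

end HD

end

theorem exists_small (t : ℕ) {c : ℝ} (hc : 0 < c) : ∃ ε > 0, ∃ k₀ : ℕ, 2 ≤ k₀ ∧ ∀ n : ℕ, k₀ ≤ n →
    ∀ ε', ε' ≤ ε → ε' * t + t / ((n : ℝ) - 1) ≤ c := by
  obtain ⟨k, hk⟩ := exists_nat_ge (2 * t / c)
  refine ⟨c / (2 * (t + 1)), by positivity, k + 2, by omega, fun n hn ε' hε' => ?_⟩
  have h1 : (k : ℝ) + 2 ≤ n := by exact_mod_cast hn
  have h0 : (0 : ℝ) ≤ k := by positivity
  have h2 : (t : ℝ) / (n - 1) ≤ c / 2 := by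
    rw [div_le_iff₀ hc] at hk
    rw [div_le_iff₀ (by linarith)]
    nlinarith
  have h3 : ε' * t ≤ c / 2 := by
    rw [le_div_iff₀ (by positivity)] at hε'
    rcases le_total ε' 0 with h | h
    · nlinarith [mul_nonneg_of_nonpos_of_nonpos h (neg_nonpos.2 (Nat.cast_nonneg (α := ℝ) t))]
    · nlinarith
  linarith

theorem exists_small_mul (t : ℕ) {K c : ℝ} (hK : 0 ≤ K) (hc : 0 < c) :
    ∃ ε > 0, ∃ k₀ : ℕ, 2 ≤ k₀ ∧ ∀ n : ℕ, k₀ ≤ n →
      ∀ ε', ε' ≤ ε → K * (ε' * t + t / ((n : ℝ) - 1)) ≤ c := by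
  obtain ⟨ε, hε, k₀, hk, h⟩ := exists_small t (c := c / (K + 1)) (by positivity)
  refine ⟨ε, hε, k₀, hk, fun n hn ε' hε' => ?_⟩
  refine (mul_le_mul_of_nonneg_left (h n hn ε' hε') hK).trans ?_
  rw [mul_div_assoc', div_le_iff₀ (by positivity)]
  nlinarith

/-- Borell type inequality for near regular configurations (paper, section 5) -/
theorem multi (t : ℕ) (ht : 2 ≤ t) (R γ : ℝ) (hγ : 0 < γ) : ∃ ε > 0, ∃ k₀ : ℕ,
    ∀ (E : Type) [NormedAddCommGroup E] [InnerProductSpace ℝ E] [CompleteSpace E]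
    [FiniteDimensional ℝ E] [MeasurableSpace E] [BorelSpace E], k₀ ≤ finrank ℝ E →
    ∀ z : Fin t → E, Near t ε z → ∀ B : Fin t → Set E, (∀ a, MeasurableSet (B a)) → OrbFree z B →
    ∀ θ : Fin t → ℝ, (∀ a, |θ a| ≤ R) → γ ≤ ∑ a, θ a →
      ∃ a, (sph E).real (B a) < Ph (θ a) := by
  have ht' : (2 : ℝ) ≤ t := by exact_mod_cast ht
  have hδ : 0 < γ / (2 * t) := by positivity
  have hβ : 0 < ph (R + γ / (2 * t)) * (γ / (2 * t)) / 2 := by
    have := ph_pos (R + γ / (2 * t))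
    positivity
  obtain ⟨s, hs1, hs2⟩ := ((tendsto_Ph_neg.eventually (gt_mem_nhds hβ)).and
    (eventually_ge_atTop 0)).exists
  obtain ⟨n, hn⟩ := exists_nat_ge (2 * t * (4 * t * (t * (s + 1 + 1) + 2) ^ 2 + 1))
  obtain ⟨ε, hε, k₀, hk, hsm⟩ := exists_small_mul t
    (K := (n + 3) ^ 2 * (t * (t * (s + 1 + 1) + 2)) ^ (n + 1) * (t * (t * (s + 1 + 1) + 2) ^ 2))
    (c := (γ / 2) ^ (n + 3) / 2) (by positivity) (by positivity)
  refine ⟨ε, hε, k₀, fun E _ _ _ _ _ _ hE z hz B hB hf θ hθ hsum => ?_⟩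
  by_contra! hc
  obtain ⟨F, T, hT, hD, h0, h1, -, -⟩ := setup (hk.trans hE) ht hz.1 hB hf hθ hc hδ
    (M := s + 1) (by linarith) hβ (by rw [show 1 - (s + 1) = -s by ring]; linarith)
  have h2 := hD.evF_le (by positivity) (hk.trans hE) ht (n := n) (by linarith) hε.le hz h0 hT
  have h3 : (γ / 2) ^ (n + 3) ≤ ev E z (fun q => pp (n + 3) (∑ a, uu (fun a => (F a).U) a q)) T := by
    refine const_le_ev (fun g => (hD.supF' ht (n := n) (by linarith) hε.le hT
      (hz.ga g)).sm.continuousAt) fun g => ?_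
    have h4 := Finset.sum_le_sum fun a (_ : a ∈ Finset.univ) => h1 a _ ((hz.ga g).1 a)
    simp only [Finset.sum_sub_distrib, Finset.sum_const, Finset.card_univ, Fintype.card_fin,
      nsmul_eq_mul] at h4
    have h5 : (t : ℝ) * (γ / (2 * t)) = γ / 2 := by field_simp
    refine pow_le_pow_left₀ (by positivity) (le_max_of_le_left ?_) _
    simp only [uu]
    linarith
  have h4 := hsm _ hE ε le_rfl
  have h5 : 0 < (γ / 2) ^ (n + 3) := by positivity
  unfold kk at h2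
  nlinarith

end Pool.Agent.BL
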