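import Pool.Agent.P.MP_edb112_gt.Basic
import Pool.Agent.P.MP_edb112_gt.Calc

/-! Rotation fields, the heat operator on configurations, maximum principle, averages. -/

set_option autoImplicit false
set_option linter.unusedSectionVars false

open MeasureTheory Set Module Filter
open scoped RealInnerProductSpace Topology

noncomputable section

namespace Pool.Agent.BL

/-- spaces on which the endomorphisms of `E` act diagonally -/
class Rep (E : Type) [NormedAddCommGroup E] [InnerProductSpace ℝ E] (V : Type)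
    [NormedAddCommGroup V] [NormedSpace ℝ V] where
  act : (E →L[ℝ] E) →ₗ[ℝ] (V →L[ℝ] V)
  act_one : act 1 = 1
  act_mul : ∀ A B, act (A * B) = act A * act B

export Rep (act)

variable {E : Type} [NormedAddCommGroup E] [InnerProductSpace ℝ E]
variable {V : Type} [NormedAddCommGroup V] [NormedSpace ℝ V] [Rep E V]
variable {V' : Type} [NormedAddCommGroup V'] [NormedSpace ℝ V'] [Rep E V']

instance : Rep E E := ⟨LinearMap.id, rfl, fun _ _ => rfl⟩

@[simp] theorem act_self (A : E →L[ℝ] E) (x : E) : act A x = A x := rfl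

instance : Rep E (V × V') where
  act :=
    { toFun := fun A => (act A).prodMap (act A)
      map_add' := fun A B => by ext <;> simp
      map_smul' := fun c A => by ext <;> simp }
  act_one := by ext <;> simp [Rep.act_one]
  act_mul := fun A B => by ext <;> simp [Rep.act_mul]

@[simp] theorem act_prod (A : E →L[ℝ] E) (z : V × V') : act A z = (act A z.1, act A z.2) := rfl

instance {ι : Type} [Fintype ι] : Rep E (ι → E) where
  act :=
    { toFun := fun A => ContinuousLinearMap.pi fun i => A.comp (ContinuousLinearMap.proj i)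
      map_add' := fun A B => by ext; simp
      map_smul' := fun c A => by ext; simp }
  act_one := by ext; simp
  act_mul := fun A B => by ext; simp

@[simp] theorem act_pi {ι : Type} [Fintype ι] (A : E →L[ℝ] E) (z : ι → E) (i : ι) :
    act A z i = A (z i) := rfl

theorem act_act (A B : E →L[ℝ] E) (z : V) : act A (act B z) = act (A * B) z := by
  rw [Rep.act_mul]
  rfl

theorem act_one' (z : V) : act (1 : E →L[ℝ] E) z = z := by
  rw [Rep.act_one]
  rfl

/-- the infinitesimal rotation in the plane of `a` and `b` -/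
def sk : E →ₗ[ℝ] E →ₗ[ℝ] (E →L[ℝ] E) :=
  LinearMap.mk₂ ℝ (fun a b => (innerSL ℝ a).smulRight b - (innerSL ℝ b).smulRight a)
    (fun a a' b => by ext x; simp [add_smul]; abel)
    (fun c a b => by ext x; simp [smul_sub, smul_smul, mul_comm])
    (fun a b b' => by ext x; simp [add_smul]; abel)
    (fun c a b => by ext x; simp [smul_sub, smul_smul, mul_comm])

theorem sk_apply (a b x : E) : sk a b x = ⟪a, x⟫ • b - ⟪b, x⟫ • a := by simp [sk]

theorem sk_swap (a b : E) : sk b a = -sk a b := by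
  ext x
  simp [sk_apply]

theorem sk_self (a : E) : sk a a = 0 := by
  ext x
  simp [sk_apply]

/-- skew symmetric operators -/
def IsSkew (A : E →L[ℝ] E) : Prop := ∀ x y, ⟪A x, y⟫ = -⟪x, A y⟫

theorem isSkew_sk (a b : E) : IsSkew (sk a b) := by
  intro x y
  simp only [sk_apply, inner_sub_left, inner_sub_right, real_inner_smul_left,
    real_inner_smul_right, real_inner_comm a x, real_inner_comm b x]
  ring

theorem IsSkew.smul {A : E →L[ℝ] E} (h : IsSkew A) (c : ℝ) : IsSkew (c • A) := by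
  intro x y
  simp [real_inner_smul_left, real_inner_smul_right, h x y]

/-- first derivative along a rotation field -/
def df (f : ℝ × V → ℝ) (p : ℝ × V) : (E →L[ℝ] E) →ₗ[ℝ] ℝ where
  toFun A := fderiv ℝ f p (0, act A p.2)
  map_add' A B := by rw [← map_add]; simp
  map_smul' c A := by rw [← map_smul]; simp

theorem df_apply (f : ℝ × V → ℝ) (p : ℝ × V) (A : E →L[ℝ] E) :
    df f p A = fderiv ℝ f p (0, act A p.2) := rfl

/-- second derivative along rotation fields -/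
def qf (f : ℝ × V → ℝ) (p : ℝ × V) : (E →L[ℝ] E) →ₗ[ℝ] (E →L[ℝ] E) →ₗ[ℝ] ℝ :=
  ((hess f p).toLinearMap₁₂.compl₁₂
    ((LinearMap.inr ℝ ℝ V).comp ((LinearMap.applyₗ p.2).comp
      ((ContinuousLinearMap.coeLM ℝ).comp act)))
    ((LinearMap.inr ℝ ℝ V).comp ((LinearMap.applyₗ p.2).comp
      ((ContinuousLinearMap.coeLM ℝ).comp act)))) +
  (LinearMap.mul ℝ (E →L[ℝ] E)).compr₂ (df f p)

theorem qf_apply (f : ℝ × V → ℝ) (p : ℝ × V) (A B : E →L[ℝ] E) :
    qf f p A B = hess f p (0, act A p.2) (0, act B p.2) +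
      fderiv ℝ f p (0, act A (act B p.2)) := by
  rw [act_act]
  rfl

variable [FiniteDimensional ℝ E]

theorem frame_trace {I I' : Type} [Fintype I] [Fintype I'] {a : I → E} {b : I' → E}
    (h : ∀ x, ∑ i, ⟪a i, x⟫ • a i = ∑ j, ⟪b j, x⟫ • b j) (B : E →ₗ[ℝ] E →ₗ[ℝ] ℝ) :
    ∑ i, B (a i) (a i) = ∑ j, B (b j) (b j) := by
  have key : ∀ {I : Type} [Fintype I] (a : I → E), ∑ i, B (a i) (a i) =
      ∑ k, B (stdOrthonormalBasis ℝ E k) (∑ i, ⟪a i, stdOrthonormalBasis ℝ E k⟫ • a i) := by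
    intro I _ a
    simp only [map_sum, map_smul, smul_eq_mul]
    rw [Finset.sum_comm]
    refine Finset.sum_congr rfl fun i _ => ?_
    conv_lhs => enter [1, 2]; rw [← (stdOrthonormalBasis ℝ E).sum_repr' (a i)]
    simp only [map_sum, map_smul, LinearMap.sum_apply, LinearMap.smul_apply, smul_eq_mul,
      real_inner_comm]
  rw [key a, key b]
  simp only [h]

theorem frame_trace₂ {I I' K K' : Type} [Fintype I] [Fintype I'] [Fintype K] [Fintype K']
    {a : I → E} {b : I' → E} {c : K → E} {d : K' → E}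
    (h : ∀ x, ∑ i, ⟪a i, x⟫ • a i = ∑ j, ⟪b j, x⟫ • b j)
    (h' : ∀ x, ∑ i, ⟪c i, x⟫ • c i = ∑ j, ⟪d j, x⟫ • d j)
    (B : (E →L[ℝ] E) →ₗ[ℝ] (E →L[ℝ] E) →ₗ[ℝ] ℝ) :
    ∑ i, ∑ k, B (sk (a i) (c k)) (sk (a i) (c k)) =
      ∑ i, ∑ k, B (sk (b i) (d k)) (sk (b i) (d k)) := by
  have h1 : ∀ i, ∑ k, B (sk (a i) (c k)) (sk (a i) (c k)) =
      ∑ k, B (sk (a i) (d k)) (sk (a i) (d k)) :=
    fun i => frame_trace h' (B.compl₁₂ (sk (a i)) (sk (a i)))
  simp only [h1]
  rw [Finset.sum_comm]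
  conv_rhs => rw [Finset.sum_comm]
  exact Finset.sum_congr rfl fun k _ => frame_trace h (B.compl₁₂ (sk.flip (d k)) (sk.flip (d k)))

/-- Parseval frames -/
def Pars {I : Type} [Fintype I] (a : I → E) : Prop := ∀ x, ∑ i, ⟪a i, x⟫ • a i = x

variable (E) in
/-- the standard frame -/
abbrev eb : Fin (finrank ℝ E) → E := stdOrthonormalBasis ℝ E

theorem pars_eb : Pars (eb E) := fun x => (stdOrthonormalBasis ℝ E).sum_repr' x

theorem Pars.inner {I : Type} [Fintype I] {a : I → E} (h : Pars a) (x y : E) :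
    ∑ i, ⟪a i, x⟫ * ⟪a i, y⟫ = ⟪x, y⟫ := by
  conv_rhs => rw [← h x, sum_inner]
  simp only [real_inner_smul_left]

theorem sum_inner_eb : ∑ i, ⟪eb E i, eb E i⟫ = finrank ℝ E := by
  simp

variable (E) in
/-- index set of the rotation fields -/
abbrev Ix : Type := Fin (finrank ℝ E) × Fin (finrank ℝ E)

/-- the rotation fields -/
def hA (j : Ix E) : E →L[ℝ] E := (√2)⁻¹ • sk (eb E j.1) (eb E j.2)

theorem isSkew_hA (j : Ix E) : IsSkew (hA j) := (isSkew_sk _ _).smul _

theorem sum_hA (B : (E →L[ℝ] E) →ₗ[ℝ] (E →L[ℝ] E) →ₗ[ℝ] ℝ) {I : Type} [Fintype I] {a : I → E}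
    (h : Pars a) : ∑ j, B (hA j) (hA j) =
      1 / 2 * ∑ i, ∑ k, B (sk (a i) (a k)) (sk (a i) (a k)) := by
  rw [frame_trace₂ (b := eb E) (d := eb E) (fun x => (h x).trans (pars_eb x).symm)
    (fun x => (h x).trans (pars_eb x).symm), Fintype.sum_prod_type, Finset.mul_sum]
  refine Finset.sum_congr rfl fun i _ => ?_
  rw [Finset.mul_sum]
  refine Finset.sum_congr rfl fun k _ => ?_
  simp only [hA, map_smul, LinearMap.smul_apply, smul_eq_mul]
  rw [← mul_assoc, ← mul_inv, Real.mul_self_sqrt zero_le_two, one_div]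

variable (E) in
/-- the dimension of the sphere -/
def kk : ℝ := finrank ℝ E - 1

theorem inner_hA (x g x' g' : E) : ∑ j, ⟪g, hA j x⟫ * ⟪g', hA j x'⟫ =
    ⟪x, x'⟫ * ⟪g, g'⟫ - ⟪x, g'⟫ * ⟪x', g⟫ := by
  let l : E → E → (E →L[ℝ] E) →ₗ[ℝ] ℝ := fun g x =>
    { toFun := fun A => ⟪g, A x⟫
      map_add' := fun A B => by simp [inner_add_right]
      map_smul' := fun c A => by simp [real_inner_smul_right] }
  have h := sum_hA ((LinearMap.mul ℝ ℝ).compl₁₂ (l g x) (l g' x')) (pars_eb (E := E))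
  simp only [LinearMap.compl₁₂_apply, LinearMap.mul_apply', l, LinearMap.coe_mk, AddHom.coe_mk,
    sk_apply, inner_sub_right, real_inner_smul_right, real_inner_comm (eb E _) g,
    real_inner_comm (eb E _) g'] at h
  rw [h]
  have e : ∀ i k, (⟪eb E i, x⟫ * ⟪eb E k, g⟫ - ⟪eb E k, x⟫ * ⟪eb E i, g⟫) *
      (⟪eb E i, x'⟫ * ⟪eb E k, g'⟫ - ⟪eb E k, x'⟫ * ⟪eb E i, g'⟫) =
      (⟪eb E i, x⟫ * ⟪eb E i, x'⟫) * (⟪eb E k, g⟫ * ⟪eb E k, g'⟫) +
      (⟪eb E i, g⟫ * ⟪eb E i, g'⟫) * (⟪eb E k, x⟫ * ⟪eb E k, x'⟫) -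
      (⟪eb E i, x⟫ * ⟪eb E i, g'⟫) * (⟪eb E k, x'⟫ * ⟪eb E k, g⟫) -
      (⟪eb E i, x'⟫ * ⟪eb E i, g⟫) * (⟪eb E k, x⟫ * ⟪eb E k, g'⟫) := fun i k => by ring
  simp only [e, Finset.sum_sub_distrib, Finset.sum_add_distrib, ← Finset.mul_sum,
    ← Finset.sum_mul, pars_eb.inner]
  ring

theorem sum_hA_mul : ∑ j : Ix E, hA j * hA j = -(kk E) • (1 : E →L[ℝ] E) := by
  ext x
  refine ext_inner_left ℝ fun y => ?_
  have h1 : ∀ j : Ix E, ⟪y, (hA j * hA j) x⟫ = -∑ i, ⟪eb E i, hA j y⟫ * ⟪eb E i, hA j x⟫ := by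
    intro j
    rw [pars_eb.inner, isSkew_hA j y, neg_neg]
    rfl
  rw [sum_apply, inner_sum]
  simp only [h1, Finset.sum_neg_distrib]
  rw [Finset.sum_comm]
  simp only [inner_hA, Finset.sum_sub_distrib, ← Finset.mul_sum, sum_inner_eb,
    real_inner_comm (eb E _), pars_eb.inner]
  simp [kk, real_inner_smul_right]
  ring

/-- drift of the heat operator -/
def hb (E : Type) [NormedAddCommGroup E] [InnerProductSpace ℝ E] (p : ℝ × V) : ℝ × V :=
  (1, (kk E / 2) • p.2)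

/-- diffusion directions of the heat operator -/
def hv (p : ℝ × V) (j : Ix E) : ℝ × V := (0, act (hA j) p.2)

variable (E) in
/-- the heat operator `∂_τ - Δ / 2` -/
def heat (f : ℝ × V → ℝ) (p : ℝ × V) : ℝ := op (hb E p) (hv (E := E) p) f p

variable (E) in
/-- the rotation gradient -/
def hg (f : ℝ × V → ℝ) (p : ℝ × V) : EuclideanSpace ℝ (Ix E) := gr (hv (E := E) p) f p

theorem hg_apply (f : ℝ × V → ℝ) (p : ℝ × V) (j : Ix E) : hg E f p j = df f p (hA j) := rfl

/-- jets for the heat operator -/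
abbrev HJet (f : ℝ × V → ℝ) (p : ℝ × V) (a o : ℝ) (g : EuclideanSpace ℝ (Ix E)) : Prop :=
  Jet (hb E p) (hv p) f p a o g

theorem HJet.of' {f : ℝ × V → ℝ} {p : ℝ × V} (hf : ContDiffAt ℝ 2 f p) :
    HJet f p (f p) (heat E f p) (hg E f p) := Jet.of hf

theorem heat_eq (f : ℝ × V → ℝ) (p : ℝ × V) :
    heat E f p = fderiv ℝ f p (1, 0) - 1 / 2 * ∑ j : Ix E, qf f p (hA j) (hA j) := by
  have h1 : ∑ j : Ix E, fderiv ℝ f p (0, act (hA j) (act (hA j) p.2)) =
      -(kk E) * fderiv ℝ f p (0, p.2) := by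
    simp only [act_act, ← df_apply]
    rw [← map_sum, sum_hA_mul, map_smul, df_apply, act_one', smul_eq_mul]
  have h2 : hb E p = (1, 0) + (kk E / 2) • (0, p.2) := by simp [hb]
  simp only [heat, op, qf_apply, Finset.sum_add_distrib, h1, h2, map_add, map_smul, smul_eq_mul, hv]
  ring

/-- the time coordinate -/
theorem hjet_time (p : ℝ × V) : HJet (E := E) (fun q : ℝ × V => q.1) p p.1 1 0 :=
  (Jet.clm (ContinuousLinearMap.fst ℝ ℝ V)).congr rfl rfl (by ext j; simp [hv])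

theorem hjet_fun_time {a a' : ℝ → ℝ} (p : ℝ × V) (hs : ContDiffAt ℝ 2 a p.1)
    (h : HasDerivAt a (a' p.1) p.1) : HJet (E := E) (fun q : ℝ × V => a q.1) p (a p.1) (a' p.1) 0 := by
  have h1 : ∀ᶠ y in 𝓝 p.1, HasDerivAt a (deriv a y) y :=
    (hs.eventually (by simp)).mono fun y hy => (hy.differentiableAt (by simp)).hasDerivAt
  have h2 : DifferentiableAt ℝ (deriv a) p.1 :=
    (hs.derivWithin (m := 1) (by norm_num)).differentiableAt (by simp)
  exact ((hjet_time p).comp hs h1 h2.hasDerivAt).congr rfl (by simp [h.deriv]) (by simp)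

/-- pull-back along an equivariant linear map -/
theorem HJet.pull (π : V' →L[ℝ] V) (hπ : ∀ (A : E →L[ℝ] E) z, π (act A z) = act A (π z))
    {f : ℝ × V → ℝ} {τ : ℝ} {z : V'} {a o : ℝ} {g : EuclideanSpace ℝ (Ix E)}
    (h : HJet f (τ, π z) a o g) : HJet (fun q : ℝ × V' => f (q.1, π q.2)) (τ, z) a o g :=
  h.comp_clm ((ContinuousLinearMap.id ℝ ℝ).prodMap π) rfl (by simp [hb])
    fun j => by simp [hv, hπ]

variable [CompleteSpace E]

/-- action of the orthogonal group -/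
def ga (g : G E) (z : V) : V := act (g : E →L[ℝ] E) z

@[simp] theorem ga_self (g : G E) (x : E) : ga g x = ap g x := rfl

@[simp] theorem ga_prod (g : G E) (z : V × V') : ga g z = (ga g z.1, ga g z.2) := rfl

@[simp] theorem ga_pi {ι : Type} [Fintype ι] (g : G E) (z : ι → E) (i : ι) :
    ga g z i = ap g (z i) := rfl

theorem ga_mul (g h : G E) (z : V) : ga (g * h) z = ga g (ga h z) := (act_act _ _ z).symm

@[simp] theorem ga_one (z : V) : ga (1 : G E) z = z := act_one' z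

/-- the action as a continuous linear map of the operator -/
def actL (z : V) : (E →L[ℝ] E) →L[ℝ] V :=
  LinearMap.toContinuousLinearMap
    ((LinearMap.applyₗ z).comp ((ContinuousLinearMap.coeLM ℝ).comp act))

theorem actL_apply (z : V) (A : E →L[ℝ] E) : actL z A = act A z := rfl

@[fun_prop] theorem continuous_ga (z : V) : Continuous fun g : G E => ga g z :=
  (actL z).continuous.comp continuous_subtype_val

/-- the one parameter group of a skew operator -/
def rot {A : E →L[ℝ] E} (hA : IsSkew A) (s : ℝ) : G E :=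
  ⟨NormedSpace.exp (s • A), by
    let _ : NormedAlgebra ℚ (E →L[ℝ] E) := NormedAlgebra.restrictScalars ℚ ℝ _
    refine NormedSpace.exp_mem_unitary_of_mem_skewAdjoint ?_
    rw [skewAdjoint.mem_iff, ContinuousLinearMap.star_eq_adjoint]
    symm
    rw [ContinuousLinearMap.eq_adjoint_iff]
    intro x y
    simp [real_inner_smul_left, real_inner_smul_right, hA x y]⟩

theorem rot_zero {A : E →L[ℝ] E} (hA : IsSkew A) : rot hA 0 = 1 := by
  ext1
  simp [rot]

theorem hasDerivAt_rot {A : E →L[ℝ] E} (hA : IsSkew A) (z : V) (s : ℝ) :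
    HasDerivAt (fun s => ga (rot hA s) z) (act A (ga (rot hA s) z)) s := by
  have := (actL z).hasFDerivAt.comp_hasDerivAt s (hasDerivAt_exp_smul_const' (𝕂 := ℝ) A s)
  rw [actL_apply, ← act_act] at this
  exact this

theorem continuous_rot {A : E →L[ℝ] E} (hA : IsSkew A) : Continuous (rot hA) :=
  Continuous.subtype_mk (continuous_iff_continuousAt.2 fun s =>
    (hasDerivAt_exp_smul_const' (𝕂 := ℝ) A s).continuousAt) _

theorem ap_rot_of_eq_zero {A : E →L[ℝ] E} (hA : IsSkew A) {x : E} (hx : A x = 0) (s : ℝ) :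
    ap (rot hA s) x = x := by
  have h : ∀ s, HasDerivAt (fun s => ap (rot hA s) x) 0 s := by
    intro s
    have := (actL x).hasFDerivAt.comp_hasDerivAt s (hasDerivAt_exp_smul_const (𝕂 := ℝ) A s)
    rw [actL_apply, ← act_act, act_self A, hx, map_zero] at this
    exact this
  rw [is_const_of_deriv_eq_zero (fun s => (h s).differentiableAt) (fun s => (h s).deriv) s 0,
    rot_zero, ap_one]

/-- conditions at a maximum along an orbit -/
theorem orbit_max {f : ℝ × V → ℝ} {p : ℝ × V} (hf : ContDiffAt ℝ 2 f p) {A : E →L[ℝ] E}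
    (hA : IsSkew A) (hm : ∀ s, f (p.1, ga (rot hA s) p.2) ≤ f p) :
    df f p A = 0 ∧ qf f p A A ≤ 0 := by
  have h0 : ((p.1, ga (rot hA 0) p.2) : ℝ × V) = p := by rw [rot_zero, ga_one]
  have := curve_max (f := f) (c := fun s => (p.1, ga (rot hA s) p.2))
    (c' := fun s => (0, act A (ga (rot hA s) p.2))) (c'' := (0, act A (act A p.2)))
    (by rwa [h0]) (fun s => (hasDerivAt_const s _).prodMk (hasDerivAt_rot hA _ s))
    ((hasDerivAt_const _ _).prodMk (by
      have := (act A : V →L[ℝ] V).hasFDerivAt.comp_hasDerivAt 0 (hasDerivAt_rot hA p.2 0)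
      rwa [rot_zero, ga_one] at this))
    (Eventually.of_forall fun s => by simpa [h0] using hm s)
  simp only [rot_zero, ga_one] at this
  exact ⟨this.1, by rw [qf_apply]; exact this.2⟩

theorem deriv_nonpos_of_max {W : Type} [NormedAddCommGroup W] [NormedSpace ℝ W] {f : W → ℝ}
    {c : ℝ → W} {c' : W} (hf : DifferentiableAt ℝ f (c 0)) (hc : HasDerivAt c c' 0)
    (hm : ∀ᶠ s in 𝓝[>] 0, f (c s) ≤ f (c 0)) : fderiv ℝ f (c 0) c' ≤ 0 := by
  have h := (hf.hasFDerivAt.comp_hasDerivAt 0 hc).hasDerivWithinAt (s := Ioi 0)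
  rw [hasDerivWithinAt_iff_tendsto_slope' (by simp)] at h
  refine le_of_tendsto h ?_
  filter_upwards [hm, self_mem_nhdsWithin] with s hs (h0 : 0 < s)
  rw [slope_def_field]
  exact div_nonpos_of_nonpos_of_nonneg (sub_nonpos.2 hs) (by linarith)

theorem time_max {f : ℝ × V → ℝ} {p : ℝ × V} (hf : DifferentiableAt ℝ f p) {a : ℝ}
    (ha : a < p.1) (hm : ∀ s, a ≤ s → s ≤ p.1 → f (s, p.2) ≤ f p) : 0 ≤ fderiv ℝ f p (1, 0) := by
  have h := deriv_nonpos_of_max (f := f) (c := fun s => (p.1 - s, p.2)) (c' := (-1, 0))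
    (by simpa using hf) (((hasDerivAt_id 0).const_sub p.1).prodMk (hasDerivAt_const _ _)) ?_
  · have e : ((-1, 0) : ℝ × V) = -(1, 0) := by simp
    rw [e, map_neg] at h
    simpa using h
  · filter_upwards [Ioo_mem_nhdsGT (sub_pos.2 ha)] with s hs
    simpa using hm (p.1 - s) (by linarith [hs.2]) (by linarith [hs.1])

/-- at a space-time maximum the heat operator is nonnegative and the gradient vanishes -/
theorem heat_max {f : ℝ × V → ℝ} {p : ℝ × V} (hf : ContDiffAt ℝ 2 f p) {a : ℝ} (ha : a < p.1)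
    (h1 : ∀ s, a ≤ s → s ≤ p.1 → f (s, p.2) ≤ f p) (h2 : ∀ g : G E, f (p.1, ga g p.2) ≤ f p) :
    0 ≤ heat E f p ∧ hg E f p = 0 := by
  have h3 := time_max (hf.differentiableAt (by simp)) ha h1
  have h4 := fun j : Ix E => orbit_max hf (isSkew_hA j) fun s => h2 _
  refine ⟨?_, ?_⟩
  · rw [heat_eq]
    have := Finset.sum_nonpos fun j (_ : j ∈ Finset.univ) => (h4 j).2
    linarith
  · ext j
    exact (h4 j).1

theorem exists_max {f : ℝ × V → ℝ} {K : Set V} (hK : IsCompact K) {a b : ℝ}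
    (hf : ∀ s ∈ Icc a b, ∀ z ∈ K, ContinuousAt f (s, z)) {τ : ℝ} (hτ : τ ∈ Icc a b) {z : V}
    (hz : z ∈ K) : ∃ p : ℝ × V, p.1 ∈ Icc a b ∧ p.2 ∈ K ∧ ∀ s ∈ Icc a b, ∀ y ∈ K, f (s, y) ≤ f p := by
  obtain ⟨p, hp, hm⟩ := (isCompact_Icc.prod hK).exists_isMaxOn ⟨(τ, z), hτ, hz⟩
    fun q hq => (hf q.1 hq.1 q.2 hq.2).continuousWithinAt
  exact ⟨p, hp.1, hp.2, fun s hs y hy => hm (a := (s, y)) ⟨hs, hy⟩⟩

/-- the maximum principle -/
theorem max_principle {f : ℝ × V → ℝ} {K : Set V} (hK : IsCompact K)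
    (hKi : ∀ g : G E, ∀ z ∈ K, ga g z ∈ K) {a c : ℝ}
    (hf : ∀ s, a ≤ s → ∀ z ∈ K, ContDiffAt ℝ 2 f (s, z))
    (hh : ∀ s, a < s → ∀ z ∈ K, heat E f (s, z) ≤ 0) (h0 : ∀ z ∈ K, f (a, z) ≤ c) {τ : ℝ}
    (hτ : a ≤ τ) {z : V} (hz : z ∈ K) : f (τ, z) ≤ c := by
  refine le_of_forall_pos_le_add fun ε hε => ?_
  have hd : 0 < τ - a + 1 := by linarith
  set η := ε / (τ - a + 1) with hη
  have hη0 : 0 < η := div_pos hε hd
  have hj : ∀ s, a ≤ s → ∀ y ∈ K, HJet (fun q => f q - η * q.1) (s, y) (f (s, y) - η * s)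
      (heat E f (s, y) - η * 1) (hg E f (s, y) - η • 0) :=
    fun s hs y hy => (HJet.of' (hf s hs y hy)).sub ((hjet_time _).const_mul η)
  obtain ⟨p, hp1, hp2, hm⟩ := exists_max (f := fun q => f q - η * q.1) hK (a := a) (b := τ)
    (fun s hs y hy => (hj s hs.1 y hy).sm.continuousAt) ⟨hτ, le_rfl⟩ hz
  rcases hp1.1.eq_or_lt with h | h
  · have h1 := hm τ ⟨hτ, le_rfl⟩ z hz
    have h2 := h0 p.2 hp2
    have h3 : p = (a, p.2) := Prod.ext h.symm rfl
    rw [← h3] at h2
    simp only [← h] at h1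
    have : η * (τ - a + 1) = ε := by rw [hη]; field_simp
    nlinarith
  · have h1 := (heat_max (E := E) (hj p.1 h.le p.2 hp2).sm h
      (fun s hs hs' => hm s ⟨hs, hs'.trans hp1.2⟩ _ hp2)
      (fun g => hm _ hp1 _ (hKi g _ hp2))).1
    have h2 : heat E (fun q => f q - η * q.1) p = _ := (hj p.1 h.le p.2 hp2).op
    have h3 := hh p.1 h p.2 hp2
    rw [h2] at h1
    linarith

end Pool.Agent.BL
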