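import Pool.Agent.P.MP_edb112_gt.SlackA
import Pool.Agent.P.MP_edb112_gt.SlackB
import Pool.Agent.P.MP_edb112_gt.Main

/-! Linear stability of the extremal property of caps, uniformly in the dimension. -/

set_option autoImplicit false
set_option linter.unusedSectionVars false

open MeasureTheory Set Module Filter
open scoped RealInnerProductSpace symmDiff Topology

noncomputable section

namespace Pool.Agent.BL

section

variable {E : Type} [NormedAddCommGroup E] [InnerProductSpace ℝ E] [CompleteSpace E]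
  [FiniteDimensional ℝ E] [MeasurableSpace E] [BorelSpace E]

theorem preimage_cap (g : G E) (e : E) (h : ℝ) : ap g ⁻¹' cap (ap g e) h = cap e h := by
  ext x
  simp only [cap, mem_preimage, mem_ofPred_eq, inner_ap]

theorem real_cap_eq {e e' : E} (he : ‖e‖ = 1) (he' : ‖e'‖ = 1) (h : ℝ) :
    (sph E).real (cap e' h) = (sph E).real (cap e h) := by
  obtain ⟨g, hg, -⟩ := exists_ap_eq (he.trans he'.symm)
  rw [← (measurePreserving_ap_right g).measureReal_preimage
    (measurableSet_cap e' h).nullMeasurableSet, ← hg, preimage_cap]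

/-- among the caps of a given height one is closest to `A` -/
theorem exists_best {e : E} (he : ‖e‖ = 1) (h : ℝ) {A : Set E} (hA : MeasurableSet A) :
    ∃ e₀ : E, ‖e₀‖ = 1 ∧ ∀ e' : E, ‖e'‖ = 1 →
      (sph E).real (A ∆ cap e₀ h) ≤ (sph E).real (A ∆ cap e' h) := by
  let f : C(G E, C(E, E)) := ContinuousMap.curry
    ⟨fun p : G E × E => ap p.1 p.2, continuous_ap continuous_fst continuous_snd⟩
  have hf : ∀ g, MeasurePreserving (f g) (sph E) (sph E) := fun g => measurePreserving_ap_right g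
  have hm : ∀ g, MeasurableSet (A ∆ (f g ⁻¹' cap e h)) := fun g =>
    hA.symmDiff ((hf g).measurable (measurableSet_cap e h))
  have hc : Continuous fun g => (sph E).real (A ∆ (f g ⁻¹' cap e h)) := by
    refine continuous_iff_continuousAt.2 fun g => tendsto_iff_dist_tendsto_zero.2 ?_
    have h1 := (ENNReal.tendsto_toReal ENNReal.zero_ne_top).comp
      (tendsto_measure_symmDiff_preimage_nhds_zero (f.continuous.tendsto g) (.of_forall hf) (hf g)
        (measurableSet_cap e h).nullMeasurableSet (measure_ne_top _ _))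
    refine squeeze_zero (fun _ => dist_nonneg) (fun g' => ?_) h1
    have h2 := abs_measureReal_sub_le_measureReal_symmDiff (μ := sph E) (hm g').nullMeasurableSet
      (hm g).nullMeasurableSet
    rwa [symmDiff_symmDiff_symmDiff_comm, symmDiff_self, bot_symmDiff] at h2
  obtain ⟨g, -, hg⟩ := isCompact_univ.exists_isMinOn univ_nonempty hc.continuousOn
  have key : ∀ g : G E, f g ⁻¹' cap e h = cap (ap g⁻¹ e) h := fun g => by
    rw [← preimage_cap g (ap g⁻¹ e), ap_ap_inv]
    rfl
  refine ⟨ap g⁻¹ e, (norm_ap _ _).trans he, fun e' he' => ?_⟩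
  obtain ⟨g', hg', -⟩ := exists_ap_eq (he'.trans he.symm)
  have h3 : (sph E).real (A ∆ (f g ⁻¹' cap e h)) ≤ (sph E).real (A ∆ (f g' ⁻¹' cap e h)) :=
    hg (mem_univ g')
  rwa [key, key, ← hg', ap_inv_ap, hg'] at h3

/-- the measure of a cap is continuous from below in the height -/
theorem tendsto_cap (e : E) {c : ℝ} (hc : 0 < c) :
    Tendsto (fun j : ℕ => (sph E).real (cap e (c - c / (j + 1)))) atTop
      (𝓝 ((sph E).real (cap e c))) := by
  have h1 : ⋂ j : ℕ, cap e (c - c / (j + 1)) = cap e c := by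
    ext x
    simp only [cap, mem_iInter, mem_ofPred_eq]
    refine ⟨fun h => ?_, fun h j => le_trans (sub_le_self _ (by positivity)) h⟩
    have h2 : Tendsto (fun j : ℕ => c - c / ((j : ℝ) + 1)) atTop (𝓝 (c - 0)) :=
      tendsto_const_nhds.sub ((tendsto_atTop_add_const_right _ 1
        tendsto_natCast_atTop_atTop).const_div_atTop c)
    simpa using le_of_tendsto' h2 h
  have h2 := tendsto_measure_iInter_atTop (μ := sph E)
    (s := fun j : ℕ => cap e (c - c / (j + 1)))
    (fun j => (measurableSet_cap _ _).nullMeasurableSet)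
    (fun i j hij x (hx : c - c / ((j : ℝ) + 1) ≤ _) =>
      le_trans (show c - c / ((i : ℝ) + 1) ≤ c - c / ((j : ℝ) + 1) by gcongr) hx)
    ⟨0, measure_ne_top _ _⟩
  rw [h1] at h2
  exact (ENNReal.tendsto_toReal (measure_ne_top _ _)).comp h2

end

/-- a free set is within a constant times its measure deficit of a cap -/
theorem stab_free (t : ℕ) (ht : 3 ≤ t) (c : ℝ) : ∃ K > 0, ∃ k₀ : ℕ,
    ∀ (E : Type) [NormedAddCommGroup E] [InnerProductSpace ℝ E] [CompleteSpace E]
    [FiniteDimensional ℝ E] [MeasurableSpace E] [BorelSpace E], k₀ ≤ finrank ℝ E →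
    ∀ h : ℝ, 0 ≤ h → h ≤ c / √(finrank ℝ E) → ∀ A : Set E, MeasurableSet A → Free t h A →
    ∀ e : E, ‖e‖ = 1 → ∃ e' : E, ‖e'‖ = 1 ∧
      (sph E).real (A ∆ cap e' h) ≤ K * ((sph E).real (cap e h) - (sph E).real A) := by
  obtain ⟨δ₀, hδ₀, θ, hθ, k₁, hB⟩ := SB.contractSl t ht (le_max_right c 1)
  obtain ⟨σ, hσ, k₂, hA'⟩ := stepASl t ht c δ₀ hδ₀
  refine ⟨1 / θ + 1 / σ, by positivity, max k₁ k₂,
    fun E _ _ _ _ _ _ hn h h0 hc A hA hF e he => ?_⟩
  obtain ⟨e₀, he₀, hmin⟩ := exists_best he h hA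
  refine ⟨e₀, he₀, ?_⟩
  have h1 : (sph E).real (A ∆ cap e₀ h) ≤ 1 := measureReal_le_one
  have h2 := abs_measureReal_sub_le_measureReal_symmDiff (μ := sph E) hA.nullMeasurableSet
    (measurableSet_cap e₀ h).nullMeasurableSet
  have h3 := real_cap_eq he he₀ h
  have hB' := hB E (by omega) h h0 (hc.trans (by gcongr; exact le_max_left _ _)) A hA hF e₀ he₀
  have hA'' := hA' E (by omega) h h0 hc A hA hF e he
  have h4 : 0 ≤ (sph E).real (A ∆ cap e₀ h) := measureReal_nonneg
  rw [h3] at h2 hB'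
  generalize (sph E).real (A ∆ cap e₀ h) = δ at *
  rw [abs_sub_comm] at h2
  generalize (sph E).real (cap e h) - (sph E).real A = D at *
  rcases lt_or_ge σ D with hD | hD
  · have h5 : 1 ≤ 1 / σ * D := by
      rw [one_div_mul_eq_div, one_le_div hσ]
      exact hD.le
    have h6 : 0 ≤ 1 / θ * D := mul_nonneg (by positivity) (by linarith)
    linarith
  · obtain ⟨e', he', h5⟩ := hA'' hD
    rcases h4.eq_or_lt with rfl | hδ
    · rw [abs_nonpos_iff.1 h2, mul_zero]
    · have h6 : θ * δ < D := by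
        by_contra h7
        obtain ⟨e'', he'', h8⟩ := hB' ((hmin e' he').trans h5) hδ (not_lt.1 h7)
        linarith [hmin e'' he'']
      have h7 : δ ≤ 1 / θ * D := by
        rw [one_div_mul_eq_div, le_div_iff₀' hθ]
        exact h6.le
      have h8 : 0 ≤ 1 / σ * D := mul_nonneg (by positivity) (by nlinarith)
      linarith

/-- the same for sets in which every `t` unit vectors have a pair with inner product at least
`beta t c` -/
theorem stab_weak (t : ℕ) (ht : 3 ≤ t) (ε : ℝ) (hε : 0 < ε) : ∃ K > 0, ∃ k₀ : ℕ,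
    ∀ (E : Type) [NormedAddCommGroup E] [InnerProductSpace ℝ E] [CompleteSpace E]
    [FiniteDimensional ℝ E] [MeasurableSpace E] [BorelSpace E], k₀ ≤ finrank ℝ E →
    ∀ A : Set E, MeasurableSet A → ∀ v : E, ‖v‖ = 1 → ∀ c : ℝ, 0 < c →
      ε ≤ (sph E).real (cap v c) →
      (∀ x : Fin t → E, (∀ a, x a ∈ A) → (∀ a, ‖x a‖ = 1) →
        ∃ a b, a ≠ b ∧ beta t c ≤ ⟪x a, x b⟫) →
      ∃ w : E, ‖w‖ = 1 ∧
        (sph E).real (A ∆ cap w c) ≤ K * ((sph E).real (cap v c) - (sph E).real A) := by
  obtain ⟨K, hK, k₁, hk⟩ := stab_free t ht (1 / √ε)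
  refine ⟨K, hK, max k₁ 1, fun E _ _ _ _ _ _ hn A hA v hv c hc hcε hF => ?_⟩
  have : Nontrivial E := Module.nontrivial_of_finrank_pos (R := ℝ) (by omega)
  have hn0 : (0 : ℝ) < finrank ℝ E := by exact_mod_cast finrank_pos
  have ht' : (3 : ℝ) ≤ t := by exact_mod_cast ht
  have hcn : c ≤ 1 / √ε / √(finrank ℝ E : ℝ) := by
    rw [div_div, ← Real.sqrt_mul hε.le, le_div_iff₀ (by positivity)]
    have h1 := hcε.trans (cap_le_inv hv hc)
    rw [le_div_iff₀ (by positivity)] at h1
    refine (abs_le_one_iff_mul_self_le_one.2 ?_).trans' (le_abs_self _)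
    have := Real.mul_self_sqrt (mul_pos hε hn0).le
    nlinarith
  obtain ⟨w, hw, hmin⟩ := exists_best hv c hA
  refine ⟨w, hw, ?_⟩
  have key : ∀ h : ℝ, 0 ≤ h → h < c → (sph E).real (A ∆ cap w c) ≤
      K * ((sph E).real (cap v h) - (sph E).real A) +
        |(sph E).real (cap v h) - (sph E).real (cap v c)| := by
    intro h h0 h1
    have hb : beta t h < beta t c := by
      unfold beta
      gcongr
      linarith
    obtain ⟨e, he, h2⟩ := hk E (by omega) h h0 (h1.le.trans hcn) A hA
      (fun x hx hx1 => (hF x hx hx1).imp fun a => Exists.imp fun b hab =>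
        ⟨hab.1, hb.trans_le hab.2⟩) v hv
    have h3 := measureReal_symmDiff_le (μ := sph E) (s := A) (t := cap e h) (cap e c)
      (measure_ne_top _ _) (measure_ne_top _ _)
    rw [SB.real_cap_symmDiff, real_cap_eq hv he, real_cap_eq hv he] at h3
    linarith [hmin e he]
  have h1 := tendsto_cap v hc
  have h2 := ((h1.sub_const ((sph E).real A)).const_mul K).add
    (h1.sub_const ((sph E).real (cap v c))).abs
  rw [sub_self, abs_zero, add_zero] at h2
  refine ge_of_tendsto' h2 fun j => key _ ?_ (sub_lt_self _ (by positivity))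
  exact sub_nonneg.2 (div_le_self hc.le (by simp))

end Pool.Agent.BL
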