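import Pool.Agent.P.MP_edb112_gt.Density
import Pool.Agent.P.MP_edb112_gt.Pair

set_option autoImplicit false

open MeasureTheory Set Module
open scoped RealInnerProductSpace symmDiff

noncomputable section

namespace Pool.Agent.BL

/-- small set expansion for a pair of points at a fixed obtuse angle (paper, section 4) -/
theorem sse (ε : ℝ) (hε : 0 < ε) : ∃ γ > 0, ∃ k₀ : ℕ,
    ∀ (E : Type) [NormedAddCommGroup E] [InnerProductSpace ℝ E] [CompleteSpace E]
    [FiniteDimensional ℝ E] [MeasurableSpace E] [BorelSpace E], k₀ ≤ finrank ℝ E →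
    ∀ x y : E, ‖x‖ = 1 → ‖y‖ = 1 → -0.52 ≤ ⟪x, y⟫ → ⟪x, y⟫ ≤ 0 →
    ∀ X Y : Set E, MeasurableSet X → MeasurableSet Y → (sph E).real X ≤ γ →
      (haar E).real {g | ap g x ∈ X ∧ ap g y ∈ Y} ≤
        ε * √((sph E).real X * (sph E).real Y) := by
  obtain ⟨γ, hγ, k₀, -, H⟩ := sse_fun ε hε
  refine ⟨γ, hγ, k₀, fun E _ _ _ _ _ _ hn x y hx hy h1 h2 X Y hX hY hb => ?_⟩
  have h3 := H E hn x y hx hy (abs_le.2 ⟨h1, by linarith⟩) (X.indicator 1) (Y.indicator 1)
    (measurable_one.indicator hX).aestronglyMeasurable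
    (Filter.Eventually.of_forall fun z => by by_cases hz : z ∈ X <;> simp [hz])
    (by rwa [integral_indicator_one hX]) ((memLp_const 1).indicator hY)
  have e1 : (fun g : G E => X.indicator (1 : E → ℝ) (ap g x) * Y.indicator (1 : E → ℝ) (ap g y)) =
      {g : G E | ap g x ∈ X ∧ ap g y ∈ Y}.indicator 1 := by
    funext g
    by_cases h4 : ap g x ∈ X <;> by_cases h5 : ap g y ∈ Y <;> simp [h4, h5]
  have e2 : (fun z => Y.indicator (1 : E → ℝ) z ^ 2) = Y.indicator 1 := by
    funext z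
    by_cases hz : z ∈ Y <;> simp [hz]
  have hm : MeasurableSet {g : G E | ap g x ∈ X ∧ ap g y ∈ Y} :=
    (measurable_ap x hX).inter (measurable_ap y hY)
  rw [e1, e2, integral_indicator_one hX, integral_indicator_one hY,
    integral_indicator_one hm] at h3
  rwa [Real.sqrt_mul measureReal_nonneg, ← mul_assoc]

end Pool.Agent.BL
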