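import Pool.Agent.P.MP_edb112_gt.Good
import Pool.Agent.P.MP_edb112_gt.Sse

set_option autoImplicit false
set_option linter.unusedSectionVars false

open MeasureTheory Set Module
open scoped RealInnerProductSpace symmDiff

noncomputable section

namespace Pool.Agent.BL

namespace Stb

variable {E : Type} [NormedAddCommGroup E] [InnerProductSpace ℝ E] [FiniteDimensional ℝ E]
  [CompleteSpace E] [MeasurableSpace E] [BorelSpace E]

theorem cont_orb {Y : Type} [TopologicalSpace Y] {f : E → Y}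
    (hf : ContinuousOn f {w : E | ‖w‖ = 1}) {x : E} (hx : ‖x‖ = 1) :
    Continuous fun g : G E => f (ap g x) :=
  hf.comp_continuous (continuous_ap continuous_id continuous_const)
    fun g => (norm_ap g x).trans hx

theorem integrable_vec [Nontrivial E] {f : E → E} (hf : ContinuousOn f {x : E | ‖x‖ = 1}) :
    Integrable f (sph E) := by
  have h1 : IntegrableOn f {x : E | ‖x‖ = 1} (sph E) := hf.integrableOn_compact isCompact_unit
  rwa [IntegrableOn, Measure.restrict_eq_self_of_ae_mem (s := {x : E | ‖x‖ = 1}) ae_norm] at h1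

theorem cont_slice {Y : Type} [TopologicalSpace Y] {f : ℝ × E → Y} {τ : ℝ}
    (hf : ∀ x, ‖x‖ = 1 → ContinuousAt f (τ, x)) :
    ContinuousOn (fun x => f (τ, x)) {x : E | ‖x‖ = 1} := fun y hy =>
  ((hf y hy).comp_of_eq (f := fun y : E => (τ, y)) (by fun_prop) rfl).continuousWithinAt

/-- the spectral gap property of a pair of points -/
def Gap (x y : E) : Prop :=
  ∀ h h' : E → ℝ, ContinuousOn h {w : E | ‖w‖ = 1} → ContinuousOn h' {w : E | ‖w‖ = 1} →
    ∫ w, h' w ∂(sph E) = 0 →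
    |∫ g, h (ap g x) * h' (ap g y) ∂(haar E)| ≤
      0.95 * √(∫ w, h w ^ 2 ∂(sph E)) * √(∫ w, h' w ^ 2 ∂(sph E))

theorem gap_scalar [Nontrivial E] {x y : E} (hx : ‖x‖ = 1) (hy : ‖y‖ = 1) (hg : Gap x y)
    {h h' : E → ℝ} (hh : ContinuousOn h {w : E | ‖w‖ = 1})
    (hh' : ContinuousOn h' {w : E | ‖w‖ = 1}) {c c' : ℝ} (hc : ∫ w, h w ∂(sph E) = c)
    (hc' : ∫ w, h' w ∂(sph E) = c') :
    (c - c') ^ 2 + 0.05 * (∫ w, (h w - c) ^ 2 ∂(sph E) + ∫ w, (h' w - c') ^ 2 ∂(sph E)) ≤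
      ∫ g, (h (ap g x) - h' (ap g y)) ^ 2 ∂(haar E) := by
  have hp : ContinuousOn (fun w => h w - c) {w : E | ‖w‖ = 1} := hh.sub continuousOn_const
  have hq : ContinuousOn (fun w => h' w - c') {w : E | ‖w‖ = 1} := hh'.sub continuousOn_const
  have mp : ∫ w, (h w - c) ∂(sph E) = 0 := by
    rw [integral_sub (integrable_of_continuousOn hh) (integrable_const _), hc]
    simp
  have mq : ∫ w, (h' w - c') ∂(sph E) = 0 := by
    rw [integral_sub (integrable_of_continuousOn hh') (integrable_const _), hc']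
    simp
  have h1 := hg _ _ hp hq mq
  have cp := cont_orb hp hx
  have cq := cont_orb hq hy
  have e1 := integral_ap hx (integrable_of_continuousOn hp).aestronglyMeasurable
  have e2 := integral_ap hy (integrable_of_continuousOn hq).aestronglyMeasurable
  have e3 := integral_ap hx (integrable_of_continuousOn (hp.pow 2)).aestronglyMeasurable
  have e4 := integral_ap hy (integrable_of_continuousOn (hq.pow 2)).aestronglyMeasurable
  have e : ∀ g : G E, (h (ap g x) - h' (ap g y)) ^ 2 =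
      (c - c') ^ 2 + 2 * (c - c') * (h (ap g x) - c) - 2 * (c - c') * (h' (ap g y) - c') +
        (h (ap g x) - c) ^ 2 + (h' (ap g y) - c') ^ 2 -
        2 * ((h (ap g x) - c) * (h' (ap g y) - c')) := fun g => by ring
  simp only [e]
  rw [integral_sub (integrable_haar (by fun_prop)) (integrable_haar (by fun_prop)),
    integral_add (integrable_haar (by fun_prop)) (integrable_haar (by fun_prop)),
    integral_add (integrable_haar (by fun_prop)) (integrable_haar (by fun_prop)),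
    integral_sub (integrable_haar (by fun_prop)) (integrable_haar (by fun_prop)),
    integral_add (integrable_haar (by fun_prop)) (integrable_haar (by fun_prop)),
    integral_const_mul, integral_const_mul, integral_const_mul, e1, e2, mp, mq]
  simp only [Pi.pow_apply] at e3 e4
  rw [e3, e4]
  have p0 : 0 ≤ ∫ w, (h w - c) ^ 2 ∂(sph E) := integral_nonneg fun w => sq_nonneg _
  have q0 : 0 ≤ ∫ w, (h' w - c') ^ 2 ∂(sph E) := integral_nonneg fun w => sq_nonneg _
  have s1 := Real.sq_sqrt p0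
  have s2 := Real.sq_sqrt q0
  have h2 := (abs_le.1 h1).2
  simp only [integral_const, probReal_univ, smul_eq_mul, one_mul]
  nlinarith [sq_nonneg (√(∫ w, (h w - c) ^ 2 ∂(sph E)) - √(∫ w, (h' w - c') ^ 2 ∂(sph E)))]

theorem norm_sq_eq (v : E) : ‖v‖ ^ 2 = ∑ i, ⟪eb E i, v⟫ ^ 2 := by
  rw [← real_inner_self_eq_norm_sq, ← pars_eb.inner v v]
  simp only [sq]

theorem gap_vec [Nontrivial E] {x y : E} (hx : ‖x‖ = 1) (hy : ‖y‖ = 1) (hg : Gap x y)
    {h h' : E → E} (hh : ContinuousOn h {w : E | ‖w‖ = 1})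
    (hh' : ContinuousOn h' {w : E | ‖w‖ = 1}) {c c' : E} (hc : ∫ w, h w ∂(sph E) = c)
    (hc' : ∫ w, h' w ∂(sph E) = c') :
    ‖c - c'‖ ^ 2 + 0.05 * (∫ w, ‖h w - c‖ ^ 2 ∂(sph E) + ∫ w, ‖h' w - c'‖ ^ 2 ∂(sph E)) ≤
      ∫ g, ‖h (ap g x) - h' (ap g y)‖ ^ 2 ∂(haar E) := by
  have ci : ∀ i, ContinuousOn (fun w => ⟪eb E i, h w⟫) {w : E | ‖w‖ = 1} := fun i =>
    continuousOn_const.inner (𝕜 := ℝ) hh
  have ci' : ∀ i, ContinuousOn (fun w => ⟪eb E i, h' w⟫) {w : E | ‖w‖ = 1} := fun i =>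
    continuousOn_const.inner (𝕜 := ℝ) hh'
  have key := fun i => gap_scalar hx hy hg (ci i) (ci' i) (c := ⟪eb E i, c⟫) (c' := ⟪eb E i, c'⟫)
    (by rw [integral_inner (integrable_vec hh), hc])
    (by rw [integral_inner (integrable_vec hh'), hc'])
  have co := fun i => cont_orb (ci i) hx
  have co' := fun i => cont_orb (ci' i) hy
  simp only [norm_sq_eq, inner_sub_right]
  rw [integral_finsetSum _ fun i _ =>
      integrable_of_continuousOn (((ci i).fun_sub continuousOn_const).fun_pow 2),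
    integral_finsetSum _ fun i _ =>
      integrable_of_continuousOn (((ci' i).fun_sub continuousOn_const).fun_pow 2),
    integral_finsetSum _ fun i _ => integrable_haar (((co i).fun_sub (co' i)).fun_pow 2),
    ← Finset.sum_add_distrib, Finset.mul_sum, ← Finset.sum_add_distrib]
  exact Finset.sum_le_sum fun i _ => key i

theorem norm_add_sq_le (v w : E) : ‖v + w‖ ^ 2 ≤ 2 * ‖v‖ ^ 2 + 2 * ‖w‖ ^ 2 := by
  have h := norm_add_le v w
  nlinarith [sq_nonneg (‖v‖ - ‖w‖), norm_nonneg (v + w), norm_nonneg v, norm_nonneg w]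

theorem integral_shift [Nontrivial E] {h : E → E} (hh : ContinuousOn h {w : E | ‖w‖ = 1})
    (c c' : E) : ∫ w, ‖h w - c'‖ ^ 2 ∂(sph E) ≤
      2 * ∫ w, ‖h w - c‖ ^ 2 ∂(sph E) + 2 * ‖c - c'‖ ^ 2 := by
  have i1 : ∀ c : E, Integrable (fun w => ‖h w - c‖ ^ 2) (sph E) := fun c =>
    integrable_of_continuousOn ((hh.sub continuousOn_const).norm.pow 2)
  calc _ ≤ ∫ w, (2 * ‖h w - c‖ ^ 2 + 2 * ‖c - c'‖ ^ 2) ∂(sph E) := by
        refine integral_mono (i1 _) (((i1 _).const_mul _).add (integrable_const _)) fun w => ?_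
        have := norm_add_sq_le (h w - c) (c - c')
        rwa [sub_add_sub_cancel] at this
    _ = _ := by
        rw [integral_add ((i1 _).const_mul _) (integrable_const _), integral_const_mul]
        simp

/-- nearly equal fields along a configuration are nearly equal to a common constant -/
theorem near_const [Nontrivial E] {t : ℕ} (ht : 2 ≤ t) {z : Fin t → E} (hz : ∀ a, ‖z a‖ = 1)
    (hg : ∀ a b, a ≠ b → Gap (z a) (z b)) {T : Fin t → E → E}
    (hT : ∀ a, ContinuousOn (T a) {w : E | ‖w‖ = 1}) {D : ℝ}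
    (hD : ∫ g, ∑ a, ∑ b, ‖T a (ap g (z a)) - T b (ap g (z b))‖ ^ 2 ∂(haar E) ≤ D) :
    ∃ m : E, ∀ a, ∫ w, ‖T a w - m‖ ^ 2 ∂(sph E) ≤ 40 * D := by
  have co : ∀ a b, Continuous fun g : G E => ‖T a (ap g (z a)) - T b (ap g (z b))‖ ^ 2 :=
    fun a b => ((cont_orb (hT a) (hz a)).sub (cont_orb (hT b) (hz b))).norm.pow 2
  have h1 : ∀ a b, ∫ g, ‖T a (ap g (z a)) - T b (ap g (z b))‖ ^ 2 ∂(haar E) ≤ D := by
    intro a b
    refine le_trans (integral_mono (integrable_haar (co a b)) (integrable_haar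
      (continuous_finsetSum _ fun a _ => continuous_finsetSum _ fun b _ => co a b))
      fun g => ?_) hD
    refine le_trans ?_ (Finset.single_le_sum (f := fun a => ∑ b,
      ‖T a (ap g (z a)) - T b (ap g (z b))‖ ^ 2)
      (fun a _ => Finset.sum_nonneg fun b _ => sq_nonneg _) (Finset.mem_univ a))
    exact Finset.single_le_sum (f := fun b => ‖T a (ap g (z a)) - T b (ap g (z b))‖ ^ 2)
      (fun b _ => sq_nonneg _) (Finset.mem_univ b)
  have h2 := fun a b (hab : a ≠ b) =>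
    (gap_vec (hz a) (hz b) (hg a b hab) (hT a) (hT b) rfl rfl).trans (h1 a b)
  have h0 : ∀ a (c : E), 0 ≤ ∫ w, ‖T a w - c‖ ^ 2 ∂(sph E) := fun a c =>
    integral_nonneg fun w => sq_nonneg _
  let a0 : Fin t := ⟨0, by omega⟩
  let a1 : Fin t := ⟨1, by omega⟩
  refine ⟨∫ w, T a0 w ∂(sph E), fun a => ?_⟩
  rcases eq_or_ne a a0 with rfl | ha
  · have h3 := h2 a1 a0 (by simp [a0, a1])
    have h4 := h0 a1 (∫ w, T a1 w ∂(sph E))
    have h5 := h0 a0 (∫ w, T a0 w ∂(sph E))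
    nlinarith [sq_nonneg ‖∫ w, T a1 w ∂(sph E) - ∫ w, T a0 w ∂(sph E)‖]
  · have h3 := h2 a a0 ha
    have h4 := integral_shift (hT a) (∫ w, T a w ∂(sph E)) (∫ w, T a0 w ∂(sph E))
    have h5 := h0 a0 (∫ w, T a0 w ∂(sph E))
    nlinarith [sq_nonneg ‖∫ w, T a w ∂(sph E) - ∫ w, T a0 w ∂(sph E)‖]

theorem tg_sub_lin {u : ℝ × E → ℝ} {p : ℝ × E} (hu : DifferentiableAt ℝ u p) (m : E) :
    tg (fun q => u q - ⟪m, q.2⟫) p = tg u p - m + ⟪m, p.2⟫ • p.2 := by
  refine ext_inner_right ℝ fun w => ?_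
  have h1 : HasFDerivAt (fun q : ℝ × E => ⟪m, q.2⟫)
      ((innerSL ℝ m).comp (ContinuousLinearMap.snd ℝ ℝ E)) p :=
    ((innerSL ℝ m).comp (ContinuousLinearMap.snd ℝ ℝ E)).hasFDerivAt
  have h2 := (hu.hasFDerivAt.sub h1).fderiv
  rw [inner_tg, inner_add_left, inner_sub_left, inner_tg, real_inner_smul_left]
  change fderiv ℝ (u - fun q : ℝ × E => ⟪m, q.2⟫) p _ = _
  rw [h2]
  simp [inner_sub_right, real_inner_smul_right]
  ring

/-- a function with nearly constant gradient is nearly affine -/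
theorem near_affine (hn : 2 ≤ finrank ℝ E) {u : ℝ × E → ℝ} {τ : ℝ}
    (hu : ∀ x, ‖x‖ = 1 → ContDiffAt ℝ 1 u (τ, x)) (m : E) {A : ℝ}
    (hA : ∫ x, ‖tg u (τ, x) - m‖ ^ 2 ∂(sph E) ≤ A) :
    ∃ b : ℝ, ∫ x, (u (τ, x) - (b + ⟪m, x⟫)) ^ 2 ∂(sph E) ≤
      (4 * A + 4 * ‖m‖ ^ 2 / finrank ℝ E) / finrank ℝ E := by
  have : Nontrivial E := Module.nontrivial_of_finrank_pos (R := ℝ) (by omega)
  have hn' : (2 : ℝ) ≤ finrank ℝ E := by exact_mod_cast hn
  have hw : ∀ x, ‖x‖ = 1 → ContDiffAt ℝ 1 (fun q : ℝ × E => u q - ⟪m, q.2⟫) (τ, x) :=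
    fun x hx => (hu x hx).sub (contDiffAt_const.inner ℝ contDiffAt_snd)
  have h1 := poincare hn hw
  refine ⟨∫ y, (u (τ, y) - ⟪m, y⟫) ∂(sph E), ?_⟩
  have e : ∀ (b : ℝ) x, u (τ, x) - (b + ⟪m, x⟫) = u (τ, x) - ⟪m, x⟫ - b := fun b x => by ring
  simp only [e]
  refine h1.trans ?_
  have c1 : ContinuousOn (fun x => tg u (τ, x)) {x : E | ‖x‖ = 1} :=
    cont_slice fun x hx => continuousAt_tg (hu x hx)
  have c2 : ContinuousOn (fun x => tg (fun q : ℝ × E => u q - ⟪m, q.2⟫) (τ, x))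
      {x : E | ‖x‖ = 1} := cont_slice fun x hx => continuousAt_tg (hw x hx)
  have i1 : Integrable (fun x => ‖tg u (τ, x) - m‖ ^ 2) (sph E) :=
    integrable_of_continuousOn ((c1.sub continuousOn_const).norm.pow 2)
  have i2 : Integrable (fun x => ⟪m, x⟫ ^ 2) (sph E) := integrable_of_continuousOn (by fun_prop)
  have h2 : ∫ x, ‖tg (fun q : ℝ × E => u q - ⟪m, q.2⟫) (τ, x)‖ ^ 2 ∂(sph E) ≤
      2 * A + 2 * (‖m‖ ^ 2 / finrank ℝ E) := by
    calc _ ≤ ∫ x, (2 * ‖tg u (τ, x) - m‖ ^ 2 + 2 * ⟪m, x⟫ ^ 2) ∂(sph E) := by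
          refine integral_mono_ae (integrable_of_continuousOn (c2.norm.pow 2))
            ((i1.const_mul _).add (i2.const_mul _)) ?_
          filter_upwards [ae_norm] with x hx
          rw [tg_sub_lin ((hu x hx).differentiableAt (by simp))]
          refine (norm_add_sq_le _ _).trans (le_of_eq ?_)
          simp [norm_smul, hx]
      _ ≤ _ := by
          rw [integral_add (i1.const_mul _) (i2.const_mul _), integral_const_mul,
            integral_const_mul, integral_inner_sq]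
          linarith
  have h0 : 0 ≤ ∫ x, ‖tg (fun q : ℝ × E => u q - ⟪m, q.2⟫) (τ, x)‖ ^ 2 ∂(sph E) :=
    integral_nonneg fun w => sq_nonneg _
  have hk : (finrank ℝ E : ℝ) / 2 ≤ kk E := by
    rw [kk]
    linarith
  calc _ ≤ (2 * A + 2 * (‖m‖ ^ 2 / finrank ℝ E)) / (finrank ℝ E / 2) := by
        gcongr
        linarith
    _ = _ := by
        field_simp
        ring

open Classical in
/-- pointwise comparison of `Ph u` with the indicator of a half line -/
theorem ind_real {u Z β σ s : ℝ} (hσ : 0 < σ) (hs : 0 < s) :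
    |Ph u - if -β ≤ Z then 1 else 0| ≤ (if -β - s ≤ Z then 1 else 0) -
      (if -β + s ≤ Z then 1 else 0) + 4 / (σ * s) ^ 2 * (u - σ * (β + Z)) ^ 2 +
        8 / (σ * s) ^ 2 := by
  have hp : 0 < σ * s := mul_pos hσ hs
  have p0 := Ph_pos u
  have p1 := Ph_lt_one u
  have h0 : 0 ≤ 4 / (σ * s) ^ 2 * (u - σ * (β + Z)) ^ 2 := by positivity
  have h8 : 0 ≤ 8 / (σ * s) ^ 2 := by positivity
  have hb : Ph (-(σ * s / 2)) ≤ 8 / (σ * s) ^ 2 :=
    (Ph_neg_le_inv_sq (half_pos hp)).trans (le_of_eq (by field_simp; norm_num))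
  have hbig : σ * s / 2 ≤ |u - σ * (β + Z)| → 1 ≤ 4 / (σ * s) ^ 2 * (u - σ * (β + Z)) ^ 2 := by
    intro h
    rw [div_mul_eq_mul_div, le_div_iff₀ (by positivity), ← sq_abs (u - σ * (β + Z))]
    nlinarith
  rcases le_or_gt (-β + s) Z with h1 | h1
  · rw [if_pos h1, if_pos (by linarith), if_pos (by linarith), abs_of_nonpos (by linarith)]
    rcases le_or_gt (σ * s / 2) |u - σ * (β + Z)| with h | h
    · linarith [hbig h]
    · have h2 : σ * s ≤ σ * (β + Z) := mul_le_mul_of_nonneg_left (by linarith) hσ.le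
      have h3 : Ph (-u) ≤ Ph (-(σ * s / 2)) := Ph_mono (by linarith [(abs_lt.1 h).1])
      rw [Ph_neg] at h3
      linarith
  · rw [if_neg (not_le.2 h1)]
    rcases le_or_gt (-β - s) Z with h2 | h2
    · rw [if_pos h2]
      split_ifs
      · rw [abs_of_nonpos (by linarith)]
        linarith
      · rw [abs_of_nonneg (by linarith)]
        linarith
    · rw [if_neg (not_le.2 h2), if_neg (not_le.2 (by linarith)), abs_of_nonneg (by linarith)]
      rcases le_or_gt (σ * s / 2) |u - σ * (β + Z)| with h | h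
      · linarith [hbig h]
      · have h4 : σ * (β + Z) ≤ σ * (-s) := mul_le_mul_of_nonneg_left (by linarith) hσ.le
        have h3 : Ph u ≤ Ph (-(σ * s / 2)) := Ph_mono (by linarith [(abs_lt.1 h).2])
        linarith

open Classical in
theorem ind_cap {n : ℝ} (hn : 0 < n) (e x : E) (a : ℝ) :
    (cap e (a / √n)).indicator (1 : E → ℝ) x = if a ≤ √n * ⟪e, x⟫ then 1 else 0 := by
  have : x ∈ cap e (a / √n) ↔ a ≤ √n * ⟪e, x⟫ := by
    rw [cap, mem_ofPred_eq, div_le_iff₀ (Real.sqrt_pos.2 hn), mul_comm]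
  simp [indicator, this]

theorem integrable_ind {B : Set E} (hB : MeasurableSet B) :
    Integrable (B.indicator (1 : E → ℝ)) (sph E) := (integrable_const 1).indicator hB

/-- a nearly affine function of large slope gives a half-space -/
theorem near_cap (hn : 2 ≤ finrank ℝ E) {u : E → ℝ} (hu : ContinuousOn u {x : E | ‖x‖ = 1})
    {e : E} {β σ s c A : ℝ} (hσ : 0 < σ) (hs : 0 < s)
    (hc : ∀ a : ℝ, |(sph E).real (cap e (a / √(finrank ℝ E))) - Ph (-a)| ≤ c)
    (hA : ∫ x, (u x - σ * (β + √(finrank ℝ E) * ⟪e, x⟫)) ^ 2 ∂(sph E) ≤ A) :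
    ∫ x, |Ph (u x) - (cap e (-β / √(finrank ℝ E))).indicator 1 x| ∂(sph E) ≤
      s + 2 * c + 4 / (σ * s) ^ 2 * A + 8 / (σ * s) ^ 2 := by
  have : Nontrivial E := Module.nontrivial_of_finrank_pos (R := ℝ) (by omega)
  have hn' : (0 : ℝ) < finrank ℝ E := by exact_mod_cast (by omega : 0 < finrank ℝ E)
  have i1 : Integrable (fun x => (u x - σ * (β + √(finrank ℝ E) * ⟪e, x⟫)) ^ 2) (sph E) :=
    integrable_of_continuousOn ((hu.fun_sub (by fun_prop)).fun_pow 2)
  have i2 := fun a : ℝ => integrable_ind (measurableSet_cap e (a / √(finrank ℝ E)))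
  have i3 : Integrable (fun x => Ph (u x)) (sph E) :=
    integrable_of_continuousOn (continuous_Ph.comp_continuousOn hu)
  calc _ ≤ ∫ x, ((cap e ((-β - s) / √(finrank ℝ E))).indicator 1 x -
        (cap e ((-β + s) / √(finrank ℝ E))).indicator 1 x +
        4 / (σ * s) ^ 2 * (u x - σ * (β + √(finrank ℝ E) * ⟪e, x⟫)) ^ 2 + 8 / (σ * s) ^ 2)
        ∂(sph E) := by
        refine integral_mono (i3.sub (i2 _)).abs
          ((((i2 _).sub (i2 _)).add (i1.const_mul _)).add (integrable_const _)) fun x => ?_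
        simp only [ind_cap hn']
        exact ind_real hσ hs
    _ = (sph E).real (cap e ((-β - s) / √(finrank ℝ E))) -
        (sph E).real (cap e ((-β + s) / √(finrank ℝ E))) +
        4 / (σ * s) ^ 2 * ∫ x, (u x - σ * (β + √(finrank ℝ E) * ⟪e, x⟫)) ^ 2 ∂(sph E) +
        8 / (σ * s) ^ 2 := by
        rw [integral_add (by exact ((i2 _).sub (i2 _)).add (i1.const_mul _)) (integrable_const _),
          integral_add (by exact (i2 _).sub (i2 _)) (i1.const_mul _), integral_sub (i2 _) (i2 _),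
          integral_const_mul, integral_indicator_one (measurableSet_cap _ _),
          integral_indicator_one (measurableSet_cap _ _)]
        simp
    _ ≤ _ := by
        have h1 := (abs_le.1 (hc (-β - s))).2
        have h2 := (abs_le.1 (hc (-β + s))).1
        have h3 := Ph_sub_le (a := -(-β + s)) (b := -(-β - s)) (by linarith)
        have h4 := mul_le_mul_of_nonneg_left hA (by positivity : 0 ≤ 4 / (σ * s) ^ 2)
        linarith

/-- from the flow at a positive time back to the set -/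
theorem back (hn : 2 ≤ finrank ℝ E) (F : Flow E) {τ : ℝ} (hτ : 0 ≤ τ)
    (h01 : ∀ s, 0 ≤ s → ∀ x, ‖x‖ = 1 → 0 < F.U (s, x) ∧ F.U (s, x) < 1) {B H : Set E}
    (hB : MeasurableSet B) (hH : MeasurableSet H) {ω ρ : ℝ}
    (hω : ∫ x, |F.U (0, x) - B.indicator 1 x| ∂(sph E) ≤ ω)
    (hρ : ∫ x, |F.U (τ, x) - H.indicator 1 x| ∂(sph E) ≤ ρ) :
    (sph E).real (B ∆ H) ≤ 3 * (ω + 2 * ρ) := by
  have : Nontrivial E := Module.nontrivial_of_finrank_pos (R := ℝ) (by omega)
  have cU : ∀ s, ContinuousOn (fun x => F.U (s, x)) {x : E | ‖x‖ = 1} := fun s =>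
    cont_slice fun x _ => (F.isHeat.c2 _).continuousAt
  have iU := fun s => integrable_of_continuousOn (cU s)
  have i1 : Integrable (fun x => |F.U (0, x) - B.indicator 1 x|) (sph E) :=
    ((iU 0).sub (integrable_ind hB)).abs
  have i2 : Integrable (fun x => |F.U (τ, x) - H.indicator 1 x|) (sph E) :=
    ((iU τ).sub (integrable_ind hH)).abs
  have i3 : Integrable (fun x => (F.U (0, x) - F.U (τ, x)) ^ 2) (sph E) :=
    integrable_of_continuousOn (((cU 0).fun_sub (cU τ)).fun_pow 2)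
  have h1 := F.l2_le hn (fun x hx => ⟨(h01 0 le_rfl x hx).1.le, (h01 0 le_rfl x hx).2.le⟩) hτ
  have h2 : ∫ x, F.U (τ, x) * (1 - F.U (τ, x)) ∂(sph E) ≤ ρ := by
    refine le_trans (integral_mono_ae (integrable_of_continuousOn
      ((cU τ).fun_mul (continuousOn_const.fun_sub (cU τ)))) i2 ?_) hρ
    filter_upwards [ae_norm] with x hx
    obtain ⟨h3, h4⟩ := h01 τ hτ x hx
    by_cases h : x ∈ H
    · rw [indicator_of_mem h, Pi.one_apply, abs_of_nonpos (by linarith)]
      nlinarith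
    · rw [indicator_of_notMem h, abs_of_nonneg (by linarith)]
      nlinarith
  rw [← integral_indicator_one (hB.symmDiff hH)]
  calc _ ≤ ∫ x, 3 * (|F.U (0, x) - B.indicator 1 x| + (F.U (0, x) - F.U (τ, x)) ^ 2 +
        |F.U (τ, x) - H.indicator 1 x|) ∂(sph E) := by
        refine integral_mono_ae (integrable_ind (hB.symmDiff hH))
          (((i1.add i3).add i2).const_mul _) ?_
        filter_upwards [ae_norm] with x hx
        obtain ⟨h3, h4⟩ := h01 τ hτ x hx
        obtain ⟨h5, h6⟩ := h01 0 le_rfl x hx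
        by_cases h : x ∈ B ∆ H
        · rw [indicator_of_mem h, Pi.one_apply]
          rcases h with ⟨h7, h8⟩ | ⟨h7, h8⟩
          · rw [indicator_of_mem h7, indicator_of_notMem h8, Pi.one_apply,
              abs_of_nonpos (by linarith), abs_of_nonneg (by linarith)]
            nlinarith [sq_nonneg (F.U (0, x) - F.U (τ, x) - 1 / 2)]
          · rw [indicator_of_mem h7, indicator_of_notMem h8, Pi.one_apply,
              abs_of_nonneg (by linarith), abs_of_nonpos (by linarith)]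
            nlinarith [sq_nonneg (F.U (0, x) - F.U (τ, x) + 1 / 2)]
        · rw [indicator_of_notMem h]
          positivity
    _ ≤ _ := by
        rw [integral_const_mul, integral_add (by exact i1.add i3) i2, integral_add i1 i3]
        linarith

theorem cap_symmDiff (e : E) (h h' : ℝ) : (sph E).real (cap e h ∆ cap e h') =
    |(sph E).real (cap e h) - (sph E).real (cap e h')| := by
  wlog hh : h ≤ h' generalizing h h'
  · rw [symmDiff_comm, abs_sub_comm]
    exact this h' h (le_of_not_ge hh)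
  have hs : cap e h' ⊆ cap e h := fun x hx => hh.trans hx
  rw [symmDiff_of_ge hs, measureReal_sdiff hs (measurableSet_cap _ _),
    abs_of_nonneg (sub_nonneg.2 (measureReal_mono hs))]

/-- one set of the configuration is close to a half-space -/
theorem one_set (hn : 2 ≤ finrank ℝ E) (F : Flow E) {τ : ℝ} (hτ : 0 ≤ τ)
    (h01 : ∀ s, 0 ≤ s → ∀ x, ‖x‖ = 1 → 0 < F.U (s, x) ∧ F.U (s, x) < 1) {B : Set E}
    (hB : MeasurableSet B) {ω c s K r : ℝ} (hs : 0 < s) (hK : 0 < K) (hr : 0 < r)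
    (hω : ∫ x, |F.U (0, x) - B.indicator 1 x| ∂(sph E) ≤ ω) {e : E} (he : ‖e‖ = 1)
    (hc : ∀ a : ℝ, |(sph E).real (cap e (a / √(finrank ℝ E))) - Ph (-a)| ≤ c)
    (h1 : ∫ x, ‖tg (fun q => Ps (F.U q)) (τ, x) - r • e‖ ^ 2 ∂(sph E) ≤ K / 4 * r ^ 2)
    (h2 : 4 ≤ K * finrank ℝ E) (h3 : finrank ℝ E ≤ K * r ^ 2) :
    ∃ h : ℝ, (sph E).real (B ∆ cap e h) ≤ 3 * (ω + 2 * (s + 2 * c + 16 * K / s ^ 2)) := by
  have : Nontrivial E := Module.nontrivial_of_finrank_pos (R := ℝ) (by omega)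
  have hn' : (0 : ℝ) < finrank ℝ E := by exact_mod_cast (by omega : 0 < finrank ℝ E)
  have hq : 0 < √(finrank ℝ E : ℝ) := Real.sqrt_pos.2 hn'
  have hq2 : √(finrank ℝ E : ℝ) ^ 2 = finrank ℝ E := Real.sq_sqrt hn'.le
  have hu : ∀ x, ‖x‖ = 1 → ContDiffAt ℝ 1 (fun q => Ps (F.U q)) (τ, x) := fun x hx =>
    (contDiffAt_Ps 1 (h01 τ hτ x hx).1 (h01 τ hτ x hx).2).comp (τ, x)
      ((F.isHeat.c2 _).of_le (by norm_num))
  obtain ⟨b, hb⟩ := near_affine hn hu (r • e) h1
  set σ := r / √(finrank ℝ E : ℝ) with hσ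
  have hσ0 : 0 < σ := div_pos hr hq
  have hσ2 : σ ^ 2 = r ^ 2 / finrank ℝ E := by rw [hσ, div_pow, hq2]
  have e1 : ∀ x : E, b + ⟪r • e, x⟫ = σ * (b / σ + √(finrank ℝ E) * ⟪e, x⟫) := by
    intro x
    rw [real_inner_smul_left, mul_add, mul_div_cancel₀ _ hσ0.ne', ← mul_assoc, hσ,
      div_mul_cancel₀ _ hq.ne']
  simp only [e1] at hb
  have hb' : ∫ x, (Ps (F.U (τ, x)) - σ * (b / σ + √(finrank ℝ E) * ⟪e, x⟫)) ^ 2 ∂(sph E) ≤
      2 * K * σ ^ 2 := by
    refine hb.trans ?_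
    rw [norm_smul, he, mul_one, Real.norm_eq_abs, sq_abs, hσ2, ← mul_div_assoc]
    gcongr
    have : 4 * r ^ 2 / finrank ℝ E ≤ K * r ^ 2 := by
      rw [div_le_iff₀ hn']
      nlinarith [sq_nonneg r]
    linarith
  have h4 := near_cap hn (cont_slice fun x hx => (hu x hx).continuousAt) hσ0 hs hc hb'
  refine ⟨-(b / σ) / √(finrank ℝ E), back hn F hτ h01 hB (measurableSet_cap _ _) hω ?_⟩
  have e2 : ∫ x, |F.U (τ, x) - (cap e (-(b / σ) / √(finrank ℝ E))).indicator 1 x| ∂(sph E) =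
      ∫ x, |Ph (Ps (F.U (τ, x))) - (cap e (-(b / σ) / √(finrank ℝ E))).indicator 1 x|
        ∂(sph E) := by
    refine integral_congr_ae ?_
    filter_upwards [ae_norm] with x hx
    rw [Ph_Ps (h01 τ hτ x hx).1 (h01 τ hτ x hx).2]
  rw [e2]
  refine h4.trans ?_
  have h5 : 4 / (σ * s) ^ 2 * (2 * K * σ ^ 2) = 8 * K / s ^ 2 := by
    field_simp
    norm_num
  have h6 : 8 / (σ * s) ^ 2 ≤ 8 * K / s ^ 2 := by
    have : 1 ≤ K * σ ^ 2 := by
      rw [hσ2, ← mul_div_assoc, le_div_iff₀ hn']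
      linarith
    rw [div_le_div_iff₀ (by positivity) (by positivity)]
    nlinarith [sq_nonneg s]
  have h7 : 16 * K / s ^ 2 = 8 * K / s ^ 2 + 8 * K / s ^ 2 := by ring
  linarith

end Stb

/-- stability of the Borell type inequality (paper, section 6) -/
theorem stab (t : ℕ) (ht : 3 ≤ t) (R ε : ℝ) (hε : 0 < ε) : ∃ γ > 0, ∃ ε' > 0, ∃ k₀ : ℕ,
    ∀ (E : Type) [NormedAddCommGroup E] [InnerProductSpace ℝ E] [CompleteSpace E]
    [FiniteDimensional ℝ E] [MeasurableSpace E] [BorelSpace E], k₀ ≤ finrank ℝ E →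
    ∀ z : Fin t → E, Near t ε' z → ∀ B : Fin t → Set E, (∀ a, MeasurableSet (B a)) →
    OrbFree z B → ∀ θ : Fin t → ℝ, (∀ a, |θ a| ≤ R) → -γ ≤ ∑ a, θ a →
    (∀ a, Ph (θ a) ≤ (sph E).real (B a)) →
      ∃ e : E, ‖e‖ = 1 ∧
        ∀ a, (sph E).real (B a ∆ cap e (-θ a / √(finrank ℝ E))) ≤ ε := by
  classical
  have ht3 : (3 : ℝ) ≤ t := by exact_mod_cast ht
  have ht0 : (0 : ℝ) < t := by linarith
  set s := ε / 96 with hs
  have hs0 : 0 < s := by positivity
  set K := ε * s ^ 2 / 768 with hK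
  have hK0 : 0 < K := by positivity
  set κ := min 1 (K / 4) with hκ
  have hκ0 : 0 < κ := lt_min one_pos (by positivity)
  obtain ⟨γ, hγ, ε₁, hε₁, k₁, H₁⟩ := good_time t ht R (κ / (160 * t)) √(4 * t / K) (ε / 24)
    (by positivity) (by positivity)
  obtain ⟨ε₂, hε₂, k₂, H₂⟩ := multi t (by omega) (R + ε / 2) (ε / 4) (by positivity)
  obtain ⟨k₃, H₃⟩ := gap
  obtain ⟨k₄, H₄⟩ := cap_approx (ε / 200) (by positivity)
  have ht1 : (0 : ℝ) < 1 / ((t : ℝ) - 1) := one_div_pos.2 (by linarith)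
  refine ⟨min γ (ε / 4), by positivity, min (min ε₁ ε₂) (min 0.02 (1 / ((t : ℝ) - 1))),
    by positivity, k₁ + k₂ + k₃ + k₄ + ⌈4 / K⌉₊ + 2, ?_⟩
  intro E _ _ _ _ _ _ hE z hz B hB hf θ hθ hs1 hPh
  have hn : 2 ≤ finrank ℝ E := by omega
  have : Nontrivial E := Module.nontrivial_of_finrank_pos (R := ℝ) (by omega)
  have hn' : (0 : ℝ) < finrank ℝ E := by exact_mod_cast (by omega : 0 < finrank ℝ E)
  have hnK : 4 ≤ K * finrank ℝ E := by
    have h1 : (⌈4 / K⌉₊ : ℝ) ≤ finrank ℝ E := by exact_mod_cast (by omega)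
    have h2 := (Nat.le_ceil (4 / K)).trans h1
    rwa [div_le_iff₀' hK0] at h2
  have hz₁ : Near t ε₁ z :=
    ⟨hz.1, fun a b h => (hz.2 a b h).trans ((min_le_left _ _).trans (min_le_left _ _))⟩
  have hz₂ : Near t ε₂ z :=
    ⟨hz.1, fun a b h => (hz.2 a b h).trans ((min_le_left _ _).trans (min_le_right _ _))⟩
  have hg : ∀ a b, a ≠ b → Stb.Gap (z a) (z b) := by
    intro a b h
    have h1 := abs_le.1 ((hz.2 a b h).trans ((min_le_right _ _).trans (min_le_left _ _)))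
    have h2 := abs_le.1 ((hz.2 a b h).trans ((min_le_right _ _).trans (min_le_right _ _)))
    have h3 : 1 / ((t : ℝ) - 1) ≤ 1 / 2 := one_div_le_one_div_of_le two_pos (by linarith)
    exact H₃ E (by omega) _ _ (hz.1 a) (hz.1 b) (by linarith [h1.1]) (by linarith [h2.2])
  obtain ⟨F, τ, hτ, h01, hω, hL, hD⟩ := H₁ E (by omega) z hz₁ B hB hf θ hθ
    ((neg_le_neg (min_le_left _ _)).trans hs1) hPh
  set T : Fin t → E → E := fun a x => tg (fun q => Ps ((F a).U q)) (τ, x) with hT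
  have cT : ∀ a, ContinuousOn (T a) {w : E | ‖w‖ = 1} := fun a =>
    Stb.cont_slice fun x hx => continuousAt_tg
      ((contDiffAt_Ps 1 (h01 a τ hτ.le x hx).1 (h01 a τ hτ.le x hx).2).comp (τ, x)
        (((F a).isHeat.c2 _).of_le (by norm_num)))
  obtain ⟨m, hm⟩ := Stb.near_const (by omega) hz.1 hg cT hD
  set En := ∑ a, ∫ x, ‖T a x‖ ^ 2 ∂(sph E) with hEn
  change _ ≤ En at hL
  rw [Real.sq_sqrt (by positivity)] at hL
  have hEn0 : 0 ≤ En := le_trans (by positivity) hL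
  have hm' : ∀ a, ∫ w, ‖T a w - m‖ ^ 2 ∂(sph E) ≤ κ * En / (4 * t) := fun a =>
    (hm a).trans (le_of_eq (by field_simp; ring))
  have h1 : En ≤ 4 * t * ‖m‖ ^ 2 := by
    have h2 : ∀ a, ∫ x, ‖T a x‖ ^ 2 ∂(sph E) ≤ 2 * (κ * En / (4 * t)) + 2 * ‖m‖ ^ 2 := by
      intro a
      have h3 := Stb.integral_shift (cT a) m 0
      simp only [sub_zero] at h3
      linarith [hm' a]
    have h3 : En ≤ t * (2 * (κ * En / (4 * t)) + 2 * ‖m‖ ^ 2) :=
      (Finset.sum_le_sum fun a _ => h2 a).trans (le_of_eq (by simp [mul_add]))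
    have h4 : t * (2 * (κ * En / (4 * t)) + 2 * ‖m‖ ^ 2) = κ * En / 2 + 2 * t * ‖m‖ ^ 2 := by
      field_simp
      ring
    have h5 : κ * En ≤ 1 * En := mul_le_mul_of_nonneg_right (min_le_left _ _) hEn0
    linarith
  have h2 : finrank ℝ E ≤ K * ‖m‖ ^ 2 := by
    have h3 := hL.trans h1
    rw [← mul_div_assoc, div_le_iff₀ hK0] at h3
    nlinarith
  have hm0 : 0 < ‖m‖ := by
    rcases (norm_nonneg m).eq_or_lt with h | h
    · rw [← h] at h2
      linarith
    · exact h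
  have he : ‖(‖m‖⁻¹ • m : E)‖ = 1 := by
    rw [norm_smul, norm_inv, norm_norm, inv_mul_cancel₀ hm0.ne']
  refine ⟨‖m‖⁻¹ • m, he, fun a => ?_⟩
  have hc := H₄ E (by omega) _ he
  obtain ⟨h, hh⟩ := Stb.one_set hn (F a) hτ.le (h01 a) (hB a) hs0 hK0 hm0 (hω a) he hc
    (by
      rw [smul_inv_smul₀ hm0.ne']
      refine (hm' a).trans ?_
      rw [div_le_iff₀ (by positivity)]
      calc κ * En ≤ K / 4 * (4 * t * ‖m‖ ^ 2) :=
            mul_le_mul (min_le_right _ _) h1 hEn0 (by positivity)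
        _ = _ := by ring) hnK h2
  have h3 : (sph E).real (B a) ≤ Ph (θ a) + ε / 4 := by
    obtain ⟨b, hb⟩ := H₂ E (by omega) z hz₂ B hB hf (fun b => θ b + if b = a then ε / 2 else 0)
      (fun b => (abs_add_le _ _).trans (add_le_add (hθ b) (by
        split_ifs
        · exact (abs_of_pos (by positivity)).le
        · rw [abs_zero]
          positivity)))
      (by
        rw [Finset.sum_add_distrib, Finset.sum_ite_eq' Finset.univ a, if_pos (Finset.mem_univ a)]
        linarith [min_le_right γ (ε / 4)])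
    by_cases hab : b = a
    · subst hab
      simp only [if_true] at hb
      linarith [Ph_sub_le (a := θ b) (b := θ b + ε / 2) (by linarith)]
    · simp only [if_neg hab, add_zero] at hb
      exact absurd (hPh b) (not_le.2 hb)
  have h4 := abs_le.1 (hc (-θ a))
  rw [neg_neg] at h4
  have h5 := abs_le.1 (abs_measureReal_sub_le_measureReal_symmDiff (μ := sph E)
    (hB a).nullMeasurableSet (measurableSet_cap (‖m‖⁻¹ • m) h).nullMeasurableSet)
  have h6 : 16 * K / s ^ 2 = ε / 48 := by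
    rw [hK]
    field_simp
    norm_num
  rw [h6] at hh
  have h7 := hPh a
  refine (measureReal_symmDiff_le (t := cap (‖m‖⁻¹ • m) h) _).trans ?_
  rw [Stb.cap_symmDiff]
  have h8 : |(sph E).real (cap (‖m‖⁻¹ • m) h) -
      (sph E).real (cap (‖m‖⁻¹ • m) (-θ a / √(finrank ℝ E)))| ≤
      (sph E).real (B a ∆ cap (‖m‖⁻¹ • m) h) + ε / 4 + ε / 200 :=
    abs_le.2 ⟨by linarith [h4.2, h5.2], by linarith [h4.1, h5.1]⟩
  linarith

end Pool.Agent.BL
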