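import Pool.Agent.P.MP_edb112_gt.Stab
import Pool.Agent.P.MP_edb112_gt.BLCore

set_option autoImplicit false

open MeasureTheory Set Module Filter
open scoped RealInnerProductSpace symmDiff Topology

noncomputable section

namespace Pool.Agent.BL

theorem SA.ev_lt (d M : ℝ) {b : ℝ} (hb : 0 < b) : ∀ᶠ n : ℕ in atTop, M * (1 / (n - d)) < b := by
  have h : Tendsto (fun n : ℕ => (n : ℝ) - d) atTop atTop :=
    tendsto_atTop_add_const_right _ (-d) tendsto_natCast_atTop_atTop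
  have h2 := (h.const_div_atTop 1).const_mul M
  rw [mul_zero] at h2
  exact h2.eventually (gt_mem_nhds hb)

open SA in
/-- a free set with the measure of the cap is close to a cap (paper, section 7) -/
theorem stepA (t : ℕ) (ht : 3 ≤ t) (c δ : ℝ) (hδ : 0 < δ) : ∃ k₀ : ℕ,
    ∀ (E : Type) [NormedAddCommGroup E] [InnerProductSpace ℝ E] [CompleteSpace E]
    [FiniteDimensional ℝ E] [MeasurableSpace E] [BorelSpace E], k₀ ≤ finrank ℝ E →
    ∀ h : ℝ, 0 ≤ h → h ≤ c / √(finrank ℝ E) → ∀ A : Set E, MeasurableSet A → Free t h A →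
    ∀ e : E, ‖e‖ = 1 → (sph E).real (cap e h) ≤ (sph E).real A →
      ∃ e' : E, ‖e'‖ = 1 ∧ (sph E).real (A ∆ cap e' h) ≤ δ := by
  have ht' : (3 : ℝ) ≤ t := by exact_mod_cast ht
  have ht1 : (0 : ℝ) < t - 1 := by linarith
  obtain ⟨C, hC, hcC⟩ : ∃ C : ℝ, 0 ≤ C ∧ c ≤ C := ⟨|c|, abs_nonneg c, le_abs_self c⟩
  obtain ⟨ζ, hζ, hζ1, hζ2, hζ3⟩ : ∃ ζ : ℝ, 0 < ζ ∧ ζ ≤ 1 ∧ ζ ≤ δ / 8 ∧
      (2 + C) * ζ ≤ δ / 4 * (δ / 4) := by
    refine ⟨min (min 1 (δ / 8)) (δ / 4 * (δ / 4) / (2 + C)), by positivity,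
      (min_le_left _ _).trans (min_le_left _ _), (min_le_left _ _).trans (min_le_right _ _), ?_⟩
    rw [← le_div_iff₀' (by positivity)]
    exact min_le_right _ _
  obtain ⟨γ', hγ', εs, hεs, ks, hst⟩ := stab t ht (C + 3) ((ζ / 8) ^ 2) (by positivity)
  obtain ⟨γ, hγ, hγ1, hγ2⟩ : ∃ γ : ℝ, 0 < γ ∧ γ ≤ 1 ∧ γ ≤ γ' :=
    ⟨min 1 γ', by positivity, min_le_left _ _, min_le_right _ _⟩
  have hp := ph_pos (C + 3)
  obtain ⟨ω, hω⟩ : ∃ ω, ω = ph (C + 3) * (γ / (t - 1)) := ⟨_, rfl⟩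
  have hω0 : 0 < ω := by rw [hω]; positivity
  obtain ⟨η, hη⟩ : ∃ η, η = ω * ζ ^ 2 / 48 := ⟨_, rfl⟩
  have hη0 : 0 < η := by rw [hη]; positivity
  obtain ⟨η₁, hη₁⟩ : ∃ η₁, η₁ = ph (C + 3) * η / 4 := ⟨_, rfl⟩
  have hη₁0 : 0 < η₁ := by rw [hη₁]; positivity
  obtain ⟨ε, hε⟩ : ∃ ε, ε = η₁ / (2 * (C + 2)) := ⟨_, rfl⟩
  have hε0 : 0 < ε := by rw [hε]; positivity
  have hε1 : ε ≤ η₁ / 4 := by
    rw [hε]
    gcongr
    linarith
  obtain ⟨εm, hεm, km, hmu⟩ := multi t (by omega) (C + 3) η hη0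
  obtain ⟨ka, hka⟩ := exists_apx (min ε ζ) (by positivity)
  have mono : ∀ (W : Type) [NormedAddCommGroup W] [InnerProductSpace ℝ W] [CompleteSpace W]
      [FiniteDimensional ℝ W] [MeasurableSpace W] [BorelSpace W], ka ≤ finrank ℝ W →
      Apx W ε ∧ Apx W ζ := fun W _ _ _ _ _ _ hW =>
    ⟨fun e he s => (hka W hW e he s).imp (·.trans (min_le_left _ _)) (·.trans (min_le_left _ _)),
      fun e he s =>
        (hka W hW e he s).imp (·.trans (min_le_right _ _)) (·.trans (min_le_right _ _))⟩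
  have e1 : ∀ᶠ d : ℕ in atTop, 2 / √d < ζ ^ 2 / 32 :=
    ((Real.tendsto_sqrt_atTop.comp tendsto_natCast_atTop_atTop).const_div_atTop 2).eventually
      (gt_mem_nhds (by positivity))
  obtain ⟨d, ⟨d1, d2⟩, ⟨d3, d4⟩, d5, d6⟩ := (((ev_lt 0 ((1 + 1 / ω) / η₁ ^ 2)
    (b := ζ ^ 2 / 32) (by positivity)).and e1).and (((eventually_ge_atTop ks).and
    (eventually_ge_atTop km)).and ((eventually_ge_atTop ka).and
    (eventually_ge_atTop (t + 2))))).exists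
  obtain ⟨k₀, hk₀⟩ := eventually_atTop.1 ((eventually_ge_atTop (d + 2 + ka)).and
    (((ev_lt d (20 * C ^ 2) (lt_min hεs hεm)).and (ev_lt d (16 * t * C ^ 2) one_pos)).and
    (((ev_lt d ((1 + 1 / ω) / η₁ ^ 2 + 2 / η₁ ^ 2 / ω + d) (b := ζ ^ 2 / 16) (by positivity)).and
    (ev_lt d (2 * C ^ 3) hη0)).and ((ev_lt d ((2 * C + 3) ^ 2) (b := 1 / 4) (by norm_num)).and
    (ev_lt d ((2 * C + 3) ^ 2 + 2 * d) (b := η / (2 * C + 1)) (by positivity))))))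
  refine ⟨k₀, fun E _ _ _ _ _ _ hk h h0 hc A hA hF e he hcap => ?_⟩
  obtain ⟨n1, ⟨c1, c2⟩, ⟨c3, c4⟩, c5, c6⟩ := hk₀ _ hk
  have : Nontrivial E := Module.nontrivial_of_finrank_pos (R := ℝ) (by omega)
  have hs : 0 < √(finrank ℝ E : ℝ) := Real.sqrt_pos.2 (by exact_mod_cast finrank_pos)
  obtain ⟨a, rfl⟩ : ∃ a, h = a / √(finrank ℝ E : ℝ) := ⟨_, (mul_div_cancel_right₀ h hs.ne').symm⟩
  have ha : 0 ≤ a := by simpa [hs.ne'] using mul_nonneg h0 hs.le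
  have haC : a ≤ C := ((div_le_div_iff_of_pos_right hs).1 hc).trans hcC
  obtain ⟨V, hV⟩ : ∃ V : Submodule ℝ E, finrank ℝ V = d := by
    obtain ⟨v, hv⟩ := exists_linearIndependent_of_le_finrank (R := ℝ) (M := E) (n := d) (by omega)
    exact ⟨_, (finrank_span_eq_card hv).trans (Fintype.card_fin d)⟩
  subst hV
  have : CompleteSpace V := FiniteDimensional.complete ℝ V
  obtain ⟨K, hKA, hK, hKm⟩ := (hA.inter isCompact_unit.measurableSet).exists_isCompact_sdiff_lt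
    (measure_ne_top (sph E) _) (ENNReal.ofReal_pos.2 (lt_min hε0 hζ)).ne'
  rw [measure_congr ((inter_ae_eq_left_of_ae_eq_univ (s := A) (t := {x : E | ‖x‖ = 1})
    (ae_eq_univ.2 ae_norm)).diff (ae_eq_refl K))] at hKm
  have hAK : (sph E).real (A \ K) ≤ min ε ζ :=
    ENNReal.toReal_le_of_le_ofReal (by positivity) hKm.le
  obtain ⟨aE, aE'⟩ := mono E (by omega)
  have h1 := (measureReal_mono (μ := sph E) (subset_sdiff_union A K)).trans
    (measureReal_union_le _ _)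
  have h2 := (abs_le.1 (aE e he a).1).1
  obtain ⟨r1, r2⟩ := core ht V hζ hζ1 hγ hγ1 hω hη hη₁ hε d6 (by omega) rfl
    (fun W _ hW => (mono W (by omega)).1)
    (fun z hz => hmu V d4 z ⟨hz.1, fun a b hab => (hz.2 a b hab).trans (min_le_right _ _)⟩)
    (fun z hz B hB hO θ h1 h2 => hst V d3 z
      ⟨hz.1, fun a b hab => (hz.2 a b hab).trans (min_le_left _ _)⟩ B hB hO θ h1 (by linarith))
    (by simpa only [sub_zero] using d1.le) d2.le c1.le c2.le c3.le c4.le c5.le c6 ha haC hK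
    (fun z hz => (hKA hz).2) (fun x hx => hF x fun b => (hKA (hx b)).1)
    (by linarith [min_le_left ε ζ])
  obtain ⟨e', he', h3⟩ := bath aE' ha (show 0 < δ / 4 by positivity) hK.measurableSet r1 r2
  refine ⟨e', he', ?_⟩
  have h4 : A ∆ cap e' (a / √(finrank ℝ E)) ⊆ A \ K ∪ K ∆ cap e' (a / √(finrank ℝ E)) := by
    rintro x (⟨h5, h6⟩ | ⟨h5, h6⟩)
    · by_cases h7 : x ∈ K
      · exact Or.inr (Or.inl ⟨h7, h6⟩)
      · exact Or.inl ⟨h5, h7⟩
    · exact Or.inr (Or.inr ⟨h5, fun h7 => h6 (hKA h7).1⟩)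
  have h5 := (measureReal_mono (μ := sph E) h4).trans (measureReal_union_le _ _)
  have h6 : (2 + a) * ζ / (δ / 4) ≤ δ / 4 := by
    rw [div_le_iff₀ (by positivity)]
    exact (mul_le_mul_of_nonneg_right (by linarith) hζ.le).trans hζ3
  linarith [min_le_right ε ζ]

end Pool.Agent.BL
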