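import Pool.Agent.P.MP_edb112_gt.Gauss

/-! One-dimensional bookkeeping for step B. -/

set_option autoImplicit false

open MeasureTheory Set Filter Real

noncomputable section

namespace Pool.Agent.BL.SB

theorem int_affine {g : ℝ → ℝ} (hg : Integrable g) {a : ℝ} (ha : a ≠ 0) (b : ℝ) :
    Integrable (fun x => g (a * x + b)) ∧ ∫ x, g (a * x + b) = |a|⁻¹ * ∫ x, g x := by
  refine ⟨(hg.comp_add_right b).comp_mul_left' ha, ?_⟩
  rw [Measure.integral_comp_mul_left (fun y => g (y + b)) a, integral_add_right_eq_self, abs_inv,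
    smul_eq_mul]

theorem setInt_le {f G : ℝ → ℝ} {S : Set ℝ} (hS : MeasurableSet S) (hf : IntegrableOn f S)
    (hG : Integrable G) (h0 : ∀ x, 0 ≤ G x) (h : ∀ x ∈ S, f x ≤ G x) :
    ∫ x in S, f x ≤ ∫ x, G x :=
  (setIntegral_mono_on hf hG.integrableOn hS h).trans
    (setIntegral_le_integral hG (Eventually.of_forall h0))

theorem intOn_bdd {f : ℝ → ℝ} (hf : Measurable f) (h1 : ∀ x, |f x| ≤ 1) {S : Set ℝ}
    (hS : volume S ≠ ⊤) : IntegrableOn f S :=
  Measure.integrableOn_of_bounded hS hf.aestronglyMeasurable (Eventually.of_forall h1)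

theorem shift_int (f : ℝ → ℝ) (p : ℝ) (S : Set ℝ) :
    ∫ x in (fun x => p + x) ⁻¹' S, f (p + x) = ∫ x in S, f x :=
  (measurePreserving_add_left volume p).setIntegral_preimage_emb
    (measurableEmbedding_addLeft p) f S

/-- a profile `m` with values in `[0,1]` and a bounded integrable weight `w` -/
structure Prof (m w : ℝ → ℝ) : Prop where
  meas : Measurable m
  m0 : ∀ x, 0 ≤ m x
  m1 : ∀ x, m x ≤ 1
  w0 : ∀ x, 0 ≤ w x
  w1 : ∀ x, w x ≤ 1
  int : Integrable w

variable {m w : ℝ → ℝ}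

theorem Prof.compl (P : Prof m w) : Prof (fun x => 1 - m x) w :=
  ⟨measurable_const.sub P.meas, fun x => sub_nonneg.2 (P.m1 x), fun x => by linarith [P.m0 x],
    P.w0, P.w1, P.int⟩

theorem Prof.shift (P : Prof m w) (p : ℝ) : Prof (fun x => m (p + x)) fun x => w (p + x) :=
  ⟨P.meas.comp (measurable_const_add p), fun _ => P.m0 _, fun _ => P.m1 _, fun _ => P.w0 _,
    fun _ => P.w1 _, P.int.comp_add_left p⟩

theorem Prof.abs_le (P : Prof m w) (x : ℝ) : |m x| ≤ 1 := by
  rw [abs_of_nonneg (P.m0 x)]; exact P.m1 x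

theorem Prof.intg (P : Prof m w) : Integrable fun x => w x * m x :=
  P.int.mul_bdd P.meas.aestronglyMeasurable (Eventually.of_forall P.abs_le)

theorem Prof.nonneg (P : Prof m w) (x : ℝ) : 0 ≤ w x * m x := mul_nonneg (P.w0 x) (P.m0 x)

theorem Prof.mul_le (P : Prof m w) (x : ℝ) : w x * m x ≤ m x :=
  mul_le_of_le_one_left (P.m0 x) (P.w1 x)

theorem Prof.intOn (P : Prof m w) (a b : ℝ) : IntegrableOn m (Icc a b) :=
  intOn_bdd P.meas P.abs_le (by simp)

theorem Prof.low_intOn (P : Prof m w) (γ : ℝ) {S : Set ℝ} (hS : volume S ≠ ⊤) :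
    IntegrableOn (fun x => if m x ≤ γ then m x else 0) S := by
  refine intOn_bdd (Measurable.ite (measurableSet_le P.meas measurable_const) P.meas
    measurable_const) (fun x => ?_) hS
  split_ifs
  · exact P.abs_le x
  · simp

/-- the partner height -/
def Tm (t : ℕ) (H x : ℝ) : ℝ := max (H + (H - x) / (2 * (t - 1))) (-x / (t - 1))

section Tails

variable {t : ℕ} {H d cL : ℝ}

theorem Tm_mem (ht : 3 ≤ t) (hH : 0 ≤ H) (hd : 2 * H ≤ d) {x : ℝ} (hx : x ∈ Ico (-d) H) :
    H + (H - x) / (2 * t) ≤ Tm t H x ∧ Tm t H x + (H - x) / 16 ≤ d := by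
  have h3 : (3 : ℝ) ≤ t := by exact_mod_cast ht
  have h1 : 0 < H - x := sub_pos.2 hx.2
  have h2 := hx.1
  refine ⟨le_max_of_le_left ?_, ?_⟩
  · gcongr
    · linarith
    · linarith
  · have e1 : (H - x) / (2 * (t - 1)) ≤ (H - x) / 4 := by gcongr; linarith
    have e2 : -x / (t - 1) ≤ d / 2 := by
      rw [div_le_iff₀ (by linarith)]
      nlinarith
    rcases max_cases (H + (H - x) / (2 * (t - 1))) (-x / (t - 1)) with h | h <;>
      rw [Tm, h.1] <;> linarith

theorem Prof.gap_le (P : Prof m w) (hc : 0 < cL) (hw : ∀ y ∈ Icc H d, cL ≤ w y) :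
    ∫ x, (Icc H d).indicator (fun x => 1 - m x) x ≤ (∫ x in Ici H, w x * (1 - m x)) / cL := by
  rw [integral_indicator measurableSet_Icc, le_div_iff₀ hc, ← integral_mul_const]
  calc _ ≤ ∫ x in Icc H d, w x * (1 - m x) :=
        setIntegral_mono_on ((P.compl.intOn H d).mul_const cL) P.compl.intg.integrableOn
          measurableSet_Icc fun x hx => by
            rw [mul_comm]; exact mul_le_mul_of_nonneg_right (hw x hx) (P.compl.m0 x)
    _ ≤ _ := setIntegral_mono_set P.compl.intg.integrableOn (Eventually.of_forall P.compl.nonneg)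
        Icc_subset_Ici_self.eventuallyLE

theorem Prof.low_le (P : Prof m w) (ht : 3 ≤ t) (hH : 0 ≤ H) (hd : 2 * H ≤ d) (hc : 0 < cL)
    (hw : ∀ y ∈ Icc H d, cL ≤ w y) {γ ε : ℝ} (hε : 0 ≤ ε)
    (h : ∀ x ∈ Ico (-d) H, m x ≤ γ → m x ≤ ε * (1 - m (Tm t H x))) :
    ∫ x in Ico (-d) H, (if m x ≤ γ then m x else 0) ≤
      ε * (3 * t) * ((∫ x in Ici H, w x * (1 - m x)) / cL) := by
  have h3 : (3 : ℝ) ≤ t := by exact_mod_cast ht
  set g := (Icc H d).indicator fun x => 1 - m x with hg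
  have hgi : Integrable g := (P.compl.intOn H d).integrable_indicator measurableSet_Icc
  have hg0 : ∀ x, 0 ≤ g x := fun x => indicator_nonneg (fun y _ => P.compl.m0 y) x
  have ht1 : (0 : ℝ) < t - 1 := by linarith
  obtain ⟨i1, e1⟩ := int_affine hgi (a := -(2 * ((t : ℝ) - 1))⁻¹) (by simp [ht1.ne'])
    (H + H / (2 * (t - 1)))
  obtain ⟨i2, e2⟩ := int_affine hgi (a := -((t : ℝ) - 1)⁻¹) (by simp [ht1.ne']) 0
  rw [abs_neg, abs_inv, inv_inv, abs_of_pos (by positivity)] at e1 e2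
  have hI := P.gap_le hc hw
  have hI0 : 0 ≤ ∫ x, g x := integral_nonneg hg0
  refine (setInt_le measurableSet_Ico (P.low_intOn γ (by simp)) ((i1.add i2).const_mul ε)
    (fun x => mul_nonneg hε (add_nonneg (hg0 _) (hg0 _))) fun x hx => ?_).trans ?_
  · have hT := Tm_mem ht hH hd hx
    have hx2 : 0 < H - x := sub_pos.2 hx.2
    have hT' : Tm t H x ∈ Icc H d :=
      ⟨by linarith [hT.1, div_pos hx2 (by linarith : (0 : ℝ) < 2 * t)], by linarith [hT.2]⟩
    have a1 : -(2 * ((t : ℝ) - 1))⁻¹ * x + (H + H / (2 * (t - 1))) =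
        H + (H - x) / (2 * (t - 1)) := by field_simp; ring
    have a2 : -((t : ℝ) - 1)⁻¹ * x + 0 = -x / (t - 1) := by field_simp; ring
    have a3 : 1 - m (Tm t H x) = g (Tm t H x) := by rw [hg, indicator_of_mem hT']
    have a4 : g (Tm t H x) ≤ g (H + (H - x) / (2 * (t - 1))) + g (-x / (t - 1)) := by
      rcases max_cases (H + (H - x) / (2 * (t - 1))) (-x / (t - 1)) with h | h <;>
        rw [Tm, h.1] <;> linarith [hg0 (H + (H - x) / (2 * (t - 1))), hg0 (-x / (t - 1))]
    simp only [Pi.add_apply, a1, a2]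
    split_ifs with hm
    · exact (h x hx hm).trans (by rw [a3]; gcongr)
    · exact mul_nonneg hε (add_nonneg (hg0 _) (hg0 _))
  · simp only [Pi.add_apply]
    rw [integral_const_mul, integral_add i1 i2, e1, e2, mul_assoc ε]
    refine mul_le_mul_of_nonneg_left ?_ hε
    nlinarith

theorem Prof.loc_le (P : Prof m w) (ht : 3 ≤ t) (hH : 0 ≤ H) (hd : 2 * H ≤ d) (hc : 0 < cL)
    (hw : ∀ y ∈ Icc H d, cL ≤ w y) {x : ℝ} (hx : x ∈ Ico (-d) H)
    (h : ∀ u ∈ Icc 0 ((H - x) / (8 * t ^ 2)), m x ≤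
      (1 - m (Tm t H x - (t - 2) * u)) + (t - 2) * (1 - m (Tm t H x + u))) :
    m x * (H - x) ≤ 8 * t ^ 3 * ((∫ x in Ici H, w x * (1 - m x)) / cL) := by
  have h3 : (3 : ℝ) ≤ t := by exact_mod_cast ht
  set g := (Icc H d).indicator fun x => 1 - m x with hg
  have hgi : Integrable g := (P.compl.intOn H d).integrable_indicator measurableSet_Icc
  have hg0 : ∀ x, 0 ≤ g x := fun x => indicator_nonneg (fun y _ => P.compl.m0 y) x
  have ht2 : (1 : ℝ) ≤ t - 2 := by linarith
  obtain ⟨i1, e1⟩ := int_affine hgi (a := -((t : ℝ) - 2)) (by linarith) (Tm t H x)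
  obtain ⟨i2, e2⟩ := int_affine hgi one_ne_zero (Tm t H x)
  rw [abs_neg, abs_of_pos (by linarith)] at e1
  rw [abs_one, inv_one, one_mul] at e2
  have hI := P.gap_le hc hw
  have hI0 : 0 ≤ ∫ x, g x := integral_nonneg hg0
  have hx2 : 0 < H - x := sub_pos.2 hx.2
  have hT := Tm_mem ht hH hd hx
  have h1 := setInt_le (f := fun _ => m x) (S := Icc 0 ((H - x) / (8 * t ^ 2))) measurableSet_Icc
    (integrableOn_const (by simp)) (i1.add (i2.const_mul (t - 2)))
    (fun u => add_nonneg (hg0 _) (mul_nonneg (by linarith) (hg0 _))) fun u hu => by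
      have b0 : t * u ≤ (H - x) / (8 * t) := by
        have := hu.2
        rw [le_div_iff₀ (by positivity)] at this ⊢
        nlinarith
      have b1 : (H - x) / (8 * t) ≤ (H - x) / (2 * t) := by gcongr; norm_num
      have b2 : (H - x) / (8 * t) ≤ (H - x) / 16 := by gcongr; linarith
      have b3 : u ≤ t * u := by nlinarith [hu.1]
      have b4 : 0 ≤ (t - 2) * u := mul_nonneg (by linarith) hu.1
      have b5 := hu.1
      have a1 : Tm t H x - (t - 2) * u ∈ Icc H d := ⟨by nlinarith [hT.1], by nlinarith [hT.2]⟩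
      have a2 : Tm t H x + u ∈ Icc H d := ⟨by nlinarith [hT.1], by nlinarith [hT.2]⟩
      have := h u hu
      simp only [Pi.add_apply]
      rw [show -((t : ℝ) - 2) * u + Tm t H x = Tm t H x - (t - 2) * u by ring,
        show 1 * u + Tm t H x = Tm t H x + u by ring, hg, indicator_of_mem a1, indicator_of_mem a2]
      exact this
  simp only [Pi.add_apply] at h1
  rw [integral_add i1 (i2.const_mul _), integral_const_mul, e1, e2, setIntegral_const,
    Real.volume_real_Icc_of_le (by positivity), sub_zero, smul_eq_mul, div_mul_eq_mul_div,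
    div_le_iff₀ (by positivity)] at h1
  have h2 : ((t : ℝ) - 2)⁻¹ ≤ 1 := inv_le_one_of_one_le₀ ht2
  have h4 : ((t : ℝ) - 2)⁻¹ * (∫ x, g x) + (t - 2) * ∫ x, g x ≤
      t * ((∫ x in Ici H, w x * (1 - m x)) / cL) := by nlinarith
  calc m x * (H - x) = (H - x) * m x := mul_comm _ _
    _ ≤ t * ((∫ x in Ici H, w x * (1 - m x)) / cL) * (8 * t ^ 2) := h1.trans (by gcongr)
    _ = _ := by ring

theorem Prof.far_le (P : Prof m w) (ht : 3 ≤ t) (hd : (t - 1) * H ≤ d) {l : ℝ} (hl : 0 ≤ l)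
    (h : ∀ x < -d, w x * m x ≤ l * (w (-x / (t - 1)) * (1 - m (-x / (t - 1))))) :
    ∫ x in Iio (-d), w x * m x ≤ l * t * ∫ x in Ici H, w x * (1 - m x) := by
  have h3 : (3 : ℝ) ≤ t := by exact_mod_cast ht
  set g := (Ici H).indicator fun x => w x * (1 - m x) with hg
  have hgi : Integrable g := P.compl.intg.indicator measurableSet_Ici
  have hg0 : ∀ x, 0 ≤ g x := fun x => indicator_nonneg (fun y _ => P.compl.nonneg y) x
  have ht1 : (0 : ℝ) < t - 1 := by linarith
  obtain ⟨i2, e2⟩ := int_affine hgi (a := -((t : ℝ) - 1)⁻¹) (by simp [ht1.ne']) 0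
  rw [abs_neg, abs_inv, inv_inv, abs_of_pos ht1] at e2
  refine (setInt_le measurableSet_Iio P.intg.integrableOn (i2.const_mul l)
    (fun x => mul_nonneg hl (hg0 _)) fun x hx => ?_).trans ?_
  · have a2 : -((t : ℝ) - 1)⁻¹ * x + 0 = -x / (t - 1) := by field_simp; ring
    have a1 : -x / (t - 1) ∈ Ici H := by
      rw [mem_Ici, le_div_iff₀ ht1]
      linarith [mem_Iio.1 hx]
    rw [a2, hg, indicator_of_mem a1]
    exact h x hx
  · rw [integral_const_mul, e2, mul_assoc, ← integral_indicator measurableSet_Ici]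
    refine mul_le_mul_of_nonneg_left ?_ hl
    have : 0 ≤ ∫ x, g x := integral_nonneg hg0
    nlinarith

theorem Prof.tail_le (P : Prof m w) {γ r : ℝ} (hr : r ≤ H)
    (h : ∀ x ∈ Ico (-d) r, m x ≤ γ) :
    ∫ x in Iio r, w x * m x ≤
      (∫ x in Iio (-d), w x * m x) + ∫ x in Ico (-d) H, if m x ≤ γ then m x else 0 := by
  have i1 := P.intg.indicator (measurableSet_Iio (a := -d))
  have i2 := (P.low_intOn γ (S := Ico (-d) H) (by simp)).integrable_indicator measurableSet_Ico
  rw [← integral_indicator (measurableSet_Iio (a := -d)), ← integral_indicator measurableSet_Ico,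
    ← integral_add i1 i2]
  have a1 : ∀ x, 0 ≤ (Iio (-d)).indicator (fun x => w x * m x) x :=
    fun x => indicator_nonneg (fun y _ => P.nonneg y) x
  have a2 : ∀ x, 0 ≤ (Ico (-d) H).indicator (fun x => if m x ≤ γ then m x else 0) x :=
    fun x => indicator_nonneg (fun y _ => by split_ifs <;> simp [P.m0 y]) x
  refine setInt_le measurableSet_Iio P.intg.integrableOn (i1.add i2)
    (fun x => add_nonneg (a1 x) (a2 x)) fun x hx => ?_
  rcases lt_or_ge x (-d) with h1 | h1
  · refine le_add_of_le_of_nonneg ?_ (a2 x)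
    rw [indicator_of_mem (mem_Iio.2 h1)]
  · refine le_add_of_nonneg_of_le (a1 x) ?_
    rw [indicator_of_mem (mem_Ico.2 ⟨h1, hx.trans_le hr⟩), if_pos (h x ⟨h1, hx⟩)]
    exact P.mul_le x

end Tails

theorem ind_nonneg {f : ℝ → ℝ} (h : ∀ x, 0 ≤ f x) (S : Set ℝ) (x : ℝ) : 0 ≤ S.indicator f x :=
  indicator_nonneg (fun y _ => h y) x

theorem int_ind_const {a b : ℝ} (h : a ≤ b) (c : ℝ) :
    Integrable ((Icc a b).indicator fun _ => c) ∧
      ∫ x, (Icc a b).indicator (fun _ => c) x = (b - a) * c := by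
  refine ⟨(integrableOn_const (by simp)).integrable_indicator measurableSet_Icc, ?_⟩
  rw [integral_indicator measurableSet_Icc, setIntegral_const, Real.volume_real_Icc_of_le h,
    smul_eq_mul]

/-- comparison of the weighted excess and deficit with the masses in the window `[-r, s]` -/
theorem Prof.window_in (P : Prof m w) {a f η e r s : ℝ} (ha : 0 ≤ a) (hae : a ≤ e * η)
    (has : a ≤ s) (hr : 0 ≤ r) (hf : 0 < f) (hη : 0 < η) (he : 0 ≤ e) (he1 : e ≤ 1 / 10)
    (hw : ∀ x ∈ Icc (-r) s, f * (1 - e) ≤ w x ∧ w x ≤ f * (1 + e))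
    (hsum : (∫ x in Iio a, w x * m x) + ∫ x in Ici a, w x * (1 - m x) = f * η)
    (hlt : ∫ x in Ici a, w x * (1 - m x) ≤ ∫ x in Iio a, w x * m x)
    (htail : ∫ x in Iio (-r), w x * m x ≤ e * (f * η)) :
    η / 4 ≤ ∫ x in Icc (-r) 0, m x ∧
    (∫ x in Icc (-r) 0, m x) + ∫ x in Icc 0 s, (1 - m x) ≤ 2 * η ∧
    -(6 * e * η) ≤ (∫ x in Icc (-r) 0, m x) - ∫ x in Icc 0 s, (1 - m x) ∧
    ∫ x in Ioi s, w x * (1 - m x) ≤
      f * ((∫ x in Icc (-r) 0, m x) - (∫ x in Icc 0 s, (1 - m x)) + 6 * e * η) := by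
  have he2 : 0 < 1 - e := by linarith
  have k1 : ∫ x in Iio a, w x * m x ≤ (∫ x in Iio (-r), w x * m x) +
      f * (1 + e) * (∫ x in Icc (-r) 0, m x) + (a - 0) * (f * (1 + e)) := by
    have i1 := P.intg.indicator (measurableSet_Iio (a := -r))
    have i2 := ((P.intOn (-r) 0).integrable_indicator measurableSet_Icc).const_mul (f * (1 + e))
    obtain ⟨i3, e3⟩ := int_ind_const ha (f * (1 + e))
    rw [← integral_indicator (measurableSet_Iio (a := -r)), ← integral_indicator measurableSet_Icc,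
      ← e3, ← integral_const_mul, ← integral_add' i1 i2, ← integral_add' (i1.add i2) i3]
    have a1 := ind_nonneg P.nonneg (Iio (-r))
    have a2 : ∀ x, 0 ≤ f * (1 + e) * (Icc (-r) 0).indicator m x :=
      fun x => mul_nonneg (by positivity) (ind_nonneg P.m0 _ x)
    have a3 := ind_nonneg (f := fun _ => f * (1 + e)) (fun _ => by positivity) (Icc 0 a)
    refine setInt_le measurableSet_Iio P.intg.integrableOn ((i1.add i2).add i3)
      (fun x => add_nonneg (add_nonneg (a1 x) (a2 x)) (a3 x)) fun x hx => ?_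
    have hx' : x < a := hx
    simp only [Pi.add_apply]
    rcases lt_or_ge x (-r) with h1 | h1
    · have := a2 x
      have := a3 x
      rw [indicator_of_mem (mem_Iio.2 h1)]
      linarith
    · have b1 := (hw x ⟨h1, by linarith⟩).2
      have b2 : w x * m x ≤ f * (1 + e) * m x := mul_le_mul_of_nonneg_right b1 (P.m0 x)
      have := a1 x
      rcases le_total x 0 with h2 | h2
      · have := a3 x
        rw [indicator_of_mem (mem_Icc.2 ⟨h1, h2⟩)]
        linarith
      · have := a2 x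
        rw [indicator_of_mem (mem_Icc.2 ⟨h2, hx'.le⟩)]
        nlinarith [P.m1 x, P.w0 x]
  have k2 : f * (1 - e) * ∫ x in Icc (-r) 0, m x ≤ ∫ x in Iio a, w x * m x := by
    rw [← integral_const_mul, ← integral_Iic_eq_integral_Iio]
    calc _ ≤ ∫ x in Icc (-r) 0, w x * m x :=
          setIntegral_mono_on ((P.intOn _ _).const_mul _) P.intg.integrableOn measurableSet_Icc
            fun x hx => mul_le_mul_of_nonneg_right (hw x ⟨hx.1, by linarith [hx.2]⟩).1 (P.m0 x)
      _ ≤ _ := setIntegral_mono_set P.intg.integrableOn (Eventually.of_forall P.nonneg)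
          (LE.le.eventuallyLE fun x hx => hx.2.trans ha)
  have k3 : f * (1 - e) * (∫ x in Icc 0 s, (1 - m x)) + ∫ x in Ioi s, w x * (1 - m x) ≤
      (∫ x in Ici a, w x * (1 - m x)) + (a - 0) * (f * (1 - e)) := by
    have i1 := ((P.compl.intOn 0 s).integrable_indicator measurableSet_Icc).const_mul (f * (1 - e))
    have i2 := P.compl.intg.indicator (measurableSet_Ioi (a := s))
    have i4 := P.compl.intg.indicator (measurableSet_Ici (a := a))
    obtain ⟨i3, e3⟩ := int_ind_const ha (f * (1 - e))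
    rw [← integral_indicator measurableSet_Ioi, ← integral_indicator measurableSet_Icc,
      ← integral_indicator measurableSet_Ici, ← e3, ← integral_const_mul, ← integral_add i1 i2,
      ← integral_add i4 i3]
    refine integral_mono (i1.add i2) (i4.add i3) fun x => ?_
    have c0 := P.compl.m0 x
    have c1 := P.compl.nonneg x
    have c2 : f * (1 - e) * (1 - m x) ≤ f * (1 - e) :=
      mul_le_of_le_one_right (by positivity) (P.compl.m1 x)
    have c4 := ind_nonneg P.compl.nonneg (Ici a) x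
    have c5 := ind_nonneg (f := fun _ => f * (1 - e)) (fun _ => by positivity) (Icc 0 a) x
    rcases lt_or_ge s x with d1 | d1
    · rw [indicator_of_notMem (fun h => d1.not_ge h.2), indicator_of_mem (mem_Ioi.2 d1),
        indicator_of_mem (mem_Ici.2 (has.trans d1.le))]
      linarith
    rw [indicator_of_notMem (s := Ioi s) (not_lt.2 d1)]
    rcases lt_or_ge x 0 with d2 | d2
    · rw [indicator_of_notMem (fun h => d2.not_ge h.1)]
      linarith
    rw [indicator_of_mem (mem_Icc.2 ⟨d2, d1⟩)]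
    rcases le_total x a with d3 | d3
    · rw [indicator_of_mem (mem_Icc.2 ⟨d2, d3⟩)]
      linarith
    · rw [indicator_of_mem (mem_Ici.2 d3)]
      nlinarith [(hw x ⟨by linarith, d1⟩).1]
  have k4 : 0 ≤ ∫ x in Ioi s, w x * (1 - m x) := integral_nonneg P.compl.nonneg
  have k5 : 0 ≤ ∫ x in Icc 0 s, (1 - m x) := integral_nonneg P.compl.m0
  have k6 : 0 ≤ ∫ x in Icc (-r) 0, m x := integral_nonneg P.m0
  generalize ∫ x in Ioi s, w x * (1 - m x) = T at *
  generalize ∫ x in Icc 0 s, (1 - m x) = Dn at *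
  generalize ∫ x in Icc (-r) 0, m x = En at *
  generalize ∫ x in Iio a, w x * m x = Ex at *
  generalize ∫ x in Ici a, w x * (1 - m x) = De at *
  have l1 : Ex ≤ f * (e * η + (1 + e) * (En + e * η)) := by
    nlinarith [mul_le_mul_of_nonneg_left hae (by positivity : 0 ≤ f * (1 + e))]
  have l3 : f * ((1 - e) * (Dn - e * η)) + T ≤ De := by
    nlinarith [mul_le_mul_of_nonneg_left hae (by positivity : 0 ≤ f * (1 - e))]
  have hee : 0 ≤ e * η := by positivity
  have hee1 : e * η ≤ η / 10 := by nlinarith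
  have hee2 : e * (e * η) ≤ e * η / 10 := by nlinarith
  have m2 : (1 - e) * (En + Dn - e * η) ≤ η := by
    refine le_of_mul_le_mul_left ?_ hf
    nlinarith
  have m3 : En + Dn ≤ 2 * η := by nlinarith
  have m4 : e * (En + Dn) ≤ 2 * (e * η) := by nlinarith
  have m5 : T ≤ f * (En - Dn + 6 * e * η) := by
    have : e * η + (1 + e) * (En + e * η) - (1 - e) * (Dn - e * η) ≤ En - Dn + 6 * e * η := by
      nlinarith
    nlinarith [mul_le_mul_of_nonneg_left this hf.le]
  refine ⟨?_, m3, ?_, m5⟩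
  · have : η / 2 ≤ e * η + (1 + e) * (En + e * η) := by
      refine le_of_mul_le_mul_left ?_ hf
      nlinarith
    nlinarith
  · have := nonneg_of_mul_nonneg_right (k4.trans m5) hf
    linarith

theorem exists_good {g : ℝ → ℝ} {W : Set ℝ} (hW : MeasurableSet W) (hg : IntegrableOn g W)
    (h0 : ∀ x, 0 ≤ g x) {b ε : ℝ} (hb : 0 ≤ b) (hbW : Icc 0 b ⊆ W) (h : ∫ x in W, g x < b * ε) :
    ∃ x ∈ Icc 0 b, g x ≤ ε := by
  by_contra hc
  push Not at hc
  have h1 := setInt_le (f := fun _ => ε) (S := Icc 0 b) measurableSet_Icc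
    (integrableOn_const (by simp)) (hg.integrable_indicator hW) (ind_nonneg h0 W) fun x hx => by
      rw [indicator_of_mem (hbW hx)]; exact (hc x hx).le
  rw [setIntegral_const, Real.volume_real_Icc_of_le hb, sub_zero, smul_eq_mul,
    integral_indicator hW] at h1
  linarith

theorem Prof.dev_intOn (P : Prof m w) (κ a b : ℝ) :
    IntegrableOn (fun x => |m x - Ph (x / κ)|) (Icc a b) := by
  refine intOn_bdd (P.meas.sub (by fun_prop)).abs (fun x => ?_) (by simp)
  simp only [abs_abs, _root_.abs_le, Pi.sub_apply]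
  constructor <;> linarith [P.m0 x, P.m1 x, Ph_pos (x / κ), Ph_lt_one (x / κ)]

/-- the final estimate -/
theorem Prof.tilt_le (P : Prof m w) {N : ℝ → ℝ} (Q : Prof N w) {κ R r s b ε₅ ε₆ : ℝ}
    (hκ : 0 < κ) (hR : 1 ≤ R) (hr : (R + 1) * κ ≤ r) (hs : r ≤ s) (hb0 : 0 ≤ b) (hb : b ≤ κ)
    (h5 : 0 < ε₅) (h6 : 0 ≤ ε₆)
    (h1 : ∀ x < -(R * κ), w x * N x ≤ w x * m x + 4 * (κ / x) ^ 2)
    (h2 : ∀ x, R * κ < x → w x * N x ≤ w x * (1 - m x) + 4 * (κ / x) ^ 2)
    (h3 : ∀ x, |x| ≤ R * κ → |m x - Ph (x / κ)| ≤ ε₅ →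
      |m (-x - b) - Ph ((-x - b) / κ)| ≤ ε₅ → N x ≤ ε₆) :
    ∫ x, w x * N x ≤ (∫ x in Iio (-r), w x * m x) + (∫ x in Ioi s, w x * (1 - m x)) +
      (1 + 2 / ε₅) * (∫ x in Icc (-r) s, |m x - Ph (x / κ)|) + 48 * κ / R + 2 * R * κ * ε₆ := by
  set g := (Icc (-r) s).indicator fun x => |m x - Ph (x / κ)| with hg
  have hRκ : 0 < R * κ := by positivity
  have i1 := P.intg.indicator (measurableSet_Iio (a := -r))
  have i2 := P.compl.intg.indicator (measurableSet_Ioi (a := s))
  have i3 : Integrable g := (P.dev_intOn κ _ _).integrable_indicator measurableSet_Icc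
  obtain ⟨i4, e4⟩ := int_affine i3 (a := -1) (by norm_num) (-b)
  obtain ⟨i5, e5⟩ := int_affine integrable_inv_one_add_sq (inv_pos.2 hRκ).ne' 0
  obtain ⟨i6, e6⟩ := int_ind_const (a := -(R * κ)) (b := R * κ) (by linarith) ε₆
  rw [abs_neg, abs_one, inv_one, one_mul] at e4
  rw [abs_inv, inv_inv, abs_of_pos hRκ, integral_univ_inv_one_add_sq] at e5
  have hg0 : ∀ x, 0 ≤ g x := ind_nonneg (fun _ => abs_nonneg _) _
  have key : ∀ x, w x * N x ≤ (Iio (-r)).indicator (fun x => w x * m x) x +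
      (Ioi s).indicator (fun x => w x * (1 - m x)) x + (1 + 1 / ε₅) * g x +
      1 / ε₅ * g (-1 * x + -b) + 12 / R ^ 2 * (1 + ((R * κ)⁻¹ * x + 0) ^ 2)⁻¹ +
      (Icc (-(R * κ)) (R * κ)).indicator (fun _ => ε₆) x := by
    intro x
    have a1 := ind_nonneg P.nonneg (Iio (-r)) x
    have a2 := ind_nonneg P.compl.nonneg (Ioi s) x
    have a3 : 0 ≤ 1 / ε₅ * g x := mul_nonneg (by positivity) (hg0 x)
    have a4 : 0 ≤ 1 / ε₅ * g (-1 * x + -b) := mul_nonneg (by positivity) (hg0 _)
    have a5 : 0 ≤ 12 / R ^ 2 * (1 + ((R * κ)⁻¹ * x + 0) ^ 2)⁻¹ := by positivity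
    have a6 := ind_nonneg (f := fun _ => ε₆) (fun _ => h6) (Icc (-(R * κ)) (R * κ)) x
    have a7 := hg0 x
    have a8 : R * κ < |x| → 6 * (κ / x) ^ 2 ≤ 12 / R ^ 2 * (1 + ((R * κ)⁻¹ * x + 0) ^ 2)⁻¹ := by
      intro h
      have hx : 0 < x ^ 2 := by rw [← sq_abs]; exact pow_pos (hRκ.trans h) 2
      have hx2 : (R * κ) ^ 2 ≤ x ^ 2 := by rw [← sq_abs x]; gcongr
      have : 12 / R ^ 2 * (1 + ((R * κ)⁻¹ * x + 0) ^ 2)⁻¹ = 12 * κ ^ 2 / ((R * κ) ^ 2 + x ^ 2) := by
        field_simp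
        ring
      rw [this, div_pow, ← mul_div_assoc, div_le_div_iff₀ hx (by positivity)]
      nlinarith [mul_le_mul_of_nonneg_left hx2 (sq_nonneg κ)]
    have a9 : 0 ≤ (κ / x) ^ 2 := sq_nonneg _
    rw [add_mul, one_mul (g x)]
    rcases lt_or_ge x (-(R * κ)) with c1 | c1
    · have b1 := h1 x c1
      have b2 := a8 (lt_abs.2 (Or.inr (by linarith)))
      rcases lt_or_ge x (-r) with c2 | c2
      · rw [indicator_of_mem (mem_Iio.2 c2)]
        linarith
      · have b3 : g x = |m x - Ph (x / κ)| := indicator_of_mem (mem_Icc.2 ⟨c2, by nlinarith⟩) _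
        have b4 := Ph_neg_le_inv_sq (s := -(x / κ)) (by rw [← neg_div]; exact div_pos (by linarith) hκ)
        rw [neg_neg, neg_sq, div_eq_mul_inv 2, ← inv_pow, inv_div] at b4
        linarith [P.mul_le x, le_abs_self (m x - Ph (x / κ))]
    rcases lt_or_ge (R * κ) x with c3 | c3
    · have b1 := h2 x c3
      have b2 := a8 (lt_abs.2 (Or.inl c3))
      rcases lt_or_ge s x with c2 | c2
      · rw [indicator_of_mem (mem_Ioi.2 c2)]
        linarith
      · have b3 : g x = |m x - Ph (x / κ)| := indicator_of_mem (mem_Icc.2 ⟨by nlinarith, c2⟩) _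
        have b4 := Ph_neg_le_inv_sq (s := x / κ) (div_pos (by linarith) hκ)
        rw [Ph_neg, div_eq_mul_inv 2, ← inv_pow, inv_div] at b4
        linarith [P.compl.mul_le x, neg_abs_le (m x - Ph (x / κ))]
    have b0 : w x * N x ≤ 1 := (Q.mul_le x).trans (Q.m1 x)
    have b3 : g x = |m x - Ph (x / κ)| :=
      indicator_of_mem (mem_Icc.2 ⟨by nlinarith, by nlinarith⟩) _
    have b4 : g (-1 * x + -b) = |m (-x - b) - Ph ((-x - b) / κ)| := by
      rw [show -1 * x + -b = -x - b by ring]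
      exact indicator_of_mem (mem_Icc.2 ⟨by nlinarith, by nlinarith⟩) _
    have b5 : ∀ y, ε₅ < y → 1 < 1 / ε₅ * y := fun y hy => by
      rw [one_div, inv_mul_eq_div, one_lt_div h5]; exact hy
    rcases le_or_gt (g x) ε₅ with d1 | d1
    · rcases le_or_gt (g (-1 * x + -b)) ε₅ with d2 | d2
      · rw [indicator_of_mem (mem_Icc.2 ⟨c1, c3⟩)]
        linarith [Q.mul_le x, h3 x (_root_.abs_le.2 ⟨c1, c3⟩) (b3 ▸ d1) (b4 ▸ d2)]
      · linarith [b5 _ d2]
    · linarith [b5 _ d1]
  have j1 := i1.add i2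
  have j2 := j1.add (i3.const_mul (1 + 1 / ε₅))
  have j3 := j2.add (i4.const_mul (1 / ε₅))
  have j4 := j3.add (i5.const_mul (12 / R ^ 2))
  refine (integral_mono Q.intg (j4.add i6) key).trans ?_
  rw [integral_add' j4 i6, integral_add' j3, integral_add' j2, integral_add' j1, integral_add' i1 i2,
    integral_const_mul, integral_const_mul, integral_const_mul, e4, e5, e6,
    integral_indicator measurableSet_Iio, integral_indicator measurableSet_Ioi, hg,
    integral_indicator measurableSet_Icc]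
  · have : 12 / R ^ 2 * (R * κ * π) ≤ 48 * κ / R := by
      rw [div_mul_eq_mul_div, div_le_div_iff₀ (by positivity) (by positivity)]
      nlinarith [mul_le_mul_of_nonneg_left pi_le_four (by positivity : 0 ≤ 12 * κ * R ^ 2)]
    have e : 2 / ε₅ = 1 / ε₅ + 1 / ε₅ := by ring
    rw [e]
    linarith
  · exact i3.const_mul _
  · exact i4.const_mul _
  · exact i5.const_mul _

end Pool.Agent.BL.SB
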