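import Pool.Agent.P.MP_edb112_gt.Multi
import Pool.Agent.P.MP_edb112_gt.Sse
import Pool.Agent.P.MP_edb112_gt.Stab
import Pool.Agent.P.MP_edb112_gt.StepBA

/-! Slices, admissible heights and the scaled height density for step B. -/

set_option autoImplicit false
set_option linter.unusedSectionVars false

open MeasureTheory Set Module Filter Real
open scoped RealInnerProductSpace symmDiff

noncomputable section

namespace Pool.Agent.BL.SB

/-- density of the scaled height -/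
def om (k : ℕ) (x : ℝ) : ℝ := wt (k + 1) (x / √k) / wc (k + 1) / √k

theorem wt_le_mul {n : ℕ} (hn : 3 ≤ n) {s s' y : ℝ} (h : max (1 - s ^ 2) 0 ≤ (1 - s' ^ 2) * exp y) :
    wt n s ≤ wt n s' * exp (y * (((n : ℝ) - 3) / 2)) := by
  have h3 : (3 : ℝ) ≤ n := by exact_mod_cast hn
  rw [wt, wt, exp_mul, ← mul_rpow (le_max_right _ _) (exp_pos _).le]
  refine rpow_le_rpow (le_max_right _ _) (h.trans ?_) (by linarith)
  gcongr
  exact le_max_left _ _

section Om

variable {k : ℕ} (hk : 3 ≤ k)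
include hk

theorem sqrt_pos' : (0 : ℝ) < √k := Real.sqrt_pos.2 (by exact_mod_cast (by omega : 0 < k))

theorem om_nonneg (x : ℝ) : 0 ≤ om k x :=
  div_nonneg (div_nonneg (wt_nonneg _ _) (wc_pos (by omega)).le) (Real.sqrt_nonneg _)

theorem om_le_mul {x x' y z : ℝ}
    (h : max (1 - x ^ 2 / k) 0 ≤ (1 - x' ^ 2 / k) * exp y) (hz : y * (((k : ℝ) - 2) / 2) ≤ z) :
    om k x ≤ om k x' * exp z := by
  have h1 := wt_le_mul (n := k + 1) (by omega) (s := x / √k) (s' := x' / √k) (y := y) (by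
    rwa [div_pow, div_pow, Real.sq_sqrt (Nat.cast_nonneg k)])
  have h2 := wc_pos (n := k + 1) (by omega)
  have h3 := sqrt_pos' hk
  have h4 := wt_nonneg (k + 1) (x' / √k)
  rw [om, om, div_mul_eq_mul_div, div_mul_eq_mul_div]
  gcongr
  refine h1.trans ?_
  gcongr
  refine le_trans (le_of_eq ?_) hz
  push_cast
  ring

theorem om_le_near {x x' : ℝ} (hx : 2 * x' ^ 2 ≤ k) :
    om k x ≤ om k x' * exp |x' ^ 2 - x ^ 2| := by
  have h3 : (3 : ℝ) ≤ k := by exact_mod_cast hk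
  have h1 : x' ^ 2 / k ≤ 1 / 2 := by rw [div_le_iff₀ (by linarith)]; linarith
  refine om_le_mul hk (y := 2 * (|x' ^ 2 - x ^ 2| / k)) (max_le ?_ ?_) ?_
  · have h2 := add_one_le_exp (2 * (|x' ^ 2 - x ^ 2| / k))
    have h4 : x' ^ 2 / k - x ^ 2 / k ≤ |x' ^ 2 - x ^ 2| / k := by
      rw [← sub_div]; gcongr; exact le_abs_self _
    have h5 : 0 ≤ |x' ^ 2 - x ^ 2| / k := by positivity
    nlinarith [mul_le_mul_of_nonneg_left h2 (by linarith : 0 ≤ 1 - x' ^ 2 / k)]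
  · exact mul_nonneg (by linarith) (exp_pos _).le
  · have : 2 * (|x' ^ 2 - x ^ 2| / k) * (((k : ℝ) - 2) / 2) = |x' ^ 2 - x ^ 2| * ((k - 2) / k) := by
      field_simp
    rw [this]
    exact mul_le_of_le_one_right (abs_nonneg _) (by rw [div_le_one (by linarith)]; linarith)

theorem om_le_far {x x' d : ℝ} (hx : 4 * x' ^ 2 ≤ x ^ 2) (hx' : x ^ 2 ≤ k) (hd : d ^ 2 ≤ x ^ 2) :
    om k x ≤ om k x' * exp (-(d ^ 2 / 8)) := by
  have h3 : (3 : ℝ) ≤ k := by exact_mod_cast hk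
  have h0 : (0 : ℝ) < k := by linarith
  have h1 : x ^ 2 / k ≤ 1 := by rwa [div_le_one h0]
  have h2 : x' ^ 2 / k ≤ x ^ 2 / k :=
    div_le_div_of_nonneg_right (by nlinarith [sq_nonneg x']) h0.le
  have h4 : 0 ≤ x' ^ 2 / k := by positivity
  refine om_le_mul hk (y := -(x ^ 2 / k - x' ^ 2 / k)) (max_le ?_ ?_) ?_
  · have h5 := add_one_le_exp (-(x ^ 2 / k - x' ^ 2 / k))
    nlinarith [mul_le_mul_of_nonneg_left h5 (by linarith : 0 ≤ 1 - x' ^ 2 / k),
      mul_nonneg h4 (sub_nonneg.2 h2)]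
  · exact mul_nonneg (by linarith) (exp_pos _).le
  · have : -(x ^ 2 / k - x' ^ 2 / k) * (((k : ℝ) - 2) / 2) =
        -((x ^ 2 - x' ^ 2) * ((k - 2) / (2 * k))) := by
      field_simp
    rw [this, neg_le_neg_iff]
    have h5 : (1 : ℝ) / 6 ≤ (k - 2) / (2 * k) := by
      rw [div_le_div_iff₀ (by norm_num) (by linarith)]; linarith
    nlinarith [mul_le_mul_of_nonneg_left h5 (by nlinarith [sq_nonneg x'] : 0 ≤ x ^ 2 - x' ^ 2),
      sq_nonneg x']

theorem om_eq_zero {x : ℝ} (hx : (k : ℝ) ≤ x ^ 2) : om k x = 0 := by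
  have h3 : (3 : ℝ) ≤ k := by exact_mod_cast hk
  have h1 : 1 - (x / √k) ^ 2 ≤ 0 := by
    rw [div_pow, Real.sq_sqrt (Nat.cast_nonneg k), sub_nonpos, one_le_div (by linarith)]
    exact hx
  rw [om, wt, max_eq_right h1, zero_rpow (by push_cast; linarith), zero_div, zero_div]

theorem om_zero (hw : 2 ≤ √((k + 1 : ℕ) : ℝ) * wc (k + 1) ∧ √((k + 1 : ℕ) : ℝ) * wc (k + 1) ≤ 3) :
    1 / 3 ≤ om k 0 ∧ om k 0 ≤ 1 := by
  have h3 : (3 : ℝ) ≤ k := by exact_mod_cast hk
  have h2 := wc_pos (n := k + 1) (by omega)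
  have h4 := sqrt_pos' hk
  have a1 : √(k : ℝ) ≤ √((k + 1 : ℕ) : ℝ) := Real.sqrt_le_sqrt (by push_cast; linarith)
  have a2 : √((k + 1 : ℕ) : ℝ) ≤ 2 * √(k : ℝ) := by
    rw [Real.sqrt_le_left (by positivity), mul_pow, Real.sq_sqrt (by linarith)]
    push_cast
    linarith
  have e : om k 0 = 1 / (wc (k + 1) * √k) := by
    rw [← div_div]
    simp [om, wt]
  rw [e, div_le_one (by positivity)]
  refine ⟨one_div_le_one_div_of_le (by positivity) ?_, ?_⟩ <;> nlinarith [hw.1, hw.2]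

theorem integrable_om : Integrable (om k) := by
  have h1 : Integrable (wt (k + 1)) :=
    Integrable.of_integral_ne_zero (wc_pos (n := k + 1) (by omega)).ne'
  exact ((h1.comp_div (sqrt_pos' hk).ne').div_const _).div_const _

end Om

/-- what is used about the scaled density -/
structure Big (k : ℕ) : Prop where
  three : 3 ≤ k
  le_one : ∀ x, om k x ≤ 1
  lower : ∀ x L : ℝ, |x| ≤ L → 2 * L ^ 2 ≤ k → exp (-L ^ 2) / 3 ≤ om k x

theorem exists_big : ∃ k₀, ∀ k, k₀ ≤ k → Big k := by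
  obtain ⟨k₀, h⟩ := eventually_atTop.1 eventually_wc
  refine ⟨max k₀ 3, fun k hk => ?_⟩
  have h3 : 3 ≤ k := by omega
  have h0 := om_zero h3 (h (k + 1) (by omega))
  refine ⟨h3, fun x => ?_, fun x L hx hL => ?_⟩
  · refine (om_le_mul h3 (x' := 0) (y := 0) (z := 0) ?_ (by simp)).trans (by simpa using h0.2)
    have : 0 ≤ x ^ 2 / k := by positivity
    simpa using this
  · have h1 : x ^ 2 ≤ L ^ 2 := sq_le_sq' (abs_le.1 hx).1 (abs_le.1 hx).2
    have h2 := om_le_near h3 (x := 0) (x' := x) (by linarith)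
    rw [show x ^ 2 - 0 ^ 2 = x ^ 2 by ring, abs_of_nonneg (sq_nonneg x)] at h2
    have h4 : om k x * exp (x ^ 2) ≤ om k x * exp (L ^ 2) := by
      have := om_nonneg h3 x
      gcongr
    rw [exp_neg, div_le_iff₀ (by norm_num), inv_le_iff_one_le_mul₀ (exp_pos _)]
    linarith [h0.1]

theorem Big.near {k : ℕ} (hk : Big k) {x y L e : ℝ} (hx : |x| ≤ L) (hy : |y| ≤ L)
    (hL : 2 * L ^ 2 ≤ k) (he : e ≤ 1) (h : 4 * L * |x - y| ≤ e) :
    om k y * (1 - e) ≤ om k x ∧ om k x ≤ om k y * (1 + e) := by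
  have h1 : x ^ 2 ≤ L ^ 2 := sq_le_sq' (abs_le.1 hx).1 (abs_le.1 hx).2
  have h2 : y ^ 2 ≤ L ^ 2 := sq_le_sq' (abs_le.1 hy).1 (abs_le.1 hy).2
  have h3 : |x ^ 2 - y ^ 2| ≤ e / 2 := by
    rw [sq_sub_sq, abs_mul]
    nlinarith [abs_add_le x y, abs_nonneg (x - y)]
  have h0 : 0 ≤ e := by linarith [abs_nonneg (x ^ 2 - y ^ 2)]
  have h4 : exp (e / 2) ≤ 1 + e := by
    have := Real.abs_exp_sub_one_le (x := e / 2) (by rw [abs_of_nonneg (by linarith)]; linarith)
    rw [abs_of_nonneg (by linarith : 0 ≤ e / 2)] at this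
    linarith [le_abs_self (exp (e / 2) - 1)]
  have h5 := om_le_near hk.three (x := x) (x' := y) (by linarith)
  have h6 := om_le_near hk.three (x := y) (x' := x) (by linarith)
  rw [abs_sub_comm] at h5
  have h7 := (exp_le_exp.2 h3).trans h4
  have a := om_nonneg hk.three x
  have b := om_nonneg hk.three y
  have h8 : om k y ≤ om k x * (1 + e) := h6.trans (by gcongr)
  refine ⟨?_, h5.trans (by gcongr)⟩
  nlinarith [mul_le_mul_of_nonneg_right h8 (sub_nonneg.2 he), mul_nonneg a (sq_nonneg e)]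

/-- a tuple with values `α, β, γ, …, γ` -/
def tri (t : ℕ) (α β γ : ℝ) : Fin t → ℝ :=
  fun a => if a.val = 0 then α else if a.val = 1 then β else γ

theorem sum_tri {t : ℕ} (ht : 2 ≤ t) (f : ℝ → ℝ) (α β γ : ℝ) :
    ∑ a, f (tri t α β γ a) = f α + f β + (t - 2) * f γ := by
  obtain ⟨t, rfl⟩ := Nat.exists_eq_add_of_le' ht
  simp [Fin.sum_univ_succ, tri, add_assoc]

theorem tri_prop {t : ℕ} {p : ℝ → Prop} {α β γ : ℝ} (h1 : p α) (h2 : p β) (h3 : p γ) (a : Fin t) :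
    p (tri t α β γ a) := by
  unfold tri
  split_ifs <;> assumption

section Orb

variable {F : Type} [NormedAddCommGroup F] [InnerProductSpace ℝ F] [CompleteSpace F]
  [FiniteDimensional ℝ F] [MeasurableSpace F] [BorelSpace F] {t : ℕ} {y : Fin t → F}
  {B : Fin t → Set F}

theorem orb_le_sum (h : OrbFree y B) (hy : ∀ a, ‖y a‖ = 1) (hB : ∀ a, MeasurableSet (B a))
    (a : Fin t) : (sph F).real (B a) ≤ ∑ b ∈ Finset.univ.erase a,
      (haar F).real {g | ap g (y a) ∈ B a ∧ ap g (y b) ∈ (B b)ᶜ} := by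
  rw [Measure.real, ← haar_preimage (hy a) (hB a)]
  refine le_trans (measureReal_mono (fun g hg => ?_) (measure_ne_top _ _))
    (measureReal_biUnion_finset_le _ _)
  obtain ⟨b, hb⟩ := h g
  simp only [mem_iUnion]
  exact ⟨b, Finset.mem_erase.2 ⟨fun e => hb (e ▸ hg), Finset.mem_univ _⟩, hg, hb⟩

theorem real_compl {S : Set F} (hS : MeasurableSet S) :
    (sph F).real Sᶜ = 1 - (sph F).real S := by
  rw [measureReal_compl hS, probReal_univ]

theorem orb_union (h : OrbFree y B) (hy : ∀ a, ‖y a‖ = 1) (hB : ∀ a, MeasurableSet (B a))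
    (a : Fin t) : (sph F).real (B a) + (1 - (sph F).real (B a)) ≤ ∑ b, (1 - (sph F).real (B b)) := by
  rw [← Finset.sum_erase_add _ _ (Finset.mem_univ a)]
  refine add_le_add_left ((orb_le_sum h hy hB a).trans (Finset.sum_le_sum fun b _ => ?_)) _
  rw [← real_compl (hB b), Measure.real, Measure.real, ← haar_preimage (hy b) (hB b).compl]
  exact measureReal_mono fun g hg => hg.2

theorem cap_le_sq [Nontrivial F] {e : F} (he : ‖e‖ = 1) {c : ℝ} (hc : 0 < c) :
    (sph F).real (cap e (c / √(finrank ℝ F))) ≤ c⁻¹ ^ 2 := by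
  have hn : (0 : ℝ) < finrank ℝ F := by exact_mod_cast finrank_pos
  have hi : Integrable (fun x => ⟪e, x⟫ ^ 2) (sph F) := integrable_of_continuousOn (by fun_prop)
  have h1 := mul_meas_ge_le_integral_of_nonneg (μ := sph F) (f := fun x => ⟪e, x⟫ ^ 2)
    (Eventually.of_forall fun x => sq_nonneg _) hi ((c / √(finrank ℝ F)) ^ 2)
  rw [integral_inner_sq, he, one_pow, div_pow, Real.sq_sqrt hn.le, div_mul_eq_mul_div,
    div_le_div_iff_of_pos_right hn] at h1
  have h2 : (sph F).real (cap e (c / √(finrank ℝ F))) ≤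
      (sph F).real {x | c ^ 2 / finrank ℝ F ≤ ⟪e, x⟫ ^ 2} := measureReal_mono fun x hx => by
    have := pow_le_pow_left₀ (by positivity) (show c / √(finrank ℝ F) ≤ ⟪e, x⟫ from hx) 2
    rwa [div_pow, Real.sq_sqrt hn.le] at this
  rw [inv_pow, ← one_div, le_div_iff₀ (by positivity)]
  nlinarith [mul_le_mul_of_nonneg_left h2 (sq_nonneg c)]

theorem real_cap_symmDiff (e : F) (a b : ℝ) : (sph F).real (cap e a ∆ cap e b) =
    |(sph F).real (cap e a) - (sph F).real (cap e b)| := by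
  wlog h : a ≤ b generalizing a b
  · rw [symmDiff_comm, abs_sub_comm]
    exact this b a (not_le.1 h).le
  have hs : cap e b ⊆ cap e a := fun x hx => h.trans hx
  rw [symmDiff_of_ge hs, measureReal_sdiff hs (measurableSet_cap e b),
    abs_of_nonneg (sub_nonneg.2 (measureReal_mono hs))]

end Orb

variable {E : Type} [NormedAddCommGroup E] [InnerProductSpace ℝ E] [CompleteSpace E]
  [FiniteDimensional ℝ E] [MeasurableSpace E] [BorelSpace E]

theorem measurableSet_slice (e : E) (s : ℝ) {A : Set E} (hA : MeasurableSet A) :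
    MeasurableSet (slice e s A) :=
  (show Measurable fun y : (ℝ ∙ e)ᗮ => s • e + √(1 - s ^ 2) • (y : E) by fun_prop) hA

theorem inner_orth (e : E) (y : (ℝ ∙ e)ᗮ) : ⟪e, (y : E)⟫ = 0 :=
  Submodule.mem_orthogonal_singleton_iff_inner_right.1 y.2

theorem inner_lift {e : E} (he : ‖e‖ = 1) (s r s' r' : ℝ) (y y' : (ℝ ∙ e)ᗮ) :
    ⟪s • e + r • (y : E), s' • e + r' • (y' : E)⟫ = s * s' + r * r' * ⟪y, y'⟫ := by
  have h1 : ⟪e, e⟫ = 1 := by rw [real_inner_self_eq_norm_sq, he]; norm_num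
  simp only [inner_add_left, inner_add_right, real_inner_smul_left, real_inner_smul_right, h1,
    inner_orth, real_inner_comm e (y : E), Submodule.coe_inner]
  ring

theorem norm_eq_one_of_inner {F : Type} [NormedAddCommGroup F] [InnerProductSpace ℝ F] {x : F}
    (h : ⟪x, x⟫ = 1) : ‖x‖ = 1 := by
  rw [real_inner_self_eq_norm_sq] at h
  exact (sq_eq_sq₀ (norm_nonneg _) zero_le_one).1 (by simpa using h)

/-- the scaled slice profile -/
def mu (e : E) (A : Set E) (x : ℝ) : ℝ :=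
  (sph (ℝ ∙ e)ᗮ).real (slice e (x / √(finrank ℝ (ℝ ∙ e)ᗮ)) A)

theorem prof_mu (e : E) {A : Set E} (hA : MeasurableSet A) (hk : Big (finrank ℝ (ℝ ∙ e)ᗮ)) :
    Prof (mu e A) (om (finrank ℝ (ℝ ∙ e)ᗮ)) :=
  ⟨(measurable_slice e hA).comp (measurable_id.div_const _), fun _ => measureReal_nonneg,
    fun _ => measureReal_le_one, om_nonneg hk.three, hk.le_one, integrable_om hk.three⟩

theorem real_eq_om {e : E} (he : ‖e‖ = 1) (hk : 3 ≤ finrank ℝ (ℝ ∙ e)ᗮ) {A : Set E}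
    (hA : MeasurableSet A) : (sph E).real A = ∫ x, om (finrank ℝ (ℝ ∙ e)ᗮ) x * mu e A x := by
  have h1 := finrank_orth he
  have h2 := sqrt_pos' hk
  rw [real_eq_integral_slice (by omega) he hA, ← h1]
  have := Measure.integral_comp_div (fun s => wt (finrank ℝ (ℝ ∙ e)ᗮ + 1) s /
    wc (finrank ℝ (ℝ ∙ e)ᗮ + 1) * (sph (ℝ ∙ e)ᗮ).real (slice e s A)) √(finrank ℝ (ℝ ∙ e)ᗮ)
  rw [abs_of_pos h2, smul_eq_mul] at this
  simp only [om, mu, div_mul_eq_mul_div _ (√(finrank ℝ (ℝ ∙ e)ᗮ : ℝ))]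
  rw [integral_div, this, mul_div_cancel_left₀ _ h2.ne']

theorem split_cap {e : E} (he : ‖e‖ = 1) (hk : Big (finrank ℝ (ℝ ∙ e)ᗮ)) {A : Set E}
    (hA : MeasurableSet A) (H : ℝ) :
    (sph E).real (A ∆ cap e (H / √(finrank ℝ (ℝ ∙ e)ᗮ))) =
      (∫ x in Iio H, om (finrank ℝ (ℝ ∙ e)ᗮ) x * mu e A x) +
        ∫ x in Ici H, om (finrank ℝ (ℝ ∙ e)ᗮ) x * (1 - mu e A x) ∧
    (sph E).real A - (sph E).real (cap e (H / √(finrank ℝ (ℝ ∙ e)ᗮ))) =
      (∫ x in Iio H, om (finrank ℝ (ℝ ∙ e)ᗮ) x * mu e A x) -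
        ∫ x in Ici H, om (finrank ℝ (ℝ ∙ e)ᗮ) x * (1 - mu e A x) := by
  have hq := sqrt_pos' hk.three
  set q := √(finrank ℝ (ℝ ∙ e)ᗮ : ℝ) with hqd
  have hc := measurableSet_cap e (H / q)
  have h0 : ∀ (x : ℝ) (y : (ℝ ∙ e)ᗮ), y ∈ slice e (x / q) (cap e (H / q)) ↔ H ≤ x := by
    intro x y
    have := inner_lift he 1 0 (x / q) √(1 - (x / q) ^ 2) y y
    simp only [one_smul, zero_smul, add_zero, one_mul, zero_mul] at this
    simp only [slice, cap, mem_ofPred_eq, this, div_le_div_iff_of_pos_right hq]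
  have h1 : ∀ x < H, slice e (x / q) (cap e (H / q)) = ∅ := fun x hx =>
    eq_empty_of_forall_notMem fun y hy => hx.not_ge ((h0 x y).1 hy)
  have h2 : ∀ x, H ≤ x → slice e (x / q) (cap e (H / q)) = univ := fun x hx =>
    eq_univ_of_forall fun y => (h0 x y).2 hx
  have h3 : ∀ s, slice e s (A ∆ cap e (H / q)) = slice e s A ∆ slice e s (cap e (H / q)) :=
    fun s => rfl
  have hs : ∀ {B : Set E}, MeasurableSet B → (sph E).real B =
      (∫ x in Iio H, om _ x * mu e B x) + ∫ x in Ici H, om _ x * mu e B x := fun hB => by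
    rw [real_eq_om he hk.three hB, ← compl_Iio,
      integral_add_compl measurableSet_Iio (prof_mu e hB hk).intg]
  refine ⟨?_, ?_⟩
  · rw [hs (hA.symmDiff hc)]
    congr 1
    · refine setIntegral_congr_fun measurableSet_Iio fun x hx => ?_
      simp only [mu, ← hqd, h3, h1 x hx, ← bot_eq_empty, symmDiff_bot]
    · refine setIntegral_congr_fun measurableSet_Ici fun x hx => ?_
      simp only [mu, ← hqd, h3, h2 x hx, ← top_eq_univ, symmDiff_top, hnot_eq_compl]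
      rw [real_compl (measurableSet_slice e _ hA)]
  · have a1 : ∫ x in Iio H, om (finrank ℝ (ℝ ∙ e)ᗮ) x * mu e (cap e (H / q)) x = 0 :=
      setIntegral_eq_zero_of_forall_eq_zero fun x hx => by simp [mu, ← hqd, h1 x hx]
    have a2 : ∫ x in Ici H, om (finrank ℝ (ℝ ∙ e)ᗮ) x * mu e (cap e (H / q)) x =
        (∫ x in Ici H, om (finrank ℝ (ℝ ∙ e)ᗮ) x * mu e A x) +
          ∫ x in Ici H, om (finrank ℝ (ℝ ∙ e)ᗮ) x * (1 - mu e A x) := by
      rw [← integral_add (prof_mu e hA hk).intg.integrableOn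
        (prof_mu e hA hk).compl.intg.integrableOn]
      refine setIntegral_congr_fun measurableSet_Ici fun x hx => ?_
      simp only [mu, ← hqd, h2 x hx, probReal_univ]
      ring
    rw [hs hA, hs hc, a1, a2]
    ring

/-- configurations on the equator attached to admissible heights -/
theorem exists_orbFree {t : ℕ} (ht : 2 ≤ t) (hn : t + 2 ≤ finrank ℝ E) {e : E} (he : ‖e‖ = 1)
    {h h' : ℝ} {A : Set E} (hF : Free t h A) (h0 : 0 ≤ h') (hh : h' ≤ h) (h1 : h' < 1)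
    {s : Fin t → ℝ} (hs : ∀ a, s a ^ 2 < 1) {m : ℝ} (hm0 : ∑ a, s a = t * m)
    (hV : ∑ a, (s a - m) ^ 2 ≤ t / (t - 1) * (1 - h' ^ 2))
    (hm : m ^ 2 * (1 - h' ^ 2) ≤ h' ^ 2 * (1 - h' ^ 2 - (t - 1) / t * ∑ a, (s a - m) ^ 2)) :
    ∃ y : Fin t → (ℝ ∙ e)ᗮ, (∀ a, ‖y a‖ = 1) ∧ OrbFree y (fun a => slice e (s a) A) ∧
      ∀ ζ, (∀ a, s a ^ 2 ≤ ζ) → h' ^ 2 ≤ ζ → Near t (4 * ζ) y := by
  obtain ⟨x, hx1, hx2, hx3⟩ := exists_heights ht hn he h0 h1 (d := fun a => s a - m)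
    (by simp [hm0]) hV hm
  simp only [add_sub_cancel] at hx3
  have hr : ∀ a, 0 < √(1 - s a ^ 2) := fun a => Real.sqrt_pos.2 (sub_pos.2 (hs a))
  have hrr : ∀ a, √(1 - s a ^ 2) * √(1 - s a ^ 2) = 1 - s a ^ 2 :=
    fun a => Real.mul_self_sqrt (sub_pos.2 (hs a)).le
  let y : Fin t → (ℝ ∙ e)ᗮ := fun a => ⟨(√(1 - s a ^ 2))⁻¹ • (x a - s a • e),
    Submodule.mem_orthogonal_singleton_iff_inner_right.2 (by
      rw [real_inner_smul_right, inner_sub_right, real_inner_smul_right, hx3,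
        real_inner_self_eq_norm_sq, he]; simp)⟩
  have hy : ∀ a, s a • e + √(1 - s a ^ 2) • (y a : E) = x a := fun a => by
    simp [y, smul_smul, (hr a).ne']
  have hyy : ∀ a b, ⟪x a, x b⟫ = s a * s b + √(1 - s a ^ 2) * √(1 - s b ^ 2) * ⟪y a, y b⟫ :=
    fun a b => by rw [← inner_lift he, hy, hy]
  have hy1 : ∀ a, ⟪y a, y a⟫ = 1 := fun a => by
    have := hyy a a
    rw [real_inner_self_eq_norm_sq, hx1, hrr] at this
    exact mul_left_cancel₀ (sub_pos.2 (hs a)).ne' (by linarith)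
  have hy2 := fun a => norm_eq_one_of_inner (hy1 a)
  refine ⟨y, hy2, fun g => ?_, fun ζ hζ hζ' => ⟨hy2, fun a b hab => ?_⟩⟩
  · by_contra hc
    push Not at hc
    obtain ⟨a, b, hab, hlt⟩ := hF _ hc fun a => norm_eq_one_of_inner (by
      rw [inner_lift he, inner_ap, hy1, hrr]; ring)
    rw [inner_lift he, inner_ap, ← hyy, hx2 a b hab] at hlt
    exact hlt.not_ge (beta_mono ht h0 hh)
  · have ht2 : (2 : ℝ) ≤ t := by exact_mod_cast ht
    have e1 := hyy a b
    rw [hx2 a b hab, beta_eq ht] at e1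
    have b1 : |⟪y a, y b⟫| ≤ 1 := by simpa [hy2] using abs_real_inner_le_norm (y a) (y b)
    have b2 : ∀ a, √(1 - s a ^ 2) ≤ 1 := fun a => Real.sqrt_le_one.2 (by nlinarith [sq_nonneg (s a)])
    have b3 : √(1 - s a ^ 2) * √(1 - s b ^ 2) ≤ 1 := mul_le_one₀ (b2 a) (hr b).le (b2 b)
    have b4 : 1 - ζ ≤ √(1 - s a ^ 2) * √(1 - s b ^ 2) := by
      rcases le_total √(1 - s a ^ 2) √(1 - s b ^ 2) with h | h
      · nlinarith [mul_le_mul_of_nonneg_left h (hr a).le, hrr a, hζ a]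
      · nlinarith [mul_le_mul_of_nonneg_left h (hr b).le, hrr b, hζ b]
    have b5 : |s a * s b| ≤ ζ := by
      rw [abs_le]
      constructor <;> nlinarith [hζ a, hζ b, sq_nonneg (s a - s b), sq_nonneg (s a + s b)]
    have b6 : 0 ≤ 1 / ((t : ℝ) - 1) := by have : (0 : ℝ) < t - 1 := by linarith
                                          positivity
    have b7 : 1 / ((t : ℝ) - 1) ≤ 1 := by rw [div_le_one (by linarith)]; linarith
    rw [neg_div] at e1
    generalize √(1 - s a ^ 2) * √(1 - s b ^ 2) = r at *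
    generalize 1 / ((t : ℝ) - 1) = v at *
    rw [abs_le] at b1 b5 ⊢
    have b8 := mul_le_of_le_one_right (sq_nonneg h') b7
    have b9 := mul_nonneg (sq_nonneg h') b6
    constructor <;> nlinarith [sq_nonneg h']

end Pool.Agent.BL.SB
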