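import Pool.Agent.P.MP_edb112_gt.StepBB

/-! Tails and the common direction for step B. -/

set_option autoImplicit false
set_option linter.unusedSectionVars false

open MeasureTheory Set Module Filter Real
open scoped RealInnerProductSpace symmDiff

noncomputable section

namespace Pool.Agent.BL.SB

section

variable {F : Type} [NormedAddCommGroup F] [InnerProductSpace ℝ F] [CompleteSpace F]
  [FiniteDimensional ℝ F] [MeasurableSpace F] [BorelSpace F]

theorem near_mono {t : ℕ} {ε ε' : ℝ} {y : Fin t → F} (h : Near t ε y) (h' : ε ≤ ε') :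
    Near t ε' y := ⟨h.1, fun a b hab => (h.2 a b hab).trans h'⟩

/-- a family of slices indexed by the scaled height -/
structure Fam (t : ℕ) (H : ℝ) (B : ℝ → Set F) : Prop where
  meas : ∀ x, MeasurableSet (B x)
  prof : Prof (fun x => (sph F).real (B x)) (om (finrank ℝ F))
  zero : ∀ (s : Fin t → ℝ) (ζ : ℝ), (∀ a, s a ^ 2 ≤ ζ) → (∀ a, s a ^ 2 < finrank ℝ F) →
    ∑ a, s a = 0 → ∑ a, s a ^ 2 ≤ t / (t - 1) * finrank ℝ F →
    ∃ y, Near t (4 * (ζ / finrank ℝ F)) y ∧ OrbFree y fun a => B (s a)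
  high : ∀ (s : Fin t → ℝ) (ζ u : ℝ), (∀ a, s a ^ 2 ≤ ζ) → H ^ 2 ≤ ζ → 2 * ζ ≤ finrank ℝ F →
    0 ≤ u → u ≤ 1 → ∑ a, s a = t * (H * (1 - u)) →
    ∑ a, (s a - H * (1 - u)) ^ 2 ≤ u * finrank ℝ F / 2 →
    ∃ y, Near t (4 * (ζ / finrank ℝ F)) y ∧ OrbFree y fun a => B (s a)

theorem Fam.mid {t : ℕ} {H d : ℝ} {B : ℝ → Set F} (hB : Fam t H B) (ht : 3 ≤ t) (hH : 0 ≤ H)
    (hd : 2 * H ≤ d) (hk : 8 * t ^ 2 * d ^ 2 ≤ finrank ℝ F) {x : ℝ} (hx : x ∈ Ico (-d) H) {u : ℝ}
    (hu : u ∈ Icc 0 ((H - x) / (8 * t ^ 2))) : ∃ y, Near t (4 * (d ^ 2 / finrank ℝ F)) y ∧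
      OrbFree y fun a => B (tri t x (Tm t H x - (t - 2) * u) (Tm t H x + u) a) := by
  have h3 : (3 : ℝ) ≤ t := by exact_mod_cast ht
  have hT := Tm_mem ht hH hd hx
  have h1 : 0 < H - x := sub_pos.2 hx.2
  have hx1 := hx.1
  have hd0 : 0 < d := by linarith
  have b0 : t * u ≤ (H - x) / (8 * t) := by
    have := hu.2
    rw [le_div_iff₀ (by positivity)] at this ⊢
    nlinarith
  have b1 : (H - x) / (8 * t) ≤ (H - x) / (2 * t) := by gcongr; norm_num
  have b2 : (H - x) / (8 * t) ≤ (H - x) / 16 := by gcongr; linarith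
  have b3 : u ≤ t * u := by nlinarith [hu.1]
  have b4 : 0 ≤ (t - 2) * u := mul_nonneg (by linarith) hu.1
  have b5 := hu.1
  have hs : ∀ a, tri t x (Tm t H x - (t - 2) * u) (Tm t H x + u) a ^ 2 ≤ d ^ 2 :=
    tri_prop (p := fun z => z ^ 2 ≤ d ^ 2) (sq_le_sq' hx1 (by linarith))
      (sq_le_sq' (by nlinarith [hT.1]) (by nlinarith [hT.2]))
      (sq_le_sq' (by nlinarith [hT.1]) (by nlinarith [hT.2]))
  have hsum := sum_tri (by omega : 2 ≤ t) id x (Tm t H x - (t - 2) * u) (Tm t H x + u)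
  simp only [id] at hsum
  have hd2 : 0 < d ^ 2 := by positivity
  have ht2 : 9 * d ^ 2 ≤ t ^ 2 * d ^ 2 := by gcongr; nlinarith
  have ht1 : (t : ℝ) - 1 ≠ 0 := by linarith
  rcases max_cases (H + (H - x) / (2 * (t - 1))) (-x / (t - 1)) with h | h
  · have e1 : Tm t H x = H + (H - x) / (2 * (t - 1)) := h.1
    have c1 : H - x ≤ 2 * t * H := by
      have a := h.2
      rw [div_le_iff₀ (by linarith), add_mul,
        show (H - x) / (2 * (t - 1)) * (t - 1) = (H - x) / 2 by field_simp] at a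
      linarith
    have c2 : 0 < H := by nlinarith
    have e2 : H * (1 - (H - x) / (2 * t * H)) = H - (H - x) / (2 * t) := by field_simp
    have c3 : (H - x) / (2 * (t - 1)) ≤ (H - x) / 4 := by gcongr; linarith
    have c4 : (H - x) / (2 * t) ≤ (H - x) / 4 := by gcongr; linarith
    have c5 : 0 ≤ (H - x) / (2 * (t - 1)) := div_nonneg h1.le (by linarith)
    have c6 : 0 ≤ (H - x) / (2 * t) := by positivity
    refine hB.high _ _ ((H - x) / (2 * t * H)) hs (sq_le_sq' (by linarith) (by linarith))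
      (by linarith) (by positivity) (by rwa [div_le_one (by positivity)]) ?_ ?_
    · rw [hsum, e2, e1]
      field_simp
      ring
    · rw [e2]
      have c7 : ∀ a, (tri t x (Tm t H x - (t - 2) * u) (Tm t H x + u) a -
          (H - (H - x) / (2 * t))) ^ 2 ≤ (H - x) ^ 2 :=
        tri_prop (p := fun z => (z - (H - (H - x) / (2 * t))) ^ 2 ≤ (H - x) ^ 2)
          (sq_le_sq' (by linarith) (by linarith)) (sq_le_sq' (by nlinarith) (by nlinarith))
          (sq_le_sq' (by nlinarith) (by nlinarith))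
      refine (Finset.sum_le_card_nsmul _ _ _ fun a _ => c7 a).trans ?_
      rw [Finset.card_univ, Fintype.card_fin, nsmul_eq_mul, div_mul_eq_mul_div, div_div,
        le_div_iff₀ (by positivity)]
      have c8 : H * (H - x) ≤ d * (2 * d) := by gcongr <;> linarith
      calc _ = (H - x) * (4 * t ^ 2 * (H * (H - x))) := by ring
        _ ≤ (H - x) * (4 * t ^ 2 * (d * (2 * d))) := by gcongr
        _ ≤ _ := by gcongr; linarith
  · have e1 : Tm t H x = -x / (t - 1) := h.1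
    refine hB.zero _ _ hs (fun a => (hs a).trans_lt (by linarith)) ?_ ?_
    · rw [hsum, e1]
      field_simp
      ring
    · refine (Finset.sum_le_card_nsmul _ _ _ fun a _ => hs a).trans ?_
      rw [Finset.card_univ, Fintype.card_fin, nsmul_eq_mul]
      have c1 : (1 : ℝ) ≤ t / (t - 1) := by rw [one_le_div (by linarith)]; linarith
      have c2 : t * d ^ 2 ≤ t ^ 2 * d ^ 2 := by gcongr; nlinarith
      nlinarith [Nat.cast_nonneg (α := ℝ) (finrank ℝ F)]

theorem orb_tri {t : ℕ} (ht : 3 ≤ t) {B : ℝ → Set F} (hB : ∀ x, MeasurableSet (B x))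
    {y : Fin t → F} (hy : ∀ a, ‖y a‖ = 1) {α β γ : ℝ} (h : OrbFree y fun a => B (tri t α β γ a)) :
    (sph F).real (B α) ≤ (1 - (sph F).real (B β)) + (t - 2) * (1 - (sph F).real (B γ)) := by
  have h1 := orb_union h hy (fun a => hB _) ⟨0, by omega⟩
  rw [sum_tri (by omega) fun z => 1 - (sph F).real (B z)] at h1
  simp only [tri, if_true] at h1
  linarith

theorem Fam.far {t : ℕ} {H d : ℝ} {B : ℝ → Set F} (hB : Fam t H B) (ht : 3 ≤ t)
    (hk : 3 ≤ finrank ℝ F) (hd : 0 ≤ d) {x : ℝ} (hx : x < -d) :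
    om (finrank ℝ F) x * (sph F).real (B x) ≤ t * exp (-(d ^ 2 / 8)) *
      (om (finrank ℝ F) (-x / (t - 1)) * (1 - (sph F).real (B (-x / (t - 1))))) := by
  have h3 : (3 : ℝ) ≤ t := by exact_mod_cast ht
  have h0 := hB.prof.compl.m0 (-x / (t - 1))
  have h0' := om_nonneg hk (-x / (t - 1))
  rcases le_or_gt (finrank ℝ F : ℝ) (x ^ 2) with h | h
  · rw [om_eq_zero hk h, zero_mul]
    positivity
  have ht1 : (0 : ℝ) < t - 1 := by linarith
  have h4 : 4 * (-x / (t - 1)) ^ 2 ≤ x ^ 2 := by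
    rw [div_pow, neg_sq, ← mul_div_assoc, div_le_iff₀ (by positivity)]
    nlinarith [mul_le_mul_of_nonneg_left (by nlinarith : (4 : ℝ) ≤ (t - 1) ^ 2) (sq_nonneg x)]
  have h5 : (-x / (t - 1)) ^ 2 ≤ x ^ 2 := by nlinarith [sq_nonneg (-x / (t - 1))]
  have hs : ∀ a, tri t x (-x / (t - 1)) (-x / (t - 1)) a ^ 2 ≤ x ^ 2 :=
    tri_prop (p := fun z => z ^ 2 ≤ x ^ 2) le_rfl h5 h5
  obtain ⟨y, hy, hO⟩ := hB.zero _ _ hs (fun a => (hs a).trans_lt h)
    (by
      have := sum_tri (by omega : 2 ≤ t) id x (-x / (t - 1)) (-x / (t - 1))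
      simp only [id] at this
      rw [this]
      field_simp
      ring)
    (by
      rw [sum_tri (by omega) fun z => z ^ 2]
      calc _ = t / (t - 1) * x ^ 2 := by field_simp; ring
        _ ≤ _ := by gcongr)
  have h6 := orb_tri ht hB.meas hy.1 hO
  have h7 := om_le_far hk h4 h.le (sq_le_sq.2 (by
    rw [abs_of_nonneg hd, abs_of_neg (by linarith)]; linarith) : d ^ 2 ≤ x ^ 2)
  calc _ ≤ (om (finrank ℝ F) (-x / (t - 1)) * exp (-(d ^ 2 / 8))) *
        (t * (1 - (sph F).real (B (-x / (t - 1))))) :=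
        mul_le_mul h7 (by linarith) measureReal_nonneg (by positivity)
    _ = _ := by ring

end

theorem tails (t : ℕ) (ht : 3 ≤ t) (c : ℝ) {e : ℝ} (he : 0 < e) (he1 : e ≤ 1) :
    ∃ γ > 0, ∃ D₀ : ℝ, ∃ k₀ : ℕ,
    ∀ (F : Type) [NormedAddCommGroup F] [InnerProductSpace ℝ F] [CompleteSpace F]
    [FiniteDimensional ℝ F] [MeasurableSpace F] [BorelSpace F], k₀ ≤ finrank ℝ F →
    Big (finrank ℝ F) → ∀ H : ℝ, 0 ≤ H → H ≤ c → ∀ B : ℝ → Set F, Fam t H B → ∀ η : ℝ,
    ∫ x in Ici H, om (finrank ℝ F) x * (1 - (sph F).real (B x)) ≤ η →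
    (∫ x in Icc (-1) H, (if (sph F).real (B x) ≤ γ then (sph F).real (B x) else 0) ≤ e * η) ∧
    ∀ r, D₀ * η ≤ r → ∫ x in Iio (H - r), om (finrank ℝ F) x * (sph F).real (B x) ≤ e * η := by
  have h3 : (3 : ℝ) ≤ t := by exact_mod_cast ht
  obtain ⟨d, hd1, hd2, hd3⟩ : ∃ d : ℝ, 1 ≤ d ∧ t * c ≤ d ∧
      t * exp (-(d ^ 2 / 8)) * t ≤ e / 2 := by
    have h1 : Tendsto (fun d : ℝ => t * exp (-(d ^ 2 / 8)) * t) atTop (nhds (t * 0 * t)) :=
      ((tendsto_exp_neg_atTop_nhds_zero.comp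
        ((tendsto_pow_atTop two_ne_zero).atTop_div_const (by norm_num))).const_mul _).mul_const _
    exact ((eventually_ge_atTop 1).and ((eventually_ge_atTop _).and
      (h1.eventually (ge_mem_nhds (by simpa using he))))).exists
  set cL := exp (-d ^ 2) / 3 with hcL
  have hc0 : 0 < cL := by positivity
  have hc1 : cL ≤ 1 := by
    have : exp (-d ^ 2) ≤ 1 := exp_le_one_iff.2 (by nlinarith)
    linarith
  set ε := e * cL / (6 * t) with hε
  have hε0 : 0 < ε := by positivity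
  have hε1 : ε ≤ 1 := by
    rw [hε, div_le_one (by positivity)]
    nlinarith
  obtain ⟨γ, hγ, k₁, hsse⟩ := sse (ε / t) (by positivity)
  obtain ⟨k₂, hk₂⟩ := exists_nat_ge (200 * t ^ 2 * d ^ 2 : ℝ)
  refine ⟨γ, hγ, 8 * t ^ 3 / (γ * cL), max k₁ k₂, ?_⟩
  intro F _ _ _ _ _ _ hk hb H hH hHc B hB η hη
  have hk3 : 200 * t ^ 2 * d ^ 2 ≤ (finrank ℝ F : ℝ) :=
    hk₂.trans (by exact_mod_cast (le_max_right _ _).trans hk)
  have hd4 : t * H ≤ d := le_trans (by gcongr) hd2
  have hd5 : 2 * H ≤ d := by nlinarith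
  have ht2 : 9 * d ^ 2 ≤ t ^ 2 * d ^ 2 := by gcongr; nlinarith
  have hd6 : 1 ≤ d ^ 2 := by nlinarith
  have hk4 : 8 * t ^ 2 * d ^ 2 ≤ (finrank ℝ F : ℝ) := by linarith
  have hw : ∀ y ∈ Icc H d, cL ≤ om (finrank ℝ F) y := fun y hy =>
    hb.lower y d (abs_le.2 ⟨by linarith [hy.1], hy.2⟩) (by linarith)
  have P := hB.prof
  have hDe : 0 ≤ ∫ x in Ici H, om (finrank ℝ F) x * (1 - (sph F).real (B x)) :=
    integral_nonneg P.compl.nonneg
  have hlow := P.low_le ht hH hd5 hc0 hw (γ := γ) hε0.le fun x hx hm => by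
    obtain ⟨y, hy, hO⟩ := hB.mid ht hH hd5 hk4 hx (u := 0)
      ⟨le_rfl, div_nonneg (sub_nonneg.2 hx.2.le) (by positivity)⟩
    simp only [mul_zero, sub_zero, add_zero] at hO
    have h1 := orb_le_sum hO hy.1 (fun a => hB.meas _) ⟨0, by omega⟩
    have h2 : 4 * (d ^ 2 / finrank ℝ F) ≤ 1 / (50 * t ^ 2) := by
      rw [← mul_div_assoc, div_le_div_iff₀ (by linarith) (by positivity)]
      linarith
    have h4 : (1 : ℝ) / (50 * t ^ 2) ≤ 1 / 50 := by gcongr; nlinarith
    have h5 : (1 : ℝ) / (50 * t ^ 2) ≤ 1 / (t - 1) := by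
      gcongr
      · linarith
      · nlinarith
    have h6 : (1 : ℝ) / (t - 1) ≤ 1 / 2 := by gcongr; linarith
    have hn := P.compl.m0 (Tm t H x)
    have hm0 := P.m0 x
    have h7 := h1.trans (Finset.sum_le_card_nsmul _ _
      (ε / t * √((sph F).real (B x) * (1 - (sph F).real (B (Tm t H x))))) fun b hb' => by
        have hne := Finset.ne_of_mem_erase hb'
        have e1 : tri t x (Tm t H x) (Tm t H x) b = Tm t H x := by
          simp only [tri, ite_self]
          exact if_neg fun h => hne (Fin.ext h)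
        have h8 := abs_le.1 (hy.2 _ _ hne.symm)
        rw [e1, ← real_compl (hB.meas _)]
        exact hsse F ((le_max_left _ _).trans hk) _ _ (hy.1 _) (hy.1 _) (by linarith)
          (by linarith) _ _ (hB.meas _) (hB.meas _).compl hm)
    simp only [tri, if_true] at h7
    rw [Finset.card_erase_of_mem (Finset.mem_univ _), Finset.card_univ, Fintype.card_fin,
      nsmul_eq_mul, Nat.cast_sub (by omega), Nat.cast_one] at h7
    have h9 : (sph F).real (B x) ≤
        ε * √((sph F).real (B x) * (1 - (sph F).real (B (Tm t H x)))) := by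
      refine h7.trans ?_
      rw [← mul_assoc]
      gcongr
      rw [← mul_div_assoc, div_le_iff₀ (by linarith)]
      nlinarith
    have h10 := pow_le_pow_left₀ hm0 h9 2
    rw [mul_pow, Real.sq_sqrt (mul_nonneg hm0 hn)] at h10
    rcases hm0.eq_or_lt with h | h
    · rw [← h]
      positivity
    · refine le_of_mul_le_mul_left ?_ h
      nlinarith [mul_le_mul_of_nonneg_right (by nlinarith : ε ^ 2 ≤ ε) (mul_nonneg hm0 hn)]
  have hfar := P.far_le ht (H := H) (d := d) (by linarith) (by positivity)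
    fun x hx => hB.far ht hb.three (by linarith) hx
  have hlow2 : ∫ x in Ico (-d) H, (if (sph F).real (B x) ≤ γ then (sph F).real (B x) else 0) ≤
      e / 2 * η := by
    refine hlow.trans ?_
    calc _ = e / 2 * ∫ x in Ici H, om (finrank ℝ F) x * (1 - (sph F).real (B x)) := by
          rw [hε]; field_simp; ring
      _ ≤ _ := by gcongr
  have hη0 : 0 ≤ η := hDe.trans hη
  refine ⟨?_, fun r hr => ?_⟩
  · rw [integral_Icc_eq_integral_Ico]
    refine le_trans (setIntegral_mono_set (P.low_intOn γ (by simp)) (Eventually.of_forall fun x => ?_)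
      (Ico_subset_Ico_left (by linarith)).eventuallyLE) (hlow2.trans (by nlinarith))
    simp only [Pi.zero_apply]
    split_ifs <;> simp
  · have hr0 : 0 ≤ r := le_trans (by positivity) hr
    refine (P.tail_le (H := H) (d := d) (γ := γ) (by linarith) fun x hx => ?_).trans ?_
    · have hx' : x ∈ Ico (-d) H := ⟨hx.1, by linarith [hx.2]⟩
      have h1 := P.loc_le ht hH hd5 hc0 hw hx' fun u hu => by
        obtain ⟨y, hy, hO⟩ := hB.mid ht hH hd5 hk4 hx' hu
        exact orb_tri ht hB.meas hy.1 hO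
      refine le_of_mul_le_mul_right (h1.trans ?_) (sub_pos.2 hx'.2)
      calc _ ≤ 8 * t ^ 3 * (η / cL) := by gcongr
        _ = γ * (8 * t ^ 3 / (γ * cL) * η) := by field_simp
        _ ≤ _ := by gcongr; linarith [hx.2]
    · nlinarith [mul_le_mul hd3 hη hDe (by positivity)]

end Pool.Agent.BL.SB
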