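import Pool.Agent.P.MP_edb112_gt.StepBC

/-! The common direction and the tilted cap for step B. -/

set_option autoImplicit false
set_option linter.unusedSectionVars false

open MeasureTheory Set Module Filter Real
open scoped RealInnerProductSpace symmDiff

noncomputable section

namespace Pool.Agent.BL.SB

theorem common_dir (t : ℕ) (ht : 3 ≤ t) {R ε₆ : ℝ} (hR : 1 ≤ R) (h6 : 0 < ε₆) :
    ∃ ε₅ > 0, ε₅ ≤ 1 ∧ ∃ ε > 0, ∃ k₀ : ℕ,
    ∀ (F : Type) [NormedAddCommGroup F] [InnerProductSpace ℝ F] [CompleteSpace F]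
    [FiniteDimensional ℝ F] [MeasurableSpace F] [BorelSpace F], k₀ ≤ finrank ℝ F →
    ∀ B : ℝ → Set F, (∀ x, MeasurableSet (B x)) → ∀ κ : ℝ, 0 < κ →
    (∀ σ : Fin t → ℝ, (∀ a, |σ a| ≤ (R + 1) * κ) → ∑ a, σ a = 0 →
      ∃ y, Near t ε y ∧ OrbFree y fun a => B (σ a)) →
    ∀ σ₀ ∈ Icc 0 (κ / t), |(sph F).real (B σ₀) - Ph (σ₀ / κ)| ≤ ε₅ →
    ∃ e : F, ‖e‖ = 1 ∧ ∀ σ, |σ| ≤ R * κ → |(sph F).real (B σ) - Ph (σ / κ)| ≤ ε₅ →
      |(sph F).real (B (-σ - (t - 2) * σ₀)) - Ph ((-σ - (t - 2) * σ₀) / κ)| ≤ ε₅ →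
      ∀ b, |b + σ / κ| ≤ ε₆ / 2 → (sph F).real (B σ ∆ cap e (b / √(finrank ℝ F))) ≤ ε₆ := by
  have h3 : (3 : ℝ) ≤ t := by exact_mod_cast ht
  obtain ⟨ε', hε', k₁, hcl⟩ := cap_close (R + 2) (ε₆ / 4) (by positivity)
  obtain ⟨γ, hγ, ε, hε, k₂, hst⟩ := stab t ht (R + 2) (min (ε₆ / 4) (ε' / 2)) (by positivity)
  obtain ⟨k₃, hap⟩ := cap_approx (ε₆ / 16) (by positivity)
  obtain ⟨g, hg0, hg1, hg2, hg3⟩ : ∃ g : ℝ, 0 < g ∧ g ≤ 1 ∧ g ≤ ε₆ / 4 ∧ t * g ≤ γ :=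
    ⟨min (min 1 (ε₆ / 4)) (γ / t), by positivity, (min_le_left _ _).trans (min_le_left _ _),
      (min_le_left _ _).trans (min_le_right _ _),
      (le_div_iff₀' (by linarith)).1 (min_le_right _ _)⟩
  refine ⟨ph (R + 2) * g, mul_pos (ph_pos _) hg0, by nlinarith [ph_le (R + 2), ph_pos (R + 2)],
    ε, hε, max (max k₁ k₂) (max k₃ 1), ?_⟩
  intro F _ _ _ _ _ _ hk B hB κ hκ hO σ₀ hσ₀ hg
  have a0 : t * σ₀ ≤ κ := (le_div_iff₀' (by linarith)).1 hσ₀.2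
  have a1 := hσ₀.1
  have a2 : ∀ x, |x| ≤ (R + 1) * κ → |x / κ| ≤ R + 1 ∧ |x / κ - g| ≤ R + 2 := fun x hx => by
    have : |x / κ| ≤ R + 1 := by rwa [abs_div, abs_of_pos hκ, div_le_iff₀ hκ]
    exact ⟨this, (abs_sub _ _).trans (by rw [abs_of_pos hg0]; linarith)⟩
  have a3 : |σ₀| ≤ (R + 1) * κ := by rw [abs_of_nonneg a1]; nlinarith
  have key : ∀ σ, |σ| ≤ R * κ → |(sph F).real (B σ) - Ph (σ / κ)| ≤ ph (R + 2) * g →
      |(sph F).real (B (-σ - (t - 2) * σ₀)) - Ph ((-σ - (t - 2) * σ₀) / κ)| ≤ ph (R + 2) * g →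
      ∃ e : F, ‖e‖ = 1 ∧
        (sph F).real (B σ ∆ cap e (-(σ / κ - g) / √(finrank ℝ F))) ≤ ε₆ / 4 ∧
        (sph F).real (B σ₀ ∆ cap e (-(σ₀ / κ - g) / √(finrank ℝ F))) ≤ ε' / 2 := by
    intro σ h1 h2 h4
    have b1 : ∀ a, |tri t σ (-σ - (t - 2) * σ₀) σ₀ a| ≤ (R + 1) * κ :=
      tri_prop (p := fun z => |z| ≤ (R + 1) * κ) (by linarith) (by
        rw [abs_le] at h1 ⊢
        constructor <;> nlinarith) a3
    have b2 : ∑ a, tri t σ (-σ - (t - 2) * σ₀) σ₀ a = 0 :=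
      (sum_tri (by omega) id _ _ _).trans (by simp only [id]; ring)
    obtain ⟨y, hy, hy'⟩ := hO _ b1 b2
    obtain ⟨e, he, h5⟩ := hst F (by omega) y hy _ (fun a => hB _) hy'
      (fun a => tri t σ (-σ - (t - 2) * σ₀) σ₀ a / κ - g) (fun a => (a2 _ (b1 a)).2)
      (by rw [Finset.sum_sub_distrib, ← Finset.sum_div, b2]; simpa using hg3)
      (fun a => by
        have c1 := tri_prop (p := fun z => |(sph F).real (B z) - Ph (z / κ)| ≤ ph (R + 2) * g)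
          h2 h4 hg a
        have c2 := le_Ph_sub (sub_le_self _ hg0.le) (a2 _ (b1 a)).2
          ((a2 _ (b1 a)).1.trans (by linarith))
        rw [sub_sub_cancel] at c2
        linarith [(abs_le.1 c1).1])
    exact ⟨e, he, (h5 ⟨0, by omega⟩).trans (min_le_left _ _),
      (h5 ⟨2, by omega⟩).trans (min_le_right _ _)⟩
  by_cases hex : ∃ e : F, ‖e‖ = 1 ∧
      (sph F).real (B σ₀ ∆ cap e (-(σ₀ / κ - g) / √(finrank ℝ F))) ≤ ε' / 2
  · obtain ⟨e, he, h0⟩ := hex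
    refine ⟨e, he, fun σ h1 h2 h4 b hb => ?_⟩
    obtain ⟨e', he', h5, h7⟩ := key σ h1 h2 h4
    have c1 := hcl F (by omega) e' e he' he (-(σ₀ / κ - g)) (-(σ / κ - g))
      (by rw [abs_neg]; exact (a2 _ a3).2) (by rw [abs_neg]; exact (a2 _ (by linarith)).2)
      ((measureReal_symmDiff_le (t := B σ₀) _).trans (by rw [symmDiff_comm]; linarith))
    have c2 := measureReal_symmDiff_le (μ := sph F) (s := B σ)
      (t := cap e' (-(σ / κ - g) / √(finrank ℝ F))) (cap e (-(σ / κ - g) / √(finrank ℝ F)))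
    have c3 := measureReal_symmDiff_le (μ := sph F) (s := B σ)
      (t := cap e (-(σ / κ - g) / √(finrank ℝ F))) (cap e (b / √(finrank ℝ F)))
    rw [real_cap_symmDiff] at c3
    have c4 := abs_le.1 (hap F (by omega) e he (-(σ / κ - g)))
    have c5 := abs_le.1 (hap F (by omega) e he b)
    have c6 := abs_Ph_sub_le (-(-(σ / κ - g))) (-b)
    have c7 : |-(-(σ / κ - g)) - -b| ≤ ε₆ / 2 + g := by
      rw [abs_le] at hb ⊢
      constructor <;> linarith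
    have c8 := abs_le.1 (c6.trans (by gcongr : _ ≤ (ε₆ / 2 + g) / 2))
    have c9 : |(sph F).real (cap e (-(σ / κ - g) / √(finrank ℝ F))) -
        (sph F).real (cap e (b / √(finrank ℝ F)))| ≤ ε₆ / 2 := by
      rw [abs_le]
      constructor <;> linarith
    linarith
  · have : Nontrivial F := Module.nontrivial_of_finrank_pos (R := ℝ) (by omega)
    obtain ⟨e, he⟩ := exists_norm_eq F zero_le_one
    refine ⟨e, he, fun σ h1 h2 h4 => ?_⟩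
    obtain ⟨e', he', -, h7⟩ := key σ h1 h2 h4
    exact absurd ⟨e', he', h7⟩ hex

variable {E : Type} [NormedAddCommGroup E] [InnerProductSpace ℝ E] [CompleteSpace E]
  [FiniteDimensional ℝ E] [MeasurableSpace E] [BorelSpace E]

theorem fam_of_free {t : ℕ} (ht : 2 ≤ t) {e : E} (he : ‖e‖ = 1) (hn : t + 2 ≤ finrank ℝ E)
    (hk : Big (finrank ℝ (ℝ ∙ e)ᗮ)) {H : ℝ} (hH : 0 ≤ H) {A : Set E} (hA : MeasurableSet A)
    (hF : Free t (H / √(finrank ℝ (ℝ ∙ e)ᗮ)) A) :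
    Fam t H fun x => slice e (x / √(finrank ℝ (ℝ ∙ e)ᗮ)) A := by
  have hq := sqrt_pos' hk.three
  have h3 : (3 : ℝ) ≤ finrank ℝ (ℝ ∙ e)ᗮ := by exact_mod_cast hk.three
  have h2 : (2 : ℝ) ≤ t := by exact_mod_cast ht
  have hqq : ∀ x : ℝ, (x / √(finrank ℝ (ℝ ∙ e)ᗮ)) ^ 2 = x ^ 2 / finrank ℝ (ℝ ∙ e)ᗮ := fun x => by
    rw [div_pow, Real.sq_sqrt (by linarith)]
  refine ⟨fun x => measurableSet_slice e _ hA, prof_mu e hA hk, fun s ζ h1 h4 h5 h6 => ?_,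
    fun s ζ u h1 h4 h5 h6 h7 h8 h9 => ?_⟩
  · obtain ⟨y, -, hy, hy'⟩ := exists_orbFree ht hn he hF le_rfl (by positivity) one_pos
      (s := fun a => s a / √(finrank ℝ (ℝ ∙ e)ᗮ))
      (fun a => by rw [hqq, div_lt_one (by linarith)]; exact h4 a) (m := 0)
      (by rw [← Finset.sum_div, h5]; simp)
      (by
        simp only [sub_zero, hqq]
        rw [← Finset.sum_div, div_le_iff₀ (by linarith)]
        simpa using h6)
      (by simp)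
    refine ⟨y, hy' _ (fun a => by rw [hqq]; gcongr; exact h1 a) ?_, hy⟩
    have := (sq_nonneg _).trans (h1 ⟨0, by omega⟩)
    simpa using by positivity
  · have b1 : (H / √(finrank ℝ (ℝ ∙ e)ᗮ)) ^ 2 ≤ 1 / 2 := by
      rw [hqq, div_le_iff₀ (by linarith)]
      linarith
    have b2 : ∑ a, (s a / √(finrank ℝ (ℝ ∙ e)ᗮ) - H * (1 - u) / √(finrank ℝ (ℝ ∙ e)ᗮ)) ^ 2 ≤
        u / 2 := by
      simp only [← sub_div, hqq]
      rw [← Finset.sum_div, div_le_iff₀ (by linarith)]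
      linarith
    have b3 : 0 ≤ ∑ a, (s a / √(finrank ℝ (ℝ ∙ e)ᗮ) - H * (1 - u) / √(finrank ℝ (ℝ ∙ e)ᗮ)) ^ 2 :=
      Finset.sum_nonneg fun a _ => sq_nonneg _
    have b4 : (1 : ℝ) ≤ t / (t - 1) := by rw [one_le_div (by linarith)]; linarith
    have b5 : ((t : ℝ) - 1) / t ≤ 1 := by rw [div_le_one (by linarith)]; linarith
    have b6 : 0 ≤ H / √(finrank ℝ (ℝ ∙ e)ᗮ) := by positivity
    obtain ⟨y, -, hy, hy'⟩ := exists_orbFree ht hn he hF b6 le_rfl (by nlinarith)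
      (s := fun a => s a / √(finrank ℝ (ℝ ∙ e)ᗮ))
      (fun a => by rw [hqq, div_lt_one (by linarith)]; linarith [h1 a])
      (m := H * (1 - u) / √(finrank ℝ (ℝ ∙ e)ᗮ))
      (by rw [← Finset.sum_div, h8, mul_div_assoc]) (by nlinarith)
      (by
        have b7 := mul_le_mul b5 b2 b3 zero_le_one
        rw [mul_div_right_comm] at b7 ⊢
        rw [mul_pow, mul_assoc]
        refine mul_le_mul_of_nonneg_left ?_ (sq_nonneg _)
        nlinarith [mul_le_mul_of_nonneg_right (by nlinarith : (1 - u) ^ 2 ≤ 1 - u)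
          (by linarith : 0 ≤ 1 - (H / √(finrank ℝ (ℝ ∙ e)ᗮ)) ^ 2)])
    exact ⟨y, hy' _ (fun a => by rw [hqq]; gcongr; exact h1 a) (by rw [hqq]; gcongr), hy⟩

theorem slice_tilt {e : E} (he : ‖e‖ = 1) (v : (ℝ ∙ e)ᗮ) {κ s : ℝ} (hκ : 0 < κ) (hs : s ^ 2 < 1)
    (h : ℝ) : slice e s (cap ((√(1 + κ ^ 2))⁻¹ • e + ((√(1 + κ ^ 2))⁻¹ * κ) • (v : E)) h) =
      cap v ((h * √(1 + κ ^ 2) - s) / (κ * √(1 - s ^ 2))) := by
  have h1 : 0 < √(1 + κ ^ 2) := by positivity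
  have h2 : 0 < √(1 - s ^ 2) := Real.sqrt_pos.2 (by linarith)
  ext y
  simp only [slice, cap, mem_ofPred_eq, inner_lift he]
  rw [div_le_iff₀ (by positivity), mul_assoc, mul_assoc, ← mul_add, le_inv_mul_iff₀ h1]
  constructor <;> intro _ <;> linarith

theorem tilt {e : E} (he : ‖e‖ = 1) (hk : Big (finrank ℝ (ℝ ∙ e)ᗮ)) {A : Set E}
    (hA : MeasurableSet A) {v : (ℝ ∙ e)ᗮ} (hv : ‖v‖ = 1) {κ p H R r s b ε₅ ε₆ L : ℝ}
    (hκ : 0 < κ) (hR : 1 ≤ R) (hr : (R + 1) * κ ≤ r) (hs : r ≤ s) (hb0 : 0 ≤ b) (hb : b ≤ κ)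
    (h5 : 0 < ε₅) (h6 : 0 < ε₆) (h6' : ε₆ ≤ 1) (hρ0 : p ≤ H * √(1 + κ ^ 2))
    (hρ : H * √(1 + κ ^ 2) - p ≤ ε₆ / 8 * κ) (hL : |p| + R * κ ≤ L)
    (hL' : 8 * R * L ^ 2 ≤ ε₆ * finrank ℝ (ℝ ∙ e)ᗮ)
    (hcd : ∀ σ, |σ| ≤ R * κ → |mu e A (p + σ) - Ph (σ / κ)| ≤ ε₅ →
      |mu e A (p + (-σ - b)) - Ph ((-σ - b) / κ)| ≤ ε₅ → ∀ β, |β + σ / κ| ≤ ε₆ / 2 →
      (sph (ℝ ∙ e)ᗮ).real (slice e ((p + σ) / √(finrank ℝ (ℝ ∙ e)ᗮ)) A ∆
        cap v (β / √(finrank ℝ (ℝ ∙ e)ᗮ))) ≤ ε₆) :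
    ∃ e' : E, ‖e'‖ = 1 ∧ (sph E).real (A ∆ cap e' (H / √(finrank ℝ (ℝ ∙ e)ᗮ))) ≤
      (∫ x in Iio (-r), om (finrank ℝ (ℝ ∙ e)ᗮ) (p + x) * mu e A (p + x)) +
      (∫ x in Ioi s, om (finrank ℝ (ℝ ∙ e)ᗮ) (p + x) * (1 - mu e A (p + x))) +
      (1 + 2 / ε₅) * (∫ x in Icc (-r) s, |mu e A (p + x) - Ph (x / κ)|) + 48 * κ / R +
      2 * R * κ * ε₆ := by
  have hq := sqrt_pos' hk.three
  have hk3 := hk.three
  have h3 : (3 : ℝ) ≤ finrank ℝ (ℝ ∙ e)ᗮ := by exact_mod_cast hk.three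
  have : Nontrivial (ℝ ∙ e)ᗮ := Module.nontrivial_of_finrank_pos (R := ℝ) (by omega)
  set q := √(finrank ℝ (ℝ ∙ e)ᗮ : ℝ) with hqd
  have hqq : ∀ x : ℝ, (x / q) ^ 2 = x ^ 2 / finrank ℝ (ℝ ∙ e)ᗮ := fun x => by
    rw [div_pow, Real.sq_sqrt (by linarith)]
  have h1 : 0 < √(1 + κ ^ 2) := by positivity
  set e' : E := (√(1 + κ ^ 2))⁻¹ • e + ((√(1 + κ ^ 2))⁻¹ * κ) • (v : E) with he'
  set ρ := H * √(1 + κ ^ 2) - p with hρd
  have hρ1 : 0 ≤ ρ := sub_nonneg.2 hρ0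
  have hc := measurableSet_cap e' (H / q)
  have hS := hA.symmDiff hc
  have P := (prof_mu e hA hk).shift p
  have Q := (prof_mu e hS hk).shift p
  have hN : ∀ x, (p + x) ^ 2 < finrank ℝ (ℝ ∙ e)ᗮ → ∃ z, 0 < z ∧ z ≤ 1 ∧
      1 - (p + x) ^ 2 / finrank ℝ (ℝ ∙ e)ᗮ ≤ z ∧ mu e (A ∆ cap e' (H / q)) (p + x) =
      (sph (ℝ ∙ e)ᗮ).real (slice e ((p + x) / q) A ∆ cap v ((ρ - x) / κ / z / q)) := by
    intro x hx
    have b1 : ((p + x) / q) ^ 2 < 1 := by rwa [hqq, div_lt_one (by linarith)]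
    have b2 : 0 < √(1 - ((p + x) / q) ^ 2) := Real.sqrt_pos.2 (by linarith)
    have b3 : √(1 - ((p + x) / q) ^ 2) ≤ 1 :=
      Real.sqrt_le_one.2 (by linarith [sq_nonneg ((p + x) / q)])
    refine ⟨_, b2, b3, ?_, ?_⟩
    · rw [← hqq]
      nlinarith [Real.mul_self_sqrt (sub_nonneg.2 b1.le)]
    · have b4 : (ρ - x) / κ / √(1 - ((p + x) / q) ^ 2) / q =
          (H / q * √(1 + κ ^ 2) - (p + x) / q) / (κ * √(1 - ((p + x) / q) ^ 2)) := by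
        rw [hρd]
        generalize √(1 - ((p + x) / q) ^ 2) = z at b2
        field_simp
        ring
      rw [b4, ← slice_tilt he v hκ b1]
      rfl
  have hZ : ∀ x M : ℝ, 0 ≤ M → (∀ z, 0 < z → z ≤ 1 → (sph (ℝ ∙ e)ᗮ).real
      (slice e ((p + x) / q) A ∆ cap v ((ρ - x) / κ / z / q)) ≤ M + 4 * (κ / x) ^ 2) →
      om (finrank ℝ (ℝ ∙ e)ᗮ) (p + x) * mu e (A ∆ cap e' (H / q)) (p + x) ≤
        om (finrank ℝ (ℝ ∙ e)ᗮ) (p + x) * M + 4 * (κ / x) ^ 2 := by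
    intro x M hM h
    rcases le_or_gt (finrank ℝ (ℝ ∙ e)ᗮ : ℝ) ((p + x) ^ 2) with h2 | h2
    · rw [om_eq_zero hk3 h2, zero_mul, zero_mul]
      positivity
    · obtain ⟨z, z0, z1, -, hz⟩ := hN x h2
      rw [hz]
      refine (mul_le_mul_of_nonneg_left (h z z0 z1) (P.w0 x)).trans ?_
      rw [mul_add]
      exact add_le_add_right (mul_le_of_le_one_left (by positivity) (P.w1 x)) _
  have hRκ : κ ≤ R * κ := le_mul_of_one_le_left hκ.le hR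
  refine ⟨e', norm_eq_one_of_inner ?_, ?_⟩
  · rw [he', inner_lift he, real_inner_self_eq_norm_sq, hv]
    field_simp
    rw [Real.sq_sqrt (by positivity)]
  rw [real_eq_om he hk3 hS, ← integral_add_left_eq_self _ p]
  refine P.tilt_le Q hκ hR hr hs hb0 hb h5 h6.le (fun x hx => hZ x _ (P.m0 x) fun z z0 z1 => ?_)
    (fun x hx => hZ x _ (P.compl.m0 x) fun z z0 z1 => ?_) fun x hx g1 g2 => ?_
  · have b1 : 0 < -x / κ := div_pos (by linarith) hκ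
    have b2 := cap_le_sq hv b1
    have b3 : -x / κ ≤ (ρ - x) / κ / z :=
      le_trans (by gcongr; linarith) (le_div_self (div_nonneg (by linarith) hκ.le) z0 z1)
    rw [inv_div, div_neg, neg_sq] at b2
    refine (measureReal_mono (s₂ := slice e ((p + x) / q) A ∪ cap v (-x / κ / q))
      (symmDiff_subset_union.trans (union_subset_union_right _ fun y hy => ?_))).trans
      ((measureReal_union_le _ _).trans (add_le_add_right (b2.trans ?_) _))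
    · exact le_trans (div_le_div_of_nonneg_right b3 hq.le) hy
    · nlinarith [sq_nonneg (κ / x)]
  · have b0 : ρ ≤ x / 2 := by nlinarith
    have b1 : 0 < x / κ / 2 := by have : 0 < x := by linarith
                                  positivity
    have b2 := cap_le_sq (e := -v) (by rwa [norm_neg]) b1
    have b3 : x / κ / 2 ≤ (x - ρ) / κ / z :=
      le_trans (by rw [div_right_comm]; gcongr; linarith)
        (le_div_self (div_nonneg (by linarith) hκ.le) z0 z1)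
    rw [← compl_symmDiff_compl, mu, ← real_compl (measurableSet_slice e _ hA)]
    refine (measureReal_mono (s₂ := (slice e ((p + x) / q) A)ᶜ ∪ cap (-v) (x / κ / 2 / q))
      (symmDiff_subset_union.trans (union_subset_union_right _ fun y hy => ?_))).trans
      ((measureReal_union_le _ _).trans (add_le_add_right (b2.trans_eq ?_) _))
    · simp only [cap, mem_compl_iff, mem_ofPred_eq, not_le, inner_neg_left] at hy ⊢
      have b4 : x / κ / 2 / q ≤ (x - ρ) / κ / z / q := by gcongr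
      have b5 : (x - ρ) / κ / z / q = -((ρ - x) / κ / z / q) := by ring
      linarith
    · field_simp
      norm_num
  · have b1 : (p + x) ^ 2 ≤ L ^ 2 := by
      rw [← sq_abs]
      gcongr
      linarith [abs_add_le p x]
    have b2 : R * (p + x) ^ 2 ≤ ε₆ / 8 * finrank ℝ (ℝ ∙ e)ᗮ := by nlinarith
    have b3 : R * ((p + x) ^ 2 / finrank ℝ (ℝ ∙ e)ᗮ) ≤ ε₆ / 8 := by
      rwa [← mul_div_assoc, div_le_iff₀ (by linarith)]
    obtain ⟨z, z0, z1, z2, hz⟩ := hN x (by nlinarith [sq_nonneg (p + x)])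
    rw [hz]
    refine hcd x hx g1 g2 _ ?_
    have b4 : R * (1 - z) ≤ ε₆ / 8 := le_trans (by gcongr; linarith) b3
    have b5 : 1 / 2 ≤ z := by nlinarith
    have b6 : |x / κ| ≤ R := by rwa [abs_div, abs_of_pos hκ, div_le_iff₀ hκ]
    have b7 : ρ / κ ≤ ε₆ / 8 := by rwa [div_le_iff₀ hκ]
    have b8 : 0 ≤ ρ / κ := by positivity
    have b9 : (ρ - x) / κ / z + x / κ = (ρ / κ - x / κ * (1 - z)) / z := by field_simp; ring
    rw [b9, abs_div, abs_of_pos z0, div_le_iff₀ z0]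
    refine (abs_sub _ _).trans ?_
    rw [abs_of_nonneg b8, abs_mul, abs_of_nonneg (sub_nonneg.2 z1)]
    nlinarith [mul_le_mul_of_nonneg_right b6 (sub_nonneg.2 z1)]

end Pool.Agent.BL.SB
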