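import Pool.Agent.P.MP_edb112_gt.Avg
import Pool.Agent.P.MP_edb112_gt.Gauss

/-! Tangential gradients and solutions of the heat equation on the sphere. -/

set_option autoImplicit false
set_option linter.unusedSectionVars false

open MeasureTheory Set Module Filter
open scoped RealInnerProductSpace Topology

noncomputable section

namespace Pool.Agent.BL

variable {E : Type} [NormedAddCommGroup E] [InnerProductSpace ℝ E] [FiniteDimensional ℝ E]
  [CompleteSpace E] [MeasurableSpace E] [BorelSpace E]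

/-- spatial gradient of a space-time function -/
def sg (f : ℝ × E → ℝ) (p : ℝ × E) : E :=
  (InnerProductSpace.toDual ℝ E).symm ((fderiv ℝ f p).comp (ContinuousLinearMap.inr ℝ ℝ E))

theorem inner_sg (f : ℝ × E → ℝ) (p : ℝ × E) (w : E) : ⟪sg f p, w⟫ = fderiv ℝ f p (0, w) := by
  simp [sg]

/-- tangential gradient of a space-time function -/
def tg (f : ℝ × E → ℝ) (p : ℝ × E) : E := sg f p - ⟪p.2, sg f p⟫ • p.2

theorem inner_tg (f : ℝ × E → ℝ) (p : ℝ × E) (w : E) :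
    ⟪tg f p, w⟫ = fderiv ℝ f p (0, w - ⟪p.2, w⟫ • p.2) := by
  rw [← inner_sg, tg, inner_sub_left, inner_sub_right, real_inner_smul_left,
    real_inner_smul_right, real_inner_comm p.2 (sg f p)]
  ring

theorem inner_tg_of_perp (f : ℝ × E → ℝ) (p : ℝ × E) {w : E} (hw : ⟪p.2, w⟫ = 0) :
    ⟪tg f p, w⟫ = fderiv ℝ f p (0, w) := by
  rw [inner_tg, hw, zero_smul, sub_zero]

theorem inner_tg_self (f : ℝ × E → ℝ) (τ : ℝ) {x : E} (hx : ‖x‖ = 1) :
    ⟪x, tg f (τ, x)⟫ = 0 := by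
  rw [real_inner_comm, inner_tg]
  simp only [real_inner_self_eq_norm_sq, hx, one_pow, one_smul, sub_self]
  exact map_zero _

theorem continuousAt_sg {f : ℝ × E → ℝ} {p : ℝ × E} (hf : ContDiffAt ℝ 1 f p) :
    ContinuousAt (sg f) p :=
  (InnerProductSpace.toDual ℝ E).symm.continuous.continuousAt.comp
    ((continuousAt_fderiv' hf).clm_comp continuousAt_const)

theorem continuousAt_tg {f : ℝ × E → ℝ} {p : ℝ × E} (hf : ContDiffAt ℝ 1 f p) :
    ContinuousAt (tg f) p :=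
  (continuousAt_sg hf).sub ((continuousAt_snd.inner (continuousAt_sg hf)).smul continuousAt_snd)

theorem IsSkew.inner_self {A : E →L[ℝ] E} (h : IsSkew A) (x : E) : ⟪x, A x⟫ = 0 := by
  have := h x x
  rw [real_inner_comm] at this
  linarith

theorem df_eq_tg (f : ℝ × E → ℝ) (p : ℝ × E) {A : E →L[ℝ] E} (hA : IsSkew A) :
    df f p A = ⟪tg f p, A p.2⟫ := by
  rw [inner_tg_of_perp f p (hA.inner_self _), df_apply, act_self]

/-- the rotation gradient attached to a tangent vector `g` at `x` -/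
def wv (x g : E) : EuclideanSpace ℝ (Ix E) := WithLp.toLp 2 fun j => ⟪g, hA j x⟫

theorem inner_wv (x g x' g' : E) :
    ⟪wv x g, wv x' g'⟫ = ⟪x, x'⟫ * ⟪g, g'⟫ - ⟪x, g'⟫ * ⟪x', g⟫ := by
  rw [← inner_hA]
  simp [wv, PiLp.inner_apply, mul_comm]

theorem norm_wv {x g : E} (hx : ‖x‖ = 1) (hg : ⟪x, g⟫ = 0) : ‖wv x g‖ = ‖g‖ := by
  rw [← sq_eq_sq₀ (norm_nonneg _) (norm_nonneg _), ← real_inner_self_eq_norm_sq, inner_wv, hg,
    real_inner_self_eq_norm_sq, real_inner_self_eq_norm_sq, hx]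
  ring

theorem wv_smul (x : E) (c : ℝ) (g : E) : wv x (c • g) = c • wv x g := by
  ext j
  simp [wv, real_inner_smul_left]

theorem hg_eq_wv (f : ℝ × E → ℝ) (p : ℝ × E) : hg E f p = wv p.2 (tg f p) := by
  ext j
  rw [hg_apply, df_eq_tg f p (isSkew_hA j)]
  rfl

theorem norm_hg (f : ℝ × E → ℝ) (τ : ℝ) {x : E} (hx : ‖x‖ = 1) :
    ‖hg E f (τ, x)‖ = ‖tg f (τ, x)‖ := by
  rw [hg_eq_wv, norm_wv hx (inner_tg_self f τ hx)]

theorem hjet_tg {f : ℝ × E → ℝ} {p : ℝ × E} (hf : ContDiffAt ℝ 2 f p) :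
    HJet f p (f p) (heat E f p) (wv p.2 (tg f p)) := by
  rw [← hg_eq_wv]
  exact HJet.of' hf

theorem tg_comp {f : ℝ × E → ℝ} {p : ℝ × E} (hf : DifferentiableAt ℝ f p) {h : ℝ → ℝ} {h' : ℝ}
    (hh : HasDerivAt h h' (f p)) : tg (fun q => h (f q)) p = h' • tg f p := by
  refine ext_inner_right ℝ fun w => ?_
  rw [real_inner_smul_left, inner_tg, inner_tg, fderiv_comp_real hf hh]

/-- averages over the orbit of a unit vector are integrals over the sphere -/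
theorem ev_unit {x : E} (hx : ‖x‖ = 1) {f : ℝ × E → ℝ} {τ : ℝ}
    (hf : ∀ y, ‖y‖ = 1 → ContinuousAt f (τ, y)) : ev E x f τ = ∫ y, f (τ, y) ∂(sph E) := by
  have : Nontrivial E := ⟨⟨x, 0, by rintro rfl; simp at hx⟩⟩
  refine integral_ap hx (f := fun y => f (τ, y)) (integrable_of_continuousOn ?_).aestronglyMeasurable
  exact fun y hy => ((hf y hy).comp_of_eq (f := fun y : E => (τ, y)) (by fun_prop)
    rfl).continuousWithinAt

/-- the jet of the `a`-th point of a configuration -/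
theorem HJet.pt {ι : Type} [Fintype ι] {f : ℝ × E → ℝ} {τ : ℝ} {z : ι → E} (a : ι) {v o : ℝ}
    {g : EuclideanSpace ℝ (Ix E)} (h : HJet f (τ, z a) v o g) :
    HJet (fun q : ℝ × (ι → E) => f (q.1, q.2 a)) (τ, z) v o g :=
  HJet.pull (ContinuousLinearMap.proj (R := ℝ) (φ := fun _ : ι => E) a) (fun _ _ => rfl) h

/-- solutions of the heat equation on the sphere -/
structure IsHeat (U : ℝ × E → ℝ) : Prop where
  sm : ContDiff ℝ 3 U
  eq : ∀ τ x, ‖x‖ = 1 → heat E U (τ, x) = 0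

theorem IsHeat.c2 {U : ℝ × E → ℝ} (h : IsHeat U) (p : ℝ × E) : ContDiffAt ℝ 2 U p :=
  h.sm.contDiffAt.of_le (by norm_num)

theorem IsHeat.jet {U : ℝ × E → ℝ} (h : IsHeat U) (τ : ℝ) {x : E} (hx : ‖x‖ = 1) :
    HJet U (τ, x) (U (τ, x)) 0 (wv x (tg U (τ, x))) :=
  (hjet_tg (h.c2 _)).congr rfl (h.eq τ x hx) rfl

theorem unit_ga (g : G E) (z : E) (hz : z ∈ {x : E | ‖x‖ = 1}) : ga g z ∈ {x : E | ‖x‖ = 1} :=
  (norm_ap g z).trans hz

theorem IsHeat.le {U : ℝ × E → ℝ} (h : IsHeat U) {a c : ℝ} (h0 : ∀ x, ‖x‖ = 1 → U (a, x) ≤ c)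
    {τ : ℝ} (hτ : a ≤ τ) {x : E} (hx : ‖x‖ = 1) : U (τ, x) ≤ c :=
  max_principle (E := E) isCompact_unit unit_ga (fun _ _ _ _ => h.c2 _)
    (fun s _ y hy => (h.eq s y hy).le) h0 hτ hx

theorem IsHeat.ge {U : ℝ × E → ℝ} (h : IsHeat U) {a c : ℝ} (h0 : ∀ x, ‖x‖ = 1 → c ≤ U (a, x))
    {τ : ℝ} (hτ : a ≤ τ) {x : E} (hx : ‖x‖ = 1) : c ≤ U (τ, x) :=
  neg_le_neg_iff.1 <| max_principle (E := E) (f := fun q => -U q) isCompact_unit unit_ga
    (fun _ _ _ _ => (h.c2 _).neg)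
    (fun s _ _ hy => ((h.jet s hy).neg.op.trans neg_zero).le)
    (fun y hy => neg_le_neg (h0 y hy)) hτ hx

theorem IsHeat.integral_eq [Nontrivial E] {U : ℝ × E → ℝ} (h : IsHeat U) (τ : ℝ) :
    ∫ x, U (τ, x) ∂(sph E) = ∫ x, U (0, x) ∂(sph E) := by
  obtain ⟨x, hx⟩ := exists_norm_eq E zero_le_one
  have hc : ∀ s y, ‖y‖ = 1 → ContinuousAt U (s, y) := fun s y _ => (h.c2 _).continuousAt
  rw [← ev_unit hx (hc τ), ← ev_unit hx (hc 0)]
  have hd : ∀ s, HasDerivAt (ev E x U) 0 s := by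
    intro s
    have := hasDerivAt_ev (E := E) (z := x) (f := U) (a := s - 1) (b := s + 1) (τ := s)
      ⟨by linarith, by linarith⟩ fun _ _ _ => h.c2 _
    refine this.congr_deriv ?_
    simp [ev, h.eq s _ ((norm_ap _ x).trans hx)]
  exact is_const_of_deriv_eq_zero (fun s => (hd s).differentiableAt) (fun s => (hd s).deriv) _ _

/-- the equation satisfied by the Gaussian quantile of a solution -/
theorem IsHeat.jet_Ps {U : ℝ × E → ℝ} (h : IsHeat U) (τ : ℝ) {x : E} (hx : ‖x‖ = 1)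
    (h0 : 0 < U (τ, x)) (h1 : U (τ, x) < 1) :
    HJet (fun q => Ps (U q)) (τ, x) (Ps (U (τ, x)))
      (-(1 / 2) * Ps (U (τ, x)) * ‖tg (fun q => Ps (U q)) (τ, x)‖ ^ 2)
      (wv x (tg (fun q => Ps (U q)) (τ, x))) := by
  have hp := ph_pos (Ps (U (τ, x)))
  have h2 : HasDerivAt (fun y => (ph (Ps y))⁻¹)
      (Ps (U (τ, x)) / ph (Ps (U (τ, x))) ^ 2) (U (τ, x)) := by
    refine (((hasDerivAt_ph _).comp _ (hasDerivAt_Ps h0 h1)).inv hp.ne').congr_deriv ?_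
    simp only [Function.comp]
    field_simp
  have h3 := (h.jet τ hx).comp (φ := Ps) (φ' := fun y => (ph (Ps y))⁻¹) (contDiffAt_Ps 2 h0 h1)
    (mem_of_superset (Ioo_mem_nhds h0 h1) fun y hy => hasDerivAt_Ps hy.1 hy.2) h2
  have h4 := tg_comp ((h.c2 (τ, x)).differentiableAt (by simp)) (hasDerivAt_Ps h0 h1)
  refine h3.congr rfl ?_ (by rw [h4, wv_smul])
  rw [h4, norm_wv hx (inner_tg_self U τ hx), norm_smul, mul_pow, Real.norm_eq_abs, sq_abs]
  field_simp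
  ring

end Pool.Agent.BL
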